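import Pool.Agent.Lib.MP_5769ea_ag.Defs2

/-!
# MP_5769ea_ag, Spec, part 2: classification of the bad loci

`t y : Fin 12 → ℂ` are generic; `up t`, `up y` are their images in `K`.
-/

open MvPolynomial

namespace Pool.Agent.MP5769ea

/-- **Num.**  Numerical classification.
PROOF. Put `C = c + 1`, `S = Σ γ_i`, `T = Σ γ_i (γ_i + 1)`; `γ(γ+1) ≥ 0`, `γ(γ+1) ≥ 2γ` for all
integers `γ ≥ -1` (so `2 S ≤ T`), and Cauchy-Schwarz:
`(2 S + 12)^2 = (Σ (2γ_i + 1))^2 ≤ 12 Σ (2γ_i+1)^2 = 12 (4 T + 12)`.  From `S ≥ 2c + 2κ - 4` we get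
`2S + 12 ≥ 4(C + κ) - 4·... ` precisely `2S+12 ≥ 4c + 4κ + 4 = 4(C + κ) ≥ 0`, so
`16 (C+κ)^2 ≤ 48 T + 144 ≤ 48 κ(2C - 1 - κ) + 144`, i.e. `(C+κ)^2 ≤ 3κ(2C-1-κ) + 9`, i.e.
`(C - 2κ)^2 + 3κ ≤ 9`; hence `κ ≤ 3` and `|C - 2κ| ≤ 3`.
`κ = 3`: `C = 6`, `c = 5`, `T ≤ 24`, `S ≥ 12`, `2S ≤ T` gives equality `γ_i(γ_i+1) = 2γ_i` for all `i`,
so `γ_i ∈ {0, 1}` and `S = 12` gives `γ_i = 1`.
`κ = 2`: `2(2c + 4 - 4) ≤ 2S ≤ T ≤ 2(2c - 1)`: impossible.
`κ = 1`: `2(2c - 2) ≤ 2S ≤ T ≤ 2c`, so `c ≤ 2`; (`c ≥ 0` because `κ ≤ c + 1`).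
 `c = 0`: `T ≤ 0`, so all `γ_i ∈ {0,-1}`, `S ≥ -2`.
 `c = 1`: `T ≤ 2`, `S ≥ 0`: at most one `γ_i ≥ 1` and it is `1`; if none, `S ≥ 0` gives all
   `γ_i = 0`; if one, at most one `γ_j = -1`.
 `c = 2`: `T ≤ 4`, `S ≥ 2`, so `2S = T = 4`: all `γ_i ∈ {0,1}`, exactly two equal to `1`.
`κ = 0`: `T ≤ 0`: all `γ_i ∈ {0, -1}`; `S ≥ 2c - 4` and `S ≤ 0` give `c ≤ 2`. -/
def S_Num : Prop :=
  ∀ (c κ : ℤ) (γ : Fin 12 → ℤ), 0 ≤ κ → κ ≤ c + 1 → (∀ i, -1 ≤ γ i) →
    2 * c + 2 * κ - ∑ i, γ i ≤ 4 → ∑ i, γ i * (γ i + 1) ≤ κ * (2 * c + 1 - κ) →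
    (κ = 0 ∧ c ≤ 2 ∧ (∀ i, γ i = 0 ∨ γ i = -1) ∧ 2 * c - 4 ≤ ∑ i, γ i) ∨
    (κ = 1 ∧ c = 0 ∧ (∀ i, γ i = 0 ∨ γ i = -1) ∧ -2 ≤ ∑ i, γ i) ∨
    (κ = 1 ∧ c = 1 ∧ ∀ i, 0 ≤ γ i) ∨
    (κ = 1 ∧ c = 1 ∧ ∃ i j, i ≠ j ∧ γ i = 1 ∧ γ j = -1 ∧ ∀ k, k ≠ i → k ≠ j → γ k = 0) ∨
    (κ = 1 ∧ c = 2 ∧ ∃ i j, i ≠ j ∧ γ i = 1 ∧ γ j = 1 ∧ ∀ k, k ≠ i → k ≠ j → γ k = 0) ∨
    (κ = 3 ∧ c = 5 ∧ ∀ i, γ i = 1)

/-- **PairBez.**  Allowed hypothesis: `S_Bezout` (file Spec1; import it).  The inequality of Bezout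
for a primitive pair.
PROOF. `c ≥ -1`.  If `c = -1` then `κ = 0`, `R = 0`, `P` is a nonzero constant, so `γ_i = -1` for all
`i` and both sides are `0`.  If `c ≥ 0`: apply Bezout with `d₁ = c+1`, `μ₁ = κ`, `d₂ = c`,
`μ₂ = min κ c` (`PD c κ = PD c (min κ c)`), `α_i = γ_i + 1`, `β_i = max γ_i 0`, `A_i = C (x_i)`; the
bound is `κ(2c+1-κ)` in both cases `κ ≤ c` and `κ = c+1`.  The points `pt t y i` are distinct
(genericity). -/
def S_PairBez : Prop :=
  ∀ (K : Type) [Field K] [CharZero K] (t y x : Fin 12 → K), Gen t y →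
    ∀ (c κ : ℤ) (γ : Fin 12 → ℤ) (P R : MvPolynomial (Fin 2) K), PairType t y x c κ γ P R →
      ∑ i, γ i * (γ i + 1) ≤ κ * (2 * c + 1 - κ)

/-- **GenPos.**  Elementary consequences of genericity (over any extension `K` of `ℂ`).
PROOF. Algebraic independence of `(t_i, y_i)` over `ℚ` is inherited by the images in `K`
(`AlgebraicIndependent.map'` for the injective `algebraMap ℂ K`, or restate it).
(1) `t_i ≠ t_j`.  (2) three points are not collinear: the determinant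
`(t_j - t_i)(y_k - y_i) - (t_k - t_i)(y_j - y_i)` is a nonzero polynomial in the coordinates.
(3) seven of the points do not lie on a curve of `PD 2 1 ∪ PD 2 2` etc.; here we only need:
a polynomial of `PD K 2 1` (five coefficients) vanishing at `≥ 5` of the points is zero, a
polynomial of `PD K 3 1` (seven coefficients) vanishing at `≥ 7` of the points is zero, a polynomial
of `PD K 2 2` vanishing at `≥ 6` of the points is zero, a polynomial of `PD K 3 3` (ten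
coefficients) vanishing at `≥ 10` of the points is zero; all these are the nonvanishing at generic
points of determinants `det (t_i^{a_k} y_i^{b_k})`, whose expansion consists of distinct monomials
(see S_Simple in Spec1; it may be used as a hypothesis: `Gen` holds in `K`). -/
def S_GenPos : Prop :=
  ∀ (t y : Fin 12 → ℂ), Gen t y → ∀ (K : Type) [Field K] [Algebra ℂ K],
    (∀ i j, i ≠ j → t i ≠ t j) ∧
    (∀ i j k, i ≠ j → i ≠ k → j ≠ k →
      (t j - t i) * (y k - y i) - (t k - t i) * (y j - y i) ≠ 0) ∧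
    (∀ (F : MvPolynomial (Fin 2) K) (I : Finset (Fin 12)), (∀ i ∈ I, eval (up (pt t y i)) F = 0) →
      (F ∈ PD K 2 1 → 5 ≤ I.card → F = 0) ∧ (F ∈ PD K 3 1 → 7 ≤ I.card → F = 0) ∧
      (F ∈ PD K 2 2 → 6 ≤ I.card → F = 0) ∧ (F ∈ PD K 3 3 → 10 ≤ I.card → F = 0))

/-- **Small0.**  Types with `κ = 0`.  Allowed hypothesis: `S_GenPos`.
PROOF. `P, R` are polynomials in `t` alone (`y`-degree 0), `deg R ≤ c`, `deg P ≤ c + 1`, coprime.
`I = {i : γ_i = -1}` has at most `4 - 2c` elements; for `i ∉ I`: `P(t_i) = x_i R(t_i)`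
(order `≥ 1` of `P - x_i R` at `q_i`), and `R(t_i) ≠ 0` (otherwise `P(t_i) = 0` and `t - t_i` divides
both).  `c = -1`: `R = 0`, `P` is a nonzero constant and all `γ_i = -1`, but
`Σ γ_i ≥ 2c - 4 = -6`: impossible.  If `R = 0` (any `c`) then `P` is a unit and again all
`γ_i = -1`, impossible because `-12 < 2c - 4` for `c ≥ -1`.
`c = 0`: `R = r ≠ 0`, `P = a + b t`: `x_i - a/r - (b/r) t_i = 0` for `i ∉ I`, `|I| ≤ 4`.  If the four
remaining numbers `z_i = x_i - a/r - (b/r)t_i` (`i ∈ I`) are all zero take `l = 1`; otherwise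
divide by one of them (`l = z_{i₀}^{-1}`), the three others (times `l`) are the generators `a`.
`c = 1`: `|I| ≤ 2`.  If `R = r (t - τ)`: `P = R ℓ + ρ`, `ℓ = l0 + l1 t`, `ρ ≠ 0` constant
(`ρ = 0` would give `R ∣ P`); with `l = r/ρ`: `l (x_i - ℓ(t_i)) = 1/(t_i - τ)` for `i ∉ I`;
generators: `τ` and the (at most two) values `l (x_i - ℓ(t_i))`, `i ∈ I`.  If `R = r` is a constant:
`P/r = l0 + l1 t + δ t^2`; if `δ ≠ 0` take `l = δ^{-1}`, values `t_i^2` and two free values; if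
`δ = 0` take `l = 1`, values `0` and two free values.
`c = 2`: `I = ∅`.  `R` of degree 2: normalise `R` monic, `R = t^2 + r_1 t + r_0`, `P = Rℓ + α + βt`,
`(α,β) ≠ 0`; dividing by `α` (or `β` if `α = 0`) the values `(α + β t_i)/R(t_i)` lie in the field
generated by `r_0, r_1, β/α`.  `R` of degree 1, `R = r(t - τ)`: `P = R (δ t^2/r' + ℓ) + ρ`: the values
are `δ' t_i^2 + ρ'/(t_i - τ)`: generators `τ, ρ'/δ'` (or `τ` if `δ' = 0`).  `R` constant: values
`α t_i^3 + β t_i^2`, one generator. -/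
def S_Small0 : Prop :=
  ∀ (t y : Fin 12 → ℂ), Gen t y → ∀ (K : Type) [Field K] [Algebra ℂ K] (x : Fin 12 → K)
    (c : ℤ) (γ : Fin 12 → ℤ) (P R : MvPolynomial (Fin 2) K),
    PairType (up t) (up y) x c 0 γ P R → c ≤ 2 → (∀ i, γ i = 0 ∨ γ i = -1) →
    2 * c - 4 ≤ ∑ i, γ i → SmallDim t x

/-- **Small1.**  Type `κ = 1, c = 0`.
PROOF. `R = r` is a constant, `P = α + β t + κ' y` (total degree `≤ 1`).  `R ≠ 0` (otherwise `P` is a
unit and all `γ_i = -1`).  For `i ∉ I = {γ_i = -1}`, `|I| ≤ 2`: `x_i = P(q_i)/r`.  So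
`x_i - l0 - l1 t_i = κ'' y_i` for `i ∉ I` and two further values for `i ∈ I`.  If `κ'' ≠ 0` take
`l = 1/κ''` and as generators the two values `l (x_i - l0 - l1 t_i)`, `i ∈ I`; if `κ'' = 0`, take
`l = 1`.  (`y_i ∈ ℂ` is algebraic over any field containing `ℂ`.) -/
def S_Small1 : Prop :=
  ∀ (t y : Fin 12 → ℂ), Gen t y → ∀ (K : Type) [Field K] [Algebra ℂ K] (x : Fin 12 → K)
    (γ : Fin 12 → ℤ) (P R : MvPolynomial (Fin 2) K),
    PairType (up t) (up y) x 0 1 γ P R → (∀ i, γ i = 0 ∨ γ i = -1) →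
    -2 ≤ ∑ i, γ i → SmallDim t x

/-- **Small2.**  Type `κ = 1, c = 1` with one `γ_i = 1`, one `γ_j = -1`, the others `0`.
Allowed hypothesis: `S_GenPos`.
PROOF. `R = ρ_0 + ρ_1 t + ρ_2 y`, `P ∈ ⟨1, t, y, t^2, t y⟩`.  `R(q_i) = 0` (order `≥ 1`) and
`P - x_i R` is singular at `q_i`.  `R ≠ 0` (otherwise `P` is a unit, but it vanishes at `q_i`).  Put
`u = t - t_i`, `v = y - y_i`, `R = ρ_1 u + ρ_2 v`.  Replacing `P` by `P - x_i R` (and `x_k` by
`x_k - x_i`) we may assume `x_i = 0` and `P = u (α u + β v)` (no `v^2` term because the `y`-degree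
is `≤ 1`).  If `ρ_2 = 0` then `u` divides `P` and `R`: contradiction with coprimality.  So
`ρ_2 ≠ 0`; replacing `P` by `P - (β/ρ_2) u R` (and `x_k` by `x_k - (β/ρ_2)(t_k - t_i)`):
`P = α' u^2`, `α' ≠ 0` (else `P = 0`, `R` is not a unit).  For `k ≠ i, j`: `P(q_k) = x_k R(q_k)`,
and `α'(t_k - t_i)^2 ≠ 0`, so `R(q_k) ≠ 0` and
`x_k = (α'/ρ_2) (t_k - t_i)^2 / ((ρ_1/ρ_2)(t_k - t_i) + (y_k - y_i))`.  Take `l = ρ_2/α'`; generators:
`ρ_1/ρ_2`, `l x_j` (the modified `x_j`), and anything. -/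
def S_Small2 : Prop :=
  ∀ (t y : Fin 12 → ℂ), Gen t y → ∀ (K : Type) [Field K] [Algebra ℂ K] (x : Fin 12 → K)
    (γ : Fin 12 → ℤ) (P R : MvPolynomial (Fin 2) K),
    PairType (up t) (up y) x 1 1 γ P R →
    (∃ i j, i ≠ j ∧ γ i = 1 ∧ γ j = -1 ∧ ∀ k, k ≠ i → k ≠ j → γ k = 0) → SmallDim t x

/-- **Small3.**  Type `κ = 1, c = 2` with two `γ_i = γ_j = 1`, the others `0`.
Allowed hypothesis: `S_GenPos`.
PROOF. `R ∈ ⟨1,t,t^2,y,ty⟩`, `P ∈ ⟨1,t,t^2,t^3,y,ty,t^2y⟩`; `R` vanishes at `q_i, q_j`,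
`P - x_i R` is singular at `q_i`, `P - x_j R` at `q_j`; `t_i ≠ t_j`.  Let `ℓ = l0 + l1 t` with
`ℓ(t_i) = x_i`, `ℓ(t_j) = x_j`, replace `P` by `P - ℓ R` (and `x_k` by `x_k - ℓ(t_k)`): then `P` is
singular at `q_i` and `q_j` (`(ℓ - x_i) R` has order `≥ 2` at `q_i`).  Write `P = π(t) + y σ(t)`,
`deg π ≤ 3`, `deg σ ≤ 2`.  `∂_y P(q_i) = σ(t_i) = 0`, `P(q_i) = 0` gives `π(t_i) = 0`,
`∂_t P(q_i) = π'(t_i) + y_i σ'(t_i) = 0`, and the same at `j`.  So `σ = σ_0 (t-t_i)(t-t_j)`,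
`π = (t-t_i)(t-t_j)(α + βt)` with `α + β t_i = -σ_0 y_i`, `α + β t_j = -σ_0 y_j`, i.e.
`P = σ_0 (t-t_i)(t-t_j)(y - L(t))`, `L` the affine function with `L(t_i) = y_i`, `L(t_j) = y_j`.
`σ_0 ≠ 0`: otherwise `P = 0` and `R` is a unit, but `R(q_i) = 0`.  For `k ≠ i,j`:
`P(q_k) = x_k R(q_k)` with `T_k = (t_k-t_i)(t_k-t_j)(y_k-L(t_k)) ≠ 0` (GenPos), so `R(q_k) ≠ 0`,
`x_k = σ_0 T_k / R(q_k)`; and `x_i = x_j = 0`.  `R` lies in the 3-dimensional space of polynomials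
of `⟨1,t,t^2,y,ty⟩` vanishing at `q_i, q_j`, with a basis `e_1, e_2, e_3` defined over `ℂ` (two
independent conditions); `R = Σ ρ_k e_k`, some `ρ_a ≠ 0`: take `l = ρ_a/σ_0`, generators the two other
quotients `ρ_b/ρ_a`. -/
def S_Small3 : Prop :=
  ∀ (t y : Fin 12 → ℂ), Gen t y → ∀ (K : Type) [Field K] [Algebra ℂ K] (x : Fin 12 → K)
    (γ : Fin 12 → ℤ) (P R : MvPolynomial (Fin 2) K),
    PairType (up t) (up y) x 2 1 γ P R →
    (∃ i j, i ≠ j ∧ γ i = 1 ∧ γ j = 1 ∧ ∀ k, k ≠ i → k ≠ j → γ k = 0) → SmallDim t x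

/-- **Small4.**  Type `κ = 1, c = 1`, all `γ_i ≥ 0`: either small or `Σ_4`.
Allowed hypothesis: `S_GenPos`.
PROOF. `P(q_k) = x_k R(q_k)` for all `k` (order `≥ γ_k + 1 ≥ 1`).
`R = r_0 + r_1 t + r_2 y`, `P = α + βt + κ'y + δt^2 + εty`.  `R ≠ 0` (otherwise `P` is a unit, but it
vanishes at the `q_k`).  Let `J = {k : R(q_k) = 0}`; `|J| ≤ 2` (three points are not collinear;
`|J| = 0` if `R` is constant); for `k ∈ J` also `P(q_k) = 0` and `x_k` is arbitrary.  We may replace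
`(P, x_k)` by `(P - (l0 + l1 t)R, x_k - l0 - l1 t_k)` and scale.
Case `r_2 ≠ 0`, w.l.o.g. `r_2 = 1` (divide `P, R` by `r_2`), `R = y + a + bt`.  Choose `l0, l1` so that
the coefficients of `y` and `ty` in `P - (l0 + l1 t)R` vanish: `P = α + βt + δt^2`, `P ≠ 0`
(otherwise `R ∣ P`).
 * `J = ∅`, `δ ≠ 0`: factor `P = δ (t - θ₁)(t - θ₂)` (`K` algebraically closed): `Sig4` with
   `l = 1/δ`.
 * `J = ∅`, `δ = 0`: values `(α + β t_k)/(y_k + a + b t_k)`; divide by `α` or `β`: generators `a`,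
   `b`, `β/α` (or `a, b` if `α = 0`).
 * `J = {i}`: `a = -y_i - b t_i`, `P(q_i) = 0`: `P = (t - t_i)(β' + δ t)`; the values: for `k ≠ i`,
   `(t_k-t_i)(β' + δ t_k)/R(q_k)`, and the free value `x_i`; one of `β', δ` is nonzero, divide
   by it: generators `b`, the quotient, and the (scaled) `x_i`.
 * `J = {i, j}`: `R` is determined (defined over `ℂ`), `P = δ(t-t_i)(t-t_j)`, `δ ≠ 0`; generators: the two
   scaled free values.
Case `r_2 = 0`, `r_1 ≠ 0`: `R = t - τ` after scaling; choose `l0, l1` to remove the terms `t` and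
`t^2` of `P`: `(l0 + l1 t)(t - τ)` has arbitrary coefficients of `t` and `t^2`:
`P = α + κ'y + εty`, `P ≠ 0`.  `J = ∅`: values `(α + κ'y_k + εt_ky_k)/(t_k - τ)`; dividing by a nonzero
one of `α, κ', ε`: generators `τ` and two quotients.  `J = {i}` (`τ = t_i`, only one since the `t_k`
are distinct): `α = -κ'y_i - εt_iy_i`; `(κ', ε) ≠ 0`: generators the quotient of `κ', ε` and the scaled
free value `x_i`.
Case `r_1 = r_2 = 0`: `R` constant, w.l.o.g. `1`: values `κ'y_k + δt_k^2 + εt_ky_k` after removing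
`α + βt`: if all three vanish take `l = 1`; otherwise divide by a nonzero one: two generators. -/
def S_Small4 : Prop :=
  ∀ (t y : Fin 12 → ℂ), Gen t y → ∀ (K : Type) [Field K] [Algebra ℂ K] [IsAlgClosed K]
    (x : Fin 12 → K) (γ : Fin 12 → ℤ) (P R : MvPolynomial (Fin 2) K),
    PairType (up t) (up y) x 1 1 γ P R → (∀ i, 0 ≤ γ i) →
    SmallDim t x ∨ ∃ θ₁ θ₂ a b : K, Sig4 t y θ₁ θ₂ a b x

/-- **SigSmall.**  If `θ₁, θ₂, a, b` are algebraically dependent over `ℂ`, then `Σ_4`-points are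
small.
PROOF. The family `![θ₁, θ₂, a, b]` is algebraically dependent, so one of the four elements is
algebraic over the field generated over `ℂ` by the three others (take a nonzero polynomial
relation; or: a transcendence basis of `ℂ(θ₁,θ₂,a,b)` contained in the four elements
(`exists_isTranscendenceBasis_subset`-type statement) has at most three elements).  Then all four are
algebraic over the field generated by three elements, hence so are the numbers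
`(t_i-θ₁)(t_i-θ₂)/(y_i+a+bt_i)`. -/
def S_SigSmall : Prop :=
  ∀ (t y : Fin 12 → ℂ) (K : Type) [Field K] [Algebra ℂ K] (θ₁ θ₂ a b : K) (x : Fin 12 → K),
    Sig4 t y θ₁ θ₂ a b x → ¬ AlgebraicIndependent ℂ ![θ₁, θ₂, a, b] → SmallDim t x

/-- **SmallNot.**  A small point does not move in dimension 4.
PROOF. `L = ` the set of elements of `K'` algebraic over `ℂ(a_0, a_1, a_2)`, an intermediate field
(`algebraicClosure`), with `trdeg_ℂ L ≤ 3`.  Because of the relations `rel1`, `rel2` of Gale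
duality, `piMap (x - l0 - l1 t) = piMap x`, so `l • piMap x` has coordinates in `L`, hence all the
quotients of the coordinates of `piMap x` lie in `L` and the (image in `K'` of the) field
`ratioField ℂ w` is contained in `L`: its transcendence degree is `≤ 3 < 4`
(`Algebra.trdeg` is monotone; the field `ratioField ℂ w ⊆ K` is isomorphic to its image under
`algebraMap K K'`).  `piMap P c (algebraMap ∘ x) = algebraMap ∘ piMap P c x`. -/
def S_SmallNot : Prop :=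
  ∀ (P : Fin 13 → Fin (9 + 1) → ℂ) (c : Fin 13 → ℂ) (t y : Fin 12 → ℂ), GaleData P c t y →
    ∀ (K K' : Type) [Field K] [Field K'] [Algebra ℂ K] [Algebra ℂ K'] [Algebra K K']
      [IsScalarTower ℂ K K'] (x : Fin 12 → K),
      SmallDim (K := K') t (fun i => algebraMap K K' (x i)) → ¬ DimGE 4 (piMap P c x)

/-! ### The type `κ = 3, c = 5, γ = 1` -/

/-- a functional on first order jets at the twelve points: `φ i = (value, ∂_t, ∂_y)` coefficients -/
noncomputable def jf {K : Type} [Field K] (t y : Fin 12 → K) (φ : Fin 12 → Fin 3 → K)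
    (F : MvPolynomial (Fin 2) K) : K :=
  ∑ i, (φ i 0 * eval (pt t y i) F + φ i 1 * eval (pt t y i) (pderiv 0 F) +
    φ i 2 * eval (pt t y i) (pderiv 1 F))

/-- **T6Def.**  There is no curve of class `2 L_0` through generic points:
`HH(8, 4; 2, ..., 2) = 0` (whereas for points on the quartic it is spanned by `Q^2`).
Allowed hypotheses (Spec1): `S_SemiCont, S_PDBasic, S_PDRank, S_OrdBasic, S_QKer, S_PsiW, S_QStep,
S_QT6, S_Wro`.
PROOF A (numerical).  By SemiCont (with `R = MvPolynomial _ ℤ`, `K₁ = ZMod p`) it suffices to find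
twelve points with coordinates in `F_p` such that no nonzero polynomial of `PD 8 4` (35 monomials)
is singular at all of them: exhibit integer points and check by a kernel computation that the
`36 × 35` matrix of the conditions has rank 35 modulo `p` (for instance give a left inverse modulo
`p` and verify the product, on lists of natural numbers, with `decide`); random points work.
PROOF B (deformation).  By SemiCont it suffices to find a field `K₁` of characteristic zero and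
twelve points with `HH = 0`.  Let `K₀ ∋ s_i` be algebraically independent, `K₁ = K₀(ε)`, and the points
`q_i(ε) = (s_i^2, s_i^4 + s_i + ε u_i)` with `u ∈ K₀^{12}` to be chosen.  Suppose `G_ε ≠ 0` is in
`HH(8,4;2)` at these points; multiply by a power of the denominator so that
`G_ε ∈ K₀[ε][t,y]`, not divisible by `ε`: `G_ε = G_0 + ε G_1 + ...`, `G_0 ≠ 0`, `G_k ∈ PD K₀ 8 4`.
Order 0: `G_0 ∈ HH(8,4;2)` at the special points; that space has dimension `≤ 1` (QT6) and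
contains `Q^2`, so `G_0 = κ Q^2`, w.l.o.g. `κ = 1`.  Order 1 of `G_ε(q_i(ε)) = 0` and
`∇G_ε(q_i(ε)) = 0`: `G_1(q_i) + u_i ∂_y(Q^2)(q_i) = G_1(q_i) = 0` and
`∇G_1(q_i) = - u_i ∂_y∇(Q^2)(q_i) = -2 u_i Q_y(q_i) ∇Q(q_i)`.  Since `∇Q` is orthogonal to the
tangent vector of the curve, `psi G_1` vanishes to order `≥ 2` at every `s_i`; its degree is
`≤ 24` and the coefficient of `s^{23}` is zero (PsiW), so `psi G_1 = κ' Π (s - s_i)^2` with
`-2κ' Σ s_i = 0`, so `κ' = 0` (`Σ s_i ≠ 0`), `G_1 = Q H`, `H ∈ PD 4 2`, and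
`H(q_i) ∇Q(q_i) = ∇G_1(q_i)`, so `H(q_i) = -2 u_i Q_y(q_i) = -4 u_i s_i` for all `i`
(`∇Q(q_i) ≠ 0`).  But `H ↦ (H(q_i))_i = (psi H (s_i))_i` maps `PD 4 2` (dimension 12) to `K₀^{12}`
and kills `Q`, so its image is a proper subspace; choose `u` with `(-4 u_i s_i)_i` outside. -/
def S_T6Def : Prop :=
  ∀ (K : Type) [Field K] [CharZero K] (t y : Fin 12 → K), Gen t y →
    HH (pt t y) 8 4 (fun _ => 2) = ⊥

/-- **T6Phi.**  Over any `K` there is, up to scalars, exactly one functional `φ` on the jets which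
kills `PD 8 4`; and each of its components `φ_{i}` is nonzero.
Allowed hypotheses: `S_T6Def`, and from Spec1 `S_QT6, S_GenBound, S_PDRank, S_OrdBasic`.
PROOF. The linear map `PD 8 4 → (K^3)^{12}`, `F ↦ (F, F_t, F_y)(q_i)`, is injective (T6Def; order
`≥ 2` means that value and gradient vanish), the dimensions are `35` and `36`, so the functionals
killing the image form a space of dimension one.  If `φ_{i₀} = 0`, then `φ` is a functional on the
jets at the 11 other points killing `PD 8 4`; but the map to these 33-dimensional jets is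
surjective: its kernel `HH(8,4; 2 (i ≠ i₀), 0)` has dimension `≤ 2 = 35 - 33` (QT6 + GenBound).  So
`φ = 0`. -/
def S_T6Phi : Prop :=
  ∀ (K : Type) [Field K] [CharZero K] (t y : Fin 12 → K), Gen t y →
    ∃ φ : Fin 12 → Fin 3 → K, (∀ F ∈ PD K 8 4, jf t y φ F = 0) ∧ (∀ i, φ i ≠ 0) ∧
      ∀ φ' : Fin 12 → Fin 3 → K, (∀ F ∈ PD K 8 4, jf t y φ' F = 0) →
        ∃ c : K, ∀ i j, φ' i j = c * φ i j

/-- **T6W.**  The space of the possible `R` has dimension at most 4.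
Allowed hypotheses: `S_GenPos`-type facts may be proved or taken from Spec1 `S_Simple`;
Spec1: `S_Simple, S_PDBasic, S_PDRank, S_OrdBasic`.
PROOF. Fix `i₀ = 0`.  `A = {R ∈ PD 5 3 : R(q_i) = 0 ∀ i}` has dimension `18 - 12 = 6` (we need `≤ 6`:
Simple).  Let `ρ ∈ PD 4 2` be nonzero with `ρ(q_i) = 0` for `i ≠ 0` (dimension 12, 11 conditions);
`ρ(q_0) ≠ 0` (Simple with 12 points: no nonzero element of `PD 4 2` vanishes at all twelve).  Let
`B = {ℓρ : ℓ ∈ PD 1 1, ℓ(q_0) = 0} ⊆ A`, of dimension 2.  CLAIM `W ∩ B = 0`; then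
`dim W ≤ 6 - 2 = 4`.  Let `R = ℓρ ∈ W`, `ℓ ≠ 0`.  For `i ≠ 0` put
`c_i = φ_{i1} ρ_t(q_i) + φ_{i2} ρ_y(q_i)`; then
`0 = φ_{i1}R_t + φ_{i2}R_y = ℓ(q_i) c_i`, and for `i = 0`:
`0 = ρ(q_0)(φ_{01}ℓ_t + φ_{02}ℓ_y)`, so `φ_{01}ℓ_t + φ_{02}ℓ_y = 0` (*).  At most one `i ≠ 0` has
`ℓ(q_i) = 0` (three points are not collinear; if there is none let `i₁` be any index `≠ 0`), call it
`i₁`; so `c_i = 0` for `i ≠ 0, i₁`.  For `u ∈ PD 4 2` we have `ρu ∈ PD 8 4`, so
`0 = jf φ (ρu) = c_{i₁} u(q_{i₁}) + ρ(q_0)(φ_{01}u_t + φ_{02}u_y)(q_0) + κ u(q_0)` with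
`κ = φ_{00}ρ(q_0) + φ_{01}ρ_t(q_0) + φ_{02}ρ_y(q_0)`.  If `(φ_{01}, φ_{02}) ≠ 0`: take `u = ℓ'ℓ''` with
`ℓ', ℓ'' ∈ PD 1 1`, `ℓ'(q_0) = 0`, `φ_{01}ℓ'_t + φ_{02}ℓ'_y ≠ 0` and `ℓ''(q_{i₁}) = 0`,
`ℓ''(q_0) ≠ 0`: then `u(q_0) = u(q_{i₁}) = 0` and `(φ_{01}u_t + φ_{02}u_y)(q_0) ≠ 0`, contradiction.  So
`φ_{01} = φ_{02} = 0` and `c_{i₁}u(q_{i₁}) + κu(q_0) = 0` for all `u`, so `κ = 0`,
`φ_{00} = 0`, `φ_0 = 0`: contradiction with the hypothesis `φ_0 ≠ 0`. -/
def S_T6W : Prop :=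
  ∀ (K : Type) [Field K] [CharZero K] (t y : Fin 12 → K), Gen t y →
    ∀ φ : Fin 12 → Fin 3 → K, (∀ F ∈ PD K 8 4, jf t y φ F = 0) → φ 0 ≠ 0 →
    ∀ W : Submodule K (MvPolynomial (Fin 2) K),
      (∀ R ∈ W, R ∈ PD K 5 3 ∧ ∀ i, eval (pt t y i) R = 0 ∧
        φ i 1 * eval (pt t y i) (pderiv 0 R) + φ i 2 * eval (pt t y i) (pderiv 1 R) = 0) →
      Module.finrank K W ≤ 4

/-- **T6Ex.**  Existence of the functional for a primitive pair of type `(5, 3; 1)`.
Allowed hypotheses (Spec1): `S_PDBasic, S_PDRank, S_OrdBasic`.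
PROOF. `P ∈ PD 6 3`, `R ∈ PD 5 3`, `R ∈ OrdGE 1`, `P - x_i R ∈ OrdGE 2`.  Let
`I = {aP + bR : a ∈ PD 2 1, b ∈ PD 3 1} ⊆ PD 8 4`.  The map `(a,b) ↦ aP + bR` is injective: if
`aP = -bR` then (coprime) `R ∣ a`, `P ∣ b`: `a = eR`, `b = -eP`; the pair has `P, R` not both of small
degree: if `e ≠ 0`, then `totalDegree R ≤ 2`, `degreeOf 1 R ≤ 1`, `totalDegree P ≤ 3`,
`degreeOf 1 P ≤ 1` - this has to be excluded: in that case Bezout's bound would be
`3·1 + 1·2 - 1 = 4 < Σ γ(γ+1) = 24`.  (Use hypothesis `S_Bezout` for this, as in S_PairBez.)  So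
`dim I = 5 + 7 = 12` and `dim PD 8 4 / I = 23`.  Consider the linear map
`J : PD 8 4 → Π_i (jets)/(R) `, where for each `i` the target is the quotient of the
3-dimensional space of first order jets at `q_i` by the line spanned by the jet
`(0, R_t(q_i), R_y(q_i))` of `R` - a space of dimension `≥ 2` for each `i`, total `≥ 24`.  `J` kills
`I`: the jet at `q_i` of `aP + bR` is that of `(a x_i + b) R` (because `P - x_i R` has order `≥ 2`),
i.e. a multiple of the jet of `R` (as `R(q_i) = 0`).  So the image of `J` has dimension `≤ 23 < 24`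
and there is a nonzero functional on the target killing the image; composed with the projection
it is `jf φ` with `φ ≠ 0`, `jf φ` kills `PD 8 4` and `φ_i` kills the jet of `R` at `q_i`. -/
def S_T6Ex : Prop :=
  ∀ (K : Type) [Field K] [CharZero K] (t y x : Fin 12 → K), Gen t y →
    ∀ (P R : MvPolynomial (Fin 2) K), PairType t y x 5 3 (fun _ => 1) P R →
      ∃ φ : Fin 12 → Fin 3 → K, φ ≠ 0 ∧ (∀ F ∈ PD K 8 4, jf t y φ F = 0) ∧
        ∀ i, φ i 1 * eval (pt t y i) (pderiv 0 R) + φ i 2 * eval (pt t y i) (pderiv 1 R) = 0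

/-- **T6Irr.**  For a primitive pair of type `(5, 3; 1)` the polynomial `R` is irreducible, has
exact degrees `(5, 3)` and order exactly one at the points.
Allowed hypotheses (Spec1): `S_PDBasic, S_PDRank, S_OrdBasic, S_Bezout, S_Simple`.
PROOF. Bezout for `(P, R)` with the exact degrees `(d, μ)` of `R` (`μ ≤ d ≤ 5`, `μ ≤ 3`) and
`α_i = 2, β_i = ord_i R ≥ 1`: `2 Σ β_i ≤ 6μ + 3d - 3μ = 3(d + μ) ≤ 24`; so `β_i = 1` and
`d = 5, μ = 3`.  (`R ≠ 0` as `P` is not a unit: it vanishes at the `q_i`.)  `R` is not a unit.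
Let `R = Π Y_k` with `Y_k` irreducible, of exact degrees `(d_k, μ_k)`, `μ_k ≤ d_k`, `d_k ≥ 1`,
`Σ d_k = 5`, `Σ μ_k = 3`.  As `R` has order exactly one at `q_i`, exactly one `Y_k` vanishes at
`q_i`; let `n_k` be the number of points on `Y_k`, `Σ n_k = 12`.  If `Y_k(q_i) = 0`, `R = Y_k Z`,
then `P - x_i Z · Y_k ∈ OrdGE 2`.  Bezout for `(P, Y_k)` (coprime) with `α_i = 2`, `β_i = 1` for these
`i` (and `α_i = β_i = 0` for the others) and `A_i = x_i Z`: `2 n_k ≤ 3(d_k + μ_k)`.  Summing over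
`k`: `24 ≤ 3·8 = 24`, so `2 n_k = 3(d_k + μ_k)` for all `k`.  On the other hand `n_k ≤
dim PD(d_k, μ_k) - 1` (Simple; `Y_k ≠ 0`).  `μ_k = 0`: `3 d_k/2 ≤ d_k`: impossible.  `μ_k = 1`:
`3(d_k+1)/2 ≤ 2 d_k`, so `d_k ≥ 3`.  `μ_k = 2`: `3(d_k+2)/2 ≤ 3 d_k - 1`, so `d_k ≥ 3`.  If there are
at least two factors, then `Σ μ_k = 3` and all `μ_k ≥ 1` give at least two factors with `μ_k ≤ 2`,
so `Σ d_k ≥ 6 > 5`: contradiction.  Hence `R` is irreducible. -/
def S_T6Irr : Prop :=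
  ∀ (K : Type) [Field K] [CharZero K] (t y x : Fin 12 → K), Gen t y →
    ∀ (P R : MvPolynomial (Fin 2) K), PairType t y x 5 3 (fun _ => 1) P R →
      Irreducible R ∧ R.totalDegree = 5 ∧ R.degreeOf 1 = 3 ∧ ∀ i, R ∉ OrdGE (pt t y i) 2

/-- **T6Uni.**  Given `R`, the polynomial `P` is unique up to scaling and adding multiples
`(l0 + l1 t) R`.
Allowed hypotheses: `S_T6Irr`, Spec1: `S_PDBasic, S_OrdBasic, S_Bezout`.
PROOF. Let `P₁ ∈ PD 6 3` with `P₁ - x¹_i R ∈ OrdGE 2` for all `i`, not of the form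
`(l0 + l1 t) R`.  `R` is irreducible of exact degree `(5,3)`, so `R ∤ P₁` (a quotient would be in
`PD 1 0`), `P₁` and `R` are coprime; the same for `P`.  `K` is algebraically closed: the curve
`R = 0` has infinitely many points (`R` has positive degree in `y`: for all but finitely many
`τ ∈ K` the polynomial `R(τ, ·)` is nonconstant and has a root), choose one, `z`, different from
the `q_i`.  `P₁(z) ≠ 0`: otherwise Bezout for `(P₁, R)` with the 13 points `q_i, z`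
(`α = 2, β = 1` at `q_i`; `α = β = 1` at `z`) gives `25 ≤ 24`.  Let `c = P(z)/P₁(z)`,
`P' = P - c P₁`, which vanishes at `z` and satisfies `P' - (x_i - c x¹_i) R ∈ OrdGE 2`.  If `P'` and
`R` were coprime, Bezout would give `25 ≤ 24`; as `R` is irreducible `R ∣ P'`, and the quotient is
in `PD 1 0`, i.e. `l0 + l1 t`.  Finally at `q_i`: `(x_i - c x¹_i - l0 - l1 t_i) R ∈ OrdGE 2` and
`R ∉ OrdGE 2` give `x_i = c x¹_i + l0 + l1 t_i`.  `c ≠ 0` because `P` is coprime to `R`, which is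
not a unit. -/
def S_T6Uni : Prop :=
  ∀ (K : Type) [Field K] [CharZero K] [IsAlgClosed K] (t y x x₁ : Fin 12 → K), Gen t y →
    ∀ (P R P₁ : MvPolynomial (Fin 2) K), PairType t y x 5 3 (fun _ => 1) P R →
      P₁ ∈ PD K 6 3 → (∀ i, P₁ - C (x₁ i) * R ∈ OrdGE (pt t y i) 2) →
      (¬ ∃ l0 l1 : K, P₁ = (C l0 + C l1 * X 0) * R) →
      ∃ c l0 l1 : K, c ≠ 0 ∧ ∀ i, x i = c * x₁ i + l0 + l1 * t i

/-- **T6.**  The type `(5, 3; 1)` is small.
Allowed hypotheses: `S_T6Phi, S_T6W, S_T6Ex, S_T6Irr, S_T6Uni`, Spec1: `S_PDBasic, S_PDRank,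
S_OrdBasic`.
PROOF. Let `φ` be the functional of T6Phi over `ℂ` (for `t, y`), and `φ^K` its image in `K`, which is
a functional killing `PD K 8 4` (a space spanned by monomials).  By T6Ex there is a nonzero `φ'`
over `K` with the same property which kills the jets of `R`; by the uniqueness in T6Phi over `K`
both are multiples of the functional there, so `φ' = c φ^K`, `c ≠ 0`, and `φ^K_i` kills the jet of `R`
at `q_i`.  Let `W = {R' ∈ PD ℂ 5 3 : R'(q_i) = 0, φ_{i1}R'_t + φ_{i2}R'_y = 0 at q_i}`, of dimension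
`n ≤ 4` (T6W), with a basis `R_1..R_n`; the same linear equations over `K` have the solution space
`W ⊗ K`, so `R = Σ ρ_j R_j`, `ρ_j ∈ K`, not all zero, say `ρ_1 ≠ 0`; replace `(P, R)` by
`(P/ρ_1, R/ρ_1)` (the same `x`): `ρ_1 = 1` and `R` has coefficients in the field
`ℂ(ρ_2, ρ_3, ρ_4)`.  Let `L ⊆ K` be the algebraic closure of `ℂ(ρ_2,ρ_3,ρ_4)` in `K`.  Consider the
linear system over `L` for `(P', x') ∈ PD L 6 3 × L^{12}`: `P'(q_i) = 0`,
`∇P'(q_i) = x'_i ∇R(q_i)`.  Over `K` its solution space contains the two solutions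
`(R, 1), (tR, t_i)` and `(P, x)`, and `(P, x)` is not a combination of the two (`P` is coprime to
`R`, which is not a unit).  The dimension of the solution space of a linear system with
coefficients in `L` does not change over `K`, so over `L` there is a solution `(P₁, x₁)` which is not
a combination of these two; as `x'` is determined by `P'` (`∇R(q_i) ≠ 0`), `P₁` is not of the form
`(l0 + l1 t)R`, also over `K`.  By T6Uni `x_i = c x_{1,i} + l0 + l1 t_i`, so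
`c^{-1}(x_i - l0 - l1 t_i) = x_{1,i} ∈ L`: `SmallDim` with `l = c^{-1}`. -/
def S_T6 : Prop :=
  ∀ (t y : Fin 12 → ℂ), Gen t y → ∀ (K : Type) [Field K] [Algebra ℂ K] [IsAlgClosed K]
    (x : Fin 12 → K) (P R : MvPolynomial (Fin 2) K),
    PairType (up t) (up y) x 5 3 (fun _ => 1) P R → SmallDim t x

end Pool.Agent.MP5769ea
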