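import Pool.Agent.Lib.MP_5769ea_ag.Defs2

/-!
# MP_5769ea_ag, Spec, part 3: function fields, local inequalities, curves in `Σ_4`
-/

open MvPolynomial

namespace Pool.Agent.MP5769ea

/-- **FFCount.**  Zeros of a nonconstant function.
PROOF. `n = [K : Ω(f)]`.  Let `A` be the integral closure of `Ω[f]` in `K`; it is a Dedekind domain,
finite over the principal ideal domain `Ω[f]` (`K / Ω(f)` is finite and, if necessary, separable;
we assume characteristic 0), with fraction field `K`.  `Ideal.sum_ramification_inertia` for the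
prime `p = (f)`: `Σ_{P ∣ p} e_P f_P = n`, and `f_P = 1` because the residue field `A/P` is a finite
extension of `Ω[f]/(f) = Ω`, algebraically closed.
The places `v` with `v f < 1` correspond bijectively to the primes `P` over `p`, and
`- log (v f) = e_P`:  for `P` take the `P`-adic valuation `v_P : K → ℤᵐ⁰`
(`IsDedekindDomain.HeightOneSpectrum.valuation`), surjective (exists a uniformizer), trivial on
`Ω` (units of `A`), and `v_P(f) = exp(-e_P)`.  Conversely, if `v` is a place with `v f < 1`, then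
`v ≤ 1` on `Ω[f]` and hence on its integral closure `A`; `P = {a ∈ A : v a < 1}` is a prime ideal
containing `f`, nonzero; for `a ∈ A`, `v_P(a) = 1` iff `a ∉ P` iff `v a = 1`; hence (every `x ∈ K^*` is
`π^k a/b` with `a, b ∈ A \ P` and `π` with `v_P(π) = exp(-1)`) `v(x) = v(π)^k`, and surjectivity of
`v` forces `v(π) = exp(-1)` : `v = v_P`.
-/
def S_FFCount : Prop :=
  ∀ (Ω K : Type) [Field Ω] [Field K] [Algebra Ω K] [IsAlgClosed Ω] [CharZero Ω] (f : K),
    Transcendental Ω f → FiniteDimensional (IntermediateField.adjoin Ω {f}) K →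
      {v : Place Ω K | v.1 f < 1}.Finite ∧
      ∑ᶠ v : {v : Place Ω K // v.1 f < 1}, (-(WithZero.log (v.1.1 f)) : ℤ) =
        Module.finrank (IntermediateField.adjoin Ω {f}) K

/-- **FFProd.**  Product formula and finiteness.  Allowed hypothesis: `S_FFCount`.
PROOF. (1) For `f ∈ Ω` (image), `f ≠ 0`: `v f ≤ 1` and `v f⁻¹ ≤ 1`, so `v f = 1` for all places.  If `f`
is algebraic over `Ω` it lies in `Ω` (algebraically closed).  Otherwise `f` is transcendental over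
`Ω`, and `K` is finite over `Ω(f)` (because `K` is finite over some `Ω(t)`, `t` is algebraic over
`Ω(f)`: exchange; e.g. `trdeg K/Ω = 1` and finite generation).  FFCount for `f` and for `f⁻¹`
(`Ω(f) = Ω(f⁻¹)`): finitely many zeros and poles, and the numbers of zeros and of poles are equal:
`Σ_v log v(f) = #poles - #zeros = 0`.  (2) is the finiteness. -/
def S_FFProd : Prop :=
  ∀ (Ω K : Type) [Field Ω] [Field K] [Algebra Ω K] [IsAlgClosed Ω] [CharZero Ω], IsFF Ω K →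
    ∀ f : K, f ≠ 0 → {v : Place Ω K | v.1 f ≠ 1}.Finite ∧
      ∑ᶠ v : Place Ω K, WithZero.log (v.1 f) = 0

/-- **FFExt.**  Behaviour of `pdeg` under finite extensions.  Allowed hypotheses: `S_FFCount,
S_FFProd`.
PROOF. Let `K'/K` be finite, `n = [K' : K]`; `K'/Ω` is again a function field.  Let `w ≠ 0`.
(A) CLAIM: there are constants `c_j, c'_j ∈ Ω` such that `f = Σ c_j w_j`, `f' = Σ c'_j w_j` satisfy
`max(v f, v f') = max_j v(w_j)` for all places `v` of `K`, and also of `K'`.  For `K'`: every place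
`v'` of `K'` satisfies `v'|_K = v^e` for a place `v` of `K` and some `e ≥ 1` (its restriction is not
trivial since `K'/K` is algebraic), so the property for `K` implies the property for `K'`.  For
`K`: let `S` be the finite set of places where some nonzero `w_j` has `v(w_j) ≠ 1`.  For a given
`v` the set of `c ∈ Ω^ι` with `v(Σ c_j w_j) < max_j v(w_j)` is a proper `Ω`-subspace; choose `c`
outside of the finitely many subspaces for `v ∈ S` (`Ω` infinite).  Outside `S`,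
`max_j v(w_j) = 1`.  Then `f ≠ 0` and `v f = max` for `v ∈ S`; let `S'` be the finite set of places with
`v f < max_j v(w_j)`; choose `c'` good for all places in `S'`.
(B) `pdeg_K w = Σ_v log max(v f, v f') = Σ_v log max (v (f'/f), 1)` (product formula for `f`)
`= Σ_{v : v(f/f') < 1} - log v(f/f')` (if `f' ≠ 0`), which by FFCount is `[K : Ω(f/f')]` if `f/f'` is
not constant and `0` if it is constant (or `f' = 0`).  The same for `K'`:
`[K' : Ω(f/f')] = n [K : Ω(f/f')]`. -/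
def S_FFExt : Prop :=
  ∀ (Ω K K' : Type) [Field Ω] [Field K] [Field K'] [Algebra Ω K] [Algebra K K'] [Algebra Ω K']
    [IsScalarTower Ω K K'] [IsAlgClosed Ω] [CharZero Ω] [FiniteDimensional K K'], IsFF Ω K →
    IsFF Ω K' ∧ ∀ (ι : Type) [Fintype ι] (w : ι → K), w ≠ 0 →
      pdeg Ω (fun j => algebraMap K K' (w j)) = Module.finrank K K' * pdeg Ω w

/-- **FFBasic.**  Elementary properties of `pdeg`.  Allowed hypothesis: `S_FFProd`.
PROOF. For `w ≠ 0` only finitely many places have `nrm v w ≠ 0` (each nonzero `w_j` has `v(w_j) = 1`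
outside a finite set).  (1) `nrm v w ≥ log v(w_{j₀})` for a `j₀` with `w_{j₀} ≠ 0`; sum (both sums
have finite support) and use the product formula.  (2) `nrm v (c • w) = log v(c) + nrm v w`.
(3) is the additivity of finite sums, in the form in which we shall use it: if an integral linear
combination of norms of vectors is `≥ 0` at every place then the same holds for the degrees. -/
def S_FFBasic : Prop :=
  ∀ (Ω K : Type) [Field Ω] [Field K] [Algebra Ω K] [IsAlgClosed Ω] [CharZero Ω], IsFF Ω K →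
    (∀ (ι : Type) [Fintype ι] (w : ι → K), w ≠ 0 → 0 ≤ pdeg Ω w) ∧
    (∀ (ι : Type) [Fintype ι] (w : ι → K) (c : K), w ≠ 0 → c ≠ 0 →
      pdeg Ω (c • w) = pdeg Ω w) ∧
    (∀ (ι : Type) [Fintype ι] (w : ι → K), w ≠ 0 →
      (Function.support fun v : Place Ω K => nrm v.1 w).Finite)

/-- **LocIneq.**  The local inequality for a section.
PROOF. Work with a valuation `v` of `K` with values in `ℤᵐ⁰`, trivial on `ℂ` (`v c ≤ 1`, hence
`v c = 1` for `c ≠ 0`).  `nrm v` is the logarithm of the maximum norm; it is invariant under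
`GL_N(ℂ)`.  Clearly `nrm v (wedge w p) ≤ nrm v w` (for `wedge w p ≠ 0`).
(a) At most one `i` has `nrm v (wedge w (P i)) < nrm v w`: scale `w` by an element of `K` with
`max_j v(w_j) = 1` (possible if `v` is surjective; or argue with ratios `w_j/w_{j₀}`, `j₀` an index
with `v(w_{j₀})` maximal); if `nrm v (wedge w p) < 0` then `w_j ≡ u p_j` modulo the maximal ideal
(for `p_k ≠ 0`: `w_j p_k - w_k p_j ≡ 0`); if this holds for `p` and `p'`, then
`p_j p'_k - p_k p'_j ≡ 0` (times a unit), so `= 0` in `ℂ`: `p, p'` proportional, excluded.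
(b) If no `i` has `nrm v (wedge w (P i)) < nrm v w`: `log v(F(w)) ≤ d · nrm v w` since `F` is
homogeneous of degree `d` with coefficients of norm `≤ 1`, and all the terms
`m_i (nrm v w - nrm v (wedge w (P i)))` are zero.
(c) If exactly `i` has it: if `m_i ≤ 0`, (b) suffices (`- m_i (nrm - nrm) ≥ 0`).  If `m = m_i > 0`: write
`w = u p + w'`, `p = P i`, `u = w_k/p_k` with `p_k ≠ 0`; `w'_j = (w_j p_k - w_k p_j)/p_k`, so
`nrm v w' ≤ nrm v (wedge w p)` and `log v u ≤ nrm v w`.  `F(u p + w') = Σ_j u^{d-j} F_j(w')`, where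
`F_j` is the homogeneous component of degree `j` of `F(p + ·)`
(by homogeneity; first for `u ≠ 0`, `F(up + w') = u^d F(p + w'/u)`), and `F_j = 0` for `j < m`:
`log v(F(w)) ≤ max_{j ≥ m} ((d-j) log v u + j nrm v w') ≤ (d-m) nrm v w + m nrm v (wedge w p)`
(if `u = 0` only the term `j = d` remains).  For the other `i'` the term is zero. -/
def S_LocIneq : Prop :=
  ∀ (s n : ℕ) (P : Fin s → Fin (n + 1) → ℂ),
    (∀ i j, i ≠ j → ∃ k l, P i k * P j l - P i l * P j k ≠ 0) →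
    (∀ i, P i ≠ 0) →
    ∀ (K : Type) [Field K] [Algebra ℂ K] (v : Valuation K (WithZero (Multiplicative ℤ))),
      Function.Surjective v → (∀ c : ℂ, v (algebraMap ℂ K c) ≤ 1) →
      ∀ (d : ℕ) (m : Fin s → ℤ) (F : MvPolynomial (Fin (n + 1)) ℂ), F ∈ H0 P d m →
      ∀ w : Fin (n + 1) → K, (∀ i, wedge w (P i) ≠ 0) → aeval w F ≠ 0 →
        WithZero.log (v (aeval w F)) ≤
          d * nrm v w - ∑ i, m i * (nrm v w - nrm v (wedge w (P i)))

/-- **SecPos.**  Allowed hypotheses: `S_LocIneq, S_FFProd, S_FFBasic`.  A section which does not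
vanish at the generic point of a curve has nonnegative degree on it.
PROOF. Sum LocIneq over all places of `K/Ω` (each is surjective, and trivial on `ℂ ⊆ Ω`); the left
sides sum to `0`. -/
def S_SecPos : Prop :=
  ∀ (s n : ℕ) (P : Fin s → Fin (n + 1) → ℂ),
    (∀ i j, i ≠ j → ∃ k l, P i k * P j l - P i l * P j k ≠ 0) → (∀ i, P i ≠ 0) →
    ∀ (Ω K : Type) [Field Ω] [Field K] [Algebra ℂ Ω] [Algebra Ω K] [Algebra ℂ K]
      [IsScalarTower ℂ Ω K] [IsAlgClosed Ω], IsFF Ω K →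
      ∀ (d : ℕ) (m : Fin s → ℤ) (F : MvPolynomial (Fin (n + 1)) ℂ), F ∈ H0 P d m →
      ∀ w : Fin (n + 1) → K, (∀ i, wedge w (P i) ≠ 0) → aeval w F ≠ 0 →
        0 ≤ (d : ℤ) * pdeg Ω w - ∑ i, m i * (pdeg Ω w - pdeg Ω (wedge w (P i)))

/-- the plane point `(1 : θ : η)` -/
def zz {K : Type} [Field K] (θ η : K) : Fin 3 → K := ![1, θ, η]

/-- the vector representing `(1 : θ : η)` modulo `q_0 = (0:0:1)` -/
def zz0 {K : Type} [Field K] (θ : K) : Fin 2 → K := ![1, θ]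

/-- the vector representing `(1 : θ : η)` modulo `(1 : t : y)` -/
def zz1 {K : Type} [Field K] [Algebra ℂ K] (θ η : K) (t y : ℂ) : Fin 3 → K :=
  ![θ - algebraMap ℂ K t, η - algebraMap ℂ K y,
    θ * algebraMap ℂ K y - η * algebraMap ℂ K t]

/-- **PlaneLoc.**  The local inequality for a plane curve `G ∈ HH(4m+1, 2m; m)` (class
`m L_0 + f`) at the point `(θ, η)`.
PROOF. Same argument as in LocIneq, in the plane with the 13 points `(0:0:1)`, `(1:t_i:y_i)`.  `G̃` =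
the homogenization of `G`, of degree `4m+1`: `G(θ,η) = G̃(1,θ,η)`, multiplicity `≥ 2m+1` at
`(0:0:1)` (every monomial `z_0^a z_1^b z_2^c`, `c ≤ 2m`, so `a + b ≥ 2m+1`) and `≥ m` at `(1:t_i:y_i)`.
Direct proof: let `n = nrm (1,θ,η) ≥ 0`, `n_0 = nrm(1,θ)`, `n_i = nrm (zz1 ..)`; `n_0 ≤ n`, `n_i ≤ n`.
(i) `log v G(θ,η) ≤ (4m+1) n`, more precisely `≤ max (a n_0' ...)`: for a monomial `t^b y^c`,
`b + c ≤ 4m+1`, `c ≤ 2m`: `b log vθ + c log vη ≤ (4m+1-c) n_0 + c n ≤ (2m+1) n_0 + 2m n`.  So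
always `log v G ≤ (4m+1) n - (2m+1)(n - n_0)`.
(ii) if `n_i < n` for some `i`: then `n = 0`?  Indeed `n_i < n` means that `(1,θ,η)` is congruent to a
multiple of `(1,t_i,y_i)`; scaling to `max = 1`, the first coordinate is a unit, i.e. `n = 0`,
`θ ≡ t_i`, `η ≡ y_i`, `n_0 = 0`, and the index `i` is unique (the points `q_i` are distinct).  Then
`n_i = max(log v(θ-t_i), log v(η-y_i))` and the Taylor expansion of `G` at `q_i` (terms of order
`≥ m` only) gives `log v G ≤ m n_i`, which is the claim (`n = n_0 = 0`, `n_j = 0` for `j ≠ i`).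
(iii) if `n_i = n` for all `i`, (i) is the claim. -/
def S_PlaneLoc : Prop :=
  ∀ (t y : Fin 12 → ℂ), (∀ i j, i ≠ j → t i ≠ t j) →
    ∀ (m : ℕ) (G : MvPolynomial (Fin 2) ℂ), G ∈ HH (pt t y) (4 * m + 1) (2 * m) (fun _ => m) →
    ∀ (K : Type) [Field K] [Algebra ℂ K] (v : Valuation K (WithZero (Multiplicative ℤ))),
      Function.Surjective v → (∀ c : ℂ, v (algebraMap ℂ K c) ≤ 1) →
      ∀ θ η : K, (∀ i, zz1 θ η (t i) (y i) ≠ 0) → aeval ![θ, η] G ≠ 0 →
        WithZero.log (v (aeval ![θ, η] G)) ≤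
          (4 * m + 1) * nrm v (zz θ η) - (2 * m + 1) * (nrm v (zz θ η) - nrm v (zz0 θ)) -
            m * ∑ i, (nrm v (zz θ η) - nrm v (zz1 θ η (t i) (y i)))

/-- **PlaneNef.**  Allowed hypotheses: `S_PlaneLoc, S_FFProd, S_FFBasic`, Spec1: `S_PDRank`.
`L_0 · z ≥ 0` for a generic point `z` of the plane moving in a curve.
PROOF. For every `m ≥ 1`: `dim PD(4m+1, 2m) = (2m+1)(3m+2) = 6m^2+7m+2 > 12·m(m+1)/2`, so there is
`0 ≠ G ∈ HH(4m+1,2m;m)` over `ℂ`; `G(θ,η) ≠ 0` since `θ, η` are algebraically independent over `ℂ`.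
Sum PlaneLoc over all places: with `δ = pdeg z`, `δ_0`, `δ_i`:
`0 ≤ m (4δ - 2(δ-δ_0) - Σ(δ-δ_i)) + (δ - (δ-δ_0))`, i.e. `m X + δ_0 ≥ 0` for all `m`, where
`X = 4δ - 2(δ-δ_0) - Σ(δ-δ_i)` is an integer; so `X ≥ 0`. -/
def S_PlaneNef : Prop :=
  ∀ (t y : Fin 12 → ℂ), (∀ i j, i ≠ j → t i ≠ t j) →
    ∀ (Ω K : Type) [Field Ω] [Field K] [Algebra ℂ Ω] [Algebra Ω K] [Algebra ℂ K]
      [IsScalarTower ℂ Ω K] [IsAlgClosed Ω], IsFF Ω K →
      ∀ θ η : K, AlgebraicIndependent ℂ ![θ, η] →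
        0 ≤ 4 * pdeg Ω (zz θ η) - 2 * (pdeg Ω (zz θ η) - pdeg Ω (zz0 θ)) -
          ∑ i, (pdeg Ω (zz θ η) - pdeg Ω (zz1 θ η (t i) (y i)))

/-- **SigLoc.**  The local inequality on `Σ_4`.  (Checked numerically on 20000 random degenerate
examples over `ℚ` with a `p`-adic valuation.)
NOTATION. `N = log v` of vectors (`nrm v`), `q_0 = (0,0,1)`, `q_k = (1,t_k,y_k)` (`k = 1..12`,
here `Fin 12`), `z_j = (1,θ_j,η_j)`, `η_j = -a-bθ_j`, `λ = z_1 × z_2 = (θ_2-θ_1)(a,b,1)`,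
`A_k = y_k + a + b t_k`, so `λ(q_k) = (θ_2-θ_1)A_k`, `λ(q_0) = θ_2-θ_1`; `n_j = N(z_j)`,
`n_{jk} = N(z_j mod q_k)` (`zz1`, `zz0`).  For `w ∈ ℂ^3`: `x^w_k = det(z_1,w,q_k) det(z_2,w,q_k)/λ(q_k)`
(`k = 0..12`).  One has `x = (θ_2-θ_1) x^{q_0}` (and `x^{q_0}_0 = 0`).
(1) CHANGE OF `w`: modulo the vectors `(ℓ(q_k))_k`, `ℓ` a linear form,
`x^{w'} / det(z_1,z_2,w')^2 = x^{w} / det(z_1,z_2,w)^2`.  (The quadratic form
`det(z_1,w,q)det(z_2,w,q)/det(z_1,z_2,w)^2` restricted to the line `λ(q) = 0` is independent of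
`w`: with `q = α z_1 + β z_2` it is `- αβ`; so the difference for two `w` is divisible by `λ`.)
The coordinates `x_0..x_12` modulo the 3-dimensional space `ev = {(ℓ(q_k))}` are the coordinates of
`P^9`: `piMap` of the 12-vector `(x_k - x_0 y_k)_k` (relation `rel3` of GaleData), with `P_0 ↔ e_0`.
So `nrm v (piMap ..)` is the quotient norm `‖x‖` of `K^{13}/ev`, and `nrm v (wedge .. (P k))` is the
quotient norm `‖x‖_k` of `K^{13}/(ev + K e_k)` (both because `ℂ`-linear isomorphisms are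
isometries).
(2) LOCAL COMPUTATION.  Let `b = n_1 + n_2 - N(λ) ≥ 0`, `c_k = N(λ) - N(λ(q_k)) ≥ 0`,
`α_{jk} = n_j - n_{jk} ≥ 0`.  Choose `w ∈ ℂ^3` outside finitely many proper subspaces such that
`N(det(z_j,w,q_k)) = n_{jk}` for all `j, k` and `N(det(z_1,z_2,w)) = N(λ)`.  CLAIM: with
`D(x) = 5‖x‖ - 3(‖x‖-‖x‖_0) - 4 Σ_{k≥1}(‖x‖-‖x‖_k)`:
`D(x^w) ≥ 5b + 2(c_0-α_{10}-α_{20}) + Σ_{k≥1}(c_k-α_{1k}-α_{2k})`.
Proof of the claim: scale `z_1, z_2` (this does not change `x^w`) so that `n_1 = n_2 = 0`, `λ = s λ'`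
with `N(s) = -b`, `N(λ') = 0`; `x' = s x^w`, `x'_k = Q(q_k)/λ'(q_k)`, `Q = det(z_1,w,·)det(z_2,w,·)`,
`N(λ'(q_k)) = -c_k`, `N(Q(q_k)) = -α_{1k}-α_{2k}`, so `N(x'_k) = c_k - α_{1k} - α_{2k}`.  Let
`I = {k : c_k > 0}` = the points `q_k` on the reduced line `λ'_0` (over the residue field
`κ(v) ⊇ ℂ`); no three of the 13 points are collinear, so `|I| ≤ 2`.  If `k ∉ I` then `c_k = 0`,
`α_{1k} = α_{2k} = 0` (if `α_{jk} > 0` then `z_j ≡ q_k` up to a unit, so `q_k` is on the line) and `x'_k`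
is integral.  For `k ∉ I` the reductions `x'_k ≡ Q_0(q_k)/λ'_0(q_k)` are not of the form `ℓ(q_k)` for
all `k` outside of any set of at most three indices: otherwise the quadratic form
`Q_0 - ℓ λ'_0` over `κ(v)` vanishes at ten of the thirteen points, so it is zero (six generic
points are not on a conic), but `Q_0` is not divisible by `λ'_0` (`Q_0` restricted to the line has
zeros at the reductions of `z_1, z_2` only, as `w` is not on the line).  Hence, putting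
`κ_k = max(0, c_k - α_{1k} - α_{2k})` for `k ∈ I`:
 - if `κ_k = 0` for all `k ∈ I`: `‖x'‖ = ‖x'‖_k = 0` for all `k`, `D(x') = 0`;
 - if `κ_i > 0` and the other `κ` is `0` (or `|I| = 1`): `‖x'‖ = κ_i`, `‖x'‖_i = 0`,
   `‖x'‖_k = κ_i` for `k ≠ i`: `D(x') = (5 - m_i) κ_i`, where `m_0 = 3`, `m_k = 4`;
 - if `κ_i ≥ κ_j > 0`: `‖x'‖ = κ_i`, `‖x'‖_i = κ_j`, the others `κ_i`:
   `D(x') = 5κ_i - m_i(κ_i-κ_j) = (5-m_i)κ_i + m_iκ_j ≥ (5-m_i)κ_i + (5-m_j)κ_j` as `m_i+m_j ≥ 5`.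
So `D(x') ≥ Σ_{k∈I}(5-m_k)κ_k ≥ Σ_k (5-m_k)(c_k-α_{1k}-α_{2k})` and `D(x^w) = D(x') + 5b`
(scaling by an element of norm `N(s^{-1}) = b`).
(3) CONCLUSION: `D(x) = 5N(θ_2-θ_1) + D(x^{q_0})`,
`D(x^{q_0}) = D(x^w) + 10 N(det(z_1,z_2,q_0)) - 10 N(det(z_1,z_2,w)) = D(x^w) + 10N(θ_2-θ_1) - 10N(λ)`;
inserting the claim, `N(λ) = N(θ_2-θ_1) + N(a,b,1)`, `N(λ(q_k)) = N(θ_2-θ_1)+N(A_k)`, all the terms
`N(θ_2-θ_1)` cancel and one gets the inequality stated. -/
def S_SigLoc : Prop :=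
  ∀ (P : Fin 13 → Fin (9 + 1) → ℂ) (c : Fin 13 → ℂ) (t y : Fin 12 → ℂ), GaleData P c t y →
    ∀ (K : Type) [Field K] [Algebra ℂ K] (v : Valuation K (WithZero (Multiplicative ℤ))),
      Function.Surjective v → (∀ c : ℂ, v (algebraMap ℂ K c) ≤ 1) →
      ∀ (θ₁ θ₂ a b : K) (x : Fin 12 → K), θ₁ ≠ θ₂ →
        (∀ i, algebraMap ℂ K (y i) + a + b * algebraMap ℂ K (t i) ≠ 0) →
        (∀ i, x i = (algebraMap ℂ K (t i) - θ₁) * (algebraMap ℂ K (t i) - θ₂) /
          (algebraMap ℂ K (y i) + a + b * algebraMap ℂ K (t i))) →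
        (∀ i, zz1 θ₁ (-a - b * θ₁) (t i) (y i) ≠ 0) →
        (∀ i, zz1 θ₂ (-a - b * θ₂) (t i) (y i) ≠ 0) →
        (∀ i, wedge (piMap P c x) (P i) ≠ 0) →
        -nrm v ![a, b, 1] - 9 * (nrm v (zz θ₁ (-a - b * θ₁)) + nrm v (zz θ₂ (-a - b * θ₂))) +
            2 * (nrm v (zz0 θ₁) + nrm v (zz0 θ₂)) +
            ∑ i, (nrm v (zz1 θ₁ (-a - b * θ₁) (t i) (y i)) +
              nrm v (zz1 θ₂ (-a - b * θ₂) (t i) (y i)) -
              WithZero.log (v (algebraMap ℂ K (y i) + a + b * algebraMap ℂ K (t i)))) ≤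
          5 * nrm v (piMap P c x) -
            3 * (nrm v (piMap P c x) - nrm v (wedge (piMap P c x) (P 0))) -
            4 * ∑ i : Fin 12,
              (nrm v (piMap P c x) - nrm v (wedge (piMap P c x) (P i.succ)))

/-- **SigPos.**  Allowed hypotheses: `S_SigLoc, S_PlaneNef, S_FFProd, S_FFBasic`.
PROOF. Sum SigLoc over all places of `K/Ω` (finite supports; the `A_i = y_i + a + b t_i` have
product formula `0`): with `δ_j = pdeg (zz ..)`, `δ_{j0}`, `δ_{ji}`, `δ_λ = pdeg ![a,b,1]`: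
`D·γ ≥ -δ_λ - 9(δ_1+δ_2) + 2(δ_{10}+δ_{20}) + Σ(δ_{1i}+δ_{2i}) = X_1 + X_2 + (δ_1+δ_2-δ_λ)` where
`X_j = 4δ_j - 2(δ_j-δ_{j0}) - Σ(δ_j-δ_{ji}) = -10δ_j + 2δ_{j0} + Σδ_{ji} ≥ 0` by PlaneNef
(`θ_j, η_j = -a-bθ_j` are algebraically independent over `ℂ` because `θ_1,θ_2,a,b` are: `η_j` involves
`a`), and `δ_1 + δ_2 ≥ δ_λ`: `(θ_2-θ_1)(a,b,1)` has coordinates `θ_1η_2-θ_2η_1`, `η_1-η_2`, `θ_2-θ_1`,
so `nrm v ((θ_2-θ_1)•(a,b,1)) ≤ nrm v z_1 + nrm v z_2`; sum up and use `pdeg (c • w) = pdeg w`.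
All the vectors are nonzero and the nonvanishing conditions of SigLoc follow from the algebraic
independence; `wedge (piMap P c x) (P i) ≠ 0` is assumed. -/
def S_SigPos : Prop :=
  ∀ (P : Fin 13 → Fin (9 + 1) → ℂ) (c : Fin 13 → ℂ) (t y : Fin 12 → ℂ), GaleData P c t y →
    ∀ (Ω K : Type) [Field Ω] [Field K] [Algebra ℂ Ω] [Algebra Ω K] [Algebra ℂ K]
      [IsScalarTower ℂ Ω K] [IsAlgClosed Ω], IsFF Ω K →
      ∀ (θ₁ θ₂ a b : K) (x : Fin 12 → K), AlgebraicIndependent ℂ ![θ₁, θ₂, a, b] →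
        (∀ i, x i = (algebraMap ℂ K (t i) - θ₁) * (algebraMap ℂ K (t i) - θ₂) /
          (algebraMap ℂ K (y i) + a + b * algebraMap ℂ K (t i))) →
        (∀ i, wedge (piMap P c x) (P i) ≠ 0) →
        0 ≤ 5 * pdeg Ω (piMap P c x) -
            3 * (pdeg Ω (piMap P c x) - pdeg Ω (wedge (piMap P c x) (P 0))) -
            4 * ∑ i : Fin 12,
              (pdeg Ω (piMap P c x) - pdeg Ω (wedge (piMap P c x) (P i.succ)))

end Pool.Agent.MP5769ea
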