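import Pool.Agent.Lib.MP_5769ea_ag.Defs2

/-!
# MP_5769ea_ag, Spec, part 4: effective classes near `D` contain `Σ_4`; Gale duality
-/

open MvPolynomial

namespace Pool.Agent.MP5769ea

/-- **MultV.**  Multiplicity along the threefold `V` swept out by the curves `C_z`.
`x⁰_k = (t_k-θ)^2 / ((y_k-η) - σ₀ (t_k-θ))` is the general point of the cone over `V`; `F` vanishes there
to order `≥ T = m₁ + Σ m_k - 10 d`.
PROOF. For a commutative ring `A ⊇ ℂ`, `F(x + τ Y) = Σ_j τ^j F_j(x; Y)` with `F_j` homogeneous of degree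
`j` in `Y` (and `F_j = 0` for `j > d`).  Put `b_k = t_k - θ ≠ 0`, `s_k = (y_k-η)/b_k`,
`x⁰_k(σ) = b_k/(s_k-σ)`.  CLAIM(j), `j < T`: for all fields `K`, all `θ, η, σ₀ ∈ K` with `b_k ≠ 0`,
`s_k ≠ σ₀`, and all `Y ∈ K^{12}`: `F_j(x⁰(σ₀); Y) = 0`.  Strong induction on `j`.  Fix `K, σ₀, Y`.
Let `S`, `ε` be variables,
`den_k = b_k(s_k-S) - εY_k(σ₀-S)`, `N_k = b_k((b_k-2εY_k)(σ₀-S) + εY_k(s_k-S))`,
`x^ε_k = N_k/(den_k (σ₀-S)) = (b_k-εY_k)^2/den_k + εY_k/(σ₀-S)`.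
As `F` is homogeneous of degree `d` and of degree `≤ d-m_k` in `x_k`,
`Φ = F(x^ε) (σ₀-S)^d Π den_k^{d-m_k} = Σ_n c_n Π N_k^{n_k} den_k^{d-m_k-n_k} ∈ K[ε][S]`.
(i) `deg_S Φ ≤ 11d - m₁ - Σ m_k = d - T`.  In the field `K(ε)((1/S))`: put `A_k = b_k-εY_k`,
`s'_k = (b_ks_k-εY_kσ₀)/A_k`, so `den_k = A_k(s'_k-S)` and `x^ε_k = A_k/(s'_k-S) + εY_k/(σ₀-S)`.  From
`1/(s-S) = -1/S - s/S^2 + s^2/(S^2(s-S))` and `A_k + εY_k = b_k`, `A_ks'_k + εY_kσ₀ = b_ks_k`: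
`x^ε_k = -b_k/S - b_ks_k/S^2 + ζ_k/S^2`, `ζ_k = A_ks'_k^2/(s'_k-S) + εY_kσ₀^2/(σ₀-S)` of order `≥ 1` in
`1/S`.  Since `b_k = t_k-θ`, `b_ks_k = y_k-η`, the invariance of `F` under the translations by `1` and
`t` gives `F(x^ε) = F((-y_k+ζ_k)/S^2) = S^{-2d} F(-y+ζ)`, and `F(-y+ζ) = (-1)^d F(y-ζ)` has order
`≥ m₁` in `1/S` (`MultGE F y m₁`).  So the order of `Φ` in `1/S` is at least
`2d + m₁ - d - Σ(d-m_k) = m₁ + Σm_k - 11d`.
(If one prefers to avoid Laurent series: the same computation with the degree valuation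
`deg(numerator) - deg(denominator)` on `K(ε)(S)`.)
(ii) The coefficient `Φ_j ∈ K[S]` of `ε^j`: in `K(S)[[ε]]`, `x^ε_k = x⁰_k(S) + εw_k + O(ε^2)` with
`w_k = Y_k(s_k-σ₀)^2/((σ₀-S)(s_k-S)^2)`.  By induction `F_i(x⁰(S); ·) = 0` for `i < j` (over the
field `K(S)` and its extensions; `F_i(x⁰(S);·)` is the zero polynomial), so
`F(x^ε) = ε^jF_j(x⁰(S); w) + O(ε^{j+1})` and
`Φ_j = (σ₀-S)^d Π(b_k(s_k-S))^{d-m_k} F_j(x⁰(S); w) = (σ₀-S)^{d-j} E(S)`,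
`E(S) = Π(b_k(s_k-S))^{d-m_k} F_j(x⁰(S); w̃(S))`, `w̃_k = Y_k(s_k-σ₀)^2/(s_k-S)^2`, a rational
function whose denominator does not vanish at `S = σ₀`.  Hence `(S-σ₀)^{d-j}` divides `Φ_j` in `K[S]`
(`j ≤ d`), but `deg Φ_j ≤ d-T < d-j`: `Φ_j = 0`, `E = 0`, and at `S = σ₀`:
`F_j(x⁰(σ₀); Y) = 0`. -/
def S_MultV : Prop :=
  ∀ (t y : Fin 12 → ℂ) (d m₁ : ℕ) (m : Fin 12 → ℕ) (F : MvPolynomial (Fin 12) ℂ),
    XForm t y d m₁ m F → ∀ T : ℕ, T + 10 * d ≤ m₁ + ∑ i, m i →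
    ∀ (K : Type) [Field K] [Algebra ℂ K] (θ η σ₀ : K) (Y : Fin 12 → K),
      (∀ i, algebraMap ℂ K (t i) ≠ θ) →
      (∀ i, algebraMap ℂ K (y i) - η - σ₀ * (algebraMap ℂ K (t i) - θ) ≠ 0) →
      (Polynomial.X : Polynomial K) ^ T ∣
        aeval (fun i => Polynomial.C ((algebraMap ℂ K (t i) - θ) ^ 2 /
            (algebraMap ℂ K (y i) - η - σ₀ * (algebraMap ℂ K (t i) - θ))) +
          Polynomial.X * Polynomial.C (Y i)) F

/-- **Gpoly.**  Restriction of a form to `Σ_4`, with one of the two points of the plane fixed.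
Allowed hypotheses: `S_MultV`, Spec1: `S_PDBasic, S_OrdBasic`.
PROOF. Put `u_k = t_k-θ₁ ≠ 0`, `v_k = y_k-η₁`; in `K[X_0,X_1]` let `ε = X_0-θ₁`, `h = X_1-η₁`,
`Δ_k = εv_k - hu_k` (`= (y_k-η₁)(X_0-θ₁) - (X_1-η₁)(t_k-θ₁)`), `x_k = u_k(u_k-ε)/Δ_k`
(`t_k-X_0 = u_k-ε`), and `G = F(x)ΠΔ_k^{d-m_k} = Σ_n c_nΠ(u_k(u_k-ε))^{n_k}Δ_k^{d-m_k-n_k} ∈ K[X_0,X_1]`.
(1) `ε^{d+m₁} ∣ G`: from the identity
`x_k = -u_k/h - ε(v_k-h)/h^2 + ε^2v_k(v_k-h)/(h^2Δ_k)` (check: multiply by `h^2Δ_k`), with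
`u_k = t_k-θ₁`, `v_k-h = y_k-X_1`, and the invariance of `F`:
`F(x) = F((ε/h^2)(-y_k+εξ_k)) = (ε/h^2)^dF(-y+εξ)`, `ξ_k = v_k(v_k-h)/Δ_k`.  As `F(-y+εξ)` is
`Σ_{j≥m₁}ε^jF^{(j)}(ξ)` (`F^{(j)}` = homogeneous component of degree `j` of `F(-y+·)`, zero for
`j < m₁` by `MultGE` and homogeneity), of degree `≤ d-m_k` in `ξ_k`:
`h^{2d}G = ε^{d+m₁}g₂` with a polynomial `g₂`.  `ε` and `h` are non-associated primes, so
`G = ε^{d+m₁}g`, `g₂ = h^{2d}g`.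
(2) degrees: total degree of `G` `≤ Σn_k + Σ(d-m_k-n_k) = 12d-Σm`, so that of `g` is
`≤ 11d-m₁-Σm`.  `y`-degree: `ε^{d+m₁}g₂ = ε^dΣ_nc_nΠ(-y_kΔ_k+εv_k(v_k-h))^{n_k}Δ_k^{d-m_k-n_k}` has
`y`-degree (degree in `X_1`) `≤ Σ(d-m_k) = 12d-Σm`, and `h^{2d}` has `X_1`-degree `2d`: that of `g`
is `≤ 10d-Σm`.  (If `g = 0` nothing to show.)
(3) at `q_k`: `u_k-ε = t_k-X_0` and `Δ_k` vanish at `q_k`, so each term of `G` has order
`≥ n_k + (d-m_k-n_k) = d-m_k`; `ε(q_k) = t_k-θ₁ ≠ 0`.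
(4) at `z₁ = (θ₁,η₁)`: we show that `G` has order `≥ T+d+m₁`; `ε` has order 1, so `g` has order
`≥ T`.  Let `a, b` be variables and `𝔽 = K(a,b)`; it suffices that
`G(θ₁+sa, η₁+sb) ∈ K[a,b][s]` is divisible by `s^{T+d+m₁}` in `𝔽[s]`.  Here `ε = sa`, `h = sb`,
`Δ_k = sδ_k`, `δ_k = av_k-bu_k ≠ 0`, so `G = s^{12d-Σm-d}Πδ_k^{d-m_k}·F(sx)`,
`sx_k = u_k(u_k-sa)/δ_k = ((u_k-sa/2)^2-s^2a^2/4)/δ_k`.  With `θ = θ₁+sa/2`, `η = η₁+sb/2`, `σ₀ = b/a`: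
`t_k-θ = u_k-sa/2`, `δ_k = a((y_k-η)-σ₀(t_k-θ))`, so `sx = a^{-1}x⁰ - (s^2a^2/4)Y`, `Y_k = 1/δ_k`,
`x⁰` as in MultV over the field `𝔽(s)`.  So `F(sx) = Σ_{j≥T}(-s^2a^2/4)^jF_j(a^{-1}x⁰; Y)`, and the
`F_j(a^{-1}x⁰;Y)` are in `𝔽[s]`.  Hence `s^{2T} ∣ F(sx)` and the order of `G` is
`≥ 2T+11d-Σm = T+d+m₁`.
(5) The last identity holds by construction. -/
def S_Gpoly : Prop :=
  ∀ (t y : Fin 12 → ℂ) (d m₁ : ℕ) (m : Fin 12 → ℕ) (F : MvPolynomial (Fin 12) ℂ),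
    XForm t y d m₁ m F → (∀ i, m i ≤ d) → ∀ T : ℕ, T + 10 * d = m₁ + ∑ i, m i →
    ∀ (K : Type) [Field K] [Algebra ℂ K] (θ₁ η₁ : K), (∀ i, algebraMap ℂ K (t i) ≠ θ₁) →
      ∃ g : MvPolynomial (Fin 2) K,
        g ∈ PD K (11 * d - m₁ - ∑ i, (m i : ℤ)) (10 * d - ∑ i, (m i : ℤ)) ∧
        (∀ i, g ∈ OrdGE (up (pt t y i)) ((d : ℤ) - m i)) ∧
        g ∈ OrdGE ![θ₁, η₁] T ∧
        ∀ (K' : Type) [Field K'] [Algebra ℂ K'] [Algebra K K'] [IsScalarTower ℂ K K']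
          (θ₂ η₂ : K') (Δ : Fin 12 → K'),
          (∀ i, Δ i = (algebraMap ℂ K' (y i) - algebraMap K K' η₁) * (θ₂ - algebraMap K K' θ₁) -
            (η₂ - algebraMap K K' η₁) * (algebraMap ℂ K' (t i) - algebraMap K K' θ₁)) →
          (∀ i, Δ i ≠ 0) →
          aeval (fun i => (algebraMap ℂ K' (t i) - algebraMap K K' θ₁) *
              (algebraMap ℂ K' (t i) - θ₂) / Δ i) F * ∏ i, Δ i ^ (d - m i) =
            aeval ![θ₂, η₂] g * (θ₂ - algebraMap K K' θ₁) ^ (d + m₁)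

/-- the 13 special points: 12 points on the quartic and a further point `z` -/
def sp13 {K : Type} [Field K] (s : Fin 12 → K) (z : Fin 2 → K) : Fin 13 → Fin 2 → K :=
  Fin.snoc (α := fun _ => Fin 2 → K) (sp s) z

/-- **NefJ.**  Allowed hypotheses (Spec1): `S_QNef, S_SemiCont, S_PDRank`.
All thirteen classes `L^{(j)}` are nef.
PROOF. `j = 12` (the last index): this is QNef for the 12 points on the quartic (restrict `g`).
`j < 12`: let `R = MvPolynomial (Fin 12 ⊕ Fin 2) ℚ`, `ι = aeval (Sum.elim s z)` (injective),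
`K₁ = K` (or a rational function field), `φ` = the homomorphism with `s_i ↦ s_i` for `i ≠ j`,
`s_j ↦ 0`, `z_0 ↦ s_j^2`, `z_1 ↦ s_j^4+s_j`.  By SemiCont applied to the 12 points `(s_i^2,s_i^4+s_i)`,
`i ≠ j`, and `z`: the dimension of `HH` at the 12 points (generic `z`) is at most the dimension at
the 12 points `(s_i^2,s_i^4+s_i)`, all `i`, of the quartic (reordered), which is `0` by QNef if
`Σ_{i≠j} g_i > 2d+2μ`. -/
def S_NefJ : Prop :=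
  ∀ (K : Type) [Field K] [CharZero K] (s : Fin 12 → K) (z : Fin 2 → K),
    AlgebraicIndependent ℚ (Sum.elim s z) → ∀ (d μ : ℤ) (g : Fin 13 → ℤ)
      (F : MvPolynomial (Fin 2) K), F ≠ 0 → F ∈ HH (sp13 s z) d μ g → ∀ j : Fin 13,
        (∑ i, g i) - g j ≤ 2 * d + 2 * μ

/-- **Strict.**  Allowed hypotheses (Spec1): `S_PDBasic, S_PDRank, S_OrdBasic, S_QKer, S_PsiW`.
PROOF. Induction on `g`, more generally for the class with order `≥ g` at the twelve points of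
the quartic and order `≥ g'`, `g' ≥ 1`, at `z`, and `d+μ = 6g`: claim `F = 0`.  If `d < 0` or `μ < 0`
clear.  `g = 0`: `d = μ = 0`, `F` is a constant vanishing at `z`, so `F = 0`.  `g ≥ 1`: `psi F` has
degree `≤ 12g` and is divisible by `Π(X-s_i)^g`, so `psi F = κΠ(X-s_i)^g`; its coefficient of
`X^{12g-1}` is `-κgΣs_i`, and it is `0` by PsiW (`2(d+μ)-1 = 12g-1`).  As `Σs_i ≠ 0`, `κ = 0`,
`psi F = 0`, `F = QF'`, `F' ∈ PD(d-4,μ-2)` of order `≥ g-1` at the `s_i` (Q has order exactly 1) and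
`≥ g'` at `z` (`Q(z) = (z_1-z_0^2)^2-z_0 ≠ 0` by algebraic independence).  By induction
`F' = 0`. -/
def S_Strict : Prop :=
  ∀ (K : Type) [Field K] [CharZero K] (s : Fin 12 → K) (z : Fin 2 → K),
    AlgebraicIndependent ℚ (Sum.elim s z) → ∀ (d μ : ℤ) (g : ℕ), 1 ≤ g → d + μ = 6 * g →
      HH (sp13 s z) d μ (fun _ => g) = ⊥

/-- **IrrSp.**  Allowed hypotheses: `S_NefJ, S_Strict`, Spec1: `S_PDBasic, S_PDRank, S_OrdBasic,
S_Bezout`.
PROOF. Let `a = totalDegree C`, `μ = degreeOf 1 C` (`μ ≤ a`, `a ≥ 1`).  NefJ (with `d = a`): for every `j`,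
`X_j = 2(a+μ) - Σ_{i≠j}b_i ≥ 0`, and `ΣX_j = 26(a+μ) - 12Σb`.  There is `0 ≠ G₀ ∈ HH(51,25;12)` at the
13 points: `dim PD(51,25) = 26·79/2 = 1027 > 13·78 = 1014` (number of conditions of order `≥ 12` at
13 points; `12·13/2 = 78` each).  If `C ∤ G₀` then `C, G₀` are coprime and Bezout gives
`12Σb ≤ 51μ + 25a - 25μ = 25a + 26μ` (the 13 points are distinct), so
`26(a+μ)-12Σb ≥ a`, hence `51(...) ≥ a`.  If `C ∣ G₀`: `a ≤ 51`, and `26(a+μ)-12Σb ≥ 1`: otherwise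
it is `0`, all `X_j = 0`, so all `b_j = Σb-2(a+μ) =: g` are equal, `12g = 2(a+μ)`, `a+μ = 6g`, `g ≥ 1`
(as `a ≥ 1`) and Strict says `C = 0`.  So `51(26(a+μ)-12Σb) ≥ 51 ≥ a`. -/
def S_IrrSp : Prop :=
  ∀ (K : Type) [Field K] [CharZero K] (s : Fin 12 → K) (z : Fin 2 → K),
    AlgebraicIndependent ℚ (Sum.elim s z) → ∀ (C : MvPolynomial (Fin 2) K), Irreducible C →
      ∀ b : Fin 13 → ℕ, (∀ i, C ∈ OrdGE (sp13 s z i) (b i)) →
        (C.totalDegree : ℤ) ≤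
          51 * (26 * (C.totalDegree + C.degreeOf 1) - 12 * ∑ i, (b i : ℤ))

/-- **NonEff.**  Allowed hypotheses: `S_IrrSp`, Spec1: `S_PDBasic, S_PDRank, S_OrdBasic,
S_SemiCont`.  The inequality for all effective classes at 13 generic points.
PROOF. (1) at the special points: let `F ≠ 0`; write `F = u ΠC_k` (`u` a unit, `C_k` irreducible; UFD;
`UniqueFactorizationMonoid.induction_on_prime` or `WfDvdMonoid.induction_on_irreducible`).  With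
the exact orders `β_i(F)`, which are additive (OrdBasic), total degree and `y`-degree being
additive as well, summing IrrSp gives `a_F ≤ 51(26(a_F+μ_F)-12Σβ_i)`.  If
`F ∈ HH(A,M;b)`, then `A ≥ a_F`, `M ≥ μ_F`, `b_i ≤ β_i`, and
`51·26(A+M)-A-51·12Σb ≥ 51·26(a_F+μ_F)-a_F-51·12Σβ ≥ 0`.
(2) generic points: if the inequality fails for `(A,M;b)`, the space at the special points is zero
(over `K₁ = FractionRing (MvPolynomial (Fin 12 ⊕ Fin 2) ℚ)`), so by SemiCont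
(`R = MvPolynomial (Fin 13 ⊕ Fin 13) ℚ`, `φ` the evaluation at the special points) it is zero at
generic points. -/
def S_NonEff : Prop :=
  ∀ (K : Type) [Field K] [CharZero K] (t y : Fin 13 → K), Gen t y →
    ∀ (A M : ℤ) (b : Fin 13 → ℤ) (F : MvPolynomial (Fin 2) K), F ≠ 0 →
      F ∈ HH (pt t y) A M b → A ≤ 51 * (26 * (A + M) - 12 * ∑ i, b i)

/-- **SigBase.**  Effective classes near `D` vanish on `Σ_4`.  Allowed hypotheses: `S_Gpoly,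
S_NonEff, S_PDBasic` (Spec1).
PROOF. Let `e_0 = 5m₁-3d`, `e_k = 5m_k-4d`, `|e| ≤ d/10000`.  Then `m_k ≤ d` and
`T = m₁+Σm-10d = (d+e_0+Σe_k)/5 ≥ 0` is a natural number.  Let `K₁ = ℂ(θ₁,η₁) ⊆ K`
(`IntermediateField.adjoin ℂ {θ₁, η₁}`); `t_k ≠ θ₁`.  Take `g` over `K₁` from Gpoly.  The 13 points
`q_k`, `(θ₁,η₁)` are generic over `ℚ` (`t, y` are algebraically independent over `ℚ` and `θ₁, η₁`
over `ℂ`).  If `g ≠ 0`, NonEff gives, with `A = 11d-m₁-Σm`, `M = 10d-Σm`,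
`Σb = Σ(d-m_k)+T = 12d-Σm+m₁+Σm-10d = 2d+m₁`:
`A ≤ 51(26(21d-m₁-2Σm)-12(2d+m₁)) = 51(522d-52Σm-38m₁)`.  Now
`522d-52Σm-38m₁ = -(52Σe_k+38e_0)/5 ≤ 662d/50000` and
`A = 11d-(51d+e_0+Σe_k)/5 ≥ 4d/5-13d/50000`, so `4/5-13/50000 ≤ 51·662/50000 = 0.67524`:
contradiction (`d ≥ 1`).  So `g = 0`.  The `Δ_k` are nonzero (algebraic independence), so the
identity in Gpoly (with `K' = K`) gives `F(x) = 0`. -/
def S_SigBase : Prop :=
  ∀ (t y : Fin 12 → ℂ), Gen t y → ∀ (d m₁ : ℕ) (m : Fin 12 → ℕ)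
    (F : MvPolynomial (Fin 12) ℂ), XForm t y d m₁ m F → 1 ≤ d →
    10000 * |(5 * m₁ : ℤ) - 3 * d| ≤ d → (∀ i, 10000 * |(5 * m i : ℤ) - 4 * d| ≤ d) →
    ∀ (K : Type) [Field K] [Algebra ℂ K] (θ₁ η₁ θ₂ η₂ : K),
      AlgebraicIndependent ℂ ![θ₁, η₁, θ₂, η₂] → ∀ x : Fin 12 → K,
      (∀ i, x i = (algebraMap ℂ K (t i) - θ₁) * (algebraMap ℂ K (t i) - θ₂) /
        ((algebraMap ℂ K (y i) - η₁) * (θ₂ - θ₁) - (η₂ - η₁) * (algebraMap ℂ K (t i) - θ₁))) →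
      aeval x F = 0

/-- **SigDim.**  `Σ_4` has dimension 4 and its general point is not one of the `P_i`.
Allowed hypothesis (Spec1): `S_Simple, S_PDRank`.
PROOF. Let `w = piMap x`, `L = ratioField ℂ w`.  `w ≠ 0`: otherwise `x = l0+l1t` (the kernel of
`piMap` over `K` is spanned by `1` and `t`, because of `basis` and `rel1, rel2`), i.e.
`P_Σ(q_k) = (l0+l1t_k)R_Σ(q_k)` for all `k`, where `P_Σ = (t-θ₁)(t-θ₂)`,
`R_Σ = (y-η₁)(θ₂-θ₁)-(η₂-η₁)(t-θ₁)`; the polynomial `P_Σ-(l0+l1t)R_Σ` of `PD 2 1` vanishes at 12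
generic points, so it is zero, but `R_Σ ∤ P_Σ`.  Similarly `wedge w (P i) ≠ 0`: otherwise
`x ∈ ⟨1, t, e_i⟩` (or `⟨1,t,y⟩` for `P_0`) and the polynomial vanishes at 11 generic points (in
the case of `P_0`: `P_Σ-(l0+l1t+l2y)R_Σ ∈ PD 2 2` vanishes at 12 generic points, so it is zero).
Divide by a nonzero coordinate of `w`: `w' = λw ∈ L^{10}`; `piMap` is defined over `ℂ` and surjective,
so there is `x' ∈ L^{12}` with `piMap x' = w'`, `x'_k = λx_k+l0+l1t_k`, `λ ≠ 0`, `l0, l1 ∈ K`.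
Consider the linear system for `(P,R)`, `P ∈ ⟨1,t,y,t^2,ty⟩`, `R ∈ ⟨1,t,y⟩`:
`P(q_k) = x'_kR(q_k)` (`k = 1..12`), with coefficients in `L`.  Over `K` it has the solution
`(P', R_Σ)`, `P' = λP_Σ+(l0+l1t)R_Σ`, and every solution is a multiple of it: `PR_Σ-P'R ∈ PD 3 2`
(dimension 9) vanishes at the 12 generic points (`R_Σ(q_k) ≠ 0`), so it is zero by Simple, and
`R_Σ` (irreducible, not dividing `P'`) divides `R`, so `R = ρR_Σ`, `P = ρP'`.  The solution space has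
the same dimension 1 over `L`, so there is `0 ≠ ρ ∈ K` with `ρR_Σ`, `ρP'` over `L`.  Normalise by the
`y`-coefficient of `R`: `ρ = (θ₂-θ₁)^{-1}`, so `b = -(η₂-η₁)/(θ₂-θ₁)` and `a = -η₁-bθ₁` are in `L`
(`R = y+a+bt`), and, removing the `y` and `ty` terms of `P` by subtracting a multiple
`(l0'+l1't)R` with `l0', l1' ∈ L`: `λ'(t-θ₁)(t-θ₂)` has coefficients in `L`, so
`θ₁+θ₂, θ₁θ₂ ∈ L`.  Now `θ₁, θ₂` are algebraic over `L`, `η_j = -a-bθ_j` too; so the algebraically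
independent elements `θ₁,η₁,θ₂,η₂` are algebraic over `L` and `trdeg_ℂ L ≥ 4`. -/
def S_SigDim : Prop :=
  ∀ (P : Fin 13 → Fin (9 + 1) → ℂ) (c : Fin 13 → ℂ) (t y : Fin 12 → ℂ), GaleData P c t y →
    ∀ (K : Type) [Field K] [Algebra ℂ K] (θ₁ η₁ θ₂ η₂ : K),
      AlgebraicIndependent ℂ ![θ₁, η₁, θ₂, η₂] → ∀ x : Fin 12 → K,
      (∀ i, x i = (algebraMap ℂ K (t i) - θ₁) * (algebraMap ℂ K (t i) - θ₂) /
        ((algebraMap ℂ K (y i) - η₁) * (θ₂ - θ₁) - (η₂ - η₁) * (algebraMap ℂ K (t i) - θ₁))) →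
      DimGE 4 (piMap P c x) ∧ ∀ i, wedge (piMap P c x) (P i) ≠ 0

/-! ### Gale duality -/

/-- **GaleEx.**  Gale duality for very general points.
PROOF. (Indices `0..12`.)  `P_3..P_12` are linearly independent (the determinant is a nonzero
polynomial in the coordinates).  Write `P_i = Σ_{j≥3}a_{ij}P_j`, `i = 0,1,2`; the 30 numbers `a_{ij}` are
algebraically independent over `ℚ(P_3..P_12)` (the 30 coordinates of `P_0,P_1,P_2` are, and
they are obtained from the `a_{ij}` by an invertible linear transformation over that field), in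
particular over `ℚ`.  Choose `τ_1,τ_2,y_1,y_2 ∈ ℂ` algebraically independent over
`ℚ(all coordinates)` (possible: the algebraic closure of a countable subfield of `ℂ` is countable).
Put `c_0 = c_1 = c_2 = -1`, `c_j = a_{1j}+a_{2j}`, `τ_j = (τ_1a_{1j}+τ_2a_{2j})/c_j`,
`y_j = (a_{0j}+y_1a_{1j}+y_2a_{2j})/c_j` for `j = 3..12`.  Then `Σ_{i≥1}c_iP_i = 0`,
`Στ_ic_iP_i = 0`, `c_0P_0+Σ_{i≥1}y_ic_iP_i = 0` (compare the coefficients of `P_j`, `j ≥ 3`).  With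
`t i = τ_{i+1}`, `y i = y_{i+1}`.  Genericity: over `k = ℚ(τ_1,τ_2,y_1,y_2)` the 30 elements
`c_j, τ_j, y_j` generate the same field as the 30 elements `a_{ij}`, `k`-algebraically independent:
`a_{1j}, a_{2j}` are obtained from `c_j`, `τ_jc_j` by inverting the matrix `(1 1; τ_1 τ_2)`, and
`a_{0j} = y_jc_j-y_1a_{1j}-y_2a_{2j}`.  30 elements generating a field of transcendence degree 30
are algebraically independent.  So `τ_1,τ_2,y_1,y_2,τ_j,y_j` are algebraically independent over `ℚ`. -/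
def S_GaleEx : Prop :=
  ∀ P : Fin 13 → Fin (9 + 1) → ℂ,
    AlgebraicIndependent ℚ (fun ij : Fin 13 × Fin (9 + 1) => P ij.1 ij.2) →
      ∃ (c : Fin 13 → ℂ) (t y : Fin 12 → ℂ), GaleData P c t y

/-- **GaleBasic.**  Elementary consequences of the Gale data.
PROOF. (1) for `k = P (natAdd 3 j)` the ten vectors are a basis, so `piMap` is surjective over every
field `K`: only the last ten coordinates of `x` are needed.  (2) `P_i` (`i ≥ 3`) are basis vectors;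
`c_1P_1 = -Σ..`: from `rel1`, `rel2`: `P_1, P_2` are combinations of `P_3..P_12` with all coefficients
nonzero (`t_2 ≠ t_j` etc.), `P_0` from `rel3`: write everything in the basis
`e_j = c_jP_j`, `j = 3..12` (here `t_1.. t_12` = `t 0..t 11`):
`c_1P_1 = Σ_j (t_j-t_2)/(t_2-t_1) e_j`, `c_2P_2 = Σ_j(t_1-t_j)/(t_2-t_1) e_j`,
`-c_0P_0 = Σ_j(y_j + y_1(t_j-t_2)/(t_2-t_1)+y_2(t_1-t_j)/(t_2-t_1))e_j`.  Two of the 13 vectors are
never proportional: for two basis vectors clear; the coefficients of `P_0, P_1, P_2` in the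
basis are all nonzero (three points `q` are not collinear) so they are not proportional to basis
vectors; `P_1, P_2` not proportional: `(t_j-t_2)/(t_1-t_j)` is not constant; `P_0` is not in the span
of `P_1,P_2` by genericity.  Any nonzero 2×2 minor will do. -/
def S_GaleBasic : Prop :=
  ∀ (P : Fin 13 → Fin (9 + 1) → ℂ) (c : Fin 13 → ℂ) (t y : Fin 12 → ℂ), GaleData P c t y →
    (∀ (K : Type) [Field K] [Algebra ℂ K] (w : Fin (9 + 1) → K),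
      ∃ x : Fin 12 → K, piMap P c x = w) ∧
    (∀ i j, i ≠ j → ∃ k l, P i k * P j l - P i l * P j k ≠ 0) ∧ (∀ i, P i ≠ 0)

/-- **Lift.**  Forms on `P^9` as polynomials in `x_0..x_11`.
PROOF. `F = G ∘ piMap` (`F = bind₁ (fun j => Σ_i C(c_{i+1}P_{i+1,j}) X_i) G`), homogeneous of degree
`d`; `piMap (x+a+bt) = piMap x` by `rel1, rel2`.  `deg`: let `m = m_{i+1} > 0` (otherwise the claim
`s i ≤ d` is clear), `p = P_{i+1}`.  `G(λp+w') = Σ_jλ^{d-j}G_j(w')`, where `G_j` is the homogeneous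
component of degree `j` of `G(p+·)` (homogeneity of `G`), and `G_j = 0` for `j < m`; so `F`, as a
polynomial in `x_i`, has degree `≤ d-m`.  `mul`: `piMap y = -c_0P_0`, and
`G(-c_0P_0+w') = (-c_0)^dG(P_0-w'/c_0)` has no terms of degree `< m_0` in `w'`; substitute
`w' = piMap x'`.  (For `m_0 ≤ 0` nothing to show.) -/
def S_Lift : Prop :=
  ∀ (P : Fin 13 → Fin (9 + 1) → ℂ) (c : Fin 13 → ℂ) (t y : Fin 12 → ℂ), GaleData P c t y →
    ∀ (d : ℕ) (m : Fin 13 → ℤ) (G : MvPolynomial (Fin (9 + 1)) ℂ), G ∈ H0 P d m →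
      ∃ F : MvPolynomial (Fin 12) ℂ,
        XForm t y d (m 0).toNat (fun i => (m i.succ).toNat) F ∧
        ∀ (R : Type) [CommRing R] [Algebra ℂ R] (x : Fin 12 → R),
          aeval x F = aeval (piMap P c x) G

/-- **Descend.**  The converse.
PROOF. Let `σ : ℂ^{10} → ℂ^{12}` be the linear section of `piMap` with values in the vectors whose first
two coordinates are zero (`P_3..P_12` is a basis, `c_j ≠ 0`), and `G = F ∘ σ` (as polynomials).  For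
every `ℂ`-algebra `R` and `x ∈ R^{12}`: `x-σ(piMap x)` is of the form `a+bt` with `a, b ∈ R` (choose
`a, b` such that the first two coordinates of `x-a-bt` vanish (`t_0 ≠ t_1` in `ℂ`); then
`piMap (x-a-bt) = piMap x` and the section gives back `x-a-bt`), so by the invariance
`G(piMap x) = F(σ(piMap x)) = F(x)`.  Multiplicity at `P_{i+1}`: `G(P_{i+1}+w') = F(c_{i+1}^{-1}e_i+x')`
with `x' = σ(w')`; `F` has degree `≤ d-m_i` in `x_i`, so every monomial has degree `≥ m_i` in the other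
variables, so `F(c^{-1}e_i+x')` has only terms of degree `≥ m_i` in `x'`.  At `P_0`:
`G(P_0+w') = F(-c_0^{-1}y+x')` (as `piMap y = -c_0P_0`) `= (-c_0^{-1})^dF(y-c_0x')` has only terms of
degree `≥ m₁` in `x'`. -/
def S_Descend : Prop :=
  ∀ (P : Fin 13 → Fin (9 + 1) → ℂ) (c : Fin 13 → ℂ) (t y : Fin 12 → ℂ), GaleData P c t y →
    ∀ (d m₁ : ℕ) (m : Fin 12 → ℕ) (F : MvPolynomial (Fin 12) ℂ), XForm t y d m₁ m F →
      ∃ G ∈ H0 P d (Fin.cons (m₁ : ℤ) fun i => (m i : ℤ)),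
        ∀ (R : Type) [CommRing R] [Algebra ℂ R] (x : Fin 12 → R),
          aeval (piMap P c x) G = aeval x F

end Pool.Agent.MP5769ea
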