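import Pool.Agent.Lib.MP_5769ea_ag.Defs2

/-!
# MP_5769ea_ag, Spec, part 5: convexity and small facts for the assembly
-/

open MvPolynomial

namespace Pool.Agent.MP5769ea

/-- **H0Mul.**  Products of sections are sections.
PROOF. `bind₁ (X + C p)` is an algebra homomorphism; if all homogeneous components of degree `< a`
of `F'` and of degree `< b` of `G'` vanish then those of degree `< a + b` of `F' G'` vanish (for
negative `a` replace `a` by `0`, etc.; `a + b ≤ max a 0 + max b 0`).  A nonzero constant or `1` is in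
`H0 P 0 0`.  Powers by induction: `F^k ∈ H0 P (k d) (k m)`. -/
def S_H0Mul : Prop :=
  ∀ (s n : ℕ) (P : Fin s → Fin (n + 1) → ℂ) (d d' : ℕ) (m m' : Fin s → ℤ)
    (F G : MvPolynomial (Fin (n + 1)) ℂ), F ∈ H0 P d m → G ∈ H0 P d' m' →
      F * G ∈ H0 P (d + d') (m + m') ∧
      ∀ k : ℕ, F ^ k ∈ H0 P (k * d) (fun i => k * m i)

/-- **Sep.**  Separation of a point from a closed convex cone.
PROOF. `C = closure (span S)` is a closed convex cone (`Submodule.span` over `ℝ≥0`), `0 ∈ C`.
Geometric Hahn-Banach (`geometric_hahn_banach_point_closed` or the closed-point version): there is a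
continuous linear `f` and `u` with `f x₀ < u < f c` for all `c ∈ C`; `0 ∈ C` gives `u < 0`, and as `C`
is a cone, `f c ≥ 0` on `C` (otherwise scale).  Every linear form on `ℝ × (Fin s → ℝ)` is
`x ↦ pair γ x` for some `γ`. -/
def S_Sep : Prop :=
  ∀ (s : ℕ) (S : Set (ℝ × (Fin s → ℝ))) (x₀ : ℝ × (Fin s → ℝ)),
    x₀ ∉ closure (Submodule.span NNReal S : Set (ℝ × (Fin s → ℝ))) →
      ∃ γ : ℝ × (Fin s → ℝ), pair γ x₀ < 0 ∧
        ∀ x ∈ closure (Submodule.span NNReal S : Set (ℝ × (Fin s → ℝ))), 0 ≤ pair γ x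

/-- **PairClosure.**  Nonnegativity of the pairing extends to closed convex cones, in both
arguments.
PROOF. `pair` is bilinear over `ℝ` and continuous; `{x | 0 ≤ pair γ x}` is closed and stable under
addition and multiplication by `ℝ≥0` (span induction, then `closure_minimal`). -/
def S_PairClosure : Prop :=
  ∀ (s : ℕ) (S T : Set (ℝ × (Fin s → ℝ))), (∀ x ∈ S, ∀ y ∈ T, 0 ≤ pair x y) →
    ∀ x ∈ closure (Submodule.span NNReal S : Set (ℝ × (Fin s → ℝ))),
      ∀ y ∈ closure (Submodule.span NNReal T : Set (ℝ × (Fin s → ℝ))), 0 ≤ pair x y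

/-- the class `D = 5 H - 3 E_0 - 4 (E_1 + ... + E_12)` -/
def Dcl : ℝ × (Fin 13 → ℝ) := (5, Fin.cons 3 fun _ => 4)

/-- **Approx.**  Rational approximation.
PROOF. The set `O` of the `v` with `0 < v.1`, `10000 |5 v.2 0 - 3 v.1| < v.1`,
`10000 |5 v.2 i.succ - 4 v.1| < v.1` is open, contains `Dcl` and is stable under multiplication by
positive reals.  So it contains an element `v` of the span: `v = Σ_j r_j c_j` (finite),
`r_j ∈ ℝ≥0`, `c_j ∈ S`.  The map `(r_j) ↦ Σ r_j c_j` is continuous, so we may take the `r_j` rational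
(nonnegative rationals are dense in the nonnegative reals).  Multiply by a common denominator and
by a large natural number so that `v.1 ≥ 1`. -/
def S_Approx : Prop :=
  ∀ S : Set (ℝ × (Fin 13 → ℝ)),
    Dcl ∈ closure (Submodule.span NNReal S : Set (ℝ × (Fin 13 → ℝ))) →
      ∃ (k : ℕ) (c : Fin k → ℝ × (Fin 13 → ℝ)) (n : Fin k → ℕ), (∀ j, c j ∈ S) ∧
        1 ≤ (∑ j, n j • c j).1 ∧
        10000 * |5 * (∑ j, n j • c j).2 0 - 3 * (∑ j, n j • c j).1| ≤ (∑ j, n j • c j).1 ∧
        ∀ i : Fin 12, 10000 * |5 * (∑ j, n j • c j).2 i.succ - 4 * (∑ j, n j • c j).1| ≤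
          (∑ j, n j • c j).1

/-- **GenUp.**  Genericity is inherited by extension fields, and the existence of fields with
generic elements.
PROOF. (1) `AlgebraicIndependent.map'` for the injective ring homomorphism `algebraMap ℂ K`
(which is a `ℚ`-algebra homomorphism).  (2) adding algebraically independent elements over `ℂ`:
`AlgebraicIndependent ℚ` of a sum type: `t, y` over `ℚ`, `θ, η` over `ℂ ⊇ ℚ(t, y)`
(`AlgebraicIndependent.sumElim_iff` or `sumElim`): 13 generic points. -/
def S_GenUp : Prop :=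
  ∀ (t y : Fin 12 → ℂ), Gen t y → ∀ (K : Type) [Field K] [CharZero K] [Algebra ℂ K],
    Gen (up t : Fin 12 → K) (up y) ∧
    ∀ θ η : K, AlgebraicIndependent ℂ ![θ, η] →
      Gen (Fin.snoc (α := fun _ => K) (up t) θ : Fin 13 → K)
        (Fin.snoc (α := fun _ => K) (up y) η)

end Pool.Agent.MP5769ea
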