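import Pool.Agent.Lib.MP_5769ea_ag.Spec1
import Pool.Agent.Lib.MP_5769ea_ag.Spec2
import Pool.Agent.Lib.MP_5769ea_ag.Spec3
import Pool.Agent.Lib.MP_5769ea_ag.Spec4
import Pool.Agent.Lib.MP_5769ea_ag.Spec5

open MvPolynomial

namespace Pool.Agent.MP5769ea

theorem charZeroOfC (K : Type) [Field K] [Algebra ℂ K] : CharZero K :=
  charZero_of_injective_algebraMap (algebraMap ℂ K).injective

/-- types of the bad loci -/
theorem badType (hInterp : S_Interp) (hPairOf : S_PairOf) (hVV : S_VVRank) (hQA3 : S_QA3)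
    (hGB : S_GenBound) (hBez : S_PairBez) (hNum : S_Num) (hS0 : S_Small0) (hS1 : S_Small1)
    (hS2 : S_Small2) (hS3 : S_Small3) (hS4 : S_Small4) (hT6 : S_T6) (hUp : S_GenUp)
    (t y : Fin 12 → ℂ) (hg : Gen t y) (K : Type) [Field K] [Algebra ℂ K] [IsAlgClosed K]
    (x : Fin 12 → K) (m : ℕ)
    (h : ∀ Z : Fin (6 * (m + 1)) → Fin 2 → ℂ, ∃ p ∈ VV (up t) (up y) x m, p ≠ 0 ∧
      ∀ j, eval (up (Z j)) p.1 = 0 ∧ eval (up (Z j)) p.2 = 0) :
    SmallDim t x ∨ ∃ θ₁ θ₂ a b : K, Sig4 t y θ₁ θ₂ a b x := by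
  haveI : CharZero K := charZeroOfC K
  have hgK : Gen (up t : Fin 12 → K) (up y) := (hUp t y hg K).1
  have hfr : Module.finrank K (VV (up t) (up y) x m) = 2 * (6 * (m + 1)) := by
    rw [hVV K (up t) (up y) x hgK m]; ring
  obtain ⟨U, hUV, hUd, hUp2⟩ := hInterp ℂ K (6 * (m + 1)) (VV (up t) (up y) x m) (by omega) hfr h
  have hUne : U ≠ ⊥ := by
    rintro rfl
    rw [finrank_bot] at hUd
    omega
  obtain ⟨c, κ, γ, P, R, hPT, hle⟩ := hPairOf K (up t) (up y) x m U hUV hUne hUp2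
  have hnum : 2 * c + 2 * κ - ∑ i, γ i ≤ 4 := by
    by_contra hcon
    push Not at hcon
    have h5 : 5 ≤ 2 * c + 2 * κ - ∑ i, γ i := by omega
    have hb := hGB 12 (4 * m + 5 - c) (2 * m + 1 - κ) (fun i => m - γ i) (6 * (m + 1))
      (fun K₁ _ _ s hs => hQA3 K₁ s hs m c κ γ (by have := hPT.hκ; have := hPT.hκc; omega)
        hPT.hκ hPT.hγ h5) K (up t) (up y) hgK
    omega
  have hb := hBez K (up t) (up y) x hgK c κ γ P R hPT
  rcases hNum c κ γ hPT.hκ hPT.hκc hPT.hγ hnum hb with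
    ⟨h1, h2, h3, h4⟩ | ⟨h1, h2, h3, h4⟩ | ⟨h1, h2, h3⟩ | ⟨h1, h2, h3⟩ | ⟨h1, h2, h3⟩ |
      ⟨h1, h2, h3⟩
  · subst h1; exact Or.inl (hS0 t y hg K x c γ P R hPT h2 h3 h4)
  · subst h1; subst h2; exact Or.inl (hS1 t y hg K x γ P R hPT h3 h4)
  · subst h1; subst h2; exact hS4 t y hg K x γ P R hPT h3
  · subst h1; subst h2; exact Or.inl (hS2 t y hg K x γ P R hPT h3)
  · subst h1; subst h2; exact Or.inl (hS3 t y hg K x γ P R hPT h3)
  · subst h1; subst h2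
    have : γ = fun _ => 1 := funext h3
    subst this
    exact Or.inl (hT6 t y hg K x P R hPT)

end Pool.Agent.MP5769ea
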