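import Pool.Agent.Lib.MP_5769ea_ag.Asm1

open MvPolynomial

namespace Pool.Agent.MP5769ea

/-- `D · γ` as an integer -/
noncomputable def Xdeg (P : Fin 13 → Fin (9 + 1) → ℂ) (Ω : Type) {K : Type} [Field Ω] [Field K]
    [Algebra Ω K] [Algebra ℂ K] (w : Fin (9 + 1) → K) : ℤ :=
  5 * pdeg Ω w - 3 * (pdeg Ω w - pdeg Ω (wedge w (P 0))) -
    4 * ∑ i : Fin 12, (pdeg Ω w - pdeg Ω (wedge w (P i.succ)))

theorem pair_clOut_Dcl (P : Fin 13 → Fin (9 + 1) → ℂ) (Ω : Type) {K : Type} [Field Ω] [Field K]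
    [Algebra Ω K] [Algebra ℂ K] (w : Fin (9 + 1) → K) :
    pair (clOut P Ω w) Dcl = (Xdeg P Ω w : ℝ) := by
  simp only [pair, clOut, Dcl, Xdeg]
  rw [Fin.sum_univ_succ]
  simp only [Fin.cons_zero, Fin.cons_succ]
  push_cast
  rw [Finset.mul_sum]
  have : ∑ x : Fin 12, ((pdeg Ω w : ℝ) - (pdeg Ω (wedge w (P x.succ)) : ℝ)) * 4 =
      ∑ x : Fin 12, 4 * ((pdeg Ω w : ℝ) - (pdeg Ω (wedge w (P x.succ)) : ℝ)) :=
    Finset.sum_congr rfl fun i _ => mul_comm _ _
  rw [this]
  ring

theorem wedge_smul {N : ℕ} {K : Type} [Field K] [Algebra ℂ K] (l : K) (w : Fin N → K)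
    (p : Fin N → ℂ) : wedge (l • w) p = l • wedge w p := by
  funext jk
  simp only [wedge, Pi.smul_apply, smul_eq_mul]
  ring

theorem wedge_map {N : ℕ} {K K' : Type} [Field K] [Algebra ℂ K] [Field K'] [Algebra ℂ K']
    [Algebra K K'] [IsScalarTower ℂ K K'] (w : Fin N → K) (p : Fin N → ℂ) :
    wedge (fun j => algebraMap K K' (w j)) p = fun jk => algebraMap K K' (wedge w p jk) := by
  funext jk
  simp only [wedge, map_sub, map_mul, ← IsScalarTower.algebraMap_apply]

theorem piMap_map {K K' : Type} [Field K] [Algebra ℂ K] [Field K'] [Algebra ℂ K']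
    [Algebra K K'] [IsScalarTower ℂ K K'] (P : Fin 13 → Fin (9 + 1) → ℂ) (c : Fin 13 → ℂ)
    (x : Fin 12 → K) :
    piMap P c (fun i => algebraMap K K' (x i)) = fun j => algebraMap K K' (piMap P c x j) := by
  funext j
  simp only [piMap, map_sum, map_mul, ← IsScalarTower.algebraMap_apply]

theorem piMap_affine {P : Fin 13 → Fin (9 + 1) → ℂ} {c : Fin 13 → ℂ} {t y : Fin 12 → ℂ}
    (hG : GaleData P c t y) {K : Type} [Field K] [Algebra ℂ K] (x : Fin 12 → K) (l l0 l1 : K) :
    piMap P c (fun i => l * (x i - l0 - l1 * algebraMap ℂ K (t i))) = l • piMap P c x := by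
  funext j
  have h1 : ∑ i : Fin 12, algebraMap ℂ K (c i.succ * P i.succ j) = 0 := by
    have := congrFun hG.rel1 j
    simp only [Finset.sum_apply, Pi.smul_apply, smul_eq_mul, Pi.zero_apply] at this
    rw [← map_sum, this, map_zero]
  have h2 : ∑ i : Fin 12, algebraMap ℂ K (t i) * algebraMap ℂ K (c i.succ * P i.succ j) = 0 := by
    have := congrFun hG.rel2 j
    simp only [Finset.sum_apply, Pi.smul_apply, smul_eq_mul, Pi.zero_apply] at this
    simp only [← map_mul]
    rw [← map_sum]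
    have e : ∑ x : Fin 12, t x * (c x.succ * P x.succ j) = 0 := by
      rw [← this]
      exact Finset.sum_congr rfl fun i _ => by ring
    rw [e, map_zero]
  simp only [piMap, Pi.smul_apply, smul_eq_mul]
  have e : ∀ i : Fin 12, l * (x i - l0 - l1 * algebraMap ℂ K (t i)) *
      algebraMap ℂ K (c i.succ * P i.succ j) =
      l * (x i * algebraMap ℂ K (c i.succ * P i.succ j)) -
        l * l0 * algebraMap ℂ K (c i.succ * P i.succ j) -
        l * l1 * (algebraMap ℂ K (t i) * algebraMap ℂ K (c i.succ * P i.succ j)) := by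
    intro i; ring
  rw [Finset.sum_congr rfl fun i _ => e i, Finset.sum_sub_distrib, Finset.sum_sub_distrib,
    ← Finset.mul_sum, ← Finset.mul_sum, ← Finset.mul_sum, h1, h2]
  ring

/-- the case `Σ_4`, over a finite extension -/
theorem sigFinite (hSigPos : S_SigPos) (hExt : S_FFExt) (hBasic : S_FFBasic)
    {P : Fin 13 → Fin (9 + 1) → ℂ} {c : Fin 13 → ℂ} {t y : Fin 12 → ℂ} (hG : GaleData P c t y)
    (Ω K K' : Type) [Field Ω] [Field K] [Field K'] [Algebra ℂ Ω] [Algebra Ω K] [Algebra ℂ K]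
    [Algebra K K'] [Algebra Ω K'] [Algebra ℂ K'] [IsScalarTower ℂ Ω K]
    [IsScalarTower Ω K K'] [IsScalarTower ℂ K K'] [IsScalarTower ℂ Ω K'] [IsAlgClosed Ω]
    [FiniteDimensional K K']
    (hFF : IsFF Ω K) (w : Fin (9 + 1) → K) (hw : ∀ i, wedge w (P i) ≠ 0) (x : Fin 12 → K)
    (hx : piMap P c x = w) (θ₁ θ₂ a b l l0 l1 : K')
    (hind : AlgebraicIndependent ℂ ![θ₁, θ₂, a, b]) (hl : l ≠ 0)
    (hrel : ∀ i, l * (algebraMap K K' (x i) - l0 - l1 * algebraMap ℂ K' (t i)) =
      (algebraMap ℂ K' (t i) - θ₁) * (algebraMap ℂ K' (t i) - θ₂) /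
        (algebraMap ℂ K' (y i) + a + b * algebraMap ℂ K' (t i))) :
    0 ≤ Xdeg P Ω w := by
  haveI : CharZero Ω := charZeroOfC Ω
  obtain ⟨hFF', hdeg⟩ := hExt Ω K K' hFF
  obtain ⟨-, hsm, -⟩ := hBasic Ω K' hFF'
  set w' : Fin (9 + 1) → K' := fun j => algebraMap K K' (w j) with hw'
  have hpi : piMap P c (fun i => l * (algebraMap K K' (x i) - l0 - l1 * algebraMap ℂ K' (t i))) =
      l • w' := by
    rw [piMap_affine hG (fun i => algebraMap K K' (x i)), piMap_map, hx]
  have hinj : Function.Injective (algebraMap K K') := (algebraMap K K').injective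
  have hwne : w ≠ 0 := by
    rintro rfl
    apply hw 0
    funext jk
    simp [wedge]
  have hmapne : ∀ {ι : Type} (u : ι → K), u ≠ 0 → (fun j => algebraMap K K' (u j)) ≠ 0 := by
    intro ι u hu h
    apply hu
    funext j
    have := congrFun h j
    simp only [Pi.zero_apply] at this
    exact (map_eq_zero_iff _ hinj).1 this
  have hw'ne : w' ≠ 0 := hmapne w hwne
  have hwed : ∀ i, wedge w' (P i) = fun jk => algebraMap K K' (wedge w (P i) jk) := fun i =>
    wedge_map w (P i)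
  have hwedne : ∀ i, wedge w' (P i) ≠ 0 := fun i => by
    rw [hwed]; exact hmapne _ (hw i)
  have hsmne : ∀ i, wedge (l • w') (P i) ≠ 0 := by
    intro i h
    rw [wedge_smul] at h
    rcases smul_eq_zero.1 h with h | h
    · exact hl h
    · exact hwedne i h
  have key := hSigPos P c t y hG Ω K' hFF' θ₁ θ₂ a b
    (fun i => l * (algebraMap K K' (x i) - l0 - l1 * algebraMap ℂ K' (t i))) hind hrel
    (fun i => by rw [hpi]; exact hsmne i)
  rw [hpi] at key
  have e1 : pdeg Ω (l • w') = Module.finrank K K' * pdeg Ω w := by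
    rw [hsm _ w' l hw'ne hl, hw', hdeg _ w hwne]
  have e2 : ∀ i, pdeg Ω (wedge (l • w') (P i)) = Module.finrank K K' * pdeg Ω (wedge w (P i)) := by
    intro i
    rw [wedge_smul, hsm _ _ l (hwedne i) hl, hwed, hdeg _ _ (hw i)]
  rw [e1, e2 0] at key
  have e3 : ∑ i : Fin 12, ((Module.finrank K K' : ℤ) * pdeg Ω w -
      pdeg Ω (wedge (l • w') (P i.succ))) =
      Module.finrank K K' * ∑ i : Fin 12, (pdeg Ω w - pdeg Ω (wedge w (P i.succ))) := by
    rw [Finset.mul_sum]
    refine Finset.sum_congr rfl fun i _ => ?_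
    rw [e2]; ring
  rw [e3] at key
  have hn : (0 : ℤ) < Module.finrank K K' := by
    have : 0 < Module.finrank K K' := Module.finrank_pos
    exact_mod_cast this
  have hfin : (0 : ℤ) ≤ Module.finrank K K' * Xdeg P Ω w := by
    unfold Xdeg
    calc (0 : ℤ) ≤ _ := key
      _ = _ := by ring
  exact nonneg_of_mul_nonneg_right hfin hn

end Pool.Agent.MP5769ea
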