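import Pool.Agent.Lib.MP_5769ea_ag.Asm2

open MvPolynomial

namespace Pool.Agent.MP5769ea

/-- the case of a curve not contained in an exceptional divisor -/
theorem outCase (hInterp : S_Interp) (hPairOf : S_PairOf) (hVV : S_VVRank) (hQA3 : S_QA3)
    (hGB : S_GenBound) (hBez : S_PairBez) (hNum : S_Num) (hS0 : S_Small0) (hS1 : S_Small1)
    (hS2 : S_Small2) (hS3 : S_Small3) (hS4 : S_Small4) (hT6 : S_T6) (hUp : S_GenUp)
    (hDet : S_DetForm) (hSigSmall : S_SigSmall) (hSmallNot : S_SmallNot) (hDesc : S_Descend)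
    (hGBa : S_GaleBasic) (hSec : S_SecPos) (hSigPos : S_SigPos) (hExt : S_FFExt)
    (hBasic : S_FFBasic)
    {P : Fin 13 → Fin (9 + 1) → ℂ} {c : Fin 13 → ℂ} {t y : Fin 12 → ℂ} (hG : GaleData P c t y)
    (Ω K : Type) [Field Ω] [Field K] [Algebra ℂ Ω] [Algebra Ω K] [Algebra ℂ K]
    [IsScalarTower ℂ Ω K] [IsAlgClosed Ω] (hFF : IsFF Ω K) (w : Fin (9 + 1) → K)
    (hw : ∀ i, wedge w (P i) ≠ 0) (hdim : DimGE 4 w) : 0 ≤ Xdeg P Ω w := by
  obtain ⟨hsurj, hprop, hne⟩ := hGBa P c t y hG
  obtain ⟨x, hx⟩ := hsurj K w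
  choose F hF1 hF2 using hDet t y hG.gen
  by_cases hcase : ∀ m : ℕ, ∃ Z, aeval x (F m Z) ≠ 0
  · -- enough sections
    have hm : ∀ m : ℕ, 0 ≤ ((m : ℤ) + 1) * Xdeg P Ω w + 3 * (pdeg Ω w - pdeg Ω (wedge w (P 0))) := by
      intro m
      obtain ⟨Z, hZ⟩ := hcase m
      obtain ⟨G, hG1, hG2⟩ := hDesc P c t y hG _ _ _ _ (hF1 m Z)
      have hGx : aeval w G ≠ 0 := by
        rw [← hx, hG2 K x]; exact hZ
      have := hSec 13 9 P hprop hne Ω K hFF _ _ G hG1 w hw hGx
      rw [Fin.sum_univ_succ] at this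
      simp only [Fin.cons_zero, Fin.cons_succ] at this
      rw [← Finset.mul_sum] at this
      unfold Xdeg
      push_cast at this
      calc (0 : ℤ) ≤ _ := this
        _ = _ := by ring
    by_contra hneg
    push Not at hneg
    set B := 3 * (pdeg Ω w - pdeg Ω (wedge w (P 0))) with hB
    have h1 := hm B.toNat
    have h2 : B ≤ (B.toNat : ℤ) := Int.self_le_toNat B
    nlinarith
  · push Not at hcase
    obtain ⟨m, hm⟩ := hcase
    have hK := badType hInterp hPairOf hVV hQA3 hGB hBez hNum hS0 hS1 hS2 hS3 hS4 hT6 hUp t y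
      hG.gen (AlgebraicClosure K) (fun i => algebraMap K (AlgebraicClosure K) (x i)) m
      (fun Z => hF2 m Z (AlgebraicClosure K) _ (by
        have := MvPolynomial.aeval_algebraMap_apply (A := K) (B := AlgebraicClosure K) x (F m Z)
        rw [show (fun i => algebraMap K (AlgebraicClosure K) (x i)) =
          (algebraMap K (AlgebraicClosure K)) ∘ x from rfl, this, hm Z, map_zero]))
    have hsmall : ¬ SmallDim t (fun i => algebraMap K (AlgebraicClosure K) (x i)) := by
      intro h
      have := hSmallNot P c t y hG K (AlgebraicClosure K) x h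
      rw [hx] at this
      exact this hdim
    rcases hK with hK | ⟨θ₁, θ₂, a, b, hK⟩
    · exact absurd hK hsmall
    · have hind : AlgebraicIndependent ℂ ![θ₁, θ₂, a, b] := by
        by_contra hni
        exact hsmall (hSigSmall t y _ θ₁ θ₂ a b _ hK hni)
      obtain ⟨-, l, l0, l1, hl, hrel⟩ := hK
      let S : Set (AlgebraicClosure K) := {θ₁, θ₂, a, b, l, l0, l1}
      let K' := IntermediateField.adjoin K S
      have hS : ∀ z ∈ S, z ∈ K' := fun z hz => IntermediateField.subset_adjoin K S hz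
      have hθ₁ : θ₁ ∈ K' := hS _ (by simp [S])
      have hθ₂ : θ₂ ∈ K' := hS _ (by simp [S])
      have ha : a ∈ K' := hS _ (by simp [S])
      have hb : b ∈ K' := hS _ (by simp [S])
      have hlK : l ∈ K' := hS _ (by simp [S])
      have hl0 : l0 ∈ K' := hS _ (by simp [S])
      have hl1 : l1 ∈ K' := hS _ (by simp [S])
      have hfinS : Finite S := by
        apply Set.Finite.to_subtype
        simp only [S, Set.finite_insert, Set.finite_singleton]
      haveI : FiniteDimensional K K' := by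
        apply IntermediateField.finiteDimensional_adjoin
        intro z _
        exact (Algebra.IsAlgebraic.isAlgebraic z).isIntegral
      haveI : IsScalarTower ℂ Ω K' := by
        refine IsScalarTower.of_algebraMap_eq fun z => ?_
        rw [IsScalarTower.algebraMap_apply ℂ K K', IsScalarTower.algebraMap_apply ℂ Ω K,
          ← IsScalarTower.algebraMap_apply Ω K K']
      refine sigFinite hSigPos hExt hBasic hG Ω K K' hFF w hw x hx ⟨θ₁, hθ₁⟩ ⟨θ₂, hθ₂⟩ ⟨a, ha⟩
        ⟨b, hb⟩ ⟨l, hlK⟩ ⟨l0, hl0⟩ ⟨l1, hl1⟩ ?_ ?_ ?_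
      · -- algebraic independence
        have hinj : Function.Injective (K'.val.restrictScalars ℂ) :=
          (algebraMap K' (AlgebraicClosure K)).injective
        have e : ![θ₁, θ₂, a, b] = (K'.val.restrictScalars ℂ) ∘
            (![⟨θ₁, hθ₁⟩, ⟨θ₂, hθ₂⟩, ⟨a, ha⟩, ⟨b, hb⟩] : Fin 4 → K') := by
          funext i
          fin_cases i <;> rfl
        rw [e] at hind
        exact (AlgHom.algebraicIndependent_iff _ hinj).1 hind
      · intro h
        apply hl
        have := congrArg (fun z : K' => (z : AlgebraicClosure K)) h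
        exact this
      · intro i
        apply Subtype.ext
        exact hrel i

end Pool.Agent.MP5769ea
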