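import Pool.Agent.Lib.MP_5769ea_ag.Asm3

open MvPolynomial

namespace Pool.Agent.MP5769ea

theorem pair_clExc {s n : ℕ} (P : Fin s → Fin (n + 1) → ℂ) (Ω : Type) {K : Type} [Field Ω]
    [Field K] [Algebra Ω K] [Algebra ℂ K] (i : Fin s) (u : Fin (n + 1) → K)
    (D : ℝ × (Fin s → ℝ)) :
    pair (clExc P Ω i u) D = (pdeg Ω (wedge u (P i)) : ℝ) * D.2 i := by
  simp only [pair, clExc]
  have : ∀ j, (if j = i then -((pdeg Ω (wedge u (P i)) : ℤ) : ℝ) else 0) * D.2 j =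
      if j = i then -((pdeg Ω (wedge u (P i)) : ℤ) : ℝ) * D.2 i else 0 := by
    intro j
    by_cases h : j = i
    · simp [h]
    · simp [h]
  rw [Finset.sum_congr rfl fun j _ => this j, Finset.sum_ite_eq' Finset.univ i]
  simp

/-- good divisor classes are nonnegative on moving classes -/
theorem pair_nonneg (hSec : S_SecPos) (hBasic : S_FFBasic) {s n : ℕ}
    (P : Fin s → Fin (n + 1) → ℂ)
    (hprop : ∀ i j, i ≠ j → ∃ k l, P i k * P j l - P i l * P j k ≠ 0) (hne : ∀ i, P i ≠ 0)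
    (e : ℕ) : ∀ γ ∈ movingClasses P e, ∀ D ∈ goodClasses P e, 0 ≤ pair γ D := by
  rintro γ ⟨Ω, K, _, _, _, _, _, _, hac, hFF, hγ⟩ D ⟨d, m, rfl, -, hgood⟩
  haveI : CharZero Ω := charZeroOfC Ω
  obtain ⟨hout, hexc⟩ := hgood K inferInstance inferInstance
  rcases hγ with ⟨w, hw, -, hdim, rfl⟩ | ⟨i, u, hu, -, hdim, rfl⟩
  · obtain ⟨l, hl, F, hF, hFw⟩ := hout w hw hdim
    have key := hSec s n P hprop hne Ω K hFF (l * d) (fun i => l * m i) F hF w hw hFw
    have e1 : (((l * d : ℕ) : ℤ) : ℝ) * pdeg Ω w -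
        ∑ i, (l * m i : ℝ) * ((pdeg Ω w : ℝ) - pdeg Ω (wedge w (P i))) =
        (l : ℝ) * pair (clOut P Ω w) ((d : ℝ), fun i => ((m i : ℤ) : ℝ)) := by
      simp only [pair, clOut]
      rw [mul_sub, Finset.mul_sum]
      push_cast
      congr 1
      · ring
      · exact Finset.sum_congr rfl fun i _ => by ring
    have key2 : (0 : ℝ) ≤ (l : ℝ) * pair (clOut P Ω w) ((d : ℝ), fun i => ((m i : ℤ) : ℝ)) := by
      rw [← e1]
      have : (0 : ℝ) ≤ ((((l * d : ℕ) : ℤ) * pdeg Ω w -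
        ∑ i, ((l : ℤ) * m i) * (pdeg Ω w - pdeg Ω (wedge w (P i))) : ℤ) : ℝ) := by
        exact_mod_cast key
      push_cast at this ⊢
      exact this
    have hl' : (0 : ℝ) < l := by exact_mod_cast hl
    exact nonneg_of_mul_nonneg_right key2 hl'
  · obtain ⟨l, hl, F, hF, hlm, -⟩ := hexc i u hu hdim
    rw [pair_clExc]
    have h1 : 0 ≤ m i := by
      have hl' : (0 : ℤ) < l := by exact_mod_cast hl
      exact nonneg_of_mul_nonneg_right hlm hl'
    have h2 : 0 ≤ pdeg Ω (wedge u (P i)) := (hBasic Ω K hFF).1 _ _ hu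
    have h1' : (0 : ℝ) ≤ ((m i : ℤ) : ℝ) := by exact_mod_cast h1
    have h2' : (0 : ℝ) ≤ ((pdeg Ω (wedge u (P i)) : ℤ) : ℝ) := by exact_mod_cast h2
    exact mul_nonneg h2' h1'

/-- some multiple of the class `(d, m)` has a section not vanishing at `w` -/
def HasSec {s n : ℕ} (P : Fin s → Fin (n + 1) → ℂ) {K : Type} [Field K] [Algebra ℂ K]
    (w : Fin (n + 1) → K) (d : ℕ) (m : Fin s → ℤ) : Prop :=
  ∃ l : ℕ, 0 < l ∧ ∃ F ∈ H0 P (l * d) (fun i => l * m i), aeval w F ≠ 0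

theorem zero_mem_H0 {s n : ℕ} (P : Fin s → Fin (n + 1) → ℂ) (d : ℕ) (m : Fin s → ℤ) :
    (0 : MvPolynomial (Fin (n + 1)) ℂ) ∈ H0 P d m := by
  refine ⟨isHomogeneous_zero _ _ _, fun i j _ => ?_⟩
  simp

theorem HasSec.zero (hMul : S_H0Mul) {s n : ℕ} (P : Fin s → Fin (n + 1) → ℂ) {K : Type} [Field K]
    [Algebra ℂ K] (w : Fin (n + 1) → K) : HasSec P w 0 0 := by
  refine ⟨1, one_pos, 1, ?_, by simp⟩
  have := (hMul s n P 0 0 0 0 0 0 (zero_mem_H0 P 0 0) (zero_mem_H0 P 0 0)).2 0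
  simpa using this

theorem HasSec.add (hMul : S_H0Mul) {s n : ℕ} {P : Fin s → Fin (n + 1) → ℂ} {K : Type} [Field K]
    [Algebra ℂ K] {w : Fin (n + 1) → K} {d d' : ℕ} {m m' : Fin s → ℤ} (h : HasSec P w d m)
    (h' : HasSec P w d' m') : HasSec P w (d + d') (m + m') := by
  obtain ⟨l, hl, F, hF, hFw⟩ := h
  obtain ⟨l', hl', F', hF', hFw'⟩ := h'
  refine ⟨l * l', Nat.mul_pos hl hl', F ^ l' * F' ^ l, ?_, ?_⟩
  · have h1 := (hMul s n P _ _ _ _ F F' hF hF').2 l'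
    have h2 := (hMul s n P _ _ _ _ F' F hF' hF).2 l
    have h3 := (hMul s n P _ _ _ _ _ _ h1 h2).1
    have e1 : l' * (l * d) + l * (l' * d') = l * l' * (d + d') := by ring
    have e2 : ((fun i => (l' : ℤ) * (l * m i)) + fun i => (l : ℤ) * (l' * m' i)) =
        fun i => ((l * l' : ℕ) : ℤ) * (m + m') i := by
      funext i
      simp only [Pi.add_apply]
      push_cast
      ring
    rw [e1, e2] at h3
    exact h3
  · rw [map_mul, map_pow, map_pow]
    exact mul_ne_zero (pow_ne_zero _ hFw) (pow_ne_zero _ hFw')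

theorem HasSec.nsmul (hMul : S_H0Mul) {s n : ℕ} {P : Fin s → Fin (n + 1) → ℂ} {K : Type} [Field K]
    [Algebra ℂ K] {w : Fin (n + 1) → K} {d : ℕ} {m : Fin s → ℤ} (h : HasSec P w d m) (k : ℕ) :
    HasSec P w (k * d) (k • m) := by
  induction k with
  | zero => simpa using HasSec.zero hMul P w
  | succ k ih =>
    have := HasSec.add hMul ih h
    rw [succ_nsmul]
    rw [show (k + 1) * d = k * d + d by ring]
    exact this

theorem HasSec.sum (hMul : S_H0Mul) {s n : ℕ} {P : Fin s → Fin (n + 1) → ℂ} {K : Type} [Field K]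
    [Algebra ℂ K] {w : Fin (n + 1) → K} {ι : Type} (I : Finset ι) (d : ι → ℕ)
    (m : ι → Fin s → ℤ) (h : ∀ j ∈ I, HasSec P w (d j) (m j)) :
    HasSec P w (∑ j ∈ I, d j) (∑ j ∈ I, m j) := by
  classical
  induction I using Finset.induction_on with
  | empty => simpa using HasSec.zero hMul P w
  | insert a I ha ih =>
    rw [Finset.sum_insert ha, Finset.sum_insert ha]
    exact HasSec.add hMul (h a (Finset.mem_insert_self a I))
      (ih fun j hj => h j (Finset.mem_insert_of_mem hj))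

/-- `D` is not in the divisor cone -/
theorem Dcl_notMem (hMul : S_H0Mul) (hApprox : S_Approx) (hSigDim : S_SigDim) (hLift : S_Lift)
    (hSigBase : S_SigBase)
    {P : Fin 13 → Fin (9 + 1) → ℂ} {c : Fin 13 → ℂ} {t y : Fin 12 → ℂ} (hG : GaleData P c t y) :
    Dcl ∉ closure (Submodule.span NNReal (goodClasses P 4) : Set (ℝ × (Fin 13 → ℝ))) := by
  intro hmem
  obtain ⟨k, C, n, hC, h1, h2, h3⟩ := hApprox _ hmem
  -- the generic point
  let K := FractionRing (MvPolynomial (Fin 4) ℂ)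
  have hind : AlgebraicIndependent ℂ (fun i : Fin 4 => algebraMap (MvPolynomial (Fin 4) ℂ) K (X i)) := by
    have h := MvPolynomial.algebraicIndependent_X (Fin 4) ℂ
    have hinj : Function.Injective (IsScalarTower.toAlgHom ℂ (MvPolynomial (Fin 4) ℂ) K) :=
      IsFractionRing.injective _ _
    exact (AlgHom.algebraicIndependent_iff _ hinj).2 h
  set θ₁ : K := algebraMap (MvPolynomial (Fin 4) ℂ) K (X 0) with hθ₁
  set η₁ : K := algebraMap (MvPolynomial (Fin 4) ℂ) K (X 1) with hη₁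
  set θ₂ : K := algebraMap (MvPolynomial (Fin 4) ℂ) K (X 2) with hθ₂
  set η₂ : K := algebraMap (MvPolynomial (Fin 4) ℂ) K (X 3) with hη₂
  have hind' : AlgebraicIndependent ℂ ![θ₁, η₁, θ₂, η₂] := by
    have e : ![θ₁, η₁, θ₂, η₂] =
        fun i : Fin 4 => algebraMap (MvPolynomial (Fin 4) ℂ) K (X i) := by
      funext i
      fin_cases i <;> rfl
    rw [e]; exact hind
  let x : Fin 12 → K := fun i => (algebraMap ℂ K (t i) - θ₁) * (algebraMap ℂ K (t i) - θ₂) /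
    ((algebraMap ℂ K (y i) - η₁) * (θ₂ - θ₁) - (η₂ - η₁) * (algebraMap ℂ K (t i) - θ₁))
  obtain ⟨hdim, hwed⟩ := hSigDim P c t y hG K θ₁ η₁ θ₂ η₂ hind' x (fun i => rfl)
  -- the classes
  have hch : ∀ j, ∃ (d : ℕ) (m : Fin 13 → ℤ), C j = ((d : ℝ), fun i => ((m i : ℤ) : ℝ)) ∧
      HasSec P (piMap P c x) d m := by
    intro j
    obtain ⟨d, m, hcj, -, hgood⟩ := hC j
    exact ⟨d, m, hcj, (hgood K inferInstance inferInstance).1 (piMap P c x) hwed hdim⟩
  choose d m hdm hsec using hch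
  have hsum := HasSec.sum hMul Finset.univ (fun j => n j * d j) (fun j => n j • m j)
    (fun j _ => HasSec.nsmul hMul (hsec j) (n j))
  obtain ⟨l, hl, G, hG0, hGw⟩ := hsum
  have hv1 : (∑ j, n j • C j).1 = ((∑ j, n j * d j : ℕ) : ℝ) := by
    rw [Prod.fst_sum]
    push_cast
    refine Finset.sum_congr rfl fun j _ => ?_
    rw [hdm j]
    simp
  have hv2 : ∀ i, (∑ j, n j • C j).2 i = (((∑ j, n j • m j) i : ℤ) : ℝ) := by
    intro i
    rw [Prod.snd_sum, Finset.sum_apply, Finset.sum_apply]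
    push_cast
    refine Finset.sum_congr rfl fun j _ => ?_
    rw [hdm j]
    simp
  rw [hv1] at h1 h2 h3
  rw [hv2] at h2
  set d' := ∑ j, n j * d j with hd'
  set m' := ∑ j, n j • m j with hm'
  have h1' : 1 ≤ d' := by exact_mod_cast h1
  have h2' : 10000 * |5 * m' 0 - 3 * (d' : ℤ)| ≤ d' := by exact_mod_cast h2
  have h3' : ∀ i : Fin 12, 10000 * |5 * m' i.succ - 4 * (d' : ℤ)| ≤ d' := by
    intro i
    have := h3 i
    rw [hv2] at this
    exact_mod_cast this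
  have hpos : ∀ z q : ℤ, 10000 * |5 * z - q| ≤ d' → 3 * (d' : ℤ) ≤ q → 0 ≤ z := by
    intro z q hz hq
    have := neg_abs_le (5 * z - q)
    omega
  have hm0 : 0 ≤ m' 0 := hpos _ _ h2' (by omega)
  have hmi : ∀ i : Fin 12, 0 ≤ m' i.succ := fun i => hpos _ _ (h3' i) (by omega)
  obtain ⟨F, hF1, hF2⟩ := hLift P c t y hG _ _ G hG0
  have hl' : (0 : ℤ) < l := by exact_mod_cast hl
  have hsc : ∀ z q : ℤ, 0 ≤ z → 10000 * |5 * z - q * (d' : ℤ)| ≤ d' →
      10000 * |(5 * (((l : ℤ) * z).toNat : ℤ) : ℤ) - q * ((l * d' : ℕ) : ℤ)| ≤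
        ((l * d' : ℕ) : ℤ) := by
    intro z q hz hq
    rw [Int.toNat_of_nonneg (mul_nonneg hl'.le hz)]
    push_cast
    have e : 5 * ((l : ℤ) * z) - q * (l * d') = l * (5 * z - q * d') := by ring
    rw [e, abs_mul, abs_of_pos hl']
    calc 10000 * ((l : ℤ) * |5 * z - q * d'|) = l * (10000 * |5 * z - q * d'|) := by ring
      _ ≤ l * d' := mul_le_mul_of_nonneg_left hq hl'.le
  have := hSigBase t y hG.gen (l * d') ((l : ℤ) * m' 0).toNat
    (fun i => ((l : ℤ) * m' i.succ).toNat) F hF1 (by nlinarith)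
    (hsc _ _ hm0 h2') (fun i => hsc _ _ (hmi i) (h3' i)) K θ₁ η₁ θ₂ η₂ hind' x (fun i => rfl)
  rw [hF2 K x] at this
  exact hGw this

/-- everything together -/
theorem goal_of (hInterp : S_Interp) (hPairOf : S_PairOf) (hVV : S_VVRank) (hQA3 : S_QA3)
    (hGB : S_GenBound) (hBez : S_PairBez) (hNum : S_Num) (hS0 : S_Small0) (hS1 : S_Small1)
    (hS2 : S_Small2) (hS3 : S_Small3) (hS4 : S_Small4) (hT6 : S_T6) (hUp : S_GenUp)
    (hDet : S_DetForm) (hSigSmall : S_SigSmall) (hSmallNot : S_SmallNot) (hDesc : S_Descend)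
    (hGBa : S_GaleBasic) (hSec : S_SecPos) (hSigPos : S_SigPos) (hExt : S_FFExt)
    (hBasic : S_FFBasic) (hMul : S_H0Mul) (hApprox : S_Approx) (hSigDim : S_SigDim)
    (hLift : S_Lift) (hSigBase : S_SigBase) (hSep : S_Sep) (hPC : S_PairClosure)
    (hGale : S_GaleEx) : Goal := by
  intro P hP
  obtain ⟨c, t, y, hG⟩ := hGale P hP
  obtain ⟨hsurj, hprop, hne⟩ := hGBa P c t y hG
  refine ⟨?_, ?_⟩
  · intro γ hγ D hD
    exact hPC 13 (movingClasses P 4) (goodClasses P 4)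
      (pair_nonneg hSec hBasic P hprop hne 4) γ hγ D hD
  · intro hsub
    obtain ⟨γ, hγ1, hγ2⟩ := hSep 13 (goodClasses P 4) Dcl
      (Dcl_notMem hMul hApprox hSigDim hLift hSigBase hG)
    have hγ : γ ∈ movingCone P 5 := hsub hγ2
    have hDpos : ∀ γ ∈ movingClasses P 4, ∀ D ∈ ({Dcl} : Set (ℝ × (Fin 13 → ℝ))),
        0 ≤ pair γ D := by
      rintro γ ⟨Ω, K, _, _, _, _, _, _, hac, hFF, hγ⟩ D hD
      rw [Set.mem_singleton_iff] at hD
      subst hD
      haveI : CharZero Ω := charZeroOfC Ω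
      rcases hγ with ⟨w, hw, -, hdim, rfl⟩ | ⟨i, u, hu, -, hdim, rfl⟩
      · rw [pair_clOut_Dcl]
        exact_mod_cast outCase hInterp hPairOf hVV hQA3 hGB hBez hNum hS0 hS1 hS2 hS3 hS4 hT6 hUp
          hDet hSigSmall hSmallNot hDesc hGBa hSec hSigPos hExt hBasic hG Ω K hFF w hw hdim
      · rw [pair_clExc]
        have h2 : 0 ≤ pdeg Ω (wedge u (P i)) := (hBasic Ω K hFF).1 _ _ hu
        have h2' : (0 : ℝ) ≤ ((pdeg Ω (wedge u (P i)) : ℤ) : ℝ) := by exact_mod_cast h2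
        refine mul_nonneg h2' ?_
        unfold Dcl
        refine Fin.cases ?_ (fun j => ?_) i
        · simp
        · simp
    have := hPC 13 (movingClasses P 4) {Dcl} hDpos γ hγ Dcl
      (subset_closure (Submodule.subset_span (Set.mem_singleton _)))
    exact absurd hγ1 (not_lt.2 this)

end Pool.Agent.MP5769ea
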