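import Pool.Agent.Lib.MP_5769ea_ag.Spec1

/-! # MP_5769ea_ag, Bezout : Bezout's theorem with multiplicities -/

open MvPolynomial

namespace Pool.Agent.MP5769ea

namespace BezoutAux

/-- picking out one block of a sum over a sigma type -/
theorem sum_block {K : Type} [Field K] {N : ℕ} {r : Fin N → ℕ}
    (c : (Σ i : Fin N, Fin (r i)) → K)
    (f : (i : Fin N) → Fin (r i) → MvPolynomial (Fin 2) K) (i : Fin N) :
    ∑ s : (Σ i : Fin N, Fin (r i)), C (c s) * (if s.1 = i then f s.1 s.2 else 0) =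
      ∑ k, C (c ⟨i, k⟩) * f i k := by
  rw [Fintype.sum_sigma]
  rw [Finset.sum_eq_single i]
  · exact Finset.sum_congr rfl fun k _ => by simp
  · intro j _ hj
    exact Finset.sum_eq_zero fun k _ => by simp [hj]
  · intro h
    exact absurd (Finset.mem_univ i) h

end BezoutAux

open BezoutAux

theorem Bezout (_h1 : S_PDBasic) (h2 : S_OrdBasic) (h3 : S_BzJets) (h4 : S_BzLocal)
    (h5 : S_BzGlobal) : S_Bezout := by
  intro K _ N q hq d₁ μ₁ d₂ μ₂ hμ₁ hμ₂ P R hP hR hrel α β A hPo hRo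
  by_contra hcon
  push Not at hcon
  have hloc : ∀ i, ∃ f : Fin (α i * β i) → MvPolynomial (Fin 2) K,
      ∀ c : Fin (α i * β i) → K,
        (∃ a b : MvPolynomial (Fin 2) K,
          (∑ k, C (c k) * f k) - a * (P - A i * R) - b * R ∈
            OrdGE (q i) ((α i : ℤ) + β i - 1)) → c = 0 :=
    fun i => h4 K (q i) (α i) (β i) (P - A i * R) R (hPo i) (hRo i)
  choose f hf using hloc
  obtain ⟨D₀, hD₀⟩ := h3 K N q hq (∑ i, (α i + β i))
  obtain ⟨D₁, hD₁⟩ := h5 K d₁ μ₁ d₂ μ₂ hμ₁ hμ₂ P R hP hR hrel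
  have hjet := hD₀ (D₀ + D₁ + D₁) (D₀ + D₁) (by omega) (by omega)
  have hF : ∀ s : (Σ i : Fin N, Fin (α i * β i)), ∃ F ∈ PD K ((D₀ + D₁ + D₁ : ℕ) : ℤ)
      ((D₀ + D₁ : ℕ) : ℤ), ∀ j, F - (if s.1 = j then f s.1 s.2 else 0) ∈
        OrdGE (q j) ((∑ i, (α i + β i) : ℕ) : ℤ) :=
    fun s => hjet (fun j => if s.1 = j then f s.1 s.2 else 0)
  choose F hFm hFj using hF
  obtain ⟨c, hc0, a, b, hab⟩ := hD₁ (D₀ + D₁ + D₁) (D₀ + D₁) (by omega) (by omega)
    (∑ i, α i * β i) (fun k => F (finSigmaFinEquiv.symm k))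
    (fun k => hFm _) (by push_cast; exact hcon)
  apply hc0
  have hsum : ∑ s : (Σ i : Fin N, Fin (α i * β i)), C (c (finSigmaFinEquiv s)) * F s =
      a * P + b * R := by
    rw [← hab, ← Equiv.sum_comp (finSigmaFinEquiv (n := fun i => α i * β i))]
    exact Finset.sum_congr rfl fun s _ => by rw [Equiv.symm_apply_apply]
  have hz : ∀ i, (fun k => c (finSigmaFinEquiv (⟨i, k⟩ : Σ i : Fin N, Fin (α i * β i)))) = 0 := by
    intro i
    refine hf i _ ⟨a, b + a * A i, ?_⟩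
    have e1 : (∑ k, C (c (finSigmaFinEquiv (⟨i, k⟩ : Σ i : Fin N, Fin (α i * β i)))) * f i k) -
        a * (P - A i * R) - (b + a * A i) * R =
        -∑ s : (Σ i : Fin N, Fin (α i * β i)), C (c (finSigmaFinEquiv s)) *
          (F s - (if s.1 = i then f s.1 s.2 else 0)) := by
      rw [← sum_block (fun s => c (finSigmaFinEquiv s)) f i]
      simp only [mul_sub, Finset.sum_sub_distrib]
      rw [hsum]
      ring
    rw [e1]
    refine Submodule.neg_mem _ (Submodule.sum_mem _ fun s _ => ?_)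
    rw [← MvPolynomial.smul_eq_C_mul]
    refine Submodule.smul_mem _ _ ?_
    refine (h2 K (q i)).2.1 _ _ ?_ (hFj s i)
    have hle : α i + β i ≤ ∑ i, (α i + β i) :=
      Finset.single_le_sum (f := fun i => α i + β i) (fun _ _ => Nat.zero_le _)
        (Finset.mem_univ i)
    have : ((α i + β i : ℕ) : ℤ) ≤ ((∑ i, (α i + β i) : ℕ) : ℤ) := by exact_mod_cast hle
    push_cast at this ⊢
    linarith
  funext k
  have := congrFun (hz (finSigmaFinEquiv.symm k).1) (finSigmaFinEquiv.symm k).2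
  simpa using this

end Pool.Agent.MP5769ea
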