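import Pool.Agent.Lib.MP_5769ea_ag.Spec1

/-! # MP_5769ea_ag, BzGlobal : the global count in Bezout's theorem -/

open MvPolynomial

namespace Pool.Agent.MP5769ea

namespace BzGlobalAux

/-- the bound is monotone in the degrees -/
theorem bound_mono {a m b n a' m' b' n' : ℤ} (ha : a' ≤ a) (hm : m' ≤ m) (hb : b' ≤ b)
    (hn : n' ≤ n) (h1 : 0 ≤ m') (h2 : 0 ≤ n') (h3 : n' ≤ b') (h4 : m ≤ a) (h5 : m' ≤ a')
    (h6 : n ≤ b) :
    a' * n' + m' * b' - m' * n' ≤ a * n + m * b - m * n := by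
  have e1 : a' * n' ≤ a * n' := mul_le_mul_of_nonneg_right ha h2
  have e2 : m' * (b' - n') ≤ m * (b' - n') := mul_le_mul_of_nonneg_right hm (by linarith)
  have e3 : m * b' ≤ m * b := mul_le_mul_of_nonneg_left hb (by linarith)
  have e4 : (a - m) * n' ≤ (a - m) * n := mul_le_mul_of_nonneg_left hn (by linarith)
  nlinarith

/-- the map `(c, a, b) ↦ Σ c_k f_k - a P - b R` -/
noncomputable def Psi {K : Type} [Field K] {n : ℕ} (f : Fin n → MvPolynomial (Fin 2) K)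
    (P R : MvPolynomial (Fin 2) K) (A B : Submodule K (MvPolynomial (Fin 2) K)) :
    ((Fin n → K) × (A × B)) →ₗ[K] MvPolynomial (Fin 2) K where
  toFun z := (∑ k, C (z.1 k) * f k) - z.2.1.1 * P - z.2.2.1 * R
  map_add' z w := by
    simp only [Prod.fst_add, Prod.snd_add, Pi.add_apply, C_add, add_mul, Finset.sum_add_distrib,
      Submodule.coe_add]
    ring
  map_smul' c z := by
    simp only [Prod.smul_fst, Prod.smul_snd, Pi.smul_apply, smul_eq_mul, C_mul,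
      SetLike.val_smul, RingHom.id_apply, smul_sub, smul_mul_assoc, Finset.smul_sum]
    congr 2
    refine Finset.sum_congr rfl fun k _ => ?_
    rw [MvPolynomial.smul_eq_C_mul, mul_assoc]

/-- the map `e ↦ (0, e R, - e P)` -/
noncomputable def Theta {K : Type} [Field K] {n : ℕ}
    (P R : MvPolynomial (Fin 2) K) (A B E : Submodule K (MvPolynomial (Fin 2) K))
    (hA : ∀ e ∈ E, e * R ∈ A) (hB : ∀ e ∈ E, e * P ∈ B) :
    E →ₗ[K] ((Fin n → K) × (A × B)) where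
  toFun e := (0, (⟨e.1 * R, hA e.1 e.2⟩, ⟨-(e.1 * P), Submodule.neg_mem _ (hB e.1 e.2)⟩))
  map_add' z w := by
    ext <;> simp [add_mul]
    ring
  map_smul' c z := by
    ext <;> simp

/-- counting dimensions -/
theorem exists_rel {K : Type} [Field K] {n : ℕ} (f : Fin n → MvPolynomial (Fin 2) K)
    (P R : MvPolynomial (Fin 2) K) (A B E W : Submodule K (MvPolynomial (Fin 2) K))
    [FiniteDimensional K A] [FiniteDimensional K B] [FiniteDimensional K E]
    [FiniteDimensional K W] (hrel : IsRelPrime P R) (hR : R ≠ 0)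
    (hf : ∀ k, f k ∈ W) (hAW : ∀ a ∈ A, a * P ∈ W) (hBW : ∀ b ∈ B, b * R ∈ W)
    (hA : ∀ e ∈ E, e * R ∈ A) (hB : ∀ e ∈ E, e * P ∈ B) (hE : ∀ e, e * R ∈ A → e ∈ E)
    (hn : Module.finrank K W + Module.finrank K E <
      n + (Module.finrank K A + Module.finrank K B)) :
    ∃ c : Fin n → K, c ≠ 0 ∧ ∃ a b : MvPolynomial (Fin 2) K,
      ∑ k, C (c k) * f k = a * P + b * R := by
  by_contra hcon
  have hc : ∀ z ∈ LinearMap.ker (Psi f P R A B), z.1 = 0 := by
    intro z hz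
    by_contra h0
    refine hcon ⟨z.1, h0, z.2.1.1, z.2.2.1, ?_⟩
    rw [LinearMap.mem_ker] at hz
    change (∑ k, C (z.1 k) * f k) - z.2.1.1 * P - z.2.2.1 * R = 0 at hz
    rw [sub_sub, sub_eq_zero] at hz
    exact hz
  have hker : LinearMap.ker (Psi f P R A B) ≤ LinearMap.range (Theta (n := n) P R A B E hA hB) := by
    intro z hz
    have h0 := hc z hz
    rw [LinearMap.mem_ker] at hz
    change (∑ k, C (z.1 k) * f k) - z.2.1.1 * P - z.2.2.1 * R = 0 at hz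
    rw [h0] at hz
    simp only [Pi.zero_apply, C_0, zero_mul, Finset.sum_const_zero, zero_sub] at hz
    have hz' : z.2.1.1 * P = -(z.2.2.1 * R) := by
      linear_combination -hz
    have hdvd : R ∣ z.2.1.1 * P := by
      rw [hz']
      exact (Dvd.intro_left _ rfl).neg_right
    have hdvd2 : R ∣ z.2.1.1 := hrel.symm.dvd_of_dvd_mul_right hdvd
    obtain ⟨e, he⟩ := hdvd2
    have heA : e * R ∈ A := by
      rw [mul_comm, ← he]
      exact z.2.1.2
    have hb : z.2.2.1 = -(e * P) := by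
      have h3 : R * (z.2.2.1 + e * P) = 0 := by
        rw [he] at hz'
        linear_combination hz'
      rcases mul_eq_zero.1 h3 with h4 | h4
      · exact absurd h4 hR
      · exact eq_neg_of_add_eq_zero_left h4
    refine ⟨⟨e, hE e heA⟩, ?_⟩
    refine Prod.ext (by rw [h0]; rfl) (Prod.ext (Subtype.ext ?_) (Subtype.ext ?_))
    · change e * R = z.2.1.1
      rw [he, mul_comm]
    · change -(e * P) = z.2.2.1
      exact hb.symm
  have h1 : Module.finrank K (LinearMap.ker (Psi f P R A B)) ≤ Module.finrank K E :=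
    le_trans (Submodule.finrank_mono hker) (LinearMap.finrank_range_le _)
  have hrange : LinearMap.range (Psi f P R A B) ≤ W := by
    rintro _ ⟨z, rfl⟩
    change (∑ k, C (z.1 k) * f k) - z.2.1.1 * P - z.2.2.1 * R ∈ W
    refine Submodule.sub_mem _ (Submodule.sub_mem _ (Submodule.sum_mem _ fun k _ => ?_)
      (hAW _ z.2.1.2)) (hBW _ z.2.2.2)
    rw [← MvPolynomial.smul_eq_C_mul]
    exact Submodule.smul_mem _ _ (hf k)
  have h2 : Module.finrank K (LinearMap.range (Psi f P R A B)) ≤ Module.finrank K W :=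
    Submodule.finrank_mono hrange
  have h3 := LinearMap.finrank_range_add_finrank_ker (Psi f P R A B)
  rw [Module.finrank_prod, Module.finrank_prod, Module.finrank_fin_fun] at h3
  omega

end BzGlobalAux

open BzGlobalAux

theorem BzGlobal (h1 : S_PDBasic) (h2 : S_PDRank) : S_BzGlobal := by
  intro K _ d₁ μ₁ d₂ μ₂ hμ₁ hμ₂ P R hP hR hrel
  have hbd : (0 : ℤ) ≤ d₁ * μ₂ + μ₁ * d₂ - μ₁ * μ₂ := by
    have e1 : (μ₁ : ℤ) ≤ d₁ := by exact_mod_cast hμ₁
    have e2 : (0 : ℤ) ≤ μ₂ := by positivity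
    have e3 : (0 : ℤ) ≤ μ₁ := by positivity
    have e4 : (0 : ℤ) ≤ d₂ := by positivity
    nlinarith
  by_cases hP0 : P = 0
  · rw [hP0, isRelPrime_zero_left] at hrel
    obtain ⟨u, hu⟩ := hrel
    refine ⟨0, fun D M _ _ n f _ hn => ?_⟩
    have hn0 : 0 < n := by
      have : (0 : ℤ) < n := lt_of_le_of_lt hbd hn
      exact_mod_cast this
    refine ⟨fun _ => 1, ?_, 0, (∑ k, C 1 * f k) * (u⁻¹ : (MvPolynomial (Fin 2) K)ˣ), ?_⟩
    · intro h
      exact one_ne_zero (congrFun h ⟨0, hn0⟩)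
    · rw [← hu, zero_mul, zero_add, mul_assoc, Units.inv_mul, mul_one]
  by_cases hR0 : R = 0
  · rw [hR0, isRelPrime_zero_right] at hrel
    obtain ⟨u, hu⟩ := hrel
    refine ⟨0, fun D M _ _ n f _ hn => ?_⟩
    have hn0 : 0 < n := by
      have : (0 : ℤ) < n := lt_of_le_of_lt hbd hn
      exact_mod_cast this
    refine ⟨fun _ => 1, ?_, (∑ k, C 1 * f k) * (u⁻¹ : (MvPolynomial (Fin 2) K)ˣ), 0, ?_⟩
    · intro h
      exact one_ne_zero (congrFun h ⟨0, hn0⟩)
    · rw [← hu, zero_mul, add_zero, mul_assoc, Units.inv_mul, mul_one]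
  obtain ⟨hb1, hb2, hb3⟩ := h1 K
  obtain ⟨hr1, _, hr3, _⟩ := h2 K
  obtain ⟨a1, ha1⟩ : ∃ a1, a1 = P.totalDegree := ⟨_, rfl⟩
  obtain ⟨m1, hm1⟩ : ∃ m1, m1 = P.degreeOf 1 := ⟨_, rfl⟩
  obtain ⟨a2, ha2⟩ : ∃ a2, a2 = R.totalDegree := ⟨_, rfl⟩
  obtain ⟨m2, hm2⟩ : ∃ m2, m2 = R.degreeOf 1 := ⟨_, rfl⟩
  have hPd := (hb1 P d₁ μ₁ hP0).1 hP
  have hRd := (hb1 R d₂ μ₂ hR0).1 hR
  have hPm : m1 ≤ a1 := by rw [hm1, ha1]; exact degreeOf_le_totalDegree P 1
  have hRm : m2 ≤ a2 := by rw [hm2, ha2]; exact degreeOf_le_totalDegree R 1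
  have hP' : P ∈ PD K a1 m1 := (hb1 P a1 m1 hP0).2 ⟨by rw [ha1], by rw [hm1]⟩
  have hR' : R ∈ PD K a2 m2 := (hb1 R a2 m2 hR0).2 ⟨by rw [ha2], by rw [hm2]⟩
  rw [← ha1, ← hm1] at hPd
  rw [← ha2, ← hm2] at hRd
  have hle : (a1 * m2 + m1 * a2 - m1 * m2 : ℤ) ≤ d₁ * μ₂ + μ₁ * d₂ - μ₁ * μ₂ :=
    bound_mono hPd.1 hPd.2 hRd.1 hRd.2 (by positivity) (by positivity) (by exact_mod_cast hRm)
      (by exact_mod_cast hμ₁) (by exact_mod_cast hPm) (by exact_mod_cast hμ₂)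
  refine ⟨a1 + a2, fun D M hM hD n f hf hn => ?_⟩
  obtain ⟨x, hx⟩ : ∃ x : ℕ, D = x + a1 + a2 := ⟨D - a1 - a2, by omega⟩
  obtain ⟨z, hz⟩ : ∃ z : ℕ, M = z + m1 + m2 := ⟨M - m1 - m2, by omega⟩
  have hzx : z ≤ x := by omega
  have fW : FiniteDimensional K (PD K D M) := hr1 _ _
  have fA : FiniteDimensional K (PD K ((x + a2 : ℕ) : ℤ) ((z + m2 : ℕ) : ℤ)) := hr1 _ _
  have fB : FiniteDimensional K (PD K ((x + a1 : ℕ) : ℤ) ((z + m1 : ℕ) : ℤ)) := hr1 _ _
  have fE : FiniteDimensional K (PD K x z) := hr1 _ _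
  have rW := hr3 D M (by omega)
  have rA := hr3 (x + a2) (z + m2) (by omega)
  have rB := hr3 (x + a1) (z + m1) (by omega)
  have rE := hr3 x z hzx
  refine exists_rel f P R (PD K ((x + a2 : ℕ) : ℤ) ((z + m2 : ℕ) : ℤ))
    (PD K ((x + a1 : ℕ) : ℤ) ((z + m1 : ℕ) : ℤ)) (PD K x z) (PD K D M) hrel hR0 hf ?_ ?_ ?_ ?_ ?_ ?_
  · intro a ha
    have := hb2 a P _ _ _ _ ha hP'
    have e1 : ((x + a2 : ℕ) : ℤ) + a1 = D := by rw [hx]; push_cast; ring
    have e2 : ((z + m2 : ℕ) : ℤ) + m1 = M := by rw [hz]; push_cast; ring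
    rwa [e1, e2] at this
  · intro b hb
    have := hb2 b R _ _ _ _ hb hR'
    have e1 : ((x + a1 : ℕ) : ℤ) + a2 = D := by rw [hx]; push_cast; ring
    have e2 : ((z + m1 : ℕ) : ℤ) + m2 = M := by rw [hz]; push_cast; ring
    rwa [e1, e2] at this
  · intro e he
    have := hb2 e R _ _ _ _ he hR'
    have e1 : ((x + a2 : ℕ) : ℤ) = (x : ℤ) + a2 := by push_cast; ring
    have e2 : ((z + m2 : ℕ) : ℤ) = (z : ℤ) + m2 := by push_cast; ring
    rw [e1, e2]
    exact this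
  · intro e he
    have := hb2 e P _ _ _ _ he hP'
    have e1 : ((x + a1 : ℕ) : ℤ) = (x : ℤ) + a1 := by push_cast; ring
    have e2 : ((z + m1 : ℕ) : ℤ) = (z : ℤ) + m1 := by push_cast; ring
    rw [e1, e2]
    exact this
  · intro e he
    by_cases he0 : e = 0
    · rw [he0]; exact Submodule.zero_mem _
    · have h3 := (hb1 (e * R) _ _ (mul_ne_zero he0 hR0)).1 he
      obtain ⟨h4, h5⟩ := hb3 e R he0 hR0
      rw [h4, h5, ← ha2, ← hm2] at h3
      refine (hb1 e _ _ he0).2 ⟨?_, ?_⟩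
      · have := h3.1
        push_cast at this ⊢
        linarith
      · have := h3.2
        push_cast at this ⊢
        linarith
  · have hn' : (a1 * m2 + m1 * a2 - m1 * m2 : ℤ) < n := lt_of_le_of_lt hle hn
    have key : (Module.finrank K (PD K D M) : ℤ) + Module.finrank K (PD K x z) <
        n + (Module.finrank K (PD K ((x + a2 : ℕ) : ℤ) ((z + m2 : ℕ) : ℤ)) +
          Module.finrank K (PD K ((x + a1 : ℕ) : ℤ) ((z + m1 : ℕ) : ℤ))) := by
      have hD' : (D : ℤ) = x + a1 + a2 := by rw [hx]; push_cast; ring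
      have hM' : (M : ℤ) = z + m1 + m2 := by rw [hz]; push_cast; ring
      rw [hD', hM'] at rW
      rw [hD', hM']
      push_cast at rA rB rE ⊢
      nlinarith [rW, rA, rB, rE, hn']
    exact_mod_cast key

end Pool.Agent.MP5769ea
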