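import Pool.Agent.Lib.MP_5769ea_ag.Spec1

/-!
# MP_5769ea_ag: BzJets, polynomials of large bidegree interpolate jets at distinct points
-/

open MvPolynomial

namespace Pool.Agent.MP5769ea

namespace BzJetsAux

variable {K : Type} [Field K]

theorem degree_two (x : Fin 2 →₀ ℕ) : x.degree = x 0 + x 1 := by
  rw [Finsupp.degree_eq_sum, Fin.sum_univ_two]

theorem mem_OrdGE_nat (q : Fin 2 → K) (n : ℕ) (F : MvPolynomial (Fin 2) K) :
    F ∈ OrdGE q (n : ℤ) ↔ shift q F ∈ idealOfVars (Fin 2) K ^ n := by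
  unfold OrdGE
  rw [Submodule.mem_comap, mem_restrictSupport_iff, mem_pow_idealOfVars_iff]
  constructor
  · intro h x hx
    have h1 := h (Finset.mem_coe.mpr hx)
    have h2 : (n : ℤ) ≤ ((x 0 + x 1 : ℕ) : ℤ) := h1
    rw [degree_two]
    exact_mod_cast h2
  · intro h x hx
    have h1 := h x (Finset.mem_coe.mp hx)
    rw [degree_two] at h1
    change (n : ℤ) ≤ ((x 0 + x 1 : ℕ) : ℤ)
    exact_mod_cast h1

/-- `OrdGE q n` as an ideal -/
noncomputable def J (q : Fin 2 → K) (n : ℕ) : Ideal (MvPolynomial (Fin 2) K) :=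
  Ideal.comap (shift q) (idealOfVars (Fin 2) K ^ n)

theorem mem_J (q : Fin 2 → K) (n : ℕ) (F : MvPolynomial (Fin 2) K) :
    F ∈ J q n ↔ F ∈ OrdGE q (n : ℤ) := by
  rw [mem_OrdGE_nat]; exact Iff.rfl

theorem constantCoeff_shift (q : Fin 2 → K) (F : MvPolynomial (Fin 2) K) :
    constantCoeff (shift q F) = eval q F := by
  have h : (constantCoeff : MvPolynomial (Fin 2) K →+* K).comp (shift q).toRingHom = eval q := by
    apply MvPolynomial.ringHom_ext
    · intro r; simp
    · intro i; simp [shift]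
  have := congrArg (fun f : MvPolynomial (Fin 2) K →+* K => f F) h
  simpa using this

theorem pow_mem_J (q : Fin 2 → K) (n : ℕ) (F : MvPolynomial (Fin 2) K) (h : eval q F = 0) :
    F ^ n ∈ J q n := by
  unfold J
  rw [Ideal.mem_comap, map_pow]
  apply Ideal.pow_mem_pow
  have h1 : shift q F ∈ idealOfVars (Fin 2) K ^ 1 := by
    rw [mem_pow_idealOfVars_iff']
    intro x hx
    have hx0 : x = 0 := by
      have : x.degree = 0 := by omega
      exact (Finsupp.degree_eq_zero_iff x).mp this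
    subst hx0
    have := constantCoeff_shift q F
    rw [h] at this
    exact this
  simpa using h1

/-- separating linear polynomials -/
theorem exists_sep {p q : Fin 2 → K} (h : p ≠ q) :
    ∃ l : MvPolynomial (Fin 2) K, eval p l = 1 ∧ eval q l = 0 := by
  obtain ⟨k, hk⟩ := Function.ne_iff.mp h
  have hk' : p k - q k ≠ 0 := sub_ne_zero.mpr hk
  refine ⟨C (p k - q k)⁻¹ * (X k - C (q k)), ?_, ?_⟩
  · simp [inv_mul_cancel₀ hk']
  · simp

theorem exists_idem {N : ℕ} (q : Fin N → Fin 2 → K) (hq : Function.Injective q) (n : ℕ)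
    (i : Fin N) :
    ∃ e : MvPolynomial (Fin 2) K, e - 1 ∈ J (q i) n ∧ ∀ j, j ≠ i → e ∈ J (q j) n := by
  classical
  have hsep : ∀ j : Fin N, ∃ l : MvPolynomial (Fin 2) K,
      eval (q i) l = 1 ∧ (j ≠ i → eval (q j) l = 0) := by
    intro j
    by_cases hj : j = i
    · exact ⟨1, by simp, fun h => absurd hj h⟩
    · obtain ⟨l, h1, h2⟩ := exists_sep (fun h => hj (hq h.symm) : q i ≠ q j)
      exact ⟨l, h1, fun _ => h2⟩
  choose l hl1 hl2 using hsep
  let u : MvPolynomial (Fin 2) K := ∏ j, l j ^ n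
  have hu1 : eval (q i) u = 1 := by
    simp only [u, map_prod, map_pow, hl1, one_pow, Finset.prod_const_one]
  have hu2 : ∀ j, j ≠ i → u ∈ J (q j) n := by
    intro j hj
    have h1 : l j ^ n ∈ J (q j) n := pow_mem_J _ _ _ (hl2 j hj)
    have h2 : l j ^ n ∣ u := Finset.dvd_prod_of_mem (fun j => l j ^ n) (Finset.mem_univ j)
    exact Ideal.mem_of_dvd _ h2 h1
  refine ⟨1 - (1 - u) ^ n, ?_, ?_⟩
  · have h1 : (1 - u) ^ n ∈ J (q i) n := pow_mem_J _ _ _ (by simp [hu1])
    have h2 : 1 - (1 - u) ^ n - 1 = -(1 - u) ^ n := by ring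
    rw [h2]
    exact neg_mem h1
  · intro j hj
    have h1 : u ∣ 1 - (1 - u) ^ n := by
      have h2 : (1 : MvPolynomial (Fin 2) K) - (1 - u) ∣ 1 ^ n - (1 - u) ^ n :=
        sub_dvd_pow_sub_pow _ _ _
      simpa using h2
    exact Ideal.mem_of_dvd _ h1 (hu2 j hj)

/-- the exponents `(a, b)` with `a, b < n` -/
noncomputable def SS (n : ℕ) : Finset (Fin 2 →₀ ℕ) :=
  (Finset.range n ×ˢ Finset.range n).image fun ab => Finsupp.equivFunOnFinite.symm ![ab.1, ab.2]

theorem mem_SS (n : ℕ) (x : Fin 2 →₀ ℕ) (h : x.degree < n) : x ∈ SS n := by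
  rw [degree_two] at h
  unfold SS
  rw [Finset.mem_image]
  refine ⟨(x 0, x 1), ?_, ?_⟩
  · simp only [Finset.mem_product, Finset.mem_range]
    omega
  · ext k
    fin_cases k <;> simp

theorem trunc_sub_mem (n : ℕ) (h : MvPolynomial (Fin 2) K) :
    (∑ s ∈ SS n, coeff s h • monomial s (1 : K)) - h ∈ idealOfVars (Fin 2) K ^ n := by
  classical
  rw [mem_pow_idealOfVars_iff']
  intro x hx
  have hxS := mem_SS n x hx
  rw [coeff_sub, coeff_sum]
  have h1 : ∀ s ∈ SS n, coeff x (coeff s h • monomial s (1 : K)) =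
      if s = x then coeff s h else 0 := by
    intro s _
    rw [coeff_smul, coeff_monomial]
    by_cases hs : s = x <;> simp [hs]
  rw [Finset.sum_congr rfl h1, Finset.sum_ite_eq' (SS n) x]
  simp [hxS]

theorem shift_neg_shift (q : Fin 2 → K) (F : MvPolynomial (Fin 2) K) :
    shift q (shift (-q) F) = F := by
  have h : (shift q).comp (shift (-q)) = AlgHom.id K (MvPolynomial (Fin 2) K) := by
    apply MvPolynomial.algHom_ext
    intro i
    simp [shift]
  have := congrArg (fun f : MvPolynomial (Fin 2) K →ₐ[K] MvPolynomial (Fin 2) K => f F) h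
  simpa using this

theorem mem_PD_of_totalDegree (F : MvPolynomial (Fin 2) K) (D M : ℕ) (h1 : F.totalDegree ≤ D)
    (h2 : F.totalDegree ≤ M) : F ∈ PD K D M := by
  unfold PD
  rw [mem_restrictSupport_iff]
  intro s hs
  have h3 := le_totalDegree (Finset.mem_coe.mp hs)
  have h4 : (s.sum fun _ e => e) = s 0 + s 1 := by
    rw [Finsupp.sum_fintype _ _ (fun _ => rfl), Fin.sum_univ_two]
  rw [h4] at h3
  refine ⟨?_, ?_⟩
  · exact_mod_cast h3.trans h1
  · have : s 1 ≤ M := by omega
    exact_mod_cast this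

end BzJetsAux

open BzJetsAux

theorem BzJets : S_BzJets := by
  classical
  intro K _ N q hq n
  choose e he1 he2 using exists_idem q hq n
  let b : Fin N → (Fin 2 →₀ ℕ) → MvPolynomial (Fin 2) K :=
    fun i s => e i * shift (-(q i)) (monomial s (1 : K))
  let D₀ : ℕ := ∑ i, ∑ s ∈ SS n, (b i s).totalDegree
  have hD₀ : ∀ i, ∀ s ∈ SS n, (b i s).totalDegree ≤ D₀ := by
    intro i s hs
    calc (b i s).totalDegree ≤ ∑ s ∈ SS n, (b i s).totalDegree :=
          Finset.single_le_sum (f := fun s => (b i s).totalDegree) (fun _ _ => Nat.zero_le _) hs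
      _ ≤ D₀ := Finset.single_le_sum (f := fun i => ∑ s ∈ SS n, (b i s).totalDegree)
          (fun _ _ => Nat.zero_le _) (Finset.mem_univ i)
  refine ⟨D₀, fun D M hD hM f => ?_⟩
  refine ⟨∑ i, ∑ s ∈ SS n, coeff s (shift (q i) (f i)) • b i s, ?_, ?_⟩
  · refine Submodule.sum_mem _ fun i _ => Submodule.sum_mem _ fun s hs =>
      Submodule.smul_mem _ _ ?_
    exact mem_PD_of_totalDegree _ _ _ ((hD₀ i s hs).trans hD) ((hD₀ i s hs).trans hM)
  · intro i
    rw [← mem_J]
    -- the truncated Taylor polynomials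
    let T : Fin N → MvPolynomial (Fin 2) K := fun j =>
      shift (-(q j)) (∑ s ∈ SS n, coeff s (shift (q j) (f j)) • monomial s (1 : K))
    have hT : ∀ j, T j - f j ∈ J (q j) n := by
      intro j
      unfold J
      rw [Ideal.mem_comap, map_sub, shift_neg_shift]
      exact trunc_sub_mem n _
    have hsum : ∀ j, ∑ s ∈ SS n, coeff s (shift (q j) (f j)) • b j s = e j * T j := by
      intro j
      simp only [T, b, map_sum, map_smul, Finset.mul_sum, mul_smul_comm]
    simp only [hsum]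
    rw [← Finset.add_sum_erase _ _ (Finset.mem_univ i)]
    have h1 : e i * T i + ∑ j ∈ Finset.univ.erase i, e j * T j - f i =
        (e i - 1) * T i + (T i - f i) + ∑ j ∈ Finset.univ.erase i, e j * T j := by ring
    rw [h1]
    refine add_mem (add_mem (Ideal.mul_mem_right _ _ (he1 i)) (hT i)) ?_
    refine Ideal.sum_mem _ fun j hj => ?_
    have hji : i ≠ j := fun h => (Finset.mem_erase.mp hj).1 h.symm
    exact Ideal.mul_mem_right _ _ (he2 j i hji)

end Pool.Agent.MP5769ea
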