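import Pool.Agent.Lib.MP_5769ea_ag.Spec1

/-!
# MP_5769ea_ag, BzLocal: the local length of two curves is at least the product of the orders
-/

open MvPolynomial

namespace Pool.Agent.MP5769ea

namespace BzLocalAux

variable {K : Type} [Field K]

theorem mem_ord {q : Fin 2 → K} {g : ℤ} {F : MvPolynomial (Fin 2) K} :
    F ∈ OrdGE q g ↔ ∀ s : Fin 2 →₀ ℕ, ((s 0 + s 1 : ℕ) : ℤ) < g → coeff s (shift q F) = 0 := by
  rw [OrdGE, Submodule.mem_comap, mem_restrictSupport_iff]
  constructor
  · intro h s hs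
    by_contra hne
    have h1 := h (Finset.mem_coe.mpr (mem_support_iff.mpr hne))
    simp only [Set.mem_ofPred_eq] at h1
    omega
  · intro h s hs
    simp only [Set.mem_ofPred_eq]
    by_contra hlt
    exact (mem_support_iff.mp (Finset.mem_coe.mp hs)) (h s (by omega))

theorem mul_mem_ord {q : Fin 2 → K} {a b : ℤ} {F G : MvPolynomial (Fin 2) K}
    (hF : F ∈ OrdGE q a) (hG : G ∈ OrdGE q b) : F * G ∈ OrdGE q (a + b) := by
  rw [mem_ord] at hF hG ⊢
  intro s hs
  rw [map_mul, coeff_mul]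
  apply Finset.sum_eq_zero
  rintro ⟨u, v⟩ huv
  rw [Finset.HasAntidiagonal.mem_antidiagonal] at huv
  have h0 : u 0 + v 0 = s 0 := by rw [← huv]; rfl
  have h1 : u 1 + v 1 = s 1 := by rw [← huv]; rfl
  by_cases hu : ((u 0 + u 1 : ℕ) : ℤ) < a
  · simp only [hF u hu, zero_mul]
  · simp only [hG v (by push_cast at *; omega), mul_zero]

/-- the index set of the coefficients of degree less than `n` -/
abbrev Idx (n : ℕ) : Type := Σ k : Fin n, Fin ((k : ℕ) + 1)

/-- the exponent of an index -/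
noncomputable def ex {n : ℕ} (p : Idx n) : Fin 2 →₀ ℕ :=
  Finsupp.equivFunOnFinite.symm ![(p.2 : ℕ), (p.1 : ℕ) - (p.2 : ℕ)]

theorem ex_zero {n : ℕ} (p : Idx n) : ex p 0 = (p.2 : ℕ) := rfl

theorem ex_one {n : ℕ} (p : Idx n) : ex p 1 = (p.1 : ℕ) - (p.2 : ℕ) := rfl

theorem ex_inj {n : ℕ} : Function.Injective (ex (n := n)) := by
  rintro ⟨⟨k, hk⟩, ⟨i, hi⟩⟩ ⟨⟨l, hl⟩, ⟨j, hj⟩⟩ h
  have h0 : i = j := by
    have := DFunLike.congr_fun h 0
    simpa [ex_zero] using this
  have h1 : k - i = l - j := by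
    have := DFunLike.congr_fun h 1
    simpa [ex_one] using this
  simp only at hi hj
  have h2 : k = l := by omega
  subst h2
  subst h0
  rfl

theorem ex_surj {n : ℕ} (s : Fin 2 →₀ ℕ) (hs : s 0 + s 1 < n) : ∃ p : Idx n, ex p = s := by
  refine ⟨⟨⟨s 0 + s 1, hs⟩, ⟨s 0, by simp only; omega⟩⟩, ?_⟩
  ext i
  fin_cases i
  · rfl
  · change ex _ 1 = s 1
    rw [ex_one]
    simp only
    omega

theorem card_idx (n : ℕ) : 2 * Fintype.card (Idx n) = n * (n + 1) := by
  rw [Fintype.card_sigma]
  simp only [Fintype.card_fin]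
  rw [Fin.sum_univ_eq_sum_range (fun k => k + 1) n]
  have h := Finset.sum_range_id_mul_two (n + 1)
  rw [Finset.sum_range_succ' (fun i => i) n] at h
  simp only [add_zero, Nat.add_sub_cancel] at h
  rw [mul_comm 2, h, mul_comm]

/-- the jet of order `n` of a polynomial at `q` -/
noncomputable def jet (q : Fin 2 → K) (n : ℕ) : MvPolynomial (Fin 2) K →ₗ[K] (Idx n → K) where
  toFun F := fun p => coeff (ex p) (shift q F)
  map_add' F G := by
    funext p
    simp
  map_smul' c F := by
    funext p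
    simp

theorem jet_apply (q : Fin 2 → K) (n : ℕ) (F : MvPolynomial (Fin 2) K) (p : Idx n) :
    jet q n F p = coeff (ex p) (shift q F) := rfl

theorem jet_eq_zero {q : Fin 2 → K} {n : ℕ} {F : MvPolynomial (Fin 2) K} :
    jet q n F = 0 ↔ F ∈ OrdGE q n := by
  rw [mem_ord]
  constructor
  · intro h s hs
    obtain ⟨p, hp⟩ := ex_surj (n := n) s (by exact_mod_cast hs)
    rw [← hp, ← jet_apply, h]
    rfl
  · intro h
    funext p
    rw [jet_apply]
    refine h _ ?_
    rw [ex_zero, ex_one]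
    have h1 := p.1.2
    have h2 := p.2.2
    push_cast
    omega

theorem shift_shift (q : Fin 2 → K) (F : MvPolynomial (Fin 2) K) :
    shift q (shift (-q) F) = F := by
  have h : ((shift q).comp (shift (-q))) = AlgHom.id K (MvPolynomial (Fin 2) K) := by
    apply MvPolynomial.algHom_ext
    intro i
    simp [shift]
  exact DFunLike.congr_fun h F

theorem jet_surj (q : Fin 2 → K) (n : ℕ) : Function.Surjective (jet q n) := by
  intro v
  refine ⟨shift (-q) (∑ p : Idx n, monomial (ex p) (v p)), ?_⟩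
  funext p
  rw [jet_apply, shift_shift, coeff_sum, Finset.sum_eq_single p]
  · rw [coeff_monomial, if_pos rfl]
  · intro b _ hb
    rw [coeff_monomial, if_neg]
    intro h
    exact hb (ex_inj h)
  · intro h
    exact absurd (Finset.mem_univ p) h

/-- a map vanishing on the kernel of another one has smaller rank than the target of the other -/
theorem rank_le_of_ker {M N J : Type} [AddCommGroup M] [Module K M] [AddCommGroup N] [Module K N]
    [AddCommGroup J] [Module K J] [FiniteDimensional K N] (ψ : M →ₗ[K] N) (φ : M →ₗ[K] J)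
    (h : LinearMap.ker ψ ≤ LinearMap.ker φ) :
    Module.finrank K (LinearMap.range φ) ≤ Module.finrank K N := by
  have h1 : LinearMap.range φ = LinearMap.range ((LinearMap.ker ψ).liftQ φ h) := by
    rw [Submodule.range_liftQ]
  have : FiniteDimensional K (M ⧸ LinearMap.ker ψ) :=
    LinearEquiv.finiteDimensional ψ.quotKerEquivRange.symm
  rw [h1]
  calc Module.finrank K (LinearMap.range ((LinearMap.ker ψ).liftQ φ h))
      ≤ Module.finrank K (M ⧸ LinearMap.ker ψ) := LinearMap.finrank_range_le _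
    _ = Module.finrank K (LinearMap.range ψ) := ψ.quotKerEquivRange.finrank_eq
    _ ≤ Module.finrank K N := Submodule.finrank_le _

end BzLocalAux

open BzLocalAux in
theorem BzLocal : S_BzLocal := by
  intro K _ q α β P R hP hR
  by_cases hα : α = 0
  · subst hα
    refine ⟨fun _ => 0, fun c _ => ?_⟩
    funext k
    exact absurd k.2 (by simp)
  by_cases hβ : β = 0
  · subst hβ
    refine ⟨fun _ => 0, fun c _ => ?_⟩
    funext k
    exact absurd k.2 (by simp)
  obtain ⟨a, rfl⟩ : ∃ a, α = a + 1 := ⟨α - 1, by omega⟩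
  obtain ⟨b, rfl⟩ : ∃ b, β = b + 1 := ⟨β - 1, by omega⟩
  set n : ℕ := a + b + 1 with hn
  -- the map `(u, v) ↦ jet (u P + v R)`
  set φ : (MvPolynomial (Fin 2) K × MvPolynomial (Fin 2) K) →ₗ[K] (Idx n → K) :=
    (jet q n).comp ((LinearMap.mulRight K P).coprod (LinearMap.mulRight K R)) with hφ
  set ψ : (MvPolynomial (Fin 2) K × MvPolynomial (Fin 2) K) →ₗ[K] ((Idx b → K) × (Idx a → K)) :=
    (jet q b).prodMap (jet q a) with hψ
  have hφa : ∀ u v, φ (u, v) = jet q n (u * P + v * R) := by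
    intro u v
    simp [hφ]
  have hker : LinearMap.ker ψ ≤ LinearMap.ker φ := by
    rintro ⟨u, v⟩ huv
    rw [LinearMap.mem_ker] at huv ⊢
    have h1 : jet q b u = 0 ∧ jet q a v = 0 := by
      simpa [hψ, Prod.ext_iff] using huv
    rw [hφa, jet_eq_zero]
    have h2 := jet_eq_zero.mp h1.1
    have h3 := jet_eq_zero.mp h1.2
    have h4 := mul_mem_ord h2 hP
    have h5 := mul_mem_ord h3 hR
    have e1 : (b : ℤ) + ((a + 1 : ℕ) : ℤ) = ((n : ℕ) : ℤ) := by
      rw [hn]; push_cast; ring
    have e2 : (a : ℤ) + ((b + 1 : ℕ) : ℤ) = ((n : ℕ) : ℤ) := by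
      rw [hn]; push_cast; ring
    rw [e1] at h4
    rw [e2] at h5
    exact Submodule.add_mem _ h4 h5
  have hrk := rank_le_of_ker ψ φ hker
  rw [Module.finrank_prod, Module.finrank_fintype_fun_eq_card,
    Module.finrank_fintype_fun_eq_card] at hrk
  obtain ⟨Cm, hC⟩ := Submodule.exists_isCompl (LinearMap.range φ)
  have hdim := Submodule.finrank_add_eq_of_isCompl hC
  rw [Module.finrank_fintype_fun_eq_card] at hdim
  have hge : (a + 1) * (b + 1) ≤ Module.finrank K Cm := by
    have c1 := card_idx n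
    have c2 := card_idx a
    have c3 := card_idx b
    have e : n * (n + 1) = b * (b + 1) + a * (a + 1) + 2 * ((a + 1) * (b + 1)) := by
      rw [hn]; ring
    omega
  have hbas := Module.finBasis K Cm
  set g : Fin ((a + 1) * (b + 1)) → Cm := fun k => hbas (Fin.castLE hge k) with hg
  have hgli : LinearIndependent K g :=
    hbas.linearIndependent.comp _ (Fin.castLE_injective hge)
  choose f hf using fun k => jet_surj q n ((g k : Cm) : Idx n → K)
  refine ⟨f, ?_⟩
  rintro c ⟨u, v, huv⟩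
  have e0 : (((a + 1 : ℕ) : ℤ) + ((b + 1 : ℕ) : ℤ) - 1) = ((n : ℕ) : ℤ) := by
    rw [hn]; push_cast; ring
  rw [e0, ← jet_eq_zero] at huv
  have h1 : ∑ k, C (c k) * f k - u * P - v * R = ∑ k, c k • f k - (u * P + v * R) := by
    rw [sub_sub]
    congr 1
    exact Finset.sum_congr rfl fun k _ => (MvPolynomial.smul_eq_C_mul _ _).symm
  rw [h1, map_sub, map_sum, ← hφa, sub_eq_zero] at huv
  have h2 : ∑ k, c k • ((g k : Cm) : Idx n → K) = φ (u, v) := by
    rw [← huv]
    exact Finset.sum_congr rfl fun k _ => by rw [map_smul, hf]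
  have h3 : ((∑ k, c k • g k : Cm) : Idx n → K) ∈ LinearMap.range φ ⊓ Cm := by
    refine ⟨?_, Subtype.prop _⟩
    refine ⟨(u, v), ?_⟩
    rw [← h2]
    simp
  rw [hC.inf_eq_bot, Submodule.mem_bot] at h3
  have h4 : ∑ k, c k • g k = 0 := by
    exact Subtype.ext h3
  funext k
  exact Fintype.linearIndependent_iff.mp hgli c h4 k

end Pool.Agent.MP5769ea
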