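import Mathlib

/-!
# MP_5769ea_ag : strong duality for cones of moving curves on `Bl_s P^n`

Definitions used in the final statement.  `P : Fin s → Fin (n+1) → ℂ` are (coordinate vectors of)
`s` points of `P^n`, `X` is the blow-up of `P^n` at these points, `N^1(X) = ℝ × (Fin s → ℝ)`
(`(d, m)` is the class `d H - Σ m_i E_i`), `N_1(X) = ℝ × (Fin s → ℝ)` (`(δ, ε)` is the class with
`H · γ = δ`, `E_i · γ = ε_i`).
-/

open MvPolynomial

namespace Pool.Agent.MP5769ea

/-- the polynomial `F` vanishes to order at least `k` at the vector `p` -/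
def MultGE {ι : Type} (F : MvPolynomial ι ℂ) (p : ι → ℂ) (k : ℤ) : Prop :=
  ∀ j : ℕ, (j : ℤ) < k → homogeneousComponent j (bind₁ (fun i => X i + C (p i)) F) = 0

/-- global sections of `O_X(d H - Σ m_i E_i)`: homogeneous polynomials of degree `d` with
multiplicity at least `m_i` at `P_i` -/
def H0 {s n : ℕ} (P : Fin s → Fin (n + 1) → ℂ) (d : ℕ) (m : Fin s → ℤ) :
    Set (MvPolynomial (Fin (n + 1)) ℂ) :=
  {F | F.IsHomogeneous d ∧ ∀ i, MultGE F (P i) (m i)}

/-- the 2 × 2 minors of the matrix with rows `w`, `p`.  They are all zero if and only if `w` is a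
multiple of `p`; the projective point with these coordinates is the class of `w` modulo `p`. -/
def wedge {N : ℕ} {K : Type} [Field K] [Algebra ℂ K] (w : Fin N → K) (p : Fin N → ℂ) :
    Fin N × Fin N → K :=
  fun jk => w jk.1 * algebraMap ℂ K (p jk.2) - w jk.2 * algebraMap ℂ K (p jk.1)

/-- the field generated over `F` by the quotients of the coordinates of `w` (the residue field of
the projective point `[w]`) -/
def ratioField (F : Type) {K ι : Type} [Field F] [Field K] [Algebra F K] (w : ι → K) :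
    IntermediateField F K :=
  IntermediateField.adjoin F {z | ∃ j k, w k ≠ 0 ∧ z = w j / w k}

/-- the closure of the projective point `[w]` has dimension at least `e` (over `ℂ`) -/
def DimGE {K ι : Type} [Field K] [Algebra ℂ K] (e : ℕ) (w : ι → K) : Prop :=
  (e : Cardinal) ≤ Algebra.trdeg ℂ (ratioField ℂ w)

/-! ### points of `X` with values in a field `K ⊇ ℂ`

A `K`-point of `X` is either a point `[w]` of `P^n` different from all the `P_i` (i.e.
`wedge w (P i) ≠ 0` for all `i`), or a point of the exceptional divisor `E_i`, i.e. a tangent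
direction at `P_i`, i.e. a vector `u` modulo `P_i` which is not a multiple of `P_i`, up to scalars.-/

/-- the section `F` of `d H - Σ m_i E_i` does not vanish at the point of `E_i` given by the
tangent direction `u` -/
def NonvanExc {s n : ℕ} (P : Fin s → Fin (n + 1) → ℂ) (m : Fin s → ℤ)
    (F : MvPolynomial (Fin (n + 1)) ℂ) {K : Type} [Field K] [Algebra ℂ K] (i : Fin s)
    (u : Fin (n + 1) → K) : Prop :=
  0 ≤ m i ∧
    aeval u (homogeneousComponent (m i).toNat (bind₁ (fun j => X j + C (P i j)) F)) ≠ 0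

/-- generators of the cone `D_k`, `e = n - k`: classes `(d, m)` of effective divisors whose stable
base locus contains no point whose closure has dimension `≥ e` (equivalently, no irreducible
component of dimension `≥ e`) -/
def goodClasses {s n : ℕ} (P : Fin s → Fin (n + 1) → ℂ) (e : ℕ) : Set (ℝ × (Fin s → ℝ)) :=
  {c | ∃ (d : ℕ) (m : Fin s → ℤ), c = ((d : ℝ), fun i => ((m i : ℤ) : ℝ)) ∧
    (∃ F ∈ H0 P d m, F ≠ 0) ∧
    ∀ (K : Type) (_ : Field K) (_ : Algebra ℂ K),
      (∀ w : Fin (n + 1) → K, (∀ i, wedge w (P i) ≠ 0) → DimGE e w →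
        ∃ l : ℕ, 0 < l ∧ ∃ F ∈ H0 P (l * d) (fun i => l * m i), aeval w F ≠ 0) ∧
      (∀ (i : Fin s) (u : Fin (n + 1) → K), wedge u (P i) ≠ 0 → DimGE e (wedge u (P i)) →
        ∃ l : ℕ, 0 < l ∧ ∃ F ∈ H0 P (l * d) (fun i => l * m i),
          NonvanExc P (fun i => l * m i) F i u)}

/-! ### curves -/

/-- `K` is a function field of one variable over `Ω` -/
def IsFF (Ω K : Type) [Field Ω] [Field K] [Algebra Ω K] : Prop :=
  ∃ t : K, Transcendental Ω t ∧ FiniteDimensional (IntermediateField.adjoin Ω {t}) K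

/-- the places of the function field `K / Ω`: normalized discrete valuations of `K`, trivial on
`Ω` (multiplicative notation; a pole of `f` is a place with `1 < v f`) -/
def Place (Ω K : Type) [Field Ω] [Field K] [Algebra Ω K] : Type :=
  {v : Valuation K (WithZero (Multiplicative ℤ)) //
    Function.Surjective v ∧ ∀ c : Ω, v (algebraMap Ω K c) ≤ 1}

/-- the logarithm of the norm `max_j v (w_j)` -/
noncomputable def nrm {K ι : Type} [Field K] [Fintype ι]
    (v : Valuation K (WithZero (Multiplicative ℤ))) (w : ι → K) : ℤ :=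
  WithZero.log (Finset.univ.sup fun j => v (w j))

/-- the degree of the map of the smooth projective curve with function field `K` to a projective
space given by the vector `w` of elements of `K`: `Σ_v max_j (- ord_v w_j)` -/
noncomputable def pdeg (Ω : Type) {K ι : Type} [Field Ω] [Field K] [Algebra Ω K] [Fintype ι]
    (w : ι → K) : ℤ :=
  ∑ᶠ v : Place Ω K, nrm v.1 w

/-- the class of the curve in `X` with generic point `[w]`, not contained in the exceptional
divisors: `H · γ = deg [w]`, `E_i · γ = deg [w] - deg [w mod P_i]` -/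
noncomputable def clOut {s n : ℕ} (P : Fin s → Fin (n + 1) → ℂ) (Ω : Type) {K : Type}
    [Field Ω] [Field K] [Algebra Ω K] [Algebra ℂ K] (w : Fin (n + 1) → K) : ℝ × (Fin s → ℝ) :=
  ((pdeg Ω w : ℝ), fun i => ((pdeg Ω w - pdeg Ω (wedge w (P i)) : ℤ) : ℝ))

/-- the class of the curve in `E_i ≅ P^{n-1}` with generic point the tangent direction `u`:
`H · γ = 0`, `E_i · γ = - deg [u mod P_i]`, `E_j · γ = 0` -/
noncomputable def clExc {s n : ℕ} (P : Fin s → Fin (n + 1) → ℂ) (Ω : Type) {K : Type}
    [Field Ω] [Field K] [Algebra Ω K] [Algebra ℂ K] (i : Fin s) (u : Fin (n + 1) → K) :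
    ℝ × (Fin s → ℝ) :=
  (0, fun j => if j = i then -((pdeg Ω (wedge u (P i)) : ℤ) : ℝ) else 0)

/-- generators of the cone `C_k`, `e = n - k`: classes of irreducible curves which move in a
family sweeping out a cycle of dimension `≥ e`.  `Ω` is the algebraic closure of the function
field of the base of the family, `K / Ω` is the function field of the generic member of the
family, and the condition `DimGE e w` says that the members of the family sweep out a subvariety
of dimension at least `e`. -/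
def movingClasses {s n : ℕ} (P : Fin s → Fin (n + 1) → ℂ) (e : ℕ) : Set (ℝ × (Fin s → ℝ)) :=
  {c | ∃ (Ω K : Type) (_ : Field Ω) (_ : Field K) (_ : Algebra ℂ Ω) (_ : Algebra Ω K)
      (_ : Algebra ℂ K) (_ : IsScalarTower ℂ Ω K), IsAlgClosed Ω ∧ IsFF Ω K ∧
      ((∃ w : Fin (n + 1) → K, (∀ i, wedge w (P i) ≠ 0) ∧ ratioField Ω w = ⊤ ∧ DimGE e w ∧
          c = clOut P Ω w) ∨
       (∃ (i : Fin s) (u : Fin (n + 1) → K), wedge u (P i) ≠ 0 ∧
          ratioField Ω (wedge u (P i)) = ⊤ ∧ DimGE e (wedge u (P i)) ∧ c = clExc P Ω i u))}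

/-! ### cones -/

/-- the intersection pairing of `γ = (δ, ε)` and `D = (d, m)`: `d δ - Σ m_i ε_i` -/
def pair {s : ℕ} (γ D : ℝ × (Fin s → ℝ)) : ℝ := γ.1 * D.1 - ∑ i, γ.2 i * D.2 i

/-- the closed convex cone `𝒟_k`  -/
def divisorCone {s n : ℕ} (P : Fin s → Fin (n + 1) → ℂ) (k : ℕ) : Set (ℝ × (Fin s → ℝ)) :=
  closure (Submodule.span NNReal (goodClasses P (n - k)) : Set (ℝ × (Fin s → ℝ)))

/-- the closed convex cone `𝒞_k` -/
def movingCone {s n : ℕ} (P : Fin s → Fin (n + 1) → ℂ) (k : ℕ) : Set (ℝ × (Fin s → ℝ)) :=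
  closure (Submodule.span NNReal (movingClasses P (n - k)) : Set (ℝ × (Fin s → ℝ)))

/-- `𝒟^∨` -/
def dualCone {s : ℕ} (D : Set (ℝ × (Fin s → ℝ))) : Set (ℝ × (Fin s → ℝ)) :=
  {γ | ∀ x ∈ D, 0 ≤ pair γ x}

/-- the final theorem: for 13 very general points of `P^9` the cone `𝒞_5` is strictly smaller
than `𝒟_5^∨` -/
def Goal : Prop :=
  ∀ P : Fin 13 → Fin (9 + 1) → ℂ,
    AlgebraicIndependent ℚ (fun ij : Fin 13 × Fin (9 + 1) => P ij.1 ij.2) →
      movingCone P 5 ⊂ dualCone (divisorCone P 5)

end Pool.Agent.MP5769ea
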