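import Pool.Agent.Lib.MP_5769ea_ag.Spec4

/-!
# MP_5769ea_ag, Descend: invariant forms in `x_0, ..., x_11` come from forms on `P^9`
-/

open MvPolynomial

namespace Pool.Agent.MP5769ea

namespace DescendAux

variable {ι κ : Type} [Fintype ι] [Fintype κ]

/-- all the monomials of the polynomial have degree at least `k` -/
def Low (k : ℕ) (H : MvPolynomial ι ℂ) : Prop := ∀ s : ι →₀ ℕ, s.degree < k → coeff s H = 0

omit [Fintype ι] in
theorem low_iff {k : ℕ} {H : MvPolynomial ι ℂ} :
    (∀ j : ℕ, (j : ℤ) < (k : ℤ) → homogeneousComponent j H = 0) ↔ Low k H := by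
  constructor
  · intro h s hs
    have h1 := h s.degree (by exact_mod_cast hs)
    have h2 := congrArg (coeff s) h1
    rwa [coeff_homogeneousComponent, if_pos rfl, coeff_zero] at h2
  · intro h j hj
    ext s
    rw [coeff_homogeneousComponent, coeff_zero]
    split_ifs with hs
    · exact h s (by rw [hs]; exact_mod_cast hj)
    · rfl

omit [Fintype ι] in
theorem low_zero (H : MvPolynomial ι ℂ) : Low 0 H := fun _ hs => absurd hs (Nat.not_lt_zero _)

omit [Fintype ι] in
theorem low_mono {a b : ℕ} (hab : a ≤ b) {H : MvPolynomial ι ℂ} (h : Low b H) : Low a H :=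
  fun s hs => h s (lt_of_lt_of_le hs hab)

omit [Fintype ι] in
theorem low_mul {a b : ℕ} {F G : MvPolynomial ι ℂ} (hF : Low a F) (hG : Low b G) :
    Low (a + b) (F * G) := by
  classical
  intro s hs
  rw [coeff_mul]
  apply Finset.sum_eq_zero
  rintro ⟨u, v⟩ huv
  rw [Finset.HasAntidiagonal.mem_antidiagonal] at huv
  have h0 : u.degree + v.degree = s.degree := by rw [← huv, map_add]
  by_cases hu : u.degree < a
  · simp only [hF u hu, zero_mul]
  · simp only [hG v (by omega), mul_zero]

omit [Fintype ι] in
theorem low_pow {a : ℕ} {F : MvPolynomial ι ℂ} (hF : Low a F) (n : ℕ) : Low (n * a) (F ^ n) := by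
  induction n with
  | zero => rw [Nat.zero_mul]; exact low_zero _
  | succ n ih =>
    rw [pow_succ, Nat.succ_mul]
    exact low_mul ih hF

omit [Fintype ι] [Fintype κ] in
theorem low_prod (S : Finset κ) (F : κ → MvPolynomial ι ℂ) (w : κ → ℕ)
    (h : ∀ l, Low (w l) (F l)) : Low (∑ l ∈ S, w l) (∏ l ∈ S, F l) := by
  classical
  induction S using Finset.induction_on with
  | empty => exact low_zero _
  | insert a S ha ih =>
    rw [Finset.sum_insert ha, Finset.prod_insert ha]
    exact low_mul (h a) ih

omit [Fintype ι] in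
/-- substitution of polynomials of given orders -/
theorem low_aeval (F : MvPolynomial κ ℂ) (g : κ → MvPolynomial ι ℂ) (w : κ → ℕ)
    (hg : ∀ l, Low (w l) (g l)) (k : ℕ) (hk : ∀ s ∈ F.support, k ≤ ∑ l, s l * w l) :
    Low k (aeval g F) := by
  intro s hs
  rw [aeval_def, eval₂_eq', coeff_sum]
  apply Finset.sum_eq_zero
  intro u hu
  rw [MvPolynomial.algebraMap_eq, coeff_C_mul,
    low_prod Finset.univ (fun l => g l ^ u l) (fun l => u l * w l)
      (fun l => low_pow (hg l) _) s (lt_of_lt_of_le hs (hk u hu)), mul_zero]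

omit [Fintype ι] in
theorem low_of_hom {F : MvPolynomial ι ℂ} {n : ℕ} (h : F.IsHomogeneous n) : Low n F :=
  fun s hs => h.coeff_eq_zero (by omega)

omit [Fintype ι] in
theorem deg_of_mem {F : MvPolynomial ι ℂ} {n : ℕ} (h : F.IsHomogeneous n) {s : ι →₀ ℕ}
    (hs : s ∈ F.support) : s.degree = n := by
  by_contra hne
  exact (mem_support_iff.mp hs) (h.coeff_eq_zero hne)

theorem aeval_smul_hom {R : Type} [CommRing R] [Algebra ℂ R] (F : MvPolynomial κ ℂ) {d : ℕ}
    (hF : F.IsHomogeneous d) (l : R) (g : κ → R) :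
    aeval (fun i => l * g i) F = l ^ d * aeval g F := by
  rw [aeval_def, aeval_def, eval₂_eq', eval₂_eq', Finset.mul_sum]
  refine Finset.sum_congr rfl fun u hu => ?_
  have h1 : ∏ i, (l * g i) ^ u i = l ^ d * ∏ i, g i ^ u i := by
    simp_rw [mul_pow]
    rw [Finset.prod_mul_distrib, Finset.prod_pow_eq_pow_sum]
    congr 2
    rw [← deg_of_mem hF hu, Finsupp.degree_eq_sum]
  rw [h1]
  ring

/-- the matrix of the section of `piMap` with values in the vectors with `x_0 = x_1 = 0` -/
theorem section_exists (P : Fin 13 → Fin (9 + 1) → ℂ) (c : Fin 13 → ℂ) (hc : ∀ i, c i ≠ 0)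
    (hb : LinearIndependent ℂ fun j : Fin 10 => P (Fin.natAdd 3 j)) :
    ∃ S : Fin 12 → Fin (9 + 1) → ℂ,
      (∀ k l, ∑ i : Fin 12, S i k * (c i.succ * P i.succ l) = if k = l then 1 else 0) ∧
      (∀ i i' : Fin 12, 2 ≤ (i' : ℕ) →
        ∑ k, S i k * (c i'.succ * P i'.succ k) = if i = i' then 1 else 0) := by
  set B : Matrix (Fin 10) (Fin 10) ℂ := fun j k => P (Fin.natAdd 3 j) k with hB
  have hu : IsUnit B := by
    rw [← Matrix.linearIndependent_rows_iff_isUnit]
    exact hb
  have hdet : IsUnit B.det := (Matrix.isUnit_iff_isUnit_det _).mp hu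
  have h1 : B * B⁻¹ = 1 := Matrix.mul_nonsing_inv _ hdet
  have h2 : B⁻¹ * B = 1 := Matrix.nonsing_inv_mul _ hdet
  set S : Fin (2 + 10) → Fin 10 → ℂ := fun i k =>
    Fin.addCases (motive := fun _ => ℂ) (fun _ => 0)
      (fun j => B⁻¹ k j * (c (Fin.natAdd 3 j))⁻¹) i with hS
  have hS0 : ∀ (i : Fin 2) k, S (Fin.castAdd 10 i) k = 0 := by
    intro i k
    simp only [hS, Fin.addCases_left]
  have hS1 : ∀ (j : Fin 10) k, S (Fin.natAdd 2 j) k = B⁻¹ k j * (c (Fin.natAdd 3 j))⁻¹ := by
    intro i k
    simp only [hS, Fin.addCases_right]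
  have hsucc : ∀ j : Fin 10, (Fin.natAdd 2 j : Fin (2 + 10)).succ = (Fin.natAdd 3 j : Fin 13) := by
    intro j
    ext
    simp only [Fin.val_succ, Fin.val_natAdd]
    omega
  refine ⟨S, ?_, ?_⟩
  · intro k l
    have e := Fin.sum_univ_add (a := 2) (b := 10) (fun i => S i k * (c i.succ * P i.succ l))
    refine e.trans ?_
    have e1 : ∀ i : Fin 2, S (Fin.castAdd 10 i) k * (c (Fin.castAdd 10 i).succ *
        P (Fin.castAdd 10 i).succ l) = 0 := fun i => by rw [hS0, zero_mul]
    rw [Finset.sum_congr rfl fun i _ => e1 i, Finset.sum_const_zero, zero_add]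
    have e2 : ∀ j : Fin 10, S (Fin.natAdd 2 j) k * (c (Fin.natAdd 2 j).succ *
        P (Fin.natAdd 2 j).succ l) = B⁻¹ k j * B j l := by
      intro j
      rw [hS1, hsucc]
      have := hc (Fin.natAdd 3 j)
      simp only [hB]
      field_simp
    rw [Finset.sum_congr rfl fun j _ => e2 j]
    have e3 := congrFun (congrFun h2 k) l
    rw [Matrix.mul_apply] at e3
    rw [e3, Matrix.one_apply]
  · intro i i' hi'
    obtain ⟨j', hj'⟩ : ∃ j' : Fin 10, i' = (Fin.natAdd 2 j' : Fin (2 + 10)) :=
      ⟨⟨(i' : ℕ) - 2, by omega⟩, by ext; simp only [Fin.val_natAdd]; omega⟩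
    subst hj'
    by_cases hi : 2 ≤ (i : ℕ)
    · obtain ⟨j, hj⟩ : ∃ j : Fin 10, i = (Fin.natAdd 2 j : Fin (2 + 10)) :=
        ⟨⟨(i : ℕ) - 2, by omega⟩, by ext; simp only [Fin.val_natAdd]; omega⟩
      subst hj
      have e2 : ∀ k : Fin 10, S (Fin.natAdd 2 j) k * (c (Fin.natAdd 2 j').succ *
          P (Fin.natAdd 2 j').succ k) =
          (B j' k * B⁻¹ k j) * ((c (Fin.natAdd 3 j))⁻¹ * c (Fin.natAdd 3 j')) := by
        intro k
        rw [hS1, hsucc]
        simp only [hB]
        ring
      rw [Finset.sum_congr rfl fun k _ => e2 k, ← Finset.sum_mul]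
      have e3 := congrFun (congrFun h1 j') j
      rw [Matrix.mul_apply] at e3
      rw [e3, Matrix.one_apply]
      by_cases hjj : j' = j
      · subst hjj
        rw [if_pos rfl, if_pos rfl, one_mul, inv_mul_cancel₀ (hc _)]
      · rw [if_neg hjj, if_neg, zero_mul]
        intro h
        apply hjj
        ext
        have := congrArg Fin.val h
        simp only [Fin.val_natAdd] at this
        omega
    · obtain ⟨j, hj⟩ : ∃ j : Fin 2, i = (Fin.castAdd 10 j : Fin (2 + 10)) :=
        ⟨⟨(i : ℕ), by omega⟩, by ext; simp⟩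
      subst hj
      rw [if_neg]
      · apply Finset.sum_eq_zero
        intro k _
        rw [hS0, zero_mul]
      · intro h
        have := congrArg Fin.val h
        simp only [Fin.val_natAdd, Fin.val_castAdd] at this
        omega

end DescendAux

open DescendAux in
theorem Descend : S_Descend := by
  intro P c t y hG d m₁ m F hF
  obtain ⟨S, hS1, hS2⟩ := section_exists P c hG.c_ne hG.basis
  -- the section over a general ring
  have hpi : ∀ (R : Type) [CommRing R] [Algebra ℂ R] (w : Fin (9 + 1) → R),
      piMap P c (fun i => ∑ k, algebraMap ℂ R (S i k) * w k) = w := by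
    intro R _ _ w
    funext l
    unfold piMap
    simp only [Finset.sum_mul]
    rw [Finset.sum_comm]
    have e : ∀ k, ∑ i : Fin 12, algebraMap ℂ R (S i k) * w k * algebraMap ℂ R
        (c i.succ * P i.succ l) = (if k = l then 1 else 0) * w k := by
      intro k
      have e1 := congrArg (algebraMap ℂ R) (hS1 k l)
      rw [map_sum] at e1
      have e2 : algebraMap ℂ R (if k = l then 1 else 0) = if k = l then 1 else 0 := by
        split_ifs <;> simp
      rw [← e2, ← e1, Finset.sum_mul]
      refine Finset.sum_congr rfl fun i _ => ?_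
      simp only [map_mul]
      ring
    rw [Finset.sum_congr rfl fun k _ => e k]
    simp
  have hsec : ∀ (R : Type) [CommRing R] [Algebra ℂ R] (x : Fin 12 → R), x 0 = 0 → x 1 = 0 →
      (fun i => ∑ k, algebraMap ℂ R (S i k) * piMap P c x k) = x := by
    intro R _ _ x hx0 hx1
    funext i
    unfold piMap
    simp only [Finset.mul_sum]
    rw [Finset.sum_comm]
    have e : ∀ i' : Fin 12, ∑ k, algebraMap ℂ R (S i k) * (x i' * algebraMap ℂ R
        (c i'.succ * P i'.succ k)) = (if i = i' then 1 else 0) * x i' := by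
      intro i'
      by_cases hi' : 2 ≤ (i' : ℕ)
      · have e1 := congrArg (algebraMap ℂ R) (hS2 i i' hi')
        rw [map_sum] at e1
        have e2 : algebraMap ℂ R (if i = i' then 1 else 0) = if i = i' then 1 else 0 := by
          split_ifs <;> simp
        rw [← e2, ← e1, Finset.sum_mul]
        refine Finset.sum_congr rfl fun k _ => ?_
        simp only [map_mul]
        ring
      · have hx : x i' = 0 := by
          have h1 : i' = 0 ∨ i' = 1 := by
            rcases i' with ⟨v, hv⟩
            simp only [not_le] at hi'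
            interval_cases v
            · exact Or.inl rfl
            · exact Or.inr rfl
          rcases h1 with rfl | rfl
          · exact hx0
          · exact hx1
        simp [hx]
    rw [Finset.sum_congr rfl fun i' _ => e i']
    simp
  have ht : t 0 ≠ t 1 := by
    intro h
    have h1 := hG.gen.injective (a₁ := Sum.inl 0) (a₂ := Sum.inl 1) (by simpa using h)
    have h2 := Sum.inl_injective h1
    exact absurd h2 (by decide)
  -- invariance of `piMap`
  have hrel1 : ∀ (R : Type) [CommRing R] [Algebra ℂ R] (l : Fin (9 + 1)),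
      ∑ i : Fin 12, algebraMap ℂ R (c i.succ * P i.succ l) = 0 := by
    intro R _ _ l
    have := congrFun hG.rel1 l
    simp only [Finset.sum_apply, Pi.smul_apply, smul_eq_mul, Pi.zero_apply] at this
    rw [← map_sum, this, map_zero]
  have hrel2 : ∀ (R : Type) [CommRing R] [Algebra ℂ R] (l : Fin (9 + 1)),
      ∑ i : Fin 12, algebraMap ℂ R (t i) * algebraMap ℂ R (c i.succ * P i.succ l) = 0 := by
    intro R _ _ l
    have := congrFun hG.rel2 l
    simp only [Finset.sum_apply, Pi.smul_apply, smul_eq_mul, Pi.zero_apply] at this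
    have e : ∀ i : Fin 12, algebraMap ℂ R (t i) * algebraMap ℂ R (c i.succ * P i.succ l) =
        algebraMap ℂ R (t i * c i.succ * P i.succ l) := by
      intro i
      rw [← map_mul, mul_assoc]
    rw [Finset.sum_congr rfl fun i _ => e i, ← map_sum, this, map_zero]
  set G : MvPolynomial (Fin (9 + 1)) ℂ := aeval (fun i => ∑ k, C (S i k) * X k) F with hGdef
  have haG : ∀ (R : Type) [CommRing R] [Algebra ℂ R] (w : Fin (9 + 1) → R),
      aeval w G = aeval (fun i => ∑ k, algebraMap ℂ R (S i k) * w k) F := by
    intro R _ _ w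
    rw [hGdef, comp_aeval_apply]
    congr 2
    funext i
    rw [map_sum]
    refine Finset.sum_congr rfl fun k _ => ?_
    rw [map_mul, aeval_X, aeval_C]
  have hkey : ∀ (R : Type) [CommRing R] [Algebra ℂ R] (x : Fin 12 → R),
      aeval (piMap P c x) G = aeval x F := by
    intro R _ _ x
    set b : R := (x 1 - x 0) * algebraMap ℂ R (t 1 - t 0)⁻¹ with hb
    set a : R := x 0 - b * algebraMap ℂ R (t 0) with ha
    set x' : Fin 12 → R := fun i => x i - a - b * algebraMap ℂ R (t i) with hx'
    have hx0 : x' 0 = 0 := by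
      simp only [hx', ha]
      ring
    have hx1 : x' 1 = 0 := by
      have h1 : algebraMap ℂ R (t 1 - t 0)⁻¹ * algebraMap ℂ R (t 1 - t 0) = 1 := by
        rw [← map_mul, inv_mul_cancel₀ (sub_ne_zero.mpr ht.symm), map_one]
      have h2 : algebraMap ℂ R (t 1 - t 0) = algebraMap ℂ R (t 1) - algebraMap ℂ R (t 0) :=
        map_sub _ _ _
      simp only [hx', ha, hb]
      rw [h2] at h1
      linear_combination (-(x 1 - x 0)) * h1
    have hp : piMap P c x = piMap P c x' := by
      funext l
      unfold piMap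
      simp only [hx']
      have e : ∀ i : Fin 12, (x i - a - b * algebraMap ℂ R (t i)) * algebraMap ℂ R
          (c i.succ * P i.succ l) = x i * algebraMap ℂ R (c i.succ * P i.succ l) -
            a * algebraMap ℂ R (c i.succ * P i.succ l) -
            b * (algebraMap ℂ R (t i) * algebraMap ℂ R (c i.succ * P i.succ l)) := by
        intro i
        ring
      rw [Finset.sum_congr rfl fun i _ => e i, Finset.sum_sub_distrib, Finset.sum_sub_distrib,
        ← Finset.mul_sum, ← Finset.mul_sum, hrel1, hrel2]
      ring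
    rw [hp, haG, hsec R x' hx0 hx1]
    have h3 := hF.inv R x' a b
    rw [← h3]
    congr 2
    funext i
    simp only [hx']
    ring
  have hlin : ∀ i : Fin 12, (∑ k, C (S i k) * X k : MvPolynomial (Fin (9 + 1)) ℂ).IsHomogeneous 1 := by
    intro i
    exact MvPolynomial.IsHomogeneous.sum _ _ _ fun k _ => isHomogeneous_C_mul_X _ _
  refine ⟨G, ⟨?_, ?_⟩, hkey⟩
  · have := hF.hom.aeval (fun i => ∑ k, C (S i k) * X k) hlin
    rw [one_mul] at this
    exact this
  -- the additivity of `piMap`
  have hadd : ∀ (u v : Fin 12 → MvPolynomial (Fin (9 + 1)) ℂ),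
      piMap P c (fun i => u i + v i) = fun l => piMap P c u l + piMap P c v l := by
    intro u v
    funext l
    unfold piMap
    rw [← Finset.sum_add_distrib]
    exact Finset.sum_congr rfl fun i _ => by ring
  set σ : Fin 12 → MvPolynomial (Fin (9 + 1)) ℂ := fun i => ∑ k, C (S i k) * X k with hσ
  have hpiσ : piMap P c σ = X := hpi (MvPolynomial (Fin (9 + 1)) ℂ) X
  have hσlow : ∀ l, Low 1 (σ l) := fun l => low_of_hom (hlin l)
  intro i
  refine Fin.cases ?_ (fun i => ?_) i
  · -- multiplicity at `P 0`
    rw [Fin.cons_zero]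
    unfold MultGE
    rw [low_iff]
    have hm := hF.mul
    unfold MultGE at hm
    rw [low_iff] at hm
    have hc0 := hG.c_ne 0
    have e1 : (fun j => X j + C (P 0 j) : Fin (9 + 1) → MvPolynomial (Fin (9 + 1)) ℂ) =
        piMap P c (fun i => σ i + C (-(c 0)⁻¹ * y i)) := by
      rw [hadd, hpiσ]
      funext l
      congr 1
      unfold piMap
      have h3 := congrFun hG.rel3 l
      simp only [Finset.sum_apply, Pi.add_apply, Pi.smul_apply, smul_eq_mul, Pi.zero_apply] at h3
      have h4 : P 0 l = ∑ i : Fin 12, -(c 0)⁻¹ * y i * (c i.succ * P i.succ l) := by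
        have h5 : ∑ i : Fin 12, -(c 0)⁻¹ * y i * (c i.succ * P i.succ l) =
            -(c 0)⁻¹ * ∑ i : Fin 12, y i * c i.succ * P i.succ l := by
          rw [Finset.mul_sum]
          exact Finset.sum_congr rfl fun i _ => by ring
        rw [h5]
        field_simp
        linear_combination h3
      rw [h4, map_sum]
      refine Finset.sum_congr rfl fun i _ => ?_
      rw [MvPolynomial.algebraMap_eq, C_mul]
    have e2 : bind₁ (fun j => X j + C (P 0 j)) G =
        aeval (fun i => C (-(c 0)⁻¹) * (C (y i) + C (-(c 0)) * σ i)) F := by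
      rw [bind₁, e1, hkey]
      congr 2
      funext i
      rw [mul_add, ← mul_assoc, ← C_mul, ← C_mul]
      have h6 : -(c 0)⁻¹ * -(c 0) = 1 := by field_simp
      rw [h6, C_1, one_mul]
      exact add_comm _ _
    rw [e2, aeval_smul_hom F hF.hom, ← map_pow]
    have e3 : aeval (fun i => C (y i) + C (-(c 0)) * σ i) F =
        aeval (fun i => C (-(c 0)) * σ i) (bind₁ (fun i => X i + C (y i)) F) := by
      rw [bind₁, comp_aeval_apply]
      congr 2
      funext i
      rw [map_add, aeval_X, aeval_C, MvPolynomial.algebraMap_eq]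
      exact add_comm _ _
    rw [e3]
    have h7 : Low m₁ (aeval (fun i => C (-(c 0)) * σ i) (bind₁ (fun i => X i + C (y i)) F)) := by
      refine low_aeval _ _ (fun _ => 1) (fun l => ?_) m₁ ?_
      · have := low_mul (low_zero (C (-(c 0)))) (hσlow l)
        rwa [zero_add] at this
      · intro s hs
        by_contra hlt
        simp only [mul_one, not_le] at hlt
        rw [← Finsupp.degree_eq_sum] at hlt
        exact (mem_support_iff.mp hs) (hm s hlt)
    have := low_mul (low_zero (C ((-(c 0)⁻¹) ^ d))) h7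
    rwa [zero_add] at this
  · rw [Fin.cons_succ]
    unfold MultGE
    rw [low_iff]
    have hci := hG.c_ne i.succ
    have e1 : (fun j => X j + C (P i.succ j) : Fin (9 + 1) → MvPolynomial (Fin (9 + 1)) ℂ) =
        piMap P c (fun l => σ l + (Pi.single i (C (c i.succ)⁻¹) : Fin 12 → _) l) := by
      rw [hadd, hpiσ]
      funext l
      congr 1
      unfold piMap
      rw [Finset.sum_eq_single i]
      · rw [Pi.single_eq_same, MvPolynomial.algebraMap_eq, ← C_mul]
        congr 1
        field_simp
      · intro b _ hb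
        rw [Pi.single_eq_of_ne hb, zero_mul]
      · intro h
        exact absurd (Finset.mem_univ i) h
    rw [bind₁, e1, hkey]
    refine low_aeval _ _ (fun l => if l = i then 0 else 1) (fun l => ?_) (m i) ?_
    · by_cases hl : l = i
      · subst hl
        simp only [if_true]
        exact low_zero _
      · simp only [if_neg hl, Pi.single_eq_of_ne hl, add_zero]
        exact hσlow l
    · intro s hs
      have h1 := hF.deg i s hs
      have h2 := deg_of_mem hF.hom hs
      rw [Finsupp.degree_eq_sum] at h2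
      have h3 : ∑ l, s l * (if l = i then 0 else 1) + s i = ∑ l, s l := by
        have h4 : ∀ l, s l * (if l = i then 0 else 1) + (if l = i then s i else 0) = s l := by
          intro l
          by_cases hl : l = i
          · subst hl; simp
          · simp [hl]
        conv_rhs => rw [← Finset.sum_congr rfl fun l _ => h4 l]
        rw [Finset.sum_add_distrib]
        simp
      omega

end Pool.Agent.MP5769ea
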