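import Pool.Agent.Lib.MP_5769ea_ag.Spec1

open MvPolynomial

namespace Pool.Agent.MP5769ea.DetFormAux

/-- Row index type. -/
abbrev Row (Λ S N : Type) := (Fin 12 × Λ) ⊕ (S ⊕ (N ⊕ N))

structure Dat (a b Λ S N : Type) where
  JP : Fin 12 → Λ → a → ℂ
  JR : Fin 12 → Λ → b → ℂ
  TP : S → a → ℂ
  TR : S → b → ℂ
  EP : N → a → ℂ
  ER : N → b → ℂ

variable {a b Λ S N : Type}

def Mat (D : Dat a b Λ S N) {A : Type} [CommRing A] [Algebra ℂ A] (xs : A) (x : Fin 12 → A) :
    Matrix (Row Λ S N) (a ⊕ b) A := fun r c =>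
  match r, c with
  | Sum.inl il, Sum.inl j => algebraMap ℂ A (D.JP il.1 il.2 j)
  | Sum.inl il, Sum.inr j => - x il.1 * algebraMap ℂ A (D.JR il.1 il.2 j)
  | Sum.inr (Sum.inl s), Sum.inl j => algebraMap ℂ A (D.TP s j)
  | Sum.inr (Sum.inl s), Sum.inr j => - xs * algebraMap ℂ A (D.TR s j)
  | Sum.inr (Sum.inr (Sum.inl n)), Sum.inl j => algebraMap ℂ A (D.EP n j)
  | Sum.inr (Sum.inr (Sum.inl _)), Sum.inr _ => 0
  | Sum.inr (Sum.inr (Sum.inr _)), Sum.inl _ => 0
  | Sum.inr (Sum.inr (Sum.inr n)), Sum.inr j => algebraMap ℂ A (D.ER n j)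

variable [Fintype a] [Fintype b] [Fintype Λ] [Fintype S] [Fintype N]
  [DecidableEq a] [DecidableEq b] [DecidableEq Λ] [DecidableEq S] [DecidableEq N]

/-- the determinant -/
noncomputable def G (D : Dat a b Λ S N) (e : (a ⊕ b) ≃ Row Λ S N) {A : Type} [CommRing A]
    [Algebra ℂ A] (xs : A) (x : Fin 12 → A) : A :=
  ((Mat D xs x).submatrix e id).det

theorem G_map (D : Dat a b Λ S N) (e : (a ⊕ b) ≃ Row Λ S N) {A B : Type} [CommRing A]
    [Algebra ℂ A] [CommRing B] [Algebra ℂ B] (f : A →ₐ[ℂ] B) (xs : A) (x : Fin 12 → A) :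
    f (G D e xs x) = G D e (f xs) (fun i => f (x i)) := by
  unfold G
  rw [AlgHom.map_det]
  congr 1
  ext r c
  simp only [AlgHom.mapMatrix_apply, Matrix.map_apply, Matrix.submatrix_apply, id]
  rcases e r with il | s | n | n <;> rcases c with j | j <;> simp [Mat]

/-- compatibility data of the matrices -/
structure Comp (D : Dat a b Λ S N) (t y : Fin 12 → ℂ) (L1 Lt Ly : a → b → ℂ) (zt zy : N → ℂ) :
    Prop where
  j1 : ∀ i l c, ∑ k, D.JP i l k * L1 k c = D.JR i l c
  jt : ∀ i l c, ∑ k, D.JP i l k * Lt k c = t i * D.JR i l c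
  jy : ∀ i l c, ∑ k, D.JP i l k * Ly k c = y i * D.JR i l c
  t1 : ∀ s c, ∑ k, D.TP s k * L1 k c = 0
  tt : ∀ s c, ∑ k, D.TP s k * Lt k c = 0
  ty : ∀ s c, ∑ k, D.TP s k * Ly k c = D.TR s c
  e1 : ∀ n c, ∑ k, D.EP n k * L1 k c = D.ER n c
  et : ∀ n c, ∑ k, D.EP n k * Lt k c = zt n * D.ER n c
  ey : ∀ n c, ∑ k, D.EP n k * Ly k c = zy n * D.ER n c

/-- column operation -/
noncomputable def Cm (L1 Lt Ly : a → b → ℂ) {A : Type} [CommRing A] [Algebra ℂ A] (u v w : A) :
    Matrix (a ⊕ b) (a ⊕ b) A :=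
  Matrix.fromBlocks 1 (fun k c => u * algebraMap ℂ A (L1 k c) + v * algebraMap ℂ A (Lt k c) +
    w * algebraMap ℂ A (Ly k c)) 0 1

/-- row operation -/
noncomputable def Rm {A : Type} [CommRing A] (d : N → A) :
    Matrix (Row Λ S N) (Row Λ S N) A :=
  Matrix.fromBlocks 1 0 0 (Matrix.fromBlocks 1 0 0 (Matrix.fromBlocks 1 (Matrix.diagonal d) 0 1))

omit [Fintype Λ] [Fintype S] in
theorem Rm_det [Fintype Λ] [Fintype S] {A : Type} [CommRing A] (d : N → A) :
    (Rm (Λ := Λ) (S := S) d).det = 1 := by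
  unfold Rm
  rw [Matrix.det_fromBlocks_zero₂₁, Matrix.det_fromBlocks_zero₂₁, Matrix.det_fromBlocks_zero₂₁]
  simp

theorem Cm_det (L1 Lt Ly : a → b → ℂ) {A : Type} [CommRing A] [Algebra ℂ A] (u v w : A) :
    (Cm L1 Lt Ly u v w).det = 1 := by
  unfold Cm
  rw [Matrix.det_fromBlocks_zero₂₁]
  simp

theorem sum3 {A : Type} [CommRing A] [Algebra ℂ A] (u v w : A) (f : a → ℂ) (g1 g2 g3 : a → ℂ)
    (h1 h2 h3 : ℂ) (e1 : ∑ k, f k * g1 k = h1) (e2 : ∑ k, f k * g2 k = h2)
    (e3 : ∑ k, f k * g3 k = h3) :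
    ∑ k, algebraMap ℂ A (f k) * (u * algebraMap ℂ A (g1 k) + v * algebraMap ℂ A (g2 k) +
      w * algebraMap ℂ A (g3 k)) =
      u * algebraMap ℂ A h1 + v * algebraMap ℂ A h2 + w * algebraMap ℂ A h3 := by
  rw [← e1, ← e2, ← e3, map_sum, map_sum, map_sum, Finset.mul_sum, Finset.mul_sum,
    Finset.mul_sum, ← Finset.sum_add_distrib, ← Finset.sum_add_distrib]
  refine Finset.sum_congr rfl fun k _ => ?_
  rw [map_mul, map_mul, map_mul]
  ring

theorem mul_ops (D : Dat a b Λ S N) (t y : Fin 12 → ℂ) (L1 Lt Ly : a → b → ℂ) (zt zy : N → ℂ)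
    (h : Comp D t y L1 Lt Ly zt zy) {A : Type} [CommRing A] [Algebra ℂ A] (xs : A)
    (x : Fin 12 → A) (u v w : A) :
    Mat D xs x * Cm L1 Lt Ly u v w =
      Rm (Λ := Λ) (S := S) (fun n => u + v * algebraMap ℂ A (zt n) + w * algebraMap ℂ A (zy n)) *
        Mat D (xs - w) (fun i => x i - (u + v * algebraMap ℂ A (t i) +
          w * algebraMap ℂ A (y i))) := by
  ext r c
  rw [Matrix.mul_apply, Matrix.mul_apply]
  rcases r with ⟨i, l⟩ | s | n | n <;> rcases c with j | j
  · simp [Mat, Cm, Rm, Matrix.one_apply, Fintype.sum_sum_type]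
  · simp [Mat, Cm, Rm, Matrix.one_apply, Fintype.sum_sum_type]
    rw [sum3 u v w _ _ _ _ _ _ _ (h.j1 i l j) (h.jt i l j) (h.jy i l j)]
    rw [map_mul, map_mul]
    ring
  · simp [Mat, Cm, Rm, Matrix.one_apply, Fintype.sum_sum_type]
  · simp [Mat, Cm, Rm, Matrix.one_apply, Fintype.sum_sum_type]
    rw [sum3 u v w _ _ _ _ _ _ _ (h.t1 s j) (h.tt s j) (h.ty s j)]
    rw [map_zero]
    ring
  · simp [Mat, Cm, Rm, Matrix.one_apply, Matrix.diagonal_apply, Fintype.sum_sum_type]
  · simp [Mat, Cm, Rm, Matrix.one_apply, Matrix.diagonal_apply, Fintype.sum_sum_type]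
    rw [sum3 u v w _ _ _ _ _ _ _ (h.e1 n j) (h.et n j) (h.ey n j)]
    rw [map_mul, map_mul]
    ring
  · simp [Mat, Cm, Rm, Matrix.one_apply, Fintype.sum_sum_type]
  · simp [Mat, Cm, Rm, Matrix.one_apply, Fintype.sum_sum_type]

theorem G_inv (D : Dat a b Λ S N) (e : (a ⊕ b) ≃ Row Λ S N) (t y : Fin 12 → ℂ)
    (L1 Lt Ly : a → b → ℂ) (zt zy : N → ℂ)
    (h : Comp D t y L1 Lt Ly zt zy) {A : Type} [CommRing A] [Algebra ℂ A] (xs : A)
    (x : Fin 12 → A) (u v w : A) :
    G D e (xs + w) (fun i => x i + (u + v * algebraMap ℂ A (t i) +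
          w * algebraMap ℂ A (y i))) = G D e xs x := by
  have h1 := mul_ops D t y L1 Lt Ly zt zy h (xs + w) (fun i => x i + (u + v * algebraMap ℂ A (t i) +
          w * algebraMap ℂ A (y i))) u v w
  have e1 : (fun i => x i + (u + v * algebraMap ℂ A (t i) + w * algebraMap ℂ A (y i)) -
      (u + v * algebraMap ℂ A (t i) + w * algebraMap ℂ A (y i))) = x := by
    funext i; ring
  rw [e1, add_sub_cancel_right] at h1
  have h2 := congrArg (fun M => (Matrix.submatrix M e id).det) h1
  have h3 : ∀ (X : Matrix (Row Λ S N) (a ⊕ b) A) (Y : Matrix (a ⊕ b) (a ⊕ b) A),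
      (X * Y).submatrix e id = X.submatrix e id * Y := by
    intro X Y
    ext i j
    simp [Matrix.mul_apply]
  have h4 : ∀ (X : Matrix (Row Λ S N) (Row Λ S N) A) (Y : Matrix (Row Λ S N) (a ⊕ b) A),
      (X * Y).submatrix e id = X.submatrix e e * Y.submatrix e id := by
    intro X Y
    rw [Matrix.submatrix_mul_equiv]
  rw [h3, h4, Matrix.det_mul, Matrix.det_mul, Cm_det, Matrix.det_submatrix_equiv_self, Rm_det,
    mul_one, one_mul] at h2
  exact h2

theorem G_scale (D : Dat a b Λ S N) (e : (a ⊕ b) ≃ Row Λ S N) (lam : ℂ) (xs : ℂ)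
    (x : Fin 12 → ℂ) :
    lam ^ Fintype.card N * G D e (lam * xs) (fun i => lam * x i) =
      lam ^ Fintype.card b * G D e xs x := by
  have h1 : Matrix.diagonal (fun r : a ⊕ b => (Sum.elim (fun _ => (1 : ℂ))
      (Sum.elim (fun _ => 1) (Sum.elim (fun _ => 1) (fun _ => lam))) (e r : Row Λ S N))) *
      (Mat D (lam * xs) (fun i => lam * x i)).submatrix e id =
      (Mat D xs x).submatrix e id * Matrix.diagonal (Sum.elim (fun _ : a => (1 : ℂ))
        (fun _ : b => lam)) := by
    ext r c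
    rw [Matrix.diagonal_mul, Matrix.mul_diagonal]
    simp only [Matrix.submatrix_apply, id]
    rcases e r with il | s | n | n <;> rcases c with j | j <;> simp [Mat] <;> ring
  have h2 := congrArg Matrix.det h1
  rw [Matrix.det_mul, Matrix.det_mul, Matrix.det_diagonal, Matrix.det_diagonal] at h2
  have h3 : (∏ r : a ⊕ b, (Sum.elim (fun _ => (1 : ℂ))
      (Sum.elim (fun _ => 1) (Sum.elim (fun _ => 1) (fun _ => lam))) (e r : Row Λ S N))) =
      lam ^ Fintype.card N := by
    rw [Equiv.prod_comp e (fun r : Row Λ S N => (Sum.elim (fun _ => (1 : ℂ))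
      (Sum.elim (fun _ => 1) (Sum.elim (fun _ => 1) (fun _ => lam))) r))]
    simp [Fintype.prod_sum_type]
  rw [h3] at h2
  have h4 : (∏ c : a ⊕ b, Sum.elim (fun _ : a => (1 : ℂ)) (fun _ : b => lam) c) =
      lam ^ Fintype.card b := by
    simp [Fintype.prod_sum_type]
  rw [h4] at h2
  rw [mul_comm _ (lam ^ Fintype.card b)] at h2
  exact h2


/-! ### polynomials -/

theorem hc_eval (H : MvPolynomial (Fin 12) ℂ) (x : Fin 12 → ℂ) (q : Polynomial ℂ)
    (h : ∀ lam : ℂ, lam ≠ 0 → eval (fun i => lam * x i) H = q.eval lam) (j : ℕ) :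
    eval x (homogeneousComponent j H) = q.coeff j := by
  set M := max (H.totalDegree + 1) (j + 1) with hM
  set p : Polynomial ℂ := ∑ k ∈ Finset.range M,
    Polynomial.C (eval x (homogeneousComponent k H)) * Polynomial.X ^ k with hp
  have hs : ∑ k ∈ Finset.range M, homogeneousComponent k H = H := by
    conv_rhs => rw [← sum_homogeneousComponent H]
    symm
    apply Finset.sum_subset
    · intro k hk
      rw [Finset.mem_range] at hk ⊢
      omega
    · intro k _ hk
      rw [Finset.mem_range, not_lt] at hk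
      exact homogeneousComponent_eq_zero _ _ (by omega)
  have h1 : ∀ lam : ℂ, eval (fun i => lam * x i) H = p.eval lam := by
    intro lam
    conv_lhs => rw [← hs]
    rw [hp, Polynomial.eval_finsetSum, map_sum]
    refine Finset.sum_congr rfl fun k _ => ?_
    rw [Polynomial.eval_mul, Polynomial.eval_C, Polynomial.eval_pow, Polynomial.eval_X]
    have h2 := homogeneousComponent_isHomogeneous k H
    rw [homogeneousComponent_apply, map_sum, map_sum, Finset.sum_mul]
    refine Finset.sum_congr rfl fun s hs => ?_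
    rw [eval_monomial, eval_monomial]
    have h3 : s.degree = k := by
      simp only [Finset.mem_filter] at hs
      exact hs.2
    have h4 : (s.prod fun n e => (lam * x n) ^ e) = lam ^ k * s.prod fun n e => x n ^ e := by
      rw [Finsupp.prod_fintype _ _ (by simp), Finsupp.prod_fintype _ _ (by simp), ← h3,
        Finsupp.degree_eq_sum, ← Finset.prod_pow_eq_pow_sum, ← Finset.prod_mul_distrib]
      refine Finset.prod_congr rfl fun i _ => ?_
      rw [mul_pow]
    rw [h4]; ring
  have h2 : p = q := by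
    apply Polynomial.eq_of_infinite_eval_eq
    apply Set.Infinite.mono (s := {z : ℂ | z ≠ 0})
    · intro z hz
      change p.eval z = q.eval z
      rw [← h1, h z hz]
    · exact Set.infinite_of_finite_compl (by
        have : ({z : ℂ | z ≠ 0})ᶜ = {0} := by ext z; simp
        rw [this]; exact Set.finite_singleton 0)
  rw [← h2, hp, Polynomial.finsetSum_coeff]
  simp only [Polynomial.coeff_C_mul, Polynomial.coeff_X_pow, mul_ite, mul_one, mul_zero]
  rw [Finset.sum_ite_eq]
  rw [if_pos (Finset.mem_range.2 (by omega))]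

theorem hom_of_eval (F : MvPolynomial (Fin 12) ℂ) (d : ℕ)
    (h : ∀ (lam : ℂ) (x : Fin 12 → ℂ), lam ≠ 0 →
      eval (fun i => lam * x i) F = lam ^ d * eval x F) : F.IsHomogeneous d := by
  have h1 : ∀ j, j ≠ d → homogeneousComponent j F = 0 := by
    intro j hj
    apply MvPolynomial.funext
    intro x
    rw [hc_eval F x (Polynomial.C (eval x F) * Polynomial.X ^ d)]
    · rw [Polynomial.coeff_C_mul, Polynomial.coeff_X_pow, if_neg hj]; simp
    · intro lam hl
      rw [h lam x hl]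
      simp only [Polynomial.eval_mul, Polynomial.eval_C, Polynomial.eval_pow, Polynomial.eval_X]
      ring
  have h2 : homogeneousComponent d F = F := by
    ext s
    rw [coeff_homogeneousComponent]
    split_ifs with h3
    · rfl
    · have := congrArg (coeff s) (h1 s.degree h3)
      rw [coeff_homogeneousComponent, if_pos rfl] at this
      rw [this]; simp
  rw [← h2]
  exact homogeneousComponent_isHomogeneous d F

theorem degreeOf_det (i : Fin 12) (n w : ℕ) (ι : Type) [Fintype ι] [DecidableEq ι]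
    (M : Matrix ι ι (MvPolynomial (Fin 12) ℂ)) (f : ι → ℕ)
    (h : ∀ r c, (M r c).degreeOf i ≤ f r) (hf : ∑ r, f r ≤ w) : (M.det).degreeOf i ≤ w := by
  rw [Matrix.det_apply]
  refine (degreeOf_sum_le _ _ _).trans ?_
  refine Finset.sup_le fun σ _ => ?_
  have h1 : degreeOf i (∏ j, M (σ j) j) ≤ w := by
    refine (degreeOf_prod_le _ _ _).trans ?_
    refine le_trans (Finset.sum_le_sum fun j _ => h (σ j) j) ?_
    rw [Equiv.sum_comp σ f]
    exact hf
  rcases Int.units_eq_one_or (Equiv.Perm.sign σ) with h2 | h2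
  · rw [h2, one_smul]; exact h1
  · rw [h2, Units.neg_smul, one_smul]
    have h3 : degreeOf i (-(∏ j, M (σ j) j)) ≤ degreeOf i (∏ j, M (σ j) j) := by
      rw [degreeOf_le_iff]
      intro s hs
      rw [support_neg] at hs
      exact monomial_le_degreeOf i hs
    exact h3.trans h1

theorem natDegree_det (w : ℕ) (ι : Type) [Fintype ι] [DecidableEq ι]
    (M : Matrix ι ι (Polynomial ℂ)) (f : ι → ℕ)
    (h : ∀ r c, (M r c).natDegree ≤ f r) (hf : ∑ r, f r ≤ w) : (M.det).natDegree ≤ w := by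
  rw [Matrix.det_apply]
  refine Polynomial.natDegree_sum_le_of_forall_le _ _ fun σ _ => ?_
  have h1 : (∏ j, M (σ j) j).natDegree ≤ w := by
    refine (Polynomial.natDegree_prod_le _ _).trans ?_
    refine le_trans (Finset.sum_le_sum fun j _ => h (σ j) j) ?_
    rw [Equiv.sum_comp σ f]
    exact hf
  rcases Int.units_eq_one_or (Equiv.Perm.sign σ) with h2 | h2
  · rw [h2, one_smul]; exact h1
  · rw [h2, Units.neg_smul, one_smul, Polynomial.natDegree_neg]; exact h1

theorem abs_main (D : Dat a b Λ S N) (e : (a ⊕ b) ≃ Row Λ S N) (t y : Fin 12 → ℂ)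
    (L1 Lt Ly : a → b → ℂ) (zt zy : N → ℂ) (h : Comp D t y L1 Lt Ly zt zy) (m : ℕ)
    (hΛ : Fintype.card Λ = m + 1) (hS : Fintype.card S = 2 * m + 5)
    (hN : Fintype.card N = 6 * (m + 1)) (hb : Fintype.card b = 11 * m + 11) :
    XForm t y (5 * (m + 1)) (3 * m) (fun _ => 4 * (m + 1))
      (G D e (0 : MvPolynomial (Fin 12) ℂ) X) := by
  have hev : ∀ (R : Type) [CommRing R] [Algebra ℂ R] (x : Fin 12 → R),
      aeval x (G D e (0 : MvPolynomial (Fin 12) ℂ) X) = G D e (0 : R) x := by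
    intro R _ _ x
    rw [G_map D e (aeval x) 0 X]
    simp
  have hevC : ∀ (x : Fin 12 → ℂ),
      eval x (G D e (0 : MvPolynomial (Fin 12) ℂ) X) = G D e (0 : ℂ) x := by
    intro x
    have h1 := hev ℂ x
    rw [aeval_eq_eval] at h1
    exact h1
  have hsc : ∀ (lam : ℂ) (xs : ℂ) (x : Fin 12 → ℂ), lam ≠ 0 →
      G D e (lam * xs) (fun i => lam * x i) = lam ^ (5 * (m + 1)) * G D e xs x := by
    intro lam xs x hl
    have h1 := G_scale D e lam xs x
    rw [hN, hb] at h1
    have h2 : lam ^ (11 * m + 11) = lam ^ (6 * (m + 1)) * lam ^ (5 * (m + 1)) := by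
      rw [← pow_add]; congr 1; ring
    rw [h2, mul_assoc] at h1
    exact mul_left_cancel₀ (pow_ne_zero _ hl) h1
  have hhom : (G D e (0 : MvPolynomial (Fin 12) ℂ) X).IsHomogeneous (5 * (m + 1)) := by
    apply hom_of_eval
    intro lam x hl
    rw [hevC, hevC, ← hsc lam 0 x hl, mul_zero]
  refine ⟨hhom, ?_, ?_, ?_⟩
  · intro R _ _ x u v
    rw [hev, hev]
    have h1 := G_inv D e t y L1 Lt Ly zt zy h (0 : R) x u v 0
    simp only [add_zero, zero_mul] at h1
    rw [← h1]
    congr 1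
    funext i
    ring
  · intro i s hs
    have h1 : (G D e (0 : MvPolynomial (Fin 12) ℂ) X).degreeOf i ≤ m + 1 := by
      unfold G
      refine degreeOf_det i 0 (m + 1) (a ⊕ b) _ (fun r => (Sum.elim
        (fun il : Fin 12 × Λ => if il.1 = i then 1 else 0)
        (fun _ => 0)) (e r : Row Λ S N)) ?_ ?_
      · intro r c
        simp only [Matrix.submatrix_apply, id]
        rcases e r with ⟨k, l⟩ | s | n | n <;> rcases c with j | j
        · simp [Mat, algebraMap_eq]
        · simp only [Mat, algebraMap_eq, Sum.elim_inl]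
          refine (degreeOf_mul_le _ _ _).trans ?_
          rw [degreeOf_C, add_zero, ← neg_one_mul]
          refine (degreeOf_mul_le _ _ _).trans ?_
          have : (-1 : MvPolynomial (Fin 12) ℂ) = C (-1) := by simp
          rw [this, degreeOf_C, zero_add, degreeOf_X]
          by_cases hk : i = k
          · simp [hk]
          · simp [hk]
        · simp [Mat, algebraMap_eq]
        · simp [Mat]
        · simp [Mat, algebraMap_eq]
        · simp [Mat]
        · simp [Mat]
        · simp [Mat, algebraMap_eq]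
      · rw [Equiv.sum_comp e (fun r : Row Λ S N => (Sum.elim
          (fun il : Fin 12 × Λ => if il.1 = i then 1 else 0) (fun _ => 0)) r)]
        rw [Fintype.sum_sum_type]
        simp only [Sum.elim_inl, Sum.elim_inr, Finset.sum_const_zero, add_zero]
        rw [Fintype.sum_prod_type]
        have h5 : ∀ k : Fin 12, (∑ _l : Λ, if k = i then 1 else 0) = if k = i then m + 1 else 0 := by
          intro k
          split_ifs
          · simp [hΛ]
          · simp
        rw [Finset.sum_congr rfl (fun k _ => h5 k), Finset.sum_ite_eq']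
        simp
    have h2 := (degreeOf_le_iff.1 h1) s hs
    show s i + 4 * (m + 1) ≤ 5 * (m + 1)
    omega
  · intro j hj
    have hj' : j < 3 * m := by exact_mod_cast hj
    apply MvPolynomial.funext
    intro x
    set g : Polynomial ℂ := G D e (Polynomial.X : Polynomial ℂ) (fun i => Polynomial.C (x i))
      with hg
    have hgd : g.natDegree ≤ 2 * m + 5 := by
      rw [hg]
      unfold G
      refine natDegree_det (2 * m + 5) (a ⊕ b) _ (fun r => (Sum.elim (fun _ => 0)
        (Sum.elim (fun _ => 1) (fun _ => 0))) (e r : Row Λ S N)) ?_ ?_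
      · intro r c
        simp only [Matrix.submatrix_apply, id]
        rcases e r with ⟨k, l⟩ | s | n | n <;> rcases c with j | j
        · simp [Mat, Polynomial.algebraMap_eq]
        · simp only [Mat, Polynomial.algebraMap_eq, Sum.elim_inl]
          rw [← Polynomial.C_neg, ← Polynomial.C_mul, Polynomial.natDegree_C]
        · simp [Mat, Polynomial.algebraMap_eq]
        · simp only [Mat, Polynomial.algebraMap_eq, Sum.elim_inl, Sum.elim_inr]
          refine (Polynomial.natDegree_mul_le).trans ?_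
          simp
        · simp [Mat, Polynomial.algebraMap_eq]
        · simp [Mat]
        · simp [Mat]
        · simp [Mat, Polynomial.algebraMap_eq]
      · rw [Equiv.sum_comp e (fun r : Row Λ S N => (Sum.elim (fun _ => 0)
          (Sum.elim (fun _ => 1) (fun _ => 0))) r)]
        rw [Fintype.sum_sum_type, Fintype.sum_sum_type]
        simp [hS]
    have hgev : ∀ s : ℂ, g.eval s = G D e s x := by
      intro s
      have h1 := G_map D e (Polynomial.aeval s) (Polynomial.X : Polynomial ℂ)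
        (fun i => Polynomial.C (x i))
      rw [← hg, Polynomial.coe_aeval_eq_eval] at h1
      rw [h1]
      simp
    rw [hc_eval _ x (∑ k ∈ Finset.range (2 * m + 6),
      Polynomial.C (g.coeff k * (-1) ^ k) * Polynomial.X ^ (5 * (m + 1) - k))]
    · rw [Polynomial.finsetSum_coeff, map_zero]
      refine Finset.sum_eq_zero fun k hk => ?_
      rw [Finset.mem_range] at hk
      rw [Polynomial.coeff_C_mul, Polynomial.coeff_X_pow, if_neg (by omega), mul_zero]
    · intro lam hl
      have e1 : eval (fun i => lam * x i)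
          (bind₁ (fun i => X i + C (y i)) (G D e (0 : MvPolynomial (Fin 12) ℂ) X)) =
          eval (fun i => lam * x i + y i) (G D e (0 : MvPolynomial (Fin 12) ℂ) X) := by
        rw [← aeval_eq_eval, ← aeval_eq_eval]
        change aeval _ (bind₁ _ _) = aeval _ _
        rw [aeval_bind₁]
        congr 2
        funext i
        simp
      rw [e1, hevC]
      have e2 : (fun i => lam * x i + y i) = fun i => lam * (x i + lam⁻¹ * y i) := by
        funext i
        field_simp
      have e3 := G_inv D e t y L1 Lt Ly zt zy h (-lam⁻¹ : ℂ) x 0 0 (lam⁻¹)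
      simp only [zero_mul, zero_add, neg_add_cancel] at e3
      have e4 := hsc lam 0 (fun i => x i + lam⁻¹ * y i) hl
      rw [mul_zero] at e4
      rw [e2, e4]
      have e5 : G D e (0 : ℂ) (fun i => x i + lam⁻¹ * y i) = g.eval (-lam⁻¹) := by
        rw [hgev, ← e3]
        rfl
      rw [e5, Polynomial.eval_eq_sum_range' (n := 2 * m + 6) (by omega), Finset.mul_sum,
        Polynomial.eval_finsetSum]
      refine Finset.sum_congr rfl fun k hk => ?_
      rw [Finset.mem_range] at hk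
      simp only [Polynomial.eval_mul, Polynomial.eval_C, Polynomial.eval_pow, Polynomial.eval_X]
      have e6 : lam ^ (5 * (m + 1)) = lam ^ (5 * (m + 1) - k) * lam ^ k := by
        rw [← pow_add]; congr 1; omega
      rw [e6, neg_pow, inv_pow]
      have : lam ^ k ≠ 0 := pow_ne_zero _ hl
      field_simp


/-! ### plane polynomials -/

noncomputable def es (i j : ℕ) : Fin 2 →₀ ℕ := Finsupp.single 0 i + Finsupp.single 1 j

theorem es_zero (i j : ℕ) : es i j 0 = i := by simp [es]

theorem es_one (i j : ℕ) : es i j 1 = j := by simp [es]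

theorem es_eq (s : Fin 2 →₀ ℕ) : es (s 0) (s 1) = s := by
  ext i
  fin_cases i <;> simp [es]

theorem mem_PD {K : Type} [Field K] (F : MvPolynomial (Fin 2) K) (d μ : ℤ) :
    F ∈ PD K d μ ↔ ∀ s : Fin 2 →₀ ℕ, coeff s F ≠ 0 →
      ((s 0 + s 1 : ℕ) : ℤ) ≤ d ∧ ((s 1 : ℕ) : ℤ) ≤ μ := by
  unfold PD
  rw [mem_restrictSupport_iff]
  constructor
  · intro h s hs
    exact h (by simpa using hs)
  · intro h s hs
    exact h s (by simpa using hs)

theorem mem_Ord {K : Type} [Field K] (F : MvPolynomial (Fin 2) K) (q : Fin 2 → K) (g : ℤ) :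
    F ∈ OrdGE q g ↔ ∀ s : Fin 2 →₀ ℕ, coeff s (shift q F) ≠ 0 →
      g ≤ ((s 0 + s 1 : ℕ) : ℤ) := by
  unfold OrdGE
  rw [Submodule.mem_comap, mem_restrictSupport_iff]
  constructor
  · intro h s hs
    exact h (by simpa using hs)
  · intro h s hs
    exact h s (by simpa using hs)

theorem shift_map {K : Type} [Field K] [Algebra ℂ K] (q : Fin 2 → ℂ) (q' : Fin 2 → K)
    (hq : ∀ i, q' i = algebraMap ℂ K (q i)) (F : MvPolynomial (Fin 2) ℂ) :
    shift q' (map (algebraMap ℂ K) F) = map (algebraMap ℂ K) (shift q F) := by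
  unfold shift
  induction F using MvPolynomial.induction_on with
  | C a => simp [MvPolynomial.algebraMap_eq]
  | add p q hp hq => simp only [map_add, hp, hq]
  | mul_X p i hp =>
    rw [map_mul, map_mul, hp, map_mul, map_mul, map_X, aeval_X, aeval_X, map_add, map_X, map_C, hq]

theorem map_PD {K : Type} [Field K] [Algebra ℂ K] {F : MvPolynomial (Fin 2) ℂ} {d μ : ℤ}
    (h : F ∈ PD ℂ d μ) : map (algebraMap ℂ K) F ∈ PD K d μ := by
  rw [mem_PD] at h ⊢
  intro s hs
  apply h s
  intro h0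
  apply hs
  rw [coeff_map, h0, map_zero]

theorem map_Ord {K : Type} [Field K] [Algebra ℂ K] {F : MvPolynomial (Fin 2) ℂ}
    {q : Fin 2 → ℂ} {q' : Fin 2 → K}
    (hq : ∀ i, q' i = algebraMap ℂ K (q i)) {g : ℤ}
    (h : F ∈ OrdGE q g) : map (algebraMap ℂ K) F ∈ OrdGE q' g := by
  rw [mem_Ord] at h ⊢
  intro s hs
  apply h s
  intro h0
  apply hs
  rw [shift_map q q' hq, coeff_map, h0, map_zero]

/-- the coefficient of `u^l v^(m-l)` at `q` -/
noncomputable def jf {K : Type} [Field K] (m : ℕ) (q : Fin 2 → K) (l : ℕ) :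
    MvPolynomial (Fin 2) K →ₗ[K] K where
  toFun F := coeff (es l (m - l)) (shift q F)
  map_add' F G := by simp
  map_smul' c F := by simp

noncomputable def tf {K : Type} [Field K] (μ : ℕ) (l : ℕ) :
    MvPolynomial (Fin 2) K →ₗ[K] K where
  toFun F := coeff (es l μ) F
  map_add' F G := by simp
  map_smul' c F := by simp

noncomputable def ef {K : Type} [Field K] (z : Fin 2 → K) :
    MvPolynomial (Fin 2) K →ₗ[K] K where
  toFun F := eval z F
  map_add' F G := by simp
  map_smul' c F := by simp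

theorem sum_lin {n : ℕ} {U : Submodule ℂ (MvPolynomial (Fin 2) ℂ)}
    (pb : Module.Basis (Fin n) ℂ U) (φ : MvPolynomial (Fin 2) ℂ →ₗ[ℂ] ℂ)
    (F : MvPolynomial (Fin 2) ℂ) (hF : F ∈ U) :
    ∑ k, φ (pb k : MvPolynomial (Fin 2) ℂ) * pb.repr ⟨F, hF⟩ k = φ F := by
  have h1 : F = ∑ k, pb.repr ⟨F, hF⟩ k • (pb k : MvPolynomial (Fin 2) ℂ) := by
    have h2 := congrArg Subtype.val (pb.sum_repr ⟨F, hF⟩)
    simp only [Submodule.coe_sum, Submodule.coe_smul] at h2
    exact h2.symm
  conv_rhs => rw [h1]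
  rw [map_sum]
  refine Finset.sum_congr rfl fun k _ => ?_
  rw [map_smul, smul_eq_mul, mul_comm]

theorem jf_X {K : Type} [Field K] (m : ℕ) (q : Fin 2 → K) (l : ℕ) (hl : l ≤ m) (j : Fin 2)
    (F : MvPolynomial (Fin 2) K) (hF : F ∈ OrdGE q m) :
    jf m q l (X j * F) = q j * jf m q l F := by
  change coeff (es l (m - l)) (shift q (X j * F)) = q j * coeff (es l (m - l)) (shift q F)
  have h1 : shift q (X j * F) = X j * shift q F + C (q j) * shift q F := by
    rw [map_mul]
    have : shift q (X j) = X j + C (q j) := by simp [shift]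
    rw [this, add_mul]
  rw [h1, coeff_add, coeff_C_mul, coeff_X_mul']
  split_ifs with h2
  · have h3 : coeff (es l (m - l) - Finsupp.single j 1) (shift q F) = 0 := by
      by_contra h4
      have h5 := (mem_Ord F q m).1 hF _ h4
      rw [Finsupp.mem_support_iff] at h2
      have h6 : es l (m - l) 0 + es l (m - l) 1 = m := by rw [es_zero, es_one]; omega
      fin_cases j
      · simp only [Fin.zero_eta, Fin.isValue, Finsupp.coe_tsub, Pi.sub_apply,
          Finsupp.single_eq_same] at h5 h2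
        rw [Finsupp.single_eq_of_ne (by decide)] at h5
        have : ((es l (m - l) 0 - 1 + (es l (m - l) 1 - 0) : ℕ) : ℤ) < m := by
          have : es l (m - l) 0 - 1 + (es l (m - l) 1 - 0) < m := by omega
          exact_mod_cast this
        omega
      · simp only [Fin.mk_one, Fin.isValue, Finsupp.coe_tsub, Pi.sub_apply,
          Finsupp.single_eq_same] at h5 h2
        rw [Finsupp.single_eq_of_ne (by decide)] at h5
        have : ((es l (m - l) 0 - 0 + (es l (m - l) 1 - 1) : ℕ) : ℤ) < m := by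
          have : es l (m - l) 0 - 0 + (es l (m - l) 1 - 1) < m := by omega
          exact_mod_cast this
        omega
    rw [h3, zero_add]
  · rw [zero_add]

theorem tf_zero {K : Type} [Field K] (μ l : ℕ) (d ν : ℤ) (F : MvPolynomial (Fin 2) K)
    (hF : F ∈ PD K d ν) (h : ν < μ) : tf μ l F = 0 := by
  change coeff (es l μ) F = 0
  by_contra h1
  have h2 := ((mem_PD F d ν).1 hF _ h1).2
  rw [es_one] at h2
  omega

theorem tf_X {K : Type} [Field K] (μ l : ℕ) (F : MvPolynomial (Fin 2) K) :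
    tf (μ + 1) l (X 1 * F) = tf μ l F := by
  change coeff (es l (μ + 1)) (X 1 * F) = coeff (es l μ) F
  have h1 : es l (μ + 1) = Finsupp.single 1 1 + es l μ := by
    ext i
    fin_cases i
    · simp [es]
    · simp [es, add_comm]
  rw [h1, coeff_X_mul]

/-- extension of a linear functional to a larger field -/
theorem exists_ext {K : Type} [Field K] [Algebra ℂ K] (φ : MvPolynomial (Fin 2) ℂ →ₗ[ℂ] ℂ) :
    ∃ Φ : MvPolynomial (Fin 2) K →ₗ[K] K, ∀ F : MvPolynomial (Fin 2) ℂ,
      Φ (map (algebraMap ℂ K) F) = algebraMap ℂ K (φ F) := by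
  refine ⟨(MvPolynomial.basisMonomials (Fin 2) K).constr K
    (fun s => algebraMap ℂ K (φ (monomial s 1))), fun F => ?_⟩
  induction F using MvPolynomial.induction_on' with
  | monomial s c =>
    rw [map_monomial]
    have h1 : (monomial s (algebraMap ℂ K c) : MvPolynomial (Fin 2) K) =
        (algebraMap ℂ K c) • (MvPolynomial.basisMonomials (Fin 2) K s) := by
      rw [coe_basisMonomials, smul_monomial, smul_eq_mul, mul_one]
    have h2 : (monomial s c : MvPolynomial (Fin 2) ℂ) = c • monomial s 1 := by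
      rw [smul_monomial, smul_eq_mul, mul_one]
    rw [h1, map_smul, Module.Basis.constr_basis, h2, map_smul, smul_eq_mul, smul_eq_mul, map_mul]
  | add p q hp hq => rw [map_add, map_add, map_add, map_add, hp, hq]

theorem exists_dual {n : ℕ} {U : Submodule ℂ (MvPolynomial (Fin 2) ℂ)}
    (pb : Module.Basis (Fin n) ℂ U) (k : Fin n) :
    ∃ φ : MvPolynomial (Fin 2) ℂ →ₗ[ℂ] ℂ, ∀ j, φ (pb j : MvPolynomial (Fin 2) ℂ) =
      if j = k then 1 else 0 := by
  obtain ⟨g, hg⟩ := LinearMap.exists_leftInverse_of_injective U.subtype (by simp)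
  refine ⟨(pb.coord k) ∘ₗ g, fun j => ?_⟩
  have h1 : g (pb j : MvPolynomial (Fin 2) ℂ) = pb j := by
    have := LinearMap.congr_fun hg (pb j)
    simpa using this
  rw [LinearMap.comp_apply, h1, Module.Basis.coord_apply, Module.Basis.repr_self,
    Finsupp.single_apply]

/-- the combination with coefficients in `K` -/
noncomputable def comb {K : Type} [Field K] [Algebra ℂ K] {n : ℕ}
    (f : Fin n → MvPolynomial (Fin 2) ℂ) (u : Fin n → K) : MvPolynomial (Fin 2) K :=
  ∑ k, u k • map (algebraMap ℂ K) (f k)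

theorem comb_lin {K : Type} [Field K] [Algebra ℂ K] {n : ℕ}
    (f : Fin n → MvPolynomial (Fin 2) ℂ) (u : Fin n → K) (Φ : MvPolynomial (Fin 2) K →ₗ[K] K)
    (φ : MvPolynomial (Fin 2) ℂ →ₗ[ℂ] ℂ)
    (h : ∀ F, Φ (map (algebraMap ℂ K) F) = algebraMap ℂ K (φ F)) :
    Φ (comb f u) = ∑ k, algebraMap ℂ K (φ (f k)) * u k := by
  unfold comb
  rw [map_sum]
  refine Finset.sum_congr rfl fun k _ => ?_
  rw [map_smul, h, smul_eq_mul, mul_comm]

theorem comb_zero {K : Type} [Field K] [Algebra ℂ K] {n : ℕ}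
    {U : Submodule ℂ (MvPolynomial (Fin 2) ℂ)}
    (pb : Module.Basis (Fin n) ℂ U) (u : Fin n → K)
    (h : comb (fun k => (pb k : MvPolynomial (Fin 2) ℂ)) u = 0) : u = 0 := by
  funext k
  obtain ⟨φ, hφ⟩ := exists_dual pb k
  obtain ⟨Φ, hΦ⟩ := exists_ext (K := K) φ
  have h1 := comb_lin (fun k => (pb k : MvPolynomial (Fin 2) ℂ)) u Φ φ hΦ
  rw [h, map_zero] at h1
  simp only [hφ] at h1
  rw [Finset.sum_eq_single k] at h1
  · simpa using h1.symm
  · intro j _ hj
    rw [if_neg hj]; simp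
  · simp


theorem pt_up {K : Type} [Field K] [Algebra ℂ K] (t y : Fin 12 → ℂ) (i : Fin 12) (j : Fin 2) :
    pt (up (K := K) t) (up (K := K) y) i j = algebraMap ℂ K (pt t y i j) := by
  fin_cases j <;> simp [pt, up]

theorem mem_HH {K : Type} [Field K] {n : ℕ} (q : Fin n → Fin 2 → K) (d μ : ℤ) (g : Fin n → ℤ)
    (F : MvPolynomial (Fin 2) K) :
    F ∈ HH q d μ g ↔ F ∈ PD K d μ ∧ ∀ i, F ∈ OrdGE (q i) (g i) := by
  unfold HH
  rw [Submodule.mem_inf, Submodule.mem_iInf]

end Pool.Agent.MP5769ea.DetFormAux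

namespace Pool.Agent.MP5769ea

open DetFormAux

theorem DetForm (hPD : S_PDBasic) (hOrd : S_OrdBasic) (hDims : S_Dims) : S_DetForm := by
  intro t y hgen m Z
  obtain ⟨hd1, hd2, -, -⟩ := hDims ℂ t y hgen m
  set U := HH (pt t y) (4 * m + 6) (2 * m + 2) (fun _ => (m : ℤ)) with hU
  set W := HH (pt t y) (4 * m + 5) (2 * m + 1) (fun _ => (m : ℤ)) with hW
  haveI : Module.Finite ℂ U := Module.finite_of_finrank_pos (by omega)
  haveI : Module.Finite ℂ W := Module.finite_of_finrank_pos (by omega)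
  let pb : Module.Basis (Fin (15 * m + 18)) ℂ U := Module.finBasisOfFinrankEq ℂ U hd1
  let rb : Module.Basis (Fin (11 * m + 11)) ℂ W := Module.finBasisOfFinrankEq ℂ W hd2
  -- memberships
  have hX0 : (X 0 : MvPolynomial (Fin 2) ℂ) ∈ PD ℂ 1 0 := by
    rw [mem_PD]
    intro s hs
    rw [coeff_X'] at hs
    split_ifs at hs with h
    · subst h; simp
    · exact absurd rfl hs
  have hX1 : (X 1 : MvPolynomial (Fin 2) ℂ) ∈ PD ℂ 1 1 := by
    rw [mem_PD]
    intro s hs
    rw [coeff_X'] at hs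
    split_ifs at hs with h
    · subst h; simp
    · exact absurd rfl hs
  have hmul := (hPD ℂ).2.1
  have hUm : ∀ F ∈ U, F ∈ PD ℂ (4 * m + 6) (2 * m + 2) ∧ ∀ i, F ∈ OrdGE (pt t y i) m :=
    fun F hF => (mem_HH _ _ _ _ F).1 hF
  have hWm : ∀ F ∈ W, F ∈ PD ℂ (4 * m + 5) (2 * m + 1) ∧ ∀ i, F ∈ OrdGE (pt t y i) m :=
    fun F hF => (mem_HH _ _ _ _ F).1 hF
  have hW0 : ∀ F ∈ W, F ∈ U := by
    intro F hF
    rw [hW, mem_HH] at hF
    rw [hU, mem_HH]
    refine ⟨?_, hF.2⟩
    have h1 := hF.1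
    rw [mem_PD] at h1 ⊢
    intro s hs
    have := h1 s hs
    omega
  have hPX0 : ∀ F ∈ W, X 0 * F ∈ PD ℂ (4 * m + 6) (2 * m + 1) := by
    intro F hF
    rw [hW, mem_HH] at hF
    have h1 := hmul _ _ _ _ _ _ hX0 hF.1
    have e1 : (1 : ℤ) + (4 * m + 5) = 4 * m + 6 := by ring
    have e2 : (0 : ℤ) + (2 * m + 1) = 2 * m + 1 := by ring
    rw [e1, e2] at h1
    exact h1
  have hPX1 : ∀ F ∈ W, X 1 * F ∈ PD ℂ (4 * m + 6) (2 * m + 2) := by
    intro F hF
    rw [hW, mem_HH] at hF
    have h1 := hmul _ _ _ _ _ _ hX1 hF.1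
    have e1 : (1 : ℤ) + (4 * m + 5) = 4 * m + 6 := by ring
    have e2 : (1 : ℤ) + (2 * m + 1) = 2 * m + 2 := by ring
    rw [e1, e2] at h1
    exact h1
  have hOX : ∀ (j : Fin 2), ∀ F ∈ W, ∀ i, X j * F ∈ OrdGE (pt t y i) m := by
    intro j F hF i
    rw [hW, mem_HH] at hF
    obtain ⟨ho1, -, ho3, -⟩ := hOrd ℂ (pt t y i)
    have h1 := ho3 (X j) F 0 m le_rfl (by positivity) (by rw [ho1 0 le_rfl]; trivial) (hF.2 i)
    rwa [zero_add] at h1
  have hWX0 : ∀ F ∈ W, X 0 * F ∈ U := by
    intro F hF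
    rw [hU, mem_HH]
    refine ⟨?_, hOX 0 F hF⟩
    have h1 := hPX0 F hF
    rw [mem_PD] at h1 ⊢
    intro s hs
    have := h1 s hs
    omega
  have hWX1 : ∀ F ∈ W, X 1 * F ∈ U := by
    intro F hF
    rw [hU, mem_HH]
    exact ⟨hPX1 F hF, hOX 1 F hF⟩
  -- data
  let D : Dat (Fin (15 * m + 18)) (Fin (11 * m + 11)) (Fin (m + 1)) (Fin (2 * m + 5))
      (Fin (6 * (m + 1))) :=
    { JP := fun i l k => jf m (pt t y i) l (pb k : MvPolynomial (Fin 2) ℂ)
      JR := fun i l c => jf m (pt t y i) l (rb c : MvPolynomial (Fin 2) ℂ)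
      TP := fun s k => tf (2 * m + 2) s (pb k : MvPolynomial (Fin 2) ℂ)
      TR := fun s c => tf (2 * m + 1) s (rb c : MvPolynomial (Fin 2) ℂ)
      EP := fun n k => ef (Z n) (pb k : MvPolynomial (Fin 2) ℂ)
      ER := fun n c => ef (Z n) (rb c : MvPolynomial (Fin 2) ℂ) }
  let L1 : Fin (15 * m + 18) → Fin (11 * m + 11) → ℂ := fun k c =>
    pb.repr ⟨(rb c : MvPolynomial (Fin 2) ℂ), hW0 _ (rb c).2⟩ k
  let Lt : Fin (15 * m + 18) → Fin (11 * m + 11) → ℂ := fun k c =>
    pb.repr ⟨X 0 * (rb c : MvPolynomial (Fin 2) ℂ), hWX0 _ (rb c).2⟩ k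
  let Ly : Fin (15 * m + 18) → Fin (11 * m + 11) → ℂ := fun k c =>
    pb.repr ⟨X 1 * (rb c : MvPolynomial (Fin 2) ℂ), hWX1 _ (rb c).2⟩ k
  have hcomp : Comp D t y L1 Lt Ly (fun n => Z n 0) (fun n => Z n 1) := by
    have hrO : ∀ c i, (rb c : MvPolynomial (Fin 2) ℂ) ∈ OrdGE (pt t y i) m := by
      intro c i
      exact (hWm _ (rb c).2).2 i
    have hrP : ∀ c, (rb c : MvPolynomial (Fin 2) ℂ) ∈ PD ℂ (4 * m + 5) (2 * m + 1) := by
      intro c
      exact (hWm _ (rb c).2).1
    refine ⟨?_, ?_, ?_, ?_, ?_, ?_, ?_, ?_, ?_⟩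
    · intro i l c
      exact sum_lin pb (jf m (pt t y i) l) _ _
    · intro i l c
      refine (sum_lin pb (jf m (pt t y i) l) _ _).trans ?_
      rw [jf_X m (pt t y i) l (by have := l.2; omega) 0 _ (hrO c i)]
      rfl
    · intro i l c
      refine (sum_lin pb (jf m (pt t y i) l) _ _).trans ?_
      rw [jf_X m (pt t y i) l (by have := l.2; omega) 1 _ (hrO c i)]
      rfl
    · intro s c
      refine (sum_lin pb (tf (2 * m + 2) s) _ _).trans ?_
      exact tf_zero _ _ _ _ _ (hrP c) (by push_cast; omega)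
    · intro s c
      refine (sum_lin pb (tf (2 * m + 2) s) _ _).trans ?_
      exact tf_zero _ _ _ _ _ (hPX0 _ (rb c).2) (by push_cast; omega)
    · intro s c
      refine (sum_lin pb (tf (2 * m + 2) s) _ _).trans ?_
      exact tf_X (2 * m + 1) s _
    · intro n c
      exact sum_lin pb (ef (Z n)) _ _
    · intro n c
      refine (sum_lin pb (ef (Z n)) _ _).trans ?_
      change eval (Z n) (X 0 * (rb c : MvPolynomial (Fin 2) ℂ)) =
        Z n 0 * eval (Z n) (rb c : MvPolynomial (Fin 2) ℂ)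
      simp
    · intro n c
      refine (sum_lin pb (ef (Z n)) _ _).trans ?_
      change eval (Z n) (X 1 * (rb c : MvPolynomial (Fin 2) ℂ)) =
        Z n 1 * eval (Z n) (rb c : MvPolynomial (Fin 2) ℂ)
      simp
  have hcard : Fintype.card (Fin (15 * m + 18) ⊕ Fin (11 * m + 11)) =
      Fintype.card (Row (Fin (m + 1)) (Fin (2 * m + 5)) (Fin (6 * (m + 1)))) := by
    simp only [Fintype.card_sum, Fintype.card_prod, Fintype.card_fin]
    ring
  let e := Fintype.equivOfCardEq hcard
  refine ⟨G D e (0 : MvPolynomial (Fin 12) ℂ) X, abs_main D e t y L1 Lt Ly _ _ hcomp m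
    (by simp) (by simp) (by simp) (by simp), ?_⟩
  intro K _ _ x hx
  have hx' : G D e (0 : K) x = 0 := by
    rw [G_map D e (aeval x) 0 X] at hx
    simpa using hx
  unfold G at hx'
  obtain ⟨v, hv, hv0⟩ := Matrix.exists_mulVec_eq_zero_iff.2 hx'
  have hrow : ∀ r : Row (Fin (m + 1)) (Fin (2 * m + 5)) (Fin (6 * (m + 1))),
      ∑ k, Mat D (0 : K) x r (Sum.inl k) * v (Sum.inl k) +
      ∑ c, Mat D (0 : K) x r (Sum.inr c) * v (Sum.inr c) = 0 := by
    intro r
    have h1 := congrFun hv0 (e.symm r)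
    rw [Matrix.mulVec, dotProduct, Fintype.sum_sum_type] at h1
    simpa using h1
  set u : Fin (15 * m + 18) → K := fun k => v (Sum.inl k) with hu
  set w : Fin (11 * m + 11) → K := fun c => v (Sum.inr c) with hw
  set P : MvPolynomial (Fin 2) K := comb (fun k => (pb k : MvPolynomial (Fin 2) ℂ)) u with hP
  set R : MvPolynomial (Fin 2) K := comb (fun k => (rb k : MvPolynomial (Fin 2) ℂ)) w with hR
  have hjc : ∀ (i : Fin 12) (l : ℕ) (F : MvPolynomial (Fin 2) ℂ),
      jf m (pt (up (K := K) t) (up (K := K) y) i) l (map (algebraMap ℂ K) F) =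
        algebraMap ℂ K (jf m (pt t y i) l F) := by
    intro i l F
    change coeff _ (shift _ _) = algebraMap ℂ K (coeff _ (shift _ _))
    rw [shift_map (pt t y i) _ (pt_up t y i), coeff_map]
  have htc : ∀ (μ l : ℕ) (F : MvPolynomial (Fin 2) ℂ),
      tf μ l (map (algebraMap ℂ K) F) = algebraMap ℂ K (tf μ l F) := by
    intro μ l F
    exact coeff_map _ _ _
  have hec : ∀ (j) (F : MvPolynomial (Fin 2) ℂ),
      ef (up (K := K) (Z j)) (map (algebraMap ℂ K) F) = algebraMap ℂ K (ef (Z j) F) := by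
    intro j F
    change eval _ _ = algebraMap ℂ K (eval _ _)
    exact (MvPolynomial.map_eval (algebraMap ℂ K) (Z j) F).symm
  have hPO : ∀ i, P ∈ OrdGE (pt (up (K := K) t) (up (K := K) y) i) m := by
    intro i
    rw [hP]
    refine Submodule.sum_mem _ fun k _ => Submodule.smul_mem _ _ ?_
    apply map_Ord (pt_up t y i)
    exact (hUm _ (pb k).2).2 i
  have hRO : ∀ i, R ∈ OrdGE (pt (up (K := K) t) (up (K := K) y) i) m := by
    intro i
    rw [hR]
    refine Submodule.sum_mem _ fun k _ => Submodule.smul_mem _ _ ?_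
    apply map_Ord (pt_up t y i)
    exact (hWm _ (rb k).2).2 i
  have hPP : P ∈ PD K (4 * m + 6) (2 * m + 2) := by
    rw [hP]
    refine Submodule.sum_mem _ fun k _ => Submodule.smul_mem _ _ ?_
    apply map_PD
    exact (hUm _ (pb k).2).1
  have hRP : R ∈ PD K (4 * m + 5) (2 * m + 1) := by
    rw [hR]
    refine Submodule.sum_mem _ fun k _ => Submodule.smul_mem _ _ ?_
    apply map_PD
    exact (hWm _ (rb k).2).1
  refine ⟨(P, R), ⟨?_, hRP, fun i => ⟨hRO i, ?_⟩⟩, ?_, ?_⟩
  · -- degree of P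
    change P ∈ PD K (4 * m + 6) (2 * m + 1)
    rw [mem_PD] at hPP ⊢
    intro s hs
    have h1 := hPP s hs
    refine ⟨h1.1, ?_⟩
    by_contra h2
    have h3 : s 1 = 2 * m + 2 := by omega
    have h4 : s 0 < 2 * m + 5 := by omega
    have h5 := hrow (Sum.inr (Sum.inl ⟨s 0, h4⟩))
    have h6 : ∑ c, Mat D (0 : K) x (Sum.inr (Sum.inl ⟨s 0, h4⟩)) (Sum.inr c) * v (Sum.inr c)
        = 0 := by
      refine Finset.sum_eq_zero fun c _ => ?_
      simp [Mat]
    rw [h6, add_zero] at h5
    have h7 := comb_lin (fun k => (pb k : MvPolynomial (Fin 2) ℂ)) u (tf (2 * m + 2) (s 0))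
      (tf (2 * m + 2) (s 0)) (htc _ _)
    rw [← hP] at h7
    apply hs
    have h8 : coeff s P = tf (2 * m + 2) (s 0) P := by
      change coeff s P = coeff (es (s 0) (2 * m + 2)) P
      rw [← h3, es_eq]
    rw [h8, h7]
    exact h5
  · -- order
    change P - C (x i) * R ∈ OrdGE (pt (up (K := K) t) (up (K := K) y) i) (m + 1)
    rw [mem_Ord]
    intro s hs
    have h1 : P - C (x i) * R ∈ OrdGE (pt (up (K := K) t) (up (K := K) y) i) m := by
      refine Submodule.sub_mem _ (hPO i) ?_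
      rw [← smul_eq_C_mul]
      exact Submodule.smul_mem _ _ (hRO i)
    have h2 := (mem_Ord _ _ _).1 h1 s hs
    by_contra h3
    have h4 : s 0 + s 1 = m := by omega
    apply hs
    have h5 : coeff s (shift (pt (up (K := K) t) (up (K := K) y) i) (P - C (x i) * R)) =
        jf m (pt (up (K := K) t) (up (K := K) y) i) (s 0) (P - C (x i) * R) := by
      change _ = coeff (es (s 0) (m - s 0)) _
      have : m - s 0 = s 1 := by omega
      rw [this, es_eq]
    rw [h5, ← smul_eq_C_mul, map_sub, map_smul]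
    have h6 := hrow (Sum.inl (i, ⟨s 0, by omega⟩))
    rw [comb_lin (fun k => (pb k : MvPolynomial (Fin 2) ℂ)) u _ _ (hjc i (s 0)),
      comb_lin (fun k => (rb k : MvPolynomial (Fin 2) ℂ)) w _ _ (hjc i (s 0)), smul_eq_mul,
      Finset.mul_sum]
    rw [← h6, sub_eq_add_neg, ← Finset.sum_neg_distrib]
    congr 1
    refine Finset.sum_congr rfl fun c _ => ?_
    simp only [Mat, D, hw]
    ring
  · -- nonzero
    intro h0
    apply hv
    rw [Prod.mk_eq_zero] at h0
    have h1 := comb_zero pb u (hP ▸ h0.1)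
    have h2 := comb_zero rb w (hR ▸ h0.2)
    funext c
    rcases c with c | c
    · exact congrFun h1 c
    · exact congrFun h2 c
  · intro j
    constructor
    · have h1 := hrow (Sum.inr (Sum.inr (Sum.inl j)))
      have h6 : ∑ c, Mat D (0 : K) x (Sum.inr (Sum.inr (Sum.inl j))) (Sum.inr c) * v (Sum.inr c)
          = 0 := by
        refine Finset.sum_eq_zero fun c _ => ?_
        simp [Mat]
      rw [h6, add_zero] at h1
      change ef (up (K := K) (Z j)) P = 0
      rw [hP, comb_lin (fun k => (pb k : MvPolynomial (Fin 2) ℂ)) u _ _ (hec j)]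
      exact h1
    · have h1 := hrow (Sum.inr (Sum.inr (Sum.inr j)))
      have h6 : ∑ c, Mat D (0 : K) x (Sum.inr (Sum.inr (Sum.inr j))) (Sum.inl c) * v (Sum.inl c)
          = 0 := by
        refine Finset.sum_eq_zero fun c _ => ?_
        simp [Mat]
      rw [h6, zero_add] at h1
      change ef (up (K := K) (Z j)) R = 0
      rw [hR, comb_lin (fun k => (rb k : MvPolynomial (Fin 2) ℂ)) w _ _ (hec j)]
      exact h1

end Pool.Agent.MP5769ea
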