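import Pool.Agent.Lib.MP_5769ea_ag.Spec1

/-!
# MP_5769ea_ag, `Dims`: exact dimensions at 12 generic points

The linear map of all jets of order `< n` at the points `q_i` has target of dimension
`N n (n + 1) / 2`; it is onto on `PD (4m+6) (2m+1)` for `n = m + 1`, because of the upper bound
`m + 1` for its kernel.  All the other statements follow by monotonicity and rank-nullity.
-/

open MvPolynomial

namespace Pool.Agent.MP5769ea

namespace DimsAux

variable {K : Type} [Field K]

/-- the exponent `(l, k - l)` -/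
noncomputable def ex (k l : ℕ) : Fin 2 →₀ ℕ :=
  Finsupp.single 0 l + Finsupp.single 1 (k - l)

/-- pairs `(k, l)` with `l ≤ k < n` -/
abbrev Ix (n : ℕ) : Type := Σ k : Fin n, Fin (k.1 + 1)

lemma ex_zero (k l : ℕ) : ex k l 0 = l := by simp [ex]

lemma ex_one (k l : ℕ) : ex k l 1 = k - l := by simp [ex]

lemma eq_ex (s : Fin 2 →₀ ℕ) : s = ex (s 0 + s 1) (s 0) := by
  ext j
  fin_cases j
  · exact (ex_zero _ _).symm
  · change s 1 = ex (s 0 + s 1) (s 0) 1
    rw [ex_one]
    omega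

lemma card_Ix (n : ℕ) : 2 * Fintype.card (Ix n) = n * (n + 1) := by
  have h : Fintype.card (Ix n) = ∑ k ∈ Finset.range n, (k + 1) := by
    rw [Fintype.card_sigma]
    simp only [Fintype.card_fin]
    exact Fin.sum_univ_eq_sum_range (fun k => k + 1) n
  rw [h]
  induction n with
  | zero => simp
  | succ n ih =>
    have h' : Fintype.card (Ix n) = ∑ k ∈ Finset.range n, (k + 1) := by
      rw [Fintype.card_sigma]
      simp only [Fintype.card_fin]
      exact Fin.sum_univ_eq_sum_range (fun k => k + 1) n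
    have := ih h'
    rw [Finset.sum_range_succ, mul_add, this]
    ring

/-- all coefficients of order `< n` at the points `q i` -/
noncomputable def jet {N : ℕ} (q : Fin N → Fin 2 → K) (n : ℕ) :
    MvPolynomial (Fin 2) K →ₗ[K] (Fin N × Ix n → K) :=
  LinearMap.pi fun p => (lcoeff K (ex p.2.1.1 p.2.2.1)).comp (shift (q p.1)).toLinearMap

lemma jet_apply {N : ℕ} (q : Fin N → Fin 2 → K) (n : ℕ) (F : MvPolynomial (Fin 2) K)
    (p : Fin N × Ix n) : jet q n F p = coeff (ex p.2.1.1 p.2.2.1) (shift (q p.1) F) := rfl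

lemma mem_OrdGE (q : Fin 2 → K) (g : ℤ) (F : MvPolynomial (Fin 2) K) :
    F ∈ OrdGE q g ↔ ∀ s : Fin 2 →₀ ℕ, ((s 0 + s 1 : ℕ) : ℤ) < g → coeff s (shift q F) = 0 := by
  unfold OrdGE
  rw [Submodule.mem_comap, mem_restrictSupport_iff]
  constructor
  · intro h s hs
    by_contra hne
    have : s ∈ ((shift q F).support : Set (Fin 2 →₀ ℕ)) := by
      simpa [mem_support_iff] using hne
    have h2 := h this
    have h3 : g ≤ ((s 0 + s 1 : ℕ) : ℤ) := h2
    omega
  · intro h s hs
    change g ≤ ((s 0 + s 1 : ℕ) : ℤ)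
    by_contra hlt
    have h2 := h s (by omega)
    have h3 : coeff s (shift q F) ≠ 0 := by
      simpa [mem_support_iff] using hs
    exact h3 h2

lemma jet_eq_zero {N : ℕ} (q : Fin N → Fin 2 → K) (n : ℕ) (F : MvPolynomial (Fin 2) K) :
    jet q n F = 0 ↔ ∀ i, F ∈ OrdGE (q i) (n : ℤ) := by
  constructor
  · intro h i
    rw [mem_OrdGE]
    intro s hs
    have hs' : s 0 + s 1 < n := by exact_mod_cast hs
    have h1 := congrFun h (i, ⟨⟨s 0 + s 1, hs'⟩, ⟨s 0, by simp⟩⟩)
    rw [jet_apply] at h1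
    simp only [Pi.zero_apply] at h1
    rwa [← eq_ex s] at h1
  · intro h
    ext p
    rw [jet_apply, Pi.zero_apply]
    refine (mem_OrdGE _ _ _).1 (h p.1) _ ?_
    rw [ex_zero, ex_one]
    have h1 := p.2.1.2
    have h2 := p.2.2.2
    have h3 : (p.2.2 : ℕ) + ((p.2.1 : ℕ) - (p.2.2 : ℕ)) < n := by omega
    exact_mod_cast h3

/-- the kernel of the jet map on a subspace -/
lemma finrank_HH {N : ℕ} (q : Fin N → Fin 2 → K) (d μ : ℤ) [FiniteDimensional K (PD K d μ)]
    (n : ℕ) :
    Module.finrank K (HH q d μ (fun _ => (n : ℤ))) +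
      Module.finrank K (LinearMap.range ((jet q n).domRestrict (PD K d μ))) =
      Module.finrank K (PD K d μ) := by
  have h1 := LinearMap.finrank_range_add_finrank_ker ((jet q n).domRestrict (PD K d μ))
  have h2 : Module.finrank K (LinearMap.ker ((jet q n).domRestrict (PD K d μ))) =
      Module.finrank K (HH q d μ (fun _ => (n : ℤ))) := by
    have h3 : (LinearMap.ker ((jet q n).domRestrict (PD K d μ))).map (PD K d μ).subtype =
        HH q d μ (fun _ => (n : ℤ)) := by
      ext F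
      simp only [Submodule.mem_map, LinearMap.mem_ker, LinearMap.domRestrict_apply,
        Submodule.subtype_apply, HH, Submodule.mem_inf, Submodule.mem_iInf]
      constructor
      · rintro ⟨G, hG, rfl⟩
        exact ⟨G.2, (jet_eq_zero q n _).1 hG⟩
      · rintro ⟨hF, hF2⟩
        exact ⟨⟨F, hF⟩, (jet_eq_zero q n _).2 hF2, rfl⟩
    rw [← h3]
    exact (LinearEquiv.finrank_eq
      (Submodule.equivMapOfInjective (PD K d μ).subtype (Submodule.injective_subtype _) _))
  omega

/-- surjectivity of the jet map on `PD d μ` -/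
def Surj {N : ℕ} (q : Fin N → Fin 2 → K) (d μ : ℤ) (n : ℕ) : Prop :=
  ∀ w : Fin N × Ix n → K, ∃ F ∈ PD K d μ, jet q n F = w

lemma Surj.finrank {N : ℕ} {q : Fin N → Fin 2 → K} {d μ : ℤ} [FiniteDimensional K (PD K d μ)]
    {n : ℕ} (h : Surj q d μ n) :
    2 * Module.finrank K (HH q d μ (fun _ => (n : ℤ))) + N * (n * (n + 1)) =
      2 * Module.finrank K (PD K d μ) := by
  have h1 := finrank_HH q d μ n
  have h2 : LinearMap.range ((jet q n).domRestrict (PD K d μ)) = ⊤ := by
    rw [LinearMap.range_eq_top]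
    intro w
    obtain ⟨F, hF, hw⟩ := h w
    exact ⟨⟨F, hF⟩, by rw [LinearMap.domRestrict_apply]; exact hw⟩
  rw [h2, finrank_top, Module.finrank_fintype_fun_eq_card, Fintype.card_prod,
    Fintype.card_fin] at h1
  rw [← h1, ← card_Ix]
  ring

lemma surj_of_finrank {N : ℕ} {q : Fin N → Fin 2 → K} {d μ : ℤ}
    [FiniteDimensional K (PD K d μ)] {n : ℕ}
    (h : 2 * Module.finrank K (HH q d μ (fun _ => (n : ℤ))) + N * (n * (n + 1)) ≤
      2 * Module.finrank K (PD K d μ)) : Surj q d μ n := by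
  have h1 := finrank_HH q d μ n
  have h2 : LinearMap.range ((jet q n).domRestrict (PD K d μ)) = ⊤ := by
    apply Submodule.eq_top_of_finrank_eq
    apply le_antisymm (Submodule.finrank_le _)
    rw [Module.finrank_fintype_fun_eq_card, Fintype.card_prod, Fintype.card_fin]
    have h3 := card_Ix n
    have h4 : N * (n * (n + 1)) = 2 * (N * Fintype.card (Ix n)) := by rw [← h3]; ring
    omega
  intro w
  have h3 : w ∈ LinearMap.range ((jet q n).domRestrict (PD K d μ)) := by rw [h2]; trivial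
  obtain ⟨G, hG⟩ := h3
  exact ⟨G, G.2, by rw [LinearMap.domRestrict_apply] at hG; exact hG⟩

lemma PD_mono {d μ d' μ' : ℤ} (h : d ≤ d') (h' : μ ≤ μ') : PD K d μ ≤ PD K d' μ' := by
  apply restrictSupport_mono
  rintro s ⟨h1, h2⟩
  exact ⟨h1.trans h, h2.trans h'⟩

lemma Surj.mono {N : ℕ} {q : Fin N → Fin 2 → K} {d μ d' μ' : ℤ} {n n' : ℕ}
    (h : Surj q d μ n) (hd : d ≤ d') (hμ : μ ≤ μ') (hn : n' ≤ n) : Surj q d' μ' n' := by
  intro w
  obtain ⟨F, hF, hw⟩ := h fun p =>
    if hp : p.2.1.1 < n' then w (p.1, ⟨⟨p.2.1.1, hp⟩, p.2.2⟩) else 0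
  refine ⟨F, PD_mono hd hμ hF, ?_⟩
  ext p
  have h1 := congrFun hw (p.1, ⟨⟨p.2.1.1, p.2.1.2.trans_le hn⟩, p.2.2⟩)
  rw [jet_apply] at h1 ⊢
  simp only at h1
  rw [h1, dif_pos p.2.1.2]

lemma surj_zero {N : ℕ} (q : Fin N → Fin 2 → K) (d μ : ℤ) : Surj q d μ 0 := by
  intro w
  refine ⟨0, Submodule.zero_mem _, ?_⟩
  ext p
  exact p.2.1.elim0

end DimsAux

open DimsAux

/-- exact dimensions and independence of jets at 12 generic points -/
theorem Dims (h1 : S_PDRank) (h2 : S_QA1) (h3 : S_GenBound) (_h4 : S_OrdBasic) : S_Dims := by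
  intro K _ _ t y hg
  obtain ⟨hfin, -, hrank, -⟩ := h1 K
  have inst : ∀ d μ : ℤ, FiniteDimensional K (PD K d μ) := hfin
  have hr : ∀ (d μ : ℤ) (d' μ' : ℕ), (d' : ℤ) = d → (μ' : ℤ) = μ → μ' ≤ d' →
      2 * (Module.finrank K (PD K d μ) : ℤ) = (μ + 1) * (2 * d + 2 - μ) := by
    rintro d μ d' μ' rfl rfl hle
    exact hrank d' μ' hle
  -- the bound for the kernel
  have hB : ∀ m : ℕ, Module.finrank K
      (HH (pt t y) (4 * m + 6) (2 * m + 1) (fun _ => (m : ℤ) + 1)) ≤ m + 1 := by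
    intro m
    exact h3 12 (4 * m + 6) (2 * m + 1) (fun _ => (m : ℤ) + 1) (m + 1)
      (fun K₁ _ _ s hs => h2 K₁ s hs m) K t y hg
  have hPD : ∀ m : ℕ, 2 * Module.finrank K (PD K (4 * m + 6) (2 * m + 1)) =
      2 * ((m + 1) * (6 * m + 13)) := by
    intro m
    have := hr (4 * m + 6) (2 * m + 1) (4 * m + 6) (2 * m + 1) (by omega) (by omega) (by omega)
    zify
    rw [this]
    ring
  have hJ : ∀ m : ℕ, Surj (pt t y) (4 * m + 6) (2 * m + 1) (m + 1) := by
    intro m
    apply surj_of_finrank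
    have h5 := hB m
    have h6 := hPD m
    push_cast
    nlinarith [h5, h6]
  intro m
  refine ⟨?_, ?_, ?_, ?_⟩
  · have hs : Surj (pt t y) (4 * m + 6) (2 * m + 2) m :=
      (hJ m).mono le_rfl (by omega) (by omega)
    have h5 := hs.finrank
    have h6 := hr (4 * m + 6) (2 * m + 2) (4 * m + 6) (2 * m + 2) (by omega) (by omega) (by omega)
    zify at h5 ⊢
    nlinarith [h5, h6]
  · have hs : Surj (pt t y) (4 * m + 5) (2 * m + 1) m := by
      cases m with
      | zero => exact surj_zero _ _ _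
      | succ m =>
        refine (hJ m).mono ?_ ?_ le_rfl
        · push_cast; omega
        · push_cast; omega
    have h5 := hs.finrank
    have h6 := hr (4 * m + 5) (2 * m + 1) (4 * m + 5) (2 * m + 1) (by omega) (by omega) (by omega)
    zify at h5 ⊢
    nlinarith [h5, h6]
  · have h5 := (hJ m).finrank
    have h6 := hPD m
    push_cast at h5
    zify at h5 h6 ⊢
    nlinarith [h5, h6]
  · intro f hf
    obtain ⟨F, hF, hw⟩ := hJ m fun p =>
      coeff (ex p.2.1.1 p.2.2.1) (shift (pt t y p.1) (f p.1))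
    have hsub : ∀ i, F - f i ∈ OrdGE (pt t y i) ((m : ℤ) + 1) := by
      intro i
      rw [mem_OrdGE]
      intro s hs
      have hs' : s 0 + s 1 < m + 1 := by exact_mod_cast hs
      have h5 := congrFun hw (i, ⟨⟨s 0 + s 1, hs'⟩, ⟨s 0, by simp⟩⟩)
      rw [jet_apply] at h5
      simp only [← eq_ex s] at h5
      rw [map_sub, coeff_sub, h5, sub_self]
    refine ⟨F, ?_, hsub⟩
    rw [HH, Submodule.mem_inf, Submodule.mem_iInf]
    refine ⟨hF, fun i => ?_⟩
    rw [mem_OrdGE]
    intro s hs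
    have h5 := (mem_OrdGE _ _ _).1 (hf i) s hs
    have h6 := (mem_OrdGE _ _ _).1 (hsub i) s (by omega)
    rw [map_sub, coeff_sub, h5, sub_zero] at h6
    exact h6

end Pool.Agent.MP5769ea
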