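import Pool.Agent.Lib.MP_5769ea_ag.Spec3

open MvPolynomial

namespace Pool.Agent.MP5769ea

theorem WZ_log_mono {a b : WithZero (Multiplicative ℤ)} (ha : a ≠ 0) (h : a ≤ b) :
    WithZero.log a ≤ WithZero.log b := by
  have hb : b ≠ 0 := fun hb => ha (le_antisymm (hb ▸ h) zero_le')
  exact (WithZero.log_le_log ha hb).2 h

theorem sup_ne_zero_of {K ι : Type} [Field K] [Fintype ι]
    (v : Valuation K (WithZero (Multiplicative ℤ))) (w : ι → K) {j : ι} (h : w j ≠ 0) :
    (Finset.univ.sup fun j => v (w j)) ≠ 0 := by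
  intro h0
  have h1 : v (w j) ≤ Finset.univ.sup fun j => v (w j) :=
    Finset.le_sup (f := fun j => v (w j)) (Finset.mem_univ j)
  rw [h0] at h1
  exact (v.ne_zero_iff.2 h) (le_antisymm h1 zero_le')

/-- the norm is attained -/
theorem exists_nrm_eq {K ι : Type} [Field K] [Fintype ι]
    (v : Valuation K (WithZero (Multiplicative ℤ))) (w : ι → K) (hw : w ≠ 0) :
    ∃ j, w j ≠ 0 ∧ nrm v w = WithZero.log (v (w j)) ∧ ∀ k, v (w k) ≤ v (w j) := by
  obtain ⟨j₀, hj₀⟩ := Function.ne_iff.1 hw
  obtain ⟨j, -, hj⟩ := Finset.exists_mem_eq_sup Finset.univ ⟨j₀, Finset.mem_univ _⟩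
    (fun j => v (w j))
  refine ⟨j, ?_, ?_, fun k => ?_⟩
  · intro h
    apply sup_ne_zero_of v w hj₀
    rw [hj, h, map_zero]
  · rw [nrm, hj]
  · rw [← hj]
    exact Finset.le_sup (f := fun j => v (w j)) (Finset.mem_univ k)

theorem nrm_smul {K ι : Type} [Field K] [Fintype ι]
    (v : Valuation K (WithZero (Multiplicative ℤ))) (w : ι → K) (c : K) (hw : w ≠ 0)
    (hc : c ≠ 0) : nrm v (c • w) = WithZero.log (v c) + nrm v w := by
  obtain ⟨j, hj, hj1, hj2⟩ := exists_nrm_eq v w hw
  have hs : (Finset.univ.sup fun k => v ((c • w) k)) = v c * v (w j) := by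
    apply le_antisymm
    · apply Finset.sup_le
      intro k _
      simp only [Pi.smul_apply, smul_eq_mul, map_mul]
      exact mul_le_mul_right (hj2 k) _
    · have := Finset.le_sup (f := fun k => v ((c • w) k)) (Finset.mem_univ j)
      simpa using this
  rw [hj1, nrm, hs, WithZero.log_mul (v.ne_zero_iff.2 hc) (v.ne_zero_iff.2 hj)]

theorem nrm_support (hProd : S_FFProd) (Ω K : Type) [Field Ω] [Field K] [Algebra Ω K]
    [IsAlgClosed Ω] [CharZero Ω] (hFF : IsFF Ω K) (ι : Type) [Fintype ι] (w : ι → K)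
    (hw : w ≠ 0) : (Function.support fun v : Place Ω K => nrm v.1 w).Finite := by
  classical
  -- outside of the places where some nonzero coordinate is not a unit the norm is zero
  have hfin : (⋃ j ∈ {j : ι | w j ≠ 0}, {v : Place Ω K | v.1 (w j) ≠ 1}).Finite := by
    apply Set.Finite.biUnion (Set.toFinite _)
    intro j hj
    exact (hProd Ω K hFF (w j) hj).1
  refine hfin.subset ?_
  intro v hv
  by_contra hcon
  simp only [Set.mem_iUnion, Set.mem_setOf_eq, not_exists, ne_eq, not_not] at hcon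
  apply hv
  obtain ⟨j, hj, hj1, -⟩ := exists_nrm_eq v.1 w hw
  simp only
  rw [hj1, hcon j hj, WithZero.log_one]

theorem FFBasic (hProd : S_FFProd) : S_FFBasic := by
  intro Ω K _ _ _ _ _ hFF
  refine ⟨?_, ?_, fun ι _ w hw => nrm_support hProd Ω K hFF ι w hw⟩
  · intro ι _ w hw
    obtain ⟨j₀, hj₀⟩ := Function.ne_iff.1 hw
    have h1 := hProd Ω K hFF (w j₀) hj₀
    rw [← h1.2]
    have hs1 : (Function.support fun v : Place Ω K => WithZero.log (v.1 (w j₀))).Finite := by
      refine h1.1.subset ?_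
      intro v hv h
      apply hv
      simp only
      rw [h, WithZero.log_one]
    refine finsum_le_finsum' hs1 (nrm_support hProd Ω K hFF ι w hw) ?_
    intro v
    simp only
    rw [nrm]
    exact WZ_log_mono (v.1.ne_zero_iff.2 hj₀)
      (Finset.le_sup (f := fun j => v.1 (w j)) (Finset.mem_univ j₀))
  · intro ι _ w c hw hc
    have h1 := hProd Ω K hFF c hc
    have hs1 : (Function.support fun v : Place Ω K => WithZero.log (v.1 c)).Finite := by
      refine h1.1.subset ?_
      intro v hv h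
      apply hv
      simp only
      rw [h, WithZero.log_one]
    have : pdeg Ω (c • w) = ∑ᶠ v : Place Ω K, (WithZero.log (v.1 c) + nrm v.1 w) :=
      finsum_congr fun v => nrm_smul v.1 w c hw hc
    rw [this, finsum_add_distrib hs1 (nrm_support hProd Ω K hFF ι w hw), h1.2, zero_add]
    rfl

end Pool.Agent.MP5769ea
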