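import Pool.Agent.Lib.MP_5769ea_ag.Spec3

/-!
# MP_5769ea_ag, FFCount: the number of zeros of a nonconstant function
-/

set_option linter.unusedVariables false
set_option linter.unusedSectionVars false

open IsDedekindDomain

namespace Pool.Agent.MP5769ea

namespace FFCountAux

section abs

variable {A K : Type} [CommRing A] [IsDedekindDomain A] [Field K] [Algebra A K]
  [IsFractionRing A K]

/-- a surjective valuation with center `P` is the `P`-adic valuation -/
theorem val_eq (v : Valuation K (WithZero (Multiplicative ℤ))) (hs : Function.Surjective v)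
    (P : HeightOneSpectrum A) (h1 : ∀ a : A, v (algebraMap A K a) ≤ 1)
    (h2 : ∀ a : A, v (algebraMap A K a) < 1 ↔ a ∈ P.asIdeal) : v = P.valuation K := by
  have hd : ∀ d : P.asIdeal.primeCompl, v (algebraMap A K d) = 1 := by
    intro d
    refine le_antisymm (h1 _) (not_lt.1 fun h => ?_)
    exact d.2 ((h2 _).1 h)
  have key : ∀ x : K, P.valuation K x ≤ 1 → v x ≤ 1 := by
    intro x hx
    obtain ⟨n, d, h⟩ := P.exists_primeCompl_mul_eq_of_integer x hx
    have h3 : v x * v (algebraMap A K d) = v (algebraMap A K n) := by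
      rw [← map_mul, h]
    rw [hd d, mul_one] at h3
    rw [h3]
    exact h1 n
  have key1 : ∀ x : K, P.valuation K x = 1 → v x = 1 := by
    intro x hx
    refine le_antisymm (key x hx.le) ?_
    have hx0 : x ≠ 0 := by
      rintro rfl
      rw [map_zero] at hx
      exact zero_ne_one hx
    have h4 := key x⁻¹ (by rw [map_inv₀, hx, inv_one])
    rw [map_inv₀] at h4
    have h5 : v x ≠ 0 := (Valuation.ne_zero_iff v).2 hx0
    exact (inv_le_one₀ (zero_lt_iff.2 h5)).1 h4
  obtain ⟨π, hπ⟩ := P.valuation_exists_uniformizer K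
  have hπ0 : π ≠ 0 := by
    rintro rfl
    rw [map_zero] at hπ
    exact WithZero.exp_ne_zero hπ.symm
  have hvπ0 : v π ≠ 0 := (Valuation.ne_zero_iff v).2 hπ0
  have step : ∀ x : K, x ≠ 0 → v x = (v π) ^ (-(WithZero.log (P.valuation K x))) := by
    intro x hx
    have hPx : P.valuation K x ≠ 0 := (Valuation.ne_zero_iff _).2 hx
    have h6 : P.valuation K (x * π ^ (WithZero.log (P.valuation K x))) = 1 := by
      rw [map_mul, map_zpow₀, hπ]
      conv_lhs => rw [← WithZero.exp_log hPx]
      rw [← WithZero.exp_zsmul, ← WithZero.exp_add]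
      simp
    have h7 := key1 _ h6
    rw [map_mul, map_zpow₀] at h7
    rw [zpow_neg]
    exact eq_inv_of_mul_eq_one_left h7
  have hk : WithZero.log (v π) = -1 := by
    have hle : WithZero.log (v π) ≤ 0 := by
      have h8 : v π ≤ 1 := key π (by
        rw [hπ, ← WithZero.exp_zero]
        exact WithZero.exp_le_exp.2 (by norm_num))
      rw [← WithZero.exp_log hvπ0, ← WithZero.exp_zero, WithZero.exp_le_exp] at h8
      exact h8
    obtain ⟨x, hx⟩ := hs (WithZero.exp (1 : ℤ))
    have hx0 : x ≠ 0 := by
      rintro rfl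
      rw [map_zero] at hx
      exact WithZero.exp_ne_zero hx.symm
    have h9 := step x hx0
    rw [hx] at h9
    have h10 : (1 : ℤ) = -(WithZero.log (P.valuation K x)) * WithZero.log (v π) := by
      have := congrArg WithZero.log h9
      rw [WithZero.log_exp, WithZero.log_zpow] at this
      simpa using this
    have h11 : WithZero.log (v π) = 1 ∨ WithZero.log (v π) = -1 :=
      Int.isUnit_iff.1 (IsUnit.of_mul_eq_one_right _ h10.symm)
    omega
  have hvπ : v π = WithZero.exp (-1 : ℤ) := by
    rw [← WithZero.exp_log hvπ0, hk]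
  ext x
  by_cases hx : x = 0
  · rw [hx, map_zero, map_zero]
  · have hPx : P.valuation K x ≠ 0 := (Valuation.ne_zero_iff _).2 hx
    rw [step x hx, hvπ, ← WithZero.exp_zsmul]
    conv_rhs => rw [← WithZero.exp_log hPx]
    simp

/-- the center of a valuation -/
theorem exists_center (v : Valuation K (WithZero (Multiplicative ℤ)))
    (h1 : ∀ a : A, v (algebraMap A K a) ≤ 1) (a0 : A) (ha0 : a0 ≠ 0)
    (hv : v (algebraMap A K a0) < 1) :
    ∃ P : HeightOneSpectrum A, ∀ a, v (algebraMap A K a) < 1 ↔ a ∈ P.asIdeal := by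
  let I : Ideal A :=
    { carrier := {a | v (algebraMap A K a) < 1}
      add_mem' := by
        intro a b ha hb
        show v (algebraMap A K (a + b)) < 1
        rw [map_add]
        exact Valuation.map_add_lt v ha hb
      zero_mem' := by
        show v (algebraMap A K 0) < 1
        rw [map_zero, map_zero]
        exact zero_lt_one
      smul_mem' := by
        intro c a ha
        show v (algebraMap A K (c * a)) < 1
        rw [map_mul, map_mul]
        exact mul_lt_one_of_nonneg_of_lt_one_right (h1 c) zero_le ha }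
  have hI : ∀ a, a ∈ I ↔ v (algebraMap A K a) < 1 := fun a => Iff.rfl
  have hprime : I.IsPrime := by
    refine ⟨?_, ?_⟩
    · rw [Ideal.ne_top_iff_one, hI, map_one, map_one]
      exact lt_irrefl _
    · intro a b hab
      rw [hI, map_mul, map_mul] at hab
      rw [hI, hI]
      by_contra hcon
      push Not at hcon
      have e1 := le_antisymm (h1 a) hcon.1
      have e2 := le_antisymm (h1 b) hcon.2
      rw [e1, e2, mul_one] at hab
      exact lt_irrefl _ hab
  refine ⟨⟨I, hprime, ?_⟩, fun a => (hI a).symm⟩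
  intro hbot
  have : a0 ∈ I := hv
  rw [hbot, Ideal.mem_bot] at this
  exact ha0 this

end abs

section main

variable {Ω R F A K : Type} [Field Ω] [IsAlgClosed Ω] [CommRing R] [IsDedekindDomain R]
  [Field F] [CommRing A] [IsDedekindDomain A] [Field K]
  [Algebra Ω R] [Algebra R F] [Algebra R A] [Algebra R K] [Algebra A K] [Algebra F K]
  [Algebra Ω K] [IsScalarTower Ω R K] [IsFractionRing R F] [IsFractionRing A K]
  [IsScalarTower R A K] [IsScalarTower R F K] [Module.Finite R A]

/-- the place of a prime -/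
noncomputable def plc (Ω : Type) {R A : Type} (K : Type) [Field Ω] [CommRing R] [CommRing A]
    [IsDedekindDomain A] [Field K] [Algebra Ω R] [Algebra R A] [Algebra R K] [Algebra A K]
    [Algebra Ω K] [IsScalarTower Ω R K] [IsFractionRing A K] [IsScalarTower R A K]
    (P : HeightOneSpectrum A) : Place Ω K :=
  ⟨P.valuation K, P.valuation_surjective K, fun c => by
    rw [IsScalarTower.algebraMap_apply Ω R K, IsScalarTower.algebraMap_apply R A K]
    exact P.valuation_le_one _⟩

theorem inertia_one (fR : R) (hmax : (Ideal.span {fR}).IsMaximal)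
    (hsurj : Function.Surjective ((Ideal.Quotient.mk (Ideal.span {fR})).comp (algebraMap Ω R)))
    (P : Ideal A) [P.IsPrime] [P.LiesOver (Ideal.span {fR})] :
    Ideal.inertiaDeg' (Ideal.span {fR}) P = 1 := by
  rw [Ideal.inertiaDeg'_algebraMap]
  letI : Field (R ⧸ Ideal.span {fR}) := Ideal.Quotient.field _
  have hint : (algebraMap (R ⧸ Ideal.span {fR}) (A ⧸ P)).IsIntegral := by
    intro x
    obtain ⟨a, rfl⟩ := Ideal.Quotient.mk_surjective x
    have ha : IsIntegral R a := Algebra.IsIntegral.isIntegral a
    exact (ha.map (Ideal.Quotient.mkₐ R P)).tower_top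
  have hint1 : ((Ideal.Quotient.mk (Ideal.span {fR})).comp (algebraMap Ω R)).IsIntegral :=
    RingHom.isIntegral_of_surjective _ hsurj
  have hbij := IsAlgClosed.ringHom_bijective_of_isIntegral _ (RingHom.IsIntegral.trans _ _ hint1 hint)
  have hsurj2 : Function.Surjective (algebraMap (R ⧸ Ideal.span {fR}) (A ⧸ P)) := by
    intro y
    obtain ⟨x, hx⟩ := hbij.2 y
    exact ⟨((Ideal.Quotient.mk (Ideal.span {fR})).comp (algebraMap Ω R)) x, hx⟩
  rw [finrank_eq_one_iff_of_nonzero' (1 : A ⧸ P) one_ne_zero]
  intro w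
  obtain ⟨c, hc⟩ := hsurj2 w
  exact ⟨c, by rw [Algebra.smul_def, mul_one, hc]⟩

theorem inj_RA (R F A K : Type) [CommRing R] [Field F] [CommRing A] [Field K] [Algebra R F]
    [Algebra R A] [Algebra R K] [Algebra A K] [Algebra F K] [IsFractionRing R F]
    [IsScalarTower R A K] [IsScalarTower R F K] : Function.Injective (algebraMap R A) := by
  have h1 : Function.Injective (algebraMap R K) := by
    rw [IsScalarTower.algebraMap_eq R F K, RingHom.coe_comp]
    exact (algebraMap F K).injective.comp (IsFractionRing.injective R F)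
  rw [IsScalarTower.algebraMap_eq R A K, RingHom.coe_comp] at h1
  exact h1.of_comp

theorem val_plc (fR : R) (hf0 : algebraMap R A fR ≠ 0) (P : HeightOneSpectrum A) :
    P.valuation K (algebraMap R K fR) =
      WithZero.exp (-(Ideal.ramificationIdx' (Ideal.span {fR}) P.asIdeal : ℤ)) := by
  have hb : Ideal.map (algebraMap R A) (Ideal.span {fR}) ≠ ⊥ := by
    rw [Ideal.map_span, Set.image_singleton, Ne, Ideal.span_singleton_eq_bot]
    exact hf0
  rw [IsScalarTower.algebraMap_apply R A K, P.valuation_of_algebraMap,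
    P.intValuation_eq_exp_neg_multiplicity hf0,
    Ideal.IsDedekindDomain.ramificationIdx'_eq_multiplicity hb P.isPrime, Ideal.map_span,
    Set.image_singleton]

variable (F A) in
theorem abs_main (fR : R) (hf0 : fR ≠ 0) (hmax : (Ideal.span {fR}).IsMaximal)
    (hsurj : Function.Surjective ((Ideal.Quotient.mk (Ideal.span {fR})).comp (algebraMap Ω R)))
    (hv1 : ∀ v : Valuation K (WithZero (Multiplicative ℤ)),
      (∀ c : Ω, v (algebraMap Ω K c) ≤ 1) → v (algebraMap R K fR) < 1 →
        ∀ a : A, v (algebraMap A K a) ≤ 1) :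
    {v : Place Ω K | v.1 (algebraMap R K fR) < 1}.Finite ∧
    ∑ᶠ v : {v : Place Ω K // v.1 (algebraMap R K fR) < 1},
      (-(WithZero.log (v.1.1 (algebraMap R K fR))) : ℤ) = Module.finrank F K := by
  have hinj : Function.Injective (algebraMap R A) := inj_RA R F A K
  have hfA : algebraMap R A fR ≠ 0 := fun h => hf0 (hinj (by rw [h, map_zero]))
  have hp0 : Ideal.span {fR} ≠ (⊥ : Ideal R) := by
    rw [Ne, Ideal.span_singleton_eq_bot]
    exact hf0
  haveI : Module.IsTorsionFree R A := by
    rw [Module.isTorsionFree_iff_algebraMap_injective]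
    exact hinj
  have hmem : ∀ P : {P // P ∈ IsDedekindDomain.primesOverFinset (Ideal.span {fR}) A},
      P.1.IsPrime ∧ P.1.LiesOver (Ideal.span {fR}) := fun P =>
    (IsDedekindDomain.mem_primesOverFinset_iff hp0 _).1 P.2
  have hlt : ∀ (P : Ideal A) (h1 : P.IsPrime) (h2 : P.LiesOver (Ideal.span {fR})),
      ∀ hb : P ≠ ⊥, (⟨P, h1, hb⟩ : HeightOneSpectrum A).valuation K (algebraMap R K fR) < 1 := by
    intro P h1 h2 hb
    rw [IsScalarTower.algebraMap_apply R A K, HeightOneSpectrum.valuation_lt_one_iff_mem]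
    exact (Ideal.mem_of_liesOver P (Ideal.span {fR}) fR).1 (Ideal.mem_span_singleton_self fR)
  have hbot : ∀ (P : Ideal A) (h2 : P.LiesOver (Ideal.span {fR})), P ≠ ⊥ := fun P h2 =>
    Ideal.ne_bot_of_liesOver_of_ne_bot hp0 P
  -- the map from the primes to the places
  let g : {P // P ∈ IsDedekindDomain.primesOverFinset (Ideal.span {fR}) A} →
      {v : Place Ω K // v.1 (algebraMap R K fR) < 1} := fun P =>
    ⟨plc (R := R) Ω K ⟨P.1, (hmem P).1, hbot P.1 (hmem P).2⟩,
      hlt P.1 (hmem P).1 (hmem P).2 (hbot P.1 (hmem P).2)⟩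
  have hginj : Function.Injective g := by
    intro P Q hPQ
    have h1 : (g P).1.1 = (g Q).1.1 := by rw [hPQ]
    have h2 := HeightOneSpectrum.eq_of_valuation_isEquiv_valuation (K := K)
      (p := ⟨P.1, (hmem P).1, hbot P.1 (hmem P).2⟩) (q := ⟨Q.1, (hmem Q).1, hbot Q.1 (hmem Q).2⟩)
      (Valuation.IsEquiv.of_eq h1)
    apply Subtype.ext
    exact congrArg HeightOneSpectrum.asIdeal h2
  have hgsurj : Function.Surjective g := by
    rintro ⟨⟨v, hvs, hvc⟩, hvf⟩
    have hv2 := hv1 v hvc hvf
    have hvf' : v (algebraMap A K (algebraMap R A fR)) < 1 := by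
      rw [← IsScalarTower.algebraMap_apply]
      exact hvf
    obtain ⟨P, hP⟩ := exists_center v hv2 (algebraMap R A fR) hfA hvf'
    have hover : P.asIdeal.LiesOver (Ideal.span {fR}) := by
      constructor
      refine hmax.eq_of_le ?_ ?_
      · exact (Ideal.IsPrime.under R P.asIdeal).ne_top
      · rw [Ideal.span_singleton_le_iff_mem]
        exact (hP _).1 hvf'
    refine ⟨⟨P.asIdeal, (IsDedekindDomain.mem_primesOverFinset_iff hp0 _).2
      ⟨P.isPrime, hover⟩⟩, ?_⟩
    apply Subtype.ext
    apply Subtype.ext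
    exact (val_eq v hvs P hv2 hP).symm
  have hgbij : Function.Bijective g := ⟨hginj, hgsurj⟩
  constructor
  · have hfin : Finite {v : Place Ω K // v.1 (algebraMap R K fR) < 1} :=
      Finite.of_surjective g hgsurj
    exact (Set.finite_coe_iff (s := {v : Place Ω K | v.1 (algebraMap R K fR) < 1})).1 hfin
  · have hval : ∀ P : {P // P ∈ IsDedekindDomain.primesOverFinset (Ideal.span {fR}) A},
        ((Ideal.ramificationIdx' (Ideal.span {fR}) P.1 *
          Ideal.inertiaDeg' (Ideal.span {fR}) P.1 : ℕ) : ℤ) =
        -(WithZero.log ((g P).1.1 (algebraMap R K fR))) := by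
      intro P
      haveI := (hmem P).1
      haveI := (hmem P).2
      rw [inertia_one (Ω := Ω) fR hmax hsurj P.1, mul_one]
      have h3 := val_plc (K := K) fR hfA ⟨P.1, (hmem P).1, hbot P.1 (hmem P).2⟩
      show _ = -(WithZero.log (HeightOneSpectrum.valuation K
        ⟨P.1, (hmem P).1, hbot P.1 (hmem P).2⟩ (algebraMap R K fR)))
      rw [h3, WithZero.log_exp, neg_neg]
    rw [← finsum_eq_of_bijective g hgbij hval, finsum_eq_sum_of_fintype,
      ← Ideal.sum_ramification_inertia A F K hp0, ← Nat.cast_sum, Finset.sum_coe_sort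
        (IsDedekindDomain.primesOverFinset (Ideal.span {fR}) A)
        (fun P => Ideal.ramificationIdx' (Ideal.span {fR}) P *
          Ideal.inertiaDeg' (Ideal.span {fR}) P)]

end main

/-- the valuation is at most 1 on the integral closure -/
theorem le_one_integral {Ω K : Type} [Field Ω] [Field K] [Algebra Ω K] (f : K)
    (v : Valuation K (WithZero (Multiplicative ℤ)))
    (hc : ∀ c : Ω, v (algebraMap Ω K c) ≤ 1) (hf : v f ≤ 1) (x : K)
    (hx : IsIntegral (Algebra.adjoin Ω {f}) x) : v x ≤ 1 := by
  have h1 : ∀ y : Algebra.adjoin Ω {f}, v (y : K) ≤ 1 := by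
    intro y
    refine Algebra.adjoin_induction (p := fun z _ => v z ≤ 1) ?_ ?_ ?_ ?_ y.2
    · intro z hz
      rw [Set.mem_singleton_iff.1 hz]
      exact hf
    · exact hc
    · intro a b _ _ ha hb
      exact Valuation.map_add_le v ha hb
    · intro a b _ _ ha hb
      rw [map_mul]
      exact mul_le_one' ha hb
  let φ : Algebra.adjoin Ω {f} →+* v.integer :=
    { toFun := fun y => ⟨(y : K), h1 y⟩
      map_one' := rfl
      map_mul' := fun _ _ => rfl
      map_zero' := rfl
      map_add' := fun _ _ => rfl }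
  have h2 : IsIntegral v.integer x := by
    refine IsIntegral.map_of_comp_eq φ (RingHom.id K) ?_ hx
    rfl
  exact Valuation.Integers.mem_of_integral (Valuation.integer.integers v) h2

end FFCountAux

open FFCountAux in
open IntermediateField.algebraAdjoinAdjoin in
theorem FFCount : S_FFCount := by
  intro Ω K _ _ _ _ _ f hf hfin
  classical
  let e := Polynomial.algEquivOfTranscendental Ω f hf
  have hPID : IsPrincipalIdealRing (Algebra.adjoin Ω {f}) :=
    IsPrincipalIdealRing.of_surjective e.toRingEquiv.toRingHom e.toRingEquiv.surjective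
  have hDed : IsDedekindDomain (Algebra.adjoin Ω {f}) := inferInstance
  have hchar : CharZero (IntermediateField.adjoin Ω {f}) :=
    charZero_of_injective_algebraMap (algebraMap Ω (IntermediateField.adjoin Ω {f})).injective
  have hsep : Algebra.IsSeparable (IntermediateField.adjoin Ω {f}) K := inferInstance
  have hfinA : Module.Finite (Algebra.adjoin Ω {f}) (integralClosure (Algebra.adjoin Ω {f}) K) :=
    IsIntegralClosure.finite (Algebra.adjoin Ω {f}) (IntermediateField.adjoin Ω {f}) K _
  have hDedA : IsDedekindDomain (integralClosure (Algebra.adjoin Ω {f}) K) :=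
    IsIntegralClosure.isDedekindDomain (Algebra.adjoin Ω {f}) (IntermediateField.adjoin Ω {f}) K _
  have hfrA : IsFractionRing (integralClosure (Algebra.adjoin Ω {f}) K) K :=
    IsIntegralClosure.isFractionRing_of_finite_extension (Algebra.adjoin Ω {f})
      (IntermediateField.adjoin Ω {f}) K _
  let fR : Algebra.adjoin Ω {f} := ⟨f, Algebra.self_mem_adjoin_singleton Ω f⟩
  have heX : e Polynomial.X = fR := Polynomial.algEquivOfTranscendental_apply_X Ω f hf
  have hirr : Irreducible fR := by
    rw [← heX]
    exact (MulEquiv.irreducible_iff e).2 Polynomial.irreducible_X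
  have hmax : (Ideal.span {fR}).IsMaximal := PrincipalIdealRing.isMaximal_of_irreducible hirr
  have hsurj : Function.Surjective
      ((Ideal.Quotient.mk (Ideal.span {fR})).comp (algebraMap Ω (Algebra.adjoin Ω {f}))) := by
    intro y
    obtain ⟨r, rfl⟩ := Ideal.Quotient.mk_surjective y
    obtain ⟨g, rfl⟩ := e.surjective r
    refine ⟨g.coeff 0, ?_⟩
    rw [RingHom.comp_apply, Ideal.Quotient.eq]
    have h1 : e g = e g.divX * fR + algebraMap Ω (Algebra.adjoin Ω {f}) (g.coeff 0) := by
      conv_lhs => rw [← Polynomial.divX_mul_X_add g]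
      rw [map_add, map_mul, heX, ← Polynomial.algebraMap_eq, AlgEquiv.commutes]
    rw [h1, Ideal.mem_span_singleton]
    exact ⟨-(e g.divX), by ring⟩
  exact abs_main (Ω := Ω) (IntermediateField.adjoin Ω {f})
    (integralClosure (Algebra.adjoin Ω {f}) K) fR hirr.ne_zero hmax hsurj
    (fun v hc hv a => le_one_integral f v hc hv.le _ a.2)

end Pool.Agent.MP5769ea
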