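import Pool.Agent.Lib.MP_5769ea_ag.Spec3

/-!
# MP_5769ea_ag : `pdeg` and finite extensions
-/

set_option autoImplicit false

namespace Pool.Agent.MP5769ea

namespace FFExtAux

section flds

variable {Ω K K' : Type} [Field Ω] [Field K] [Field K'] [Algebra Ω K] [Algebra K K']
  [Algebra Ω K'] [IsScalarTower Ω K K']

/-- `K` is finite over `Ω(g)` -/
theorem finOver (h : IsFF Ω K) {g : K} (hg : Transcendental Ω g) :
    FiniteDimensional (IntermediateField.adjoin Ω {g}) K := by
  obtain ⟨t, ht, hfin⟩ := h
  have h1 : Algebra.EssFiniteType Ω (IntermediateField.adjoin Ω {t}) :=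
    IntermediateField.essFiniteType_iff.2
      (IntermediateField.fg_adjoin_of_finite (Set.finite_singleton t))
  have h2 : Algebra.EssFiniteType (IntermediateField.adjoin Ω {t}) K := inferInstance
  have h3 : Algebra.EssFiniteType Ω K :=
    Algebra.EssFiniteType.comp Ω (IntermediateField.adjoin Ω {t}) K
  have h4 : Algebra.EssFiniteType (IntermediateField.adjoin Ω {g}) K :=
    Algebra.EssFiniteType.of_comp Ω _ K
  have h5 : Algebra.IsAlgebraic (Algebra.adjoin Ω {t}) K :=
    IntermediateField.isAlgebraic_adjoin_iff_top.1 inferInstance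
  have h6 : Algebra.trdeg Ω K ≤ 1 := by
    have := Algebra.IsAlgebraic.trdeg_le_cardinalMk Ω ({t} : Set K)
    simpa using this
  have h7 : AlgebraicIndependent Ω (fun _ : Unit => g) :=
    algebraicIndependent_unique_type_iff.2 hg
  have h8 := h7.isTranscendenceBasis_of_trdeg_le_of_finite (by simpa using h6)
  have h9 := h8.isAlgebraic_field
  have hr : Set.range (fun _ : Unit => g) = {g} := Set.range_const
  rw [hr] at h9
  exact Algebra.finite_of_essFiniteType_of_isAlgebraic

theorem finrank_ext (u : K) :
    Module.finrank (IntermediateField.adjoin Ω {algebraMap K K' u}) K' =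
      Module.finrank K K' * Module.finrank (IntermediateField.adjoin Ω {u}) K := by
  have hmap : (IntermediateField.adjoin Ω {u}).map (IsScalarTower.toAlgHom Ω K K') =
      IntermediateField.adjoin Ω {algebraMap K K' u} := by
    rw [IntermediateField.adjoin_map, Set.image_singleton]
    rfl
  rw [mul_comm, Module.finrank_mul_finrank, ← hmap]
  symm
  refine Algebra.finrank_eq_of_equiv_equiv
    (IntermediateField.equivMap (IntermediateField.adjoin Ω {u})
      (IsScalarTower.toAlgHom Ω K K')).toRingEquiv (RingEquiv.refl K') ?_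
  ext x
  rfl

end flds

end FFExtAux

end Pool.Agent.MP5769ea
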