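import Pool.Agent.Lib.MP_5769ea_ag.Spec3
import Pool.Agent.Lib.MP_5769ea_ag.FFExtFin

/-!
# MP_5769ea_ag : `pdeg` and finite extensions
-/

set_option autoImplicit false

namespace Pool.Agent.MP5769ea

namespace FFExtAux

section vals

variable {Ω K : Type} [Field Ω] [Field K] [Algebra Ω K]

theorem place_smul (v : Place Ω K) (c : Ω) (x : K) : v.1 (c • x) ≤ v.1 x := by
  rw [Algebra.smul_def, map_mul]
  exact mul_le_of_le_one_left' (v.2.2 c)

/-- the linear combination of the entries of `w` -/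
noncomputable def lc {ι : Type} [Fintype ι] (w : ι → K) : (ι → Ω) →ₗ[Ω] K :=
  Fintype.linearCombination Ω w

theorem lc_apply {ι : Type} [Fintype ι] (w : ι → K) (c : ι → Ω) :
    lc w c = ∑ j, c j • w j := Fintype.linearCombination_apply Ω w c

theorem lc_le {ι : Type} [Fintype ι] (w : ι → K) (c : ι → Ω) (v : Place Ω K) :
    v.1 (lc w c) ≤ Finset.univ.sup fun j => v.1 (w j) := by
  rw [lc_apply]
  refine Valuation.map_sum_le _ fun j hj => ?_
  exact (place_smul v _ _).trans (Finset.le_sup (f := fun j => v.1 (w j)) hj)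

theorem sup_pos {ι : Type} [Fintype ι] (w : ι → K) (hw : w ≠ 0) (v : Place Ω K) :
    0 < Finset.univ.sup fun j => v.1 (w j) := by
  obtain ⟨j, hj⟩ := Function.ne_iff.1 hw
  have h1 : 0 < v.1 (w j) := by
    rw [zero_lt_iff]
    exact (Valuation.ne_zero_iff _).2 hj
  exact h1.trans_le (Finset.le_sup (f := fun j => v.1 (w j)) (Finset.mem_univ j))

/-- the constants for which the linear combination is too small at `v` -/
def bad {ι : Type} [Fintype ι] (w : ι → K) (hw : w ≠ 0) (v : Place Ω K) :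
    Submodule Ω (ι → Ω) where
  carrier := {c | v.1 (lc w c) < Finset.univ.sup fun j => v.1 (w j)}
  add_mem' {a b} ha hb := by
    show v.1 (lc w (a + b)) < _
    rw [map_add]
    exact Valuation.map_add_lt _ ha hb
  zero_mem' := by
    show v.1 (lc w 0) < _
    rw [map_zero, map_zero]
    exact sup_pos w hw v
  smul_mem' r a ha := by
    show v.1 (lc w (r • a)) < _
    rw [map_smul]
    exact (place_smul v _ _).trans_lt ha

theorem mem_bad {ι : Type} [Fintype ι] (w : ι → K) (hw : w ≠ 0) (v : Place Ω K) (c : ι → Ω) :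
    c ∈ bad w hw v ↔ v.1 (lc w c) < Finset.univ.sup fun j => v.1 (w j) := Iff.rfl

theorem bad_ne_top {ι : Type} [Fintype ι] (w : ι → K) (hw : w ≠ 0) (v : Place Ω K) :
    bad w hw v ≠ ⊤ := by
  classical
  intro h
  obtain ⟨j0, -⟩ := Function.ne_iff.1 hw
  obtain ⟨j, -, hj⟩ := Finset.exists_mem_eq_sup (Finset.univ : Finset ι) ⟨j0, Finset.mem_univ _⟩
    (fun j => v.1 (w j))
  have h1 : (Pi.single j (1 : Ω)) ∈ bad w hw v := by rw [h]; trivial
  rw [mem_bad, hj, lc_apply] at h1
  have h2 : ∑ i, (Pi.single j (1 : Ω) : ι → Ω) i • w i = w j := by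
    rw [Finset.sum_eq_single j]
    · rw [Pi.single_eq_same, one_smul]
    · intro i _ hi
      rw [Pi.single_eq_of_ne hi, zero_smul]
    · intro h
      exact absurd (Finset.mem_univ j) h
  rw [h2] at h1
  exact lt_irrefl _ h1

theorem not_bad {ι : Type} [Fintype ι] {w : ι → K} {hw : w ≠ 0} {v : Place Ω K} {c : ι → Ω}
    (h : c ∉ bad w hw v) : v.1 (lc w c) = Finset.univ.sup fun j => v.1 (w j) := by
  rw [mem_bad, not_lt] at h
  exact le_antisymm (lc_le w c v) h

/-- the places where some entry is not a unit -/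
def S {ι : Type} [Fintype ι] (w : ι → K) : Set (Place Ω K) := {v | ∃ j, w j ≠ 0 ∧ v.1 (w j) ≠ 1}

theorem sup_eq_one {ι : Type} [Fintype ι] (w : ι → K) (hw : w ≠ 0) (v : Place Ω K)
    (hv : v ∉ S w) : (Finset.univ.sup fun j => v.1 (w j)) = 1 := by
  have h1 : ∀ j, w j ≠ 0 → v.1 (w j) = 1 := by
    intro j hj
    by_contra h
    exact hv ⟨j, hj, h⟩
  apply le_antisymm
  · refine Finset.sup_le fun j _ => ?_
    by_cases hj : w j = 0
    · rw [hj, map_zero]
      exact zero_le_one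
    · exact (h1 j hj).le
  · obtain ⟨j, hj⟩ := Function.ne_iff.1 hw
    have := Finset.le_sup (f := fun j => v.1 (w j)) (Finset.mem_univ j)
    rwa [h1 j hj] at this

end vals

section cnt

variable {Ω K : Type} [Field Ω] [Field K] [Algebra Ω K] [IsAlgClosed Ω] [CharZero Ω]

theorem S_finite (hP : S_FFProd) (hK : IsFF Ω K) {ι : Type} [Fintype ι] (w : ι → K) :
    (S (Ω := Ω) w).Finite := by
  have h : S (Ω := Ω) w ⊆ ⋃ j : {j : ι // w j ≠ 0}, {v : Place Ω K | v.1 (w j.1) ≠ 1} := by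
    rintro v ⟨j, hj, hv⟩
    exact Set.mem_iUnion.2 ⟨⟨j, hj⟩, hv⟩
  refine Set.Finite.subset (Set.finite_iUnion fun j => ?_) h
  exact (hP Ω K hK _ j.2).1

/-- the number of poles of `h` -/
noncomputable def poles (Ω : Type) {K : Type} [Field Ω] [Field K] [Algebra Ω K] (h : K) : ℤ :=
  ∑ᶠ v : Place Ω K, WithZero.log (max 1 (v.1 h))

theorem poles_supp (hP : S_FFProd) (hK : IsFF Ω K) (h : K) :
    (Function.support fun v : Place Ω K => WithZero.log (max 1 (v.1 h))).Finite := by
  by_cases h0 : h = 0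
  · convert Set.finite_empty
    rw [Function.support_eq_empty_iff]
    funext v
    rw [h0, map_zero, max_eq_left zero_le_one, WithZero.log_one]
    rfl
  · refine (hP Ω K hK h h0).1.subset fun v hv => ?_
    by_contra hv'
    have h1 : v.1 h = 1 := by
      by_contra h2
      exact hv' h2
    rw [Function.mem_support, h1, max_self, WithZero.log_one] at hv
    exact hv rfl

/-- `pdeg` in terms of two linear combinations of the entries -/
theorem pdeg_eq (hP : S_FFProd) (hK : IsFF Ω K) {ι : Type} [Fintype ι] (w : ι → K) (f f' : K)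
    (hf : f ≠ 0) (hsup : ∀ v : Place Ω K, (Finset.univ.sup fun j => v.1 (w j)) =
      max (v.1 f) (v.1 f')) : pdeg Ω w = poles Ω (f' / f) := by
  have h1 : ∀ v : Place Ω K, nrm v.1 w =
      WithZero.log (v.1 f) + WithZero.log (max 1 (v.1 (f' / f))) := by
    intro v
    have hvf : v.1 f ≠ 0 := (Valuation.ne_zero_iff _).2 hf
    have hm : max (v.1 f) (v.1 f') = v.1 f * max 1 (v.1 (f' / f)) := by
      rw [mul_max, mul_one, ← map_mul, mul_div_cancel₀ _ hf]
    unfold nrm
    rw [hsup, hm, WithZero.log_mul hvf]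
    exact (lt_of_lt_of_le zero_lt_one (le_max_left _ _)).ne'
  unfold pdeg poles
  rw [finsum_congr h1, finsum_add_distrib, (hP Ω K hK f hf).2, zero_add]
  · refine (hP Ω K hK f hf).1.subset fun v hv => ?_
    by_contra hv'
    have h1 : v.1 f = 1 := by
      by_contra h2
      exact hv' h2
    rw [Function.mem_support, h1, WithZero.log_one] at hv
    exact hv rfl
  · exact poles_supp hP hK _

omit [CharZero Ω] in
theorem poles_alg {h : K} (hh : IsAlgebraic Ω h) : poles Ω h = 0 := by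
  have hd := IsAlgClosed.degree_eq_one_of_irreducible Ω (minpoly.irreducible hh.isIntegral)
  obtain ⟨c, hc⟩ := minpoly.mem_range_of_degree_eq_one Ω h hd
  have h1 : ∀ v : Place Ω K, WithZero.log (max 1 (v.1 h)) = 0 := by
    intro v
    rw [← hc, max_eq_left (v.2.2 c), WithZero.log_one]
  unfold poles
  rw [finsum_congr h1, finsum_zero]

theorem poles_trans (hC : S_FFCount) (hK : IsFF Ω K) {h : K} (hh : Transcendental Ω h) :
    poles Ω h = Module.finrank (IntermediateField.adjoin Ω {h⁻¹}) K := by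
  have hi : Transcendental Ω h⁻¹ := by
    intro h1
    apply hh
    have := h1.inv
    rwa [inv_inv] at this
  have h0 : h ≠ 0 := by
    rintro rfl
    exact hh isAlgebraic_zero
  rw [← (hC Ω K h⁻¹ hi (finOver hK hi)).2]
  have e1 : (∑ᶠ v : {v : Place Ω K // v.1 h⁻¹ < 1}, (-(WithZero.log (v.1.1 h⁻¹)) : ℤ)) =
      ∑ᶠ v : Place Ω K, Set.indicator {v : Place Ω K | v.1 h⁻¹ < 1}
        (fun v => (-(WithZero.log (v.1 h⁻¹)) : ℤ)) v :=
    (finsum_set_coe_eq_finsum_mem (f := fun v : Place Ω K => (-(WithZero.log (v.1 h⁻¹)) : ℤ))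
      {v : Place Ω K | v.1 h⁻¹ < 1}).trans (finsum_mem_def _ _)
  rw [e1]
  unfold poles
  refine finsum_congr fun v => ?_
  have hv0 : v.1 h ≠ 0 := (Valuation.ne_zero_iff _).2 h0
  have hvp : 0 < v.1 h := zero_lt_iff.2 hv0
  by_cases hv : v.1 h⁻¹ < 1
  · rw [Set.indicator_of_mem (by exact hv)]
    rw [map_inv₀] at hv
    rw [map_inv₀, WithZero.log_inv, neg_neg, max_eq_right]
    exact ((inv_lt_one₀ hvp).1 hv).le
  · rw [Set.indicator_of_notMem (by exact hv)]
    rw [map_inv₀, not_lt] at hv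
    rw [max_eq_left ((one_le_inv₀ hvp).1 hv), WithZero.log_one]

end cnt

section ext

variable {Ω K K' : Type} [Field Ω] [Field K] [Field K'] [Algebra Ω K] [Algebra K K']
  [Algebra Ω K'] [IsScalarTower Ω K K']

theorem isFF_ext [FiniteDimensional K K'] (h : IsFF Ω K) : IsFF Ω K' := by
  obtain ⟨t, ht, hfin⟩ := h
  refine ⟨algebraMap K K' t,
    (transcendental_algebraMap_iff (algebraMap K K').injective).2 ht, ?_⟩
  apply FiniteDimensional.of_finrank_pos
  rw [finrank_ext]
  exact Nat.mul_pos Module.finrank_pos Module.finrank_pos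

theorem lc_ext {ι : Type} [Fintype ι] (w : ι → K) (c : ι → Ω) :
    lc (fun j => algebraMap K K' (w j)) c = algebraMap K K' (lc w c) := by
  rw [lc_apply, lc_apply, map_sum]
  refine Finset.sum_congr rfl fun j _ => ?_
  rw [Algebra.smul_def, Algebra.smul_def, map_mul, ← IsScalarTower.algebraMap_apply]

theorem pick [Infinite Ω] {ι : Type} [Fintype ι] (w : ι → K) (hw : w ≠ 0) (w' : ι → K')
    (hw' : w' ≠ 0) (hS : (S (Ω := Ω) w).Finite) (hS' : (S (Ω := Ω) w').Finite) :
    ∃ c : ι → Ω, (∀ v ∈ S (Ω := Ω) w, c ∉ bad w hw v) ∧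
      (∀ v ∈ S (Ω := Ω) w', c ∉ bad w' hw' v) := by
  have : Finite (S (Ω := Ω) w) := hS
  have : Finite (S (Ω := Ω) w') := hS'
  by_contra hcon
  push Not at hcon
  have hcov : ⋃ i : S (Ω := Ω) w ⊕ S (Ω := Ω) w',
      ((Sum.elim (fun v => bad w hw v.1) (fun v => bad w' hw' v.1) i : Submodule Ω (ι → Ω)) :
        Set (ι → Ω)) = Set.univ := by
    rw [Set.eq_univ_iff_forall]
    intro c
    rw [Set.mem_iUnion]
    by_cases h : ∀ v ∈ S (Ω := Ω) w, c ∉ bad w hw v
    · obtain ⟨v, hv, hc⟩ := hcon c h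
      exact ⟨Sum.inr ⟨v, hv⟩, hc⟩
    · push Not at h
      obtain ⟨v, hv, hc⟩ := h
      exact ⟨Sum.inl ⟨v, hv⟩, hc⟩
  obtain ⟨i, hi⟩ := Subspace.exists_eq_top_of_iUnion_eq_univ hcov
  rcases i with v | v
  · exact bad_ne_top w hw v.1 hi
  · exact bad_ne_top w' hw' v.1 hi

/-- the maximum of the entries is attained by two linear combinations -/
theorem sup_eq {ι : Type} [Fintype ι] (w : ι → K) (hw : w ≠ 0) (c : ι → Ω)
    (hc : ∀ v ∈ S (Ω := Ω) w, c ∉ bad w hw v) (j0 : ι) (hj : w j0 ≠ 0) (v : Place Ω K) :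
    (Finset.univ.sup fun j => v.1 (w j)) = max (v.1 (w j0)) (v.1 (lc w c)) := by
  have h1 := lc_le w c v
  have h2 := Finset.le_sup (f := fun j => v.1 (w j)) (Finset.mem_univ j0)
  by_cases hv : v ∈ S w
  · have h3 := not_bad (hc v hv)
    rw [← h3] at h2 ⊢
    rw [max_eq_right h2]
  · have h3 := sup_eq_one w hw v hv
    have h4 : v.1 (w j0) = 1 := by
      by_contra h
      exact hv ⟨j0, hj, h⟩
    rw [h3] at h1 ⊢
    rw [h4, max_eq_left h1]

end ext

end FFExtAux

open FFExtAux in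
theorem FFExt (hC : S_FFCount) (hP : S_FFProd) : S_FFExt := by
  intro Ω K K' _ _ _ _ _ _ _ _ _ _ hK
  have hK' : IsFF Ω K' := isFF_ext hK
  refine ⟨hK', ?_⟩
  intro ι _ w hw
  have hw' : (fun j => algebraMap K K' (w j)) ≠ 0 := by
    obtain ⟨j, hj⟩ := Function.ne_iff.1 hw
    refine Function.ne_iff.2 ⟨j, ?_⟩
    exact (map_ne_zero (algebraMap K K')).2 hj
  have hinf : Infinite Ω := IsAlgClosed.instInfinite
  obtain ⟨c, hc, hc'⟩ := pick w hw _ hw' (S_finite hP hK w) (S_finite hP hK' _)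
  obtain ⟨j0, hj⟩ := Function.ne_iff.1 hw
  have hj' : algebraMap K K' (w j0) ≠ 0 := (map_ne_zero (algebraMap K K')).2 hj
  have e1 := pdeg_eq hP hK w (w j0) (lc w c) hj (sup_eq w hw c hc j0 hj)
  have e2 := pdeg_eq hP hK' _ (algebraMap K K' (w j0)) (lc _ c) hj' (sup_eq _ hw' c hc' j0 hj')
  rw [lc_ext, ← map_div₀] at e2
  rw [e1, e2]
  by_cases ha : IsAlgebraic Ω (lc w c / w j0)
  · rw [poles_alg ha, poles_alg (ha.algebraMap), mul_zero]
  · have ha' : Transcendental Ω (algebraMap K K' (lc w c / w j0)) :=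
      (transcendental_algebraMap_iff (algebraMap K K').injective).2 ha
    rw [poles_trans hC hK ha, poles_trans hC hK' ha', ← map_inv₀, finrank_ext]
    push_cast
    ring

end Pool.Agent.MP5769ea
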