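import Pool.Agent.Lib.MP_5769ea_ag.Spec3
import Pool.Agent.Lib.MP_5769ea_ag.FFExtFin

/-!
# MP_5769ea_ag : the product formula
-/

set_option autoImplicit false

namespace Pool.Agent.MP5769ea

namespace FFProdAux

variable {Ω K : Type} [Field Ω] [Field K] [Algebra Ω K]

theorem adjoin_inv (f : K) :
    IntermediateField.adjoin Ω {f⁻¹} = IntermediateField.adjoin Ω {f} := by
  apply le_antisymm
  · rw [IntermediateField.adjoin_simple_le_iff]
    exact IntermediateField.inv_mem _ (IntermediateField.mem_adjoin_simple_self Ω f)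
  · rw [IntermediateField.adjoin_simple_le_iff]
    have := IntermediateField.inv_mem _ (IntermediateField.mem_adjoin_simple_self Ω f⁻¹)
    rwa [inv_inv] at this

theorem const_val [IsAlgClosed Ω] {f : K} (hf : f ≠ 0) (ha : IsAlgebraic Ω f) (v : Place Ω K) :
    v.1 f = 1 := by
  have hd := IsAlgClosed.degree_eq_one_of_irreducible Ω (minpoly.irreducible ha.isIntegral)
  obtain ⟨c, rfl⟩ := minpoly.mem_range_of_degree_eq_one Ω f hd
  have h0 : v.1 (algebraMap Ω K c) ≠ 0 := (Valuation.ne_zero_iff _).2 hf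
  apply le_antisymm (v.2.2 c)
  have h1 := v.2.2 c⁻¹
  rw [map_inv₀, map_inv₀] at h1
  exact (inv_le_one₀ (zero_lt_iff.2 h0)).1 h1

theorem sum_ind (f : K) :
    (∑ᶠ v : {v : Place Ω K // v.1 f < 1}, (-(WithZero.log (v.1.1 f)) : ℤ)) =
      ∑ᶠ v : Place Ω K, Set.indicator {v : Place Ω K | v.1 f < 1}
        (fun v => (-(WithZero.log (v.1 f)) : ℤ)) v :=
  (finsum_set_coe_eq_finsum_mem (f := fun v : Place Ω K => (-(WithZero.log (v.1 f)) : ℤ))
    {v : Place Ω K | v.1 f < 1}).trans (finsum_mem_def _ _)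

theorem log_split {f : K} (hf : f ≠ 0) (v : Place Ω K) :
    WithZero.log (v.1 f) =
      Set.indicator {v : Place Ω K | v.1 f⁻¹ < 1} (fun v => (-(WithZero.log (v.1 f⁻¹)) : ℤ)) v -
      Set.indicator {v : Place Ω K | v.1 f < 1} (fun v => (-(WithZero.log (v.1 f)) : ℤ)) v := by
  have hv0 : v.1 f ≠ 0 := (Valuation.ne_zero_iff _).2 hf
  have hvp : 0 < v.1 f := zero_lt_iff.2 hv0
  have hinv : v.1 f⁻¹ < 1 ↔ 1 < v.1 f := by
    rw [map_inv₀]
    exact inv_lt_one₀ hvp
  rcases lt_trichotomy (v.1 f) 1 with h | h | h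
  · rw [Set.indicator_of_notMem, Set.indicator_of_mem (by exact h)]
    · ring
    · intro h2
      exact lt_asymm h (hinv.1 h2)
  · rw [Set.indicator_of_notMem, Set.indicator_of_notMem, h, WithZero.log_one, sub_zero]
    · intro h2
      exact absurd h (ne_of_lt h2)
    · intro h2
      exact absurd h (ne_of_gt (hinv.1 h2))
  · rw [Set.indicator_of_mem (by exact hinv.2 h), Set.indicator_of_notMem, map_inv₀,
      WithZero.log_inv]
    · ring
    · intro h2
      exact lt_asymm h h2

end FFProdAux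

open FFProdAux in
theorem FFProd (hC : S_FFCount) : S_FFProd := by
  intro Ω K _ _ _ _ _ hK f hf
  by_cases ha : IsAlgebraic Ω f
  · have h1 : ∀ v : Place Ω K, v.1 f = 1 := const_val hf ha
    refine ⟨?_, ?_⟩
    · convert Set.finite_empty
      rw [Set.eq_empty_iff_forall_notMem]
      intro v hv
      exact hv (h1 v)
    · have h2 : ∀ v : Place Ω K, WithZero.log (v.1 f) = 0 := by
        intro v
        rw [h1, WithZero.log_one]
      rw [finsum_congr h2, finsum_zero]
  · have hi : Transcendental Ω f⁻¹ := by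
      intro h1
      apply ha
      have := h1.inv
      rwa [inv_inv] at this
    obtain ⟨hz1, hz2⟩ := hC Ω K f ha (FFExtAux.finOver hK ha)
    obtain ⟨hp1, hp2⟩ := hC Ω K f⁻¹ hi (FFExtAux.finOver hK hi)
    refine ⟨?_, ?_⟩
    · refine (hz1.union hp1).subset fun v hv => ?_
      have hv0 : v.1 f ≠ 0 := (Valuation.ne_zero_iff _).2 hf
      have hvp : 0 < v.1 f := zero_lt_iff.2 hv0
      rcases lt_or_gt_of_ne (show v.1 f ≠ 1 from hv) with h | h
      · exact Or.inl h
      · right
        show v.1 f⁻¹ < 1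
        rw [map_inv₀]
        exact (inv_lt_one₀ hvp).2 h
    · rw [sum_ind] at hz2 hp2
      rw [finsum_congr (log_split hf), finsum_sub_distrib, hz2, hp2, adjoin_inv, sub_self]
      · exact hp1.subset fun v hv => (Set.indicator_apply_ne_zero.1 hv).1
      · exact hz1.subset fun v hv => (Set.indicator_apply_ne_zero.1 hv).1

end Pool.Agent.MP5769ea
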