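import Pool.Agent.Lib.MP_5769ea_ag.Spec4

/-!
# MP_5769ea_ag: elementary consequences of the Gale data
-/

open MvPolynomial

namespace Pool.Agent.MP5769ea

namespace GaleBasicAux

variable {P : Fin 13 → Fin (9 + 1) → ℂ} {c : Fin 13 → ℂ} {t y : Fin 12 → ℂ}

theorem det_ne (hg : Gen t y) {k1 k2 k3 : Fin 12} (h12 : k1 ≠ k2) (h13 : k1 ≠ k3)
    (h23 : k2 ≠ k3) :
    (t k2 - t k1) * (y k3 - y k1) - (t k3 - t k1) * (y k2 - y k1) ≠ 0 := by
  intro h0
  let p : MvPolynomial (Fin 12 ⊕ Fin 12) ℚ :=
    (X (Sum.inl k2) - X (Sum.inl k1)) * (X (Sum.inr k3) - X (Sum.inr k1)) -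
      (X (Sum.inl k3) - X (Sum.inl k1)) * (X (Sum.inr k2) - X (Sum.inr k1))
  have hp : aeval (Sum.elim t y) p = 0 := by
    simp only [p, map_sub, map_mul, aeval_X, Sum.elim_inl, Sum.elim_inr]
    exact h0
  have hinj : Function.Injective (aeval (Sum.elim t y) : MvPolynomial (Fin 12 ⊕ Fin 12) ℚ →ₐ[ℚ] ℂ) :=
    hg
  have hp0 : p = 0 := hinj (by rw [hp, map_zero])
  have h1 := congrArg (eval (Sum.elim (fun k => if k = k2 then (1 : ℚ) else 0)
    (fun k => if k = k3 then (1 : ℚ) else 0))) hp0
  simp only [p, map_sub, map_mul, eval_X, Sum.elim_inl, Sum.elim_inr, map_zero] at h1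
  simp [h12, h13, h23, h23.symm] at h1

theorem noncol (hg : Gen t y) {k1 k2 k3 : Fin 12} (h12 : k1 ≠ k2) (h13 : k1 ≠ k3)
    (h23 : k2 ≠ k3) {α β γ : ℂ} (e1 : α + β * t k1 + γ * y k1 = 0)
    (e2 : α + β * t k2 + γ * y k2 = 0) (e3 : α + β * t k3 + γ * y k3 = 0) :
    α = 0 ∧ β = 0 ∧ γ = 0 := by
  have hD := det_ne hg h12 h13 h23
  have hβ : β = 0 := by
    have : β * ((t k2 - t k1) * (y k3 - y k1) - (t k3 - t k1) * (y k2 - y k1)) = 0 := by
      linear_combination (y k3 - y k1) * (e2 - e1) - (y k2 - y k1) * (e3 - e1)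
    exact (mul_eq_zero.1 this).resolve_right hD
  have hγ : γ = 0 := by
    have : γ * ((t k2 - t k1) * (y k3 - y k1) - (t k3 - t k1) * (y k2 - y k1)) = 0 := by
      linear_combination (t k2 - t k1) * (e3 - e1) - (t k3 - t k1) * (e2 - e1)
    exact (mul_eq_zero.1 this).resolve_right hD
  refine ⟨?_, hβ, hγ⟩
  rw [hβ, hγ] at e1
  simpa using e1

/-- all linear relations between the 13 vectors -/
theorem rel_span (h : GaleData P c t y) (a : Fin 13 → ℂ) (ha : ∑ i, a i • P i = 0) :
    ∃ α β γ : ℂ, a 0 = γ * c 0 ∧ ∀ k : Fin 12, a k.succ = c k.succ * (α + β * t k + γ * y k) := by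
  have ht : t 1 - t 0 ≠ 0 := by
    have hinj : Function.Injective (Sum.elim t y) := h.gen.injective
    intro h0
    have h1 : t 1 = t 0 := sub_eq_zero.1 h0
    have h2 : (Sum.inl 1 : Fin 12 ⊕ Fin 12) = Sum.inl 0 := hinj (by simpa using h1)
    simp at h2
  set γ : ℂ := a 0 / c 0 with hγ
  set b : Fin 12 → ℂ := fun k => a k.succ / c k.succ - γ * y k with hb
  set β : ℂ := (b 1 - b 0) / (t 1 - t 0) with hβ
  set α : ℂ := b 0 - β * t 0 with hα
  set d : Fin 12 → ℂ := fun k => b k - α - β * t k with hd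
  have ha0 : a 0 = γ * c 0 := by rw [hγ, div_mul_cancel₀ _ (h.c_ne 0)]
  have hak : ∀ k : Fin 12, a k.succ = c k.succ * (α + β * t k + γ * y k) + d k * c k.succ := by
    intro k
    have := h.c_ne k.succ
    simp only [hd, hb]
    field_simp
    ring
  have hsum : ∑ k : Fin 12, (d k * c k.succ) • P k.succ = 0 := by
    have h1 : ∑ k : Fin 12, (d k * c k.succ) • P k.succ =
        ∑ i, a i • P i - α • (∑ i : Fin 12, c i.succ • P i.succ) -
          β • (∑ i : Fin 12, (t i * c i.succ) • P i.succ) -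
          γ • (c 0 • P 0 + ∑ i : Fin 12, (y i * c i.succ) • P i.succ) := by
      rw [Fin.sum_univ_succ (fun i => a i • P i), ha0, smul_add, Finset.smul_sum,
        Finset.smul_sum, Finset.smul_sum, smul_smul]
      have h2 : ∑ i : Fin 12, a i.succ • P i.succ =
          ∑ k : Fin 12, (d k * c k.succ) • P k.succ + ∑ i : Fin 12, α • c i.succ • P i.succ +
            ∑ i : Fin 12, β • (t i * c i.succ) • P i.succ +
            ∑ i : Fin 12, γ • (y i * c i.succ) • P i.succ := by
        rw [← Finset.sum_add_distrib, ← Finset.sum_add_distrib, ← Finset.sum_add_distrib]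
        refine Finset.sum_congr rfl fun k _ => ?_
        rw [hak k]
        simp only [smul_smul, ← add_smul]
        congr 1
        ring
      rw [h2]
      abel
    rw [h1, ha, h.rel1, h.rel2, h.rel3]
    simp
  have hd0 : d 0 = 0 := by simp only [hd, hα]; ring
  have hd1 : d 1 = 0 := by
    have h1 : β * (t 1 - t 0) = b 1 - b 0 := by rw [hβ, div_mul_cancel₀ _ ht]
    simp only [hd, hα]
    linear_combination -h1
  have hlin : ∑ j : Fin 10, (d j.succ.succ * c j.succ.succ.succ) • P (Fin.natAdd 3 j) = 0 := by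
    rw [Fin.sum_univ_succ, Fin.sum_univ_succ, hd0] at hsum
    have e1 : d (Fin.succ 0) = 0 := hd1
    rw [e1, zero_mul, zero_smul, zero_mul, zero_smul, zero_add, zero_add] at hsum
    rw [← hsum]
    refine Finset.sum_congr rfl fun j _ => ?_
    congr 2
    apply Fin.ext
    simp
    omega
  have hz := Fintype.linearIndependent_iff.1 h.basis _ hlin
  have hdall : ∀ k : Fin 12, d k = 0 := by
    intro k
    refine Fin.cases hd0 (fun k' => ?_) k
    refine Fin.cases hd1 (fun j => ?_) k'
    exact (mul_eq_zero.1 (hz j)).resolve_right (h.c_ne _)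
  exact ⟨α, β, γ, ha0, fun k => by rw [hak k, hdall k, zero_mul, add_zero]⟩

end GaleBasicAux

open GaleBasicAux in
theorem GaleBasic : S_GaleBasic := by
  intro P c t y h
  have h2 : ∀ i j : Fin 13, i ≠ j → ∃ k l, P i k * P j l - P i l * P j k ≠ 0 := by
    intro i j hij
    by_contra hc
    have hc' : ∀ k l, P i k * P j l - P i l * P j k = 0 := by
      intro k l
      by_contra h0
      exact hc ⟨k, l, h0⟩
    -- a nontrivial relation
    have hrel : ∃ a b : ℂ, (a ≠ 0 ∨ b ≠ 0) ∧ a • P i + b • P j = 0 := by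
      by_cases h0 : P i = 0
      · exact ⟨1, 0, Or.inl one_ne_zero, by rw [h0]; simp⟩
      · obtain ⟨k, hk⟩ : ∃ k, P i k ≠ 0 := by
          by_contra hn
          apply h0
          funext k
          by_contra hk
          exact hn ⟨k, hk⟩
        refine ⟨- P j k, P i k, Or.inr hk, ?_⟩
        funext l
        simp only [Pi.add_apply, Pi.smul_apply, smul_eq_mul, Pi.zero_apply]
        linear_combination hc' k l
    obtain ⟨a, b, hab, hr⟩ := hrel
    set e : Fin 13 → ℂ := fun k => (if k = i then a else 0) + (if k = j then b else 0) with he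
    have hsum : ∑ k, e k • P k = 0 := by
      rw [← hr]
      simp only [he, add_smul, Finset.sum_add_distrib, ite_smul, zero_smul,
        Finset.sum_ite_eq', Finset.mem_univ, if_true]
    obtain ⟨α, β, γ, e0, ek⟩ := rel_span h e hsum
    -- three indices outside `i`, `j`
    have hthree : ∃ k1 k2 k3 : Fin 12, k1 ≠ k2 ∧ k1 ≠ k3 ∧ k2 ≠ k3 ∧
        (k1.succ ≠ i ∧ k1.succ ≠ j) ∧ (k2.succ ≠ i ∧ k2.succ ≠ j) ∧
        (k3.succ ≠ i ∧ k3.succ ≠ j) := by
      have hcard : 3 ≤ (Finset.univ.filter (fun k : Fin 12 => k.succ ≠ i ∧ k.succ ≠ j)).card := by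
        have h1 : (Finset.univ.filter (fun k : Fin 12 => ¬ (k.succ ≠ i ∧ k.succ ≠ j))).card ≤ 2 := by
          have hsub : (Finset.univ.filter (fun k : Fin 12 => ¬ (k.succ ≠ i ∧ k.succ ≠ j))).image
              Fin.succ ⊆ {i, j} := by
            intro z hz
            rw [Finset.mem_image] at hz
            obtain ⟨k, hk, rfl⟩ := hz
            rw [Finset.mem_filter] at hk
            rw [Finset.mem_insert, Finset.mem_singleton]
            by_contra hcc
            push Not at hcc
            exact hk.2 hcc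
          have h3 := Finset.card_le_card hsub
          rw [Finset.card_image_of_injective _ (Fin.succ_injective 12)] at h3
          exact h3.trans Finset.card_le_two
        have h2 := Finset.card_filter_add_card_filter_not (s := (Finset.univ : Finset (Fin 12)))
          (fun k : Fin 12 => k.succ ≠ i ∧ k.succ ≠ j)
        rw [Finset.card_univ, Fintype.card_fin] at h2
        omega
      obtain ⟨s, hs, hs3⟩ := Finset.exists_subset_card_eq hcard
      obtain ⟨k1, k2, k3, n1, n2, n3, rfl⟩ := Finset.card_eq_three.1 hs3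
      refine ⟨k1, k2, k3, n1, n2, n3, ?_, ?_, ?_⟩
      · exact (Finset.mem_filter.1 (hs (by simp))).2
      · exact (Finset.mem_filter.1 (hs (by simp))).2
      · exact (Finset.mem_filter.1 (hs (by simp))).2
    obtain ⟨k1, k2, k3, n1, n2, n3, m1, m2, m3⟩ := hthree
    have hline : ∀ k : Fin 12, (k.succ ≠ i ∧ k.succ ≠ j) → α + β * t k + γ * y k = 0 := by
      intro k hk
      have h1 := ek k
      simp only [he] at h1
      rw [if_neg hk.1, if_neg hk.2, add_zero] at h1
      exact (mul_eq_zero.1 h1.symm).resolve_left (h.c_ne _)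
    obtain ⟨hα, hβ, hγ⟩ := noncol h.gen n1 n2 n3 (hline k1 m1) (hline k2 m2) (hline k3 m3)
    have hall : ∀ k, e k = 0 := by
      intro k
      refine Fin.cases ?_ (fun k' => ?_) k
      · rw [e0, hγ, zero_mul]
      · rw [ek, hα, hβ, hγ]; ring
    have hi := hall i
    have hj := hall j
    simp only [he] at hi hj
    simp only [hij, if_true, if_false, add_zero] at hi
    simp only [hij.symm, if_true, if_false, zero_add] at hj
    rcases hab with h1 | h1
    · exact h1 hi
    · exact h1 hj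
  refine ⟨?_, h2, ?_⟩
  · intro K _ _ w
    let M : Matrix (Fin 10) (Fin 10) ℂ := fun j k => P (Fin.natAdd 3 j) k
    have hM : IsUnit M := by
      rw [← Matrix.linearIndependent_rows_iff_isUnit]
      exact h.basis
    have hMK : IsUnit (M.map (algebraMap ℂ K)) := by
      have := hM.map (algebraMap ℂ K).mapMatrix
      exact this
    obtain ⟨v, hv⟩ : ∃ v : Fin 10 → K, Matrix.vecMul v (M.map (algebraMap ℂ K)) = w := by
      have hdet := (Matrix.isUnit_iff_isUnit_det _).1 hMK
      refine ⟨Matrix.vecMul w (M.map (algebraMap ℂ K))⁻¹, ?_⟩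
      rw [Matrix.vecMul_vecMul, Matrix.nonsing_inv_mul _ hdet, Matrix.vecMul_one]
    let x : Fin 12 → K := Fin.cons 0 (Fin.cons 0 (fun j : Fin 10 =>
      v j / algebraMap ℂ K (c j.succ.succ.succ)))
    refine ⟨x, ?_⟩
    funext k
    rw [← hv]
    unfold piMap
    rw [Fin.sum_univ_succ, Fin.sum_univ_succ]
    have x0 : x 0 = 0 := rfl
    have x1 : x (Fin.succ 0) = 0 := rfl
    rw [x0, x1, zero_mul, zero_mul, zero_add, zero_add]
    unfold Matrix.vecMul dotProduct
    refine Finset.sum_congr rfl fun j _ => ?_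
    have xj : x j.succ.succ = v j / algebraMap ℂ K (c j.succ.succ.succ) := rfl
    have hcne : algebraMap ℂ K (c j.succ.succ.succ) ≠ 0 := by
      rw [Ne, map_eq_zero]
      exact h.c_ne _
    have hidx : (j.succ.succ.succ : Fin 13) = Fin.natAdd 3 j := by
      apply Fin.ext
      simp
      omega
    rw [xj, map_mul, ← mul_assoc, div_mul_cancel₀ _ hcne]
    rw [hidx]
    rfl
  · intro i h0
    obtain ⟨j, hj⟩ : ∃ j : Fin 13, i ≠ j := by
      rcases eq_or_ne i 0 with h1 | h1
      · exact ⟨1, by rw [h1]; decide⟩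
      · exact ⟨0, h1⟩
    obtain ⟨k, l, hkl⟩ := h2 i j hj
    apply hkl
    rw [h0]
    simp

end Pool.Agent.MP5769ea
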