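import Pool.Agent.Lib.MP_5769ea_ag.Spec4

/-! # MP_5769ea_ag, GaleEx: Gale duality for very general points -/

open MvPolynomial

namespace Pool.Agent.MP5769ea

namespace GaleExAux

/-- elements generating a field which contains as many algebraically independent elements are
algebraically independent -/
theorem indep_of_gen' {F L : Type} [Field F] [Field L] [Algebra F L] {ι : Type} [Finite ι]
    (x z : ι → L) (hx : AlgebraicIndependent F x)
    (h : ∀ i, x i ∈ IntermediateField.adjoin F (Set.range z)) : AlgebraicIndependent F z := by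
  set E := IntermediateField.adjoin F (Set.range z) with hE
  have hz : ∀ i, z i ∈ E := fun i => IntermediateField.subset_adjoin F _ ⟨i, rfl⟩
  let z' : ι → E := fun i => ⟨z i, hz i⟩
  let x' : ι → E := fun i => ⟨x i, h i⟩
  have hx' : AlgebraicIndependent F x' := by
    have h1 : AlgebraicIndependent F (E.val ∘ x') := hx
    exact h1.of_comp E.val
  have hmap : (Algebra.adjoin F (Set.range z')).map E.val = Algebra.adjoin F (Set.range z) := by
    rw [AlgHom.map_adjoin]
    congr 1
    rw [← Set.range_comp]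
    rfl
  have alg : Algebra.IsAlgebraic (Algebra.adjoin F (Set.range z')) E := by
    constructor
    intro e
    obtain ⟨r, hr, s, hs, hrs⟩ := (IntermediateField.mem_adjoin_iff_div).1 e.2
    rw [← hmap] at hr hs
    obtain ⟨r', hr', rfl⟩ := hr
    obtain ⟨s', hs', rfl⟩ := hs
    have he : e = r' * s'⁻¹ := by
      apply Subtype.ext
      rw [hrs]
      simp [div_eq_mul_inv]
    rw [he]
    have h1 : IsAlgebraic (Algebra.adjoin F (Set.range z')) r' :=
      isAlgebraic_algebraMap (⟨r', hr'⟩ : Algebra.adjoin F (Set.range z'))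
    have h2 : IsAlgebraic (Algebra.adjoin F (Set.range z')) s' :=
      isAlgebraic_algebraMap (⟨s', hs'⟩ : Algebra.adjoin F (Set.range z'))
    exact h1.mul h2.inv
  have hb := Algebra.IsAlgebraic.isTranscendenceBasis_of_le_trdeg_of_finite F z'
    hx'.cardinalMk_le_trdeg
  exact hb.1.map' (f := E.val) E.val.injective

theorem indep_of_gen {ι : Type} [Finite ι] (x z : ι → ℂ) (hx : AlgebraicIndependent ℚ x)
    (h : ∀ i, x i ∈ IntermediateField.adjoin ℚ (Set.range z)) : AlgebraicIndependent ℚ z :=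
  indep_of_gen' x z hx h

theorem exists_four {ι : Type} [Finite ι] (x : ι → ℂ) (hx : AlgebraicIndependent ℚ x) :
    ∃ w : Fin 4 → ℂ, AlgebraicIndependent ℚ (Sum.elim w x) := by
  have hcount : Cardinal.mk (Algebra.adjoin ℚ (Set.range x)) ≤ Cardinal.aleph0 := by
    have h1 := Algebra.cardinalMk_adjoin_le ℚ (Set.range x)
    have h2 : Cardinal.mk (Set.range x) ≤ Cardinal.aleph0 :=
      Cardinal.mk_le_aleph0_iff.2 (Set.finite_range x).countable.to_subtype
    have h3 : Cardinal.mk ℚ ≤ Cardinal.aleph0 := Cardinal.mk_le_aleph0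
    exact h1.trans (max_le (max_le h3 h2) le_rfl)
  obtain ⟨s, hs⟩ := exists_isTranscendenceBasis (Algebra.adjoin ℚ (Set.range x)) ℂ
  have hC : Cardinal.aleph0 < Cardinal.mk ℂ := by
    rw [Cardinal.mk_complex]; exact Cardinal.aleph0_lt_continuum
  have hs2 := IsAlgClosed.cardinal_eq_cardinal_transcendence_basis_of_aleph0_lt' _ hs hcount hC
  have hinf : Infinite s := by
    rw [Cardinal.infinite_iff, ← hs2]; exact hC.le
  let e : Fin 4 → s := fun i => Infinite.natEmbedding s i
  have he : Function.Injective e := by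
    intro i j hij
    exact Fin.ext ((Infinite.natEmbedding s).injective hij)
  exact ⟨fun i => (e i : ℂ), hx.sumElim (hs.1.comp e he)⟩

/-- the index type of the big family -/
abbrev Ix : Type := (Fin 3 × Fin 10) ⊕ ((Fin 10 × Fin 10) ⊕ Fin 4)

/-- the generic matrix is invertible -/
theorem det_ne (B : Matrix (Fin 10) (Fin 10) ℂ)
    (hB : AlgebraicIndependent ℚ (fun jk : Fin 10 × Fin 10 => B jk.1 jk.2)) : B.det ≠ 0 := by
  intro h0
  have h1 := Matrix.det_mvPolynomialX_ne_zero (Fin 10) ℚ
  apply h1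
  have h2 : aeval (fun jk : Fin 10 × Fin 10 => B jk.1 jk.2)
      (Matrix.det (Matrix.mvPolynomialX (Fin 10) (Fin 10) ℚ)) = 0 := by
    rw [AlgHom.map_det, ← h0]
    congr 1
    ext i j
    simp [Matrix.mvPolynomialX]
  exact (map_eq_zero_iff _ hB).1 h2

/-- the embedding of the 24 indices -/
def eIx : Fin 12 ⊕ Fin 12 → Ix
  | Sum.inl i => Fin.cons (α := fun _ => Ix) (Sum.inr (Sum.inr 0))
      (Fin.cons (α := fun _ => Ix) (Sum.inr (Sum.inr 1)) fun j => Sum.inl (2, j)) i
  | Sum.inr i => Fin.cons (α := fun _ => Ix) (Sum.inr (Sum.inr 2))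
      (Fin.cons (α := fun _ => Ix) (Sum.inr (Sum.inr 3)) fun j => Sum.inl (0, j)) i

theorem eIx_inj : Function.Injective eIx := by
  decide +kernel

end GaleExAux

open GaleExAux

theorem GaleEx : S_GaleEx := by
  intro P hP
  -- the matrices
  set B : Matrix (Fin 10) (Fin 10) ℂ := fun j k => P (Fin.natAdd 3 j) k with hBdef
  set Q : Matrix (Fin 3) (Fin 10) ℂ := fun i k => P (Fin.castAdd 10 i) k with hQdef
  -- the family `(Q, B)`
  have hQB : AlgebraicIndependent ℚ (Sum.elim (fun ik : Fin 3 × Fin 10 => Q ik.1 ik.2)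
      (fun jk : Fin 10 × Fin 10 => B jk.1 jk.2)) := by
    let e : (Fin 3 × Fin 10) ⊕ (Fin 10 × Fin 10) → Fin 13 × Fin (9 + 1) :=
      Sum.elim (fun ik => (Fin.castAdd 10 ik.1, ik.2)) (fun jk => (Fin.natAdd 3 jk.1, jk.2))
    have he : Function.Injective e := by
      rintro (⟨i, k⟩ | ⟨i, k⟩) (⟨j, l⟩ | ⟨j, l⟩) h
      all_goals simp only [e, Sum.elim_inl, Sum.elim_inr, Prod.mk.injEq, Fin.ext_iff,
        Fin.val_castAdd, Fin.val_natAdd] at h
      · simp [Fin.ext_iff, h]
      · omega
      · omega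
      · simp [Fin.ext_iff]; omega
    have h1 := hP.comp e he
    convert h1 using 1
    funext z
    rcases z with z | z <;> rfl
  have hB : AlgebraicIndependent ℚ (fun jk : Fin 10 × Fin 10 => B jk.1 jk.2) :=
    hQB.comp Sum.inr Sum.inr_injective
  have hdet : B.det ≠ 0 := det_ne B hB
  have hunit : IsUnit B.det := isUnit_iff_ne_zero.2 hdet
  set A : Matrix (Fin 3) (Fin 10) ℂ := Q * B⁻¹ with hAdef
  have hAB : A * B = Q := by
    rw [hAdef, Matrix.mul_assoc, Matrix.nonsing_inv_mul B hunit, Matrix.mul_one]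
  have hABe : ∀ i k, Q i k = ∑ j, A i j * B j k := by
    intro i k
    rw [← hAB, Matrix.mul_apply]
  -- four more elements
  obtain ⟨w, hw⟩ := exists_four _ hQB
  -- the family `x = (Q, B, w)`
  let x : Ix → ℂ := Sum.elim (fun ik => Q ik.1 ik.2) (Sum.elim (fun jk => B jk.1 jk.2) w)
  have hx : AlgebraicIndependent ℚ x := by
    let e : Ix → Fin 4 ⊕ ((Fin 3 × Fin 10) ⊕ (Fin 10 × Fin 10)) :=
      Sum.elim (fun ik => Sum.inr (Sum.inl ik))
        (Sum.elim (fun jk => Sum.inr (Sum.inr jk)) (fun i => Sum.inl i))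
    have he : Function.Injective e := by
      rintro (z | z | z) (z' | z' | z') h
      all_goals simp only [e, Sum.elim_inl, Sum.elim_inr, Sum.inl.injEq, Sum.inr.injEq,
        reduceCtorEq] at h
      all_goals subst h
      all_goals rfl
    have h1 := hw.comp e he
    convert h1 using 1
    funext z
    rcases z with z | z | z <;> rfl
  -- the family `(A, B, w)`
  let u : Ix → ℂ := Sum.elim (fun ik => A ik.1 ik.2) (Sum.elim (fun jk => B jk.1 jk.2) w)
  have hu : AlgebraicIndependent ℚ u := by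
    apply indep_of_gen x u hx
    have hmem : ∀ i, u i ∈ IntermediateField.adjoin ℚ (Set.range u) := fun i =>
      IntermediateField.subset_adjoin ℚ _ ⟨i, rfl⟩
    rintro (⟨i, k⟩ | z | z)
    · show Q i k ∈ _
      rw [hABe]
      refine sum_mem fun j _ => mul_mem ?_ ?_
      · exact hmem (Sum.inl (i, j))
      · exact hmem (Sum.inr (Sum.inl (j, k)))
    · exact hmem (Sum.inr (Sum.inl z))
    · exact hmem (Sum.inr (Sum.inr z))
  have huinj : Function.Injective u := hu.injective
  -- the constants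
  have hc : ∀ j, A 1 j + A 2 j ≠ 0 := by
    intro j h0
    have h1 : aeval u (X (Sum.inl (1, j)) + X (Sum.inl (2, j)) : MvPolynomial Ix ℚ) = 0 := by
      simpa [u] using h0
    have h2 : (X (Sum.inl (1, j)) + X (Sum.inl (2, j)) : MvPolynomial Ix ℚ) = 0 :=
      (map_eq_zero_iff _ hu).1 h1
    have h3 := congrArg (aeval (R := ℚ) (fun _ : Ix => (1 : ℚ))) h2
    simp at h3
  have hτ : w 1 - w 0 ≠ 0 := by
    intro h0
    have h1 : u (Sum.inr (Sum.inr 1)) = u (Sum.inr (Sum.inr 0)) := by
      simpa [u] using sub_eq_zero.1 h0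
    have h2 := huinj h1
    simp at h2
  let c' : Fin 10 → ℂ := fun j => A 1 j + A 2 j
  let t' : Fin 10 → ℂ := fun j => (w 0 * A 1 j + w 1 * A 2 j) / c' j
  let y' : Fin 10 → ℂ := fun j => (A 0 j + w 2 * A 1 j + w 3 * A 2 j) / c' j
  let z : Ix → ℂ := Sum.elim (fun ij => ![y', c', t'] ij.1 ij.2)
    (Sum.elim (fun jk => B jk.1 jk.2) w)
  have hz : AlgebraicIndependent ℚ z := by
    apply indep_of_gen u z hu
    have hmem : ∀ i, z i ∈ IntermediateField.adjoin ℚ (Set.range z) := fun i =>
      IntermediateField.subset_adjoin ℚ _ ⟨i, rfl⟩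
    have hw' : ∀ i, w i ∈ IntermediateField.adjoin ℚ (Set.range z) := fun i =>
      hmem (Sum.inr (Sum.inr i))
    have hy' : ∀ j, y' j ∈ IntermediateField.adjoin ℚ (Set.range z) := fun j =>
      hmem (Sum.inl (0, j))
    have hc' : ∀ j, c' j ∈ IntermediateField.adjoin ℚ (Set.range z) := fun j =>
      hmem (Sum.inl (1, j))
    have ht' : ∀ j, t' j ∈ IntermediateField.adjoin ℚ (Set.range z) := fun j =>
      hmem (Sum.inl (2, j))
    have e2 : ∀ j, A 2 j = (t' j * c' j - w 0 * c' j) / (w 1 - w 0) := by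
      intro j
      have := hc j
      simp only [t', c']
      field_simp
      ring
    have e1 : ∀ j, A 1 j = c' j - A 2 j := by
      intro j; simp only [c']; ring
    have e0 : ∀ j, A 0 j = y' j * c' j - w 2 * A 1 j - w 3 * A 2 j := by
      intro j
      have := hc j
      simp only [y', c']
      field_simp
      ring
    have m2 : ∀ j, A 2 j ∈ IntermediateField.adjoin ℚ (Set.range z) := by
      intro j
      rw [e2 j]
      exact div_mem (sub_mem (mul_mem (ht' j) (hc' j)) (mul_mem (hw' 0) (hc' j)))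
        (sub_mem (hw' 1) (hw' 0))
    have m1 : ∀ j, A 1 j ∈ IntermediateField.adjoin ℚ (Set.range z) := by
      intro j
      rw [e1 j]
      exact sub_mem (hc' j) (m2 j)
    have m0 : ∀ j, A 0 j ∈ IntermediateField.adjoin ℚ (Set.range z) := by
      intro j
      rw [e0 j]
      exact sub_mem (sub_mem (mul_mem (hy' j) (hc' j)) (mul_mem (hw' 2) (m1 j)))
        (mul_mem (hw' 3) (m2 j))
    rintro (⟨i, j⟩ | i | i)
    · show A i j ∈ _
      fin_cases i
      · exact m0 j
      · exact m1 j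
      · exact m2 j
    · exact hmem (Sum.inr (Sum.inl i))
    · exact hmem (Sum.inr (Sum.inr i))
  have hnat : ∀ j : Fin 10, (Fin.natAdd 3 j : Fin 13) = j.succ.succ.succ := by
    intro j
    ext
    simp
    omega
  have hBe : ∀ j k, B j k = P j.succ.succ.succ k := by
    intro j k
    rw [hBdef]
    show P (Fin.natAdd 3 j) k = _
    rw [hnat]
  have hQ0 : ∀ k, P 0 k = ∑ j, A 0 j * B j k := fun k => hABe 0 k
  have hQ1 : ∀ k, P 1 k = ∑ j, A 1 j * B j k := fun k => hABe 1 k
  have hQ2 : ∀ k, P 2 k = ∑ j, A 2 j * B j k := fun k => hABe 2 k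
  refine ⟨Fin.cons (-1) (Fin.cons (-1) (Fin.cons (-1) c')), Fin.cons (w 0) (Fin.cons (w 1) t'),
    Fin.cons (w 2) (Fin.cons (w 3) y'), ?_⟩
  refine ⟨?_, ?_, ?_, ?_, ?_, ?_⟩
  · intro i
    refine Fin.cases ?_ (fun i => ?_) i
    · show (-1 : ℂ) ≠ 0
      norm_num
    refine Fin.cases ?_ (fun i => ?_) i
    · show (-1 : ℂ) ≠ 0
      norm_num
    refine Fin.cases ?_ (fun i => ?_) i
    · show (-1 : ℂ) ≠ 0
      norm_num
    · exact hc i
  · have h1 := hz.comp eIx eIx_inj
    have h2 : (Sum.elim (Fin.cons (w 0) (Fin.cons (w 1) t') : Fin 12 → ℂ)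
        (Fin.cons (w 2) (Fin.cons (w 3) y') : Fin 12 → ℂ)) = z ∘ eIx := ?_
    · show AlgebraicIndependent ℚ (Sum.elim (Fin.cons (w 0) (Fin.cons (w 1) t') : Fin 12 → ℂ)
        (Fin.cons (w 2) (Fin.cons (w 3) y') : Fin 12 → ℂ))
      rw [h2]
      exact h1
    funext a
    rcases a with a | a
    · refine Fin.cases ?_ (fun a => ?_) a
      · rfl
      refine Fin.cases ?_ (fun a => ?_) a
      · rfl
      · rfl
    · refine Fin.cases ?_ (fun a => ?_) a
      · rfl
      refine Fin.cases ?_ (fun a => ?_) a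
      · rfl
      · rfl
  · funext k
    rw [Fin.sum_univ_succ, Fin.sum_univ_succ]
    simp only [Fin.cons_succ, Fin.cons_zero, Pi.add_apply, Pi.smul_apply, Finset.sum_apply,
      smul_eq_mul, Pi.zero_apply]
    simp only [← hBe]
    have e1 : P (Fin.succ 0) k = ∑ j, A 1 j * B j k := hQ1 k
    have e2 : P (Fin.succ (Fin.succ 0)) k = ∑ j, A 2 j * B j k := hQ2 k
    rw [e1, e2]
    simp only [neg_mul, one_mul, ← Finset.sum_neg_distrib, ← Finset.sum_add_distrib]
    apply Finset.sum_eq_zero
    intro j _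
    simp only [c']
    ring
  · funext k
    rw [Fin.sum_univ_succ, Fin.sum_univ_succ]
    simp only [Fin.cons_succ, Fin.cons_zero, Pi.add_apply, Pi.smul_apply, Finset.sum_apply,
      smul_eq_mul, Pi.zero_apply]
    simp only [← hBe]
    have e1 : P (Fin.succ 0) k = ∑ j, A 1 j * B j k := hQ1 k
    have e2 : P (Fin.succ (Fin.succ 0)) k = ∑ j, A 2 j * B j k := hQ2 k
    rw [e1, e2, Finset.mul_sum, Finset.mul_sum]
    simp only [← Finset.sum_add_distrib]
    apply Finset.sum_eq_zero
    intro j _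
    have h1 : t' j * c' j = w 0 * A 1 j + w 1 * A 2 j := by
      have := hc j
      simp only [t', c']
      field_simp
    rw [h1]
    ring
  · funext k
    rw [Fin.sum_univ_succ, Fin.sum_univ_succ]
    simp only [Fin.cons_succ, Fin.cons_zero, Pi.add_apply, Pi.smul_apply, Finset.sum_apply,
      smul_eq_mul, Pi.zero_apply]
    simp only [← hBe]
    have e1 : P (Fin.succ 0) k = ∑ j, A 1 j * B j k := hQ1 k
    have e2 : P (Fin.succ (Fin.succ 0)) k = ∑ j, A 2 j * B j k := hQ2 k
    have e0 : P 0 k = ∑ j, A 0 j * B j k := hQ0 k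
    rw [e0, e1, e2, Finset.mul_sum, Finset.mul_sum, Finset.mul_sum]
    simp only [← Finset.sum_add_distrib]
    apply Finset.sum_eq_zero
    intro j _
    have h1 : y' j * c' j = A 0 j + w 2 * A 1 j + w 3 * A 2 j := by
      have := hc j
      simp only [y', c']
      field_simp
    rw [h1]
    ring
  · have h1 : LinearIndependent ℂ B.row := Matrix.linearIndependent_rows_iff_isUnit.2
      ((Matrix.isUnit_iff_isUnit_det B).2 hunit)
    exact h1

end Pool.Agent.MP5769ea
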