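import Pool.Agent.Lib.MP_5769ea_ag.Spec5

/-!
# MP_5769ea_ag: GenUp, genericity is inherited by extension fields
-/

open MvPolynomial

namespace Pool.Agent.MP5769ea

namespace GenUpAux

theorem elim_up {K : Type} [Field K] [Algebra ℂ K] (t y : Fin 12 → ℂ) :
    (Sum.elim (up t : Fin 12 → K) (up y)) = algebraMap ℂ K ∘ Sum.elim t y := by
  funext i
  rcases i with i | i <;> simp [up]

/-- the bijection `Fin 13 ⊕ Fin 13 ≃ Fin 2 ⊕ (Fin 12 ⊕ Fin 12)`: the map from right to left -/
def mp : Fin 2 ⊕ (Fin 12 ⊕ Fin 12) → Fin 13 ⊕ Fin 13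
  | Sum.inl 0 => Sum.inl (Fin.last 12)
  | Sum.inl 1 => Sum.inr (Fin.last 12)
  | Sum.inr (Sum.inl i) => Sum.inl (Fin.castSucc i)
  | Sum.inr (Sum.inr i) => Sum.inr (Fin.castSucc i)

theorem mp_bij : Function.Bijective mp := by
  rw [Fintype.bijective_iff_surjective_and_card]
  constructor
  · rintro (i | i)
    · induction i using Fin.lastCases with
      | last => exact ⟨Sum.inl 0, rfl⟩
      | cast i => exact ⟨Sum.inr (Sum.inl i), rfl⟩
    · induction i using Fin.lastCases with
      | last => exact ⟨Sum.inl 1, rfl⟩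
      | cast i => exact ⟨Sum.inr (Sum.inr i), rfl⟩
  · simp

end GenUpAux

open GenUpAux

theorem GenUp : S_GenUp := by
  intro t y hg K _ _ _
  constructor
  · unfold Gen
    rw [elim_up]
    exact AlgebraicIndependent.map' (f := (algebraMap ℂ K).toRatAlgHom) hg
      (algebraMap ℂ K).injective
  · intro θ η hθ
    unfold Gen
    have h1 : AlgebraicIndependent ℚ (Sum.elim ![θ, η] (algebraMap ℂ K ∘ Sum.elim t y)) :=
      AlgebraicIndependent.sumElim_comp hg hθ
    rw [← algebraicIndependent_equiv (Equiv.ofBijective mp mp_bij)]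
    convert h1 using 1
    funext i
    rcases i with i | (i | i)
    · fin_cases i
      · exact Fin.snoc_last (α := fun _ => K) θ (up t)
      · exact Fin.snoc_last (α := fun _ => K) η (up y)
    · exact Fin.snoc_castSucc (α := fun _ => K) θ (up t) i
    · exact Fin.snoc_castSucc (α := fun _ => K) η (up y) i

end Pool.Agent.MP5769ea
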