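import Pool.Agent.Lib.MP_5769ea_ag.Spec1

/-!
# MP_5769ea_ag, OrdBasic: orders of vanishing at a point
-/

open MvPolynomial

namespace Pool.Agent.MP5769ea

namespace OrdBasicAux

variable {K : Type} [Field K]

lemma mem_iff (q : Fin 2 → K) (g : ℤ) (F : MvPolynomial (Fin 2) K) :
    F ∈ OrdGE q g ↔ ∀ s : Fin 2 →₀ ℕ, coeff s (shift q F) ≠ 0 → g ≤ ((s 0 + s 1 : ℕ) : ℤ) := by
  rw [OrdGE, Submodule.mem_comap, mem_restrictSupport_iff]
  constructor
  · intro h s hs
    exact h (by simpa [mem_support_iff] using hs)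
  · intro h s hs
    exact h s (by simpa [mem_support_iff] using hs)

lemma deg2 (s : Fin 2 →₀ ℕ) : s.degree = s 0 + s 1 := by
  rw [Finsupp.degree_eq_sum, Fin.sum_univ_two]

/-- the shift by `q` composed with the shift by `-q` is the identity -/
lemma shift_shift (q : Fin 2 → K) (F : MvPolynomial (Fin 2) K) :
    shift (-q) (shift q F) = F := by
  have h : (shift (-q)).comp (shift q) = AlgHom.id K (MvPolynomial (Fin 2) K) := by
    apply MvPolynomial.algHom_ext
    intro i
    simp [shift, algebraMap_eq]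
  exact DFunLike.congr_fun h F

lemma shift_ne_zero (q : Fin 2 → K) {F : MvPolynomial (Fin 2) K} (hF : F ≠ 0) :
    shift q F ≠ 0 := by
  intro h
  apply hF
  rw [← shift_shift q F, h, map_zero]

/-- the order as a power series -/
noncomputable def ord (q : Fin 2 → K) (F : MvPolynomial (Fin 2) K) : ℕ∞ :=
  MvPowerSeries.order ((shift q F : MvPolynomial (Fin 2) K) : MvPowerSeries (Fin 2) K)

lemma mem_iff_ord (q : Fin 2 → K) (n : ℕ) (F : MvPolynomial (Fin 2) K) :
    F ∈ OrdGE q (n : ℤ) ↔ (n : ℕ∞) ≤ ord q F := by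
  rw [mem_iff, ord]
  constructor
  · intro h
    apply MvPowerSeries.nat_le_order
    intro d hd
    rw [MvPolynomial.coeff_coe]
    by_contra hne
    have := h d hne
    rw [deg2] at hd
    omega
  · intro h s hs
    by_contra hlt
    apply hs
    rw [← MvPolynomial.coeff_coe]
    apply MvPowerSeries.coeff_of_lt_order
    refine lt_of_lt_of_le ?_ h
    rw [deg2]
    have : s 0 + s 1 < n := by omega
    exact_mod_cast this

lemma mem_nonpos (q : Fin 2 → K) (g : ℤ) (hg : g ≤ 0) (F : MvPolynomial (Fin 2) K) :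
    F ∈ OrdGE q g := by
  rw [mem_iff]
  intro s _
  have : (0 : ℤ) ≤ ((s 0 + s 1 : ℕ) : ℤ) := Int.natCast_nonneg _
  linarith

lemma ord_mul (q : Fin 2 → K) (F G : MvPolynomial (Fin 2) K) :
    ord q (F * G) = ord q F + ord q G := by
  rw [ord, ord, ord, map_mul, MvPolynomial.coe_mul, MvPowerSeries.order_mul]

end OrdBasicAux

open OrdBasicAux in
theorem OrdBasic : S_OrdBasic := by
  intro K _ q
  refine ⟨?_, ?_, ?_, ?_, ?_, ?_⟩
  · intro g hg
    rw [eq_top_iff]
    intro F _
    exact mem_nonpos q g hg F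
  · intro g h hgh F hF
    rw [mem_iff] at hF ⊢
    intro s hs
    exact hgh.trans (hF s hs)
  · intro F G a b ha hb hF hG
    obtain ⟨m, rfl⟩ := Int.eq_ofNat_of_zero_le ha
    obtain ⟨n, rfl⟩ := Int.eq_ofNat_of_zero_le hb
    have h1 := (mem_iff_ord q m F).1 hF
    have h2 := (mem_iff_ord q n G).1 hG
    have e : (m : ℤ) + (n : ℤ) = ((m + n : ℕ) : ℤ) := by push_cast; ring
    rw [e, mem_iff_ord, ord_mul]
    push_cast
    exact add_le_add h1 h2
  · intro F G a b hF hG
    have ha : 0 < a := by
      by_contra h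
      exact hF (mem_nonpos q a (by omega) F)
    have hb : 0 < b := by
      by_contra h
      exact hG (mem_nonpos q b (by omega) G)
    obtain ⟨m, rfl⟩ := Int.eq_ofNat_of_zero_le ha.le
    obtain ⟨n, rfl⟩ := Int.eq_ofNat_of_zero_le hb.le
    have h1 : ord q F < m := by
      rw [← not_le]; exact fun h => hF ((mem_iff_ord q m F).2 h)
    have h2 : ord q G < n := by
      rw [← not_le]; exact fun h => hG ((mem_iff_ord q n G).2 h)
    obtain ⟨i, hi⟩ := ENat.ne_top_iff_exists.1 (ne_top_of_lt h1)
    obtain ⟨j, hj⟩ := ENat.ne_top_iff_exists.1 (ne_top_of_lt h2)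
    rw [← hi] at h1
    rw [← hj] at h2
    have h1' : i < m := by exact_mod_cast h1
    have h2' : j < n := by exact_mod_cast h2
    have e : (m : ℤ) + (n : ℤ) - 1 = ((m + n - 1 : ℕ) : ℤ) := by omega
    rw [e, mem_iff_ord, ord_mul, ← hi, ← hj]
    intro h
    have h' : m + n - 1 ≤ i + j := by exact_mod_cast h
    omega
  · intro F hF
    have hne : ((shift q F : MvPolynomial (Fin 2) K) : MvPowerSeries (Fin 2) K) ≠ 0 := by
      intro h
      apply shift_ne_zero q hF
      exact MvPolynomial.coe_injective _ _ (by rw [h, MvPolynomial.coe_zero])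
    have htop : ord q F ≠ ⊤ := by
      intro h
      exact hne (MvPowerSeries.order_eq_top_iff.1 h)
    obtain ⟨k, hk⟩ := ENat.ne_top_iff_exists.1 htop
    refine ⟨k, ?_, ?_⟩
    · rw [mem_iff_ord, ← hk]
    · have e : (k : ℤ) + 1 = ((k + 1 : ℕ) : ℤ) := by push_cast; ring
      rw [e, mem_iff_ord, ← hk]
      intro h
      have : k + 1 ≤ k := by exact_mod_cast h
      omega
  · intro F
    have e : (1 : ℤ) = ((1 : ℕ) : ℤ) := by norm_num
    rw [e, mem_iff_ord, ord]
    have h1 : (((1 : ℕ) : ℕ∞) ≤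
        MvPowerSeries.order ((shift q F : MvPolynomial (Fin 2) K) : MvPowerSeries (Fin 2) K)) ↔
        MvPowerSeries.constantCoeff
          ((shift q F : MvPolynomial (Fin 2) K) : MvPowerSeries (Fin 2) K) = 0 := by
      rw [← MvPowerSeries.one_le_order_iff_constCoeff_eq_zero]
      norm_num
    rw [h1, ← MvPowerSeries.coeff_zero_eq_constantCoeff_apply, MvPolynomial.coeff_coe,
      ← MvPolynomial.constantCoeff_eq]
    have h2 : constantCoeff (shift q F) = eval q F := by
      have h3 : (constantCoeff : MvPolynomial (Fin 2) K →+* K).comp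
          ((shift q : MvPolynomial (Fin 2) K →ₐ[K] MvPolynomial (Fin 2) K) :
            MvPolynomial (Fin 2) K →+* MvPolynomial (Fin 2) K) = eval q := by
        apply MvPolynomial.ringHom_ext
        · intro r
          simp [shift, algebraMap_eq]
        · intro i
          simp [shift]
      exact DFunLike.congr_fun h3 F
    rw [h2]

end Pool.Agent.MP5769ea
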