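import Pool.Agent.Lib.MP_5769ea_ag.Spec1

/-!
# MP_5769ea_ag: the dimension of `PD`
-/

open MvPolynomial

namespace Pool.Agent.MP5769ea

namespace PDRankAux

/-- the exponents -/
def E (d μ : ℤ) : Set (Fin 2 →₀ ℕ) := {s | ((s 0 + s 1 : ℕ) : ℤ) ≤ d ∧ ((s 1 : ℕ) : ℤ) ≤ μ}

theorem pd_eq (K : Type) [Field K] (d μ : ℤ) : PD K d μ = restrictSupport K (E d μ) := rfl

theorem ext2 {s t : Fin 2 →₀ ℕ} (h0 : s 0 = t 0) (h1 : s 1 = t 1) : s = t := by
  ext i
  fin_cases i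
  · exact h0
  · exact h1

theorem E_finite (d μ : ℤ) : (E d μ).Finite := by
  have h : (E d μ) ⊆ (fun s : Fin 2 →₀ ℕ => (s 0, s 1)) ⁻¹'
      (Set.Iic d.toNat ×ˢ Set.Iic d.toNat) := by
    intro s hs
    obtain ⟨h1, _⟩ := hs
    refine ⟨?_, ?_⟩
    · show s 0 ≤ d.toNat
      omega
    · show s 1 ≤ d.toNat
      omega
  refine Set.Finite.subset ?_ h
  refine Set.Finite.preimage ?_ ((Set.finite_Iic _).prod (Set.finite_Iic _))
  intro s _ t _ hst
  exact ext2 (congrArg Prod.fst hst) (congrArg Prod.snd hst)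

theorem card_E (d μ : ℕ) :
    Nat.card (E d μ) = ∑ j ∈ Finset.range (μ + 1), (d + 1 - j) := by
  let T : Finset (Σ _ : ℕ, ℕ) := (Finset.range (μ + 1)).sigma fun j => Finset.range (d + 1 - j)
  have hT : T.card = ∑ j ∈ Finset.range (μ + 1), (d + 1 - j) := by
    rw [Finset.card_sigma]
    simp only [Finset.card_range]
  have hT2 : Nat.card T = T.card := by
    rw [Nat.card_eq_fintype_card, Fintype.card_coe]
  rw [← hT, ← hT2]
  have hmem : ∀ s : Fin 2 →₀ ℕ, s ∈ E d μ → (⟨s 1, s 0⟩ : Σ _ : ℕ, ℕ) ∈ T := by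
    intro s hs
    obtain ⟨h1, h2⟩ := hs
    rw [Finset.mem_sigma, Finset.mem_range, Finset.mem_range]
    show s 1 < μ + 1 ∧ s 0 < d + 1 - s 1
    omega
  refine Nat.card_eq_of_bijective
    (fun s : E d μ => (⟨⟨s.1 1, s.1 0⟩, hmem s.1 s.2⟩ : T)) ⟨?_, ?_⟩
  · rintro ⟨s, hs⟩ ⟨t, ht⟩ hst
    apply Subtype.ext
    have h := congrArg Subtype.val hst
    have h1 : s 1 = t 1 := congrArg Sigma.fst h
    have h0 : s 0 = t 0 := congrArg (fun x : Σ _ : ℕ, ℕ => x.2) h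
    exact ext2 h0 h1
  · rintro ⟨⟨j, i⟩, hji⟩
    have hji' := hji
    rw [Finset.mem_sigma, Finset.mem_range, Finset.mem_range] at hji'
    have h1 : j < μ + 1 := hji'.1
    have h2 : i < d + 1 - j := hji'.2
    let s : Fin 2 →₀ ℕ := Finsupp.equivFunOnFinite.symm ![i, j]
    have hs0 : s 0 = i := rfl
    have hs1 : s 1 = j := rfl
    have hs : s ∈ E d μ := by
      refine ⟨?_, ?_⟩
      · rw [hs0, hs1]
        push_cast
        omega
      · rw [hs1]
        omega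
    exact ⟨⟨s, hs⟩, rfl⟩

theorem sum_eq (d μ : ℕ) (h : μ ≤ d) :
    2 * ((∑ j ∈ Finset.range (μ + 1), (d + 1 - j) : ℕ) : ℤ) = (μ + 1) * (2 * d + 2 - μ) := by
  induction μ with
  | zero => simp; ring
  | succ n ih =>
    rw [Finset.sum_range_succ]
    have h1 := ih (by omega)
    push_cast
    push_cast at h1
    rw [mul_add, h1, Nat.cast_sub (by omega)]
    ring

end PDRankAux

open PDRankAux in
theorem PDRank : S_PDRank := by
  intro K _
  refine ⟨fun d μ => ?_, fun d μ h => ?_, fun d μ h => ?_, fun d μ h => ?_⟩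
  · have : Finite (E d μ) := E_finite d μ
    exact Module.Finite.of_basis (basisRestrictSupport K (E d μ))
  · rw [eq_bot_iff]
    intro F hF
    rw [pd_eq, mem_restrictSupport_iff] at hF
    rw [Submodule.mem_bot, ← MvPolynomial.support_eq_empty]
    rw [Finset.eq_empty_iff_forall_notMem]
    intro s hs
    obtain ⟨h1, h2⟩ := hF hs
    omega
  · have h1 : Module.finrank K (PD K d μ) = Nat.card (E d μ) :=
      Module.finrank_eq_nat_card_basis (basisRestrictSupport K (E d μ))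
    rw [h1, card_E]
    exact sum_eq d μ h
  · rw [pd_eq, pd_eq]
    congr 1
    ext s
    show ((s 0 + s 1 : ℕ) : ℤ) ≤ d ∧ ((s 1 : ℕ) : ℤ) ≤ μ ↔
      ((s 0 + s 1 : ℕ) : ℤ) ≤ d ∧ ((s 1 : ℕ) : ℤ) ≤ d
    omega

end Pool.Agent.MP5769ea
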