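import Pool.Agent.Lib.MP_5769ea_ag.Spec2
import Pool.Agent.Lib.MP_5769ea_ag.PDRank
import Pool.Agent.Lib.MP_5769ea_ag.OrdBasic
import Pool.Agent.Lib.MP_5769ea_ag.GenUp

/-!
# MP_5769ea_ag: GenPos, elementary consequences of genericity
-/

set_option autoImplicit false

open MvPolynomial

namespace Pool.Agent.MP5769ea

namespace GenPosAux

theorem up_pt {K : Type} [Field K] [Algebra ℂ K] (t y : Fin 12 → ℂ) (i : Fin 12) :
    (up (pt t y i) : Fin 2 → K) = pt (up t) (up y) i := by
  funext j
  fin_cases j <;> rfl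

theorem noncol (t y : Fin 12 → ℂ) (hg : Gen t y) (i j k : Fin 12) (hij : i ≠ j) (hik : i ≠ k)
    (hjk : j ≠ k) : (t j - t i) * (y k - y i) - (t k - t i) * (y j - y i) ≠ 0 := by
  intro h
  let p : MvPolynomial (Fin 12 ⊕ Fin 12) ℚ :=
    (X (Sum.inl j) - X (Sum.inl i)) * (X (Sum.inr k) - X (Sum.inr i)) -
      (X (Sum.inl k) - X (Sum.inl i)) * (X (Sum.inr j) - X (Sum.inr i))
  have hp : aeval (Sum.elim t y) p = 0 := by
    simp only [p, map_sub, map_mul, aeval_X, Sum.elim_inl, Sum.elim_inr]
    exact h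
  have hp0 : p = 0 := (algebraicIndependent_iff.1 hg) p hp
  have h1 : eval (Sum.elim (fun a => if a = j then (1 : ℚ) else 0)
      (fun a => if a = k then (1 : ℚ) else 0)) p = 0 := by rw [hp0, map_zero]
  simp [p, hij, hik, hjk, hij.symm, hik.symm, hjk.symm] at h1

theorem zero_of_card (hS : S_Simple) (t y : Fin 12 → ℂ) (hg : Gen t y) (K : Type) [Field K]
    [Algebra ℂ K] (F : MvPolynomial (Fin 2) K) (I : Finset (Fin 12))
    (hI : ∀ i ∈ I, eval (up (pt t y i)) F = 0) (d μ : ℤ)
    (hd : (Module.finrank K (PD K d μ) : ℤ) ≤ I.card) (hF : F ∈ PD K d μ) : F = 0 := by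
  have hc : CharZero K := charZero_of_injective_algebraMap (algebraMap ℂ K).injective
  have hgK : Gen (up t : Fin 12 → K) (up y) := (GenUp t y hg K).1
  obtain ⟨o1, -, -, -, -, o6⟩ := OrdBasic K (0 : Fin 2 → K)
  have h1 := hS K 12 (up t) (up y) hgK d μ (fun i => if i ∈ I then 1 else 0) (fun i => by
    by_cases h : i ∈ I
    · right; simp [h]
    · left; simp [h])
  have hsum : ∑ i : Fin 12, (if i ∈ I then (1 : ℤ) else 0) = I.card := by
    rw [Finset.sum_ite_mem, Finset.univ_inter, Finset.sum_const]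
    simp
  rw [hsum] at h1
  have h2 : (Module.finrank K (PD K d μ) : ℤ) - (I.card : ℤ) ≤ 0 := by omega
  rw [max_eq_left h2] at h1
  have h3 : Module.finrank K (HH (pt (up t : Fin 12 → K) (up y)) d μ
      (fun i => if i ∈ I then 1 else 0)) = 0 := by omega
  have hfd : FiniteDimensional K (PD K d μ) := (PDRank K).1 d μ
  have hle : HH (pt (up t : Fin 12 → K) (up y)) d μ (fun i => if i ∈ I then 1 else 0) ≤
      PD K d μ := inf_le_left
  have hfd2 : FiniteDimensional K (HH (pt (up t : Fin 12 → K) (up y)) d μ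
      (fun i => if i ∈ I then 1 else 0)) := Submodule.finiteDimensional_of_le hle
  have h4 : HH (pt (up t : Fin 12 → K) (up y)) d μ (fun i => if i ∈ I then 1 else 0) = ⊥ :=
    Submodule.finrank_eq_zero.1 h3
  have h5 : F ∈ HH (pt (up t : Fin 12 → K) (up y)) d μ (fun i => if i ∈ I then 1 else 0) := by
    refine ⟨hF, ?_⟩
    rw [SetLike.mem_coe, Submodule.mem_iInf]
    intro i
    obtain ⟨o1, -, -, -, -, o6⟩ := OrdBasic K (pt (up t : Fin 12 → K) (up y) i)
    by_cases h : i ∈ I
    · simp only [h, if_pos]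
      rw [o6, ← up_pt]
      exact hI i h
    · simp only [h, if_neg, not_false_eq_true]
      rw [o1 0 le_rfl]
      exact Submodule.mem_top
  rw [h4] at h5
  exact (Submodule.mem_bot K).1 h5

end GenPosAux

theorem GenPos (hS : S_Simple) : S_GenPos := by
  intro t y hg K _ _
  refine ⟨?_, ?_, ?_⟩
  · intro i j hij h
    have h1 := hg.injective (a₁ := Sum.inl i) (a₂ := Sum.inl j) h
    exact hij (Sum.inl_injective h1)
  · intro i j k hij hik hjk
    exact GenPosAux.noncol t y hg i j k hij hik hjk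
  · intro F I hI
    obtain ⟨-, -, hr, -⟩ := PDRank K
    refine ⟨fun hF hc => ?_, fun hF hc => ?_, fun hF hc => ?_, fun hF hc => ?_⟩
    · refine GenPosAux.zero_of_card hS t y hg K F I hI 2 1 ?_ hF
      have := hr 2 1 (by norm_num)
      push_cast at this
      omega
    · refine GenPosAux.zero_of_card hS t y hg K F I hI 3 1 ?_ hF
      have := hr 3 1 (by norm_num)
      push_cast at this
      omega
    · refine GenPosAux.zero_of_card hS t y hg K F I hI 2 2 ?_ hF
      have := hr 2 2 (by norm_num)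
      push_cast at this
      omega
    · refine GenPosAux.zero_of_card hS t y hg K F I hI 3 3 ?_ hF
      have := hr 3 3 (by norm_num)
      push_cast at this
      omega

end Pool.Agent.MP5769ea
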