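import Pool.Agent.Lib.MP_5769ea_ag.Defs2

/-!
# MP_5769ea_ag, Spec, part 1: plane polynomials

Every `def S_Foo : Prop` below is one Lean task: write
`Pool/Agent/Lib/MP_5769ea_ag/Foo.lean` containing `theorem Foo (hyp : S_A) ... : S_Foo` in the namespace `Pool.Agent.MP5769ea`, where
the allowed hypotheses (other `S_...`) are listed in the docstring.  Everything is elementary; the
docstring contains a complete proof.
-/

open MvPolynomial

namespace Pool.Agent.MP5769ea

/-! ### A. Basic facts on `PD` and `OrdGE` -/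

/-- **PDBasic.**  (1) membership of a nonzero polynomial in `PD` in terms of `totalDegree` and
`degreeOf 1`; (2) products.
PROOF. (1) `F ∈ PD K d μ` iff every monomial `s` of the support satisfies `s 0 + s 1 ≤ d` and
`s 1 ≤ μ`; for `F ≠ 0` the support is nonempty, `totalDegree F` is the maximum of `s 0 + s 1` and
`degreeOf 1 F` the maximum of `s 1` over the support (`totalDegree_le_iff`-type lemmas,
`degreeOf_le_iff`; for `Fin 2` the sum of a finsupp `s.sum fun _ e => e` is `s 0 + s 1`).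
(2) the support of a product is contained in the sum of the supports. (3) over a domain the
total degree is additive (`MvPolynomial.totalDegree_mul_of_isDomain`) and so is the degree in one
variable (`MvPolynomial.degreeOf_mul_eq`, or via `finSuccEquiv`/`optionEquivLeft`). -/
def S_PDBasic : Prop :=
  ∀ (K : Type) [Field K],
    (∀ (F : MvPolynomial (Fin 2) K) (d μ : ℤ), F ≠ 0 →
      (F ∈ PD K d μ ↔ (F.totalDegree : ℤ) ≤ d ∧ ((F.degreeOf 1 : ℕ) : ℤ) ≤ μ)) ∧
    (∀ (F G : MvPolynomial (Fin 2) K) (a μ b ν : ℤ), F ∈ PD K a μ → G ∈ PD K b ν →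
      F * G ∈ PD K (a + b) (μ + ν)) ∧
    (∀ F G : MvPolynomial (Fin 2) K, F ≠ 0 → G ≠ 0 →
      (F * G).totalDegree = F.totalDegree + G.totalDegree ∧
      (F * G).degreeOf 1 = F.degreeOf 1 + G.degreeOf 1)

/-- **PDRank.**  `dim PD(d, μ) = Σ_{j=0}^{μ} (d + 1 - j) = (μ+1)(2d+2-μ)/2` for `0 ≤ μ ≤ d`, `PD` is
finite-dimensional, and zero for negative `d` or `μ`.
PROOF. `MvPolynomial.basisRestrictSupport` is a basis indexed by the set
`{s | s 0 + s 1 ≤ d, s 1 ≤ μ}`, which is in bijection with the finset of pairs `(i, j)`, `j ≤ μ`,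
`i + j ≤ d` (`Finsupp.equivFunOnFinite`, `Fin 2 → ℕ`); it is finite; count it by `j`. -/
def S_PDRank : Prop :=
  ∀ (K : Type) [Field K],
    (∀ d μ : ℤ, FiniteDimensional K (PD K d μ)) ∧
    (∀ d μ : ℤ, (d < 0 ∨ μ < 0) → PD K d μ = ⊥) ∧
    (∀ d μ : ℕ, μ ≤ d →
      2 * (Module.finrank K (PD K d μ) : ℤ) = (μ + 1) * (2 * d + 2 - μ)) ∧
    (∀ d μ : ℤ, d ≤ μ → PD K d μ = PD K d d)

/-- **OrdBasic.**  Orders of vanishing at a point.
PROOF. `shift q` is an automorphism of the algebra (inverse `shift (-q)`), so everything reduces to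
`q = 0`, where `OrdGE` is the set of polynomials all of whose monomials have degree `≥ g`.
(1) clear. (2) the degrees of monomials add. (3) and (4): view the polynomials as power series,
`MvPowerSeries.order` is additive on a domain (`MvPowerSeries.order_mul`), `F ∈ OrdGE 0 g` iff
`g ≤ order`, and a nonzero series has finite order.  (Or directly: the product of the lowest
homogeneous components is nonzero.)  (5) the constant coefficient of `shift q F` is `F(q)`. -/
def S_OrdBasic : Prop :=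
  ∀ (K : Type) [Field K] (q : Fin 2 → K),
    (∀ g : ℤ, g ≤ 0 → OrdGE q g = ⊤) ∧
    (∀ g h : ℤ, g ≤ h → OrdGE q h ≤ OrdGE q g) ∧
    (∀ (F G : MvPolynomial (Fin 2) K) (a b : ℤ), 0 ≤ a → 0 ≤ b → F ∈ OrdGE q a → G ∈ OrdGE q b →
      F * G ∈ OrdGE q (a + b)) ∧
    (∀ (F G : MvPolynomial (Fin 2) K) (a b : ℤ), F ∉ OrdGE q a → G ∉ OrdGE q b →
      F * G ∉ OrdGE q (a + b - 1)) ∧
    (∀ F : MvPolynomial (Fin 2) K, F ≠ 0 → ∃ k : ℕ, F ∈ OrdGE q k ∧ F ∉ OrdGE q (k + 1)) ∧
    (∀ F : MvPolynomial (Fin 2) K, F ∈ OrdGE q 1 ↔ eval q F = 0)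

/-! ### B. Restriction to the rational quartic `Q = (y - t^2)^2 - t` -/

/-- **QKer.**  The kernel of `psi : t ↦ s^2, y ↦ s^4 + s` is generated by `Q`, which is prime, lies
in `PD 4 2` with exact degrees `(4, 2)`, and has order exactly `1` at all points `(s^2, s^4 + s)`.
PROOF. The algebra automorphism `α : X 0 ↦ X 0, X 1 ↦ X 1 + X 0^2` (inverse `X 1 ↦ X 1 - X 0^2`)
turns `psi` into `X 0 ↦ s^2, X 1 ↦ s` and `Q` into `X 1^2 - X 0`.  If `F(s^2, s) = 0`, then
`F ≡ F(X 1^2, X 1) = 0` modulo `X 1^2 - X 0` (because `X 0 ≡ X 1^2`), so `F` is a multiple of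
`X 1^2 - X 0`.  Hence `ker psi = (Q)` is a prime ideal (the target is a domain), so `Q` is prime.
`Q = X 1^2 - 2 X 1 X 0^2 + X 0^4 - X 0`: total degree 4, degree 2 in `X 1`.  The gradient of `Q`
at `(s^2, s^4+s)` is `(-4 s^2·s - 1, 2 s)`, which is nonzero (if `s = 0` the first entry is `-1`),
and `Q` vanishes there.  For characteristic 2 the statement on the order still holds because the
first entry is then `-1`; but only characteristic 0 is asked for. -/
def S_QKer : Prop :=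
  ∀ (K : Type) [Field K] [CharZero K],
    (∀ F : MvPolynomial (Fin 2) K, psi K F = 0 ↔ Qp K ∣ F) ∧ Prime (Qp K) ∧
    (Qp K).totalDegree = 4 ∧ (Qp K).degreeOf 1 = 2 ∧
    (∀ s : K, Qp K ∈ OrdGE (![s ^ 2, s ^ 4 + s] : Fin 2 → K) 1 ∧
      Qp K ∉ OrdGE (![s ^ 2, s ^ 4 + s] : Fin 2 → K) 2)

/-- **PsiW.**  Degrees and two linear relations for `psi F`, `F ∈ PD d μ`, and orders.
PROOF. (1)-(3): by linearity `F = t^i y^j` with `i + j ≤ d`, `j ≤ μ`;
`psi F = s^{2i} (s^4 + s)^j = Σ_l C(j,l) s^{2i + 4j - 3l}`.  Put `M = 2(d+μ)`.  We have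
`2i + 4j = 2(i+j) + 2j ≤ M`, with equality only for `i + j = d`, `j = μ`.  The exponent
`2i + 4j - 3l` equals `M - 1` only if `l` is odd, and then `2i + 4j ≥ M - 1 + 3 > M`: impossible.
It equals `M - 3` only if `l` is odd (parity), and then `2i+4j = M - 3 + 3l ≤ M` forces `l = 1` and
`2i + 4j = M`, i.e. `j = μ`, `i = d - μ`; the coefficient is `C(μ,1) = μ` times the coefficient of
`s^M`.  (4) `F ∈ OrdGE (s₀^2, s₀^4+s₀) g` means `F` is in the `g`-th power of the ideal
`(X 0 - s₀^2, X 1 - s₀^4 - s₀)`, i.e. `F(q + ·)` has only monomials of degree `≥ g`, and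
`psi (X 0 - s₀^2)`, `psi (X 1 - s₀^4 - s₀)` are divisible by `X - s₀`. -/
def S_PsiW : Prop :=
  ∀ (K : Type) [Field K] [CharZero K] (F : MvPolynomial (Fin 2) K),
    (∀ d μ : ℕ, F ∈ PD K d μ →
      (psi K F).natDegree ≤ 2 * (d + μ) ∧
      (1 ≤ d + μ → (psi K F).coeff (2 * (d + μ) - 1) = 0) ∧
      (2 ≤ d + μ → (psi K F).coeff (2 * (d + μ) - 3) = μ * (psi K F).coeff (2 * (d + μ)))) ∧
    (∀ (s : K) (g : ℕ), F ∈ OrdGE (![s ^ 2, s ^ 4 + s] : Fin 2 → K) g →
      (Polynomial.X - Polynomial.C s) ^ g ∣ psi K F)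

/-- **Wro.**  Generic points impose independent conditions (with multiplicities) on a
finite-dimensional space of polynomials in one variable defined over `ℚ`.
PROOF. Induction on the number `N` of points; prove the more general statement with `ℚ` replaced by
a field `k` of characteristic zero and `s` algebraically independent over `k`
(or: over the base field `k_j = ℚ(s_0..s_{j-1})`).  Key step (one point): `W' ⊆ k[X]` a
`k`-subspace of dimension `w`, `s ∈ K` transcendental over `k`, `g ≤ w` (if `g > w` replace `g` by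
`w`).  Choose a basis `f_1, ..., f_w` of `W'` with distinct degrees `n_1 < ... < n_w`.  The
determinant `D(X) = det (f_l^{(j)}(X) / j!)_{j < g, l ≤ g} ∈ k[X]` has leading coefficient
`Π lc(f_l) · det (C(n_l, j))_{j,l}` in degree `Σ n_l - Σ j`, and `det C(n_l, j)` is the Vandermonde
determinant `Π (n_b - n_a)` divided by `Π j!`, not zero.  So `D(s) ≠ 0`: the `g` linear functionals
`f ↦ f^{(j)}(s)/j!`, `j < g`, are linearly independent on `W' ⊗ K`, i.e.
`dim {f ∈ W' ⊗ K : (X - s)^g ∣ f} = w - g`; moreover this space is defined over `k(s)`.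
Alternative for the whole statement: the determinant of the `w × w` matrix of the functionals
`f ↦ f^{(j)}(s_i)/j!` (`j < g_i`, after decreasing the `g_i` so that `Σ g_i = w`) is a nonzero
polynomial in the `s_i` over `ℚ` (Laplace expansion along the rows of the last point, the leading
coefficient in `s_N` is a nonzero constant times the determinant for the first `N - 1` points and
the polynomials `f_l` of small degree), hence nonzero at algebraically independent elements. -/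
def S_Wro : Prop :=
  ∀ (K : Type) [Field K] [CharZero K] (N : ℕ) (s : Fin N → K), AlgebraicIndependent ℚ s →
    ∀ (V : Submodule ℚ (Polynomial ℚ)) [FiniteDimensional ℚ V] (g : Fin N → ℕ)
      (W : Submodule K (Polynomial K)),
      (∀ f ∈ W, ∀ i, (Polynomial.X - Polynomial.C (s i)) ^ (g i) ∣ f) →
      W ≤ Submodule.span K (Polynomial.map (algebraMap ℚ K) '' (V : Set (Polynomial ℚ))) →
      Module.finrank K W ≤ Module.finrank ℚ V - ∑ i, g i

/-- **QStep.**  Allowed hypotheses: `S_PDBasic, S_PDRank, S_OrdBasic, S_QKer, S_PsiW, S_Wro`.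
PROOF. `H = HH(d, μ; g)`, finite-dimensional.  Restrict the linear map `psi` to `H`.
Kernel: if `psi F = 0` then `F = Q G`; the degrees are additive and the orders too
(`Q` has order exactly 1 at the points, so `G ∈ OrdGE (g_i - 1)`: otherwise `G ∉ OrdGE (g_i - 1)`,
`Q ∉ OrdGE 2` give `Q G ∉ OrdGE (g_i - 1 + 2 - 1) = OrdGE g_i`), so `G ∈ HH(d - 4, μ - 2; g - 1)`; thus
`dim ker ≤ dim HH(d-4, μ-2; g-1)` (the map `G ↦ Q G` is injective).
Image: contained in the `K`-span of the rational space `V = psi_ℚ(PD ℚ d μ)` and all its elements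
are divisible by `(X - s_i)^{g_i^+}` (PsiW).  `dim_ℚ V ≤ 2(d+μ) - 1`: for `d + μ ≥ 2` the space `V`
lies in the space of polynomials of degree `≤ M = 2(d+μ)` satisfying the two independent linear
conditions `coeff (M-1) = 0`, `coeff (M-3) = μ coeff M`, of dimension `M + 1 - 2`; for
`(d, μ) = (0, 1)` one has `V = ℚ`, dimension `1 = 2·1 - 1`.  By Wro
`dim image ≤ max(0, 2(d+μ) - 1 - Σ g_i^+)`. -/
def S_QStep : Prop :=
  ∀ (K : Type) [Field K] [CharZero K] (N : ℕ) (s : Fin N → K), AlgebraicIndependent ℚ s →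
    ∀ (d μ : ℕ) (g : Fin N → ℤ), ¬ (d = 0 ∧ μ = 0) → ¬ (d = 1 ∧ μ = 0) →
      (Module.finrank K (HH (sp s) d μ g) : ℤ) ≤
        max 0 (2 * d + 2 * μ - 1 - ∑ i, max (g i) 0) +
          Module.finrank K (HH (sp s) (d - 4) (μ - 2) (fun i => g i - 1))

/-- **QNef.**  Allowed hypotheses: `S_PDBasic, S_PDRank, S_OrdBasic, S_QKer, S_PsiW`.
`L_0` is nef: a nonzero polynomial in `HH(d, μ; g)` at (at most) 12 generic points of the quartic
satisfies `Σ g_i ≤ 2 d + 2 μ`.
PROOF. Induction on `d` (natural number; `d, μ ≥ 0` because `F ≠ 0`).  If `psi F ≠ 0`: its degree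
is `≤ 2(d + μ)` (use `PD K d μ = PD K d d` if `μ > d`; anyway PsiW holds for all naturals), and it
is divisible by the product of the `(X - s_i)^{g_i^+}` (pairwise coprime, the `s_i` are distinct),
so `Σ g_i ≤ Σ g_i^+ ≤ 2(d + μ)`.  If `psi F = 0`: `F = Q G` with
`0 ≠ G ∈ HH(d-4, μ-2; g-1)`, so by induction `Σ g_i - 12 ≤ 2(d-4) + 2(μ-2) = 2d + 2μ - 12`. -/
def S_QNef : Prop :=
  ∀ (K : Type) [Field K] [CharZero K] (s : Fin 12 → K), Function.Injective s →
    ∀ (d μ : ℤ) (g : Fin 12 → ℤ) (F : MvPolynomial (Fin 2) K), F ≠ 0 →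
      F ∈ HH (sp s) d μ g → ∑ i, g i ≤ 2 * d + 2 * μ

/-- **QA1.**  Allowed hypotheses: `S_PDRank, S_QStep`.
`dim HH(4m+6, 2m+1; m+1) ≤ m + 1` at 12 generic points of the quartic.
PROOF. Induction on `m`: by QStep the dimension is at most
`max 0 (2(4m+6) + 2(2m+1) - 1 - 12(m+1)) + dim HH(4m+2, 2m-1; m) = 1 + ...`.  For `m = 0` the last
space is `HH(2, -1; 0) = 0`. -/
def S_QA1 : Prop :=
  ∀ (K : Type) [Field K] [CharZero K] (s : Fin 12 → K), AlgebraicIndependent ℚ s → ∀ m : ℕ,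
    Module.finrank K (HH (sp s) (4 * m + 6) (2 * m + 1) (fun _ => m + 1)) ≤ m + 1

/-- **QA3.**  Allowed hypotheses: `S_PDBasic, S_PDRank, S_OrdBasic, S_QKer, S_PsiW, S_Wro,
S_QStep`.
PROOF. Put `e = 2c + 2κ - Σ γ_i ≥ 5`.  Induction on `m`, claim
`dim HH(4m+5-c, 2m+1-κ; m-γ) ≤ 6(m+1)`.
Step `m ≥ 1`: let `(d, μ) = (4m+5-c, 2m+1-κ)`.  If `d < 0` or `μ < 0` the space is zero.  If
`(d, μ)` is `(0,0)` or `(1,0)` the dimension is at most `dim PD ≤ 2`.  Otherwise QStep gives
`≤ max 0 (2d + 2μ - 1 - Σ (m-γ_i)^+) + dim HH(4(m-1)+5-c, 2(m-1)+1-κ; (m-1)-γ)` and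
`2d+2μ-1-Σ(m-γ_i)^+ ≤ 12m + 12 - 2c - 2κ - 1 - 12 m + Σ γ_i = 11 - e ≤ 6`.
Base `m = 0`: the space `HH(5-c, 1-κ; -γ)`; only the indices with `γ_i = -1` give a condition
(order `≥ 1`, i.e. vanishing at the point), let `n` be their number; `n ≥ - Σ γ_i ≥ 5 - 2c - 2κ`.
`κ ≥ 2`: zero.  `κ = 1`: polynomials in `t` only of degree `≤ 5 - c`; for `c ≥ 0` the dimension is
`≤ 6`; for `c = -1` it is `7 - min(n,7) ≤ 6` (`n ≥ 5`), as generic points impose independent
conditions (Wro with all `g_i ∈ {0,1}`; `psi` is injective on polynomials of `y`-degree `≤ 1`,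
because a nonzero multiple of `Q` has `y`-degree `≥ 2`).  `κ = 0`: `PD(5-c, 1)` has dimension
`11 - 2c` (for `c ≤ 4`; `c = -1`: 13; for `c = 5`: 1; for `c ≥ 6`: 0), `psi` is injective on it and
its image is defined over `ℚ`; so by Wro the dimension is `≤ max 0 (11 - 2c - n)`, and
`n ≥ 5 - 2c` gives `≤ 6`; for `c ≥ 3` directly `≤ 6`. -/
def S_QA3 : Prop :=
  ∀ (K : Type) [Field K] [CharZero K] (s : Fin 12 → K), AlgebraicIndependent ℚ s →
    ∀ (m : ℕ) (c κ : ℤ) (γ : Fin 12 → ℤ), -1 ≤ c → 0 ≤ κ → (∀ i, -1 ≤ γ i) →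
      5 ≤ 2 * c + 2 * κ - ∑ i, γ i →
      Module.finrank K (HH (sp s) (4 * m + 5 - c) (2 * m + 1 - κ) (fun i => m - γ i)) ≤
        6 * (m + 1)

/-- **QT6.**  Allowed hypotheses: `S_PDBasic, S_PDRank, S_OrdBasic, S_QKer, S_PsiW, S_Wro,
S_QStep`.  Three small dimension counts at 12 generic points of the quartic.
PROOF. (1) `HH(8, 4; 2 (11 times), 0)`: QStep: `≤ max 0 (16+8-1-22) + dim HH(4, 2; 1 (11), -1)`
`= 1 + dim HH(4,2; 1 (11), -1)`, and again QStep: `dim HH(4,2;1(11),-1) ≤ max 0 (12 - 1 - 11) +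
dim HH(0,0; 0(11), -2) = 0 + 1`.  Total `≤ 2`.  (2) `HH(8,4;2 (12)) ≤ max 0 (-1) + HH(4,2;1(12))
≤ 0 + (max 0 (-1) + dim HH(0,0;0)) ≤ 1`. -/
def S_QT6 : Prop :=
  ∀ (K : Type) [Field K] [CharZero K] (s : Fin 12 → K), AlgebraicIndependent ℚ s →
    (∀ i₀ : Fin 12,
      Module.finrank K (HH (sp s) 8 4 (fun i => if i = i₀ then 0 else 2)) ≤ 2) ∧
    Module.finrank K (HH (sp s) 8 4 (fun _ => 2)) ≤ 1

/-! ### C. Semicontinuity and generic points -/

/-- **SemiCont.**  The dimension of `HH` does not decrease under specialisation.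
PROOF. Let `S` be the finite set of exponents of `PD d μ`.  `HH` at the points `f(q_i)` is the
kernel of the linear map given by the matrix `A` with columns indexed by `S` and rows by pairs
`(i, r)`, `r = (a, b)` with `a + b < g_i`, entry: the coefficient of `u^a v^b` in
`(q_i0 + u)^{s0} (q_i1 + v)^{s1}`, i.e. `C(s0,a) C(s1,b) q_i0^{s0-a} q_i1^{s1-b}`, an element of
`R` (mapped by the ring homomorphism).  So `dim HH = |S| - rank (f A)`.  If `rank (φ A) = r` then
some `r × r` minor of `φ A` is nonzero, it is the image of the minor of `A`, which is therefore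
nonzero, and so is its image under the injective `ι`: `rank (ι A) ≥ r`. -/
def S_SemiCont : Prop :=
  ∀ (R K₁ K₂ : Type) [CommRing R] [Field K₁] [Field K₂] (φ : R →+* K₁) (ι : R →+* K₂),
    Function.Injective ι → ∀ (N : ℕ) (q : Fin N → Fin 2 → R) (d μ : ℤ) (g : Fin N → ℤ),
      Module.finrank K₂ (HH (fun i j => ι (q i j)) d μ g) ≤
        Module.finrank K₁ (HH (fun i j => φ (q i j)) d μ g)

/-- **GenBound.**  Allowed hypotheses: `S_SemiCont, S_PDRank`.  A bound valid at `N` generic points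
of the quartic is valid at `N` generic points of the plane.
PROOF. Let `R = MvPolynomial (Fin N ⊕ Fin N) ℚ`, `q i = ![X (inl i), X (inr i)]`,
`ι = aeval (Sum.elim t y)` (injective by `Gen`), `K₁ = FractionRing (MvPolynomial (Fin N) ℚ)`,
`s i = X i` (algebraically independent), `φ = aeval (Sum.elim (s_i^2) (s_i^4 + s_i))`. -/
def S_GenBound : Prop :=
  ∀ (N : ℕ) (d μ : ℤ) (g : Fin N → ℤ) (B : ℕ),
    (∀ (K₁ : Type) [Field K₁] [CharZero K₁] (s : Fin N → K₁), AlgebraicIndependent ℚ s →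
      Module.finrank K₁ (HH (sp s) d μ g) ≤ B) →
    ∀ (K : Type) [Field K] [CharZero K] (t y : Fin N → K), Gen t y →
      Module.finrank K (HH (pt t y) d μ g) ≤ B

/-- **Simple.**  Generic points impose independent conditions on `PD`.
PROOF. Let `S` be the exponent set of `PD d μ` and `n` the number of `i` with `g_i = 1`.  We may
assume `n ≤ |S|` (drop some points; if `n > |S|` the bound is `0` and follows from the case
`n = |S|`).  The matrix `(t_i^{a} y_i^{b})`, `i` with `g_i = 1`, `(a,b) ∈ S`, has rank `n`: choose `n`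
distinct exponents; the determinant `det (T_i^{a_k} Y_i^{b_k})` is a nonzero polynomial over `ℚ`
(its `n!` terms `± Π T_i^{a_σ(i)} Y_i^{b_σ(i)}` are distinct monomials), so it is nonzero at
algebraically independent elements. -/
def S_Simple : Prop :=
  ∀ (K : Type) [Field K] [CharZero K] (N : ℕ) (t y : Fin N → K), Gen t y →
    ∀ (d μ : ℤ) (g : Fin N → ℤ), (∀ i, g i = 0 ∨ g i = 1) →
      (Module.finrank K (HH (pt t y) d μ g) : ℤ) ≤
        max 0 (Module.finrank K (PD K d μ) - ∑ i, g i)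

/-- **Dims.**  Allowed hypotheses: `S_PDRank, S_QA1, S_GenBound, S_OrdBasic`.  Exact dimensions at
12 generic points.
PROOF. For all `d μ g` the dimension of `HH(d,μ;g)` is at least `dim PD - Σ g_i(g_i+1)/2` (`g_i ≥ 0`)
(number of linear conditions).  By QA1 and GenBound, `dim HH(4m+6,2m+1;m+1) ≤ m + 1`, and
`dim PD(4m+6,2m+1) - 12 (m+1)(m+2)/2 = (m+1)(6m+13) - 6(m+1)(m+2) = m + 1`.  Hence the conditions
are independent: (J) the linear map `PD(4m+6,2m+1) → Π_i (jets of order < m+1 at q_i)` is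
surjective.  Consequently (J') for every larger space and every smaller order the jet maps are
surjective and the dimensions are the expected ones:
`PD(4m+6,2m+2) ⊇ PD(4m+6,2m+1)`, order `m`: `dim = (2m+3)(3m+6) - 6m(m+1) = 15m + 18`;
`PD(4m+5,2m+1) ⊇ PD(4(m-1)+6, 2(m-1)+1)`, order `m` (for `m = 0` there is no condition):
`dim = (m+1)(6m+11) - 6m(m+1) = 11m + 11`;
`PD(4m+6,2m+1)`, order `m`: `dim = (m+1)(6m+13) - 6m(m+1) = 13m + 13`.
(4): leading jets: the subspace `PD(4m+6,2m+1) ∩ OrdGE m` maps onto the product over `i` of the spaces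
of order-`m` homogeneous jets, in the form stated: for every family `f_i` of polynomials of order
`≥ m` at `q_i` there is `F` in it with `F - f_i ∈ OrdGE (m+1)`. -/
def S_Dims : Prop :=
  ∀ (K : Type) [Field K] [CharZero K] (t y : Fin 12 → K), Gen t y → ∀ m : ℕ,
    Module.finrank K (HH (pt t y) (4 * m + 6) (2 * m + 2) (fun _ => m)) = 15 * m + 18 ∧
    Module.finrank K (HH (pt t y) (4 * m + 5) (2 * m + 1) (fun _ => m)) = 11 * m + 11 ∧
    Module.finrank K (HH (pt t y) (4 * m + 6) (2 * m + 1) (fun _ => m + 1)) = m + 1 ∧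
    (∀ f : Fin 12 → MvPolynomial (Fin 2) K, (∀ i, f i ∈ OrdGE (pt t y i) m) →
      ∃ F ∈ HH (pt t y) (4 * m + 6) (2 * m + 1) (fun _ => m),
        ∀ i, F - f i ∈ OrdGE (pt t y i) (m + 1))

/-- **VVRank.**  Allowed hypotheses: `S_PDBasic, S_OrdBasic, S_Dims`.
`dim VV = 12 (m+1)` for every `x`.
PROOF. The projection `VV → HH(4m+5,2m+1;m)`, `(P,R) ↦ R`, is surjective: given `R`, apply (4) of
Dims to `f_i = x_i R`.  Its kernel is `{(P, 0) : P ∈ HH(4m+6,2m+1;m+1)}` of dimension `m + 1`.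
Total `11m + 11 + m + 1 = 12(m+1)`. -/
def S_VVRank : Prop :=
  ∀ (K : Type) [Field K] [CharZero K] (t y x : Fin 12 → K), Gen t y → ∀ m : ℕ,
    Module.finrank K (VV t y x m) = 12 * (m + 1)

/-! ### D. Bezout with multiplicities -/

/-- **BzJets.**  Polynomials of large bidegree interpolate jets at distinct points.
PROOF. Chinese remainder theorem: the ideals `𝔪_i^n` (`𝔪_i` the maximal ideal of `q_i`) are pairwise
coprime, so there is a polynomial `F` with `F - f_i ∈ 𝔪_i^n` for all `i`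
(`Ideal.exists_forall_sub_mem_ideal` or explicit products).  `OrdGE q n` contains `𝔪_q^n`.  For the
uniform bound on the degree: the quotient `K[t,y] / ∩ OrdGE q_i n` is finite-dimensional (it embeds
in the product of the spaces of jets), choose finitely many polynomials spanning the quotient and
let `D₀` be the maximum of their total degrees. -/
def S_BzJets : Prop :=
  ∀ (K : Type) [Field K] (N : ℕ) (q : Fin N → Fin 2 → K), Function.Injective q → ∀ n : ℕ,
    ∃ D₀ : ℕ, ∀ D M : ℕ, D₀ ≤ D → D₀ ≤ M → ∀ f : Fin N → MvPolynomial (Fin 2) K,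
      ∃ F ∈ PD K D M, ∀ i, F - f i ∈ OrdGE (q i) n

/-- **BzLocal.**  Local length at least `α β`.
PROOF. By a translation `q = 0`.  Put `n = α + β` (both `≥ 1`, otherwise nothing to prove).  In the
finite-dimensional space `J = K[t,y] / OrdGE 0 (n-1)` (dimension `n(n-1)/2`) the image of the ideal
`(P', R)` is the sum of the images of `P' K[t,y]` and `R K[t,y]`; the product `P' a` modulo
`OrdGE (n-1)` depends only on `a` modulo `OrdGE (n-1-α) = OrdGE (β-1)`, so the first image has dimension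
`≤ β(β-1)/2`, the second `≤ α(α-1)/2`.  `n(n-1)/2 - β(β-1)/2 - α(α-1)/2 = αβ`.  Formulated with a
linearly independent family: there are `α β` polynomials whose classes are linearly independent
modulo `(P', R) + OrdGE (n-1)`. -/
def S_BzLocal : Prop :=
  ∀ (K : Type) [Field K] (q : Fin 2 → K) (α β : ℕ) (P R : MvPolynomial (Fin 2) K),
    P ∈ OrdGE q α → R ∈ OrdGE q β →
      ∃ f : Fin (α * β) → MvPolynomial (Fin 2) K,
        ∀ c : Fin (α * β) → K,
          (∃ a b : MvPolynomial (Fin 2) K,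
            (∑ k, C (c k) * f k) - a * P - b * R ∈ OrdGE q ((α : ℤ) + β - 1)) → c = 0

/-- **BzGlobal.**  Allowed hypotheses: `S_PDBasic, S_PDRank`.
PROOF. `P, R` are nonzero unless one of them is zero and the other a unit (relatively prime): treat
these trivial cases apart (if `P = 0` then `R` is a nonzero constant, and with `D, M` large the
space `I` is everything).  Let `(d₁', μ₁') ≤ (d₁, μ₁)`, `(d₂', μ₂') ≤ (d₂, μ₂)` be the exact
(total degree, `y`-degree) of `P, R`; `μ' ≤ d'`.  For `D, M` large, `M + d₁ + d₂ ≤ D`, let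
`I' = {a P + b R : a ∈ PD(D-d₁', M-μ₁'), b ∈ PD(D-d₂', M-μ₂')} ⊆ PD(D, M)`.  The kernel of
`(a, b) ↦ aP + bR` is `{(eR, -eP)}` (coprimality, UFD) with `e ∈ PD(D-d₁'-d₂', M-μ₁'-μ₂')`
(additivity of degrees).  With `p(d,μ) = (μ+1)(2d+2-μ)/2 = dim PD(d,μ)` (valid for `0 ≤ μ ≤ d`):
`dim PD(D,M) - dim I' = p(D,M) - p(D-d₁',M-μ₁') - p(D-d₂',M-μ₂') + p(D-d₁'-d₂',M-μ₁'-μ₂')
 = d₁'μ₂' + μ₁'d₂' - μ₁'μ₂'` (ring), and this is `≤ d₁μ₂ + μ₁d₂ - μ₁μ₂`: the function
`d₁μ₂ + μ₁d₂ - μ₁μ₂` is monotone in each variable in the range `μ_i ≤ d_i` (first increase `d_i`,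
then `μ_i`: the differences are `μ₂ ≥ 0` and `d₂ - μ₂ ≥ 0`).
Stated without quotients: every family of `n` polynomials of `PD(D,M)` with `n` greater than the
bound has a nontrivial linear combination in the ideal `(P, R)`. -/
def S_BzGlobal : Prop :=
  ∀ (K : Type) [Field K] (d₁ μ₁ d₂ μ₂ : ℕ), μ₁ ≤ d₁ → μ₂ ≤ d₂ →
    ∀ P R : MvPolynomial (Fin 2) K, P ∈ PD K d₁ μ₁ → R ∈ PD K d₂ μ₂ → IsRelPrime P R →
      ∃ D₀ : ℕ, ∀ D M : ℕ, D₀ ≤ M → M + D₀ ≤ D → ∀ (n : ℕ)
        (f : Fin n → MvPolynomial (Fin 2) K), (∀ k, f k ∈ PD K D M) →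
        (d₁ * μ₂ + μ₁ * d₂ - μ₁ * μ₂ : ℤ) < n →
          ∃ c : Fin n → K, c ≠ 0 ∧ ∃ a b : MvPolynomial (Fin 2) K,
            ∑ k, C (c k) * f k = a * P + b * R

/-- **Bezout.**  Allowed hypotheses: `S_PDBasic, S_OrdBasic, S_BzJets, S_BzLocal, S_BzGlobal`.
PROOF. For each `i` take the family `f_{i,k}` (`k < α_i β_i`) of BzLocal for `P - A_i R` and `R`;
by BzJets (with `n` large) there are `F_{i,k} ∈ PD(D,M)` with `F_{i,k} - f_{i,k} ∈ OrdGE q_i n` and
`F_{i,k} ∈ OrdGE q_j n` for `j ≠ i`.  If `Σ α_i β_i > d₁μ₂ + μ₁d₂ - μ₁μ₂`, BzGlobal gives a nonzero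
`c` with `Σ c_{i,k} F_{i,k} = aP + bR = a (P - A_i R) + (b + a A_i) R`.  Modulo
`OrdGE q_i (α_i+β_i-1)` this says `Σ_k c_{i,k} f_{i,k} ∈ (P - A_i R, R) + OrdGE`, so `c_{i,·} = 0` for
every `i`: contradiction. -/
def S_Bezout : Prop :=
  ∀ (K : Type) [Field K] (N : ℕ) (q : Fin N → Fin 2 → K), Function.Injective q →
    ∀ (d₁ μ₁ d₂ μ₂ : ℕ), μ₁ ≤ d₁ → μ₂ ≤ d₂ →
    ∀ P R : MvPolynomial (Fin 2) K, P ∈ PD K d₁ μ₁ → R ∈ PD K d₂ μ₂ → IsRelPrime P R →
    ∀ (α β : Fin N → ℕ) (A : Fin N → MvPolynomial (Fin 2) K),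
      (∀ i, P - A i * R ∈ OrdGE (q i) (α i)) → (∀ i, R ∈ OrdGE (q i) (β i)) →
      (∑ i, (α i : ℤ) * β i) ≤ d₁ * μ₂ + μ₁ * d₂ - μ₁ * μ₂

/-! ### E. The determinant and the interpolation lemma -/

/-- **DetForm.**  Allowed hypotheses: `S_PDBasic, S_OrdBasic, S_Dims`.
PROOF.  Let `U = HH(4m+6, 2m+2; m)` (dimension `15m+18`, basis `p_a`) and `W = HH(4m+5, 2m+1; m)`
(dimension `11m+11`, basis `r_b`), spaces over `ℂ`.  Linear functionals: for `i : Fin 12` and
`0 ≤ l ≤ m` let `J_{i,l}` be the coefficient of `u^l v^{m-l}` of `shift q_i`; for `0 ≤ l ≤ 2m+4` let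
`T_l` (on `U`) be the coefficient of `t^l y^{2m+2}` and `T'_l` (on `W`) the coefficient of
`t^l y^{2m+1}`; for a point `z = 𝒵_j` evaluation at `z`.  Consider the square matrix
`M(x_*, x_0..x_11)` over `ℂ[x_*, x_0, ..., x_11]` with columns `p_a, r_b`
(`15m + 18 + 11m + 11 = 26m + 29`) and rows
 (i,l): `J_{i,l}(p_a)`, `- x_i J_{i,l}(r_b)`      (`12(m+1)` rows)
 (*,l): `T_l(p_a)`, `- x_* T'_l(r_b)`             (`2m+5` rows)
 (z,P): `p_a(z)`, `0`  and (z,R): `0`, `r_b(z)`   (`6(m+1) + 6(m+1)` rows)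
(`12(m+1) + 2m+5 + 12(m+1) = 26m + 29`).  Let `G = det M` and `F = G(0, x_0..x_11)`.
 * degree: `x_i` occurs only in the `m+1` rows `(i,·)`, linearly, so the degree of `G` in `x_i` is
   `≤ m + 1`, and `≤ 2m+5` in `x_*`.
 * homogeneity: `M(λ x)` = `M(x)` with the `r`-columns multiplied by `λ` and the rows `(z,R)`
   divided by `λ`, so `G(λ x) = λ^{11m+11 - 6(m+1)} G(x) = λ^{5(m+1)} G(x)`.
 * invariance: for `ℓ = a + b t + κ y` the map `(P, R) ↦ (P + ℓ R, R)` is a unipotent automorphism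
   of `U × W` (a column operation), and `J_{i,l}(ℓ R) = ℓ(q_i) J_{i,l}(R)` for `R` of order `≥ m`,
   `T_l(ℓ R) = κ T'_l(R)`; the rows `(z,P)` become `(z,P) + ℓ(z) (z,R)` (a row operation).  Hence
   `G(x_* + κ, x_i + ℓ(q_i)) = G(x_*, x_i)`.  With `κ = 0`: invariance of `F`.  With `ℓ = s y`:
   `F(x + s y⃗) = G(0, x + s y⃗) = G(-s, x)` has degree `≤ 2m+5` in `s`; as `F` is homogeneous of
   degree `5(m+1)`, `F(y⃗ + ε x) = ε^{5(m+1)} F(x + ε^{-1} y⃗)` is divisible by
   `ε^{5(m+1) - (2m+5)} = ε^{3m}`, i.e. `MultGE F y (3m)` (a polynomial all of whose restrictions to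
   lines through `y⃗` vanish to order `≥ 3m` at `y⃗` has no homogeneous components of degree `< 3m`
   at `y⃗`, because `ℂ` is infinite).
 * `deg`: every monomial of `F` has `x_i`-exponent `≤ m + 1`, i.e. `s i + 4(m+1) ≤ 5(m+1)`.
 * kernel: if `F(x) = 0`, `x ∈ K^{12}`, then the matrix `M(0, x)` over `K` has a nonzero vector in
   its kernel, i.e. there is `(P, R) ≠ 0` in `U_K × W_K` (the `p_a` and `r_b` mapped to
   `MvPolynomial (Fin 2) K` are linearly independent over `K`) with `J_{i,l}(P - x_i R) = 0`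
   (so `P - x_i R ∈ OrdGE (m+1)`, since both have order `≥ m`), `T_l(P) = 0`
   (so the `y`-degree of `P` is `≤ 2m+1`), and `P, R` vanish on `𝒵`. -/
def S_DetForm : Prop :=
  ∀ (t y : Fin 12 → ℂ), Gen t y → ∀ (m : ℕ) (Z : Fin (6 * (m + 1)) → Fin 2 → ℂ),
    ∃ F : MvPolynomial (Fin 12) ℂ, XForm t y (5 * (m + 1)) (3 * m) (fun _ => 4 * (m + 1)) F ∧
      ∀ (K : Type) [Field K] [Algebra ℂ K] (x : Fin 12 → K), aeval x F = 0 →
        ∃ p ∈ VV (up t) (up y) x m, p ≠ 0 ∧
          ∀ j, eval (up (Z j)) p.1 = 0 ∧ eval (up (Z j)) p.2 = 0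

/-- **Interp.**  The interpolation lemma.
PROOF. For `z = (z_1..z_j) ∈ (k²)^j` let `V(z) = {v ∈ V : v(z_i) = 0 for all i}`, of codimension
`≤ 2j` in `V`, and `O_j = {z : codim V(z) = 2j}`.  `O_0 ≠ ∅`, `O_N = ∅` (hypothesis:
`V(z) ≠ 0` for all `z ∈ (k²)^N`).  Let `j < N` be maximal with `O_j ≠ ∅`.
(a) For `z ∈ O_j` any two elements `v, v'` of `V(z)` are proportional, `v.1 v'.2 = v'.1 v.2`:
otherwise this polynomial is nonzero and there is `z' ∈ k²` where it does not vanish (`k` infinite),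
and then evaluation at `z'` has rank 2 on `V(z)`, so `(z, z') ∈ O_{j+1}`.  `dim V(z) = 2N - 2j ≥ 2`.
(b) `O_j` is open: for `z ∈ O_j` some `2j × 2j` minor of the evaluation matrix (rows: the `2j`
evaluations `v.1(z_i), v.2(z_i)`, columns: a basis of `V`), a polynomial in the coordinates of `z`
with coefficients in `K`, is nonzero at `z`; conversely nonvanishing of a minor implies `z ∈ O_j`.
(c) There is `U` containing all `V(z)`, `z ∈ O_j`, whose elements are pairwise proportional.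
Let `z, z' ∈ O_j`.  For `ζ ∈ (k²)^j` consider the hybrids
`h_a = (ζ_1, .., ζ_a, z_{a+1}, .., z_j)`, `h'_a = (ζ_1, .., ζ_a, z'_{a+1}, .., z'_j)`.  For each `a`
the condition `h_a ∈ O_j` is implied by the nonvanishing at `ζ` of a polynomial in `ζ` which is
not zero (it is nonzero at `ζ = z`); a finite product of nonzero polynomials over `K` does not
vanish identically on `k`-points; so there is `ζ` with all `h_a, h'_a ∈ O_j`.  Consecutive hybrids
`h_a, h_{a+1}` differ in one point, so `V(h_a) ∩ V(h_{a+1})` contains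
`{v ∈ V(h_a) : v(ζ_{a+1}) = 0}`, which has codimension `≤ 1` in `V(h_a)` because of (a), hence it
contains a nonzero `u`.  Proportionality to a fixed nonzero `u` is transitive, so all elements of
`V(h_a)` and `V(h_{a+1})` are proportional to each other.  Going from `z` to `ζ` to `z'`, the
elements of `V(z)` and `V(z')` are proportional.  Fix `z⁰ ∈ O_j` and `0 ≠ u₀ ∈ V(z⁰)`;
`U = {v ∈ V : v.1 u₀.2 = u₀.1 v.2}`.
(d) `dim U ≥ 2N - j ≥ N + 1`.  We find `z ∈ O_j` with `dim {u ∈ U : u(z_i) = 0 ∀ i} ≤ dim U - j`;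
this space contains `V(z)` (because `V(z) ⊆ U`), of dimension `2N - 2j`, whence the claim.  The
condition the `j` evaluations have rank `≥ j` on `U` is again open, and it is satisfied by some
`z ∈ (k²)^j`: choose `z_1, z_2, ...` successively such that an element of
`{u ∈ U : u(z_1) = .. = u(z_a) = 0}` does not vanish at `z_{a+1}`; this is possible as long as this
space is nonzero, and it is nonzero for `a < j` because `dim U ≥ 2N - 2j + ...`: precisely, if it
were zero for generic `(z_1..z_a)`, `a < j`, then, since for generic `z ∈ O_j`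
`0 ≠ V(z) ⊆ {u ∈ U : u(z_1) = .. = u(z_a) = 0}`, a contradiction.  (Openness is used to find one `z`
satisfying finitely many open nonempty conditions.)
Hint: it may be convenient to represent open nonempty conditions on `(k²)^j` by nonzero
polynomials in `MvPolynomial (Fin j × Fin 2) K`. -/
def S_Interp : Prop :=
  ∀ (k K : Type) [Field k] [Infinite k] [Field K] [Algebra k K] (N : ℕ)
    (V : Submodule K (MvPolynomial (Fin 2) K × MvPolynomial (Fin 2) K)), 1 ≤ N →
    Module.finrank K V = 2 * N →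
    (∀ Z : Fin N → Fin 2 → k, ∃ v ∈ V, v ≠ 0 ∧
      ∀ j, eval (fun i => algebraMap k K (Z j i)) v.1 = 0 ∧
        eval (fun i => algebraMap k K (Z j i)) v.2 = 0) →
    ∃ U ≤ V, N + 1 ≤ Module.finrank K U ∧ ∀ u ∈ U, ∀ v ∈ U, u.1 * v.2 = v.1 * u.2

/-- **PairOf.**  Allowed hypotheses: `S_PDBasic, S_PDRank, S_OrdBasic`.
From a space of proportional pairs to a primitive pair.
PROOF. Choose `0 ≠ u ∈ U` and a greatest common divisor `g₀` of `u.1, u.2` (`MvPolynomial` over a
field is a UFD, `UniqueFactorizationMonoid.toNormalizedGCDMonoid` etc.): `u = g₀ (P, R)` with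
`IsRelPrime P R`.  For `v ∈ U`: `v.1 u.2 = u.1 v.2`, so `v.1 R = P v.2`, so `P ∣ v.1` and
`R ∣ v.2` with the same quotient: `v = g_v (P, R)` (if `P = 0` then `R` is a unit, etc.).  The map
`v ↦ g_v` is linear and injective.  Let `c = max (totalDegree R) (totalDegree P - 1)`,
`κ = max (degreeOf 1 P) (degreeOf 1 R)` (with the conventions: a zero polynomial does not
contribute: if `R = 0` then `P` is a nonzero constant, `c = -1`, `κ = 0`; if `P = 0` then `R` is a
nonzero constant, `c = 0`, `κ = 0`), and `γ_i = min (ord_i R) (ord_i (P - x_i R) - 1) ≥ -1`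
(`ord_i 0 = ∞`; not both are zero).  As the `y`-degree is at most the total degree, `κ ≤ c + 1`.
By the additivity of degrees and orders (S_PDBasic, S_OrdBasic) every `g_v` lies in
`HH(4m+5-c, 2m+1-κ; m-γ)`: e.g. if `ord_i R = γ_i` then `ord g_v + γ_i ≥ m`; if
`ord_i (P - x_i R) = γ_i + 1` then `ord g_v + γ_i + 1 ≥ m + 1`; the total degree of `g_v` is
`≤ 4m+5 - totalDegree R` and `≤ 4m + 6 - totalDegree P` and one of the two bounds is `4m+5-c`, etc.
If `g_v = 0` there is nothing to show. -/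
def S_PairOf : Prop :=
  ∀ (K : Type) [Field K] (t y x : Fin 12 → K) (m : ℕ)
    (U : Submodule K (MvPolynomial (Fin 2) K × MvPolynomial (Fin 2) K)),
    U ≤ VV t y x m → U ≠ ⊥ → (∀ u ∈ U, ∀ v ∈ U, u.1 * v.2 = v.1 * u.2) →
    ∃ (c κ : ℤ) (γ : Fin 12 → ℤ) (P R : MvPolynomial (Fin 2) K),
      PairType t y x c κ γ P R ∧
      Module.finrank K U ≤
        Module.finrank K (HH (pt t y) (4 * m + 5 - c) (2 * m + 1 - κ) (fun i => m - γ i))

end Pool.Agent.MP5769ea
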