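import Pool.Agent.Lib.MP_5769ea_ag.Spec4
import Pool.Agent.Lib.MP_5769ea_ag.Spec1

set_option autoImplicit false

open MvPolynomial

namespace Pool.Agent.MP5769ea

namespace GpolyAux

section HG

variable {A B : Type} [CommRing A] [Algebra ℂ A] [CommRing B] [Algebra ℂ B]

/-- the form `F` with denominators cleared -/
noncomputable def HG (D : Fin 12 → ℕ) (F : MvPolynomial (Fin 12) ℂ) (a b : Fin 12 → A) : A :=
  ∑ n ∈ F.support, algebraMap ℂ A (coeff n F) * ∏ k, (a k ^ n k * b k ^ (D k - n k))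

theorem HG_map (f : A →+* B) (hf : ∀ c : ℂ, f (algebraMap ℂ A c) = algebraMap ℂ B c)
    (D : Fin 12 → ℕ) (F : MvPolynomial (Fin 12) ℂ) (a b : Fin 12 → A) :
    f (HG D F a b) = HG D F (fun k => f (a k)) (fun k => f (b k)) := by
  unfold HG
  rw [map_sum]
  refine Finset.sum_congr rfl fun n _ => ?_
  rw [map_mul, hf, map_prod]
  simp only [map_mul, map_pow]

theorem aeval_sum (x : Fin 12 → A) (F : MvPolynomial (Fin 12) ℂ) :
    aeval x F = ∑ n ∈ F.support, algebraMap ℂ A (coeff n F) * ∏ k, x k ^ n k := by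
  rw [aeval_def, eval₂_eq']

theorem HG_eq {D : Fin 12 → ℕ} {F : MvPolynomial (Fin 12) ℂ} {a b x : Fin 12 → A}
    (hD : ∀ n ∈ F.support, ∀ k, n k ≤ D k) (hx : ∀ k, x k * b k = a k) :
    HG D F a b = aeval x F * ∏ k, b k ^ D k := by
  unfold HG
  rw [aeval_sum, Finset.sum_mul]
  refine Finset.sum_congr rfl fun n hn => ?_
  rw [mul_assoc, ← Finset.prod_mul_distrib]
  congr 1
  refine Finset.prod_congr rfl fun k _ => ?_
  rw [← hx k, mul_pow, mul_assoc, ← pow_add, Nat.add_sub_cancel' (hD n hn k)]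

theorem deg_sum {F : MvPolynomial (Fin 12) ℂ} {d : ℕ} (hF : F.IsHomogeneous d) {n : Fin 12 →₀ ℕ}
    (hn : n ∈ F.support) : ∑ k, n k = d := by
  by_contra h
  have := hF.coeff_eq_zero (d := n) (by rw [Finsupp.degree_eq_sum]; exact h)
  exact (mem_support_iff.1 hn) this

theorem aeval_scale {F : MvPolynomial (Fin 12) ℂ} {d : ℕ} (hF : F.IsHomogeneous d) (c : A)
    (x : Fin 12 → A) : aeval (fun k => c * x k) F = c ^ d * aeval x F := by
  rw [aeval_sum, aeval_sum, Finset.mul_sum]
  refine Finset.sum_congr rfl fun n hn => ?_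
  have : ∏ k, (c * x k) ^ n k = c ^ d * ∏ k, x k ^ n k := by
    simp only [mul_pow]
    rw [Finset.prod_mul_distrib, Finset.prod_pow_eq_pow_sum, deg_sum hF hn]
  rw [this]; ring

theorem HG_scale {D : Fin 12 → ℕ} {F : MvPolynomial (Fin 12) ℂ} {d : ℕ} (hF : F.IsHomogeneous d)
    (hD : ∀ n ∈ F.support, ∀ k, n k ≤ D k) (a b : Fin 12 → A) (s : A) :
    HG D F a (fun k => s * b k) * s ^ d = s ^ (∑ k, D k) * HG D F a b := by
  unfold HG
  rw [Finset.sum_mul, Finset.mul_sum]
  refine Finset.sum_congr rfl fun n hn => ?_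
  have h1 : ∏ k, (a k ^ n k * (s * b k) ^ (D k - n k)) =
      s ^ (∑ k, (D k - n k)) * ∏ k, (a k ^ n k * b k ^ (D k - n k)) := by
    rw [← Finset.prod_pow_eq_pow_sum, ← Finset.prod_mul_distrib]
    refine Finset.prod_congr rfl fun k _ => ?_
    rw [mul_pow]; ring
  have h2 : ∑ k, (D k - n k) + d = ∑ k, D k := by
    rw [← deg_sum hF hn, ← Finset.sum_add_distrib]
    exact Finset.sum_congr rfl fun k _ => Nat.sub_add_cancel (hD n hn k)
  rw [h1, ← h2, pow_add]; ring

theorem aeval_hom {φ : MvPolynomial (Fin 12) ℂ} {j : ℕ} (hφ : φ.IsHomogeneous j) (e : A)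
    (z : Fin 12 → A) : aeval (fun k => e * z k) φ = e ^ j * aeval z φ := aeval_scale hφ e z

theorem mult_dvd {F : MvPolynomial (Fin 12) ℂ} {y : Fin 12 → ℂ} {m₁ : ℕ} (hF : MultGE F y m₁)
    (e : A) (z : Fin 12 → A) :
    e ^ m₁ ∣ aeval (fun k => algebraMap ℂ A (y k) + e * z k) F := by
  have h1 : aeval (fun k => algebraMap ℂ A (y k) + e * z k) F =
      aeval (fun k => e * z k) (bind₁ (fun i => X i + C (y i)) F) := by
    rw [aeval_bind₁]
    congr 1
    congr 1
    funext k
    simp only [map_add, aeval_X, aeval_C]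
    ring
  rw [h1]
  rw [← sum_homogeneousComponent (bind₁ (fun i => X i + C (y i)) F), map_sum]
  refine Finset.dvd_sum fun j _ => ?_
  rw [aeval_hom (homogeneousComponent_isHomogeneous j _)]
  rcases Nat.lt_or_ge j m₁ with h | h
  · rw [hF j (by exact_mod_cast h)]
    simp
  · exact Dvd.dvd.mul_right (pow_dvd_pow e h) _

end HG

section key

variable {A : Type} [CommRing A] [Algebra ℂ A]

theorem key {t y : Fin 12 → ℂ} {d m₁ : ℕ} {m : Fin 12 → ℕ} {F : MvPolynomial (Fin 12) ℂ}
    (hF : XForm t y d m₁ m F) (θ η e h hi : A) (hh : h * hi = 1) (Di : Fin 12 → A)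
    (hD : ∀ k, (e * (algebraMap ℂ A (y k) - η) - h * (algebraMap ℂ A (t k) - θ)) * Di k = 1) :
    h ^ (2 * d) * aeval (fun k => (algebraMap ℂ A (t k) - θ) * (algebraMap ℂ A (t k) - θ - e) *
        Di k) F =
      (-e) ^ d * aeval (fun k => algebraMap ℂ A (y k) + e *
        (-((algebraMap ℂ A (y k) - η) * (algebraMap ℂ A (y k) - η - h) * Di k))) F := by
  have h1 : (fun k => (algebraMap ℂ A (t k) - θ) * (algebraMap ℂ A (t k) - θ - e) * Di k) =
      fun k => (-e * hi ^ 2) * (algebraMap ℂ A (y k) + e *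
        (-((algebraMap ℂ A (y k) - η) * (algebraMap ℂ A (y k) - η - h) * Di k))) +
        (θ * hi + e * (η + h) * hi ^ 2) + (-hi) * algebraMap ℂ A (t k) := by
    funext k
    have hk := hD k
    set u := algebraMap ℂ A (t k) - θ with hu
    set v := algebraMap ℂ A (y k) - η with hv
    have e1 : algebraMap ℂ A (t k) = u + θ := by rw [hu]; ring
    have e2 : algebraMap ℂ A (y k) = v + η := by rw [hv]; ring
    rw [e1, e2]
    linear_combination (-(u * (u - e) * Di k * (1 + h * hi)) -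
      u * hi * (e * v - h * u) * Di k) * hh + (-(u * hi) - e * (v - h) * hi ^ 2) * hk
  rw [h1, hF.inv A (fun k => (-e * hi ^ 2) * (algebraMap ℂ A (y k) + e *
        (-((algebraMap ℂ A (y k) - η) * (algebraMap ℂ A (y k) - η - h) * Di k)))),
    aeval_scale hF.hom, ← mul_assoc]
  congr 1
  rw [pow_mul, ← mul_pow]
  congr 1
  linear_combination (-e) * (1 + h * hi) * hh

end key

end GpolyAux

end Pool.Agent.MP5769ea

namespace Pool.Agent.MP5769ea

namespace GpolyAux

section rho

variable (K : Type) [Field K] [Algebra ℂ K]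

/-- `K(h)` -/
abbrev GG : Type := FractionRing (MvPolynomial (Fin 1) K)

/-- `K[ε, h] → K(h)[[ε]]` -/
noncomputable def rho : MvPolynomial (Fin 2) K →+* PowerSeries (GG K) :=
  (Polynomial.coeToPowerSeries.ringHom (R := GG K)).comp
    ((Polynomial.mapRingHom (algebraMap (MvPolynomial (Fin 1) K) (GG K))).comp
      (finSuccEquiv K 1 : MvPolynomial (Fin 2) K →+* Polynomial (MvPolynomial (Fin 1) K)))

theorem rho_apply (P : MvPolynomial (Fin 2) K) : rho K P =
    (((finSuccEquiv K 1 P).map (algebraMap (MvPolynomial (Fin 1) K) (GG K)) :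
      Polynomial (GG K)) : PowerSeries (GG K)) := rfl

theorem rho_X0 : rho K (X 0) = PowerSeries.X := by
  rw [rho_apply, finSuccEquiv_X_zero]
  simp

theorem rho_X1 : rho K (X 1) = PowerSeries.C (algebraMap (MvPolynomial (Fin 1) K) (GG K) (X 0)) := by
  rw [rho_apply]
  have : (1 : Fin 2) = Fin.succ 0 := rfl
  rw [this, finSuccEquiv_X_succ]
  simp

theorem rho_C (c : K) : rho K (C c) =
    PowerSeries.C (algebraMap (MvPolynomial (Fin 1) K) (GG K) (C c)) := by
  rw [rho_apply, finSuccEquiv_apply, eval₂Hom_C]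
  simp

theorem rho_alg (c : ℂ) : rho K (algebraMap ℂ (MvPolynomial (Fin 2) K) c) =
    algebraMap ℂ (PowerSeries (GG K)) c := by
  have h1 : algebraMap ℂ (MvPolynomial (Fin 2) K) c = C (algebraMap ℂ K c) := rfl
  rw [h1, rho_C, PowerSeries.algebraMap_apply]
  congr 1

theorem rho_dvd {P : MvPolynomial (Fin 2) K} {N : ℕ} (h : PowerSeries.X ^ N ∣ rho K P) :
    (X 0 : MvPolynomial (Fin 2) K) ^ N ∣ P := by
  rw [rho_apply, PowerSeries.X_pow_dvd_iff] at h
  have h1 : (Polynomial.X : Polynomial (MvPolynomial (Fin 1) K)) ^ N ∣ finSuccEquiv K 1 P := by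
    rw [Polynomial.X_pow_dvd_iff]
    intro j hj
    have h2 := h j hj
    rw [Polynomial.coeff_coe, Polynomial.coeff_map] at h2
    exact (IsFractionRing.injective (MvPolynomial (Fin 1) K) (GG K)) (by rw [h2, map_zero])
  have h3 := map_dvd (finSuccEquiv K 1).symm h1
  rw [AlgEquiv.symm_apply_apply, map_pow] at h3
  have h4 : (finSuccEquiv K 1).symm (Polynomial.X) = X 0 := by
    rw [AlgEquiv.symm_apply_eq, finSuccEquiv_X_zero]
  rwa [h4] at h3

theorem rho_inj : Function.Injective (rho K) := by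
  intro P Q h
  rw [rho_apply, rho_apply] at h
  have h1 := Polynomial.coe_injective _ h
  have h2 := Polynomial.map_injective _
    (IsFractionRing.injective (MvPolynomial (Fin 1) K) (GG K)) h1
  exact (finSuccEquiv K 1).injective h2

end rho

end GpolyAux

end Pool.Agent.MP5769ea

namespace Pool.Agent.MP5769ea

namespace GpolyAux

section shifted

variable {K : Type} [Field K] [Algebra ℂ K] (t y : Fin 12 → ℂ) (θ₁ η₁ : K)

/-- `t_k - θ₁` -/
noncomputable def uu (k : Fin 12) : K := algebraMap ℂ K (t k) - θ₁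

/-- `u_k (u_k - ε)` -/
noncomputable def al (k : Fin 12) : MvPolynomial (Fin 2) K :=
  C (uu t θ₁ k) * (C (uu t θ₁ k) - X 0)

/-- `Δ_k` -/
noncomputable def be (k : Fin 12) : MvPolynomial (Fin 2) K :=
  X 0 * C (uu y η₁ k) - X 1 * C (uu t θ₁ k)

/-- the numerator of `-y_k + ε ξ_k` (up to sign) -/
noncomputable def ga (k : Fin 12) : MvPolynomial (Fin 2) K :=
  algebraMap ℂ (MvPolynomial (Fin 2) K) (y k) * be t y θ₁ η₁ k +
    X 0 * (-(C (uu y η₁ k) * (C (uu y η₁ k) - X 1)))

theorem alg_rho (c : ℂ) : algebraMap ℂ (PowerSeries (GG K)) c = rho K (C (algebraMap ℂ K c)) := by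
  rw [← rho_alg]; rfl

theorem be_unit (ht : ∀ i, algebraMap ℂ K (t i) ≠ θ₁) (k : Fin 12) :
    IsUnit (rho K (be t y θ₁ η₁ k)) := by
  rw [PowerSeries.isUnit_iff_constantCoeff]
  unfold be
  rw [map_sub, map_mul, map_mul, rho_X0, rho_X1, rho_C, rho_C]
  simp only [map_sub, map_mul, PowerSeries.constantCoeff_X, zero_mul, zero_sub,
    PowerSeries.constantCoeff_C]
  rw [isUnit_iff_ne_zero, neg_ne_zero]
  have hinj := IsFractionRing.injective (MvPolynomial (Fin 1) K) (GG K)
  refine mul_ne_zero ?_ ?_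
  · intro h
    have := hinj (h.trans (map_zero _).symm)
    exact X_ne_zero (0 : Fin 1) this
  · intro h
    have h2 := hinj (h.trans (map_zero _).symm)
    rw [C_eq_zero] at h2
    exact ht k (sub_eq_zero.1 h2)

theorem lemA {d m₁ : ℕ} {m : Fin 12 → ℕ} {F : MvPolynomial (Fin 12) ℂ}
    (hF : XForm t y d m₁ m F) (D : Fin 12 → ℕ) (hD : ∀ n ∈ F.support, ∀ k, n k ≤ D k)
    (ht : ∀ i, algebraMap ℂ K (t i) ≠ θ₁) :
    X 1 ^ (2 * d) * HG D F (al t θ₁) (be t y θ₁ η₁) =
      (-X 0) ^ d * HG D F (ga t y θ₁ η₁) (be t y θ₁ η₁) ∧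
    (X 0 : MvPolynomial (Fin 2) K) ^ (d + m₁) ∣ HG D F (al t θ₁) (be t y θ₁ η₁) := by
  have hu := fun k => be_unit t y θ₁ η₁ ht k
  choose U hU using hu
  set Di : Fin 12 → PowerSeries (GG K) := fun k => ((U k)⁻¹ : (PowerSeries (GG K))ˣ) with hDi
  have hUD : ∀ k, rho K (be t y θ₁ η₁ k) * Di k = 1 := by
    intro k
    rw [← hU k, hDi]
    exact Units.mul_inv _
  have hx0 : algebraMap (MvPolynomial (Fin 1) K) (GG K) (X 0) ≠ 0 := by
    intro h
    exact X_ne_zero (0 : Fin 1)
      ((IsFractionRing.injective (MvPolynomial (Fin 1) K) (GG K)) (h.trans (map_zero _).symm))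
  set hi : PowerSeries (GG K) :=
    PowerSeries.C (algebraMap (MvPolynomial (Fin 1) K) (GG K) (X 0))⁻¹ with hhi
  have hh : rho K (X 1) * hi = 1 := by
    rw [rho_X1, hhi, ← map_mul, mul_inv_cancel₀ hx0, map_one]
  have hv : ∀ (z : Fin 12 → ℂ) (c : K) (k : Fin 12),
      algebraMap ℂ (PowerSeries (GG K)) (z k) - rho K (C c) = rho K (C (uu z c k)) := by
    intro z c k
    rw [alg_rho, uu, map_sub, map_sub]
  have hk := key hF (rho K (C θ₁)) (rho K (C η₁)) PowerSeries.X (rho K (X 1)) hi hh Di (by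
    intro k
    rw [hv, hv, ← hUD k]
    congr 1
    rw [be, map_sub, map_mul, map_mul, rho_X0])
  have e1 : rho K (HG D F (al t θ₁) (be t y θ₁ η₁)) =
      aeval (fun k => (algebraMap ℂ (PowerSeries (GG K)) (t k) - rho K (C θ₁)) *
        (algebraMap ℂ (PowerSeries (GG K)) (t k) - rho K (C θ₁) - PowerSeries.X) * Di k) F *
        ∏ k, rho K (be t y θ₁ η₁ k) ^ D k := by
    rw [HG_map (rho K) (rho_alg K)]
    refine HG_eq hD fun k => ?_
    rw [mul_assoc, mul_comm (Di k), hUD, mul_one, hv, al, map_mul, map_sub, rho_X0]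
  have e2 : rho K (HG D F (ga t y θ₁ η₁) (be t y θ₁ η₁)) =
      aeval (fun k => algebraMap ℂ (PowerSeries (GG K)) (y k) + PowerSeries.X *
        (-((algebraMap ℂ (PowerSeries (GG K)) (y k) - rho K (C η₁)) *
        (algebraMap ℂ (PowerSeries (GG K)) (y k) - rho K (C η₁) - rho K (X 1)) * Di k))) F *
        ∏ k, rho K (be t y θ₁ η₁ k) ^ D k := by
    rw [HG_map (rho K) (rho_alg K)]
    refine HG_eq hD fun k => ?_
    rw [hv, ga, map_add, map_mul, map_mul, rho_alg, rho_X0, map_neg, map_mul, map_sub]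
    linear_combination (-(PowerSeries.X * (rho K (C (uu y η₁ k)) *
      (rho K (C (uu y η₁ k)) - rho K (X 1))))) * hUD k
  have e3 : rho K (X 1) ^ (2 * d) * rho K (HG D F (al t θ₁) (be t y θ₁ η₁)) =
      (-PowerSeries.X) ^ d * rho K (HG D F (ga t y θ₁ η₁) (be t y θ₁ η₁)) := by
    rw [e1, e2, ← mul_assoc, ← mul_assoc, hk]
  constructor
  · apply rho_inj K
    rw [map_mul, map_mul, map_pow, map_pow, map_neg, rho_X0, e3]
  · apply rho_dvd K
    have e4 : rho K (HG D F (al t θ₁) (be t y θ₁ η₁)) =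
        hi ^ (2 * d) * ((-PowerSeries.X) ^ d *
          rho K (HG D F (ga t y θ₁ η₁) (be t y θ₁ η₁))) := by
      rw [← e3, ← mul_assoc, ← mul_pow, mul_comm hi, hh, one_pow, one_mul]
    rw [e4, e2]
    have h5 := mult_dvd (A := PowerSeries (GG K)) hF.mul PowerSeries.X
      (fun k => -((algebraMap ℂ (PowerSeries (GG K)) (y k) - rho K (C η₁)) *
        (algebraMap ℂ (PowerSeries (GG K)) (y k) - rho K (C η₁) - rho K (X 1)) * Di k))
    obtain ⟨w, hw⟩ := h5
    rw [hw, neg_pow, pow_add]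
    exact ⟨hi ^ (2 * d) * ((-1) ^ d * (w * ∏ k, rho K (be t y θ₁ η₁ k) ^ D k)), by ring⟩

end shifted

end GpolyAux

end Pool.Agent.MP5769ea

namespace Pool.Agent.MP5769ea

namespace GpolyAux

theorem map_aev {A B : Type} [CommRing A] [Algebra ℂ A] [CommRing B] [Algebra ℂ B]
    (f : A →+* B) (hf : ∀ c : ℂ, f (algebraMap ℂ A c) = algebraMap ℂ B c) (x : Fin 12 → A)
    (F : MvPolynomial (Fin 12) ℂ) : f (aeval x F) = aeval (fun k => f (x k)) F := by
  rw [aeval_sum, aeval_sum, map_sum]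
  refine Finset.sum_congr rfl fun n _ => ?_
  rw [map_mul, hf, map_prod]
  simp only [map_pow]

section tau

variable (K : Type) [Field K]

/-- `X_i ↦ s X_i` -/
noncomputable def tau : MvPolynomial (Fin 2) K →+* Polynomial (MvPolynomial (Fin 2) K) :=
  eval₂Hom (Polynomial.C.comp C) fun i => Polynomial.C (X i) * Polynomial.X

theorem tau_C (c : K) : tau K (C c) = Polynomial.C (C c) := by
  unfold tau; simp

theorem tau_X (i : Fin 2) : tau K (X i) = Polynomial.C (X i) * Polynomial.X := by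
  unfold tau; simp

theorem tau_monomial (n : Fin 2 →₀ ℕ) (c : K) :
    tau K (monomial n c) = Polynomial.C (monomial n c) * Polynomial.X ^ (n 0 + n 1) := by
  have h1 : (monomial n c : MvPolynomial (Fin 2) K) = C c * (X 0 ^ n 0 * X 1 ^ n 1) := by
    rw [monomial_eq, Finsupp.prod_fintype _ _ (fun i => pow_zero _), Fin.prod_univ_two]
  rw [h1]
  simp only [map_mul, map_pow, tau_C, tau_X, mul_pow, pow_add]
  ring

theorem tau_coeff (P : MvPolynomial (Fin 2) K) (j : ℕ) (n : Fin 2 →₀ ℕ) :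
    coeff n ((tau K P).coeff j) = if n 0 + n 1 = j then coeff n P else 0 := by
  induction P using MvPolynomial.induction_on' with
  | monomial u a =>
    rw [tau_monomial, Polynomial.coeff_C_mul, Polynomial.coeff_X_pow]
    by_cases h : j = u 0 + u 1
    · rw [if_pos h, mul_one, coeff_monomial]
      by_cases h2 : u = n
      · subst h2; rw [if_pos rfl, if_pos h.symm]
      · rw [if_neg h2]; split_ifs <;> rfl
    · rw [if_neg h, mul_zero, coeff_zero, coeff_monomial]
      by_cases h2 : u = n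
      · subst h2; rw [if_neg (fun h' => h h'.symm)]
      · rw [if_neg h2]; split_ifs <;> rfl
  | add p q hp hq =>
    rw [map_add, Polynomial.coeff_add, coeff_add, hp, hq, coeff_add]
    split_ifs <;> simp

/-- `K(X_0, X_1)` -/
abbrev FK : Type := FractionRing (MvPolynomial (Fin 2) K)

/-- `tau` with values in `K(X_0, X_1)[s]` -/
noncomputable def kap : MvPolynomial (Fin 2) K →+* Polynomial (FK K) :=
  (Polynomial.mapRingHom (algebraMap (MvPolynomial (Fin 2) K) (FK K))).comp (tau K)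

theorem kap_C (c : K) : kap K (C c) =
    Polynomial.C (algebraMap (MvPolynomial (Fin 2) K) (FK K) (C c)) := by
  unfold kap
  rw [RingHom.comp_apply, tau_C]
  simp

theorem kap_X (i : Fin 2) : kap K (X i) =
    Polynomial.C (algebraMap (MvPolynomial (Fin 2) K) (FK K) (X i)) * Polynomial.X := by
  unfold kap
  rw [RingHom.comp_apply, tau_X]
  simp

theorem kap_dvd {P : MvPolynomial (Fin 2) K} {M : ℕ}
    (h : (Polynomial.X : Polynomial (FK K)) ^ M ∣ kap K P) (n : Fin 2 →₀ ℕ)
    (hn : n ∈ P.support) : M ≤ n 0 + n 1 := by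
  by_contra hc
  push Not at hc
  rw [Polynomial.X_pow_dvd_iff] at h
  have h1 := h (n 0 + n 1) hc
  unfold kap at h1
  rw [RingHom.comp_apply, Polynomial.coe_mapRingHom, Polynomial.coeff_map] at h1
  have h2 := IsFractionRing.injective (MvPolynomial (Fin 2) K) (FK K)
    (h1.trans (map_zero _).symm)
  have h3 := tau_coeff K P (n 0 + n 1) n
  rw [h2, coeff_zero, if_pos rfl] at h3
  exact (mem_support_iff.1 hn) h3.symm

end tau

/-- `K(X_0, X_1)(s)` -/
abbrev LK (K : Type) [Field K] : Type := FractionRing (Polynomial (FK K))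

section mult

variable {K : Type} [Field K] [Algebra ℂ K] (t y : Fin 12 → ℂ) (θ₁ η₁ : K)

theorem kap_alg (c : ℂ) : kap K (algebraMap ℂ (MvPolynomial (Fin 2) K) c) =
    algebraMap ℂ (Polynomial (FK K)) c := by
  have h1 : algebraMap ℂ (MvPolynomial (Fin 2) K) c = C (algebraMap ℂ K c) := rfl
  rw [h1, kap_C, Polynomial.algebraMap_apply]
  congr 1

theorem alg_kap (c : ℂ) : algebraMap ℂ (Polynomial (FK K)) c = kap K (C (algebraMap ℂ K c)) := by
  rw [← kap_alg]; rfl

theorem be_ne (ht : ∀ i, algebraMap ℂ K (t i) ≠ θ₁) (k : Fin 12) : be t y θ₁ η₁ k ≠ 0 := by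
  intro h
  have h1 := be_unit t y θ₁ η₁ ht k
  rw [h, map_zero] at h1
  exact not_isUnit_zero h1

theorem lemB (hM : S_MultV) {d m₁ : ℕ} {m : Fin 12 → ℕ} {F : MvPolynomial (Fin 12) ℂ}
    (hF : XForm t y d m₁ m F) (D : Fin 12 → ℕ) (hD : ∀ n ∈ F.support, ∀ k, n k ≤ D k)
    (ht : ∀ i, algebraMap ℂ K (t i) ≠ θ₁) (T N : ℕ) (hT : T + 10 * d ≤ m₁ + ∑ i, m i)
    (hN : N + d = ∑ k, D k + 2 * T) :
    (Polynomial.X : Polynomial (FK K)) ^ N ∣ kap K (HG D F (al t θ₁) (be t y θ₁ η₁)) := by
  set a0 : FK K := algebraMap (MvPolynomial (Fin 2) K) (FK K) (X 0) with ha0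
  set b0 : FK K := algebraMap (MvPolynomial (Fin 2) K) (FK K) (X 1) with hb0
  set ub : Fin 12 → FK K := fun k =>
    algebraMap (MvPolynomial (Fin 2) K) (FK K) (C (uu t θ₁ k)) with hub
  set vb : Fin 12 → FK K := fun k =>
    algebraMap (MvPolynomial (Fin 2) K) (FK K) (C (uu y η₁ k)) with hvb
  have hinj := IsFractionRing.injective (MvPolynomial (Fin 2) K) (FK K)
  have ha0n : a0 ≠ 0 := by
    intro h
    exact X_ne_zero (0 : Fin 2) (hinj (h.trans (map_zero _).symm))
  have hubn : ∀ k, ub k ≠ 0 := by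
    intro k h
    have h2 := hinj (h.trans (map_zero _).symm)
    rw [C_eq_zero] at h2
    exact ht k (sub_eq_zero.1 h2)
  set dl : Fin 12 → FK K := fun k => a0 * vb k - b0 * ub k with hdl
  have hdln : ∀ k, dl k ≠ 0 := by
    intro k h
    refine be_ne t y θ₁ η₁ ht k (hinj ?_)
    rw [map_zero, ← h, be, map_sub, map_mul, map_mul]
  -- the polynomials in `s`
  set half : Polynomial (FK K) := algebraMap ℂ (Polynomial (FK K)) (1 / 2) with hhalf
  have hh2 : 2 * half = 1 := by
    rw [hhalf]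
    have : (2 : Polynomial (FK K)) = algebraMap ℂ (Polynomial (FK K)) 2 := by
      rw [map_ofNat]
    rw [this, ← map_mul]
    norm_num
  set Y : Fin 12 → Polynomial (FK K) := fun k => Polynomial.C (dl k)⁻¹ with hY
  set p : Fin 12 → Polynomial (FK K) := fun k =>
    (Polynomial.C (ub k) - half * Polynomial.C a0 * Polynomial.X) ^ 2 * Y k with hp
  set c : Polynomial (FK K) := -(half * Polynomial.C a0 * Polynomial.X) ^ 2 with hc
  have hYd : ∀ k, Polynomial.C (dl k) * Y k = 1 := by
    intro k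
    rw [hY]
    simp only
    rw [← map_mul, mul_inv_cancel₀ (hdln k), map_one]
  -- the polynomial `Φ₀`
  set Φ : Polynomial (Polynomial (FK K)) :=
    aeval (fun k => Polynomial.C (p k) + Polynomial.X * Polynomial.C (Y k)) F with hΦ
  have hΦT : (Polynomial.X : Polynomial (Polynomial (FK K))) ^ T ∣ Φ := by
    set σ : Polynomial (FK K) →+* LK K := algebraMap (Polynomial (FK K)) (LK K) with hσ
    have hσi : Function.Injective σ := IsFractionRing.injective (Polynomial (FK K)) (LK K)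
    have hσa : ∀ z : ℂ, σ (algebraMap ℂ (Polynomial (FK K)) z) = algebraMap ℂ (LK K) z := by
      intro z
      rw [hσ, ← IsScalarTower.algebraMap_apply]
    set A0 : LK K := σ (Polynomial.C a0) with hA0
    set B0 : LK K := σ (Polynomial.C b0) with hB0
    have hA0n : A0 ≠ 0 := by
      intro h
      have := hσi (h.trans (map_zero _).symm)
      rw [Polynomial.C_eq_zero] at this
      exact ha0n this
    set S0 : LK K := σ (half * Polynomial.X) with hS0
    have tk : ∀ (z : Fin 12 → ℂ) (e : K) (k : Fin 12), algebraMap ℂ (LK K) (z k) =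
        σ (kap K (C (uu z e k))) + σ (kap K (C e)) := by
      intro z e k
      rw [← hσa, alg_kap, ← map_add, ← map_add, ← map_add, uu]
      congr 3
      ring
    have hku : ∀ k, kap K (C (uu t θ₁ k)) = Polynomial.C (ub k) := fun k => kap_C K _
    have hkv : ∀ k, kap K (C (uu y η₁ k)) = Polynomial.C (vb k) := fun k => kap_C K _
    set θ : LK K := σ (kap K (C θ₁)) + A0 * S0 with hθ
    set η : LK K := σ (kap K (C η₁)) + B0 * S0 with hη
    have e1 : ∀ k, algebraMap ℂ (LK K) (t k) - θ =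
        σ (Polynomial.C (ub k) - half * Polynomial.C a0 * Polynomial.X) := by
      intro k
      rw [tk t θ₁ k, hku, hθ, hA0, hS0, map_sub, map_mul, map_mul, map_mul]
      ring
    have e2 : ∀ k, algebraMap ℂ (LK K) (y k) - η - B0 / A0 * (algebraMap ℂ (LK K) (t k) - θ) =
        σ (Polynomial.C (dl k)) / A0 := by
      intro k
      rw [e1, tk y η₁ k, hkv, hη, hS0, eq_div_iff hA0n, hdl]
      simp only [map_sub, map_mul]
      rw [← hA0, ← hB0]
      field_simp
      ring
    have hdσ : ∀ k, σ (Polynomial.C (dl k)) ≠ 0 := by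
      intro k h
      have := hσi (h.trans (map_zero _).symm)
      rw [Polynomial.C_eq_zero] at this
      exact hdln k this
    have hm := hM t y d m₁ m F hF T hT (LK K) θ η (B0 / A0) (fun k => A0 * σ (Y k)) (by
      intro k h
      have h1 : σ (Polynomial.C (ub k) - half * Polynomial.C a0 * Polynomial.X) = 0 := by
        rw [← e1, h, sub_self]
      have h2 := hσi (h1.trans (map_zero _).symm)
      have h3 := congrArg (fun Q => Polynomial.coeff Q 0) h2
      simp only [Polynomial.coeff_sub, Polynomial.coeff_C_zero, Polynomial.coeff_zero,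
        Polynomial.mul_coeff_zero, Polynomial.coeff_X_zero, mul_zero, sub_zero] at h3
      exact hubn k h3) (by
      intro k
      rw [e2]
      exact div_ne_zero (hdσ k) hA0n)
    have e3 : (fun i => Polynomial.C ((algebraMap ℂ (LK K) (t i) - θ) ^ 2 /
        (algebraMap ℂ (LK K) (y i) - η - B0 / A0 * (algebraMap ℂ (LK K) (t i) - θ))) +
        Polynomial.X * Polynomial.C (A0 * σ (Y i))) =
        fun i => Polynomial.C A0 * (Polynomial.C (σ (p i)) + Polynomial.X * Polynomial.C (σ (Y i)))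
        := by
      funext i
      have h1 : (algebraMap ℂ (LK K) (t i) - θ) ^ 2 /
        (algebraMap ℂ (LK K) (y i) - η - B0 / A0 * (algebraMap ℂ (LK K) (t i) - θ)) = A0 * σ (p i) := by
        rw [e2, e1, hp]
        simp only
        rw [map_mul, map_pow]
        have h2 : σ (Polynomial.C (dl i)) * σ (Y i) = 1 := by rw [← map_mul, hYd, map_one]
        have h3 : σ (Y i) = (σ (Polynomial.C (dl i)))⁻¹ := by
          rw [eq_comm, inv_eq_iff_eq_inv, ← one_div, eq_div_iff]
          · exact h2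
          · intro h; rw [h, mul_zero] at h2; exact zero_ne_one h2
        rw [h3]
        field_simp [hdσ i]
      rw [h1]
      simp only [map_mul]
      ring
    rw [e3, aeval_scale hF.hom] at hm
    have hu : IsUnit ((Polynomial.C A0) ^ d) :=
      (Polynomial.isUnit_C.2 (isUnit_iff_ne_zero.2 hA0n)).pow d
    have hm2 := (hu.dvd_mul_left).1 hm
    have e4 : aeval (fun i => Polynomial.C (σ (p i)) + Polynomial.X * Polynomial.C (σ (Y i))) F =
        Polynomial.mapRingHom σ Φ := by
      have h1 := map_aev (A := Polynomial (Polynomial (FK K))) (B := Polynomial (LK K))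
        (Polynomial.mapRingHom σ) (by
          intro z
          rw [Polynomial.algebraMap_apply, Polynomial.coe_mapRingHom, Polynomial.map_C, hσa,
            Polynomial.algebraMap_apply])
        (fun k => Polynomial.C (p k) + Polynomial.X * Polynomial.C (Y k)) F
      rw [hΦ]
      refine Eq.trans ?_ h1.symm
      congr 1
      congr 1
      funext i
      simp
    rw [e4, Polynomial.X_pow_dvd_iff] at hm2
    rw [Polynomial.X_pow_dvd_iff]
    intro j hj
    have h1 := hm2 j hj
    rw [Polynomial.coe_mapRingHom, Polynomial.coeff_map] at h1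
    exact hσi (h1.trans (map_zero _).symm)
  -- evaluation at `c`
  have hev : (Polynomial.X : Polynomial (FK K)) ^ (2 * T) ∣
      aeval (fun k => kap K (al t θ₁ k) * Y k) F := by
    obtain ⟨Ψ, hΨ⟩ := hΦT
    have h1 : Polynomial.eval c Φ = aeval (fun k => kap K (al t θ₁ k) * Y k) F := by
      have h2 := map_aev (A := Polynomial (Polynomial (FK K))) (B := Polynomial (FK K))
        (Polynomial.evalRingHom c) (by
          intro z
          simp [Polynomial.algebraMap_apply])
        (fun k => Polynomial.C (p k) + Polynomial.X * Polynomial.C (Y k)) F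
      rw [hΦ]
      refine Eq.trans h2 ?_
      congr 1
      congr 1
      funext k
      simp only [Polynomial.coe_evalRingHom, Polynomial.eval_add, Polynomial.eval_mul,
        Polynomial.eval_C, Polynomial.eval_X]
      rw [al, map_mul, map_sub, kap_C, kap_X, hp, hc]
      simp only
      rw [← ha0]
      have h3 : algebraMap (MvPolynomial (Fin 2) K) (FK K) (C (uu t θ₁ k)) = ub k := rfl
      rw [h3]
      linear_combination (-(Polynomial.C (ub k) * Polynomial.C a0 * Polynomial.X * Y k)) * hh2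
    rw [← h1, hΨ, Polynomial.eval_mul, Polynomial.eval_pow, Polynomial.eval_X, hc]
    refine Dvd.dvd.mul_right ?_ _
    refine ⟨(-(half * Polynomial.C a0) ^ 2) ^ T, ?_⟩
    rw [pow_mul, ← mul_pow]
    congr 1
    ring
  -- conclusion
  have hs := HG_scale (A := Polynomial (FK K)) hF.hom hD (fun k => kap K (al t θ₁ k))
    (fun k => Polynomial.C (dl k)) Polynomial.X
  have h5 : kap K (HG D F (al t θ₁) (be t y θ₁ η₁)) =
      HG D F (fun k => kap K (al t θ₁ k)) (fun k => Polynomial.X * Polynomial.C (dl k)) := by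
    rw [HG_map (kap K) kap_alg]
    congr 1
    funext k
    rw [be, map_sub, map_mul, map_mul, kap_X, kap_X, kap_C, kap_C, hdl]
    simp only [map_sub, map_mul]
    ring
  have h6 : HG D F (fun k => kap K (al t θ₁ k)) (fun k => Polynomial.C (dl k)) =
      aeval (fun k => kap K (al t θ₁ k) * Y k) F * ∏ k, Polynomial.C (dl k) ^ D k := by
    refine HG_eq hD fun k => ?_
    rw [mul_assoc, mul_comm (Y k), hYd, mul_one]
  have h7 : (Polynomial.X : Polynomial (FK K)) ^ (N + d) ∣
      kap K (HG D F (al t θ₁) (be t y θ₁ η₁)) * Polynomial.X ^ d := by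
    rw [h5, hs, h6, hN, pow_add]
    exact mul_dvd_mul (dvd_refl _) (Dvd.dvd.mul_right hev _)
  rw [pow_add] at h7
  exact (mul_dvd_mul_iff_right (pow_ne_zero d Polynomial.X_ne_zero)).1 h7

end mult

end GpolyAux

end Pool.Agent.MP5769ea

namespace Pool.Agent.MP5769ea

namespace GpolyAux

section PDsec

variable {K : Type} [Field K]

theorem mem_PD {d μ : ℤ} {P : MvPolynomial (Fin 2) K} :
    P ∈ PD K d μ ↔ ∀ n ∈ P.support, ((n 0 + n 1 : ℕ) : ℤ) ≤ d ∧ ((n 1 : ℕ) : ℤ) ≤ μ := by
  unfold PD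
  rw [mem_restrictSupport_iff]
  constructor
  · intro h n hn
    exact h hn
  · intro h n hn
    exact h n hn

theorem mem_Ord {q : Fin 2 → K} {g : ℤ} {P : MvPolynomial (Fin 2) K} :
    P ∈ OrdGE q g ↔ ∀ n ∈ (shift q P).support, g ≤ ((n 0 + n 1 : ℕ) : ℤ) := by
  unfold OrdGE
  rw [Submodule.mem_comap, mem_restrictSupport_iff]
  constructor
  · intro h n hn
    exact h hn
  · intro h n hn
    exact h n hn

theorem PD_mono {d μ d' μ' : ℤ} (h1 : d ≤ d') (h2 : μ ≤ μ') {P : MvPolynomial (Fin 2) K}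
    (hP : P ∈ PD K d μ) : P ∈ PD K d' μ' := by
  rw [mem_PD] at hP ⊢
  exact fun n hn => ⟨(hP n hn).1.trans h1, (hP n hn).2.trans h2⟩

theorem C_PD (c : K) : (C c : MvPolynomial (Fin 2) K) ∈ PD K 0 0 := by
  rw [mem_PD]
  intro n hn
  have : n = 0 := by
    by_contra h
    rw [mem_support_iff, coeff_C, if_neg (fun h' => h h'.symm)] at hn
    exact hn rfl
  subst this
  simp

theorem X0_PD : (X 0 : MvPolynomial (Fin 2) K) ∈ PD K 1 0 := by
  rw [mem_PD]
  intro n hn
  rw [support_X, Finset.mem_singleton] at hn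
  subst hn
  simp

theorem X1_PD : (X 1 : MvPolynomial (Fin 2) K) ∈ PD K 1 1 := by
  rw [mem_PD]
  intro n hn
  rw [support_X, Finset.mem_singleton] at hn
  subst hn
  simp

variable (hPD : S_PDBasic)
include hPD

theorem PD_mul {a μ b ν : ℤ} {P Q : MvPolynomial (Fin 2) K} (hP : P ∈ PD K a μ)
    (hQ : Q ∈ PD K b ν) : P * Q ∈ PD K (a + b) (μ + ν) := (hPD K).2.1 P Q a μ b ν hP hQ

theorem PD_pow {a μ : ℤ} {P : MvPolynomial (Fin 2) K} (hP : P ∈ PD K a μ) (n : ℕ) :
    P ^ n ∈ PD K (n * a) (n * μ) := by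
  induction n with
  | zero =>
    simp only [pow_zero, Nat.cast_zero, zero_mul]
    have := C_PD (K := K) 1
    rwa [C_1] at this
  | succ n ih =>
    rw [pow_succ]
    refine PD_mono ?_ ?_ (PD_mul hPD ih hP) <;> push_cast <;> linarith

theorem PD_prod (s : Finset (Fin 12)) (a μ : Fin 12 → ℤ) (P : Fin 12 → MvPolynomial (Fin 2) K)
    (h : ∀ k, P k ∈ PD K (a k) (μ k)) :
    ∏ k ∈ s, P k ∈ PD K (∑ k ∈ s, a k) (∑ k ∈ s, μ k) := by
  induction s using Finset.induction_on with
  | empty =>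
    simp only [Finset.prod_empty, Finset.sum_empty]
    have := C_PD (K := K) 1
    rwa [C_1] at this
  | insert k s hk ih =>
    rw [Finset.prod_insert hk, Finset.sum_insert hk, Finset.sum_insert hk]
    exact PD_mul hPD (h k) ih

theorem PD_shift {d μ : ℤ} {P : MvPolynomial (Fin 2) K} (hP : P ∈ PD K d μ) (q : Fin 2 → K) :
    shift q P ∈ PD K d μ := by
  rw [mem_PD] at hP
  have h1 : shift q P = ∑ n ∈ P.support, C (coeff n P) *
      ((X 0 + C (q 0)) ^ n 0 * (X 1 + C (q 1)) ^ n 1) := by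
    unfold shift
    rw [aeval_def, eval₂_eq']
    refine Finset.sum_congr rfl fun n _ => ?_
    rw [Fin.prod_univ_two]
    rfl
  rw [h1]
  refine Submodule.sum_mem _ fun n hn => ?_
  obtain ⟨h2, h3⟩ := hP n hn
  have e0 : (X 0 + C (q 0) : MvPolynomial (Fin 2) K) ∈ PD K 1 0 :=
    Submodule.add_mem _ X0_PD (PD_mono (by norm_num) le_rfl (C_PD _))
  have e1 : (X 1 + C (q 1) : MvPolynomial (Fin 2) K) ∈ PD K 1 1 :=
    Submodule.add_mem _ X1_PD (PD_mono (by norm_num) (by norm_num) (C_PD _))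
  have e2 := PD_mul hPD (C_PD (coeff n P)) (PD_mul hPD (PD_pow hPD e0 (n 0)) (PD_pow hPD e1 (n 1)))
  refine PD_mono ?_ ?_ e2
  · push_cast at h2; linarith
  · linarith

end PDsec

end GpolyAux

end Pool.Agent.MP5769ea

namespace Pool.Agent.MP5769ea

namespace GpolyAux

section fin

variable {K : Type} [Field K]

theorem HG_PD [Algebra ℂ K] (hPD : S_PDBasic) {D : Fin 12 → ℕ} {F : MvPolynomial (Fin 12) ℂ}
    (hD : ∀ n ∈ F.support, ∀ k, n k ≤ D k) (e : ℤ) (a b : Fin 12 → MvPolynomial (Fin 2) K)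
    (ha : ∀ k, a k ∈ PD K e 1) (hb : ∀ k, b k ∈ PD K e 1) :
    HG D F a b ∈ PD K (e * ∑ k, (D k : ℤ)) (∑ k, (D k : ℤ)) := by
  unfold HG
  refine Submodule.sum_mem _ fun n hn => ?_
  have h1 : ∏ k, (a k ^ n k * b k ^ (D k - n k)) ∈
      PD K (∑ k, e * (D k : ℤ)) (∑ k, (D k : ℤ)) := by
    refine PD_prod hPD _ _ _ _ fun k => ?_
    have h2 := PD_mul hPD (PD_pow hPD (ha k) (n k)) (PD_pow hPD (hb k) (D k - n k))
    have h3 : (n k : ℤ) + ((D k - n k : ℕ) : ℤ) = D k := by
      have := hD n hn k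
      omega
    refine PD_mono (le_of_eq ?_) (le_of_eq ?_) h2
    · rw [← add_mul, h3]; ring
    · rw [← add_mul, h3]; ring
  have h2 := PD_mul hPD (C_PD (algebraMap ℂ K (coeff n F))) h1
  refine PD_mono (le_of_eq ?_) (le_of_eq ?_) h2
  · rw [← Finset.mul_sum]; ring
  · ring

theorem supp_X0 {N : ℕ} {P : MvPolynomial (Fin 2) K} {n : Fin 2 →₀ ℕ} (hn : n ∈ P.support)
    (i : Fin 2) : n + Finsupp.single i N ∈ ((X i) ^ N * P).support := by
  rw [mem_support_iff] at hn ⊢
  rw [X_pow_eq_monomial, add_comm, coeff_monomial_mul, one_mul]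
  exact hn

theorem shift_shift (p q : Fin 2 → K) (h : ∀ i, p i + q i = 0) (P : MvPolynomial (Fin 2) K) :
    shift p (shift q P) = P := by
  have h1 : (shift p).comp (shift q) = AlgHom.id K (MvPolynomial (Fin 2) K) := by
    apply algHom_ext
    intro i
    simp only [AlgHom.comp_apply, shift, aeval_X, map_add, AlgHom.id_apply, aeval_C,
      algebraMap_eq, add_assoc]
    rw [← map_add, h i, map_zero, add_zero]
  exact DFunLike.congr_fun h1 P

theorem shift_alg [Algebra ℂ K] (q : Fin 2 → K) (c : ℂ) :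
    (shift q : MvPolynomial (Fin 2) K →+* MvPolynomial (Fin 2) K)
      (algebraMap ℂ (MvPolynomial (Fin 2) K) c) = algebraMap ℂ (MvPolynomial (Fin 2) K) c := by
  have h1 : algebraMap ℂ (MvPolynomial (Fin 2) K) c = C (algebraMap ℂ K c) := rfl
  rw [h1]
  exact (shift q).commutes (algebraMap ℂ K c)

theorem shift_C (q : Fin 2 → K) (c : K) : shift q (C c) = C c := (shift q).commutes c

theorem shift_X (q : Fin 2 → K) (i : Fin 2) : shift q (X i) = X i + C (q i) := by
  unfold shift; rw [aeval_X]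

end fin

end GpolyAux

open GpolyAux

theorem Gpoly (hM : S_MultV) (hPD : S_PDBasic) (hOrd : S_OrdBasic) : S_Gpoly := by
  intro t y d m₁ m F hF hm T hT K _ _ θ₁ η₁ ht
  set D : Fin 12 → ℕ := fun k => d - m k with hDdef
  have hD : ∀ n ∈ F.support, ∀ k, n k ≤ D k := by
    intro n hn k
    have := hF.deg k n hn
    have := hm k
    simp only [hDdef]
    omega
  have hDs : ∑ k, (D k : ℤ) = 12 * d - ∑ i, (m i : ℤ) := by
    have h1 : ∀ k, (D k : ℤ) = (d : ℤ) - m k := by
      intro k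
      have := hm k
      simp only [hDdef]
      omega
    rw [Finset.sum_congr rfl fun k _ => h1 k, Finset.sum_sub_distrib, Finset.sum_const,
      Finset.card_univ, Fintype.card_fin]
    simp
  have hTz : (T : ℤ) + 10 * d = m₁ + ∑ i, (m i : ℤ) := by exact_mod_cast hT
  obtain ⟨hA1, gh, hgh⟩ := lemA t y θ₁ η₁ hF D hD ht
  set G : MvPolynomial (Fin 2) K := HG D F (al t θ₁) (be t y θ₁ η₁) with hG
  -- memberships
  have hX0 : (X 0 : MvPolynomial (Fin 2) K) ∈ PD K 1 0 := X0_PD
  have hX1 : (X 1 : MvPolynomial (Fin 2) K) ∈ PD K 1 1 := X1_PD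
  have hC : ∀ c : K, (C c : MvPolynomial (Fin 2) K) ∈ PD K 0 0 := C_PD
  have hal : ∀ k, al t θ₁ k ∈ PD K 1 1 := by
    intro k
    unfold al
    refine PD_mono (by norm_num) (by norm_num) (PD_mul hPD (hC _)
      (Submodule.sub_mem _ (PD_mono (d' := 1) (μ' := 0) (by norm_num) le_rfl (hC _)) hX0))
  have hbe : ∀ k, be t y θ₁ η₁ k ∈ PD K 1 1 := by
    intro k
    unfold be
    refine Submodule.sub_mem _ ?_ ?_
    · exact PD_mono (by norm_num) (by norm_num) (PD_mul hPD hX0 (hC _))
    · exact PD_mono (by norm_num) (by norm_num) (PD_mul hPD hX1 (hC _))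
  have hga : ∀ k, ga t y θ₁ η₁ k ∈ PD K 2 1 := by
    intro k
    unfold ga
    refine Submodule.add_mem _ ?_ ?_
    · have h1 : algebraMap ℂ (MvPolynomial (Fin 2) K) (y k) ∈ PD K 0 0 := hC (algebraMap ℂ K (y k))
      exact PD_mono (by norm_num) (by norm_num) (PD_mul hPD h1 (hbe k))
    · have h1 : C (uu y η₁ k) - X 1 ∈ PD K 1 1 :=
        Submodule.sub_mem _ (PD_mono (by norm_num) (by norm_num) (hC _)) hX1
      have h2 := PD_mul hPD (hC (uu y η₁ k)) h1
      have h3 := PD_mul hPD hX0 (Submodule.neg_mem _ h2)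
      exact PD_mono (by norm_num) (by norm_num) h3
  have hGPD : G ∈ PD K (1 * ∑ k, (D k : ℤ)) (∑ k, (D k : ℤ)) := HG_PD hPD hD 1 _ _ hal hbe
  have hPPD : HG D F (ga t y θ₁ η₁) (be t y θ₁ η₁) ∈
      PD K (2 * ∑ k, (D k : ℤ)) (∑ k, (D k : ℤ)) :=
    HG_PD hPD hD 2 _ _ hga fun k => PD_mono (by norm_num) le_rfl (hbe k)
  have hghPD : gh ∈ PD K (11 * d - m₁ - ∑ i, (m i : ℤ)) (10 * d - ∑ i, (m i : ℤ)) := by
    rw [mem_PD]
    intro n hn
    constructor
    · have h1 := supp_X0 (N := d + m₁) hn 0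
      rw [← hgh] at h1
      have h2 := (mem_PD.1 hGPD _ h1).1
      simp only [Finsupp.add_apply, Finsupp.single_eq_same] at h2
      rw [Finsupp.single_eq_of_ne (by decide)] at h2
      push_cast at h2 ⊢
      rw [hDs] at h2
      linarith
    · have h1 := supp_X0 (N := 2 * d) (supp_X0 (N := d + m₁) hn 0) 1
      rw [← hgh, hA1] at h1
      have h0 : (-X 0 : MvPolynomial (Fin 2) K) ^ d * HG D F (ga t y θ₁ η₁) (be t y θ₁ η₁) ∈
          PD K (d * 1 + 2 * ∑ k, (D k : ℤ)) (d * 0 + ∑ k, (D k : ℤ)) :=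
        PD_mul hPD (PD_pow hPD (Submodule.neg_mem _ hX0) d) hPPD
      have h2 := (mem_PD.1 h0 _ h1).2
      simp only [Finsupp.add_apply, Finsupp.single_eq_same] at h2
      rw [Finsupp.single_eq_of_ne (by decide)] at h2
      push_cast at h2 ⊢
      rw [hDs] at h2
      linarith
  have hghT : ∀ n ∈ gh.support, (T : ℤ) ≤ ((n 0 + n 1 : ℕ) : ℤ) := by
    intro n hn
    have hB := lemB t y θ₁ η₁ hM hF D hD ht T (d + m₁ + T) (by omega) (by
      have : ((d + m₁ + T + d : ℕ) : ℤ) = ((∑ k, D k + 2 * T : ℕ) : ℤ) := by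
        push_cast
        rw [hDs]
        linarith
      exact_mod_cast this)
    have h1 := supp_X0 (N := d + m₁) hn 0
    rw [← hgh] at h1
    have h2 := kap_dvd K hB _ h1
    simp only [Finsupp.add_apply, Finsupp.single_eq_same] at h2
    rw [Finsupp.single_eq_of_ne (by decide)] at h2
    have : T ≤ n 0 + n 1 := by omega
    exact_mod_cast this
  -- the polynomial `g`
  set q0 : Fin 2 → K := ![-θ₁, -η₁] with hq0
  set g : MvPolynomial (Fin 2) K := shift q0 gh with hg
  set ε : MvPolynomial (Fin 2) K := X 0 + C (-θ₁) with hε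
  have hεs : shift q0 (X 0) = ε := by
    rw [shift_X]; rfl
  have hGs : shift q0 G = ε ^ (d + m₁) * g := by
    rw [hgh, map_mul, map_pow, hεs]
  have hGs2 : shift q0 G = HG D F (fun k => shift q0 (al t θ₁ k))
      (fun k => shift q0 (be t y θ₁ η₁ k)) :=
    HG_map (shift q0 : MvPolynomial (Fin 2) K →+* MvPolynomial (Fin 2) K) (shift_alg q0) D F _ _
  have hals : ∀ k, shift q0 (al t θ₁ k) = C (uu t θ₁ k) * (C (algebraMap ℂ K (t k)) - X 0) := by
    intro k
    rw [al, map_mul, map_sub, shift_C, hεs, hε, uu]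
    simp only [map_sub, map_neg]
    ring
  have hbes : ∀ k, shift q0 (be t y θ₁ η₁ k) = (X 0 - C θ₁) * C (uu y η₁ k) -
      (X 1 - C η₁) * C (uu t θ₁ k) := by
    intro k
    have h1 : shift q0 (X 1) = X 1 - C η₁ := by
      rw [shift_X]
      have : q0 1 = -η₁ := rfl
      rw [this, map_neg]; ring
    have h2 : shift q0 (X 0) = X 0 - C θ₁ := by
      rw [hεs, hε, map_neg]; ring
    rw [be, map_sub, map_mul, map_mul, shift_C, shift_C, h1, h2]
  refine ⟨g, PD_shift hPD hghPD q0, ?_, ?_, ?_⟩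
  · -- order at `q_k`
    intro k
    obtain ⟨o1, o2, o3, o4, o5, o6⟩ := hOrd K (up (pt t y k))
    have hq0' : up (K := K) (pt t y k) 0 = algebraMap ℂ K (t k) := rfl
    have hq1' : up (K := K) (pt t y k) 1 = algebraMap ℂ K (y k) := rfl
    have opow : ∀ (P : MvPolynomial (Fin 2) K) (n : ℕ), P ∈ OrdGE (up (pt t y k)) 1 →
        P ^ n ∈ OrdGE (up (pt t y k)) n := by
      intro P n hP
      induction n with
      | zero => rw [o1 _ (by simp)]; exact Submodule.mem_top
      | succ n ih =>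
        rw [pow_succ]
        have := o3 _ _ n 1 (by positivity) (by norm_num) ih hP
        push_cast
        exact this
    have hGo : shift q0 G ∈ OrdGE (up (pt t y k)) (D k : ℤ) := by
      rw [hGs2]
      unfold HG
      refine Submodule.sum_mem _ fun n hn => ?_
      rw [← Finset.mul_prod_erase _ _ (Finset.mem_univ k)]
      have h1 : shift q0 (al t θ₁ k) ∈ OrdGE (up (pt t y k)) 1 := by
        rw [o6, hals]
        simp only [map_mul, map_sub, eval_C, eval_X, hq0']
        ring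
      have h2 : shift q0 (be t y θ₁ η₁ k) ∈ OrdGE (up (pt t y k)) 1 := by
        rw [o6, hbes]
        simp only [map_mul, map_sub, eval_C, eval_X, hq0', hq1', uu]
        ring
      have h3 := o3 _ _ _ _ (by positivity) (by positivity) (opow _ (n k) h1)
        (opow _ (D k - n k) h2)
      have h4 : (n k : ℤ) + ((D k - n k : ℕ) : ℤ) = D k := by
        have := hD n hn k
        omega
      rw [h4] at h3
      have h5 := o3 _ (algebraMap ℂ (MvPolynomial (Fin 2) K) (coeff n F) *
        ∏ j ∈ Finset.univ.erase k, (shift q0 (al t θ₁ j) ^ n j *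
          shift q0 (be t y θ₁ η₁ j) ^ (D j - n j))) _ 0 (by positivity) le_rfl h3
        (by rw [o1 0 le_rfl]; exact Submodule.mem_top)
      rw [add_zero] at h5
      convert h5 using 1
      ring
    have hDk : ((d : ℤ) - m k) = (D k : ℤ) := by
      have := hm k
      simp only [hDdef]
      omega
    rw [hDk]
    by_contra hc
    have hε1 : ε ^ (d + m₁) ∉ OrdGE (up (pt t y k)) 1 := by
      rw [o6]
      rw [map_pow, hε]
      simp only [map_add, eval_X, eval_C, hq0']
      intro h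
      have h2 := eq_zero_of_pow_eq_zero h
      exact ht k (by rw [← sub_eq_add_neg] at h2; exact sub_eq_zero.1 h2)
    have h6 := o4 _ _ _ _ hε1 hc
    rw [← hGs] at h6
    apply h6
    have : (1 : ℤ) + D k - 1 = D k := by ring
    rw [this]
    exact hGo
  · rw [mem_Ord]
    have h1 : shift ![θ₁, η₁] g = gh := by
      rw [hg]
      apply shift_shift
      intro i
      fin_cases i
      · simp [hq0]
      · simp [hq0]
    rw [h1]
    exact hghT
  · intro K' _ _ _ _ θ₂ η₂ Δ hΔ hΔ0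
    have hf : ∀ c : ℂ, ((aeval ![θ₂, η₂] : MvPolynomial (Fin 2) K →ₐ[K] K') :
        MvPolynomial (Fin 2) K →+* K') (algebraMap ℂ (MvPolynomial (Fin 2) K) c) =
        algebraMap ℂ K' c := by
      intro c
      have h1 : algebraMap ℂ (MvPolynomial (Fin 2) K) c = C (algebraMap ℂ K c) := rfl
      rw [h1, IsScalarTower.algebraMap_apply ℂ K K']
      exact (aeval ![θ₂, η₂] : MvPolynomial (Fin 2) K →ₐ[K] K').commutes _
    have h1 := HG_map ((aeval ![θ₂, η₂] : MvPolynomial (Fin 2) K →ₐ[K] K') :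
        MvPolynomial (Fin 2) K →+* K') hf D F (fun k => shift q0 (al t θ₁ k))
      (fun k => shift q0 (be t y θ₁ η₁ k))
    rw [← hGs2, hGs] at h1
    have h2 : HG D F (fun k => ((aeval ![θ₂, η₂] : MvPolynomial (Fin 2) K →ₐ[K] K') :
        MvPolynomial (Fin 2) K →+* K') (shift q0 (al t θ₁ k)))
        (fun k => ((aeval ![θ₂, η₂] : MvPolynomial (Fin 2) K →ₐ[K] K') :
        MvPolynomial (Fin 2) K →+* K') (shift q0 (be t y θ₁ η₁ k))) =
        aeval (fun i => (algebraMap ℂ K' (t i) - algebraMap K K' θ₁) *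
              (algebraMap ℂ K' (t i) - θ₂) / Δ i) F *
          ∏ k, (((aeval ![θ₂, η₂] : MvPolynomial (Fin 2) K →ₐ[K] K') :
        MvPolynomial (Fin 2) K →+* K') (shift q0 (be t y θ₁ η₁ k))) ^ D k := by
      refine HG_eq hD fun k => ?_
      rw [hals, hbes]
      have hΔk := hΔ0 k
      rw [hΔ k] at hΔk ⊢
      simp only [RingHom.coe_coe, map_sub, map_mul, aeval_C, aeval_X, uu,
        Matrix.cons_val_zero, Matrix.cons_val_one, ← IsScalarTower.algebraMap_apply]
      rw [div_mul_eq_mul_div, div_eq_iff hΔk]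
      ring
    rw [h2] at h1
    have h3 : ∀ k, (((aeval ![θ₂, η₂] : MvPolynomial (Fin 2) K →ₐ[K] K') :
        MvPolynomial (Fin 2) K →+* K') (shift q0 (be t y θ₁ η₁ k))) = Δ k := by
      intro k
      rw [hbes, hΔ k]
      simp only [RingHom.coe_coe, map_sub, map_mul, aeval_C, aeval_X, uu,
        Matrix.cons_val_zero, Matrix.cons_val_one, ← IsScalarTower.algebraMap_apply]
      ring
    simp only [h3] at h1
    rw [← h1]
    simp only [RingHom.coe_coe, map_mul, map_pow, hε, map_add, aeval_X, aeval_C, map_neg,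
      Matrix.cons_val_zero]
    ring

end Pool.Agent.MP5769ea
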