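import Pool.Agent.Lib.MP_5769ea_ag.Spec5

/-!
# MP_5769ea_ag: H0Mul, products of sections are sections
-/

open MvPolynomial

namespace Pool.Agent.MP5769ea

namespace H0MulAux

theorem multGE_iff {ι : Type} (F : MvPolynomial ι ℂ) (p : ι → ℂ) (k : ℤ) :
    MultGE F p k ↔ bind₁ (fun i => X i + C (p i)) F ∈ idealOfVars ι ℂ ^ k.toNat := by
  classical
  rw [mem_pow_idealOfVars_iff']
  unfold MultGE
  constructor
  · intro h x hx
    have h1 := h x.degree (by omega)
    have h2 := congrArg (coeff x) h1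
    rw [coeff_homogeneousComponent, if_pos rfl, coeff_zero] at h2
    exact h2
  · intro h j hj
    ext x
    rw [coeff_homogeneousComponent, coeff_zero]
    split_ifs with h1
    · apply h
      omega
    · rfl

theorem mul_mem {s n : ℕ} (P : Fin s → Fin (n + 1) → ℂ) (d d' : ℕ) (m m' : Fin s → ℤ)
    (F G : MvPolynomial (Fin (n + 1)) ℂ) (hF : F ∈ H0 P d m) (hG : G ∈ H0 P d' m') :
    F * G ∈ H0 P (d + d') (m + m') := by
  refine ⟨hF.1.mul hG.1, fun i => ?_⟩
  have h1 := (multGE_iff F (P i) (m i)).mp (hF.2 i)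
  have h2 := (multGE_iff G (P i) (m' i)).mp (hG.2 i)
  rw [multGE_iff, map_mul]
  have h3 := Ideal.mul_mem_mul h1 h2
  rw [← pow_add] at h3
  refine Ideal.pow_le_pow_right ?_ h3
  rw [Pi.add_apply]
  omega

theorem one_mem {s n : ℕ} (P : Fin s → Fin (n + 1) → ℂ) :
    (1 : MvPolynomial (Fin (n + 1)) ℂ) ∈ H0 P 0 (fun _ => 0) := by
  refine ⟨isHomogeneous_one _ _, fun i => ?_⟩
  rw [multGE_iff]
  simp

end H0MulAux

open H0MulAux

theorem H0Mul : S_H0Mul := by
  intro s n P d d' m m' F G hF hG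
  refine ⟨mul_mem P d d' m m' F G hF hG, fun k => ?_⟩
  induction k with
  | zero =>
    simpa using one_mem P
  | succ k ih =>
    have h := mul_mem P (k * d) d (fun i => (k : ℤ) * m i) m (F ^ k) F ih hF
    rw [pow_succ]
    have e1 : (k + 1) * d = k * d + d := by ring
    have e2 : (fun i => ((k + 1 : ℕ) : ℤ) * m i) = (fun i => (k : ℤ) * m i) + m := by
      funext i
      simp only [Pi.add_apply]
      push_cast
      ring
    rw [e1, e2]
    exact h

end Pool.Agent.MP5769ea
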