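import Pool.Agent.Lib.MP_5769ea_ag.Spec1

/-!
# MP_5769ea_ag, Interp : the interpolation lemma

Proof by induction on the number of points: if all proportional subspaces of `W`, `dim W = 2 M`,
have dimension at most `M`, then there is a point `z` such that the evaluation at `z` has rank two
on `W` and all proportional subspaces of the kernel have dimension at most `M - 1`.
-/

set_option autoImplicit false

open MvPolynomial

namespace Pool.Agent.MP5769ea

namespace InterpAux

variable {k K : Type} [Field k] [Field K] [Algebra k K]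

/-- pairs of polynomials -/
abbrev PP (K : Type) [Field K] : Type := MvPolynomial (Fin 2) K × MvPolynomial (Fin 2) K

/-- proportional pairs -/
def Prop1 (u v : PP K) : Prop := u.1 * v.2 = v.1 * u.2

/-- a nonzero polynomial has a `k`-point where it does not vanish -/
theorem exists_pt [Infinite k] (p : MvPolynomial (Fin 2) K) (hp : p ≠ 0) :
    ∃ z : Fin 2 → k, eval (fun i => algebraMap k K (z i)) p ≠ 0 := by
  by_contra hcon
  push Not at hcon
  apply hp
  refine funext_set (fun _ => Set.range (algebraMap k K))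
    (fun _ => Set.infinite_range_of_injective (algebraMap k K).injective) ?_
  intro x hx
  have h : ∀ i, ∃ a, algebraMap k K a = x i := fun i => hx i (Set.mem_univ i)
  choose z hz using h
  have : x = fun i => algebraMap k K (z i) := funext fun i => (hz i).symm
  rw [this, hcon z, map_zero]

/-- evaluation at `z` of a pair -/
noncomputable def ev (z : Fin 2 → k) : PP K →ₗ[K] K × K :=
  LinearMap.prodMap (aeval (fun i => algebraMap k K (z i))).toLinearMap
    (aeval (fun i => algebraMap k K (z i))).toLinearMap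

theorem ev_fst (z : Fin 2 → k) (v : PP K) :
    (ev z v).1 = eval (fun i => algebraMap k K (z i)) v.1 := by
  show aeval (fun i => algebraMap k K (z i)) v.1 = _
  rw [aeval_eq_eval]

theorem ev_snd (z : Fin 2 → k) (v : PP K) :
    (ev z v).2 = eval (fun i => algebraMap k K (z i)) v.2 := by
  show aeval (fun i => algebraMap k K (z i)) v.2 = _
  rw [aeval_eq_eval]

/-- proportionality to a fixed nonzero element is transitive -/
theorem prop_trans {u v w : PP K} (hu : u ≠ 0) (h1 : Prop1 u v) (h2 : Prop1 u w) :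
    Prop1 v w := by
  unfold Prop1 at *
  have hu' : u.1 ≠ 0 ∨ u.2 ≠ 0 := by
    by_contra h
    push Not at h
    exact hu (Prod.ext h.1 h.2)
  rcases hu' with h | h
  · have h3 : u.1 * (v.1 * w.2) = u.1 * (w.1 * v.2) := by
      calc u.1 * (v.1 * w.2) = v.1 * (u.1 * w.2) := by ring
        _ = v.1 * (w.1 * u.2) := by rw [h2]
        _ = w.1 * (v.1 * u.2) := by ring
        _ = w.1 * (u.1 * v.2) := by rw [h1]
        _ = u.1 * (w.1 * v.2) := by ring
    exact mul_left_cancel₀ h h3
  · have h3 : u.2 * (v.1 * w.2) = u.2 * (w.1 * v.2) := by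
      calc u.2 * (v.1 * w.2) = (v.1 * u.2) * w.2 := by ring
        _ = (u.1 * v.2) * w.2 := by rw [h1]
        _ = (u.1 * w.2) * v.2 := by ring
        _ = (w.1 * u.2) * v.2 := by rw [h2]
        _ = u.2 * (w.1 * v.2) := by ring
    exact mul_left_cancel₀ h h3

theorem prop_symm {u v : PP K} (h : Prop1 u v) : Prop1 v u := by
  unfold Prop1 at *
  exact h.symm

theorem prop_add {u v w : PP K} (h1 : Prop1 u v) (h2 : Prop1 u w) : Prop1 u (v + w) := by
  unfold Prop1 at *
  rw [Prod.snd_add, Prod.fst_add, mul_add, add_mul, h1, h2]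

/-- all elements proportional -/
def AllProp (U : Submodule K (PP K)) : Prop := ∀ u ∈ U, ∀ v ∈ U, Prop1 u v

/-- two proportional subspaces with a common nonzero element -/
theorem allProp_sup {U U' : Submodule K (PP K)} (hU : AllProp U) (hU' : AllProp U') {u : PP K}
    (hu : u ≠ 0) (h1 : u ∈ U) (h2 : u ∈ U') : AllProp (U ⊔ U') := by
  have key : ∀ v ∈ U ⊔ U', Prop1 u v := by
    intro v hv
    obtain ⟨a, ha, b, hb, rfl⟩ := Submodule.mem_sup.1 hv
    exact prop_add (hU u h1 a ha) (hU' u h2 b hb)
  intro v hv w hw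
  exact prop_trans hu (key v hv) (key w hw)

/-- the evaluation has rank at most one on a proportional space -/
theorem not_surj_of_allProp {U : Submodule K (PP K)} (hU : AllProp U) (z : Fin 2 → k) :
    ¬ (⊤ : Submodule K (K × K)) ≤ U.map (ev z) := by
  intro h
  obtain ⟨a, ha, ha'⟩ := Submodule.mem_map.1 (h (show ((1, 0) : K × K) ∈ ⊤ from trivial))
  obtain ⟨b, hb, hb'⟩ := Submodule.mem_map.1 (h (show ((0, 1) : K × K) ∈ ⊤ from trivial))
  have h1 := hU a ha b hb
  unfold Prop1 at h1
  have h2 := congrArg (eval (fun i => algebraMap k K (z i))) h1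
  rw [map_mul, map_mul, ← ev_fst, ← ev_snd, ← ev_fst, ← ev_snd, ha', hb'] at h2
  simp at h2

/-- surjectivity of the evaluation from a nonzero determinant -/
theorem surj_of_det {W : Submodule K (PP K)} {z : Fin 2 → k} {v v' : PP K} (hv : v ∈ W)
    (hv' : v' ∈ W) (h : eval (fun i => algebraMap k K (z i)) (v.1 * v'.2 - v'.1 * v.2) ≠ 0) :
    (⊤ : Submodule K (K × K)) ≤ W.map (ev z) := by
  rw [map_sub, map_mul, map_mul, ← ev_fst, ← ev_snd, ← ev_fst, ← ev_snd] at h
  rintro ⟨x, y⟩ _
  set a := ev z v with ha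
  set b := ev z v' with hb
  set D : K := a.1 * b.2 - b.1 * a.2 with hD
  refine Submodule.mem_map.2 ⟨((x * b.2 - y * b.1) / D) • v + ((y * a.1 - x * a.2) / D) • v',
    W.add_mem (W.smul_mem _ hv) (W.smul_mem _ hv'), ?_⟩
  rw [map_add, map_smul, map_smul, ← ha, ← hb]
  have hD0 : D ≠ 0 := h
  ext
  · simp only [Prod.fst_add, Prod.smul_fst, smul_eq_mul]
    field_simp
    rw [hD]
    ring
  · simp only [Prod.snd_add, Prod.smul_snd, smul_eq_mul]
    field_simp
    rw [hD]
    ring

/-- one step: the good point -/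
theorem step [Infinite k] (M : ℕ) (W : Submodule K (PP K)) [FiniteDimensional K W]
    (hW : Module.finrank K W = 2 * (M + 1))
    (hU : ∀ U ≤ W, AllProp U → Module.finrank K U ≤ M + 1) :
    ∃ z : Fin 2 → k, (⊤ : Submodule K (K × K)) ≤ W.map (ev z) ∧
      ∀ U ≤ W ⊓ LinearMap.ker (ev z), AllProp U → Module.finrank K U ≤ M := by
  -- `W` is not proportional
  have hne : ¬ AllProp W := by
    intro h
    have := hU W le_rfl h
    omega
  unfold AllProp at hne
  push Not at hne
  obtain ⟨v, hv, v', hv', hvv⟩ := hne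
  have hD : v.1 * v'.2 - v'.1 * v.2 ≠ 0 := sub_ne_zero.2 hvv
  by_contra hcon
  push Not at hcon
  -- for every good point a proportional space of dimension `M + 1`
  have hgood : ∀ z : Fin 2 → k, (⊤ : Submodule K (K × K)) ≤ W.map (ev z) →
      ∃ U : Submodule K (PP K), U ≤ W ⊓ LinearMap.ker (ev z) ∧ AllProp U ∧
        Module.finrank K U = M + 1 := by
    intro z hz
    obtain ⟨U, h1, h2, h3⟩ := hcon z hz
    refine ⟨U, h1, h2, le_antisymm (hU U (h1.trans inf_le_left) h2) h3⟩
  choose! UU hUU using hgood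
  have hfd : ∀ U ≤ W, FiniteDimensional K U := fun U h =>
    Submodule.finiteDimensional_of_le h
  -- they are all equal
  have heq : ∀ z z' : Fin 2 → k, (⊤ : Submodule K (K × K)) ≤ W.map (ev z) →
      (⊤ : Submodule K (K × K)) ≤ W.map (ev z') → UU z = UU z' := by
    intro z z' hz hz'
    obtain ⟨h1, h2, h3⟩ := hUU z hz
    obtain ⟨h1', h2', h3'⟩ := hUU z' hz'
    have hle : UU z ≤ W := h1.trans inf_le_left
    have hle' : UU z' ≤ W := h1'.trans inf_le_left
    have := hfd _ hle
    have := hfd _ hle'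
    by_cases hint : UU z ⊓ UU z' = ⊥
    · exfalso
      have h4 : Module.finrank K (UU z ⊔ UU z' : Submodule K (PP K)) = 2 * (M + 1) := by
        have := Submodule.finrank_sup_add_finrank_inf_eq (UU z) (UU z')
        rw [hint, finrank_bot, h3, h3'] at this
        omega
      have h5 : UU z ⊔ UU z' = W :=
        Submodule.eq_of_le_of_finrank_eq (sup_le hle hle') (h4.trans hW.symm)
      refine not_surj_of_allProp h2' z ?_
      intro x hx
      obtain ⟨w, hw, hwx⟩ := Submodule.mem_map.1 (hz hx)
      rw [← h5] at hw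
      obtain ⟨a, ha, b, hb, rfl⟩ := Submodule.mem_sup.1 hw
      have h6 : ev z a = 0 := LinearMap.mem_ker.1 (h1 ha).2
      refine Submodule.mem_map.2 ⟨b, hb, ?_⟩
      rw [map_add, h6, zero_add] at hwx
      exact hwx
    · obtain ⟨u, hu, hu0⟩ := (Submodule.ne_bot_iff _).1 hint
      have h4 := allProp_sup h2 h2' hu0 hu.1 hu.2
      have h5 := hU _ (sup_le hle hle') h4
      have := hfd _ (sup_le hle hle')
      have h6 : UU z = UU z ⊔ UU z' := by
        refine Submodule.eq_of_le_of_finrank_le le_sup_left ?_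
        rw [h3]
        exact h5
      have h7 : UU z' = UU z ⊔ UU z' := by
        refine Submodule.eq_of_le_of_finrank_le le_sup_right ?_
        rw [h3']
        exact h5
      exact h6.trans h7.symm
  -- contradiction
  obtain ⟨z0, hz0⟩ := exists_pt (k := k) _ hD
  have hz0' := surj_of_det hv hv' hz0
  obtain ⟨h1, h2, h3⟩ := hUU z0 hz0'
  have hnb : UU z0 ≠ ⊥ := by
    intro h
    rw [h, finrank_bot] at h3
    omega
  obtain ⟨u, hu, hu0⟩ := (Submodule.ne_bot_iff _).1 hnb
  have hu' : u.1 ≠ 0 ∨ u.2 ≠ 0 := by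
    by_contra h
    push Not at h
    exact hu0 (Prod.ext h.1 h.2)
  have hfin : ∀ p : MvPolynomial (Fin 2) K, p ≠ 0 → ∃ z : Fin 2 → k,
      eval (fun i => algebraMap k K (z i)) p ≠ 0 ∧ ev z u = 0 := by
    intro p hp
    obtain ⟨z, hz⟩ := exists_pt (k := k) _ (mul_ne_zero hD hp)
    rw [map_mul] at hz
    have hz' := surj_of_det hv hv' (left_ne_zero_of_mul hz)
    refine ⟨z, right_ne_zero_of_mul hz, ?_⟩
    have h4 := heq z0 z hz0' hz'
    rw [h4] at hu
    exact LinearMap.mem_ker.1 ((hUU z hz').1 hu).2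
  rcases hu' with h | h
  · obtain ⟨z, hz, hz'⟩ := hfin _ h
    apply hz
    rw [← ev_fst, hz']
    rfl
  · obtain ⟨z, hz, hz'⟩ := hfin _ h
    apply hz
    rw [← ev_snd, hz']
    rfl

/-- the dimension of the kernel -/
theorem finrank_ker {W : Submodule K (PP K)} [FiniteDimensional K W] {z : Fin 2 → k}
    (hz : (⊤ : Submodule K (K × K)) ≤ W.map (ev z)) :
    Module.finrank K (W ⊓ LinearMap.ker (ev z) : Submodule K (PP K)) + 2 =
      Module.finrank K W := by
  have h1 := LinearMap.finrank_range_add_finrank_ker ((ev z).domRestrict W)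
  have h2 : LinearMap.range ((ev z).domRestrict W) = ⊤ := by
    rw [LinearMap.range_domRestrict]
    exact top_le_iff.1 hz
  rw [h2, finrank_top, Module.finrank_prod, Module.finrank_self] at h1
  have h3 : (LinearMap.ker ((ev z).domRestrict W)).map W.subtype =
      W ⊓ LinearMap.ker (ev z) := by
    ext v
    constructor
    · rintro ⟨w, hw, rfl⟩
      exact ⟨w.2, LinearMap.mem_ker.2 (LinearMap.mem_ker.1 hw)⟩
    · rintro ⟨hv, hv'⟩
      exact ⟨⟨v, hv⟩, LinearMap.mem_ker.2 (LinearMap.mem_ker.1 hv'), rfl⟩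
  rw [← h3]
  have h5 : Module.finrank K
      ((LinearMap.ker ((ev z).domRestrict W)).map W.subtype : Submodule K (PP K)) =
      Module.finrank K (LinearMap.ker ((ev z).domRestrict W)) :=
    Submodule.finrank_map_subtype_eq W _
  omega

/-- the induction -/
theorem induct [Infinite k] (M : ℕ) : ∀ W : Submodule K (PP K), FiniteDimensional K W →
    Module.finrank K W = 2 * M → (∀ U ≤ W, AllProp U → Module.finrank K U ≤ M) →
    ∃ Z : Fin M → Fin 2 → k, ∀ v ∈ W, (∀ j, ev (Z j) v = 0) → v = 0 := by
  induction M with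
  | zero =>
    intro W hW h0 _
    refine ⟨Fin.elim0, fun v hv _ => ?_⟩
    have : W = ⊥ := Submodule.finrank_eq_zero.1 h0
    rw [this] at hv
    exact (Submodule.mem_bot K).1 hv
  | succ M ih =>
    intro W hW h0 hU
    obtain ⟨z, hz, hz'⟩ := step (k := k) M W h0 hU
    have h1 := finrank_ker hz
    have h2 : Module.finrank K (W ⊓ LinearMap.ker (ev z) : Submodule K (PP K)) = 2 * M := by
      omega
    obtain ⟨Z, hZ⟩ := ih (W ⊓ LinearMap.ker (ev z)) inferInstance h2 hz'
    refine ⟨Fin.cons z Z, fun v hv hj => ?_⟩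
    have h3 := hj 0
    rw [Fin.cons_zero] at h3
    refine hZ v ⟨hv, LinearMap.mem_ker.2 h3⟩ fun j => ?_
    have h4 := hj j.succ
    rwa [Fin.cons_succ] at h4

end InterpAux

open InterpAux in
theorem Interp : S_Interp := by
  intro k K _ _ _ _ N V hN hV hZ
  by_contra hcon
  push Not at hcon
  have hfd : FiniteDimensional K V := by
    refine Module.finite_of_finrank_pos ?_
    omega
  obtain ⟨Z, hZ'⟩ := induct (k := k) N V hfd hV (fun U hU hp => by
    by_contra h
    obtain ⟨u, hu, v, hv, huv⟩ := hcon U hU (Nat.succ_le_of_lt (Nat.lt_of_not_le h))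
    exact huv (hp u hu v hv))
  obtain ⟨v, hv, hv0, hj⟩ := hZ Z
  refine hv0 (hZ' v hv fun j => ?_)
  refine Prod.ext ?_ ?_
  · rw [ev_fst]
    exact (hj j).1
  · rw [ev_snd]
    exact (hj j).2

end Pool.Agent.MP5769ea
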