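import Pool.Agent.Lib.MP_5769ea_ag.Spec1
import Pool.Agent.Lib.MP_5769ea_ag.Spec4

/-!
# MP_5769ea_ag, IrrSp : irreducible curves at the 13 special points
-/

set_option autoImplicit false

open MvPolynomial

namespace Pool.Agent.MP5769ea

namespace IrrSpAux

/-- the exponents of the conditions at one point -/
abbrev Cond : Type := {p : Fin 12 × Fin 12 // p.1.1 + p.2.1 < 12}

theorem card_cond : Fintype.card Cond = 78 := by decide +kernel

/-- the exponent -/
noncomputable def ex (c : Cond) : Fin 2 →₀ ℕ := Finsupp.single 0 c.1.1.1 + Finsupp.single 1 c.1.2.1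

theorem ex_zero (c : Cond) : ex c 0 = c.1.1.1 := by
  simp [ex]

theorem ex_one (c : Cond) : ex c 1 = c.1.2.1 := by
  simp [ex]

theorem exists_ex (r : Fin 2 →₀ ℕ) (h : r 0 + r 1 < 12) : ∃ c : Cond, ex c = r := by
  refine ⟨⟨(⟨r 0, by omega⟩, ⟨r 1, by omega⟩), h⟩, ?_⟩
  ext i
  fin_cases i
  · exact ex_zero _
  · exact ex_one _

theorem mem_OrdGE {K : Type} [Field K] (q : Fin 2 → K) (F : MvPolynomial (Fin 2) K)
    (h : ∀ c : Cond, coeff (ex c) (shift q F) = 0) : F ∈ OrdGE q 12 := by
  unfold OrdGE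
  rw [Submodule.mem_comap, mem_restrictSupport_iff]
  intro r hr
  by_contra hne
  have h1 : r 0 + r 1 < 12 := by
    have h2 : ¬ ((12 : ℤ) ≤ ((r 0 + r 1 : ℕ) : ℤ)) := hne
    omega
  obtain ⟨c, hc⟩ := exists_ex r h1
  have h2 := h c
  rw [hc] at h2
  exact (mem_support_iff.1 (Finset.mem_coe.1 hr)) h2

/-- the linear map of the conditions -/
noncomputable def cnd {K : Type} [Field K] (q : Fin 13 → Fin 2 → K) :
    PD K 51 25 →ₗ[K] (Fin 13 × Cond → K) where
  toFun F r := coeff (ex r.2) (shift (q r.1) (F : MvPolynomial (Fin 2) K))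
  map_add' F G := by
    ext r
    simp
  map_smul' c F := by
    ext r
    simp

theorem exists_G (h4 : S_PDRank) {K : Type} [Field K] (q : Fin 13 → Fin 2 → K) :
    ∃ G : MvPolynomial (Fin 2) K, G ≠ 0 ∧ G ∈ PD K 51 25 ∧ ∀ i, G ∈ OrdGE (q i) 12 := by
  obtain ⟨h41, -, h43, -⟩ := h4 K
  have := h41 51 25
  have h1 := h43 51 25 (by norm_num)
  have h2 : Module.finrank K (PD K 51 25) = 1027 := by
    have h3 : 2 * (Module.finrank K (PD K 51 25) : ℤ) = 2054 := by
      have := h1
      norm_num at this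
      exact_mod_cast this
    omega
  have h3 : Module.finrank K (Fin 13 × Cond → K) = 1014 := by
    rw [Module.finrank_fintype_fun_eq_card, Fintype.card_prod, card_cond, Fintype.card_fin]
  have h5 : LinearMap.ker (cnd q) ≠ ⊥ := by
    apply LinearMap.ker_ne_bot_of_finrank_lt
    rw [h2, h3]
    norm_num
  obtain ⟨G, hG, hG0⟩ := (Submodule.ne_bot_iff _).1 h5
  refine ⟨G, fun h => hG0 (Subtype.ext h), G.2, fun i => mem_OrdGE _ _ fun c => ?_⟩
  exact congrFun (LinearMap.mem_ker.1 hG) (i, c)

theorem sp13_inj {K : Type} [Field K] [CharZero K] (s : Fin 12 → K) (z : Fin 2 → K)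
    (hs : AlgebraicIndependent ℚ (Sum.elim s z)) : Function.Injective (sp13 s z) := by
  have hinj : Function.Injective (Sum.elim s z) := hs.injective
  have hne : ∀ i : Fin 12, sp s i ≠ z := by
    intro i h
    have h0 : s i ^ 2 = z 0 := congrFun h 0
    have h1 : aeval (Sum.elim s z) (X (Sum.inl i) ^ 2 - X (Sum.inr 0) :
        MvPolynomial (Fin 12 ⊕ Fin 2) ℚ) = 0 := by
      simp only [map_sub, map_pow, aeval_X, Sum.elim_inl, Sum.elim_inr]
      rw [h0, sub_self]
    have h2 := (algebraicIndependent_iff.1 hs) _ h1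
    have h3 := congrArg (eval (fun j : Fin 12 ⊕ Fin 2 => if j = Sum.inr 0 then (1 : ℚ) else 0)) h2
    simp at h3
  intro i j h
  induction i using Fin.lastCases with
  | last =>
    induction j using Fin.lastCases with
    | last => rfl
    | cast j =>
      exfalso
      unfold sp13 at h
      rw [Fin.snoc_last, Fin.snoc_castSucc] at h
      exact hne j h.symm
  | cast i =>
    induction j using Fin.lastCases with
    | last =>
      exfalso
      unfold sp13 at h
      rw [Fin.snoc_last, Fin.snoc_castSucc] at h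
      exact hne i h
    | cast j =>
      unfold sp13 at h
      rw [Fin.snoc_castSucc, Fin.snoc_castSucc] at h
      have h0 : s i ^ 2 = s j ^ 2 := congrFun h 0
      have h1 : s i ^ 4 + s i = s j ^ 4 + s j := congrFun h 1
      have h2 : s i = s j := by linear_combination h1 - (s i ^ 2 + s j ^ 2) * h0
      have h3 : (Sum.inl i : Fin 12 ⊕ Fin 2) = Sum.inl j := hinj h2
      rw [Sum.inl_injective h3]

end IrrSpAux

open IrrSpAux in
theorem IrrSp (h1 : S_NefJ) (h2 : S_Strict) (h3 : S_PDBasic) (h4 : S_PDRank)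
    (h6 : S_Bezout) : S_IrrSp := by
  intro K _ _ s z hs C hC b hb
  have hC0 : C ≠ 0 := hC.ne_zero
  obtain ⟨h31, -, h33⟩ := h3 K
  set a := C.totalDegree with ha
  set μ := C.degreeOf 1 with hμ
  have hμa : μ ≤ a := degreeOf_le_totalDegree _ _
  have ha1 : 1 ≤ a := by
    by_contra hcon
    have h0 : C.totalDegree = 0 := by omega
    rw [totalDegree_eq_zero_iff_eq_C] at h0
    apply hC.not_isUnit
    rw [h0]
    apply IsUnit.map
    rw [isUnit_iff_ne_zero]
    intro h
    rw [h, map_zero] at h0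
    exact hC0 h0
  have hCPD : C ∈ PD K a μ := (h31 C a μ hC0).2 ⟨le_rfl, le_rfl⟩
  have hCH : C ∈ HH (sp13 s z) a μ (fun i => (b i : ℤ)) :=
    ⟨hCPD, (Submodule.mem_iInf _).2 hb⟩
  have hnef := h1 K s z hs a μ (fun i => (b i : ℤ)) C hC0 hCH
  have hsum : 12 * ∑ i, (b i : ℤ) ≤ 26 * (a + μ) := by
    have h := Finset.sum_le_sum (fun j (_ : j ∈ Finset.univ) => hnef j)
    rw [Finset.sum_sub_distrib, Finset.sum_const, Finset.sum_const, Finset.card_univ,
      Fintype.card_fin] at h
    simp only [nsmul_eq_mul] at h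
    push_cast at h
    linarith
  obtain ⟨G, hG0, hGPD, hGo⟩ := exists_G h4 (sp13 s z)
  by_cases hdvd : C ∣ G
  · obtain ⟨H, hH⟩ := hdvd
    have hH0 : H ≠ 0 := by
      rintro rfl
      rw [mul_zero] at hH
      exact hG0 hH
    have ha51 : a ≤ 51 := by
      have h7 := (h31 G 51 25 hG0).1 hGPD
      have h8 := (h33 C H hC0 hH0).1
      rw [← hH] at h8
      omega
    have hpos : 1 ≤ 26 * ((a : ℤ) + μ) - 12 * ∑ i, (b i : ℤ) := by
      by_contra hcon
      have hz : 26 * ((a : ℤ) + μ) - 12 * ∑ i, (b i : ℤ) = 0 := by omega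
      have hz2 : ∑ j : Fin 13, (2 * (a : ℤ) + 2 * μ - ((∑ i, (b i : ℤ)) - b j)) = 0 := by
        rw [Finset.sum_sub_distrib, Finset.sum_sub_distrib, Finset.sum_const, Finset.sum_const,
          Finset.card_univ, Fintype.card_fin]
        simp only [nsmul_eq_mul]
        push_cast
        linarith
      have hz3 := (Finset.sum_eq_zero_iff_of_nonneg (fun j _ => by
        have := hnef j
        linarith)).1 hz2
      have hb' : ∀ j, (b j : ℤ) = (∑ i, (b i : ℤ)) - (2 * a + 2 * μ) := by
        intro j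
        have := hz3 j (Finset.mem_univ _)
        linarith
      have hbc : ∀ j, (b j : ℤ) = b 0 := fun j => (hb' j).trans (hb' 0).symm
      have hsb : ∑ i, (b i : ℤ) = 13 * b 0 := by
        rw [Finset.sum_congr rfl (fun j _ => hbc j), Finset.sum_const, Finset.card_univ,
          Fintype.card_fin]
        simp
      have h6g : (a : ℤ) + μ = 6 * b 0 := by
        have := hb' 0
        linarith
      have hg1 : 1 ≤ b 0 := by omega
      have hbot := h2 K s z hs a μ (b 0) hg1 h6g
      have hmem : C ∈ HH (sp13 s z) a μ (fun _ => (b 0 : ℤ)) := by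
        refine ⟨hCPD, (Submodule.mem_iInf _).2 fun i => ?_⟩
        have := hb i
        rw [hbc i] at this
        exact this
      rw [hbot] at hmem
      exact hC0 ((Submodule.mem_bot K).1 hmem)
    have : (a : ℤ) ≤ 51 := by exact_mod_cast ha51
    linarith
  · have hrel : IsRelPrime C G := hC.isRelPrime_iff_not_dvd.2 hdvd
    have hbz := h6 K 13 (sp13 s z) (sp13_inj s z hs) a μ 51 25 hμa (by norm_num) C G hCPD hGPD
      hrel b (fun _ => 12) (fun _ => 0) (fun i => by
        rw [zero_mul, sub_zero]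
        exact hb i) (fun i => hGo i)
    rw [← Finset.sum_mul] at hbz
    push_cast at hbz
    have : (1 : ℤ) ≤ a := by exact_mod_cast ha1
    linarith

end Pool.Agent.MP5769ea
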