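import Pool.Agent.Lib.MP_5769ea_ag.Spec4

/-!
# MP_5769ea_ag: Lift, forms on `P^9` as polynomials in `x_0, ..., x_11`
-/

open MvPolynomial

namespace Pool.Agent.MP5769ea

namespace LiftAux

theorem multGE_iff {ι : Type} (F : MvPolynomial ι ℂ) (p : ι → ℂ) (k : ℕ) :
    MultGE F p k ↔ bind₁ (fun i => X i + C (p i)) F ∈ idealOfVars ι ℂ ^ k := by
  classical
  rw [mem_pow_idealOfVars_iff']
  unfold MultGE
  constructor
  · intro h x hx
    have h1 := h x.degree (by exact_mod_cast hx)
    have h2 := congrArg (coeff x) h1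
    rw [coeff_homogeneousComponent, if_pos rfl, coeff_zero] at h2
    exact h2
  · intro h j hj
    ext x
    rw [coeff_homogeneousComponent, coeff_zero]
    split_ifs with h1
    · apply h
      have : j < k := by exact_mod_cast hj
      omega
    · rfl

theorem multGE_toNat {ι : Type} (F : MvPolynomial ι ℂ) (p : ι → ℂ) (k : ℤ)
    (h : MultGE F p k) : MultGE F p (k.toNat : ℤ) := by
  intro j hj
  apply h
  omega

theorem aeval_mul_of_hom {σ R : Type} [CommRing R] [Algebra ℂ R] {G : MvPolynomial σ ℂ} {d : ℕ}
    (hG : G.IsHomogeneous d) (a : R) (x : σ → R) :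
    aeval (fun i => a * x i) G = a ^ d * aeval x G := by
  rw [aeval_def, aeval_def, eval₂_eq, eval₂_eq, Finset.mul_sum]
  apply Finset.sum_congr rfl
  intro s hs
  have h1 : ∏ i ∈ s.support, (a * x i) ^ s i = a ^ d * ∏ i ∈ s.support, x i ^ s i := by
    simp only [mul_pow]
    rw [Finset.prod_mul_distrib, Finset.prod_pow_eq_pow_sum, ← hG.degree_eq_sum_deg_support hs]
  rw [h1]
  ring

theorem aeval_mem_pow {σ R : Type} [CommRing R] [Algebra ℂ R] {H : MvPolynomial σ ℂ} {k : ℕ}
    (hH : H ∈ idealOfVars σ ℂ ^ k) (f : σ → R) (I : Ideal R) (hf : ∀ j, f j ∈ I) :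
    aeval f H ∈ I ^ k := by
  have h1 : Ideal.map (aeval f : MvPolynomial σ ℂ →ₐ[ℂ] R) (idealOfVars σ ℂ ^ k) ≤ I ^ k := by
    rw [Ideal.map_pow]
    apply Ideal.pow_right_mono
    unfold idealOfVars
    rw [Ideal.map_span, Ideal.span_le]
    rintro _ ⟨_, ⟨j, rfl⟩, rfl⟩
    simpa using hf j
  exact h1 (Ideal.mem_map_of_mem _ hH)

/-- Taylor expansion at `p` -/
theorem aeval_taylor {σ R : Type} [CommRing R] [Algebra ℂ R] (G : MvPolynomial σ ℂ) (p : σ → ℂ)
    (f : σ → R) :
    aeval (fun j => f j + algebraMap ℂ R (p j)) G =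
      aeval f (bind₁ (fun i => X i + C (p i)) G) := by
  rw [aeval_bind₁]
  congr 1
  apply MvPolynomial.algHom_ext
  intro i
  simp

/-- setting `X_i = a` in a homogeneous polynomial -/
theorem coeff_subst {F : MvPolynomial (Fin 12) ℂ} {d : ℕ} (hF : F.IsHomogeneous d) (i : Fin 12)
    (a : ℂ) (s₀ : Fin 12 →₀ ℕ) (hs₀ : s₀ ∈ F.support) :
    coeff (s₀.erase i) (aeval (fun l => if l = i then (C a : MvPolynomial (Fin 12) ℂ) else X l) F) =
      coeff s₀ F * a ^ s₀ i := by
  classical
  have hdeg : ∀ s : Fin 12 →₀ ℕ, s.degree = s i + (s.erase i).degree := by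
    intro s
    conv_lhs => rw [← Finsupp.single_add_erase i s]
    rw [map_add, Finsupp.degree_single]
  have hmon : ∀ s : Fin 12 →₀ ℕ, ∏ l ∈ s.support,
      (if l = i then (C a : MvPolynomial (Fin 12) ℂ) else X l) ^ s l =
      monomial (s.erase i) (a ^ s i) := by
    intro s
    have h1 : ∏ l ∈ s.support, (if l = i then (C a : MvPolynomial (Fin 12) ℂ) else X l) ^ s l =
        ∏ l, (if l = i then (C a : MvPolynomial (Fin 12) ℂ) else X l) ^ s l := by
      apply Finset.prod_subset (Finset.subset_univ _)
      intro l _ hl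
      rw [Finsupp.notMem_support_iff.mp hl, pow_zero]
    rw [h1, ← Finset.mul_prod_erase _ _ (Finset.mem_univ i), if_pos rfl]
    have h2 : ∏ l ∈ Finset.univ.erase i,
        (if l = i then (C a : MvPolynomial (Fin 12) ℂ) else X l) ^ s l =
        ∏ l, (X l : MvPolynomial (Fin 12) ℂ) ^ (s.erase i) l := by
      rw [← Finset.mul_prod_erase Finset.univ _ (Finset.mem_univ i)]
      rw [Finsupp.erase_same, pow_zero, one_mul]
      apply Finset.prod_congr rfl
      intro l hl
      have hl' := (Finset.mem_erase.mp hl).1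
      rw [if_neg hl', Finsupp.erase_ne hl']
    rw [h2, monomial_eq, Finsupp.prod_fintype _ _ (fun _ => pow_zero _), C_pow]
  rw [aeval_def, eval₂_eq, coeff_sum]
  simp only [hmon]
  rw [Finset.sum_eq_single s₀]
  · rw [MvPolynomial.algebraMap_eq, coeff_C_mul, coeff_monomial, if_pos rfl]
  · intro s hs hne
    rw [MvPolynomial.algebraMap_eq, coeff_C_mul, coeff_monomial, if_neg, mul_zero]
    intro he
    apply hne
    have hd1 : s.degree = d := by
      have := hF.degree_eq_sum_deg_support hs
      rw [this]; rfl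
    have hd2 : s₀.degree = d := by
      have := hF.degree_eq_sum_deg_support hs₀
      rw [this]; rfl
    have h1 := hdeg s
    have h2 := hdeg s₀
    rw [he] at h1
    have h3 : s i = s₀ i := by omega
    rw [← Finsupp.single_add_erase i s, ← Finsupp.single_add_erase i s₀, he, h3]
  · intro h
    exact absurd hs₀ h

end LiftAux

open LiftAux

theorem Lift : S_Lift := by
  classical
  intro P c t y hD d m G hG
  obtain ⟨hGh, hGm⟩ := hG
  let L : Fin (9 + 1) → MvPolynomial (Fin 12) ℂ := fun j => ∑ i : Fin 12, X i * C (c i.succ * P i.succ j)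
  let F : MvPolynomial (Fin 12) ℂ := bind₁ L G
  have hev : ∀ (R : Type) [CommRing R] [Algebra ℂ R] (x : Fin 12 → R),
      aeval x F = aeval (piMap P c x) G := by
    intro R _ _ x
    simp only [F]
    rw [aeval_bind₁]
    congr 1
    apply MvPolynomial.algHom_ext
    intro j
    simp [L, piMap]
  have hhom : F.IsHomogeneous d := by
    have h1 : (aeval L G).IsHomogeneous (1 * d) := by
      apply hGh.aeval
      intro j
      apply IsHomogeneous.sum
      intro i _
      rw [mul_comm]
      exact isHomogeneous_C_mul_X _ _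
    rw [one_mul] at h1
    exact h1
  refine ⟨F, ⟨hhom, ?_, ?_, ?_⟩, hev⟩
  · -- invariance
    intro R _ _ x a b
    rw [hev, hev]
    congr 2
    funext j
    have h1 := congrFun hD.rel1 j
    have h2 := congrFun hD.rel2 j
    simp only [Finset.sum_apply, Pi.smul_apply, smul_eq_mul, Pi.zero_apply] at h1 h2
    have h3 := congrArg (algebraMap ℂ R) h1
    have h4 := congrArg (algebraMap ℂ R) h2
    rw [map_sum, map_zero] at h3 h4
    unfold piMap
    have e : ∀ i : Fin 12, (x i + a + b * algebraMap ℂ R (t i)) *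
        algebraMap ℂ R (c i.succ * P i.succ j) =
        x i * algebraMap ℂ R (c i.succ * P i.succ j) +
        (a * algebraMap ℂ R (c i.succ * P i.succ j) +
          b * algebraMap ℂ R (t i * c i.succ * P i.succ j)) := by
      intro i
      simp only [map_mul]
      ring
    rw [Finset.sum_congr rfl (fun i _ => e i), Finset.sum_add_distrib, Finset.sum_add_distrib,
      ← Finset.mul_sum, ← Finset.mul_sum, h3, h4]
    ring
  · -- degrees
    intro i s hs
    set k := (m i.succ).toNat with hk
    have hc : c i.succ ≠ 0 := hD.c_ne _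
    have hmul : bind₁ (fun l => X l + C (P i.succ l)) G ∈ idealOfVars (Fin (9 + 1)) ℂ ^ k := by
      rw [← multGE_iff]
      exact multGE_toNat _ _ _ (hGm i.succ)
    have hψ : aeval (fun l => if l = i then (C (c i.succ)⁻¹ : MvPolynomial (Fin 12) ℂ) else X l) F ∈
        idealOfVars (Fin 12) ℂ ^ k := by
      rw [hev]
      have h1 : piMap P c (fun l => if l = i then (C (c i.succ)⁻¹ : MvPolynomial (Fin 12) ℂ)
          else X l) = fun j => (∑ l ∈ Finset.univ.erase i,
            X l * C (c l.succ * P l.succ j)) +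
            algebraMap ℂ (MvPolynomial (Fin 12) ℂ) (P i.succ j) := by
        funext j
        unfold piMap
        rw [← Finset.add_sum_erase _ _ (Finset.mem_univ i), add_comm]
        congr 1
        · apply Finset.sum_congr rfl
          intro l hl
          simp only [if_neg (Finset.mem_erase.mp hl).1, MvPolynomial.algebraMap_eq]
        · simp only [if_true, MvPolynomial.algebraMap_eq]
          rw [← C_mul]
          congr 1
          field_simp
      rw [h1, aeval_taylor]
      apply aeval_mem_pow hmul
      intro j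
      refine Ideal.sum_mem _ fun l _ => Ideal.mul_mem_right _ _ ?_
      exact Ideal.subset_span ⟨l, rfl⟩
    rw [mem_pow_idealOfVars_iff'] at hψ
    by_contra hlt
    push Not at hlt
    have hdeg : s.degree = s i + (s.erase i).degree := by
      conv_lhs => rw [← Finsupp.single_add_erase i s]
      rw [map_add, Finsupp.degree_single]
    have hd1 : s.degree = d := by
      have := hhom.degree_eq_sum_deg_support hs
      rw [this]; rfl
    have h2 := hψ (s.erase i) (by omega)
    rw [coeff_subst hhom i _ s hs] at h2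
    rcases mul_eq_zero.mp h2 with h3 | h3
    · exact (mem_support_iff.mp hs) h3
    · exact (pow_ne_zero _ (inv_ne_zero hc)) h3
  · -- multiplicity at `y`
    rw [multGE_iff, ← aeval_eq_bind₁, hev]
    have hc : c 0 ≠ 0 := hD.c_ne _
    have hmul : bind₁ (fun l => X l + C (P 0 l)) G ∈
        idealOfVars (Fin (9 + 1)) ℂ ^ (m 0).toNat := by
      rw [← multGE_iff]
      exact multGE_toNat _ _ _ (hGm 0)
    have h1 : piMap P c (fun i => (X i + C (y i) : MvPolynomial (Fin 12) ℂ)) =
        fun j => C (-c 0) * (C (-(c 0)⁻¹) * L j +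
          algebraMap ℂ (MvPolynomial (Fin 12) ℂ) (P 0 j)) := by
      funext j
      have h2 := congrFun hD.rel3 j
      simp only [Finset.sum_apply, Pi.add_apply, Pi.smul_apply, smul_eq_mul, Pi.zero_apply] at h2
      have h3 : ∑ i : Fin 12, C (y i * c i.succ * P i.succ j) =
          (C (-(c 0 * P 0 j)) : MvPolynomial (Fin 12) ℂ) := by
        rw [← map_sum]
        congr 1
        linear_combination h2
      have h4 : piMap P c (fun i => (X i + C (y i) : MvPolynomial (Fin 12) ℂ)) j =
          L j + ∑ i : Fin 12, C (y i * c i.succ * P i.succ j) := by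
        simp only [piMap, L]
        rw [← Finset.sum_add_distrib]
        apply Finset.sum_congr rfl
        intro i _
        rw [MvPolynomial.algebraMap_eq]
        simp only [C_mul]
        ring
      rw [h4, h3, MvPolynomial.algebraMap_eq, mul_add, ← mul_assoc, ← C_mul, ← C_mul]
      have h5 : -c 0 * -(c 0)⁻¹ = 1 := by field_simp
      rw [h5, C_1, one_mul]
      congr 2
      ring
    rw [h1, aeval_mul_of_hom hGh, aeval_taylor]
    apply Ideal.mul_mem_left
    apply aeval_mem_pow hmul
    intro j
    refine Ideal.mul_mem_left _ _ (Ideal.sum_mem _ fun l _ => Ideal.mul_mem_right _ _ ?_)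
    exact Ideal.subset_span ⟨l, rfl⟩

end Pool.Agent.MP5769ea
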