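import Pool.Agent.Lib.MP_5769ea_ag.Spec3

/-!
# MP_5769ea_ag, module LocIneq: the local inequality for a section
-/

set_option autoImplicit false

open MvPolynomial

namespace Pool.Agent.MP5769ea

namespace LocIneqAux

theorem degree_eq {σ : Type} [Fintype σ] {F : MvPolynomial σ ℂ} {d : ℕ} (hF : F.IsHomogeneous d)
    {s : σ →₀ ℕ} (hs : s ∈ F.support) : ∑ i, s i = d := by
  rw [hF.degree_eq_sum_deg_support hs]
  symm
  apply Finset.sum_subset (Finset.subset_univ _)
  intro i _ hi
  exact Finsupp.notMem_support_iff.1 hi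

theorem aeval_exp {σ A : Type} [Fintype σ] [CommRing A] [Algebra ℂ A] (F : MvPolynomial σ ℂ)
    (x : σ → A) : aeval x F = ∑ s ∈ F.support, algebraMap ℂ A (coeff s F) * ∏ i, x i ^ s i := by
  rw [aeval_def, eval₂_eq']

/-- `F (u x) = u^d F(x)` -/
theorem homog_smul {σ K : Type} [Fintype σ] [Field K] [Algebra ℂ K] {F : MvPolynomial σ ℂ} {d : ℕ}
    (hF : F.IsHomogeneous d) (u : K) (x : σ → K) :
    aeval (fun i => u * x i) F = u ^ d * aeval x F := by
  rw [aeval_exp, aeval_exp, Finset.mul_sum]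
  refine Finset.sum_congr rfl fun s hs => ?_
  rw [← degree_eq hF hs, ← Finset.prod_pow_eq_pow_sum]
  have : ∏ i, (u * x i) ^ s i = (∏ i, u ^ s i) * ∏ i, x i ^ s i := by
    rw [← Finset.prod_mul_distrib]
    exact Finset.prod_congr rfl fun i _ => mul_pow _ _ _
  rw [this]
  ring

theorem deg_bind {σ : Type} [Fintype σ] {F : MvPolynomial σ ℂ} {d : ℕ} (hF : F.IsHomogeneous d)
    (p : σ → ℂ) : (bind₁ (fun i => X i + C (p i)) F).totalDegree ≤ d := by
  rw [← aeval_eq_bind₁, aeval_exp]
  apply totalDegree_finsetSum_le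
  intro s hs
  refine (totalDegree_mul _ _).trans ?_
  have h1 : (algebraMap ℂ (MvPolynomial σ ℂ) (coeff s F)).totalDegree = 0 := by
    rw [MvPolynomial.algebraMap_eq]
    exact totalDegree_C _
  rw [h1, zero_add, ← degree_eq hF hs]
  refine (totalDegree_finsetProd _ _).trans ?_
  refine Finset.sum_le_sum fun i _ => ?_
  refine (totalDegree_pow _ _).trans ?_
  have h2 : (X i + C (p i) : MvPolynomial σ ℂ).totalDegree ≤ 1 := by
    refine (totalDegree_add _ _).trans ?_
    rw [totalDegree_X, totalDegree_C]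
    norm_num
  calc s i * (X i + C (p i) : MvPolynomial σ ℂ).totalDegree ≤ s i * 1 := Nat.mul_le_mul_left _ h2
    _ = s i := mul_one _

section val

variable {K : Type} [Field K] [Algebra ℂ K] {v : Valuation K (WithZero (Multiplicative ℤ))}

theorem val_c (hv : ∀ c : ℂ, v (algebraMap ℂ K c) ≤ 1) {c : ℂ} (hc : c ≠ 0) :
    v (algebraMap ℂ K c) = 1 := by
  apply le_antisymm (hv c)
  by_contra h
  push Not at h
  have h1 := hv c⁻¹
  have h2 : v (algebraMap ℂ K c) * v (algebraMap ℂ K c⁻¹) = 1 := by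
    rw [← map_mul, ← map_mul, mul_inv_cancel₀ hc, map_one, map_one]
  have h3 : v (algebraMap ℂ K c) * v (algebraMap ℂ K c⁻¹) ≤ v (algebraMap ℂ K c) * 1 :=
    mul_le_mul_right h1 _
  rw [h2, mul_one] at h3
  exact absurd h (not_lt.2 h3)

/-- bound for homogeneous polynomials -/
theorem homog_bound (hv : ∀ c : ℂ, v (algebraMap ℂ K c) ≤ 1) {σ : Type} [Fintype σ]
    {F : MvPolynomial σ ℂ} {d : ℕ} (hF : F.IsHomogeneous d) (w : σ → K)
    {g : WithZero (Multiplicative ℤ)} (hw : ∀ j, v (w j) ≤ g) : v (aeval w F) ≤ g ^ d := by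
  rw [aeval_exp]
  apply v.map_sum_le
  intro s hs
  rw [map_mul, map_prod, ← degree_eq hF hs, ← Finset.prod_pow_eq_pow_sum]
  have h1 : ∏ i, v (w i ^ s i) ≤ ∏ i, g ^ s i := by
    apply Finset.prod_le_prod'
    intro i _
    rw [map_pow]
    exact pow_le_pow_left' (hw i) _
  calc v (algebraMap ℂ K (coeff s F)) * ∏ i, v (w i ^ s i) ≤ 1 * ∏ i, g ^ s i :=
        mul_le_mul' (hv _) h1
    _ = ∏ i, g ^ s i := one_mul _

/-- the maximum norm -/
noncomputable def NN (v : Valuation K (WithZero (Multiplicative ℤ))) {ι : Type} [Fintype ι]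
    (w : ι → K) : WithZero (Multiplicative ℤ) := Finset.univ.sup fun j => v (w j)

omit [Algebra ℂ K] in
theorem le_NN {ι : Type} [Fintype ι] (w : ι → K) (j : ι) : v (w j) ≤ NN v w :=
  Finset.le_sup (f := fun j => v (w j)) (Finset.mem_univ j)

omit [Algebra ℂ K] in
theorem NN_le {ι : Type} [Fintype ι] (w : ι → K) {g : WithZero (Multiplicative ℤ)}
    (h : ∀ j, v (w j) ≤ g) : NN v w ≤ g := Finset.sup_le fun j _ => h j

omit [Algebra ℂ K] in
theorem NN_ne_zero {ι : Type} [Fintype ι] {w : ι → K} (h : w ≠ 0) : NN v w ≠ 0 := by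
  intro h0
  apply h
  funext j
  have h1 := le_NN (v := v) w j
  rw [h0] at h1
  exact (v.zero_iff).1 (le_antisymm h1 zero_le)

theorem wedge_le (hv : ∀ c : ℂ, v (algebraMap ℂ K c) ≤ 1) {n : ℕ} (w : Fin (n + 1) → K)
    (p : Fin (n + 1) → ℂ) : NN v (wedge w p) ≤ NN v w := by
  apply NN_le
  rintro ⟨j, k⟩
  unfold wedge
  refine (v.map_sub _ _).trans (max_le ?_ ?_)
  · rw [map_mul]
    calc v (w j) * v (algebraMap ℂ K (p k)) ≤ NN v w * 1 := mul_le_mul' (le_NN w j) (hv _)
      _ = NN v w := mul_one _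
  · rw [map_mul]
    calc v (w k) * v (algebraMap ℂ K (p j)) ≤ NN v w * 1 := mul_le_mul' (le_NN w k) (hv _)
      _ = NN v w := mul_one _

/-- one index at most -/
theorem unique_small (hv : ∀ c : ℂ, v (algebraMap ℂ K c) ≤ 1) {n : ℕ} (w : Fin (n + 1) → K)
    (p p' : Fin (n + 1) → ℂ) (hp : p ≠ 0) (hp' : p' ≠ 0)
    (hpp : ∃ k l, p k * p' l - p l * p' k ≠ 0) (h : NN v (wedge w p) < NN v w)
    (h' : NN v (wedge w p') < NN v w) : False := by
  obtain ⟨j0, -, hj0⟩ := Finset.exists_mem_eq_sup (Finset.univ : Finset (Fin (n + 1)))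
    ⟨0, Finset.mem_univ _⟩ (fun j => v (w j))
  have hj : NN v w = v (w j0) := hj0
  -- the coordinate `j0` of both points is not zero
  have key : ∀ r : Fin (n + 1) → ℂ, r ≠ 0 → NN v (wedge w r) < NN v w → r j0 ≠ 0 := by
    intro r hr hlt h0
    obtain ⟨k, hk⟩ : ∃ k, r k ≠ 0 := by
      by_contra hc
      push Not at hc
      exact hr (funext hc)
    have h1 := le_NN (v := v) (wedge w r) (j0, k)
    unfold wedge at h1
    simp only [h0, map_zero, mul_zero, sub_zero, map_mul, val_c hv hk, mul_one] at h1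
    rw [← hj] at h1
    exact absurd hlt (not_lt.2 h1)
  have h1 := key p hp h
  have h2 := key p' hp' h'
  have h3 : ∀ r : Fin (n + 1) → ℂ, r j0 ≠ 0 → NN v (wedge w r) < NN v w → ∀ k,
      v (w k - w j0 * algebraMap ℂ K (r k / r j0)) < NN v w := by
    intro r hr hlt k
    have h4 := (le_NN (v := v) (wedge w r) (k, j0)).trans_lt hlt
    unfold wedge at h4
    simp only at h4
    have h5 : w k - w j0 * algebraMap ℂ K (r k / r j0) =
        (w k * algebraMap ℂ K (r j0) - w j0 * algebraMap ℂ K (r k)) *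
          algebraMap ℂ K (r j0)⁻¹ := by
      have h6 : algebraMap ℂ K (r j0) * algebraMap ℂ K (r j0)⁻¹ = 1 := by
        rw [← map_mul, mul_inv_cancel₀ hr, map_one]
      rw [div_eq_mul_inv, map_mul]
      linear_combination (-w k) * h6
    rw [h5, map_mul, val_c hv (inv_ne_zero hr), mul_one]
    exact h4
  have h4 : ∀ k, p k / p j0 = p' k / p' j0 := by
    intro k
    by_contra hne
    have h5 := h3 p h1 h k
    have h6 := h3 p' h2 h' k
    have h7 : w j0 * algebraMap ℂ K (p k / p j0 - p' k / p' j0) =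
        (w k - w j0 * algebraMap ℂ K (p' k / p' j0)) -
          (w k - w j0 * algebraMap ℂ K (p k / p j0)) := by
      rw [map_sub]
      ring
    have h8 : v (w j0 * algebraMap ℂ K (p k / p j0 - p' k / p' j0)) < NN v w := by
      rw [h7]
      exact (v.map_sub _ _).trans_lt (max_lt h6 h5)
    rw [map_mul, val_c hv (sub_ne_zero.2 hne), mul_one, ← hj] at h8
    exact lt_irrefl _ h8
  obtain ⟨k, l, hkl⟩ := hpp
  apply hkl
  have hk := h4 k
  have hl := h4 l
  rw [div_eq_div_iff h1 h2] at hk hl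
  have h5 : (p k * p' l - p l * p' k) * (p j0 * p' j0) = 0 := by
    linear_combination (p' l * p j0) * hk - (p' k * p j0) * hl
  rcases mul_eq_zero.1 h5 with h6 | h6
  · exact h6
  · rcases mul_eq_zero.1 h6 with h7 | h7
    · exact absurd h7 h1
    · exact absurd h7 h2

/-- the Taylor estimate -/
theorem taylor_bound (hv : ∀ c : ℂ, v (algebraMap ℂ K c) ≤ 1) {n : ℕ}
    {F : MvPolynomial (Fin (n + 1)) ℂ} {d m : ℕ} (hF : F.IsHomogeneous d)
    (p : Fin (n + 1) → ℂ) (hp : p ≠ 0) (hm : MultGE F p m) (w : Fin (n + 1) → K)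
    (hW : NN v w ≠ 0) :
    v (aeval w F) * NN v w ^ m ≤ NN v w ^ d * NN v (wedge w p) ^ m := by
  obtain ⟨k, hk⟩ : ∃ k, p k ≠ 0 := by
    by_contra hc
    push Not at hc
    exact hp (funext hc)
  obtain ⟨u, hu⟩ : ∃ u : K, u = w k * algebraMap ℂ K (p k)⁻¹ := ⟨_, rfl⟩
  obtain ⟨w', hw'⟩ : ∃ w' : Fin (n + 1) → K, w' = fun j => w j - u * algebraMap ℂ K (p j) :=
    ⟨_, rfl⟩
  have hkk : algebraMap ℂ K (p k) * algebraMap ℂ K (p k)⁻¹ = 1 := by
    rw [← map_mul, mul_inv_cancel₀ hk, map_one]
  have hvu : v u ≤ NN v w := by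
    rw [hu, map_mul, val_c hv (inv_ne_zero hk), mul_one]
    exact le_NN w k
  have hvw : ∀ j, v (w' j) ≤ NN v (wedge w p) := by
    intro j
    have h1 : w' j = (w j * algebraMap ℂ K (p k) - w k * algebraMap ℂ K (p j)) *
        algebraMap ℂ K (p k)⁻¹ := by
      rw [hw', hu]
      linear_combination (-w j) * hkk
    rw [h1, map_mul, val_c hv (inv_ne_zero hk), mul_one]
    exact le_NN (v := v) (wedge w p) (j, k)
  have hle := wedge_le hv w p
  by_cases hu0 : u = 0
  · have h1 : NN v w ≤ NN v (wedge w p) := by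
      apply NN_le
      intro j
      have h2 : w j = w' j := by
        rw [hw', hu0]
        simp
      rw [h2]
      exact hvw j
    exact mul_le_mul' (homog_bound hv hF w (le_NN w)) (pow_le_pow_left' h1 _)
  -- expansion
  obtain ⟨G, hG⟩ : ∃ G, G = bind₁ (fun i => X i + C (p i)) F := ⟨_, rfl⟩
  have hdeg : G.totalDegree ≤ d := by
    rw [hG]
    exact deg_bind hF p
  have h1 : aeval w F = u ^ d * aeval (fun i => u⁻¹ * w' i) G := by
    have h2 : w = fun i => u * (u⁻¹ * w' i + algebraMap ℂ K (p i)) := by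
      funext i
      rw [mul_add, ← mul_assoc, mul_inv_cancel₀ hu0, one_mul, hw']
      ring
    rw [hG, aeval_bind₁]
    conv_lhs => rw [h2]
    rw [homog_smul hF]
    have h3 : (fun i => u⁻¹ * w' i + algebraMap ℂ K (p i)) =
        fun i => aeval (fun i => u⁻¹ * w' i) (X i + C (p i)) := by
      funext i
      rw [map_add, aeval_X, aeval_C]
    rw [h3]
  have h2 : aeval w F = ∑ j ∈ Finset.range (G.totalDegree + 1),
      u ^ d * (u⁻¹ ^ j * aeval w' (homogeneousComponent j G)) := by
    rw [h1]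
    conv_lhs => rw [← sum_homogeneousComponent G]
    rw [map_sum, Finset.mul_sum]
    refine Finset.sum_congr rfl fun j _ => ?_
    rw [homog_smul (homogeneousComponent_isHomogeneous j G)]
  have hWpos : 0 < NN v w ^ m := pow_pos (zero_lt_iff.2 hW) m
  rw [← le_div_iff₀ hWpos, h2]
  apply v.map_sum_le
  intro j hj
  rw [le_div_iff₀ hWpos]
  have hjd : j ≤ d := by
    have := Finset.mem_range.1 hj
    omega
  by_cases hjm : j < m
  · have h3 : homogeneousComponent j G = 0 := by
      rw [hG]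
      exact hm j (by exact_mod_cast hjm)
    rw [h3]
    simp
  · push Not at hjm
    have h3 : u ^ d * (u⁻¹ ^ j * aeval w' (homogeneousComponent j G)) =
        u ^ (d - j) * aeval w' (homogeneousComponent j G) := by
      have h4 : u ^ d = u ^ (d - j) * u ^ j := by
        rw [← pow_add]
        congr 1
        omega
      rw [h4]
      have h5 : u ^ j * u⁻¹ ^ j = 1 := by
        rw [← mul_pow, mul_inv_cancel₀ hu0, one_pow]
      linear_combination (u ^ (d - j) * aeval w' (homogeneousComponent j G)) * h5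
    rw [h3, map_mul, map_pow]
    have h4 : v (aeval w' (homogeneousComponent j G)) ≤ NN v (wedge w p) ^ j :=
      homog_bound hv (homogeneousComponent_isHomogeneous j G) w' hvw
    calc v u ^ (d - j) * v (aeval w' (homogeneousComponent j G)) * NN v w ^ m ≤
          NN v w ^ (d - j) * NN v (wedge w p) ^ j * NN v w ^ m :=
          mul_le_mul' (mul_le_mul' (pow_le_pow_left' hvu _) h4) le_rfl
      _ = NN v w ^ (d - j) * NN v (wedge w p) ^ (j - m) * (NN v (wedge w p) ^ m * NN v w ^ m) := by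
          have h5 : NN v (wedge w p) ^ j = NN v (wedge w p) ^ (j - m) * NN v (wedge w p) ^ m := by
            rw [← pow_add]
            congr 1
            omega
          rw [h5]
          ac_rfl
      _ ≤ NN v w ^ (d - j) * NN v w ^ (j - m) * (NN v (wedge w p) ^ m * NN v w ^ m) :=
          mul_le_mul' (mul_le_mul' le_rfl (pow_le_pow_left' hle _)) le_rfl
      _ = NN v w ^ d * NN v (wedge w p) ^ m := by
          have h5 : NN v w ^ d = NN v w ^ (d - j) * NN v w ^ (j - m) * NN v w ^ m := by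
            rw [← pow_add, ← pow_add]
            congr 1
            omega
          rw [h5]
          ac_rfl

end val

end LocIneqAux

open LocIneqAux in
theorem LocIneq : S_LocIneq := by
  intro s n P hPP hP K _ _ v _ hv d m F hF w hw hFw
  have hvF : v (aeval w F) ≠ 0 := (v.ne_zero_iff).2 hFw
  have hn : ∀ {ι : Type} [Fintype ι] (z : ι → K), nrm v z = WithZero.log (NN v z) :=
    fun z => rfl
  have hbase : WithZero.log (v (aeval w F)) ≤ d * nrm v w := by
    have h1 := homog_bound hv hF.1 w (le_NN (v := v) w)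
    have h2 : NN v w ^ d ≠ 0 := fun h => hvF (le_antisymm (h ▸ h1) zero_le)
    have h3 := (WithZero.log_le_log hvF h2).2 h1
    rw [WithZero.log_pow] at h3
    rw [hn]
    simpa using h3
  by_cases hex : ∃ i, NN v (wedge w (P i)) < NN v w
  · obtain ⟨i, hi⟩ := hex
    have hsum : ∑ i, m i * (nrm v w - nrm v (wedge w (P i))) =
        m i * (nrm v w - nrm v (wedge w (P i))) := by
      apply Finset.sum_eq_single
      · intro j _ hji
        have h1 : NN v (wedge w (P j)) = NN v w := by
          apply le_antisymm (wedge_le hv w (P j))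
          by_contra hc
          push Not at hc
          exact unique_small hv w (P i) (P j) (hP i) (hP j) (hPP i j hji.symm) hi hc
        rw [hn, hn, h1, sub_self, mul_zero]
      · intro h
        exact absurd (Finset.mem_univ i) h
    rw [hsum]
    have hW : NN v w ≠ 0 := fun h => by
      rw [h] at hi
      exact absurd hi (not_lt.2 zero_le)
    have hWi : NN v (wedge w (P i)) ≠ 0 := NN_ne_zero (hw i)
    rcases le_or_gt (m i) 0 with hm | hm
    · have h1 : nrm v (wedge w (P i)) ≤ nrm v w := by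
        rw [hn, hn]
        exact (WithZero.log_le_log hWi hW).2 hi.le
      have h2 : m i * (nrm v w - nrm v (wedge w (P i))) ≤ 0 :=
        mul_nonpos_of_nonpos_of_nonneg hm (by linarith)
      linarith
    · obtain ⟨k, hk⟩ : ∃ k : ℕ, m i = k := ⟨(m i).toNat, by omega⟩
      have h1 := taylor_bound hv hF.1 (P i) (hP i) (by rw [← hk]; exact hF.2 i) w hW
      have h2 : v (aeval w F) * NN v w ^ k ≠ 0 := mul_ne_zero hvF (pow_ne_zero _ hW)
      have h3 : NN v w ^ d * NN v (wedge w (P i)) ^ k ≠ 0 :=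
        mul_ne_zero (pow_ne_zero _ hW) (pow_ne_zero _ hWi)
      have h4 := (WithZero.log_le_log h2 h3).2 h1
      rw [WithZero.log_mul hvF (pow_ne_zero _ hW),
        WithZero.log_mul (pow_ne_zero _ hW) (pow_ne_zero _ hWi), WithZero.log_pow,
        WithZero.log_pow, WithZero.log_pow] at h4
      simp only [nsmul_eq_mul] at h4
      rw [hk, hn, hn]
      linarith
  · push Not at hex
    have hsum : ∑ i, m i * (nrm v w - nrm v (wedge w (P i))) = 0 := by
      apply Finset.sum_eq_zero
      intro j _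
      have h1 : NN v (wedge w (P j)) = NN v w := le_antisymm (wedge_le hv w (P j)) (hex j)
      rw [hn, hn, h1, sub_self, mul_zero]
    rw [hsum, sub_zero]
    exact hbase

end Pool.Agent.MP5769ea
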