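import Pool.Agent.Lib.MP_5769ea_ag.Spec4

/-!
# MP_5769ea_ag, module `MultV`: multiplicity along the threefold swept out by the curves

Put `b_k = t_k - θ`, `D_k = y_k - η - σ₀ b_k`, `A_k = b_k - ε Y_k`,
`den_k = D_k - ρ A_k`, `N_k = ε Y_k D_k - ρ b_k A_k` and
`Φ = Σ_n c_n Π_k N_k^{n_k} den_k^{d-m_k-n_k} ∈ K[ε][ρ]`.
(1) `Φ` has degree `≤ Σ (d-m_k) - d - m₁` in `ρ`: expansion at `ρ = ∞`.
(2) The part of lowest degree `d` of `Φ` in `(ρ, ε)` is `Π D_k^{d-m_k} F(ε Y - ρ x⁰)`.
-/

set_option autoImplicit false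
set_option linter.unusedSectionVars false

open MvPolynomial

namespace Pool.Agent.MP5769ea

namespace MultVAux

/-- the value of a form of degree `d` with denominators cleared -/
noncomputable def Psi (F : MvPolynomial (Fin 12) ℂ) (d : ℕ) (m : Fin 12 → ℕ) {R : Type}
    [CommRing R] [Algebra ℂ R] (ν δ : Fin 12 → R) : R :=
  ∑ n ∈ F.support, algebraMap ℂ R (F.coeff n) * ∏ k, (ν k ^ n k * δ k ^ (d - m k - n k))

variable {F : MvPolynomial (Fin 12) ℂ} {d : ℕ} {m : Fin 12 → ℕ}

theorem Psi_map {R R' : Type} [CommRing R] [Algebra ℂ R] [CommRing R'] [Algebra ℂ R']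
    (f : R →+* R') (hf : ∀ c : ℂ, f (algebraMap ℂ R c) = algebraMap ℂ R' c) (ν δ : Fin 12 → R) :
    f (Psi F d m ν δ) = Psi F d m (fun k => f (ν k)) (fun k => f (δ k)) := by
  simp only [Psi, map_sum, map_mul, map_prod, map_pow, hf]

theorem aeval_sum {R : Type} [CommRing R] [Algebra ℂ R] (x : Fin 12 → R) :
    aeval x F = ∑ n ∈ F.support, algebraMap ℂ R (F.coeff n) * ∏ k, x k ^ n k := by
  rw [aeval_def, eval₂_eq']

theorem Psi_eq (hdeg : ∀ i, ∀ s ∈ F.support, s i + m i ≤ d) {R : Type} [CommRing R] [Algebra ℂ R]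
    (x δ : Fin 12 → R) :
    Psi F d m (fun k => δ k * x k) δ = (∏ k, δ k ^ (d - m k)) * aeval x F := by
  rw [aeval_sum, Finset.mul_sum]
  unfold Psi
  refine Finset.sum_congr rfl fun n hn => ?_
  rw [mul_left_comm, ← Finset.prod_mul_distrib]
  congr 1
  refine Finset.prod_congr rfl fun k _ => ?_
  have h := hdeg k n hn
  have h1 : d - m k = n k + (d - m k - n k) := by omega
  calc (δ k * x k) ^ n k * δ k ^ (d - m k - n k) =
      δ k ^ (n k + (d - m k - n k)) * x k ^ n k := by rw [mul_pow, pow_add]; ring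
    _ = _ := by rw [← h1]

theorem Psi_smul (hom : F.IsHomogeneous d) {R : Type} [CommRing R] [Algebra ℂ R] (c : R)
    (ν δ : Fin 12 → R) : Psi F d m (fun k => c * ν k) δ = c ^ d * Psi F d m ν δ := by
  unfold Psi
  rw [Finset.mul_sum]
  refine Finset.sum_congr rfl fun n hn => ?_
  have h1 : ∑ k, n k = d := by
    rw [← Finsupp.degree_eq_sum]
    by_contra h
    exact mem_support_iff.1 hn (hom.coeff_eq_zero h)
  rw [mul_left_comm]
  congr 1
  rw [← h1, ← Finset.prod_pow_eq_pow_sum, ← Finset.prod_mul_distrib]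
  refine Finset.prod_congr rfl fun k _ => ?_
  rw [mul_pow]
  ring

theorem aeval_smul (hom : F.IsHomogeneous d) {R : Type} [CommRing R] [Algebra ℂ R] (c : R)
    (x : Fin 12 → R) : aeval (fun k => c * x k) F = c ^ d * aeval x F := by
  rw [aeval_sum, aeval_sum, Finset.mul_sum]
  refine Finset.sum_congr rfl fun n hn => ?_
  have h1 : ∑ k, n k = d := by
    rw [← Finsupp.degree_eq_sum]
    by_contra h
    exact mem_support_iff.1 hn (hom.coeff_eq_zero h)
  rw [mul_left_comm]
  congr 1
  rw [← h1, ← Finset.prod_pow_eq_pow_sum, ← Finset.prod_mul_distrib]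
  exact Finset.prod_congr rfl fun k _ => mul_pow _ _ _

/-- vanishing to order `m₁` at `y` -/
theorem mult_dvd {y : Fin 12 → ℂ} {m₁ : ℕ} (h : MultGE F y m₁) {R : Type} [CommRing R]
    [Algebra ℂ R] (W : R) (ξ : Fin 12 → R) :
    W ^ m₁ ∣ aeval (fun k => algebraMap ℂ R (y k) + W * ξ k) F := by
  have h1 : aeval (fun k => algebraMap ℂ R (y k) + W * ξ k) F =
      aeval (fun k => W * ξ k) (bind₁ (fun i => X i + C (y i)) F) := by
    rw [aeval_bind₁]
    congr 2
    funext k
    simp only [map_add, aeval_X, algHom_C]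
    ring
  rw [h1, ← sum_homogeneousComponent (bind₁ (fun i => X i + C (y i)) F), map_sum]
  refine Finset.dvd_sum fun j _ => ?_
  by_cases hj : j < m₁
  · rw [h j (by exact_mod_cast hj), map_zero]
    exact dvd_zero _
  · rw [aeval_smul (homogeneousComponent_isHomogeneous j _)]
    exact Dvd.dvd.mul_right (pow_dvd_pow W (not_lt.1 hj)) _

/-- (1), expansion at infinity -/
theorem infinity {t y : Fin 12 → ℂ} {m₁ : ℕ} (hF : XForm t y d m₁ m F) {R : Type} [CommRing R]
    [Algebra ℂ R] (W θ α β : R) (b D A : Fin 12 → R)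
    (hb : ∀ k, b k = algebraMap ℂ R (t k) - θ)
    (hD : ∀ k, D k = algebraMap ℂ R (y k) + α + β * algebraMap ℂ R (t k))
    (hu : ∀ k, IsUnit (D k * W - A k)) :
    W ^ (d + m₁) ∣ Psi F d m (fun k => (b k - A k) * D k * W - b k * A k)
      (fun k => D k * W - A k) := by
  choose ι hι using fun k => (hu k).exists_right_inv
  have h1 : (fun k => (-1 : R) * ((b k - A k) * D k * W - b k * A k)) =
      fun k => (D k * W - A k) * (-b k - W * D k + W ^ 2 * D k ^ 2 * ι k) := by
    funext k
    linear_combination (-(W ^ 2 * D k ^ 2)) * hι k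
  have h2 := Psi_smul (m := m) hF.hom (-1 : R)
    (fun k => (b k - A k) * D k * W - b k * A k) (fun k => D k * W - A k)
  rw [h1, Psi_eq hF.deg] at h2
  have h3 : aeval (fun k => -b k - W * D k + W ^ 2 * D k ^ 2 * ι k) F =
      (-W) ^ d * aeval (fun k => algebraMap ℂ R (y k) + W * (-(D k ^ 2 * ι k))) F := by
    rw [← aeval_smul hF.hom, ← hF.inv R _ (W * α - θ) (1 + W * β)]
    congr 2
    funext k
    rw [hb, hD]
    ring
  have h4 : W ^ (d + m₁) ∣ aeval (fun k => -b k - W * D k + W ^ 2 * D k ^ 2 * ι k) F := by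
    rw [h3, pow_add]
    refine mul_dvd_mul ?_ (mult_dvd hF.mul W _)
    rw [neg_pow]
    exact Dvd.intro_left _ rfl
  have h5 : W ^ (d + m₁) ∣ (-1 : R) ^ d * Psi F d m (fun k => (b k - A k) * D k * W - b k * A k)
      (fun k => D k * W - A k) := by
    rw [← h2]
    exact Dvd.dvd.mul_left h4 _
  exact (IsUnit.dvd_mul_left ((isUnit_one.neg).pow d)).1 h5

/-! ### Reversal -/

/-- `g` is the reversal of `f` as a polynomial of degree `M` -/
def Rev {A : Type} [CommRing A] (M : ℕ) (f g : Polynomial A) : Prop :=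
  f.natDegree ≤ M ∧ Polynomial.reflect M f = g

section rev

variable {A : Type} [CommRing A]

theorem Rev.mul {M M' : ℕ} {f g f' g' : Polynomial A} (h : Rev M f g) (h' : Rev M' f' g') :
    Rev (M + M') (f * f') (g * g') := by
  refine ⟨Polynomial.natDegree_mul_le_of_le h.1 h'.1, ?_⟩
  rw [Polynomial.reflect_mul f f' h.1 h'.1, h.2, h'.2]

theorem Rev.one : Rev 0 (1 : Polynomial A) 1 := by
  refine ⟨Polynomial.natDegree_one.le, ?_⟩
  rw [Polynomial.reflect_one, pow_zero]

theorem Rev.pow {M : ℕ} {f g : Polynomial A} (h : Rev M f g) (n : ℕ) :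
    Rev (n * M) (f ^ n) (g ^ n) := by
  induction n with
  | zero => simpa using Rev.one
  | succ n ih =>
    rw [pow_succ, pow_succ, Nat.succ_mul]
    exact ih.mul h

theorem Rev.prod {ι : Type} (s : Finset ι) {M : ι → ℕ} {f g : ι → Polynomial A}
    (h : ∀ i ∈ s, Rev (M i) (f i) (g i)) : Rev (∑ i ∈ s, M i) (∏ i ∈ s, f i) (∏ i ∈ s, g i) := by
  classical
  induction s using Finset.induction_on with
  | empty => simpa using Rev.one
  | insert a s ha ih =>
    rw [Finset.sum_insert ha, Finset.prod_insert ha, Finset.prod_insert ha]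
    exact (h a (Finset.mem_insert_self a s)).mul
      (ih fun i hi => h i (Finset.mem_insert_of_mem hi))

theorem Rev.sum {ι : Type} (s : Finset ι) {M : ℕ} {f g : ι → Polynomial A}
    (h : ∀ i ∈ s, Rev M (f i) (g i)) : Rev M (∑ i ∈ s, f i) (∑ i ∈ s, g i) := by
  classical
  induction s using Finset.induction_on with
  | empty =>
    refine ⟨by simp, ?_⟩
    simp
  | insert a s ha ih =>
    rw [Finset.sum_insert ha, Finset.sum_insert ha]
    have h1 := h a (Finset.mem_insert_self a s)
    have h2 := ih fun i hi => h i (Finset.mem_insert_of_mem hi)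
    exact ⟨(Polynomial.natDegree_add_le _ _).trans (max_le h1.1 h2.1), by
      rw [Polynomial.reflect_add, h1.2, h2.2]⟩

theorem Rev.C_mul {M : ℕ} {f g : Polynomial A} (h : Rev M f g) (a : A) :
    Rev M (Polynomial.C a * f) (Polynomial.C a * g) :=
  ⟨(Polynomial.natDegree_C_mul_le _ _).trans h.1, by rw [Polynomial.reflect_C_mul, h.2]⟩

theorem Rev.lin (p q : A) : Rev 1 (Polynomial.C p - Polynomial.C q * Polynomial.X)
    (Polynomial.C p * Polynomial.X - Polynomial.C q) := by
  constructor
  · refine (Polynomial.natDegree_sub_le _ _).trans (max_le ?_ ?_)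
    · rw [Polynomial.natDegree_C]; exact Nat.zero_le 1
    · exact (Polynomial.natDegree_C_mul_le _ _).trans Polynomial.natDegree_X_le
  · rw [Polynomial.reflect_sub, Polynomial.reflect_C, Polynomial.reflect_C_mul,
      Polynomial.reflect_one_X, pow_one, mul_one]

theorem Rev.coeff_eq_zero {M N : ℕ} {f g : Polynomial A} (h : Rev M f g)
    (hg : ∀ i < N, g.coeff i = 0) {i : ℕ} (hi : M < i + N) : f.coeff i = 0 := by
  by_cases hiM : i ≤ M
  · have h1 := hg (M - i) (by omega)
    rw [← h.2, Polynomial.coeff_reflect, Polynomial.revAt_le (Nat.sub_le M i)] at h1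
    rwa [Nat.sub_sub_self hiM] at h1
  · exact Polynomial.coeff_eq_zero_of_natDegree_lt (lt_of_le_of_lt h.1 (not_le.1 hiM))

theorem Rev.psi [Algebra ℂ A] (hdeg : ∀ i, ∀ s ∈ F.support, s i + m i ≤ d)
    {ν δ ν' δ' : Fin 12 → Polynomial A} (h1 : ∀ k, Rev 1 (ν k) (ν' k))
    (h2 : ∀ k, Rev 1 (δ k) (δ' k)) :
    Rev (∑ k, (d - m k)) (Psi F d m ν δ) (Psi F d m ν' δ') := by
  unfold Psi
  refine Rev.sum _ fun n hn => ?_
  rw [Polynomial.algebraMap_apply]
  refine Rev.C_mul ?_ _
  refine Rev.prod _ fun k _ => ?_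
  have h := hdeg k n hn
  have h3 := ((h1 k).pow (n k)).mul ((h2 k).pow (d - m k - n k))
  rwa [mul_one, mul_one, show n k + (d - m k - n k) = d - m k by omega] at h3

end rev

/-! ### The two substitutions -/

section subst

variable {K : Type} [Field K] [Algebra ℂ K]

/-- polynomials as power series -/
noncomputable def toPS (K : Type) [Field K] :
    Polynomial (Polynomial K) →+* PowerSeries (PowerSeries K) :=
  (Polynomial.coeToPowerSeries.ringHom).comp
    (Polynomial.mapRingHom (Polynomial.coeToPowerSeries.ringHom : Polynomial K →+* PowerSeries K))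

theorem coeff_toPS (P : Polynomial (Polynomial K)) (i : ℕ) :
    PowerSeries.coeff i (toPS K P) = ((P.coeff i : Polynomial K) : PowerSeries K) := by
  unfold toPS
  simp [Polynomial.coeff_coe]

theorem toPS_C (p : Polynomial K) :
    toPS K (Polynomial.C p) = PowerSeries.C ((p : Polynomial K) : PowerSeries K) := by
  unfold toPS
  simp

theorem toPS_X : toPS K Polynomial.X = PowerSeries.X := by
  unfold toPS
  simp

theorem toPS_alg (c : ℂ) : toPS K (algebraMap ℂ _ c) = algebraMap ℂ _ c := by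
  rw [Polynomial.algebraMap_apply, toPS_C, Polynomial.algebraMap_apply]
  simp [PowerSeries.algebraMap_apply]

theorem descend {P : Polynomial (Polynomial K)} {N : ℕ}
    (h : (PowerSeries.X : PowerSeries (PowerSeries K)) ^ N ∣ toPS K P) :
    ∀ i < N, P.coeff i = 0 := by
  intro i hi
  have h1 := PowerSeries.X_pow_dvd_iff.1 h i hi
  rw [coeff_toPS] at h1
  exact Polynomial.coe_eq_zero_iff.1 h1

/-- `ε ↦ u ρ` -/
noncomputable def gg (K : Type) [Field K] : Polynomial K →+* Polynomial (Polynomial K) :=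
  Polynomial.eval₂RingHom (Polynomial.C.comp Polynomial.C)
    (Polynomial.C Polynomial.X * Polynomial.X)

/-- `ε ↦ u ρ`, `ρ ↦ ρ` -/
noncomputable def hh (K : Type) [Field K] :
    Polynomial (Polynomial K) →+* Polynomial (Polynomial K) :=
  Polynomial.eval₂RingHom (gg K) Polynomial.X

theorem coeff_gg (p : Polynomial K) (l : ℕ) :
    (gg K p).coeff l = Polynomial.C (p.coeff l) * Polynomial.X ^ l := by
  induction p using Polynomial.induction_on' with
  | add p q hp hq =>
    rw [map_add, Polynomial.coeff_add, hp, hq, Polynomial.coeff_add, map_add, add_mul]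
  | monomial n a =>
    have h1 : gg K (Polynomial.monomial n a) =
        Polynomial.C (Polynomial.C a * Polynomial.X ^ n) * Polynomial.X ^ n := by
      unfold gg
      rw [Polynomial.coe_eval₂RingHom, Polynomial.eval₂_monomial, mul_pow, map_mul, map_pow]
      simp only [RingHom.coe_comp, Function.comp_apply]
      ring
    rw [h1, Polynomial.coeff_C_mul_X_pow, Polynomial.coeff_monomial]
    by_cases h : l = n
    · rw [if_pos h, if_pos h.symm, h]
    · rw [if_neg h, if_neg fun h' => h h'.symm, map_zero, zero_mul]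

theorem dvd_coeff_hh {P : Polynomial (Polynomial K)} {T d' : ℕ}
    (h : ∀ i, d' < i + T → P.coeff i = 0) :
    (Polynomial.X : Polynomial K) ^ T ∣ (hh K P).coeff d' := by
  unfold hh
  rw [Polynomial.coe_eval₂RingHom, Polynomial.eval₂_eq_sum, Polynomial.sum_def,
    Polynomial.finsetSum_coeff]
  refine Finset.dvd_sum fun i hi => ?_
  have h1 : i + T ≤ d' := by
    by_contra hc
    exact Polynomial.mem_support_iff.1 hi (h i (not_le.1 hc))
  rw [Polynomial.coeff_mul_X_pow', if_pos (by omega), coeff_gg]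
  exact Dvd.dvd.mul_left (pow_dvd_pow _ (by omega)) _

theorem gg_C (a : K) : gg K (Polynomial.C a) = Polynomial.C (Polynomial.C a) := by
  unfold gg
  simp

theorem gg_X : gg K Polynomial.X = Polynomial.C Polynomial.X * Polynomial.X := by
  unfold gg
  simp

theorem hh_C (p : Polynomial K) : hh K (Polynomial.C p) = gg K p := by
  unfold hh
  simp

theorem hh_X : hh K Polynomial.X = Polynomial.X := by
  unfold hh
  simp

theorem hh_alg (c : ℂ) : hh K (algebraMap ℂ _ c) = algebraMap ℂ _ c := by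
  rw [Polynomial.algebraMap_apply, hh_C, Polynomial.algebraMap_apply, gg_C]

end subst

/-! ### The polynomial `Φ` -/

section phi

variable {K : Type} [Field K] [Algebra ℂ K]

/-- `A = b - ε Y` -/
noncomputable def AA (b Y : Fin 12 → K) (k : Fin 12) : Polynomial K :=
  Polynomial.C (b k) - Polynomial.X * Polynomial.C (Y k)

/-- the numerator at `ρ = 1/W = ∞` -/
noncomputable def nuW (b D Y : Fin 12 → K) (k : Fin 12) : Polynomial (Polynomial K) :=
  Polynomial.C ((Polynomial.C (b k) - AA b Y k) * Polynomial.C (D k)) * Polynomial.X -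
    Polynomial.C (Polynomial.C (b k) * AA b Y k)

/-- the denominator at `ρ = 1/W = ∞` -/
noncomputable def deW (b D Y : Fin 12 → K) (k : Fin 12) : Polynomial (Polynomial K) :=
  Polynomial.C (Polynomial.C (D k)) * Polynomial.X - Polynomial.C (AA b Y k)

/-- the numerator `N` -/
noncomputable def nuR (b D Y : Fin 12 → K) (k : Fin 12) : Polynomial (Polynomial K) :=
  Polynomial.C ((Polynomial.C (b k) - AA b Y k) * Polynomial.C (D k)) -
    Polynomial.C (Polynomial.C (b k) * AA b Y k) * Polynomial.X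

/-- the denominator `den` -/
noncomputable def deR (b D Y : Fin 12 → K) (k : Fin 12) : Polynomial (Polynomial K) :=
  Polynomial.C (Polynomial.C (D k)) - Polynomial.C (AA b Y k) * Polynomial.X

variable {t y : Fin 12 → ℂ} {m₁ : ℕ}

/-- (1) the polynomial in `W` is divisible by `W^(d+m₁)` -/
theorem coeff_PsiW (hF : XForm t y d m₁ m F) (θ α β : K) (b D Y : Fin 12 → K)
    (hb : ∀ k, b k = algebraMap ℂ K (t k) - θ)
    (hD : ∀ k, D k = algebraMap ℂ K (y k) + α + β * algebraMap ℂ K (t k))
    (hb0 : ∀ k, b k ≠ 0) :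
    ∀ i < d + m₁, (Psi F d m (nuW b D Y) (deW b D Y)).coeff i = 0 := by
  apply descend
  rw [Psi_map (toPS K) toPS_alg]
  have hcc : ∀ c : ℂ, toPS K (Polynomial.C (Polynomial.C (algebraMap ℂ K c))) =
      algebraMap ℂ (PowerSeries (PowerSeries K)) c := by
    intro c
    rw [← toPS_alg, Polynomial.algebraMap_apply, Polynomial.algebraMap_apply]
  have h1 := infinity hF (R := PowerSeries (PowerSeries K)) PowerSeries.X
    (toPS K (Polynomial.C (Polynomial.C θ))) (toPS K (Polynomial.C (Polynomial.C α)))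
    (toPS K (Polynomial.C (Polynomial.C β))) (fun k => toPS K (Polynomial.C (Polynomial.C (b k))))
    (fun k => toPS K (Polynomial.C (Polynomial.C (D k))))
    (fun k => toPS K (Polynomial.C (AA b Y k))) ?_ ?_ ?_
  · convert h1 using 2
    · funext k
      unfold nuW
      simp only [map_sub, map_mul, toPS_X]
    · funext k
      unfold deW
      simp only [map_sub, map_mul, toPS_X]
  · intro k
    rw [hb, ← hcc]
    simp only [map_sub]
  · intro k
    rw [hD, ← hcc, ← hcc]
    simp only [map_add, map_mul]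
  · intro k
    rw [PowerSeries.isUnit_iff_constantCoeff, toPS_C, toPS_C, map_sub, map_mul,
      PowerSeries.constantCoeff_X, mul_zero, zero_sub, PowerSeries.constantCoeff_C, IsUnit.neg_iff,
      PowerSeries.isUnit_iff_constantCoeff]
    unfold AA
    have h2 : PowerSeries.constantCoeff (((Polynomial.C (b k) - Polynomial.X * Polynomial.C (Y k) :
        Polynomial K)) : PowerSeries K) = b k := by
      rw [← PowerSeries.coeff_zero_eq_constantCoeff_apply, Polynomial.coeff_coe]
      simp
    rw [h2]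
    exact isUnit_iff_ne_zero.2 (hb0 k)

/-- (2) the part of lowest degree -/
theorem lowest (hF : XForm t y d m₁ m F) (b D Y : Fin 12 → K) (hD0 : ∀ k, D k ≠ 0) :
    (hh K (Psi F d m (nuR b D Y) (deR b D Y))).coeff d =
      (∏ k, Polynomial.C (D k) ^ (d - m k)) *
        aeval (fun k => Polynomial.X * Polynomial.C (Y k) - Polynomial.C (b k ^ 2 / D k)) F := by
  have hcst : ∀ ν δ : Fin 12 → Polynomial (Polynomial K),
      Polynomial.constantCoeff (Psi F d m ν δ) = Psi F d m
        (fun k => Polynomial.constantCoeff (ν k)) (fun k => Polynomial.constantCoeff (δ k)) := by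
    intro ν δ
    refine Psi_map (Polynomial.constantCoeff) (fun c => ?_) ν δ
    rw [Polynomial.algebraMap_apply, Polynomial.constantCoeff_apply, Polynomial.coeff_C_zero]
  have h1 : (fun k => hh K (nuR b D Y k)) = fun k => Polynomial.X *
      (Polynomial.C (Polynomial.X * Polynomial.C (Y k) * Polynomial.C (D k)) -
        Polynomial.C (Polynomial.C (b k)) * gg K (AA b Y k)) := by
    funext k
    unfold nuR AA
    simp only [map_sub, map_mul, hh_C, hh_X, gg_C, gg_X]
    ring
  rw [Psi_map (hh K) hh_alg, h1, Psi_smul hF.hom, Polynomial.coeff_X_pow_mul', if_pos le_rfl,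
    Nat.sub_self, ← Polynomial.constantCoeff_apply, hcst, ← Psi_eq hF.deg]
  have h2 : (fun k => Polynomial.constantCoeff (hh K (deR b D Y k))) =
      fun k => Polynomial.C (D k) := by
    funext k
    unfold deR AA
    simp only [map_sub, map_mul, hh_C, hh_X, gg_C, gg_X, Polynomial.constantCoeff_apply,
      Polynomial.coeff_C_zero, Polynomial.coeff_X_zero, mul_zero, sub_zero]
  have h3 : (fun k => Polynomial.constantCoeff
      (Polynomial.C (Polynomial.X * Polynomial.C (Y k) * Polynomial.C (D k)) -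
        Polynomial.C (Polynomial.C (b k)) * gg K (AA b Y k))) =
      fun k => Polynomial.C (D k) * (Polynomial.X * Polynomial.C (Y k) -
        Polynomial.C (b k ^ 2 / D k)) := by
    funext k
    unfold AA
    have h4 : Polynomial.C (b k ^ 2 / D k) * Polynomial.C (D k) =
        (Polynomial.C (b k)) ^ 2 := by
      rw [← Polynomial.C_mul, div_mul_cancel₀ _ (hD0 k), Polynomial.C_pow]
    simp only [map_sub, map_mul, gg_C, gg_X, Polynomial.constantCoeff_apply,
      Polynomial.coeff_C_zero, Polynomial.coeff_X_zero, mul_zero, zero_mul, sub_zero]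
    linear_combination h4
  rw [h2, h3]

end phi

end MultVAux

open MultVAux

/-- **MultV.**  Multiplicity along the threefold `V` swept out by the curves `C_z`. -/
theorem MultV : S_MultV := by
  intro t y d m₁ m F hF T hT K _ _ θ η σ₀ Y hθ hden
  rcases eq_or_ne F 0 with rfl | hF0
  · rw [map_zero]
    exact dvd_zero _
  -- the multiplicities are at most `d`
  have hmd : ∀ k, m k ≤ d := by
    obtain ⟨n, hn⟩ := Finset.nonempty_iff_ne_empty.2 fun h => hF0 (support_eq_empty.1 h)
    intro k
    have := hF.deg k n hn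
    omega
  have hM : ∑ k, (d - m k) + ∑ k, m k = 12 * d := by
    rw [← Finset.sum_add_distrib]
    have h1 : ∀ k ∈ (Finset.univ : Finset (Fin 12)), d - m k + m k = d := fun k _ =>
      Nat.sub_add_cancel (hmd k)
    rw [Finset.sum_congr rfl h1]
    simp
  obtain ⟨b, hb⟩ : ∃ b : Fin 12 → K, ∀ k, b k = algebraMap ℂ K (t k) - θ := ⟨_, fun _ => rfl⟩
  obtain ⟨D, hD⟩ : ∃ D : Fin 12 → K, ∀ k, D k = algebraMap ℂ K (y k) + (σ₀ * θ - η) +
      -σ₀ * algebraMap ℂ K (t k) := ⟨_, fun _ => rfl⟩
  have hb0 : ∀ k, b k ≠ 0 := fun k => by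
    rw [hb]
    exact sub_ne_zero.2 (hθ k)
  have hD1 : ∀ k, algebraMap ℂ K (y k) - η - σ₀ * (algebraMap ℂ K (t k) - θ) = D k := fun k => by
    rw [hD]
    ring
  have hD0 : ∀ k, D k ≠ 0 := fun k => by
    rw [← hD1]
    exact hden k
  obtain ⟨Y', hY'⟩ : ∃ Y' : Fin 12 → K, ∀ k, Y' k = -Y k := ⟨_, fun _ => rfl⟩
  have h1 := coeff_PsiW (Y := Y') hF θ (σ₀ * θ - η) (-σ₀) b D hb hD hb0
  have hrev : Rev (∑ k, (d - m k)) (Psi F d m (nuR b D Y') (deR b D Y'))
      (Psi F d m (nuW b D Y') (deW b D Y')) :=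
    Rev.psi hF.deg (fun k => Rev.lin _ _) (fun k => Rev.lin _ _)
  have h2 : ∀ i, d < i + T → (Psi F d m (nuR b D Y') (deR b D Y')).coeff i = 0 := fun i hi =>
    hrev.coeff_eq_zero h1 (by omega)
  have h3 := dvd_coeff_hh h2
  rw [lowest hF b D Y' hD0] at h3
  have hu : IsUnit (∏ k, (Polynomial.C (D k) : Polynomial K) ^ (d - m k)) := by
    rw [IsUnit.prod_univ_iff]
    exact fun k => (Polynomial.isUnit_C.2 (isUnit_iff_ne_zero.2 (hD0 k))).pow _
  have h4 := (IsUnit.dvd_mul_left hu).1 h3
  have h5 : aeval (fun k => Polynomial.X * Polynomial.C (Y' k) - Polynomial.C (b k ^ 2 / D k)) F =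
      (-1) ^ d * aeval (fun k => Polynomial.C (b k ^ 2 / D k) +
        Polynomial.X * Polynomial.C (Y k)) F := by
    rw [← aeval_smul hF.hom]
    congr 2
    funext k
    rw [hY', map_neg]
    ring
  rw [h5] at h4
  have h6 := (IsUnit.dvd_mul_left ((isUnit_one.neg).pow d)).1 h4
  have h7 : (fun i => Polynomial.C ((algebraMap ℂ K (t i) - θ) ^ 2 /
      (algebraMap ℂ K (y i) - η - σ₀ * (algebraMap ℂ K (t i) - θ))) +
        Polynomial.X * Polynomial.C (Y i)) =
      fun k => Polynomial.C (b k ^ 2 / D k) + Polynomial.X * Polynomial.C (Y k) := by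
    funext k
    rw [hD1, hb]
  rw [h7]
  exact h6

end Pool.Agent.MP5769ea
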