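import Pool.Agent.Lib.MP_5769ea_ag.Spec1
import Pool.Agent.Lib.MP_5769ea_ag.Spec4

/-!
# MP_5769ea_ag: NefJ, all thirteen classes `L^{(j)}` are nef at the special points
-/

open MvPolynomial

namespace Pool.Agent.MP5769ea

namespace NefJAux

/-- the ring of coordinates -/
abbrev RR : Type := MvPolynomial (Fin 12 ⊕ Fin 2) ℚ

/-- the twelve points: `q j = (z_0, z_1)`, `q i = (s_i^2, s_i^4 + s_i)` for `i ≠ j` -/
noncomputable def qq (j : Fin 12) (i : Fin 12) : Fin 2 → RR :=
  if i = j then ![X (Sum.inr 0), X (Sum.inr 1)]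
  else ![X (Sum.inl i) ^ 2, X (Sum.inl i) ^ 4 + X (Sum.inl i)]

theorem mem_HH {K : Type} [Field K] {N : ℕ} (q : Fin N → Fin 2 → K) (d μ : ℤ) (g : Fin N → ℤ)
    (F : MvPolynomial (Fin 2) K) :
    F ∈ HH q d μ g ↔ F ∈ PD K d μ ∧ ∀ i, F ∈ OrdGE (q i) (g i) := by
  unfold HH
  rw [Submodule.mem_inf, Submodule.mem_iInf]

end NefJAux

open NefJAux

theorem NefJ (hQNef : S_QNef) (hSemi : S_SemiCont) (hPD : S_PDRank) : S_NefJ := by
  intro K _ _ s z hind d μ g F hF hFH j
  have hs : AlgebraicIndependent ℚ s := by
    have := hind.comp Sum.inl Sum.inl_injective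
    simpa using this
  have hsinj : Function.Injective s := hs.injective
  rw [mem_HH] at hFH
  obtain ⟨hFP, hFo⟩ := hFH
  induction j using Fin.lastCases with
  | last =>
    have h1 : F ∈ HH (sp s) d μ (fun i => g (Fin.castSucc i)) := by
      rw [mem_HH]
      refine ⟨hFP, fun i => ?_⟩
      have := hFo (Fin.castSucc i)
      simpa [sp13] using this
    have h2 := hQNef K s hsinj d μ _ F hF h1
    rw [Fin.sum_univ_castSucc (n := 12) g]
    linarith
  | cast j =>
    -- the homomorphisms
    let ι : RR →+* K := (aeval (Sum.elim s z) : RR →ₐ[ℚ] K).toRingHom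
    let φ : RR →+* K :=
      (aeval (Sum.elim s ![s j ^ 2, s j ^ 4 + s j]) : RR →ₐ[ℚ] K).toRingHom
    have hι : Function.Injective ι := hind
    let g' : Fin 12 → ℤ := fun i => if i = j then g (Fin.last 12) else g (Fin.castSucc i)
    have h := hSemi RR K K φ ι hι 12 (qq j) d μ g'
    have e1 : (fun i k => φ (qq j i k)) = sp s := by
      funext i k
      by_cases hij : i = j
      · subst hij
        fin_cases k <;> simp [qq, sp, φ]
      · fin_cases k <;> simp [qq, sp, φ, hij]
    have e2 : F ∈ HH (fun i k => ι (qq j i k)) d μ g' := by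
      rw [mem_HH]
      refine ⟨hFP, fun i => ?_⟩
      by_cases hij : i = j
      · subst hij
        have h3 : (fun k => ι (qq i i k)) = z := by
          funext k
          fin_cases k <;> simp [qq, ι]
        have h4 := hFo (Fin.last 12)
        have h5 : sp13 s z (Fin.last 12) = z := by
          unfold sp13; exact Fin.snoc_last (α := fun _ => Fin 2 → K) z (sp s)
        rw [h5] at h4
        have h6 : g' i = g (Fin.last 12) := by simp [g']
        rw [h6, h3]
        exact h4
      · have h3 : (fun k => ι (qq j i k)) = sp s i := by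
          funext k
          fin_cases k <;> simp [qq, ι, hij, sp]
        have h4 := hFo (Fin.castSucc i)
        have h5 : sp13 s z (Fin.castSucc i) = sp s i := by simp [sp13]
        rw [h5] at h4
        have h6 : g' i = g (Fin.castSucc i) := by simp [g', hij]
        rw [h6, h3]
        exact h4
    rw [e1] at h
    have hfd : FiniteDimensional K (PD K d μ) := (hPD K).1 d μ
    have hpos : 0 < Module.finrank K (HH (fun i k => ι (qq j i k)) d μ g') := by
      have hfd2 : FiniteDimensional K (HH (fun i k => ι (qq j i k)) d μ g') :=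
        Submodule.finiteDimensional_of_le (S₂ := PD K d μ) inf_le_left
      have hne : (⟨F, e2⟩ : HH (fun i k => ι (qq j i k)) d μ g') ≠ 0 := by
        intro h0
        exact hF (congrArg Subtype.val h0)
      have : Nontrivial (HH (fun i k => ι (qq j i k)) d μ g') := ⟨⟨_, _, hne⟩⟩
      exact Module.finrank_pos
    have hpos2 : 0 < Module.finrank K (HH (sp s) d μ g') := lt_of_lt_of_le hpos h
    have hnt : Nontrivial (HH (sp s) d μ g') := Module.nontrivial_of_finrank_pos hpos2
    obtain ⟨F', hF'⟩ := exists_ne (0 : HH (sp s) d μ g')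
    have h2 := hQNef K s hsinj d μ g' F'.1 (fun h0 => hF' (Subtype.ext h0)) F'.2
    have h3 : (∑ i, g' i) = (∑ i, g i) - g (Fin.castSucc j) := by
      rw [Fin.sum_univ_castSucc (n := 12) g]
      have h4 : (∑ i, g' i) = g' j + ∑ i ∈ Finset.univ.erase j, g' i :=
        (Finset.add_sum_erase _ _ (Finset.mem_univ j)).symm
      have h5 : (∑ i : Fin 12, g (Fin.castSucc i)) =
          g (Fin.castSucc j) + ∑ i ∈ Finset.univ.erase j, g (Fin.castSucc i) :=
        (Finset.add_sum_erase _ (fun i : Fin 12 => g (Fin.castSucc i)) (Finset.mem_univ j)).symm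
      have h6 : ∑ i ∈ Finset.univ.erase j, g' i =
          ∑ i ∈ Finset.univ.erase j, g (Fin.castSucc i) := by
        apply Finset.sum_congr rfl
        intro i hi
        have : i ≠ j := (Finset.mem_erase.mp hi).1
        simp [g', this]
      rw [h4, h5, h6]
      have : g' j = g (Fin.last 12) := by simp [g']
      rw [this]
      ring
    rw [← h3]
    exact h2

end Pool.Agent.MP5769ea
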