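import Pool.Agent.Lib.MP_5769ea_ag.Spec2

open MvPolynomial

namespace Pool.Agent.MP5769ea

namespace NumAux

/-- a nonneg-integer fact: `2 γ ≤ γ (γ+1)` for integers -/
theorem two_mul_le (a : ℤ) : 2 * a ≤ a * (a + 1) := by
  by_cases h : a ≤ 0
  · nlinarith
  · nlinarith

theorem mul_nonneg' (a : ℤ) : 0 ≤ a * (a + 1) := by
  by_cases h : 0 ≤ a
  · positivity
  · nlinarith

theorem zero_or_neg_one {a : ℤ} (h : a * (a + 1) = 0) : a = 0 ∨ a = -1 := by
  rcases mul_eq_zero.1 h with h | h
  · left; exact h
  · right; omega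

theorem single_le (γ : Fin 12 → ℤ) (i : Fin 12) :
    γ i * (γ i + 1) ≤ ∑ i, γ i * (γ i + 1) :=
  Finset.single_le_sum (f := fun i => γ i * (γ i + 1)) (fun j _ => mul_nonneg' (γ j))
    (Finset.mem_univ i)

theorem pair_le (f : Fin 12 → ℤ) (hf : ∀ i, 0 ≤ f i) (i j : Fin 12)
    (hij : i ≠ j) : f i + f j ≤ ∑ i, f i := by
  have : ∑ k ∈ ({i, j} : Finset (Fin 12)), f k ≤ ∑ k, f k :=
    Finset.sum_le_sum_of_subset_of_nonneg (Finset.subset_univ _) (fun k _ _ => hf k)
  rwa [Finset.sum_pair hij] at this

theorem cs (γ : Fin 12 → ℤ) :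
    (2 * ∑ i, γ i + 12) ^ 2 ≤ 12 * (4 * ∑ i, γ i * (γ i + 1) + 12) := by
  have h := sq_sum_le_card_mul_sum_sq (s := (Finset.univ : Finset (Fin 12)))
    (f := fun i => 2 * γ i + 1)
  have e1 : ∑ i, (2 * γ i + 1) = 2 * ∑ i, γ i + 12 := by
    rw [Finset.sum_add_distrib, ← Finset.mul_sum]; simp
  have e2 : ∑ i, (2 * γ i + 1) ^ 2 = 4 * ∑ i, γ i * (γ i + 1) + 12 := by
    have : ∀ i, (2 * γ i + 1) ^ 2 = 4 * (γ i * (γ i + 1)) + 1 := fun i => by ring
    rw [Finset.sum_congr rfl (fun i _ => this i), Finset.sum_add_distrib, ← Finset.mul_sum]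
    simp
  rw [e1, e2] at h
  simpa using h

/-- all `γ ≥ 0` excluded: the extreme case `2 S = T` forces `γ ∈ {0, 1}` -/
theorem eq_case (γ : Fin 12 → ℤ) (h : ∑ i, γ i * (γ i + 1) ≤ 2 * ∑ i, γ i) (i : Fin 12) :
    γ i = 0 ∨ γ i = 1 := by
  have h0 : ∀ j ∈ (Finset.univ : Finset (Fin 12)), 0 ≤ γ j * (γ j + 1) - 2 * γ j := fun j _ => by
    have := two_mul_le (γ j); omega
  have hs : ∑ j, (γ j * (γ j + 1) - 2 * γ j) = 0 := by
    apply le_antisymm
    · rw [Finset.sum_sub_distrib, ← Finset.mul_sum]; omega
    · exact Finset.sum_nonneg h0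
  have := (Finset.sum_eq_zero_iff_of_nonneg h0).1 hs i (Finset.mem_univ i)
  have h2 : γ i * (γ i - 1) = 0 := by linarith [this, show γ i * (γ i + 1) - 2 * γ i = γ i * (γ i - 1) by ring]
  rcases mul_eq_zero.1 h2 with h | h
  · left; exact h
  · right; omega

end NumAux

open NumAux

theorem Num : S_Num := by
  intro c κ γ hκ0 hκc hγ hS hT
  have hcs := cs γ
  have h2 : 2 * ∑ i, γ i ≤ ∑ i, γ i * (γ i + 1) := by
    rw [Finset.mul_sum]
    exact Finset.sum_le_sum fun i _ => two_mul_le (γ i)
  set S := ∑ i, γ i with hSdef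
  set T := ∑ i, γ i * (γ i + 1) with hTdef
  have hT0 : 0 ≤ T := Finset.sum_nonneg fun i _ => mul_nonneg' (γ i)
  have hquad : (c + 1 - 2 * κ) ^ 2 + 3 * κ ≤ 9 := by
    have h3 : 0 ≤ 4 * (c + 1 + κ) := by omega
    have h4 : 4 * (c + 1 + κ) ≤ 2 * S + 12 := by omega
    have h5 : (4 * (c + 1 + κ)) ^ 2 ≤ (2 * S + 12) ^ 2 := by
      exact pow_le_pow_left₀ h3 h4 2
    nlinarith
  have hκ3 : κ ≤ 3 := by nlinarith [sq_nonneg (c + 1 - 2 * κ)]
  have hcases : κ = 0 ∨ κ = 1 ∨ κ = 2 ∨ κ = 3 := by omega
  rcases hcases with rfl | rfl | rfl | rfl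
  · -- κ = 0
    left
    have hT0' : T ≤ 0 := by simpa using hT
    have hall : ∀ i, γ i = 0 ∨ γ i = -1 := fun i => by
      apply zero_or_neg_one
      have h1 := single_le γ i
      have h2 := mul_nonneg' (γ i)
      omega
    have hS0 : S ≤ 0 := Finset.sum_nonpos fun i _ => by
      rcases hall i with h | h <;> omega
    refine ⟨rfl, by omega, hall, by omega⟩
  · -- κ = 1
    have hT' : T ≤ 2 * c := by
      have : (1 : ℤ) * (2 * c + 1 - 1) = 2 * c := by ring
      omega
    have hc : c = 0 ∨ c = 1 ∨ c = 2 := by omega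
    rcases hc with rfl | rfl | rfl
    · right; left
      have hall : ∀ i, γ i = 0 ∨ γ i = -1 := fun i => by
        apply zero_or_neg_one
        have h1 := single_le γ i
        have h2 := mul_nonneg' (γ i)
        omega
      exact ⟨rfl, rfl, hall, by omega⟩
    · by_cases hpos : ∀ i, 0 ≤ γ i
      · right; right; left
        exact ⟨rfl, rfl, hpos⟩
      · right; right; right; left
        push Not at hpos
        obtain ⟨j, hj⟩ := hpos
        have hj1 : γ j = -1 := by have := hγ j; omega
        have hex : ∃ i, 1 ≤ γ i := by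
          by_contra hno
          push Not at hno
          have h3 : ∀ i, 0 ≤ -γ i := fun i => by have := hno i; omega
          have h4 := Finset.single_le_sum (f := fun i => -γ i) (fun i _ => h3 i)
            (Finset.mem_univ j)
          rw [Finset.sum_neg_distrib] at h4
          omega
        obtain ⟨i, hi⟩ := hex
        have hi1 : γ i = 1 := by
          have h3 := single_le γ i
          have h4 : γ i * (γ i + 1) ≤ 2 := by omega
          nlinarith
        have hij : i ≠ j := by rintro rfl; omega
        have hoth : ∀ k, k ≠ i → γ k ≤ 0 := fun k hk => by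
          have h3 := pair_le (fun i => γ i * (γ i + 1)) (fun i => mul_nonneg' (γ i)) i k
            (Ne.symm hk)
          simp only [hi1] at h3
          have h4 : γ k * (γ k + 1) ≤ 0 := by omega
          have h5 := mul_nonneg' (γ k)
          rcases zero_or_neg_one (le_antisymm h4 h5) with h | h <;> omega
        refine ⟨rfl, rfl, i, j, hij, hi1, hj1, fun k hki hkj => ?_⟩
        have h3 := hoth k hki
        by_contra hne
        have hk1 : γ k = -1 := by have := hγ k; omega
        have h4 := pair_le (fun l => if l = i then 0 else -γ l) (fun l => by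
          by_cases hl : l = i
          · simp [hl]
          · simp only [hl, if_false]
            have := hoth l hl
            omega) j k (Ne.symm hkj)
        have h5 : ∑ l, (if l = i then 0 else -γ l) = γ i - S := by
          have : ∀ l, (if l = i then 0 else -γ l) = (if l = i then γ l else 0) - γ l := fun l => by
            by_cases hl : l = i <;> simp [hl]
          rw [Finset.sum_congr rfl (fun l _ => this l), Finset.sum_sub_distrib]
          simp [hSdef]
        rw [h5] at h4
        simp only [if_neg (Ne.symm hij), if_neg hki] at h4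
        omega
    · right; right; right; right; left
      have hS2 : S = 2 := by omega
      have h01 : ∀ i, γ i = 0 ∨ γ i = 1 := fun i => eq_case γ (by omega) i
      have hcard : (Finset.univ.filter fun i => γ i = 1).card = 2 := by
        have : (((Finset.univ.filter fun i => γ i = 1).card : ℕ) : ℤ) = S := by
          rw [Finset.card_filter, hSdef]
          push_cast
          refine Finset.sum_congr rfl fun i _ => ?_
          rcases h01 i with h | h <;> simp [h]
        omega
      obtain ⟨i, j, hij, hset⟩ := Finset.card_eq_two.1 hcard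
      have hi : γ i = 1 := by
        have : i ∈ Finset.univ.filter fun i => γ i = 1 := by rw [hset]; simp
        simpa using this
      have hj : γ j = 1 := by
        have : j ∈ Finset.univ.filter fun i => γ i = 1 := by rw [hset]; simp
        simpa using this
      refine ⟨rfl, rfl, i, j, hij, hi, hj, fun k hki hkj => ?_⟩
      rcases h01 k with h | h
      · exact h
      · exfalso
        have : k ∈ Finset.univ.filter fun i => γ i = 1 := by simp [h]
        rw [hset] at this
        simp at this
        tauto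
  · -- κ = 2
    exfalso
    have : (2 : ℤ) * (2 * c + 1 - 2) = 4 * c - 2 := by ring
    omega
  · -- κ = 3
    right; right; right; right; right
    have hc : c = 5 := by nlinarith [sq_nonneg (c + 1 - 6)]
    subst hc
    have hT24 : T ≤ 24 := by simpa using hT
    have h01 : ∀ i, γ i = 0 ∨ γ i = 1 := fun i => eq_case γ (by omega) i
    refine ⟨rfl, rfl, fun i => ?_⟩
    rcases h01 i with h | h
    · exfalso
      have h0 : ∀ j, 0 ≤ 1 - γ j := fun j => by rcases h01 j with h | h <;> omega
      have h3 := Finset.single_le_sum (f := fun j => 1 - γ j) (fun j _ => h0 j)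
        (Finset.mem_univ i)
      rw [Finset.sum_sub_distrib] at h3
      simp only [Finset.sum_const, Finset.card_univ, Fintype.card_fin] at h3
      simp only [smul_eq_mul, mul_one, nsmul_eq_mul] at h3
      have : S = ∑ i, γ i := rfl
      push_cast at h3
      omega
    · exact h

end Pool.Agent.MP5769ea
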