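import Pool.Agent.Lib.MP_5769ea_ag.Spec1

/-! # MP_5769ea_ag: PDBasic, basic facts on the spaces `PD` -/

open MvPolynomial

namespace Pool.Agent.MP5769ea

namespace PDBasicAux

variable {K : Type} [Field K]

theorem mem_PD (F : MvPolynomial (Fin 2) K) (d μ : ℤ) :
    F ∈ PD K d μ ↔ ∀ s ∈ F.support, ((s 0 + s 1 : ℕ) : ℤ) ≤ d ∧ ((s 1 : ℕ) : ℤ) ≤ μ := by
  unfold PD
  rw [MvPolynomial.mem_restrictSupport_iff]
  constructor
  · intro h s hs
    exact h (by simpa using hs)
  · intro h s hs
    exact h s (by simpa using hs)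

theorem sum_two (s : Fin 2 →₀ ℕ) : (s.sum fun _ e => e) = s 0 + s 1 := by
  rw [Finsupp.sum_fintype _ _ (fun _ => rfl), Fin.sum_univ_two]

theorem iff_deg (F : MvPolynomial (Fin 2) K) (d μ : ℤ) (hF : F ≠ 0) :
    F ∈ PD K d μ ↔ (F.totalDegree : ℤ) ≤ d ∧ ((F.degreeOf 1 : ℕ) : ℤ) ≤ μ := by
  rw [mem_PD]
  have hne : F.support.Nonempty := MvPolynomial.support_nonempty.mpr hF
  constructor
  · intro h
    obtain ⟨s₀, hs₀⟩ := hne
    have h0 := h s₀ hs₀
    have hd : 0 ≤ d := le_trans (by positivity) h0.1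
    have hμ : 0 ≤ μ := le_trans (by positivity) h0.2
    lift d to ℕ using hd
    lift μ to ℕ using hμ
    constructor
    · have : F.totalDegree ≤ d := by
        unfold MvPolynomial.totalDegree
        refine Finset.sup_le fun s hs => ?_
        rw [sum_two]
        exact_mod_cast (h s hs).1
      exact_mod_cast this
    · have : F.degreeOf 1 ≤ μ := by
        rw [MvPolynomial.degreeOf_le_iff]
        intro s hs
        exact_mod_cast (h s hs).2
      exact_mod_cast this
  · rintro ⟨h1, h2⟩ s hs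
    constructor
    · refine le_trans ?_ h1
      have := MvPolynomial.le_totalDegree hs
      rw [sum_two] at this
      exact_mod_cast this
    · refine le_trans ?_ h2
      have := MvPolynomial.monomial_le_degreeOf 1 hs
      exact_mod_cast this

theorem mul_mem (F G : MvPolynomial (Fin 2) K) (a μ b ν : ℤ) (hF : F ∈ PD K a μ)
    (hG : G ∈ PD K b ν) : F * G ∈ PD K (a + b) (μ + ν) := by
  classical
  rw [mem_PD] at *
  intro s hs
  have := MvPolynomial.support_mul F G hs
  obtain ⟨u, hu, v, hv, rfl⟩ := Finset.mem_add.mp this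
  have h1 := hF u hu
  have h2 := hG v hv
  simp only [Finsupp.add_apply]
  push_cast at *
  constructor <;> linarith [h1.1, h1.2, h2.1, h2.2]

end PDBasicAux

/-- **PDBasic.** -/
theorem PDBasic : S_PDBasic := by
  intro K _
  refine ⟨fun F d μ hF => PDBasicAux.iff_deg F d μ hF, fun F G a μ b ν hF hG =>
    PDBasicAux.mul_mem F G a μ b ν hF hG, fun F G hF hG => ⟨?_, ?_⟩⟩
  · exact MvPolynomial.totalDegree_mul_of_isDomain hF hG
  · exact MvPolynomial.degreeOf_mul_eq hF hG

end Pool.Agent.MP5769ea
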