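import Pool.Agent.Lib.MP_5769ea_ag.Spec1
import Pool.Agent.Lib.MP_5769ea_ag.Spec2

/-! # MP_5769ea_ag, PairBez : the inequality of Bezout for a primitive pair -/

open MvPolynomial

namespace Pool.Agent.MP5769ea

namespace PairBezAux

theorem mem_PD {K : Type} [Field K] {d μ : ℤ} {F : MvPolynomial (Fin 2) K} :
    F ∈ PD K d μ ↔ ∀ s ∈ F.support, ((s 0 + s 1 : ℕ) : ℤ) ≤ d ∧ ((s 1 : ℕ) : ℤ) ≤ μ :=
  Iff.rfl

theorem mem_OrdGE {K : Type} [Field K] {q : Fin 2 → K} {g : ℤ} {F : MvPolynomial (Fin 2) K} :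
    F ∈ OrdGE q g ↔ ∀ s ∈ (shift q F).support, g ≤ ((s 0 + s 1 : ℕ) : ℤ) :=
  Iff.rfl

theorem mem_OrdGE_zero {K : Type} [Field K] (q : Fin 2 → K) (F : MvPolynomial (Fin 2) K) :
    F ∈ OrdGE q 0 :=
  mem_OrdGE.2 fun _ _ => Int.natCast_nonneg _

/-- a unit has order zero everywhere -/
theorem unit_ord {K : Type} [Field K] {q : Fin 2 → K} {g : ℤ} {F : MvPolynomial (Fin 2) K}
    (hF : IsUnit F) (h : F ∈ OrdGE q g) : g ≤ 0 := by
  have h1 : IsUnit (constantCoeff (shift q F)) := (hF.map (shift q)).map constantCoeff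
  have h2 : (0 : Fin 2 →₀ ℕ) ∈ (shift q F).support := by
    rw [mem_support_iff]
    exact h1.ne_zero
  have := mem_OrdGE.1 h 0 h2
  simpa using this

end PairBezAux

open PairBezAux

theorem PairBez (h : S_Bezout) : S_PairBez := by
  intro K _ _ t y x hgen c κ γ P R hp
  have hinj : Function.Injective (pt t y) := by
    intro i j hij
    have h1 : t i = t j := congrFun hij 0
    have h2 := hgen.injective (a₁ := Sum.inl i) (a₂ := Sum.inl j) h1
    exact Sum.inl_injective h2
  have hc : -1 ≤ c := by have := hp.hκ; have := hp.hκc; linarith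
  rcases hc.eq_or_lt with hc1 | hc1
  · -- the degenerate case
    have hκ0 : κ = 0 := by have := hp.hκ; have := hp.hκc; linarith
    have hR0 : R = 0 := by
      rw [← support_eq_empty, Finset.eq_empty_iff_forall_notMem]
      intro s hs
      have h2 := (mem_PD.1 hp.hR s hs).1
      have h3 : (0 : ℤ) ≤ ((s 0 + s 1 : ℕ) : ℤ) := Int.natCast_nonneg _
      linarith
    have hPu : IsUnit P := by
      have := hp.rel
      rw [hR0, isRelPrime_zero_right] at this
      exact this
    have hγ : ∀ i, γ i = -1 := by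
      intro i
      have h2 := hp.hPo i
      rw [hR0, mul_zero, sub_zero] at h2
      have h3 := unit_ord hPu h2
      have h4 := hp.hγ i
      linarith
    rw [hκ0]
    simp [hγ]
  · obtain ⟨c', hc'⟩ : ∃ c' : ℕ, c = c' := ⟨c.toNat, by omega⟩
    obtain ⟨k, hk⟩ : ∃ k : ℕ, κ = k := ⟨κ.toNat, by have := hp.hκ; omega⟩
    have hkc : k ≤ c' + 1 := by have := hp.hκc; omega
    have hR' : R ∈ PD K (c' : ℤ) ((min k c' : ℕ) : ℤ) := by
      rw [mem_PD]
      intro s hs
      have h2 := mem_PD.1 hp.hR s hs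
      rw [hc', hk] at h2
      refine ⟨h2.1, ?_⟩
      have h3 : s 0 + s 1 ≤ c' := by exact_mod_cast h2.1
      have h4 : s 1 ≤ k := by exact_mod_cast h2.2
      exact_mod_cast (le_min h4 (by omega) : s 1 ≤ min k c')
    have hP' : P ∈ PD K ((c' + 1 : ℕ) : ℤ) (k : ℤ) := by
      have := hp.hP
      rw [hc', hk] at this
      push_cast
      exact this
    have hB := h K 12 (pt t y) hinj (c' + 1) k c' (min k c') hkc (min_le_right _ _) P R hP' hR'
      hp.rel (fun i => (γ i + 1).toNat) (fun i => (γ i).toNat) (fun i => C (x i))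
      (fun i => by
        have h1 := hp.hPo i
        have h2 : (((γ i + 1).toNat : ℕ) : ℤ) = γ i + 1 := by
          have := hp.hγ i
          omega
        rw [h2]
        exact h1)
      (fun i => by
        by_cases h0 : 0 ≤ γ i
        · have h2 : (((γ i).toNat : ℕ) : ℤ) = γ i := by omega
          rw [h2]
          exact hp.hRo i
        · have h2 : (((γ i).toNat : ℕ) : ℤ) = 0 := by omega
          rw [h2]
          exact mem_OrdGE_zero _ _)
    have hsum : ∑ i, γ i * (γ i + 1) =
        ∑ i, (((γ i + 1).toNat : ℕ) : ℤ) * (((γ i).toNat : ℕ) : ℤ) := by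
      refine Finset.sum_congr rfl fun i _ => ?_
      have h1 : (((γ i + 1).toNat : ℕ) : ℤ) = γ i + 1 := by
        have := hp.hγ i
        omega
      rw [h1]
      by_cases h0 : 0 ≤ γ i
      · have h2 : (((γ i).toNat : ℕ) : ℤ) = γ i := by omega
        rw [h2, mul_comm]
      · have h2 : (((γ i).toNat : ℕ) : ℤ) = 0 := by omega
        have h3 : γ i = -1 := by
          have := hp.hγ i
          omega
        rw [h2, h3]
        norm_num
    rw [hsum]
    refine le_trans hB (le_of_eq ?_)
    rw [hc', hk]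
    rcases Nat.lt_or_ge c' k with hlt | hge
    · have hke : k = c' + 1 := by omega
      rw [min_eq_right (by omega), hke]
      push_cast
      ring
    · rw [min_eq_left hge]
      push_cast
      ring

end Pool.Agent.MP5769ea
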