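import Pool.Agent.Lib.MP_5769ea_ag.Spec5

open MvPolynomial

namespace Pool.Agent.MP5769ea

/-- the pairing as a continuous linear map in the second argument -/
noncomputable def pairR {s : ℕ} (γ : ℝ × (Fin s → ℝ)) : (ℝ × (Fin s → ℝ)) →ₗ[ℝ] ℝ where
  toFun := pair γ
  map_add' := by
    intro a b
    simp only [pair, Prod.fst_add, Prod.snd_add, Pi.add_apply, mul_add, Finset.sum_add_distrib]
    ring
  map_smul' := by
    intro r a
    simp only [pair, Prod.smul_fst, Prod.smul_snd, Pi.smul_apply, smul_eq_mul, RingHom.id_apply]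
    rw [mul_sub, Finset.mul_sum]
    congr 1
    · ring
    · exact Finset.sum_congr rfl fun i _ => by ring

/-- the pairing as a linear map in the first argument -/
noncomputable def pairL {s : ℕ} (D : ℝ × (Fin s → ℝ)) : (ℝ × (Fin s → ℝ)) →ₗ[ℝ] ℝ where
  toFun γ := pair γ D
  map_add' := by
    intro a b
    simp only [pair, Prod.fst_add, Prod.snd_add, Pi.add_apply, add_mul, Finset.sum_add_distrib]
    ring
  map_smul' := by
    intro r a
    simp only [pair, Prod.smul_fst, Prod.smul_snd, Pi.smul_apply, smul_eq_mul, RingHom.id_apply]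
    rw [mul_sub, Finset.mul_sum]
    congr 1
    · ring
    · exact Finset.sum_congr rfl fun i _ => by ring

theorem nonneg_closure_span {s : ℕ} (f : (ℝ × (Fin s → ℝ)) →ₗ[ℝ] ℝ)
    (S : Set (ℝ × (Fin s → ℝ))) (h : ∀ x ∈ S, 0 ≤ f x) :
    ∀ x ∈ closure (Submodule.span NNReal S : Set (ℝ × (Fin s → ℝ))), 0 ≤ f x := by
  have hcont : Continuous f := f.continuous_of_finiteDimensional
  have hcl : IsClosed {x | 0 ≤ f x} := isClosed_le continuous_const hcont
  intro x hx
  refine closure_minimal (t := {x | 0 ≤ f x}) ?_ hcl hx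
  intro z hz
  simp only [SetLike.mem_coe] at hz
  simp only [Set.mem_setOf_eq]
  induction hz using Submodule.span_induction with
  | mem x hx => exact h x hx
  | zero => simp
  | add a b _ _ ha hb => rw [map_add]; exact add_nonneg ha hb
  | smul r a _ ha =>
    have : r • a = (r : ℝ) • a := rfl
    rw [this, map_smul]
    exact mul_nonneg r.2 ha

theorem PairClosure : S_PairClosure := by
  intro s S T h x hx y hy
  have h1 : ∀ x ∈ S, 0 ≤ pair x y := fun x hxS =>
    nonneg_closure_span (pairR x) T (fun y hyT => h x hxS y hyT) y hy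
  exact nonneg_closure_span (pairL y) S h1 x hx

theorem Sep : S_Sep := by
  intro s S x₀ hx₀
  set C := closure (Submodule.span NNReal S : Set (ℝ × (Fin s → ℝ))) with hC
  have hclosed : IsClosed C := isClosed_closure
  have hconv : Convex ℝ C := by
    apply Convex.closure
    intro a ha b hb r q hr hq _
    have h1 : r • a = (⟨r, hr⟩ : NNReal) • a := rfl
    have h2 : q • b = (⟨q, hq⟩ : NNReal) • b := rfl
    rw [h1, h2]
    exact Submodule.add_mem _ (Submodule.smul_mem _ _ ha) (Submodule.smul_mem _ _ hb)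
  obtain ⟨f, u, hfu, hu⟩ := geometric_hahn_banach_point_closed hconv hclosed hx₀
  have h0 : (0 : ℝ × (Fin s → ℝ)) ∈ C := subset_closure (Submodule.zero_mem _)
  have hu0 : u < 0 := by simpa using hu 0 h0
  have hsmul : ∀ x ∈ C, ∀ r : ℝ, 0 ≤ r → r • x ∈ C := by
    intro x hx r hr
    have hc : Continuous fun x : ℝ × (Fin s → ℝ) => r • x := continuous_const_smul r
    refine map_mem_closure hc hx ?_
    intro z hz
    exact Submodule.smul_mem _ (⟨r, hr⟩ : NNReal) hz
  have hf : ∀ x ∈ C, 0 ≤ f x := by
    intro x hx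
    by_contra hneg
    push Not at hneg
    have := hu _ (hsmul x hx (u / f x) (div_nonneg_of_nonpos hu0.le hneg.le))
    rw [map_smul, smul_eq_mul, div_mul_cancel₀ _ hneg.ne] at this
    exact lt_irrefl _ this
  let γ : ℝ × (Fin s → ℝ) := (f (1, 0), fun i => - f (0, Pi.single i 1))
  have hγ : ∀ x, pair γ x = f x := by
    rintro ⟨d, m⟩
    have e : ((d, m) : ℝ × (Fin s → ℝ)) = d • (1, 0) + ∑ i, m i • (0, Pi.single i 1) := by
      ext
      · simp [Prod.fst_sum]
      · simp only [Prod.snd_add, Prod.smul_snd, smul_zero, Prod.snd_sum, zero_add,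
          Finset.sum_apply, Pi.smul_apply, smul_eq_mul, Pi.add_apply, Pi.zero_apply, Pi.single_apply]
        simp
    conv_rhs => rw [e]
    rw [map_add, map_smul, map_sum]
    simp only [pair, γ, map_smul, smul_eq_mul]
    rw [sub_eq_add_neg, ← Finset.sum_neg_distrib]
    congr 1
    · ring
    · exact Finset.sum_congr rfl fun i _ => by ring
  refine ⟨γ, ?_, fun x hx => ?_⟩
  · rw [hγ]; linarith
  · rw [hγ]; exact hf x hx

end Pool.Agent.MP5769ea
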