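import Pool.Agent.Lib.MP_5769ea_ag.Spec1

/-!
# MP_5769ea_ag: from a space of proportional pairs to a primitive pair
-/

open MvPolynomial

namespace Pool.Agent.MP5769ea

namespace PairOfAux

variable {K : Type} [Field K]

/-- total degree, negative for zero -/
noncomputable def tD (F : MvPolynomial (Fin 2) K) : ℤ :=
  haveI := Classical.dec (F = 0)
  if F = 0 then -5 else (F.totalDegree : ℤ)

/-- degree in the second variable, negative for zero -/
noncomputable def yD (F : MvPolynomial (Fin 2) K) : ℤ :=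
  haveI := Classical.dec (F = 0)
  if F = 0 then -5 else ((F.degreeOf 1 : ℕ) : ℤ)

theorem tD_zero : tD (0 : MvPolynomial (Fin 2) K) = -5 := by unfold tD; rw [if_pos rfl]

theorem yD_zero : yD (0 : MvPolynomial (Fin 2) K) = -5 := by unfold yD; rw [if_pos rfl]

theorem tD_ne {F : MvPolynomial (Fin 2) K} (h : F ≠ 0) : tD F = (F.totalDegree : ℤ) := by
  unfold tD; rw [if_neg h]

theorem yD_ne {F : MvPolynomial (Fin 2) K} (h : F ≠ 0) : yD F = ((F.degreeOf 1 : ℕ) : ℤ) := by
  unfold yD; rw [if_neg h]

/-- the local order of a pair -/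
theorem exists_gamma (hOrd : S_OrdBasic) (q : Fin 2 → K) (R S : MvPolynomial (Fin 2) K)
    (hne : R ≠ 0 ∨ S ≠ 0) : ∃ γ : ℤ, -1 ≤ γ ∧ R ∈ OrdGE q γ ∧ S ∈ OrdGE q (γ + 1) ∧
      (R ∉ OrdGE q (γ + 1) ∨ S ∉ OrdGE q (γ + 2)) := by
  obtain ⟨-, hmono, -, -, hex, -⟩ := hOrd K q
  by_cases hR : R = 0
  · have hS : S ≠ 0 := hne.resolve_left (fun h => h hR)
    obtain ⟨k, hk1, hk2⟩ := hex S hS
    refine ⟨(k : ℤ) - 1, by omega, ?_, ?_, Or.inr ?_⟩
    · rw [hR]; exact Submodule.zero_mem _
    · rw [sub_add_cancel]; exact hk1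
    · have : (k : ℤ) - 1 + 2 = k + 1 := by ring
      rw [this]; exact hk2
  · obtain ⟨k, hk1, hk2⟩ := hex R hR
    by_cases hS : S = 0
    · refine ⟨(k : ℤ), by omega, hk1, ?_, Or.inl hk2⟩
      rw [hS]; exact Submodule.zero_mem _
    · obtain ⟨l, hl1, hl2⟩ := hex S hS
      rcases le_or_gt ((k : ℤ) + 1) l with h | h
      · exact ⟨(k : ℤ), by omega, hk1, hmono _ _ h hl1, Or.inl hk2⟩
      · refine ⟨(l : ℤ) - 1, by omega, hmono _ _ (by omega) hk1, ?_, Or.inr ?_⟩
        · rw [sub_add_cancel]; exact hl1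
        · have : (l : ℤ) - 1 + 2 = l + 1 := by ring
          rw [this]; exact hl2

/-- multiplication of a pair by a polynomial -/
noncomputable def Th (P R : MvPolynomial (Fin 2) K) :
    MvPolynomial (Fin 2) K →ₗ[K] MvPolynomial (Fin 2) K × MvPolynomial (Fin 2) K :=
  LinearMap.prod (LinearMap.mulRight K P) (LinearMap.mulRight K R)

theorem Th_apply (P R g : MvPolynomial (Fin 2) K) : Th P R g = (g * P, g * R) := rfl

theorem exists_quot {P R : MvPolynomial (Fin 2) K} (h : IsRelPrime P R)
    {a b : MvPolynomial (Fin 2) K} (hab : P * b = a * R) : ∃ g, a = g * P ∧ b = g * R := by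
  by_cases hP : P = 0
  · subst hP
    have hR : IsUnit R := by
      have := h (dvd_zero R) dvd_rfl
      exact this
    obtain ⟨r, rfl⟩ := hR
    rw [zero_mul] at hab
    have ha : a = 0 := by
      rcases mul_eq_zero.1 hab.symm with h1 | h1
      · exact h1
      · exact absurd h1 r.ne_zero
    refine ⟨b * (↑r⁻¹ : MvPolynomial (Fin 2) K), ?_, ?_⟩
    · rw [ha, mul_zero]
    · rw [mul_assoc, Units.inv_mul, mul_one]
  · have hd : P ∣ a * R := ⟨b, hab.symm⟩
    obtain ⟨g, hg⟩ := h.dvd_of_dvd_mul_right hd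
    refine ⟨g, by rw [hg, mul_comm], ?_⟩
    rw [hg] at hab
    have : P * b = P * (g * R) := by rw [hab]; ring
    exact mul_left_cancel₀ hP this

end PairOfAux

open PairOfAux in
theorem PairOf (hPD : S_PDBasic) (hRank : S_PDRank) (hOrd : S_OrdBasic) : S_PairOf := by
  intro K _ t y x m U hU hne hprop
  obtain ⟨hmem, -, hmul⟩ := hPD K
  obtain ⟨hfd, -⟩ := hRank K
  -- a nonzero element
  obtain ⟨u, huU, hu0⟩ := (Submodule.ne_bot_iff U).1 hne
  -- reduced pair
  have hred : ∃ P R g₀ : MvPolynomial (Fin 2) K, IsRelPrime P R ∧ g₀ * P = u.1 ∧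
      g₀ * R = u.2 := by
    by_cases h1 : u.1 = 0
    · have h2 : u.2 ≠ 0 := by
        intro h2
        exact hu0 (Prod.ext h1 h2)
      obtain ⟨b', a', c', hrel, hb, ha⟩ :=
        UniqueFactorizationMonoid.exists_reduced_factors u.2 h2 u.1
      exact ⟨a', b', c', hrel.symm, ha, hb⟩
    · obtain ⟨a', b', c', hrel, ha, hb⟩ :=
        UniqueFactorizationMonoid.exists_reduced_factors u.1 h1 u.2
      exact ⟨a', b', c', hrel, ha, hb⟩
  obtain ⟨P, R, g₀, hrel, hP0, hR0⟩ := hred
  have hg₀ : g₀ ≠ 0 := by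
    intro h
    apply hu0
    refine Prod.ext ?_ ?_
    · rw [← hP0, h, zero_mul]; rfl
    · rw [← hR0, h, zero_mul]; rfl
  have hPR : P ≠ 0 ∨ R ≠ 0 := by
    by_contra hc
    push_neg at hc
    apply hu0
    refine Prod.ext ?_ ?_
    · rw [← hP0, hc.1, mul_zero]; rfl
    · rw [← hR0, hc.2, mul_zero]; rfl
  -- local orders
  have hγ : ∀ i, ∃ γ : ℤ, -1 ≤ γ ∧ R ∈ OrdGE (pt t y i) γ ∧
      (P - C (x i) * R) ∈ OrdGE (pt t y i) (γ + 1) ∧
      (R ∉ OrdGE (pt t y i) (γ + 1) ∨ (P - C (x i) * R) ∉ OrdGE (pt t y i) (γ + 2)) := by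
    intro i
    refine exists_gamma hOrd _ R _ ?_
    by_contra hc
    push_neg at hc
    obtain ⟨h1, h2⟩ := hc
    rw [h1, mul_zero, sub_zero] at h2
    rcases hPR with h | h
    · exact h h2
    · exact h h1
  choose γ hγ1 hγ2 hγ3 hγ4 using hγ
  set c : ℤ := max (tD R) (tD P - 1) with hc
  set κ : ℤ := max (yD P) (yD R) with hκ
  have htdR : R ≠ 0 → (R.totalDegree : ℤ) ≤ c := fun h => by
    rw [← tD_ne h]; exact le_max_left _ _
  have htdP : P ≠ 0 → (P.totalDegree : ℤ) ≤ c + 1 := fun h => by
    have : tD P - 1 ≤ c := le_max_right _ _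
    rw [tD_ne h] at this
    omega
  have hydR : R ≠ 0 → ((R.degreeOf 1 : ℕ) : ℤ) ≤ κ := fun h => by
    rw [← yD_ne h]; exact le_max_right _ _
  have hydP : P ≠ 0 → ((P.degreeOf 1 : ℕ) : ℤ) ≤ κ := fun h => by
    rw [← yD_ne h]; exact le_max_left _ _
  have hκ0 : 0 ≤ κ := by
    rcases hPR with h | h
    · exact le_trans (Int.natCast_nonneg _) (hydP h)
    · exact le_trans (Int.natCast_nonneg _) (hydR h)
  have hc1 : -1 ≤ c := by
    rcases hPR with h | h
    · have := htdP h
      have h2 : (0 : ℤ) ≤ (P.totalDegree : ℤ) := Int.natCast_nonneg _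
      omega
    · have := htdR h
      have h2 : (0 : ℤ) ≤ (R.totalDegree : ℤ) := Int.natCast_nonneg _
      omega
  have hdeg : ∀ F : MvPolynomial (Fin 2) K, ((F.degreeOf 1 : ℕ) : ℤ) ≤ (F.totalDegree : ℤ) :=
    fun F => by exact_mod_cast degreeOf_le_totalDegree F 1
  have hκc : κ ≤ c + 1 := by
    rw [hκ]
    refine max_le ?_ ?_
    · by_cases h : P = 0
      · rw [h, yD_zero]; omega
      · rw [yD_ne h]; exact (hdeg P).trans (htdP h)
    · by_cases h : R = 0
      · rw [h, yD_zero]; omega
      · rw [yD_ne h]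
        have := (hdeg R).trans (htdR h)
        omega
  refine ⟨c, κ, γ, P, R, ?_, ?_⟩
  · refine ⟨hrel, ?_, ?_, hκ0, hκc, hγ1, hγ2, hγ3⟩
    · by_cases h : P = 0
      · rw [h]; exact Submodule.zero_mem _
      · exact (hmem P _ _ h).2 ⟨htdP h, hydP h⟩
    · by_cases h : R = 0
      · rw [h]; exact Submodule.zero_mem _
      · exact (hmem R _ _ h).2 ⟨htdR h, hydR h⟩
  · -- the dimension
    set H := HH (pt t y) (4 * m + 5 - c) (2 * m + 1 - κ) (fun i => m - γ i) with hH
    haveI : FiniteDimensional K (PD K (4 * m + 5 - c) (2 * m + 1 - κ)) := hfd _ _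
    haveI : FiniteDimensional K H :=
      Submodule.finiteDimensional_of_le (S₂ := PD K (4 * m + 5 - c) (2 * m + 1 - κ)) inf_le_left
    have hsub : U ≤ H.map (Th P R) := by
      intro v hv
      have h1 : P * v.2 = v.1 * R := by
        have h2 := hprop u huU v hv
        rw [← hP0, ← hR0] at h2
        have h3 : g₀ * (P * v.2) = g₀ * (v.1 * R) := by
          rw [← mul_assoc, h2]; ring
        exact mul_left_cancel₀ hg₀ h3
      obtain ⟨g, hg1, hg2⟩ := exists_quot hrel h1
      refine ⟨g, ?_, ?_⟩
      swap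
      · rw [Th_apply]
        exact Prod.ext hg1.symm hg2.symm
      · by_cases hg : g = 0
        · rw [hg]; exact Submodule.zero_mem _
        have hvV : v ∈ VV t y x m := hU hv
        obtain ⟨hv1, hv2, hv3⟩ := hvV
        rw [hH]
        unfold HH
        refine Submodule.mem_inf.2 ⟨?_, ?_⟩
        · rw [hmem g _ _ hg]
          have e1 : P ≠ 0 → (g.totalDegree : ℤ) + P.totalDegree ≤ 4 * m + 6 ∧
              ((g.degreeOf 1 : ℕ) : ℤ) + ((P.degreeOf 1 : ℕ) : ℤ) ≤ 2 * m + 1 := by
            intro h
            have h5 : v.1 ≠ 0 := by rw [hg1]; exact mul_ne_zero hg h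
            have h6 := (hmem v.1 _ _ h5).1 hv1
            rw [hg1, (hmul g P hg h).1, (hmul g P hg h).2] at h6
            push_cast at h6
            exact h6
          have e2 : R ≠ 0 → (g.totalDegree : ℤ) + R.totalDegree ≤ 4 * m + 5 ∧
              ((g.degreeOf 1 : ℕ) : ℤ) + ((R.degreeOf 1 : ℕ) : ℤ) ≤ 2 * m + 1 := by
            intro h
            have h5 : v.2 ≠ 0 := by rw [hg2]; exact mul_ne_zero hg h
            have h6 := (hmem v.2 _ _ h5).1 hv2
            rw [hg2, (hmul g R hg h).1, (hmul g R hg h).2] at h6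
            push_cast at h6
            exact h6
          constructor
          · rcases max_choice (tD R) (tD P - 1) with h | h
            · by_cases hR : R = 0
              · rw [hR, tD_zero] at h
                have hc' : c = -5 := by rw [hc, hR, tD_zero]; exact h
                omega
              · have hc' : c = R.totalDegree := by rw [hc, h, tD_ne hR]
                have := (e2 hR).1
                omega
            · by_cases hP : P = 0
              · rw [hP, tD_zero] at h
                have hc' : c = -5 - 1 := by rw [hc, hP, tD_zero]; exact h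
                omega
              · have hc' : c = P.totalDegree - 1 := by rw [hc, h, tD_ne hP]
                have := (e1 hP).1
                omega
          · rcases max_choice (yD P) (yD R) with h | h
            · by_cases hP : P = 0
              · have hc' : κ = -5 := by rw [hκ, h, hP, yD_zero]
                omega
              · have hc' : κ = ((P.degreeOf 1 : ℕ) : ℤ) := by rw [hκ, h, yD_ne hP]
                have := (e1 hP).2
                omega
            · by_cases hR : R = 0
              · have hc' : κ = -5 := by rw [hκ, h, hR, yD_zero]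
                omega
              · have hc' : κ = ((R.degreeOf 1 : ℕ) : ℤ) := by rw [hκ, h, yD_ne hR]
                have := (e2 hR).2
                omega
        · rw [Submodule.mem_iInf]
          intro i
          obtain ⟨-, -, -, hnm, -, -⟩ := hOrd K (pt t y i)
          by_contra hgi
          rcases hγ4 i with h | h
          · have h5 := hnm g R _ _ hgi h
            rw [← hg2] at h5
            have h6 : (m : ℤ) - γ i + (γ i + 1) - 1 = m := by ring
            rw [h6] at h5
            exact h5 (hv3 i).1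
          · have h5 := hnm g (P - C (x i) * R) _ _ hgi h
            have h6 : (m : ℤ) - γ i + (γ i + 2) - 1 = m + 1 := by ring
            rw [h6] at h5
            have h7 : g * (P - C (x i) * R) = v.1 - C (x i) * v.2 := by
              rw [hg1, hg2]; ring
            rw [h7] at h5
            exact h5 (hv3 i).2
    calc Module.finrank K U ≤ Module.finrank K (H.map (Th P R)) := Submodule.finrank_mono hsub
      _ ≤ Module.finrank K H := Submodule.finrank_map_le _ _

end Pool.Agent.MP5769ea
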