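import Pool.Agent.Lib.MP_5769ea_ag.Spec3

/-!
# MP_5769ea_ag, PlaneLoc: the local inequality for a plane curve
-/

set_option linter.unusedVariables false
set_option linter.unusedSectionVars false

open MvPolynomial

namespace Pool.Agent.MP5769ea

namespace PlaneLocAux

variable {K : Type} [Field K] [Algebra ℂ K] {v : Valuation K (WithZero (Multiplicative ℤ))}

theorem val_aeval_le (hc : ∀ c : ℂ, v (algebraMap ℂ K c) ≤ 1) (p : MvPolynomial (Fin 2) ℂ)
    (w : Fin 2 → K) (B : WithZero (Multiplicative ℤ))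
    (h : ∀ s ∈ p.support, v (w 0) ^ s 0 * v (w 1) ^ s 1 ≤ B) : v (aeval w p) ≤ B := by
  rw [aeval_def, eval₂_eq']
  refine Valuation.map_sum_le v (fun s hs => ?_)
  rw [map_mul, map_prod, Fin.prod_univ_two, map_pow, map_pow]
  calc v (algebraMap ℂ K (coeff s p)) * (v (w 0) ^ s 0 * v (w 1) ^ s 1)
      ≤ 1 * B := mul_le_mul' (hc _) (h s hs)
    _ = B := one_mul B

theorem val_const (hc : ∀ c : ℂ, v (algebraMap ℂ K c) ≤ 1) {c : ℂ} (h : c ≠ 0) :
    v (algebraMap ℂ K c) = 1 := by
  refine le_antisymm (hc c) ?_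
  have h0 : v (algebraMap ℂ K c) ≠ 0 := by
    rw [Valuation.ne_zero_iff]
    exact (map_ne_zero (algebraMap ℂ K)).2 h
  have h1 := hc c⁻¹
  rw [map_inv₀, map_inv₀] at h1
  exact (inv_le_one₀ (zero_lt_iff.2 h0)).1 h1

theorem aeval_shift (q : Fin 2 → ℂ) (w : Fin 2 → K) (G : MvPolynomial (Fin 2) ℂ) :
    aeval (fun i => w i - algebraMap ℂ K (q i)) (shift q G) = aeval w G := by
  unfold shift
  rw [← AlgHom.comp_apply]
  congr 1
  ext i
  simp

theorem le_sp {ι : Type} [Fintype ι] (v : Valuation K (WithZero (Multiplicative ℤ))) (w : ι → K)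
    (j : ι) : v (w j) ≤ Finset.univ.sup fun j => v (w j) :=
  Finset.le_sup (f := fun j => v (w j)) (Finset.mem_univ j)

end PlaneLocAux

open PlaneLocAux in
theorem PlaneLoc : S_PlaneLoc := by
  intro t y ht m G hG K _ _ v hvs hc θ η hz hGne
  set N : WithZero (Multiplicative ℤ) := Finset.univ.sup fun j => v (zz θ η j) with hN
  set N0 : WithZero (Multiplicative ℤ) := Finset.univ.sup fun j => v (zz0 θ j) with hN0
  set Ni : Fin 12 → WithZero (Multiplicative ℤ) := fun i =>
    Finset.univ.sup fun j => v (zz1 θ η (t i) (y i) j) with hNi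
  have eN : nrm v (zz θ η) = WithZero.log N := rfl
  have eN0 : nrm v (zz0 θ) = WithZero.log N0 := rfl
  have eNi : ∀ i, nrm v (zz1 θ η (t i) (y i)) = WithZero.log (Ni i) := fun i => rfl
  -- elementary facts on the norms
  have a1 : 1 ≤ N := by
    have h : v (1 : K) ≤ N := le_sp v (zz θ η) 0
    rwa [map_one] at h
  have a2 : v θ ≤ N := le_sp v (zz θ η) 1
  have a3 : v η ≤ N := le_sp v (zz θ η) 2
  have a4 : ∀ B : WithZero (Multiplicative ℤ), 1 ≤ B → v θ ≤ B → v η ≤ B → N ≤ B := by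
    intro B h1 h2 h3
    refine Finset.sup_le (fun j _ => ?_)
    fin_cases j
    · show v (1 : K) ≤ B
      rwa [map_one]
    · exact h2
    · exact h3
  have b1 : 1 ≤ N0 := by
    have h : v (1 : K) ≤ N0 := le_sp v (zz0 θ) 0
    rwa [map_one] at h
  have b2 : v θ ≤ N0 := le_sp v (zz0 θ) 1
  have b3 : N0 ≤ N := by
    refine Finset.sup_le (fun j _ => ?_)
    fin_cases j
    · show v (1 : K) ≤ N
      rwa [map_one]
    · exact a2
  have c1 : ∀ i, v (θ - algebraMap ℂ K (t i)) ≤ Ni i := fun i => le_sp v (zz1 θ η (t i) (y i)) 0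
  have c2 : ∀ i, v (η - algebraMap ℂ K (y i)) ≤ Ni i := fun i => le_sp v (zz1 θ η (t i) (y i)) 1
  have c5 : ∀ i, ∀ B : WithZero (Multiplicative ℤ), v (θ - algebraMap ℂ K (t i)) ≤ B →
      v (η - algebraMap ℂ K (y i)) ≤ B →
      v (θ * algebraMap ℂ K (y i) - η * algebraMap ℂ K (t i)) ≤ B → Ni i ≤ B := by
    intro i B h1 h2 h3
    refine Finset.sup_le (fun j _ => ?_)
    fin_cases j
    · exact h1
    · exact h2
    · exact h3
  have c3 : ∀ i, Ni i ≤ N := by
    intro i
    have h1 : v (θ - algebraMap ℂ K (t i)) ≤ N :=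
      (Valuation.map_sub v _ _).trans (max_le a2 ((hc _).trans a1))
    have h2 : v (η - algebraMap ℂ K (y i)) ≤ N :=
      (Valuation.map_sub v _ _).trans (max_le a3 ((hc _).trans a1))
    have h3 : v (θ * algebraMap ℂ K (y i) - η * algebraMap ℂ K (t i)) ≤ N := by
      refine (Valuation.map_sub v _ _).trans (max_le ?_ ?_)
      · rw [map_mul]
        exact (mul_le_of_le_one_right' (hc _)).trans a2
      · rw [map_mul]
        exact (mul_le_of_le_one_right' (hc _)).trans a3
    exact c5 i N h1 h2 h3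
  have c4 : ∀ i, Ni i ≠ 0 := by
    intro i h0
    apply hz i
    funext j
    have h1 : v (zz1 θ η (t i) (y i) j) ≤ Ni i := le_sp v (zz1 θ η (t i) (y i)) j
    rw [h0] at h1
    exact (Valuation.zero_iff v).1 (le_antisymm h1 zero_le)
  have hNne : N ≠ 0 := fun h => by rw [h] at a1; exact absurd a1 (by simp)
  have hN0ne : N0 ≠ 0 := fun h => by rw [h] at b1; exact absurd b1 (by simp)
  have hGv : v (aeval ![θ, η] G) ≠ 0 := (Valuation.ne_zero_iff v).2 hGne
  have hGPD : G ∈ PD ℂ (4 * m + 1) (2 * m) := (Submodule.mem_inf.1 hG).1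
  have hGo : ∀ i, G ∈ OrdGE (pt t y i) m := fun i =>
    (Submodule.mem_iInf _).1 (Submodule.mem_inf.1 hG).2 i
  have hw0 : (![θ, η] : Fin 2 → K) 0 = θ := rfl
  have hw1 : (![θ, η] : Fin 2 → K) 1 = η := rfl
  -- the general bound
  have hgen : v (aeval ![θ, η] G) ≤ N0 ^ (2 * m + 1) * N ^ (2 * m) := by
    refine val_aeval_le hc G _ _ (fun s hs => ?_)
    rw [hw0, hw1]
    have hs' := hGPD hs
    obtain ⟨e1, e2⟩ := hs'
    have e2' : s 1 ≤ 2 * m := by exact_mod_cast e2
    have e1' : s 0 + s 1 ≤ 4 * m + 1 := by exact_mod_cast e1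
    calc v θ ^ s 0 * v η ^ s 1 ≤ N0 ^ s 0 * N ^ s 1 :=
          mul_le_mul' (pow_le_pow_left' b2 _) (pow_le_pow_left' a3 _)
      _ ≤ N0 ^ (2 * m + 1 + (2 * m - s 1)) * N ^ s 1 :=
          mul_le_mul' (pow_le_pow_right₀ b1 (by omega)) le_rfl
      _ = N0 ^ (2 * m + 1) * (N0 ^ (2 * m - s 1) * N ^ s 1) := by rw [pow_add, mul_assoc]
      _ ≤ N0 ^ (2 * m + 1) * (N ^ (2 * m - s 1) * N ^ s 1) :=
          mul_le_mul' le_rfl (mul_le_mul' (pow_le_pow_left' b3 _) le_rfl)
      _ = N0 ^ (2 * m + 1) * N ^ (2 * m) := by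
          rw [← pow_add, Nat.sub_add_cancel e2']
  have hlog : WithZero.log (v (aeval ![θ, η] G)) ≤
      (2 * m + 1) * WithZero.log N0 + 2 * m * WithZero.log N := by
    have h1 := (WithZero.log_le_log hGv
      (mul_ne_zero (pow_ne_zero _ hN0ne) (pow_ne_zero _ hNne))).2 hgen
    rw [WithZero.log_mul (pow_ne_zero _ hN0ne) (pow_ne_zero _ hNne), WithZero.log_pow,
      WithZero.log_pow, nsmul_eq_mul, nsmul_eq_mul] at h1
    push_cast at h1
    exact h1
  rw [eN, eN0]
  simp only [eNi]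
  by_cases hall : ∀ i, Ni i = N
  · have h2 : ∑ i, (WithZero.log N - WithZero.log (Ni i)) = 0 :=
      Finset.sum_eq_zero (fun i _ => by rw [hall i, sub_self])
    rw [h2]
    linarith
  · push Not at hall
    obtain ⟨i, hi⟩ := hall
    have hlt : Ni i < N := lt_of_le_of_ne (c3 i) hi
    -- the norm is one
    have hNone : N = 1 := by
      refine le_antisymm (not_lt.1 fun hcon => ?_) a1
      have h3 := a4 (max (max 1 (v θ)) (v η)) ((le_max_left _ _).trans (le_max_left _ _))
        ((le_max_right _ _).trans (le_max_left _ _)) (le_max_right _ _)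
      rcases le_max_iff.1 h3 with h4 | h4
      · rcases le_max_iff.1 h4 with h5 | h5
        · exact absurd h5 (not_le.2 hcon)
        · have h6 : v (θ - algebraMap ℂ K (t i)) = v θ :=
            Valuation.map_sub_eq_of_lt_left v ((hc _).trans_lt (hcon.trans_le h5))
          exact absurd (h5.trans (h6 ▸ c1 i)) (not_le.2 hlt)
      · have h6 : v (η - algebraMap ℂ K (y i)) = v η :=
          Valuation.map_sub_eq_of_lt_left v ((hc _).trans_lt (hcon.trans_le h4))
        exact absurd (h4.trans (h6 ▸ c2 i)) (not_le.2 hlt)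
    have hN0one : N0 = 1 := le_antisymm (b3.trans hNone.le) b1
    have hi1 : Ni i < 1 := hNone ▸ hlt
    have hother : ∀ j, j ≠ i → Ni j = 1 := by
      intro j hj
      refine le_antisymm ((c3 j).trans hNone.le) ?_
      have hne : t j - t i ≠ 0 := sub_ne_zero.2 (ht j i hj)
      have h7 : v (algebraMap ℂ K (t j - t i)) = 1 := val_const hc hne
      have h8 : θ - algebraMap ℂ K (t j) =
          (θ - algebraMap ℂ K (t i)) - algebraMap ℂ K (t j - t i) := by
        rw [map_sub]; ring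
      have h9 : v (θ - algebraMap ℂ K (t j)) = 1 := by
        rw [h8, Valuation.map_sub_eq_of_lt_right v (((c1 i).trans_lt hi1).trans_eq h7.symm), h7]
      exact h9 ▸ c1 j
    have hsum : ∑ j, (WithZero.log N - WithZero.log (Ni j)) = -WithZero.log (Ni i) := by
      rw [Finset.sum_eq_single i]
      · rw [hNone, WithZero.log_one, zero_sub]
      · intro j _ hj
        rw [hNone, hother j hj, sub_self]
      · intro h
        exact absurd (Finset.mem_univ i) h
    have hG2 : v (aeval ![θ, η] G) ≤ Ni i ^ m := by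
      rw [← aeval_shift (pt t y i) ![θ, η] G]
      refine val_aeval_le hc _ _ _ (fun s hs => ?_)
      have h10 : (m : ℤ) ≤ ((s 0 + s 1 : ℕ) : ℤ) := hGo i hs
      have h11 : m ≤ s 0 + s 1 := by exact_mod_cast h10
      have h12 : v (![θ, η] 0 - algebraMap ℂ K (pt t y i 0)) ≤ Ni i := c1 i
      have h13 : v (![θ, η] 1 - algebraMap ℂ K (pt t y i 1)) ≤ Ni i := c2 i
      calc _ ≤ Ni i ^ s 0 * Ni i ^ s 1 :=
            mul_le_mul' (pow_le_pow_left' h12 _) (pow_le_pow_left' h13 _)
        _ = Ni i ^ (s 0 + s 1) := (pow_add _ _ _).symm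
        _ ≤ Ni i ^ m := pow_le_pow_right_of_le_one' hi1.le h11
    have hlog2 : WithZero.log (v (aeval ![θ, η] G)) ≤ m * WithZero.log (Ni i) := by
      have h1 := (WithZero.log_le_log hGv (pow_ne_zero _ (c4 i))).2 hG2
      rw [WithZero.log_pow, nsmul_eq_mul] at h1
      exact h1
    rw [hsum, hNone, hN0one, WithZero.log_one]
    linarith

end Pool.Agent.MP5769ea
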