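import Pool.Agent.Lib.MP_5769ea_ag.Spec3
import Pool.Agent.Lib.MP_5769ea_ag.Spec1

/-! # MP_5769ea_ag, PlaneNef -/

open MvPolynomial

namespace Pool.Agent.MP5769ea

namespace PlaneNefAux

/-- membership in `OrdGE` from the vanishing of finitely many coefficients -/
theorem ordGE_of_coeff (q : Fin 2 → ℂ) (m : ℕ) (F : MvPolynomial (Fin 2) ℂ)
    (h : ∀ (k : Fin m) (j : Fin (k + 1)),
      coeff (Finsupp.single 0 (j : ℕ) + Finsupp.single 1 ((k : ℕ) - j)) (shift q F) = 0) :
    F ∈ OrdGE q (m : ℤ) := by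
  show shift q F ∈ restrictSupport ℂ _
  rw [mem_restrictSupport_iff]
  intro s hs
  show (m : ℤ) ≤ ((s 0 + s 1 : ℕ) : ℤ)
  by_contra hlt
  push Not at hlt
  have hlt' : s 0 + s 1 < m := by exact_mod_cast hlt
  have h1 := h ⟨s 0 + s 1, hlt'⟩ ⟨s 0, by simp⟩
  have h2 : (Finsupp.single 0 (s 0) + Finsupp.single 1 (s 0 + s 1 - s 0) : Fin 2 →₀ ℕ) = s := by
    ext i
    fin_cases i
    · simp
    · simp
  simp only at h1
  rw [h2] at h1
  exact (mem_support_iff.1 hs) h1

/-- there are nonzero plane curves of class `m L_0 + f` -/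
theorem exists_curve (hR : S_PDRank) (t y : Fin 12 → ℂ) (m : ℕ) :
    ∃ G : MvPolynomial (Fin 2) ℂ, G ≠ 0 ∧
      G ∈ HH (pt t y) (4 * m + 1) (2 * m) (fun _ => (m : ℤ)) := by
  obtain ⟨hfin, -, hrank, -⟩ := hR ℂ
  have hr := hrank (4 * m + 1) (2 * m) (by omega)
  have := hfin ((4 * m + 1 : ℕ) : ℤ) ((2 * m : ℕ) : ℤ)
  let J : Type := Fin 12 × ((k : Fin m) × Fin (k + 1))
  let Φ : PD ℂ ((4 * m + 1 : ℕ) : ℤ) ((2 * m : ℕ) : ℤ) →ₗ[ℂ] (J → ℂ) :=
    { toFun := fun F j => coeff (Finsupp.single 0 (j.2.2 : ℕ) +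
        Finsupp.single 1 ((j.2.1 : ℕ) - j.2.2)) (shift (pt t y j.1) F.1)
      map_add' := by
        intro F G
        funext j
        simp
      map_smul' := by
        intro c F
        funext j
        simp }
  have hcard : 2 * Fintype.card J = 12 * (m * (m + 1)) := by
    have h1 : Fintype.card J = 12 * ∑ k : Fin m, ((k : ℕ) + 1) := by
      simp [J, Fintype.card_sigma]
    have h2 : (∑ k : Fin m, ((k : ℕ) + 1)) * 2 = m * (m + 1) := by
      rw [Fin.sum_univ_eq_sum_range (fun k => k + 1) m]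
      have := Finset.sum_range_id_mul_two (m + 1)
      rw [Finset.sum_range_succ' (fun i => i) m] at this
      simpa [mul_comm] using this
    rw [h1]
    linarith
  have hlt : Module.finrank ℂ (J → ℂ) <
      Module.finrank ℂ (PD ℂ ((4 * m + 1 : ℕ) : ℤ) ((2 * m : ℕ) : ℤ)) := by
    rw [Module.finrank_fintype_fun_eq_card]
    have h3 : (2 * (Fintype.card J : ℤ)) = 12 * (m * (m + 1)) := by exact_mod_cast hcard
    have h4 : (2 * (Fintype.card J : ℤ)) <
        2 * (Module.finrank ℂ (PD ℂ ((4 * m + 1 : ℕ) : ℤ) ((2 * m : ℕ) : ℤ)) : ℤ) := by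
      rw [hr, h3]
      push_cast
      nlinarith [Int.natCast_nonneg m]
    omega
  have hker := LinearMap.ker_ne_bot_of_finrank_lt hlt (f := Φ)
  obtain ⟨F, hF, hF0⟩ := (Submodule.ne_bot_iff _).1 hker
  refine ⟨F.1, fun h => hF0 (Subtype.ext h), ?_⟩
  have hF1 := LinearMap.mem_ker.1 hF
  rw [HH, Submodule.mem_inf, Submodule.mem_iInf]
  constructor
  · have := F.2
    push_cast at this
    exact this
  · intro i
    apply ordGE_of_coeff
    intro k j
    exact congrFun hF1 (i, ⟨k, j⟩)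

end PlaneNefAux

open PlaneNefAux

theorem PlaneNef (hLoc : S_PlaneLoc) (hProd : S_FFProd) (hBasic : S_FFBasic) (hR : S_PDRank) :
    S_PlaneNef := by
  intro t y hty Ω K _ _ _ _ _ _ _ hFF θ η hind
  have : CharZero Ω := charZero_of_injective_algebraMap (algebraMap ℂ Ω).injective
  obtain ⟨hpos, -, hsupp⟩ := hBasic Ω K hFF
  have hθ : ∀ c : ℂ, θ - algebraMap ℂ K c ≠ 0 := by
    intro c h0
    have h1 : aeval ![θ, η] (X 0 - C c : MvPolynomial (Fin 2) ℂ) = 0 := by
      simpa using h0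
    have h2 := (map_eq_zero_iff _ hind).1 h1
    have h3 := congrArg (eval (fun _ : Fin 2 => c + 1)) h2
    simp at h3
  have hz : zz θ η ≠ 0 := by
    intro h
    have := congrFun h 0
    simp [zz] at this
  have hz0 : zz0 θ ≠ 0 := by
    intro h
    have := congrFun h 0
    simp [zz0] at this
  have hz1 : ∀ i, zz1 θ η (t i) (y i) ≠ 0 := by
    intro i h
    have := congrFun h 0
    exact hθ (t i) (by simpa [zz1] using this)
  -- the main inequality
  have main : ∀ m : ℕ, 0 ≤ m * (4 * pdeg Ω (zz θ η) -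
      2 * (pdeg Ω (zz θ η) - pdeg Ω (zz0 θ)) -
      ∑ i, (pdeg Ω (zz θ η) - pdeg Ω (zz1 θ η (t i) (y i)))) + pdeg Ω (zz0 θ) := by
    intro m
    obtain ⟨G, hG0, hG⟩ := exists_curve hR t y m
    have hGne : aeval ![θ, η] G ≠ 0 := fun h => hG0 ((map_eq_zero_iff _ hind).1 h)
    obtain ⟨hfin, hsum⟩ := hProd Ω K hFF _ hGne
    have hf1 := hsupp (Fin 3) (zz θ η) hz
    have hf0 := hsupp (Fin 2) (zz0 θ) hz0
    have hfi := fun i => hsupp (Fin 3) (zz1 θ η (t i) (y i)) (hz1 i)
    have hfU : (⋃ i, Function.support fun v : Place Ω K => nrm v.1 (zz1 θ η (t i) (y i))).Finite :=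
      Set.finite_iUnion hfi
    classical
    let S : Finset (Place Ω K) := hfin.toFinset ∪ hf1.toFinset ∪ hf0.toFinset ∪ hfU.toFinset
    have e1 : pdeg Ω (zz θ η) = ∑ v ∈ S, nrm v.1 (zz θ η) := by
      apply finsum_eq_sum_of_support_subset
      intro v hv
      simp only [S, Finset.coe_union, Set.Finite.coe_toFinset]
      exact Or.inl (Or.inl (Or.inr hv))
    have e0 : pdeg Ω (zz0 θ) = ∑ v ∈ S, nrm v.1 (zz0 θ) := by
      apply finsum_eq_sum_of_support_subset
      intro v hv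
      simp only [S, Finset.coe_union, Set.Finite.coe_toFinset]
      exact Or.inl (Or.inr hv)
    have ei : ∀ i, pdeg Ω (zz1 θ η (t i) (y i)) = ∑ v ∈ S, nrm v.1 (zz1 θ η (t i) (y i)) := by
      intro i
      apply finsum_eq_sum_of_support_subset
      intro v hv
      simp only [S, Finset.coe_union, Set.Finite.coe_toFinset]
      exact Or.inr (Set.mem_iUnion.2 ⟨i, hv⟩)
    have eG : (0 : ℤ) = ∑ v ∈ S, WithZero.log (v.1 (aeval ![θ, η] G)) := by
      rw [← hsum]
      apply finsum_eq_sum_of_support_subset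
      intro v hv
      simp only [S, Finset.coe_union, Set.Finite.coe_toFinset]
      refine Or.inl (Or.inl (Or.inl ?_))
      intro h
      apply hv
      show WithZero.log (v.1 (aeval ![θ, η] G)) = 0
      rw [h]
      simp
    have hle : ∀ v ∈ S, WithZero.log (v.1 (aeval ![θ, η] G)) ≤
        (4 * m + 1) * nrm v.1 (zz θ η) - (2 * m + 1) * (nrm v.1 (zz θ η) - nrm v.1 (zz0 θ)) -
            m * ∑ i, (nrm v.1 (zz θ η) - nrm v.1 (zz1 θ η (t i) (y i))) := by
      intro v _
      apply hLoc t y hty m G hG K v.1 v.2.1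
      · intro c
        rw [IsScalarTower.algebraMap_apply ℂ Ω K]
        exact v.2.2 _
      · exact hz1
      · exact hGne
    have hS := Finset.sum_le_sum hle
    rw [← eG] at hS
    rw [Finset.sum_sub_distrib, Finset.sum_sub_distrib, ← Finset.mul_sum, ← Finset.mul_sum,
      ← Finset.mul_sum, Finset.sum_sub_distrib, Finset.sum_comm] at hS
    simp only [Finset.sum_sub_distrib] at hS
    simp only [← e1, ← e0, ← ei] at hS
    simp only [Finset.sum_sub_distrib]
    linarith
  by_contra hneg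
  push Not at hneg
  have h1 := main (pdeg Ω (zz0 θ) + 1).toNat
  have h2 : 0 ≤ pdeg Ω (zz0 θ) := hpos _ _ hz0
  rw [Int.toNat_of_nonneg (by omega)] at h1
  nlinarith

end Pool.Agent.MP5769ea
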