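import Pool.Agent.Lib.MP_5769ea_ag.Spec1

/-!
# MP_5769ea_ag, module PsiW
-/

open MvPolynomial

namespace Pool.Agent.MP5769ea

namespace PsiWAux

variable {K : Type} [Field K]

/-- the coefficients of `(X^2)^i (X^4 + X)^j` -/
theorem coeff_mono (i j N : ℕ) :
    ((((Polynomial.X : Polynomial K) ^ 2) ^ i) *
      (Polynomial.X ^ 4 + Polynomial.X) ^ j).coeff N =
      ∑ m ∈ Finset.range (j + 1), if N = 2 * i + 4 * m + (j - m) then (j.choose m : K) else 0 := by
  rw [add_pow, Finset.mul_sum, Polynomial.finsetSum_coeff]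
  refine Finset.sum_congr rfl fun m _ => ?_
  have h : (((Polynomial.X : Polynomial K) ^ 2) ^ i) *
      ((Polynomial.X ^ 4) ^ m * Polynomial.X ^ (j - m) * (j.choose m : Polynomial K)) =
      Polynomial.C (j.choose m : K) * Polynomial.X ^ (2 * i + 4 * m + (j - m)) := by
    rw [pow_add, pow_add, pow_mul, pow_mul, map_natCast]
    ring
  rw [h, Polynomial.coeff_C_mul_X_pow]

theorem psi_monomial (u : Fin 2 →₀ ℕ) (a : K) :
    psi K (monomial u a) = Polynomial.C a * (((Polynomial.X ^ 2) ^ (u 0)) *
      (Polynomial.X ^ 4 + Polynomial.X) ^ (u 1)) := by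
  unfold psi
  rw [aeval_monomial, Finsupp.prod_fintype _ _ (fun i => by rw [pow_zero]), Fin.prod_univ_two,
    Polynomial.algebraMap_eq]
  simp

theorem coeff_psi (F : MvPolynomial (Fin 2) K) (N : ℕ) :
    (psi K F).coeff N = ∑ u ∈ F.support, coeff u F *
      ∑ m ∈ Finset.range (u 1 + 1),
        if N = 2 * u 0 + 4 * m + (u 1 - m) then ((u 1).choose m : K) else 0 := by
  conv_lhs => rw [F.as_sum]
  rw [map_sum, Polynomial.finsetSum_coeff]
  refine Finset.sum_congr rfl fun u _ => ?_
  rw [psi_monomial, Polynomial.coeff_C_mul, coeff_mono]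

theorem psi_shift (q : Fin 2 → K) (F : MvPolynomial (Fin 2) K) :
    psi K F = aeval (fun i => psi K (X i) - Polynomial.C (q i)) (shift q F) := by
  have h : (psi K) = (aeval (fun i => psi K (X i) - Polynomial.C (q i))).comp (shift q) := by
    refine MvPolynomial.algHom_ext fun i => ?_
    rw [AlgHom.comp_apply]
    unfold shift
    rw [aeval_X, map_add, aeval_X, aeval_C, Polynomial.algebraMap_eq, sub_add_cancel]
  conv_lhs => rw [h]
  rfl

end PsiWAux

open PsiWAux in
theorem PsiW : S_PsiW := by
  intro K _ _ F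
  refine ⟨fun d μ hF => ?_, fun s g hF => ?_⟩
  · have hF' : ∀ u ∈ F.support, u 0 + u 1 ≤ d ∧ u 1 ≤ μ := by
      intro u hu
      have h1 := ((mem_restrictSupport_iff K).1 hF) hu
      have h2 : ((u 0 + u 1 : ℕ) : ℤ) ≤ (d : ℤ) ∧ ((u 1 : ℕ) : ℤ) ≤ (μ : ℤ) := h1
      omega
    refine ⟨?_, fun h1 => ?_, fun h2 => ?_⟩
    · rw [Polynomial.natDegree_le_iff_coeff_eq_zero]
      intro N hN
      rw [coeff_psi]
      refine Finset.sum_eq_zero fun u hu => ?_
      obtain ⟨h3, h4⟩ := hF' u hu
      rw [Finset.sum_eq_zero, mul_zero]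
      intro m hm
      rw [Finset.mem_range] at hm
      rw [if_neg (by omega)]
    · rw [coeff_psi]
      refine Finset.sum_eq_zero fun u hu => ?_
      obtain ⟨h3, h4⟩ := hF' u hu
      rw [Finset.sum_eq_zero, mul_zero]
      intro m hm
      rw [Finset.mem_range] at hm
      rw [if_neg (by omega)]
    · rw [coeff_psi, coeff_psi, Finset.mul_sum]
      refine Finset.sum_congr rfl fun u hu => ?_
      obtain ⟨h3, h4⟩ := hF' u hu
      rw [mul_left_comm]
      congr 1
      by_cases hu1 : u 1 = μ ∧ u 0 + u 1 = d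
      · obtain ⟨h5, h6⟩ := hu1
        have e1 : (∑ m ∈ Finset.range (u 1 + 1),
            if 2 * (d + μ) = 2 * u 0 + 4 * m + (u 1 - m) then ((u 1).choose m : K) else 0) =
            1 := by
          rw [Finset.sum_eq_single (u 1)]
          · rw [if_pos (by omega), Nat.choose_self, Nat.cast_one]
          · intro m hm hne
            rw [Finset.mem_range] at hm
            rw [if_neg (by omega)]
          · intro h
            exact absurd (Finset.mem_range.2 (Nat.lt_succ_self _)) h
        rw [e1, mul_one]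
        by_cases h7 : u 1 = 0
        · rw [Finset.sum_eq_zero, ← h5, h7, Nat.cast_zero]
          intro m hm
          rw [Finset.mem_range] at hm
          rw [if_neg (by omega)]
        · rw [Finset.sum_eq_single (u 1 - 1)]
          · rw [if_pos (by omega), ← h5]
            obtain ⟨k, hk⟩ : ∃ k, u 1 = k + 1 := ⟨u 1 - 1, by omega⟩
            rw [hk, Nat.add_sub_cancel, Nat.choose_succ_self_right]
          · intro m hm hne
            rw [Finset.mem_range] at hm
            rw [if_neg (by omega)]
          · intro h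
            exact absurd (Finset.mem_range.2 (by omega)) h
      · rw [Finset.sum_eq_zero, Finset.sum_eq_zero, mul_zero]
        · intro m hm
          rw [Finset.mem_range] at hm
          rw [if_neg (by omega)]
        · intro m hm
          rw [Finset.mem_range] at hm
          rw [if_neg (by omega)]
  · rw [psi_shift ![s ^ 2, s ^ 4 + s] F, aeval_def, eval₂_eq']
    refine Finset.dvd_sum fun u hu => ?_
    have h1 : ((g : ℤ)) ≤ ((u 0 + u 1 : ℕ) : ℤ) := by
      have h2 : shift ![s ^ 2, s ^ 4 + s] F ∈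
          restrictSupport K {s | (g : ℤ) ≤ ((s 0 + s 1 : ℕ) : ℤ)} := hF
      exact ((mem_restrictSupport_iff K).1 h2) hu
    have h3 : g ≤ u 0 + u 1 := by omega
    refine Dvd.dvd.mul_left ?_ _
    refine (pow_dvd_pow _ h3).trans ?_
    rw [Fin.prod_univ_two, pow_add]
    have hX0 : (psi K (X 0) : Polynomial K) = Polynomial.X ^ 2 := by
      unfold psi; rw [aeval_X]; simp
    have hX1 : (psi K (X 1) : Polynomial K) = Polynomial.X ^ 4 + Polynomial.X := by
      unfold psi; rw [aeval_X]; simp
    refine mul_dvd_mul (pow_dvd_pow_of_dvd ?_ _) (pow_dvd_pow_of_dvd ?_ _)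
    · rw [hX0]
      refine ⟨Polynomial.X + Polynomial.C s, ?_⟩
      simp only [Matrix.cons_val_zero, map_pow]
      ring
    · rw [hX1]
      refine ⟨(Polynomial.X + Polynomial.C s) * (Polynomial.X ^ 2 + Polynomial.C s ^ 2) + 1, ?_⟩
      simp only [Matrix.cons_val_one, Matrix.cons_val_zero, map_add, map_pow]
      ring

end Pool.Agent.MP5769ea
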