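import Pool.Agent.Lib.MP_5769ea_ag.Spec1

/-!
# MP_5769ea_ag, module QA3
-/

open MvPolynomial

namespace Pool.Agent.MP5769ea

namespace QA3Aux

variable {K : Type} [Field K]

theorem HH_le_PD {N : ℕ} (q : Fin N → Fin 2 → K) (d μ : ℤ) (g : Fin N → ℤ) :
    HH q d μ g ≤ PD K d μ := inf_le_left

theorem finrank_HH_le (hR : S_PDRank) {N : ℕ} (q : Fin N → Fin 2 → K) (d μ : ℤ)
    (g : Fin N → ℤ) :
    Module.finrank K (HH q d μ g) ≤ Module.finrank K (PD K d μ) := by
  have := (hR K).1 d μ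
  exact Submodule.finrank_mono (HH_le_PD q d μ g)

theorem finrank_HH_zero (hR : S_PDRank) {N : ℕ} (q : Fin N → Fin 2 → K) (d μ : ℤ)
    (g : Fin N → ℤ) (h : d < 0 ∨ μ < 0) : Module.finrank K (HH q d μ g) = 0 := by
  have h1 := finrank_HH_le hR q d μ g
  rw [(hR K).2.1 d μ h, finrank_bot] at h1
  omega

theorem psi_map [CharZero K] (G : MvPolynomial (Fin 2) ℚ) :
    psi K (MvPolynomial.map (algebraMap ℚ K) G) =
      Polynomial.map (algebraMap ℚ K) (psi ℚ G) := by
  induction G using MvPolynomial.induction_on with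
  | C a =>
    rw [MvPolynomial.map_C]
    unfold psi
    rw [aeval_C, aeval_C, Polynomial.algebraMap_eq, Polynomial.algebraMap_eq, Polynomial.map_C]
  | add p q hp hq => rw [map_add, map_add, map_add, Polynomial.map_add, hp, hq]
  | mul_X p i hp =>
    rw [map_mul, map_mul, map_mul, Polynomial.map_mul, hp, MvPolynomial.map_X]
    congr 1
    unfold psi
    rw [aeval_X, aeval_X]
    fin_cases i <;> simp

theorem psi_mem_span [CharZero K] {d μ : ℤ} {F : MvPolynomial (Fin 2) K} (hF : F ∈ PD K d μ) :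
    psi K F ∈ Submodule.span K (Polynomial.map (algebraMap ℚ K) ''
      (((PD ℚ d μ).map (psi ℚ).toLinearMap : Submodule ℚ (Polynomial ℚ)) :
        Set (Polynomial ℚ))) := by
  rw [F.as_sum, map_sum]
  refine Submodule.sum_mem _ fun s hs => ?_
  have h1 : (monomial s (coeff s F) : MvPolynomial (Fin 2) K) =
      coeff s F • MvPolynomial.map (algebraMap ℚ K) (monomial s (1 : ℚ)) := by
    rw [MvPolynomial.map_monomial, MvPolynomial.smul_monomial, map_one, smul_eq_mul, mul_one]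
  rw [h1, map_smul, psi_map]
  refine Submodule.smul_mem _ _ (Submodule.subset_span ⟨psi ℚ (monomial s 1), ?_, rfl⟩)
  refine ⟨monomial s 1, ?_, rfl⟩
  have h2 := ((mem_restrictSupport_iff K).1 hF) hs
  show _ ∈ restrictSupport ℚ _
  rw [mem_restrictSupport_iff]
  intro u hu
  rw [Finset.mem_coe] at hu
  have h3 := MvPolynomial.support_monomial_subset hu
  rw [Finset.mem_singleton] at h3
  rw [h3]
  exact h2

theorem psi_inj (hB : S_PDBasic) (hQ : S_QKer) [CharZero K] {d μ : ℤ} (hμ : μ ≤ 1)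
    {F : MvPolynomial (Fin 2) K} (hF : F ∈ PD K d μ) (h0 : psi K F = 0) : F = 0 := by
  by_contra hne
  obtain ⟨G, hG⟩ := ((hQ K).1 F).1 h0
  have hG0 : G ≠ 0 := by
    rintro rfl
    exact hne (by rw [hG, mul_zero])
  have h1 := ((hB K).2.2 (Qp K) G (hQ K).2.1.ne_zero hG0).2
  rw [← hG, (hQ K).2.2.2.1] at h1
  have h2 := (((hB K).1 F d μ hne).1 hF).2
  omega

theorem bound (hB : S_PDBasic) (hR : S_PDRank) (hQ : S_QKer) (hP : S_PsiW) (hW : S_Wro)
    [CharZero K] (s : Fin 12 → K) (hs : AlgebraicIndependent ℚ s) (d μ : ℤ) (hμ : μ ≤ 1)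
    (g : Fin 12 → ℤ) :
    Module.finrank K (HH (sp s) d μ g) ≤
      Module.finrank ℚ (PD ℚ d μ) - ∑ i, (if 1 ≤ g i then 1 else 0) := by
  have hfQ := (hR ℚ).1 d μ
  have hfK := (hR K).1 d μ
  set V : Submodule ℚ (Polynomial ℚ) := (PD ℚ d μ).map (psi ℚ).toLinearMap with hV
  set f : HH (sp s) d μ g →ₗ[K] Polynomial K :=
    (psi K).toLinearMap.domRestrict (HH (sp s) d μ g) with hf
  have hinj : Function.Injective f := by
    rw [injective_iff_map_eq_zero]
    rintro ⟨F, hF⟩ h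
    have h' : psi K F = 0 := h
    exact Subtype.ext (psi_inj hB hQ hμ (HH_le_PD _ _ _ _ hF) h')
  have hfV : FiniteDimensional ℚ V := by
    rw [hV]; infer_instance
  have h1 := hW K 12 s hs V (fun i => if 1 ≤ g i then 1 else 0) (LinearMap.range f) ?_ ?_
  · rw [LinearMap.finrank_range_of_inj hinj] at h1
    refine h1.trans (Nat.sub_le_sub_right ?_ _)
    exact Submodule.finrank_map_le _ _
  · rintro _ ⟨⟨F, hF⟩, rfl⟩ i
    show _ ∣ psi K F
    by_cases hi : 1 ≤ g i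
    · rw [if_pos hi]
      refine (hP K F).2 (s i) 1 ?_
      have h2 : F ∈ ⨅ i, OrdGE (sp s i) (g i) := (Submodule.mem_inf.1 hF).2
      have h3 : F ∈ OrdGE (sp s i) (g i) := (Submodule.mem_iInf _).1 h2 i
      unfold OrdGE at h3 ⊢
      rw [Submodule.mem_comap, mem_restrictSupport_iff] at h3 ⊢
      intro u hu
      have h4 := h3 hu
      have h5 : g i ≤ ((u 0 + u 1 : ℕ) : ℤ) := h4
      show (((1 : ℕ) : ℤ)) ≤ ((u 0 + u 1 : ℕ) : ℤ)
      push_cast at h5 ⊢
      omega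
    · rw [if_neg hi, pow_zero]
      exact one_dvd _
  · rintro _ ⟨⟨F, hF⟩, rfl⟩
    exact psi_mem_span (HH_le_PD _ _ _ _ hF)

theorem core (hB : S_PDBasic) (hR : S_PDRank) (hQ : S_QKer) (hP : S_PsiW) (hW : S_Wro)
    (hS : S_QStep) [CharZero K] (s : Fin 12 → K) (hs : AlgebraicIndependent ℚ s)
    (c κ : ℤ) (γ : Fin 12 → ℤ) (hc : -1 ≤ c) (hκ : 0 ≤ κ) (hγ : ∀ i, -1 ≤ γ i)
    (he : 5 ≤ 2 * c + 2 * κ - ∑ i, γ i) (m : ℕ) :
    ∀ (d μ : ℤ) (g : Fin 12 → ℤ), d = 4 * (m : ℤ) + 5 - c → μ = 2 * (m : ℤ) + 1 - κ →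
      (∀ i, g i = (m : ℤ) - γ i) →
      (Module.finrank K (HH (sp s) d μ g) : ℤ) ≤ 6 * ((m : ℤ) + 1) := by
  induction m with
  | zero =>
    intro d μ g hd hμ hg
    rw [Nat.cast_zero] at hd hμ hg ⊢
    -- the number of conditions
    have hn : -∑ i, γ i ≤ ((∑ i : Fin 12, (if 1 ≤ g i then 1 else 0) : ℕ) : ℤ) := by
      rw [← Finset.sum_neg_distrib]
      push_cast
      refine Finset.sum_le_sum fun i _ => ?_
      have h1 := hγ i
      have h2 := hg i
      split_ifs <;> omega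
    by_cases hκ2 : 2 ≤ κ
    · have := finrank_HH_zero hR (sp s) d μ g (Or.inr (by omega))
      omega
    by_cases hd0 : d < 0
    · have := finrank_HH_zero hR (sp s) d μ g (Or.inl hd0)
      omega
    have hb := bound hB hR hQ hP hW s hs d μ (by omega) g
    obtain ⟨D, rfl⟩ := Int.eq_ofNat_of_zero_le (not_lt.1 hd0)
    by_cases hκ1 : κ = 1
    · have hμ0 : μ = ((0 : ℕ) : ℤ) := by
        rw [Nat.cast_zero]; omega
      subst hμ0
      have h1 := (hR ℚ).2.2.1 D 0 (Nat.zero_le _)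
      omega
    · have hμ1 : μ = ((1 : ℕ) : ℤ) := by
        rw [Nat.cast_one]; omega
      subst hμ1
      by_cases hD0 : D = 0
      · subst hD0
        have h1 := (hR ℚ).2.2.1 0 0 (le_refl _)
        have h2 := (hR ℚ).2.2.2 ((0 : ℕ) : ℤ) ((1 : ℕ) : ℤ) (by norm_num)
        rw [h2] at hb
        omega
      · have h1 := (hR ℚ).2.2.1 D 1 (by omega)
        omega
  | succ n ih =>
    intro d μ g hd hμ hg
    rw [Nat.cast_succ] at hd hμ hg ⊢
    by_cases hneg : d < 0 ∨ μ < 0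
    · have := finrank_HH_zero hR (sp s) d μ g hneg
      omega
    push Not at hneg
    obtain ⟨D, rfl⟩ := Int.eq_ofNat_of_zero_le hneg.1
    obtain ⟨M, rfl⟩ := Int.eq_ofNat_of_zero_le hneg.2
    by_cases hs1 : (D = 0 ∧ M = 0) ∨ (D = 1 ∧ M = 0)
    · have h1 := finrank_HH_le hR (sp s) D M g
      have h2 := (hR K).2.2.1 D M (by omega)
      rcases hs1 with ⟨rfl, rfl⟩ | ⟨rfl, rfl⟩
      · omega
      · omega
    · push Not at hs1
      have h1 := hS K 12 s hs D M g (fun h => hs1.1 h.1 h.2) (fun h => hs1.2 h.1 h.2)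
      have h0 := ih ((D : ℤ) - 4) ((M : ℤ) - 2) (fun i => g i - 1) (by rw [hd]; ring)
        (by rw [hμ]; ring) (fun i => by rw [hg i]; ring)
      have h2 : ∑ i : Fin 12, g i ≤ ∑ i : Fin 12, max (g i) 0 :=
        Finset.sum_le_sum fun i _ => le_max_left _ _
      have h3 : ∑ i : Fin 12, g i = 12 * ((n : ℤ) + 1) - ∑ i, γ i := by
        rw [Finset.sum_congr rfl fun i _ => hg i, Finset.sum_sub_distrib, Finset.sum_const,
          Finset.card_univ, Fintype.card_fin]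
        simp
      have h4 : max 0 (2 * (D : ℤ) + 2 * M - 1 - ∑ i : Fin 12, max (g i) 0) ≤ 6 := by
        refine max_le (by norm_num) ?_
        rw [hd, hμ]
        linarith
      linarith

end QA3Aux

open QA3Aux in
theorem QA3 (hB : S_PDBasic) (hR : S_PDRank) (_hO : S_OrdBasic) (hQ : S_QKer) (hP : S_PsiW)
    (hW : S_Wro) (hS : S_QStep) : S_QA3 := by
  intro K _ _ s hs m c κ γ hc hκ hγ he
  have h := core hB hR hQ hP hW hS s hs c κ γ hc hκ hγ he m _ _ (fun i => (m : ℤ) - γ i)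
    rfl rfl (fun _ => rfl)
  exact_mod_cast h

end Pool.Agent.MP5769ea
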