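import Pool.Agent.Lib.MP_5769ea_ag.Spec1

/-!
# MP_5769ea_ag: the kernel of the restriction to the rational quartic
-/

set_option autoImplicit false

open MvPolynomial

namespace Pool.Agent.MP5769ea

namespace QKerAux

variable {K : Type} [Field K]

/-- `u = y - t^2` -/
noncomputable def u (K : Type) [Field K] : MvPolynomial (Fin 2) K := X 1 - X 0 ^ 2

theorem Qp_eq : Qp K = u K ^ 2 - X 0 := rfl

theorem psi_X0 : psi K (X 0) = Polynomial.X ^ 2 := by simp [psi]

theorem psi_X1 : psi K (X 1) = Polynomial.X ^ 4 + Polynomial.X := by simp [psi]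

theorem psi_Qp : psi K (Qp K) = 0 := by
  unfold Qp
  simp only [map_sub, map_pow, psi_X0, psi_X1]
  ring

theorem congr_psi (F : MvPolynomial (Fin 2) K) :
    Ideal.Quotient.mk (Ideal.span {Qp K}) F =
      Ideal.Quotient.mk (Ideal.span {Qp K}) (Polynomial.aeval (u K) (psi K F)) := by
  have h : (Ideal.Quotient.mkₐ K (Ideal.span {Qp K})) =
      ((Ideal.Quotient.mkₐ K (Ideal.span {Qp K})).comp (Polynomial.aeval (u K))).comp (psi K) := by
    have hu : Ideal.Quotient.mk (Ideal.span {Qp K}) (X 0) =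
        Ideal.Quotient.mk (Ideal.span {Qp K}) (u K ^ 2) := by
      rw [Ideal.Quotient.eq]
      have : X 0 - u K ^ 2 = - Qp K := by rw [Qp_eq]; ring
      rw [this]
      exact neg_mem (Ideal.mem_span_singleton_self _)
    apply MvPolynomial.algHom_ext
    intro i
    fin_cases i
    · show Ideal.Quotient.mk _ (X 0) = Ideal.Quotient.mk _ (Polynomial.aeval (u K) (psi K (X 0)))
      rw [psi_X0, map_pow, Polynomial.aeval_X]
      exact hu
    · show Ideal.Quotient.mk _ (X 1) = Ideal.Quotient.mk _ (Polynomial.aeval (u K) (psi K (X 1)))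
      rw [psi_X1, map_add, map_pow, Polynomial.aeval_X]
      have h1 : (X 1 : MvPolynomial (Fin 2) K) = u K + X 0 ^ 2 := by unfold u; ring
      rw [h1, map_add, map_add, map_pow (Ideal.Quotient.mk _) (X 0), hu]
      rw [← map_pow, ← map_add, ← map_add]
      congr 1
      ring
  exact congrArg (fun φ => φ F) h

theorem psi_eq_zero_iff (F : MvPolynomial (Fin 2) K) : psi K F = 0 ↔ Qp K ∣ F := by
  constructor
  · intro h
    have h1 := congr_psi F
    rw [h, map_zero, map_zero, Ideal.Quotient.eq_zero_iff_mem, Ideal.mem_span_singleton] at h1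
    exact h1
  · rintro ⟨G, rfl⟩
    rw [map_mul, psi_Qp, zero_mul]

theorem Qp_ne_zero : Qp K ≠ 0 := by
  intro h
  have h1 : eval (![(-1 : K), 1] : Fin 2 → K) (Qp K) = 0 := by rw [h, map_zero]
  unfold Qp at h1
  simp at h1

theorem prime_Qp : Prime (Qp K) := by
  rw [← Ideal.span_singleton_prime Qp_ne_zero]
  have h : Ideal.span {Qp K} = RingHom.ker (psi K) := by
    ext F
    rw [Ideal.mem_span_singleton, RingHom.mem_ker, psi_eq_zero_iff]
  rw [h]
  exact RingHom.ker_isPrime (psi K)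

theorem expand : Qp K = X 1 ^ 2 - C 2 * (X 1 * X 0 ^ 2) + X 0 ^ 4 - X 0 := by
  unfold Qp
  have : (C 2 : MvPolynomial (Fin 2) K) = 2 := map_ofNat C 2
  rw [this]
  ring

theorem coeff04 : coeff (Finsupp.single 0 4) (Qp K) = 1 := by
  rw [expand]
  simp only [coeff_sub, coeff_add, coeff_C_mul, coeff_X_pow, coeff_X, coeff_X_mul']
  have h1 : (Finsupp.single (1 : Fin 2) 2 : Fin 2 →₀ ℕ) ≠ Finsupp.single 0 4 := by
    intro h
    have := DFunLike.congr_fun h 0
    simp at this
  have h2 : (1 : Fin 2) ∉ (Finsupp.single (0 : Fin 2) 4 : Fin 2 →₀ ℕ).support := by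
    simp
  have h3 : (Finsupp.single (0 : Fin 2) 1 : Fin 2 →₀ ℕ) ≠ Finsupp.single 0 4 := by
    intro h
    have := DFunLike.congr_fun h 0
    simp at this
  rw [if_neg h1, if_neg h2, if_neg h3]
  simp

theorem coeff12 : coeff (Finsupp.single 1 2) (Qp K) = 1 := by
  rw [expand]
  simp only [coeff_sub, coeff_add, coeff_C_mul, coeff_X_pow, coeff_X, coeff_X_mul']
  have h1 : (Finsupp.single (0 : Fin 2) 4 : Fin 2 →₀ ℕ) ≠ Finsupp.single 1 2 := by
    intro h
    have := DFunLike.congr_fun h 0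
    simp at this
  have h2 : (Finsupp.single (0 : Fin 2) 2 : Fin 2 →₀ ℕ) ≠
      Finsupp.single (1 : Fin 2) 2 - Finsupp.single 1 1 := by
    intro h
    have := DFunLike.congr_fun h 0
    simp at this
  have h3 : (Finsupp.single (0 : Fin 2) 1 : Fin 2 →₀ ℕ) ≠ Finsupp.single 1 2 := by
    intro h
    have := DFunLike.congr_fun h 0
    simp at this
  rw [if_neg h1, if_neg h2, if_neg h3]
  simp

theorem totalDegree_Qp : (Qp K).totalDegree = 4 := by
  apply le_antisymm
  · unfold Qp
    refine (totalDegree_sub _ _).trans (max_le ?_ ?_)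
    · refine (totalDegree_pow _ _).trans ?_
      have h : (X 1 - X 0 ^ 2 : MvPolynomial (Fin 2) K).totalDegree ≤ 2 := by
        refine (totalDegree_sub _ _).trans (max_le ?_ ?_)
        · rw [totalDegree_X]; norm_num
        · rw [totalDegree_X_pow]
      omega
    · rw [totalDegree_X]; norm_num
  · have h1 : (Finsupp.single (0 : Fin 2) 4 : Fin 2 →₀ ℕ) ∈ (Qp K).support := by
      rw [mem_support_iff, coeff04]
      exact one_ne_zero
    have h2 := le_totalDegree h1
    rwa [Finsupp.sum_single_index rfl] at h2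

theorem degreeOf_Qp : (Qp K).degreeOf 1 = 2 := by
  apply le_antisymm
  · unfold Qp
    refine (degreeOf_sub_le _ _ _).trans (max_le ?_ ?_)
    · refine (degreeOf_pow_le _ _ _).trans ?_
      have h : (X 1 - X 0 ^ 2 : MvPolynomial (Fin 2) K).degreeOf 1 ≤ 1 := by
        refine (degreeOf_sub_le _ _ _).trans (max_le ?_ ?_)
        · rw [degreeOf_X]; simp
        · refine (degreeOf_pow_le _ _ _).trans ?_
          rw [degreeOf_X]; simp
      omega
    · rw [degreeOf_X]; simp
  · have h1 : (Finsupp.single (1 : Fin 2) 2 : Fin 2 →₀ ℕ) ∈ (Qp K).support := by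
      rw [mem_support_iff, coeff12]
      exact one_ne_zero
    have h2 := monomial_le_degreeOf 1 h1
    simpa using h2

theorem mem_OrdGE_one (q : Fin 2 → K) (F : MvPolynomial (Fin 2) K) (h : eval q F = 0) :
    F ∈ OrdGE q 1 := by
  unfold OrdGE
  rw [Submodule.mem_comap, mem_restrictSupport_iff]
  intro m hm
  rw [Finset.mem_coe, mem_support_iff] at hm
  show (1 : ℤ) ≤ ((m 0 + m 1 : ℕ) : ℤ)
  by_contra hlt
  have h0 : m = 0 := by
    ext i
    have h1 : m 0 + m 1 = 0 := by omega
    fin_cases i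
    · show m 0 = 0
      omega
    · show m 1 = 0
      omega
  apply hm
  rw [h0]
  have h2 : coeff 0 (shift q F) = eval (0 : Fin 2 → K) (shift q F) := by
    rw [← constantCoeff_eq, ← MvPolynomial.eval_zero]
  have h3 : eval (0 : Fin 2 → K) (shift q F) = eval q F := by
    have h4 : ((aeval (0 : Fin 2 → K)).comp (shift q) : MvPolynomial (Fin 2) K →ₐ[K] K) =
        aeval q := by
      apply MvPolynomial.algHom_ext
      intro i
      simp [shift]
    have h5 := congrArg (fun φ => φ F) h4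
    simpa [MvPolynomial.coe_aeval_eq_eval] using h5
  show coeff 0 (shift q F) = 0
  rw [h2, h3, h]

theorem line_dvd (q v : Fin 2 → K) (g : ℕ) (F : MvPolynomial (Fin 2) K) (h : F ∈ OrdGE q g) :
    Polynomial.X ^ g ∣
      aeval (fun i => Polynomial.C (v i) * Polynomial.X + Polynomial.C (q i)) F := by
  unfold OrdGE at h
  rw [Submodule.mem_comap, mem_restrictSupport_iff] at h
  have h1 : aeval (fun i => Polynomial.C (v i) * Polynomial.X + Polynomial.C (q i)) F =
      aeval (fun i => Polynomial.C (v i) * Polynomial.X) (shift q F) := by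
    have h4 : aeval (fun i => Polynomial.C (v i) * Polynomial.X + Polynomial.C (q i)) =
        ((aeval (fun i => Polynomial.C (v i) * Polynomial.X)).comp (shift q) :
          MvPolynomial (Fin 2) K →ₐ[K] Polynomial K) := by
      apply MvPolynomial.algHom_ext
      intro i
      simp [shift]
    exact congrArg (fun φ => φ F) h4
  rw [h1, aeval_def, eval₂_eq']
  refine Finset.dvd_sum fun m hm => Dvd.dvd.mul_left ?_ _
  have h2 : (g : ℤ) ≤ ((m 0 + m 1 : ℕ) : ℤ) := h hm
  have h3 : g ≤ m 0 + m 1 := by omega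
  rw [Fin.prod_univ_two, mul_pow, mul_pow]
  have h4 : Polynomial.C (v 0) ^ m 0 * Polynomial.X ^ m 0 *
      (Polynomial.C (v 1) ^ m 1 * Polynomial.X ^ m 1) =
      Polynomial.X ^ (m 0 + m 1) * (Polynomial.C (v 0) ^ m 0 * Polynomial.C (v 1) ^ m 1) := by
    rw [pow_add]; ring
  rw [h4]
  exact Dvd.dvd.mul_right (pow_dvd_pow _ h3) _

theorem coeff_one_of_dvd {a : K} {p r : Polynomial K}
    (hp : p = Polynomial.C a * Polynomial.X + Polynomial.X ^ 2 * r)
    (h : Polynomial.X ^ 2 ∣ p) : a = 0 := by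
  have h1 := (Polynomial.X_pow_dvd_iff.1 h) 1 (by norm_num)
  have h2 := (Polynomial.X_pow_dvd_iff.1 (Dvd.intro r rfl : Polynomial.X ^ 2 ∣
    Polynomial.X ^ 2 * r)) 1 (by norm_num)
  rw [hp, Polynomial.coeff_add, h2, Polynomial.coeff_C_mul, Polynomial.coeff_X_one] at h1
  simpa using h1

theorem notMem_two [CharZero K] (s : K) :
    Qp K ∉ OrdGE (![s ^ 2, s ^ 4 + s] : Fin 2 → K) 2 := by
  intro h
  have h0 := line_dvd (![s ^ 2, s ^ 4 + s] : Fin 2 → K) ![1, 0] 2 (Qp K) h
  have h1 := line_dvd (![s ^ 2, s ^ 4 + s] : Fin 2 → K) ![0, 1] 2 (Qp K) h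
  have e0 : aeval (fun i => Polynomial.C ((![1, 0] : Fin 2 → K) i) * Polynomial.X +
      Polynomial.C ((![s ^ 2, s ^ 4 + s] : Fin 2 → K) i)) (Qp K) =
      Polynomial.C (-4 * s ^ 3 - 1) * Polynomial.X + Polynomial.X ^ 2 *
        (Polynomial.X ^ 2 + 4 * Polynomial.C s ^ 2 * Polynomial.X + 4 * Polynomial.C s ^ 4 -
          2 * Polynomial.C s) := by
    unfold Qp
    have h4 : (Polynomial.C (-4 : K)) = -4 := by
      rw [map_neg]
      congr 1
    simp only [map_sub, map_pow, aeval_X, Matrix.cons_val_zero, Matrix.cons_val_one, map_one,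
      map_zero, map_add, map_mul, h4]
    ring
  have e1 : aeval (fun i => Polynomial.C ((![0, 1] : Fin 2 → K) i) * Polynomial.X +
      Polynomial.C ((![s ^ 2, s ^ 4 + s] : Fin 2 → K) i)) (Qp K) =
      Polynomial.C (2 * s) * Polynomial.X + Polynomial.X ^ 2 * 1 := by
    unfold Qp
    have h4 : (Polynomial.C (2 : K)) = 2 := rfl
    simp only [map_sub, map_pow, aeval_X, Matrix.cons_val_zero, Matrix.cons_val_one, map_one,
      map_zero, map_add, map_mul, h4]
    ring
  have a0 := coeff_one_of_dvd e0 h0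
  have a1 := coeff_one_of_dvd e1 h1
  have hs : s = 0 := by
    rcases mul_eq_zero.1 a1 with h2 | h2
    · exact absurd h2 two_ne_zero
    · exact h2
  rw [hs] at a0
  norm_num at a0

theorem mem_one (s : K) : Qp K ∈ OrdGE (![s ^ 2, s ^ 4 + s] : Fin 2 → K) 1 := by
  apply mem_OrdGE_one
  unfold Qp
  simp only [map_sub, map_pow, eval_X, Matrix.cons_val_zero, Matrix.cons_val_one]
  ring

end QKerAux

theorem QKer : S_QKer := by
  intro K _ _
  exact ⟨QKerAux.psi_eq_zero_iff, QKerAux.prime_Qp, QKerAux.totalDegree_Qp,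
    QKerAux.degreeOf_Qp, fun s => ⟨QKerAux.mem_one s, QKerAux.notMem_two s⟩⟩

end Pool.Agent.MP5769ea
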