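import Pool.Agent.Lib.MP_5769ea_ag.QStep

/-!
# MP_5769ea_ag: nefness of the restriction to the quartic
-/

open MvPolynomial

namespace Pool.Agent.MP5769ea

open QStepAux in
theorem QNef (hPD : S_PDBasic) (hRank : S_PDRank) (hOrd : S_OrdBasic) (hQ : S_QKer)
    (hPsi : S_PsiW) : S_QNef := by
  intro K _ _ s hs
  obtain ⟨-, hbot, -, -⟩ := hRank K
  have key : ∀ (n : ℕ) (d μ : ℤ) (g : Fin 12 → ℤ) (F : MvPolynomial (Fin 2) K), d < n → F ≠ 0 →
      F ∈ HH (sp s) d μ g → ∑ i, g i ≤ 2 * d + 2 * μ := by
    intro n
    induction n with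
    | zero =>
      intro d μ g F hd hF hFH
      exfalso
      have h1 := (Submodule.mem_inf.1 hFH).1
      rw [hbot d μ (Or.inl (by simpa using hd))] at h1
      exact hF ((Submodule.mem_bot K).1 h1)
    | succ n ih =>
      intro d μ g F hd hF hFH
      have h1 := (Submodule.mem_inf.1 hFH).1
      have h2 := (Submodule.mem_iInf _).1 (Submodule.mem_inf.1 hFH).2
      have hd0 : 0 ≤ d := by
        by_contra hc
        rw [hbot d μ (Or.inl (not_le.1 hc))] at h1
        exact hF ((Submodule.mem_bot K).1 h1)
      have hμ0 : 0 ≤ μ := by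
        by_contra hc
        rw [hbot d μ (Or.inr (not_le.1 hc))] at h1
        exact hF ((Submodule.mem_bot K).1 h1)
      by_cases h0 : psi K F = 0
      · obtain ⟨G, hG, hFG⟩ := factor hPD hOrd hQ s d μ g hFH h0
        have hG0 : G ≠ 0 := by
          rintro rfl
          exact hF (by rw [hFG, mul_zero])
        have h3 := ih (d - 4) (μ - 2) (fun i => g i - 1) G (by push_cast at hd; linarith) hG0 hG
        rw [Finset.sum_sub_distrib] at h3
        simp only [Finset.sum_const, Finset.card_univ, Fintype.card_fin] at h3
        simp only [nsmul_eq_mul] at h3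
        push_cast at h3
        linarith
      · obtain ⟨p1, p2⟩ := hPsi K F
        obtain ⟨d', rfl⟩ := Int.eq_ofNat_of_zero_le hd0
        obtain ⟨μ', rfl⟩ := Int.eq_ofNat_of_zero_le hμ0
        have hdeg := (p1 d' μ' h1).1
        have hdiv : ∀ i, (Polynomial.X - Polynomial.C (s i)) ^ (g i).toNat ∣ psi K F := by
          intro i
          refine p2 (s i) _ ?_
          obtain ⟨htop, -, -, -, -, -⟩ := hOrd K (sp s i)
          rcases le_or_gt (g i) 0 with h | h
          · have h1 : ((g i).toNat : ℤ) ≤ 0 := by omega
            have h2 : F ∈ OrdGE (sp s i) ((g i).toNat : ℤ) := by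
              rw [htop _ h1]; trivial
            exact h2
          · have h1 : ((g i).toNat : ℤ) = g i := Int.toNat_of_nonneg h.le
            have h2 : F ∈ OrdGE (sp s i) ((g i).toNat : ℤ) := by
              rw [h1]; exact h2 i
            exact h2
        have hprod : ∏ i, (Polynomial.X - Polynomial.C (s i)) ^ (g i).toNat ∣ psi K F := by
          refine Finset.prod_dvd_of_coprime ?_ (fun i _ => hdiv i)
          intro i _ j _ hij
          refine IsCoprime.pow ?_
          exact Polynomial.isCoprime_X_sub_C_of_isUnit_sub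
            (sub_ne_zero.2 fun h => hij (hs h)).isUnit
        have hle := Polynomial.natDegree_le_of_dvd hprod h0
        have hnd : (∏ i, (Polynomial.X - Polynomial.C (s i)) ^ (g i).toNat).natDegree =
            ∑ i, (g i).toNat := by
          rw [Polynomial.natDegree_prod_of_monic _ _
            (fun i _ => (Polynomial.monic_X_sub_C (s i)).pow _)]
          refine Finset.sum_congr rfl fun i _ => ?_
          rw [(Polynomial.monic_X_sub_C (s i)).natDegree_pow, Polynomial.natDegree_X_sub_C,
            mul_one]
        have h5 : ∑ i, (g i).toNat ≤ 2 * (d' + μ') := by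
          rw [← hnd]; exact hle.trans hdeg
        have h6 : ∑ i, g i ≤ ∑ i, ((g i).toNat : ℤ) :=
          Finset.sum_le_sum fun i _ => Int.self_le_toNat (g i)
        have h7 : ∑ i, ((g i).toNat : ℤ) ≤ 2 * (d' + μ') := by exact_mod_cast h5
        linarith
  intro d μ g F hF hFH
  exact key (d.toNat + 1) d μ g F (by push_cast; have := Int.self_le_toNat d; linarith) hF hFH

end Pool.Agent.MP5769ea
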