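import Pool.Agent.Lib.MP_5769ea_ag.Spec1

/-!
# MP_5769ea_ag: restriction to the quartic, one step
-/

open MvPolynomial

namespace Pool.Agent.MP5769ea

namespace QStepAux

variable {K : Type} [Field K] [CharZero K]

/-- a polynomial vanishing on the quartic is a multiple of `Q` -/
theorem factor (hPD : S_PDBasic) (hOrd : S_OrdBasic) (hQ : S_QKer) {N : ℕ} (s : Fin N → K)
    (d μ : ℤ) (g : Fin N → ℤ) {F : MvPolynomial (Fin 2) K} (hF : F ∈ HH (sp s) d μ g)
    (h0 : psi K F = 0) : ∃ G ∈ HH (sp s) (d - 4) (μ - 2) (fun i => g i - 1), F = Qp K * G := by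
  obtain ⟨hker, hprime, htd, hyd, hord⟩ := hQ K
  obtain ⟨hmem, -, hmul⟩ := hPD K
  obtain ⟨G, rfl⟩ := (hker F).1 h0
  by_cases hG : G = 0
  · exact ⟨0, Submodule.zero_mem _, by rw [hG]⟩
  have hQ0 : Qp K ≠ 0 := hprime.ne_zero
  refine ⟨G, ?_, rfl⟩
  unfold HH at hF ⊢
  obtain ⟨hF1, hF2⟩ := Submodule.mem_inf.1 hF
  rw [Submodule.mem_iInf] at hF2
  refine Submodule.mem_inf.2 ⟨?_, ?_⟩
  · have h1 := (hmem _ _ _ (mul_ne_zero hQ0 hG)).1 hF1
    rw [(hmul _ G hQ0 hG).1, (hmul _ G hQ0 hG).2, htd, hyd] at h1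
    push_cast at h1
    rw [hmem G _ _ hG]
    constructor
    · linarith [h1.1]
    · linarith [h1.2]
  · rw [Submodule.mem_iInf]
    intro i
    obtain ⟨-, -, -, hnm, -, -⟩ := hOrd K (sp s i)
    by_contra hc
    have h1 : Qp K ∉ OrdGE (sp s i) 2 := (hord (s i)).2
    have h2 := hnm (Qp K) G 2 (g i - 1) h1 hc
    have h3 : (2 : ℤ) + (g i - 1) - 1 = g i := by ring
    rw [h3] at h2
    exact h2 (hF2 i)

theorem psi_monomial (k : Type) [Field k] (e : Fin 2 →₀ ℕ) (a : k) :
    psi k (monomial e a) = Polynomial.C a *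
      ((Polynomial.X ^ 2) ^ (e 0) * (Polynomial.X ^ 4 + Polynomial.X) ^ (e 1)) := by
  unfold psi
  rw [aeval_monomial]
  have h : (e.prod fun i k_1 => (![(Polynomial.X : Polynomial k) ^ 2,
      Polynomial.X ^ 4 + Polynomial.X] i) ^ k_1) =
      ((Polynomial.X ^ 2) ^ (e 0) * (Polynomial.X ^ 4 + Polynomial.X) ^ (e 1)) := by
    rw [Finsupp.prod_fintype]
    · rw [Fin.prod_univ_two]; simp
    · intro i; simp
  rw [h]
  rfl

/-- the image of `PD K d μ` is contained in the span of the rational image -/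
theorem psi_mem_span (d μ : ℤ) {F : MvPolynomial (Fin 2) K} (hF : F ∈ PD K d μ) :
    psi K F ∈ Submodule.span K (Polynomial.map (algebraMap ℚ K) ''
      (((PD ℚ d μ).map (psi ℚ).toLinearMap : Submodule ℚ (Polynomial ℚ)) :
        Set (Polynomial ℚ))) := by
  unfold PD at hF
  rw [mem_restrictSupport_iff] at hF
  rw [F.as_sum, map_sum]
  refine Submodule.sum_mem _ fun e he => ?_
  have he' := hF he
  have h1 : psi K (monomial e (coeff e F)) =
      coeff e F • Polynomial.map (algebraMap ℚ K) (psi ℚ (monomial e 1)) := by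
    rw [psi_monomial, psi_monomial, Polynomial.smul_eq_C_mul]
    simp
  rw [h1]
  refine Submodule.smul_mem _ _ (Submodule.subset_span ⟨_, ⟨monomial e 1, ?_, rfl⟩, rfl⟩)
  unfold PD
  rw [SetLike.mem_coe, mem_restrictSupport_iff]
  intro e' he2
  have : e' = e := by
    have := support_monomial_subset he2
    simpa using this
  rw [this]
  exact he'

/-- the dimension of the rational image -/
theorem finrank_V (hRank : S_PDRank) (hPsi : S_PsiW) (d μ : ℕ) (h00 : ¬ (d = 0 ∧ μ = 0))
    (h10 : ¬ (d = 1 ∧ μ = 0)) :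
    Module.finrank ℚ ((PD ℚ d μ).map (psi ℚ).toLinearMap) ≤ 2 * (d + μ) - 1 := by
  obtain ⟨hfd, -, hrk, heq⟩ := hRank ℚ
  have : FiniteDimensional ℚ (PD ℚ d μ) := hfd _ _
  by_cases h1 : d + μ = 1
  · have hd : d = 0 := by omega
    have hμ : μ = 1 := by omega
    subst hd hμ
    refine (Submodule.finrank_map_le _ _).trans ?_
    have e := heq 0 1 (by norm_num)
    have e2 := hrk 0 0 le_rfl
    have e3 : Module.finrank ℚ (PD ℚ ((0 : ℕ) : ℤ) ((1 : ℕ) : ℤ)) =
        Module.finrank ℚ (PD ℚ ((0 : ℕ) : ℤ) ((0 : ℕ) : ℤ)) := by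
      exact LinearEquiv.finrank_eq (LinearEquiv.ofEq _ _ e)
    rw [e3]
    push_cast at e2 ⊢
    omega
  · -- two linear conditions on the polynomials of degree at most `M`
    set M : ℕ := 2 * (d + μ) with hM
    have hM4 : 4 ≤ M := by omega
    let L : Polynomial.degreeLT ℚ (M + 1) →ₗ[ℚ] ℚ × ℚ :=
      (LinearMap.prod (Polynomial.lcoeff ℚ (M - 1))
        (Polynomial.lcoeff ℚ (M - 3) - (μ : ℚ) • Polynomial.lcoeff ℚ M)).comp
        (Polynomial.degreeLT ℚ (M + 1)).subtype
    have : FiniteDimensional ℚ (Polynomial.degreeLT ℚ (M + 1)) :=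
      Module.Finite.equiv (Polynomial.degreeLTEquiv ℚ (M + 1)).symm
    have hsurj : Function.Surjective L := by
      rintro ⟨a, b⟩
      refine ⟨⟨Polynomial.C a * Polynomial.X ^ (M - 1) + Polynomial.C b * Polynomial.X ^ (M - 3),
        ?_⟩, ?_⟩
      · refine Submodule.add_mem _ ?_ ?_
        · rw [Polynomial.mem_degreeLT]
          refine lt_of_le_of_lt (Polynomial.degree_C_mul_X_pow_le _ _) ?_
          exact_mod_cast (by omega : M - 1 < M + 1)
        · rw [Polynomial.mem_degreeLT]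
          refine lt_of_le_of_lt (Polynomial.degree_C_mul_X_pow_le _ _) ?_
          exact_mod_cast (by omega : M - 3 < M + 1)
      · simp only [L, LinearMap.comp_apply, Submodule.subtype_apply, LinearMap.prod_apply,
          Pi.prod, Polynomial.lcoeff_apply, LinearMap.sub_apply, LinearMap.smul_apply,
          Polynomial.coeff_add, Polynomial.coeff_C_mul, Polynomial.coeff_X_pow]
        have n1 : ¬ (M - 1 = M - 3) := by omega
        have n2 : ¬ (M - 3 = M - 1) := by omega
        have n3 : ¬ (M = M - 1) := by omega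
        have n4 : ¬ (M = M - 3) := by omega
        simp [n1, n2, n3, n4]
    have hrn := LinearMap.finrank_range_add_finrank_ker L
    rw [LinearMap.range_eq_top.2 hsurj, finrank_top] at hrn
    have h2 : Module.finrank ℚ (ℚ × ℚ) = 2 := by simp
    have h3 : Module.finrank ℚ (Polynomial.degreeLT ℚ (M + 1)) = M + 1 := by
      rw [LinearEquiv.finrank_eq (Polynomial.degreeLTEquiv ℚ (M + 1))]
      simp
    rw [h2, h3] at hrn
    have hle : (PD ℚ d μ).map (psi ℚ).toLinearMap ≤
        (LinearMap.ker L).map (Polynomial.degreeLT ℚ (M + 1)).subtype := by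
      rintro _ ⟨F, hF, rfl⟩
      obtain ⟨p1, -⟩ := hPsi ℚ F
      obtain ⟨q1, q2, q3⟩ := p1 d μ hF
      refine ⟨⟨psi ℚ F, ?_⟩, ?_, rfl⟩
      · rw [Polynomial.mem_degreeLT]
        refine lt_of_le_of_lt Polynomial.degree_le_natDegree ?_
        exact_mod_cast Nat.lt_succ_of_le q1
      · rw [SetLike.mem_coe, LinearMap.mem_ker]
        have q2' := q2 (by omega)
        have q3' := q3 (by omega)
        change ((psi ℚ F).coeff (M - 1), (psi ℚ F).coeff (M - 3) - (μ : ℚ) • (psi ℚ F).coeff M) =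
          0
        rw [hM, q2', q3', smul_eq_mul, sub_self]
        rfl
    have h4 : Module.finrank ℚ ((LinearMap.ker L).map (Polynomial.degreeLT ℚ (M + 1)).subtype) ≤
        Module.finrank ℚ (LinearMap.ker L) := Submodule.finrank_map_le _ _
    have h5 := Submodule.finrank_mono hle
    omega

end QStepAux

open QStepAux in
theorem QStep (hPD : S_PDBasic) (hRank : S_PDRank) (hOrd : S_OrdBasic) (hQ : S_QKer)
    (hPsi : S_PsiW) (hWro : S_Wro) : S_QStep := by
  intro K _ _ N s hs d μ g h00 h10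
  obtain ⟨hfd, -, -, -⟩ := hRank K
  obtain ⟨hfdQ, -, -, -⟩ := hRank ℚ
  have i1 : FiniteDimensional K (PD K d μ) := hfd _ _
  have i2 : FiniteDimensional K (PD K (d - 4) (μ - 2)) := hfd _ _
  have i3 : FiniteDimensional ℚ (PD ℚ d μ) := hfdQ _ _
  set H := HH (sp s) d μ g with hH
  set H' := HH (sp s) (d - 4) (μ - 2) (fun i => g i - 1) with hH'
  have i4 : FiniteDimensional K H := Submodule.finiteDimensional_of_le (S₂ := PD K d μ) inf_le_left
  have i5 : FiniteDimensional K H' :=
    Submodule.finiteDimensional_of_le (S₂ := PD K (d - 4) (μ - 2)) inf_le_left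
  have i6 : FiniteDimensional ℚ ((PD ℚ d μ).map (psi ℚ).toLinearMap) := inferInstance
  let f : H →ₗ[K] Polynomial K := (psi K).toLinearMap.comp H.subtype
  have hrn := LinearMap.finrank_range_add_finrank_ker f
  -- the kernel
  have hker : Module.finrank K (LinearMap.ker f) ≤ Module.finrank K H' := by
    have h1 : (LinearMap.ker f).map H.subtype ≤ H'.map (LinearMap.mulLeft K (Qp K)) := by
      rintro _ ⟨F, hF, rfl⟩
      have h2 : psi K F.1 = 0 := hF
      obtain ⟨G, hG, hFG⟩ := factor hPD hOrd hQ s d μ g F.2 h2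
      exact ⟨G, hG, hFG.symm⟩
    have h2 : Module.finrank K ((LinearMap.ker f).map H.subtype) =
        Module.finrank K (LinearMap.ker f) :=
      (LinearEquiv.finrank_eq (Submodule.equivMapOfInjective H.subtype
        (Submodule.injective_subtype H) (LinearMap.ker f))).symm
    rw [← h2]
    exact (Submodule.finrank_mono h1).trans (Submodule.finrank_map_le _ _)
  -- the image
  have hW := hWro K N s hs ((PD ℚ d μ).map (psi ℚ).toLinearMap) (fun i => (g i).toNat)
    (LinearMap.range f) ?_ ?_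
  rotate_left
  · rintro _ ⟨F, rfl⟩ i
    obtain ⟨-, p2⟩ := hPsi K F.1
    refine p2 (s i) ((g i).toNat) ?_
    have hF2 := (Submodule.mem_iInf _).1 (Submodule.mem_inf.1 F.2).2
    obtain ⟨htop, -, -, -, -, -⟩ := hOrd K (sp s i)
    rcases le_or_gt (g i) 0 with h | h
    · have h1 : ((g i).toNat : ℤ) ≤ 0 := by omega
      have h2 : (F.1 : MvPolynomial (Fin 2) K) ∈ OrdGE (sp s i) ((g i).toNat : ℤ) := by
        rw [htop _ h1]; trivial
      exact h2
    · have h1 : ((g i).toNat : ℤ) = g i := Int.toNat_of_nonneg h.le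
      have h2 : (F.1 : MvPolynomial (Fin 2) K) ∈ OrdGE (sp s i) ((g i).toNat : ℤ) := by
        rw [h1]; exact hF2 i
      exact h2
  · rintro _ ⟨F, rfl⟩
    have hF : (F.1 : MvPolynomial (Fin 2) K) ∈ PD K d μ := (Submodule.mem_inf.1 F.2).1
    exact psi_mem_span (d : ℤ) (μ : ℤ) hF
  have hV := finrank_V hRank hPsi d μ h00 h10
  have hsum : ((∑ i, (g i).toNat : ℕ) : ℤ) = ∑ i, max (g i) 0 := by
    push_cast
    refine Finset.sum_congr rfl fun i _ => ?_
    omega
  have h9 : ((Module.finrank K (LinearMap.range f) : ℕ) : ℤ) ≤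
      max 0 (2 * d + 2 * μ - 1 - ∑ i, max (g i) 0) := by
    rw [← hsum]
    have h8 : Module.finrank K (LinearMap.range f) ≤ 2 * (d + μ) - 1 - ∑ i, (g i).toNat :=
      hW.trans (Nat.sub_le_sub_right hV _)
    omega
  have hrn' : ((Module.finrank K H : ℕ) : ℤ) =
      (Module.finrank K (LinearMap.range f) : ℕ) + (Module.finrank K (LinearMap.ker f) : ℕ) := by
    exact_mod_cast hrn.symm
  rw [hrn']
  have hker' : ((Module.finrank K (LinearMap.ker f) : ℕ) : ℤ) ≤ (Module.finrank K H' : ℕ) := by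
    exact_mod_cast hker
  linarith

end Pool.Agent.MP5769ea
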