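import Pool.Agent.Lib.MP_5769ea_ag.Spec1

/-!
# MP_5769ea_ag, module QT6
-/

open MvPolynomial

namespace Pool.Agent.MP5769ea

namespace QT6Aux

variable {K : Type} [Field K]

theorem finrank_HH_le (hR : S_PDRank) {N : ℕ} (q : Fin N → Fin 2 → K) (d μ : ℤ)
    (g : Fin N → ℤ) :
    Module.finrank K (HH q d μ g) ≤ Module.finrank K (PD K d μ) := by
  have := (hR K).1 d μ
  have h : HH q d μ g ≤ PD K d μ := inf_le_left
  exact Submodule.finrank_mono h

theorem sum1 : ∀ i₀ : Fin 12, ∑ i : Fin 12, max (if i = i₀ then (0 : ℤ) else 2) 0 = 22 := by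
  decide

theorem sum2 : ∀ i₀ : Fin 12, ∑ i : Fin 12, max ((if i = i₀ then (0 : ℤ) else 2) - 1) 0 = 11 := by
  decide

theorem base (hR : S_PDRank) (q : Fin 12 → Fin 2 → K) (g : Fin 12 → ℤ) :
    Module.finrank K (HH q 0 0 g) ≤ 1 := by
  have h1 := finrank_HH_le hR q 0 0 g
  have h2 := (hR K).2.2.1 0 0 (le_refl _)
  rw [Nat.cast_zero] at h2
  omega

theorem two (hR : S_PDRank) (hS : S_QStep) [CharZero K] (s : Fin 12 → K)
    (hs : AlgebraicIndependent ℚ s) (g : Fin 12 → ℤ) (a b c : ℤ)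
    (h1 : ∑ i, max (g i) 0 = a) (h2 : ∑ i, max (g i - 1) 0 = b)
    (hc : max 0 (23 - a) + max 0 (11 - b) = c) :
    (Module.finrank K (HH (sp s) 8 4 g) : ℤ) ≤ c + 1 := by
  have k1 : (Module.finrank K (HH (sp s) 8 4 g) : ℤ) ≤
      max 0 (2 * 8 + 2 * 4 - 1 - ∑ i, max (g i) 0) +
        Module.finrank K (HH (sp s) 4 2 (fun i => g i - 1)) :=
    hS K 12 s hs 8 4 g (by norm_num) (by norm_num)
  have k2 : (Module.finrank K (HH (sp s) 4 2 (fun i => g i - 1)) : ℤ) ≤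
      max 0 (2 * 4 + 2 * 2 - 1 - ∑ i, max (g i - 1) 0) +
        Module.finrank K (HH (sp s) 0 0 (fun i => g i - 1 - 1)) :=
    hS K 12 s hs 4 2 (fun i => g i - 1) (by norm_num) (by norm_num)
  have k3 := base hR (sp s) (fun i => g i - 1 - 1)
  rw [h1] at k1
  rw [h2] at k2
  omega

end QT6Aux

open QT6Aux in
theorem QT6 (_hB : S_PDBasic) (hR : S_PDRank) (_hO : S_OrdBasic) (_hQ : S_QKer) (_hP : S_PsiW)
    (_hW : S_Wro) (hS : S_QStep) : S_QT6 := by
  intro K _ _ s hs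
  constructor
  · intro i₀
    have h := two hR hS s hs (fun i => if i = i₀ then 0 else 2) 22 11 1 (sum1 i₀) (sum2 i₀)
      (by norm_num)
    omega
  · have h := two hR hS s hs (fun _ => 2) 24 12 0 (by decide) (by decide) (by norm_num)
    omega

end Pool.Agent.MP5769ea
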