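import Pool.Agent.Lib.MP_5769ea_ag.Spec3

open MvPolynomial

namespace Pool.Agent.MP5769ea

theorem log_support (hProd : S_FFProd) (Ω K : Type) [Field Ω] [Field K] [Algebra Ω K]
    [IsAlgClosed Ω] [CharZero Ω] (hFF : IsFF Ω K) (f : K) (hf : f ≠ 0) :
    (Function.support fun v : Place Ω K => WithZero.log (v.1 f)).Finite := by
  refine (hProd Ω K hFF f hf).1.subset ?_
  intro v hv h
  apply hv
  simp only
  rw [h, WithZero.log_one]

theorem place_trivial {Ω K : Type} [Field Ω] [Field K] [Algebra ℂ Ω] [Algebra Ω K] [Algebra ℂ K]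
    [IsScalarTower ℂ Ω K] (v : Place Ω K) (c : ℂ) : v.1 (algebraMap ℂ K c) ≤ 1 := by
  rw [IsScalarTower.algebraMap_apply ℂ Ω K]
  exact v.2.2 _

theorem SecPos (hLoc : S_LocIneq) (hProd : S_FFProd) (hBasic : S_FFBasic) : S_SecPos := by
  intro s n P hprop hne Ω K _ _ _ _ _ _ _ hFF d m F hF w hw hFw
  have : CharZero Ω := charZero_of_injective_algebraMap (algebraMap ℂ Ω).injective
  obtain ⟨-, -, hsupp⟩ := hBasic Ω K hFF
  rcases Nat.eq_zero_or_pos s with hs | hs
  · subst hs
    simp only [Finset.univ_eq_empty, Finset.sum_empty, sub_zero]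
    have hwne : w ≠ 0 ∨ w = 0 := (em _).symm
    rcases hwne with hwne | rfl
    · exact mul_nonneg (by positivity) ((hBasic Ω K hFF).1 _ w hwne)
    · have : pdeg Ω (0 : Fin (n + 1) → K) = 0 := by
        unfold pdeg nrm
        have : ∀ v : Place Ω K, WithZero.log
            (Finset.univ.sup fun j : Fin (n + 1) => v.1 ((0 : Fin (n + 1) → K) j)) = 0 := by
          intro v
          simp only [Pi.zero_apply, map_zero]
          have : (Finset.univ.sup fun _ : Fin (n + 1) => (0 : WithZero (Multiplicative ℤ))) = 0 :=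
            le_antisymm (Finset.sup_le fun _ _ => le_rfl) zero_le
          rw [this, WithZero.log_zero]
        simp only [this, finsum_zero]
      rw [this, mul_zero]
  have hwne : w ≠ 0 := by
    rintro rfl
    apply hw ⟨0, hs⟩
    funext jk
    simp [wedge]
  classical
  have hf0 := log_support hProd Ω K hFF _ hFw
  have hf1 := hsupp _ w hwne
  have hf2 : ∀ i, (Function.support fun v : Place Ω K => nrm v.1 (wedge w (P i))).Finite :=
    fun i => hsupp _ _ (hw i)
  let T : Finset (Place Ω K) := hf0.toFinset ∪ hf1.toFinset ∪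
    Finset.univ.biUnion fun i => (hf2 i).toFinset
  have hT0 : (Function.support fun v : Place Ω K => WithZero.log (v.1 (aeval w F))) ⊆ T := by
    intro v hv
    simp only [T, Finset.coe_union, Set.Finite.coe_toFinset]
    exact Or.inl (Or.inl hv)
  have hT1 : (Function.support fun v : Place Ω K => nrm v.1 w) ⊆ T := by
    intro v hv
    simp only [T, Finset.coe_union, Set.Finite.coe_toFinset]
    exact Or.inl (Or.inr hv)
  have hT2 : ∀ i, (Function.support fun v : Place Ω K => nrm v.1 (wedge w (P i))) ⊆ T := by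
    intro i v hv
    simp only [T, Finset.mem_coe, Finset.mem_union, Finset.mem_biUnion, Set.Finite.mem_toFinset]
    exact Or.inr ⟨i, Finset.mem_univ _, hv⟩
  have e0 : ∑ v ∈ T, WithZero.log (v.1 (aeval w F)) = 0 := by
    rw [← finsum_eq_sum_of_support_subset _ hT0]
    exact (hProd Ω K hFF _ hFw).2
  have e1 : pdeg Ω w = ∑ v ∈ T, nrm v.1 w := finsum_eq_sum_of_support_subset _ hT1
  have e2 : ∀ i, pdeg Ω (wedge w (P i)) = ∑ v ∈ T, nrm v.1 (wedge w (P i)) := fun i =>
    finsum_eq_sum_of_support_subset _ (hT2 i)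
  have hle : ∑ v ∈ T, WithZero.log (v.1 (aeval w F)) ≤
      ∑ v ∈ T, (d * nrm v.1 w - ∑ i, m i * (nrm v.1 w - nrm v.1 (wedge w (P i)))) :=
    Finset.sum_le_sum fun v _ => hLoc s n P hprop hne K v.1 v.2.1 (place_trivial v) d m F hF w hw
      hFw
  rw [e0] at hle
  calc (0 : ℤ) ≤ _ := hle
    _ = _ := by
      rw [Finset.sum_sub_distrib, ← Finset.mul_sum, Finset.sum_comm, ← e1]
      congr 1
      refine Finset.sum_congr rfl fun i _ => ?_
      rw [← Finset.mul_sum, Finset.sum_sub_distrib, ← e1, ← e2]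

end Pool.Agent.MP5769ea
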