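import Pool.Agent.Lib.MP_5769ea_ag.Spec1

/-!
# MP_5769ea_ag, SemiCont : the dimension of `HH` does not decrease under specialisation

The lemmas on minors are a copy of the lemmas in `Pool/Agent/ShghT/SemiB.lean`.
-/

set_option autoImplicit false

open MvPolynomial

namespace Pool.Agent.MP5769ea

namespace SemiContAux

theorem rows {k ρ ι : Type*} [Field k] [Finite ρ] [Fintype ι] (N : Matrix ρ ι k) :
    ∃ a : Fin N.rank → ρ, LinearIndependent k (fun i => N (a i)) := by
  classical
  have := Fintype.ofFinite ρ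
  obtain ⟨κ, a, ha, hsp, hli⟩ := exists_linearIndependent' k (fun r => N r)
  have hκ : Finite κ := Finite.of_injective a ha
  have := Fintype.ofFinite κ
  have hfin : Module.finrank k (Submodule.span k (Set.range (fun r => N r))) = N.rank := by
    rw [Matrix.rank_eq_finrank_span_row]
    rfl
  have hcard : Fintype.card κ = N.rank := by
    rw [← hfin, ← hsp, finrank_span_eq_card hli]
  let eq : Fin N.rank ≃ κ := Fintype.equivOfCardEq (by rw [Fintype.card_fin, hcard])
  exact ⟨a ∘ eq, hli.comp eq eq.injective⟩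

theorem minor {k ρ ι : Type*} [Field k] [Finite ρ] [Fintype ι] (N : Matrix ρ ι k) :
    ∃ (r : ℕ) (a : Fin r → ρ) (b : Fin r → ι), r = N.rank ∧ (N.submatrix a b).det ≠ 0 := by
  classical
  obtain ⟨a, ha⟩ := rows N
  set B : Matrix (Fin N.rank) ι k := N.submatrix a id with hB
  have hrow : LinearIndependent k B.row := ha
  have hrB : B.rank = N.rank := by
    rw [Matrix.rank_eq_finrank_span_row, finrank_span_eq_card hrow, Fintype.card_fin]
  have hrBt : B.transpose.rank = N.rank := by rw [Matrix.rank_transpose, hrB]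
  obtain ⟨b, hb⟩ := rows B.transpose
  let c : Fin N.rank ≃ Fin B.transpose.rank := finCongr hrBt.symm
  refine ⟨N.rank, a, b ∘ c, rfl, ?_⟩
  have hli : LinearIndependent k (fun i => ((N.submatrix a (b ∘ c)).transpose) i) :=
    hb.comp c c.injective
  have h2 : IsUnit ((N.submatrix a (b ∘ c)).transpose) :=
    Matrix.linearIndependent_rows_iff_isUnit.1 hli
  have h3 := ((Matrix.isUnit_iff_isUnit_det _).1 h2).ne_zero
  rwa [Matrix.det_transpose] at h3

theorem rank_le {A k k' ι ρ : Type*} [CommRing A] [Field k] [Field k'] [Fintype ι] [Finite ρ]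
    (M : Matrix ρ ι A) (θ : A →+* k) (hθ : Function.Injective θ) (θ' : A →+* k') :
    (M.map θ').rank ≤ (M.map θ).rank := by
  classical
  obtain ⟨r, a, b, hr, hdet⟩ := minor (M.map θ')
  have hdA : (M.submatrix a b).det ≠ 0 := by
    intro h0
    apply hdet
    have h3 : ((M.map θ').submatrix a b).det = θ' (M.submatrix a b).det := by
      rw [RingHom.map_det]
      rfl
    rw [h3, h0, map_zero]
  have hdk : ((M.map θ).submatrix a b).det ≠ 0 := by
    have h3 : ((M.map θ).submatrix a b).det = θ (M.submatrix a b).det := by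
      rw [RingHom.map_det]
      rfl
    rw [h3]
    exact fun h => hdA (hθ (by rw [h, map_zero]))
  have hrk : ((M.map θ).submatrix a b).rank = r := by
    rw [Matrix.rank_of_isUnit _ ((Matrix.isUnit_iff_isUnit_det _).2 (isUnit_iff_ne_zero.2 hdk)),
      Fintype.card_fin]
  rw [← hr, ← hrk]
  exact Matrix.rank_submatrix_le _ _ _

/-- the exponents of `PD d μ` -/
abbrev SS (d μ : ℤ) : Type := {s : Fin 2 →₀ ℕ // ((s 0 + s 1 : ℕ) : ℤ) ≤ d ∧ ((s 1 : ℕ) : ℤ) ≤ μ}

/-- the conditions of `OrdGE q g` -/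
abbrev RR (g : ℤ) : Type := {s : Fin 2 →₀ ℕ // ((s 0 + s 1 : ℕ) : ℤ) < g}

instance (d μ : ℤ) : Finite (SS d μ) := by
  refine Finite.of_injective (β := Fin (d.toNat + 1) × Fin (d.toNat + 1))
    (fun s => (⟨s.1 0, by have := s.2.1; push_cast at this; omega⟩,
      ⟨s.1 1, by have := s.2.1; push_cast at this; omega⟩)) ?_
  intro s s' h
  simp only [Prod.mk.injEq, Fin.mk.injEq] at h
  apply Subtype.ext
  ext i
  fin_cases i
  · exact h.1
  · exact h.2

noncomputable instance (d μ : ℤ) : Fintype (SS d μ) := Fintype.ofFinite _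

instance (g : ℤ) : Finite (RR g) := by
  refine Finite.of_injective (β := Fin g.toNat × Fin g.toNat)
    (fun s => (⟨s.1 0, by have := s.2; push_cast at this; omega⟩,
      ⟨s.1 1, by have := s.2; push_cast at this; omega⟩)) ?_
  intro s s' h
  simp only [Prod.mk.injEq, Fin.mk.injEq] at h
  apply Subtype.ext
  ext i
  fin_cases i
  · exact h.1
  · exact h.2

/-- the coefficient of `u^r0 v^r1` in `(u + q_0)^s0 (v + q_1)^s1` -/
noncomputable def sh {R : Type} [CommRing R] (q : Fin 2 → R) (s r : Fin 2 →₀ ℕ) : R :=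
  coeff r ((X 0 + C (q 0)) ^ (s 0) * (X 1 + C (q 1)) ^ (s 1) : MvPolynomial (Fin 2) R)

theorem sh_map {R K : Type} [CommRing R] [Field K] (f : R →+* K) (q : Fin 2 → R)
    (s r : Fin 2 →₀ ℕ) : f (sh q s r) = sh (fun j => f (q j)) s r := by
  unfold sh
  rw [← coeff_map]
  simp only [map_mul, map_pow, map_add, map_X, map_C]

theorem shift_monomial {K : Type} [Field K] (q : Fin 2 → K) (s : Fin 2 →₀ ℕ) (c : K) :
    shift q (monomial s c) =
      C c * ((X 0 + C (q 0)) ^ (s 0) * (X 1 + C (q 1)) ^ (s 1)) := by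
  unfold shift
  rw [aeval_monomial, Finsupp.prod_fintype _ _ (fun i => pow_zero _), Fin.prod_univ_two]
  rfl

theorem coeff_shift_monomial {K : Type} [Field K] (q : Fin 2 → K) (s r : Fin 2 →₀ ℕ) (c : K) :
    coeff r (shift q (monomial s c)) = sh q s r * c := by
  rw [shift_monomial, coeff_C_mul, mul_comm]
  rfl

theorem mem_OrdGE {K : Type} [Field K] (q : Fin 2 → K) (g : ℤ) (F : MvPolynomial (Fin 2) K) :
    F ∈ OrdGE q g ↔ ∀ r : RR g, coeff r.1 (shift q F) = 0 := by
  unfold OrdGE
  rw [Submodule.mem_comap, mem_restrictSupport_iff]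
  constructor
  · intro h r
    by_contra hne
    have h1 := h (Finset.mem_coe.2 (mem_support_iff.2 hne))
    have h2 := r.2
    exact absurd h1 (not_le.2 h2)
  · intro h r hr
    by_contra hne
    exact (mem_support_iff.1 (Finset.mem_coe.1 hr)) (h ⟨r, not_le.1 hne⟩)

theorem PD_expand {K : Type} [Field K] {d μ : ℤ} {F : MvPolynomial (Fin 2) K}
    (hF : F ∈ PD K d μ) : F = ∑ s : SS d μ, monomial s.1 (coeff s.1 F) := by
  classical
  unfold PD at hF
  rw [mem_restrictSupport_iff] at hF
  ext r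
  rw [coeff_sum]
  simp only [coeff_monomial]
  by_cases hr : ((r 0 + r 1 : ℕ) : ℤ) ≤ d ∧ ((r 1 : ℕ) : ℤ) ≤ μ
  · rw [Finset.sum_eq_single (⟨r, hr⟩ : SS d μ)]
    · rw [if_pos rfl]
    · intro s _ hs
      rw [if_neg]
      intro h
      exact hs (Subtype.ext h)
    · intro h
      exact absurd (Finset.mem_univ _) h
  · have h1 : coeff r F = 0 := by
      by_contra hne
      exact hr (hF (Finset.mem_coe.2 (mem_support_iff.2 hne)))
    rw [h1, Finset.sum_eq_zero]
    intro s _
    rw [if_neg]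
    intro h
    exact hr (h ▸ s.2)

theorem PD_coeff {K : Type} [Field K] {d μ : ℤ} (c : SS d μ → K) (s : SS d μ) :
    coeff s.1 (∑ s : SS d μ, monomial s.1 (c s) : MvPolynomial (Fin 2) K) = c s := by
  classical
  rw [coeff_sum]
  simp only [coeff_monomial]
  rw [Finset.sum_eq_single s]
  · rw [if_pos rfl]
  · intro s' _ hs
    rw [if_neg]
    intro h
    exact hs (Subtype.ext h)
  · intro h
    exact absurd (Finset.mem_univ _) h

theorem PD_mem {K : Type} [Field K] {d μ : ℤ} (c : SS d μ → K) :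
    (∑ s : SS d μ, monomial s.1 (c s) : MvPolynomial (Fin 2) K) ∈ PD K d μ := by
  refine Submodule.sum_mem _ fun s _ => ?_
  unfold PD
  rw [mem_restrictSupport_iff]
  intro r hr
  have h1 := Finset.mem_of_subset support_monomial_subset (Finset.mem_coe.1 hr)
  rw [Finset.mem_singleton] at h1
  rw [h1]
  exact s.2

/-- the matrix -/
noncomputable def mat {R : Type} [CommRing R] {N : ℕ} (q : Fin N → Fin 2 → R) (d μ : ℤ)
    (g : Fin N → ℤ) : Matrix ((i : Fin N) × RR (g i)) (SS d μ) R :=
  fun r s => sh (q r.1) s.1 r.2.1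

theorem mat_map {R K : Type} [CommRing R] [Field K] (f : R →+* K) {N : ℕ}
    (q : Fin N → Fin 2 → R) (d μ : ℤ) (g : Fin N → ℤ) :
    (mat q d μ g).map f = mat (fun i j => f (q i j)) d μ g := by
  ext r s
  rw [Matrix.map_apply]
  exact sh_map f (q r.1) s.1 r.2.1

/-- the coefficients -/
noncomputable def Psi {K : Type} [Field K] {N : ℕ} (q : Fin N → Fin 2 → K) (d μ : ℤ)
    (g : Fin N → ℤ) : HH q d μ g →ₗ[K] (SS d μ → K) where
  toFun f s := coeff s.1 (f : MvPolynomial (Fin 2) K)
  map_add' f g := by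
    ext s
    simp
  map_smul' c f := by
    ext s
    simp

theorem Psi_inj {K : Type} [Field K] {N : ℕ} (q : Fin N → Fin 2 → K) (d μ : ℤ)
    (g : Fin N → ℤ) : Function.Injective (Psi q d μ g) := by
  rw [← LinearMap.ker_eq_bot, LinearMap.ker_eq_bot']
  intro f hf
  apply Subtype.ext
  rw [PD_expand f.2.1]
  refine Finset.sum_eq_zero fun s _ => ?_
  have : coeff s.1 (f : MvPolynomial (Fin 2) K) = 0 := congrFun hf s
  rw [this, monomial_zero]

theorem coeff_shift_sum {K : Type} [Field K] {d μ : ℤ} (q : Fin 2 → K) (c : SS d μ → K)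
    (r : Fin 2 →₀ ℕ) :
    coeff r (shift q (∑ s : SS d μ, monomial s.1 (c s))) = ∑ s : SS d μ, sh q s.1 r * c s := by
  rw [map_sum, coeff_sum]
  refine Finset.sum_congr rfl fun s _ => ?_
  rw [coeff_shift_monomial]

theorem range_Psi {K : Type} [Field K] {N : ℕ} (q : Fin N → Fin 2 → K) (d μ : ℤ)
    (g : Fin N → ℤ) :
    LinearMap.range (Psi q d μ g) = LinearMap.ker (mat q d μ g).mulVecLin := by
  ext c
  rw [LinearMap.mem_range, LinearMap.mem_ker]
  constructor
  · rintro ⟨f, rfl⟩
    ext r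
    have h1 := (Submodule.mem_iInf _).1 f.2.2 r.1
    have h2 := (mem_OrdGE _ _ _).1 h1 r.2
    rw [PD_expand f.2.1, coeff_shift_sum] at h2
    exact h2
  · intro h
    have hmem : (∑ s : SS d μ, monomial s.1 (c s) : MvPolynomial (Fin 2) K) ∈ HH q d μ g := by
      refine ⟨PD_mem c, (Submodule.mem_iInf _).2 fun i => (mem_OrdGE _ _ _).2 fun r => ?_⟩
      rw [coeff_shift_sum]
      exact congrFun h ⟨i, r⟩
    refine ⟨⟨_, hmem⟩, ?_⟩
    ext s
    exact PD_coeff c s

theorem finrank_add {K : Type} [Field K] {N : ℕ} (q : Fin N → Fin 2 → K) (d μ : ℤ)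
    (g : Fin N → ℤ) :
    (mat q d μ g).rank + Module.finrank K (HH q d μ g) = Fintype.card (SS d μ) := by
  have h1 : Module.finrank K (HH q d μ g) =
      Module.finrank K (LinearMap.ker (mat q d μ g).mulVecLin) := by
    rw [← range_Psi]
    exact (LinearMap.finrank_range_of_inj (Psi_inj q d μ g)).symm
  rw [h1, Matrix.rank, LinearMap.finrank_range_add_finrank_ker,
    Module.finrank_fintype_fun_eq_card]

end SemiContAux

open SemiContAux in
theorem SemiCont : S_SemiCont := by
  intro R K₁ K₂ _ _ _ φ ι hι N q d μ g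
  have h1 := finrank_add (fun i j => ι (q i j)) d μ g
  have h2 := finrank_add (fun i j => φ (q i j)) d μ g
  have h3 := rank_le (mat q d μ g) ι hι φ
  rw [mat_map, mat_map] at h3
  omega

end Pool.Agent.MP5769ea
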