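import Pool.Agent.Lib.MP_5769ea_ag.Spec4
import Pool.Agent.Lib.MP_5769ea_ag.Spec1

open MvPolynomial

namespace Pool.Agent.MP5769ea

namespace SigBaseAux

/-- reindexing -/
def idx : Fin 13 ⊕ Fin 13 → Fin 2 ⊕ (Fin 12 ⊕ Fin 12) :=
  Sum.elim (Fin.lastCases (Sum.inl 0) fun j => Sum.inr (Sum.inl j))
    (Fin.lastCases (Sum.inl 1) fun j => Sum.inr (Sum.inr j))

theorem idx_inj : Function.Injective idx := by
  decide

theorem gen13 {t y : Fin 12 → ℂ} (hG : Gen t y) {K : Type} [Field K] [CharZero K] [Algebra ℂ K]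
    {θ₁ η₁ : K} (h : AlgebraicIndependent ℂ ![θ₁, η₁]) :
    Gen (Fin.snoc (α := fun _ => K) (fun i => algebraMap ℂ K (t i)) θ₁ : Fin 13 → K)
      (Fin.snoc (α := fun _ => K) (fun i => algebraMap ℂ K (y i)) η₁ : Fin 13 → K) := by
  have h1 : AlgebraicIndependent ℚ (Sum.elim t y) := hG
  have h2 := AlgebraicIndependent.sumElim_comp h1 h
  have h3 := h2.comp idx idx_inj
  show AlgebraicIndependent ℚ (Sum.elim _ _)
  convert! h3 using 1
  funext i
  rcases i with i | i
  · refine Fin.lastCases ?_ (fun j => ?_) i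
    · simp only [Function.comp, idx, Sum.elim_inl, Fin.snoc_last, Fin.lastCases_last]
      rfl
    · simp [idx]
  · refine Fin.lastCases ?_ (fun j => ?_) i
    · simp only [Function.comp, idx, Sum.elim_inr, Fin.snoc_last, Fin.lastCases_last,
        Sum.elim_inl]
      rfl
    · simp [idx]

end SigBaseAux

open SigBaseAux in
theorem SigBase (hG : S_Gpoly) (hN : S_NonEff) : S_SigBase := by
  intro t y hgen d m₁ m F hF hd h1 h2 K _ _ θ₁ η₁ θ₂ η₂ hind x hx
  have : CharZero K := charZero_of_injective_algebraMap (algebraMap ℂ K).injective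
  have hind2 : AlgebraicIndependent ℂ ![θ₁, η₁] := by
    have := hind.comp ![(0 : Fin 4), 1] (by decide)
    convert! this using 1
    funext i
    fin_cases i <;> rfl
  have hrel := algebraicIndependent_iff.1 hind
  have hθ : ∀ i, algebraMap ℂ K (t i) ≠ θ₁ := by
    intro i h
    have h3 := hrel (C (t i) - X 0) (by simp [h])
    have h4 := congrArg (eval (fun _ : Fin 4 => t i + 1)) h3
    simp at h4
  have hΔ : ∀ i, (algebraMap ℂ K (y i) - η₁) * (θ₂ - θ₁) -
      (η₂ - η₁) * (algebraMap ℂ K (t i) - θ₁) ≠ 0 := by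
    intro i h
    have h3 := hrel ((C (y i) - X 1) * (X 2 - X 0) - (X 3 - X 1) * (C (t i) - X 0))
      (by simpa using h)
    have h4 := congrArg (eval ![t i - 1, y i, t i, y i + 1]) h3
    simp at h4
  set S : ℤ := ∑ i, (m i : ℤ) with hS
  have hS1 : 10000 * (5 * S - 48 * d) ≤ 12 * d ∧ -(12 * (d : ℤ)) ≤ 10000 * (5 * S - 48 * d) := by
    have e1 : 5 * S - 48 * (d : ℤ) = ∑ i, (5 * (m i : ℤ) - 4 * d) := by
      rw [Finset.sum_sub_distrib, ← Finset.mul_sum, ← hS]
      simp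
      ring
    have e2 : ∀ i, 10000 * (5 * (m i : ℤ) - 4 * d) ≤ d := fun i => by
      have := h2 i
      have := le_abs_self (5 * (m i : ℤ) - 4 * d)
      linarith [h2 i]
    have e3 : ∀ i, -(d : ℤ) ≤ 10000 * (5 * (m i : ℤ) - 4 * d) := fun i => by
      have := neg_abs_le (5 * (m i : ℤ) - 4 * d)
      linarith [h2 i]
    constructor
    · rw [e1, Finset.mul_sum]
      calc _ ≤ ∑ _i : Fin 12, (d : ℤ) := Finset.sum_le_sum fun i _ => e2 i
        _ = _ := by simp
    · rw [e1, Finset.mul_sum]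
      calc _ = ∑ _i : Fin 12, -(d : ℤ) := by simp
        _ ≤ _ := Finset.sum_le_sum fun i _ => e3 i
  have hm1 : 10000 * (5 * (m₁ : ℤ) - 3 * d) ≤ d ∧ -(d : ℤ) ≤ 10000 * (5 * (m₁ : ℤ) - 3 * d) := by
    constructor
    · linarith [le_abs_self (5 * (m₁ : ℤ) - 3 * d)]
    · linarith [neg_abs_le (5 * (m₁ : ℤ) - 3 * d)]
  have hmd : ∀ i, m i ≤ d := by
    intro i
    have := le_abs_self (5 * (m i : ℤ) - 4 * d)
    have := h2 i
    omega
  have hT0 : 0 ≤ (m₁ : ℤ) + S - 10 * d := by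
    obtain ⟨a1, a2⟩ := hS1
    obtain ⟨b1, b2⟩ := hm1
    omega
  obtain ⟨T, hT⟩ := Int.eq_ofNat_of_zero_le hT0
  have hTn : T + 10 * d = m₁ + ∑ i, m i := by
    have : (T : ℤ) + 10 * d = m₁ + S := by linarith
    rw [hS] at this
    exact_mod_cast this
  obtain ⟨g, hg1, hg2, hg3, hg4⟩ := hG t y d m₁ m F hF hmd T hTn K θ₁ η₁ hθ
  have hg0 : g = 0 := by
    by_contra hne
    have h5 := hN K _ _ (gen13 hgen hind2) (11 * d - m₁ - S) (10 * d - S)
      (Fin.snoc (α := fun _ => ℤ) (fun i => (d : ℤ) - m i) (T : ℤ)) g hne ?_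
    · rw [Fin.sum_univ_castSucc] at h5
      simp only [Fin.snoc_castSucc, Fin.snoc_last, Finset.sum_sub_distrib, Finset.sum_const,
        Finset.card_univ, Fintype.card_fin, nsmul_eq_mul, ← hS] at h5
      obtain ⟨a1, a2⟩ := hS1
      obtain ⟨b1, b2⟩ := hm1
      push_cast at h5
      have hd' : (1 : ℤ) ≤ d := by exact_mod_cast hd
      have hT' : (T : ℤ) = m₁ + S - 10 * d := hT.symm
      rw [hT'] at h5
      linarith
    · rw [HH, Submodule.mem_inf]
      refine ⟨hg1, (Submodule.mem_iInf _).2 fun i => ?_⟩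
      refine Fin.lastCases ?_ (fun j => ?_) i
      · simp only [Fin.snoc_last, pt]
        exact hg3
      · have h6 : pt (Fin.snoc (α := fun _ => K) (fun i => algebraMap ℂ K (t i)) θ₁ : Fin 13 → K)
            (Fin.snoc (α := fun _ => K) (fun i => algebraMap ℂ K (y i)) η₁ : Fin 13 → K)
            (Fin.castSucc j) = up (pt t y j) := by
          funext k
          fin_cases k <;> simp [pt, up]
        rw [h6]
        simp only [Fin.snoc_castSucc]
        exact hg2 j
  have h7 := hg4 K θ₂ η₂ (fun i => (algebraMap ℂ K (y i) - η₁) * (θ₂ - θ₁) -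
      (η₂ - η₁) * (algebraMap ℂ K (t i) - θ₁)) (fun i => by simp) hΔ
  rw [hg0, map_zero, zero_mul] at h7
  have h8 := (mul_eq_zero.1 h7).resolve_right (Finset.prod_ne_zero_iff.2 fun i _ =>
    pow_ne_zero _ (hΔ i))
  rw [← h8]
  congr 1
  congr 1
  funext i
  rw [hx i]
  simp

end Pool.Agent.MP5769ea
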