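import Pool.Agent.Lib.MP_5769ea_ag.Spec1
import Pool.Agent.Lib.MP_5769ea_ag.Spec4

/-!
# MP_5769ea_ag: `Σ_4` has dimension 4
-/

set_option autoImplicit false

open MvPolynomial

namespace Pool.Agent.MP5769ea

namespace SigDimAux

/-! ### transcendence degree -/

theorem trdeg_ge {K : Type} [Field K] [Algebra ℂ K] (L : IntermediateField ℂ K) (z : Fin 4 → K)
    (hz : AlgebraicIndependent ℂ z) (halg : ∀ i, IsAlgebraic L (z i)) :
    ((4 : ℕ) : Cardinal) ≤ Algebra.trdeg ℂ L := by
  let M : IntermediateField L K := algebraicClosure L K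
  have : IsScalarTower ℂ M K := IsScalarTower.of_algebraMap_eq (fun x => rfl)
  let z' : Fin 4 → M := fun i => ⟨z i, (mem_algebraicClosure_iff).2 (halg i)⟩
  have hz' : AlgebraicIndependent ℂ z' := by
    have h1 : AlgebraicIndependent ℂ ((IsScalarTower.toAlgHom ℂ M K) ∘ z') := hz
    exact AlgebraicIndependent.of_comp _ h1
  have h1 := hz'.cardinalMk_le_trdeg
  have h2 : Algebra.trdeg L M = 0 := trdeg_eq_zero_iff.2 inferInstance
  have : FaithfulSMul L M :=
    (faithfulSMul_iff_algebraMap_injective L M).2 (algebraMap L M).injective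
  have h3 := trdeg_add_eq ℂ L (A := M)
  rw [h2, add_zero] at h3
  rw [h3]
  simpa using h1

/-! ### generic points and polynomials of `PD 3 2` -/

theorem isom {K : Type} [Field K] (q : Fin 2 → K) (F : MvPolynomial (Fin 2) K)
    (h : eval q F = 0) : F ∈ OrdGE q 1 := by
  unfold OrdGE
  rw [Submodule.mem_comap, mem_restrictSupport_iff]
  intro s hs
  rw [Finset.mem_coe, mem_support_iff] at hs
  rw [Set.mem_ofPred_eq]
  by_contra hlt
  have h0 : s 0 + s 1 = 0 := by
    have : ((s 0 + s 1 : ℕ) : ℤ) < 1 := not_le.1 hlt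
    omega
  have hs0 : s = 0 := by
    ext i
    fin_cases i
    · simp; omega
    · simp; omega
  apply hs
  rw [hs0, AlgHom.toLinearMap_apply]
  have : coeff 0 (shift q F) = eval q F := by
    rw [← constantCoeff_eq]
    unfold shift
    rw [← eval_zero, ← coe_aeval_eq_eval, ← coe_aeval_eq_eval]
    show ((aeval (0 : Fin 2 → K)).comp (aeval fun i => X i + C (q i))) F = _
    rw [MvPolynomial.comp_aeval]
    simp
  rw [this, h]

theorem ordzero {K : Type} [Field K] (q : Fin 2 → K) (F : MvPolynomial (Fin 2) K) :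
    F ∈ OrdGE q 0 := by
  unfold OrdGE
  rw [Submodule.mem_comap, mem_restrictSupport_iff]
  intro s _
  rw [Set.mem_ofPred_eq]
  exact Int.natCast_nonneg _

/-- the general element of `PD 3 2` -/
noncomputable def gp {K : Type} [Field K] (c00 c10 c20 c30 c01 c11 c21 c02 c12 : K) :
    MvPolynomial (Fin 2) K :=
  C c00 + C c10 * X 0 + C c20 * X 0 ^ 2 + C c30 * X 0 ^ 3 +
    (C c01 + C c11 * X 0 + C c21 * X 0 ^ 2) * X 1 + (C c02 + C c12 * X 0) * X 1 ^ 2

theorem mon_mem {K : Type} [Field K] (c : K) (a b : ℕ) (ha : a + b ≤ 3) (hb : b ≤ 2) :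
    C c * X 0 ^ a * X 1 ^ b ∈ PD K 3 2 := by
  have h : (C c * X 0 ^ a * X 1 ^ b : MvPolynomial (Fin 2) K) =
      monomial (Finsupp.single 0 a + Finsupp.single 1 b) c := by
    rw [X_pow_eq_monomial, X_pow_eq_monomial, C_mul_monomial, monomial_mul, mul_one, mul_one]
  rw [h]
  unfold PD
  rw [mem_restrictSupport_iff]
  intro s hs
  have := Finset.mem_singleton.1 (support_monomial_subset (Finset.mem_coe.1 hs))
  subst this
  rw [Set.mem_ofPred_eq]
  simp
  omega

theorem gp_mem {K : Type} [Field K] (c00 c10 c20 c30 c01 c11 c21 c02 c12 : K) :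
    gp c00 c10 c20 c30 c01 c11 c21 c02 c12 ∈ PD K 3 2 := by
  have e : gp c00 c10 c20 c30 c01 c11 c21 c02 c12 =
      C c00 * X 0 ^ 0 * X 1 ^ 0 + C c10 * X 0 ^ 1 * X 1 ^ 0 + C c20 * X 0 ^ 2 * X 1 ^ 0 +
      C c30 * X 0 ^ 3 * X 1 ^ 0 + C c01 * X 0 ^ 0 * X 1 ^ 1 + C c11 * X 0 ^ 1 * X 1 ^ 1 +
      C c21 * X 0 ^ 2 * X 1 ^ 1 + C c02 * X 0 ^ 0 * X 1 ^ 2 + C c12 * X 0 ^ 1 * X 1 ^ 2 := by
    unfold gp; ring
  rw [e]
  refine Submodule.add_mem _ (Submodule.add_mem _ (Submodule.add_mem _ (Submodule.add_mem _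
    (Submodule.add_mem _ (Submodule.add_mem _ (Submodule.add_mem _ (Submodule.add_mem _ ?_ ?_)
    ?_) ?_) ?_) ?_) ?_) ?_) ?_ <;> exact mon_mem _ _ _ (by norm_num) (by norm_num)

theorem vanish (h1 : S_Simple) (h2 : S_PDRank) {K : Type} [Field K] [CharZero K]
    {t y : Fin 12 → K} (hg : Gen t y) (i0 : Fin 12) (c00 c10 c20 c30 c01 c11 c21 c02 c12 : K)
    (h : ∀ k, k ≠ i0 → c00 + c10 * t k + c20 * t k ^ 2 + c30 * t k ^ 3 +
      (c01 + c11 * t k + c21 * t k ^ 2) * y k + (c02 + c12 * t k) * y k ^ 2 = 0) :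
    ∀ T Y : K, c00 + c10 * T + c20 * T ^ 2 + c30 * T ^ 3 +
      (c01 + c11 * T + c21 * T ^ 2) * Y + (c02 + c12 * T) * Y ^ 2 = 0 := by
  set F := gp c00 c10 c20 c30 c01 c11 c21 c02 c12 with hF
  have hev : ∀ q : Fin 2 → K, eval q F = c00 + c10 * q 0 + c20 * q 0 ^ 2 + c30 * q 0 ^ 3 +
      (c01 + c11 * q 0 + c21 * q 0 ^ 2) * q 1 + (c02 + c12 * q 0) * q 1 ^ 2 := by
    intro q
    rw [hF]
    unfold gp
    simp
  have hmem : F ∈ HH (pt t y) 3 2 (fun k => if k = i0 then 0 else 1) := by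
    unfold HH
    rw [Submodule.mem_inf, Submodule.mem_iInf]
    refine ⟨gp_mem _ _ _ _ _ _ _ _ _, fun k => ?_⟩
    by_cases hk : k = i0
    · simp only [if_pos hk]; exact ordzero _ _
    · simp only [if_neg hk]
      refine isom _ _ ?_
      rw [hev]
      exact h k hk
  have hr := h1 K 12 t y hg 3 2 (fun k => if k = i0 then 0 else 1)
    (fun k => by by_cases hk : k = i0 <;> simp [hk])
  have hd := (h2 K).2.2.1 3 2 (by norm_num)
  have hs : ∑ k : Fin 12, (if k = i0 then (0 : ℤ) else 1) = 11 := by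
    have : ∀ k : Fin 12, (if k = i0 then (0 : ℤ) else 1) = 1 - (if k = i0 then 1 else 0) := by
      intro k; split_ifs <;> norm_num
    simp only [this, Finset.sum_sub_distrib, Finset.sum_ite_eq', Finset.mem_univ, if_true]
    simp
  have hfd : FiniteDimensional K (PD K 3 2) := (h2 K).1 3 2
  have hfd2 : FiniteDimensional K (HH (pt t y) 3 2 (fun k => if k = i0 then 0 else 1)) :=
    Submodule.finiteDimensional_of_le (S₂ := PD K 3 2) (by unfold HH; exact inf_le_left)
  have hz : Module.finrank K (HH (pt t y) 3 2 (fun k => if k = i0 then 0 else 1)) = 0 := by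
    rw [hs] at hr
    push_cast at hd
    have h9 : (Module.finrank K (PD K 3 2) : ℤ) = 9 := by linarith
    rw [h9] at hr
    have h10 : max (0 : ℤ) (9 - 11) = 0 := by norm_num
    rw [h10] at hr
    have h11 := Int.natCast_nonneg
      (Module.finrank K (HH (pt t y) 3 2 (fun k => if k = i0 then 0 else 1)))
    exact_mod_cast le_antisymm hr h11
  rw [Submodule.finrank_eq_zero] at hz
  rw [hz, Submodule.mem_bot] at hmem
  intro T Y
  have := hev ![T, Y]
  rw [hmem] at this
  simpa using this.symm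

theorem vanish5 (h1 : S_Simple) (h2 : S_PDRank) {K : Type} [Field K] [CharZero K]
    {t y : Fin 12 → K} (hg : Gen t y) (p0 p1 p2 p3 p4 : K)
    (h : ∀ k, p0 + p1 * t k + p2 * y k + p3 * t k ^ 2 + p4 * (t k * y k) = 0) :
    p0 = 0 ∧ p1 = 0 ∧ p2 = 0 ∧ p3 = 0 ∧ p4 = 0 := by
  have H := vanish h1 h2 hg 0 p0 p1 p3 0 p2 p4 0 0 0 (fun k _ => by linear_combination h k)
  have e1 := H 0 0
  have e2 := H 1 0
  have e3 := H (-1) 0
  have e4 := H 0 1
  have e5 := H 1 1
  have a0 : p0 = 0 := by linear_combination e1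
  have a3 : p3 = 0 := by linear_combination (1 / 2) * e2 + (1 / 2) * e3 - a0
  have a1 : p1 = 0 := by linear_combination e2 - a0 - a3
  have a2 : p2 = 0 := by linear_combination e4 - a0
  have a4 : p4 = 0 := by linear_combination e5 - a0 - a1 - a2 - a3
  exact ⟨a0, a1, a2, a3, a4⟩

theorem key1 (h1 : S_Simple) (h2 : S_PDRank) {K : Type} [Field K] [CharZero K]
    {t y : Fin 12 → K} (hg : Gen t y) (p0 p1 p2 p3 p4 s0 s1 s2 q0 q1 q2 q3 q4 r0 r1 r2 : K)
    (h : ∀ k, (p0 + p1 * t k + p2 * y k + p3 * t k ^ 2 + p4 * (t k * y k)) *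
        (s0 + s1 * t k + s2 * y k) =
      (q0 + q1 * t k + q2 * y k + q3 * t k ^ 2 + q4 * (t k * y k)) *
        (r0 + r1 * t k + r2 * y k)) (T Y : K) :
    (p0 + p1 * T + p2 * Y + p3 * T ^ 2 + p4 * (T * Y)) * (s0 + s1 * T + s2 * Y) =
      (q0 + q1 * T + q2 * Y + q3 * T ^ 2 + q4 * (T * Y)) * (r0 + r1 * T + r2 * Y) := by
  have H := vanish h1 h2 hg 0 (p0 * s0 - q0 * r0) (p0 * s1 + p1 * s0 - (q0 * r1 + q1 * r0))
    (p1 * s1 + p3 * s0 - (q1 * r1 + q3 * r0)) (p3 * s1 - q3 * r1)
    (p0 * s2 + p2 * s0 - (q0 * r2 + q2 * r0))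
    (p1 * s2 + p2 * s1 + p4 * s0 - (q1 * r2 + q2 * r1 + q4 * r0))
    (p3 * s2 + p4 * s1 - (q3 * r2 + q4 * r1)) (p2 * s2 - q2 * r2) (p4 * s2 - q4 * r2)
    (fun k _ => by linear_combination h k) T Y
  linear_combination H

/-- `(t - θ₁)(t - θ₂)` is not a multiple of the equation of the line at 11 generic points -/
theorem noComb (h1 : S_Simple) (h2 : S_PDRank) {K : Type} [Field K] [CharZero K]
    {t y : Fin 12 → K} (hg : Gen t y) (a1 b1 a2 b2 : K) (hne : a1 ≠ a2) (i0 : Fin 12)
    (l0 l1 l2 : K)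
    (h : ∀ k, k ≠ i0 → (t k - a1) * (t k - a2) = (l0 + l1 * t k + l2 * y k) *
      ((y k - b1) * (a2 - a1) - (b2 - b1) * (t k - a1))) : False := by
  have H := vanish h1 h2 hg i0
    (a1 * a2 - l0 * ((b2 - b1) * a1 - (a2 - a1) * b1))
    (-(a1 + a2) - l1 * ((b2 - b1) * a1 - (a2 - a1) * b1) + l0 * (b2 - b1))
    (1 + l1 * (b2 - b1)) 0
    (-(l0 * (a2 - a1) + l2 * ((b2 - b1) * a1 - (a2 - a1) * b1)))
    (-(l1 * (a2 - a1) - l2 * (b2 - b1))) 0 (-(l2 * (a2 - a1))) 0
    (fun k hk => by linear_combination h k hk) (a1 - (a2 - a1)) (b1 - (b2 - b1))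
  have h3 : 2 * (a2 - a1) ^ 2 = 0 := by linear_combination H
  have h4 : (2 : K) ≠ 0 := two_ne_zero
  have h5 : a2 - a1 ≠ 0 := sub_ne_zero.2 hne.symm
  exact (mul_ne_zero h4 (pow_ne_zero 2 h5)) h3

theorem gen_up {K : Type} [Field K] [Algebra ℂ K] [CharZero K] {t y : Fin 12 → ℂ}
    (hg : Gen t y) : Gen (up t : Fin 12 → K) (up y) := by
  unfold Gen at *
  have h := hg.map' (f := (algebraMap ℂ K).toRatAlgHom) (by exact (algebraMap ℂ K).injective)
  convert h using 1
  funext i
  cases i <;> rfl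

/-! ### the map `piMap` -/

theorem piMap_lin {P : Fin 13 → Fin (9 + 1) → ℂ} {c : Fin 13 → ℂ} {t y : Fin 12 → ℂ}
    (hG : GaleData P c t y) {R : Type} [CommRing R] [Algebra ℂ R] (x x' : Fin 12 → R)
    (l l' l0 l1 l2 : R) (j : Fin (9 + 1)) :
    piMap P c (fun i => l * x i + l' * x' i + l0 + l1 * algebraMap ℂ R (t i) +
      l2 * algebraMap ℂ R (y i)) j =
      l * piMap P c x j + l' * piMap P c x' j - l2 * algebraMap ℂ R (c 0 * P 0 j) := by
  have e1 : ∑ i : Fin 12, algebraMap ℂ R (c i.succ * P i.succ j) = 0 := by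
    rw [← map_sum]
    have := congrFun hG.rel1 j
    simp only [Finset.sum_apply, Pi.smul_apply, smul_eq_mul, Pi.zero_apply] at this
    rw [this, map_zero]
  have e2 : ∑ i : Fin 12, algebraMap ℂ R (t i) * algebraMap ℂ R (c i.succ * P i.succ j) = 0 := by
    simp only [← map_mul]
    rw [← map_sum]
    have := congrFun hG.rel2 j
    simp only [Finset.sum_apply, Pi.smul_apply, smul_eq_mul, Pi.zero_apply, mul_assoc] at this
    rw [this, map_zero]
  have e3 : algebraMap ℂ R (c 0 * P 0 j) +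
      ∑ i : Fin 12, algebraMap ℂ R (y i) * algebraMap ℂ R (c i.succ * P i.succ j) = 0 := by
    simp only [← map_mul]
    rw [← map_sum, ← map_add]
    have := congrFun hG.rel3 j
    simp only [Finset.sum_apply, Pi.add_apply, Pi.smul_apply, smul_eq_mul, Pi.zero_apply,
      mul_assoc] at this
    rw [this, map_zero]
  unfold piMap
  have e : ∀ i : Fin 12, (l * x i + l' * x' i + l0 + l1 * algebraMap ℂ R (t i) +
      l2 * algebraMap ℂ R (y i)) * algebraMap ℂ R (c i.succ * P i.succ j) =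
      l * (x i * algebraMap ℂ R (c i.succ * P i.succ j)) +
      l' * (x' i * algebraMap ℂ R (c i.succ * P i.succ j)) +
      l0 * algebraMap ℂ R (c i.succ * P i.succ j) +
      l1 * (algebraMap ℂ R (t i) * algebraMap ℂ R (c i.succ * P i.succ j)) +
      l2 * (algebraMap ℂ R (y i) * algebraMap ℂ R (c i.succ * P i.succ j)) := fun i => by ring
  simp only [e, Finset.sum_add_distrib, ← Finset.mul_sum]
  rw [e1, e2]
  linear_combination l2 * e3

theorem piMap_map {P : Fin 13 → Fin (9 + 1) → ℂ} {c : Fin 13 → ℂ} {R S : Type} [CommRing R]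
    [Algebra ℂ R] [CommRing S] [Algebra ℂ S] (f : R →ₐ[ℂ] S) (x : Fin 12 → R) (j : Fin (9 + 1)) :
    piMap P c (fun i => f (x i)) j = f (piMap P c x j) := by
  unfold piMap
  rw [map_sum]
  refine Finset.sum_congr rfl fun i _ => ?_
  rw [map_mul f, AlgHom.commutes]

theorem natAdd3 (j : Fin 10) : (Fin.natAdd 3 j : Fin 13) = j.succ.succ.succ := by
  ext
  simp
  omega

theorem exB {P : Fin 13 → Fin (9 + 1) → ℂ} {c : Fin 13 → ℂ} {t y : Fin 12 → ℂ}
    (hG : GaleData P c t y) : ∃ B : Matrix (Fin 10) (Fin 10) ℂ,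
      (∀ j k, ∑ l, P (j.succ.succ.succ) l * B l k = if j = k then 1 else 0) ∧
      (∀ l m, ∑ j, B l j * P (j.succ.succ.succ) m = if l = m then 1 else 0) := by
  let A : Matrix (Fin 10) (Fin 10) ℂ := fun j l => P (j.succ.succ.succ) l
  have hA : LinearIndependent ℂ A.row := by
    have := hG.basis
    convert this using 1
    funext j
    rw [natAdd3]
    rfl
  have hu : IsUnit A := Matrix.linearIndependent_rows_iff_isUnit.1 hA
  obtain ⟨u, hu⟩ := hu
  refine ⟨(u⁻¹ : (Matrix (Fin 10) (Fin 10) ℂ)ˣ), fun j k => ?_, fun l m => ?_⟩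
  · have h := u.mul_inv
    rw [hu] at h
    have := congrFun (congrFun h j) k
    rw [Matrix.mul_apply, Matrix.one_apply] at this
    exact this
  · have h := u.inv_mul
    rw [hu] at h
    have := congrFun (congrFun h l) m
    rw [Matrix.mul_apply, Matrix.one_apply] at this
    exact this

/-- the section of `piMap` -/
noncomputable def sec (B : Matrix (Fin 10) (Fin 10) ℂ) (c : Fin 13 → ℂ) {R : Type} [CommRing R]
    [Algebra ℂ R] (w : Fin 10 → R) : Fin 12 → R :=
  Fin.cons 0 (Fin.cons 0 (fun j => (∑ l, w l * algebraMap ℂ R (B l j)) *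
    algebraMap ℂ R (c (j.succ.succ.succ))⁻¹))

theorem piMap_cons {P : Fin 13 → Fin (9 + 1) → ℂ} {c : Fin 13 → ℂ} {R : Type} [CommRing R]
    [Algebra ℂ R] (x : Fin 12 → R) (h0 : x 0 = 0) (h1 : x 1 = 0) (m : Fin (9 + 1)) :
    piMap P c x m = ∑ j : Fin 10, x j.succ.succ *
      algebraMap ℂ R (c j.succ.succ.succ * P j.succ.succ.succ m) := by
  unfold piMap
  rw [Fin.sum_univ_succ, Fin.sum_univ_succ]
  have : (Fin.succ 0 : Fin 12) = 1 := rfl
  rw [this, h0, h1, zero_mul, zero_mul, zero_add, zero_add]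

theorem piMap_sec {P : Fin 13 → Fin (9 + 1) → ℂ} {c : Fin 13 → ℂ} {t y : Fin 12 → ℂ}
    (hG : GaleData P c t y) (B : Matrix (Fin 10) (Fin 10) ℂ)
    (hB : ∀ l m, ∑ j, B l j * P (j.succ.succ.succ) m = if l = m then 1 else 0)
    {R : Type} [CommRing R] [Algebra ℂ R] (w : Fin 10 → R) (m : Fin 10) :
    piMap P c (sec B c w) m = w m := by
  rw [piMap_cons (sec B c w) rfl rfl]
  have e : ∀ j : Fin 10, sec B c w j.succ.succ *
      algebraMap ℂ R (c j.succ.succ.succ * P j.succ.succ.succ m) =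
      ∑ l, w l * algebraMap ℂ R (B l j * P j.succ.succ.succ m) := by
    intro j
    have e0 : sec B c w j.succ.succ = (∑ l, w l * algebraMap ℂ R (B l j)) *
      algebraMap ℂ R (c (j.succ.succ.succ))⁻¹ := rfl
    have e1 : algebraMap ℂ R (c (j.succ.succ.succ))⁻¹ * algebraMap ℂ R (c j.succ.succ.succ) = 1 := by
      rw [← map_mul, inv_mul_cancel₀ (hG.c_ne _), map_one]
    rw [e0, map_mul]
    have e2 : (∑ l, w l * algebraMap ℂ R (B l j)) * algebraMap ℂ R (c (j.succ.succ.succ))⁻¹ *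
      (algebraMap ℂ R (c j.succ.succ.succ) * algebraMap ℂ R (P j.succ.succ.succ m)) =
      (∑ l, w l * algebraMap ℂ R (B l j)) * algebraMap ℂ R (P j.succ.succ.succ m) := by
      linear_combination (∑ l, w l * algebraMap ℂ R (B l j)) *
        algebraMap ℂ R (P j.succ.succ.succ m) * e1
    rw [e2, Finset.sum_mul]
    refine Finset.sum_congr rfl fun l _ => ?_
    rw [map_mul]
    ring
  simp only [e]
  rw [Finset.sum_comm]
  simp only [← Finset.mul_sum, ← map_sum, hB]
  rw [Finset.sum_eq_single m]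
  · simp
  · intro b _ hb
    rw [if_neg hb, map_zero, mul_zero]
  · intro h
    exact absurd (Finset.mem_univ m) h

theorem t_ne {t y : Fin 12 → ℂ} (hg : Gen t y) {i j : Fin 12} (h : i ≠ j) : t i ≠ t j := by
  intro e
  unfold Gen at hg
  have : (Sum.inl i : Fin 12 ⊕ Fin 12) = Sum.inl j := hg.injective e
  exact h (Sum.inl_injective this)

theorem piMap_ker {P : Fin 13 → Fin (9 + 1) → ℂ} {c : Fin 13 → ℂ} {t y : Fin 12 → ℂ}
    (hG : GaleData P c t y) {K : Type} [Field K] [Algebra ℂ K] (x : Fin 12 → K)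
    (hx : ∀ m, piMap P c x m = 0) : ∃ l0 l1 : K, ∀ i, x i = l0 + l1 * algebraMap ℂ K (t i) := by
  obtain ⟨B, hB1, -⟩ := exB hG
  have ht : algebraMap ℂ K (t 1) - algebraMap ℂ K (t 0) ≠ 0 := by
    rw [sub_ne_zero]
    intro e
    exact t_ne hG.gen (by decide) ((algebraMap ℂ K).injective e)
  set l1 : K := (x 1 - x 0) / (algebraMap ℂ K (t 1) - algebraMap ℂ K (t 0)) with hl1
  set l0 : K := x 0 - l1 * algebraMap ℂ K (t 0) with hl0
  have hl1' : l1 * (algebraMap ℂ K (t 1) - algebraMap ℂ K (t 0)) = x 1 - x 0 := by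
    rw [hl1, div_mul_cancel₀ _ ht]
  refine ⟨l0, l1, ?_⟩
  let z : Fin 12 → K := fun i => 1 * x i + 0 * x i + (-l0) + (-l1) * algebraMap ℂ K (t i) +
    0 * algebraMap ℂ K (y i)
  have hz : ∀ m, piMap P c z m = 0 := by
    intro m
    rw [piMap_lin hG x x 1 0 (-l0) (-l1) 0 m, hx]
    ring
  have hz0 : z 0 = 0 := by
    show 1 * x 0 + 0 * x 0 + (-l0) + (-l1) * algebraMap ℂ K (t 0) + 0 * algebraMap ℂ K (y 0) = 0
    rw [hl0]; ring
  have hz1 : z 1 = 0 := by
    show 1 * x 1 + 0 * x 1 + (-l0) + (-l1) * algebraMap ℂ K (t 1) + 0 * algebraMap ℂ K (y 1) = 0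
    rw [hl0]; linear_combination -hl1'
  have hzj : ∀ j : Fin 10, z j.succ.succ = 0 := by
    intro k
    have e1 : ∑ m, piMap P c z m * algebraMap ℂ K (B m k) = 0 := by
      refine Finset.sum_eq_zero fun m _ => ?_
      rw [hz, zero_mul]
    have e2 : ∑ m, piMap P c z m * algebraMap ℂ K (B m k) =
        ∑ j : Fin 10, z j.succ.succ * algebraMap ℂ K (c j.succ.succ.succ) *
          algebraMap ℂ K (∑ m, P j.succ.succ.succ m * B m k) := by
      simp only [piMap_cons z hz0 hz1, Finset.sum_mul]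
      rw [Finset.sum_comm]
      refine Finset.sum_congr rfl fun j _ => ?_
      rw [map_sum, Finset.mul_sum]
      refine Finset.sum_congr rfl fun m _ => ?_
      rw [map_mul, map_mul]
      ring
    rw [e2] at e1
    simp only [hB1] at e1
    rw [Finset.sum_eq_single k] at e1
    · rw [if_pos rfl, map_one, mul_one] at e1
      rcases mul_eq_zero.1 e1 with h | h
      · exact h
      · exfalso
        exact hG.c_ne _ ((map_eq_zero _).1 h)
    · intro b _ hb
      rw [if_neg hb, map_zero, mul_zero]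
    · intro h
      exact absurd (Finset.mem_univ k) h
  have hall : ∀ i, z i = 0 := by
    intro i
    refine Fin.cases hz0 (fun i => ?_) i
    refine Fin.cases hz1 (fun i => ?_) i
    exact hzj i
  intro i
  have := hall i
  have e : z i = 1 * x i + 0 * x i + (-l0) + (-l1) * algebraMap ℂ K (t i) +
    0 * algebraMap ℂ K (y i) := rfl
  rw [e] at this
  linear_combination this

/-! ### descent of solutions of linear systems -/

theorem descent {L K : Type} [Field L] [Field K] [Algebra L K] {m n : ℕ}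
    (M : Matrix (Fin m) (Fin n) L) (v : Fin n → K) (hv : v ≠ 0)
    (h : ∀ k, ∑ j, algebraMap L K (M k j) * v j = 0) :
    ∃ u : Fin n → L, u ≠ 0 ∧ ∀ k, ∑ j, M k j * u j = 0 := by
  by_contra hcon
  push Not at hcon
  have hinj : LinearMap.ker (Matrix.toLin' M) = ⊥ := by
    rw [LinearMap.ker_eq_bot']
    intro u hu
    by_contra hne
    obtain ⟨k, hk⟩ := hcon u hne
    apply hk
    have := congrFun hu k
    rw [Matrix.toLin'_apply] at this
    exact this
  obtain ⟨g, hg⟩ := LinearMap.exists_leftInverse_of_injective _ hinj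
  have h1 : LinearMap.toMatrix' g * M = 1 := by
    have : LinearMap.toMatrix' (g ∘ₗ Matrix.toLin' M) = 1 := by
      rw [hg, LinearMap.toMatrix'_id]
    rw [LinearMap.toMatrix'_comp, LinearMap.toMatrix'_toLin'] at this
    exact this
  have h2 : (LinearMap.toMatrix' g).map (algebraMap L K) * M.map (algebraMap L K) = 1 := by
    rw [← Matrix.map_mul, h1, Matrix.map_one _ (map_zero _) (map_one _)]
  apply hv
  have h3 : (M.map (algebraMap L K)).mulVec v = 0 := by
    funext k
    exact h k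
  calc v = (1 : Matrix (Fin n) (Fin n) K).mulVec v := (Matrix.one_mulVec v).symm
    _ = 0 := by rw [← h2, ← Matrix.mulVec_mulVec, h3, Matrix.mulVec_zero]

/-! ### consequences of the independence of `θ₁, η₁, θ₂, η₂` -/

theorem th_ne {K : Type} [Field K] [Algebra ℂ K] {a1 b1 a2 b2 : K}
    (h : AlgebraicIndependent ℂ ![a1, b1, a2, b2]) : a1 ≠ a2 := by
  intro e
  have : (0 : Fin 4) = 2 := h.injective (by simpa using e)
  exact absurd this (by decide)

theorem R_ne {K : Type} [Field K] [Algebra ℂ K] {a1 b1 a2 b2 : K}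
    (h : AlgebraicIndependent ℂ ![a1, b1, a2, b2]) (s z : ℂ) :
    (algebraMap ℂ K z - b1) * (a2 - a1) - (b2 - b1) * (algebraMap ℂ K s - a1) ≠ 0 := by
  intro e
  let p : MvPolynomial (Fin 4) ℂ := (C z - X 1) * (X 2 - X 0) - (X 3 - X 1) * (C s - X 0)
  have hp : aeval ![a1, b1, a2, b2] p = 0 := by
    simp only [p, map_sub, map_mul, aeval_X, aeval_C]
    simpa using e
  have hp0 := h.eq_zero_of_aeval_eq_zero p hp
  have := congrArg (eval ![s, z - 1, s + 1, 0]) hp0
  simp [p] at this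

/-- `w` is not a multiple of one of the points -/
theorem notMul (h1 : S_Simple) (h2 : S_PDRank) {P : Fin 13 → Fin (9 + 1) → ℂ} {c : Fin 13 → ℂ}
    {t y : Fin 12 → ℂ} (hG : GaleData P c t y) {K : Type} [Field K] [Algebra ℂ K]
    {a1 b1 a2 b2 : K} (hz : AlgebraicIndependent ℂ ![a1, b1, a2, b2]) (x : Fin 12 → K)
    (hx : ∀ i, x i = (algebraMap ℂ K (t i) - a1) * (algebraMap ℂ K (t i) - a2) /
        ((algebraMap ℂ K (y i) - b1) * (a2 - a1) - (b2 - b1) * (algebraMap ℂ K (t i) - a1)))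
    (i : Fin 13) (μ : K) (hμ : ∀ j, piMap P c x j = μ * algebraMap ℂ K (P i j)) : False := by
  have : CharZero K := charZero_of_injective_algebraMap (algebraMap ℂ K).injective
  have hgen : Gen (up t : Fin 12 → K) (up y) := gen_up hG.gen
  have hxR : ∀ k, x k * ((algebraMap ℂ K (y k) - b1) * (a2 - a1) -
      (b2 - b1) * (algebraMap ℂ K (t k) - a1)) =
      (algebraMap ℂ K (t k) - a1) * (algebraMap ℂ K (t k) - a2) := by
    intro k
    rw [hx, div_mul_cancel₀ _ (R_ne hz _ _)]
  refine Fin.cases (motive := fun i => (∀ j, piMap P c x j = μ * algebraMap ℂ K (P i j)) → False)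
    ?_ ?_ i hμ
  · intro hμ
    have hc : algebraMap ℂ K (c 0) ≠ 0 := by
      intro e
      exact hG.c_ne 0 ((map_eq_zero _).1 e)
    obtain ⟨l0, l1, hl⟩ := piMap_ker hG (fun i => 1 * x i + 0 * x i + 0 +
      0 * algebraMap ℂ K (t i) + (μ / algebraMap ℂ K (c 0)) * algebraMap ℂ K (y i)) (fun m => by
        rw [piMap_lin hG x x 1 0 0 0 (μ / algebraMap ℂ K (c 0)) m, hμ, map_mul]
        field_simp
        ring)
    refine noComb h1 h2 hgen a1 b1 a2 b2 (th_ne hz) 0 l0 l1 (-(μ / algebraMap ℂ K (c 0)))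
      (fun k _ => ?_)
    have e1 := hl k
    show (algebraMap ℂ K (t k) - a1) * (algebraMap ℂ K (t k) - a2) =
      (l0 + l1 * algebraMap ℂ K (t k) + (-(μ / algebraMap ℂ K (c 0))) * algebraMap ℂ K (y k)) *
      ((algebraMap ℂ K (y k) - b1) * (a2 - a1) - (b2 - b1) * (algebraMap ℂ K (t k) - a1))
    rw [← hxR k]
    linear_combination ((algebraMap ℂ K (y k) - b1) * (a2 - a1) -
      (b2 - b1) * (algebraMap ℂ K (t k) - a1)) * e1
  · intro i0 hμ
    have hc : algebraMap ℂ K (c i0.succ) ≠ 0 := by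
      intro e
      exact hG.c_ne _ ((map_eq_zero _).1 e)
    obtain ⟨l0, l1, hl⟩ := piMap_ker hG (fun i => 1 * x i +
      (-(μ / algebraMap ℂ K (c i0.succ))) * (if i = i0 then 1 else 0) + 0 +
      0 * algebraMap ℂ K (t i) + 0 * algebraMap ℂ K (y i)) (fun m => by
        rw [piMap_lin hG x (fun i => if i = i0 then 1 else 0) 1
          (-(μ / algebraMap ℂ K (c i0.succ))) 0 0 0 m, hμ]
        have : piMap P c (fun i => if i = i0 then (1 : K) else 0) m =
            algebraMap ℂ K (c i0.succ * P i0.succ m) := by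
          unfold piMap
          simp only [ite_mul, one_mul, zero_mul, Finset.sum_ite_eq', Finset.mem_univ, if_true]
        rw [this, map_mul]
        field_simp
        ring)
    refine noComb h1 h2 hgen a1 b1 a2 b2 (th_ne hz) i0 l0 l1 0 (fun k hk => ?_)
    have e1 := hl k
    simp only [if_neg hk] at e1
    show (algebraMap ℂ K (t k) - a1) * (algebraMap ℂ K (t k) - a2) =
      (l0 + l1 * algebraMap ℂ K (t k) + 0 * algebraMap ℂ K (y k)) *
      ((algebraMap ℂ K (y k) - b1) * (a2 - a1) - (b2 - b1) * (algebraMap ℂ K (t k) - a1))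
    rw [← hxR k]
    linear_combination ((algebraMap ℂ K (y k) - b1) * (a2 - a1) -
      (b2 - b1) * (algebraMap ℂ K (t k) - a1)) * e1

theorem P_ne (h1 : S_Simple) (h2 : S_PDRank) {P : Fin 13 → Fin (9 + 1) → ℂ} {c : Fin 13 → ℂ}
    {t y : Fin 12 → ℂ} (hG : GaleData P c t y) (i : Fin 13) : P i ≠ 0 := by
  refine Fin.cases (motive := fun i => P i ≠ 0) ?_ ?_ i
  · intro h0
    obtain ⟨l0, l1, hl⟩ := piMap_ker hG (K := ℂ) (fun i => 0 * (0 : ℂ) + 0 * (0 : ℂ) + 0 +
      0 * algebraMap ℂ ℂ (t i) + 1 * algebraMap ℂ ℂ (y i)) (fun m => by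
        rw [piMap_lin hG (fun _ => (0 : ℂ)) (fun _ => (0 : ℂ)) 0 0 0 0 1 m, h0]
        simp)
    have := vanish5 h1 h2 hG.gen l0 l1 (-1) 0 0 (fun k => by
      have := hl k
      simp only [Algebra.algebraMap_self, RingHom.id_apply] at this
      linear_combination -this)
    have h3 := this.2.2.1
    norm_num at h3
  · intro i0 h0
    obtain ⟨l0, l1, hl⟩ := piMap_ker hG (K := ℂ) (fun i => if i = i0 then 1 else 0) (fun m => by
        unfold piMap
        simp only [ite_mul, one_mul, zero_mul, Finset.sum_ite_eq', Finset.mem_univ, if_true, h0]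
        simp)
    have H := vanish h1 h2 hG.gen i0 l0 l1 0 0 0 0 0 0 0 (fun k hk => by
      have := hl k
      simp only [if_neg hk, Algebra.algebraMap_self, RingHom.id_apply] at this
      linear_combination -this) (t i0) 0
    have h3 := hl i0
    simp only [if_true, Algebra.algebraMap_self, RingHom.id_apply] at h3
    have : (1 : ℂ) = 0 := by linear_combination h3 + H
    norm_num at this

theorem alg_root {L K : Type} [Field L] [Field K] [Algebra L K] (S Q : L) (z : K)
    (h : z ^ 2 - algebraMap L K S * z + algebraMap L K Q = 0) : IsAlgebraic L z := by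
  refine ⟨Polynomial.X ^ 2 - Polynomial.C S * Polynomial.X + Polynomial.C Q, ?_, ?_⟩
  · intro h0
    have := congrArg (fun p => Polynomial.coeff p 2) h0
    simp at this
  · simpa using h

theorem dim4 (h1 : S_Simple) (h2 : S_PDRank) {P : Fin 13 → Fin (9 + 1) → ℂ} {c : Fin 13 → ℂ}
    {t y : Fin 12 → ℂ} (hG : GaleData P c t y) {K : Type} [Field K] [Algebra ℂ K]
    {a1 b1 a2 b2 : K} (hz : AlgebraicIndependent ℂ ![a1, b1, a2, b2]) (x : Fin 12 → K)
    (hx : ∀ i, x i = (algebraMap ℂ K (t i) - a1) * (algebraMap ℂ K (t i) - a2) /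
        ((algebraMap ℂ K (y i) - b1) * (a2 - a1) - (b2 - b1) * (algebraMap ℂ K (t i) - a1))) :
    DimGE 4 (piMap P c x) := by
  have : CharZero K := charZero_of_injective_algebraMap (algebraMap ℂ K).injective
  have hgen : Gen (up t : Fin 12 → K) (up y) := gen_up hG.gen
  set w := piMap P c x with hw
  obtain ⟨j0, hj0⟩ : ∃ j0, w j0 ≠ 0 := by
    by_contra hcon
    push Not at hcon
    exact notMul h1 h2 hG hz x hx 0 0 (fun j => by rw [← hw, hcon j, zero_mul])
  let L := ratioField ℂ w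
  obtain ⟨B, -, hB⟩ := exB hG
  let w' : Fin 10 → L := fun j =>
    ⟨w j / w j0, IntermediateField.subset_adjoin _ _ ⟨j, j0, hj0, rfl⟩⟩
  let x' : Fin 12 → L := sec B c w'
  have hx' : ∀ m, piMap P c (fun i => (x' i : K)) m = w m / w j0 := by
    intro m
    have e := piMap_map (P := P) (c := c) (L.val) x' m
    rw [piMap_sec hG B hB] at e
    exact e
  set lam : K := 1 / w j0 with hlam
  have hlam0 : lam ≠ 0 := one_div_ne_zero hj0
  obtain ⟨l0, l1, hl⟩ := piMap_ker hG (fun i => 1 * (x' i : K) + (-lam) * x i + 0 +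
      0 * algebraMap ℂ K (t i) + 0 * algebraMap ℂ K (y i)) (fun m => by
        rw [piMap_lin hG (fun i => (x' i : K)) x 1 (-lam) 0 0 0 m, hx', ← hw, hlam]
        ring)
  have hD : a2 - a1 ≠ 0 := sub_ne_zero.2 (th_ne hz).symm
  set D := a2 - a1 with hDdef
  set E := b2 - b1 with hEdef
  have hkey : ∀ k, (x' k : K) * ((algebraMap ℂ K (y k) - b1) * D -
      E * (algebraMap ℂ K (t k) - a1)) =
      lam * ((algebraMap ℂ K (t k) - a1) * (algebraMap ℂ K (t k) - a2)) +
      (l0 + l1 * algebraMap ℂ K (t k)) * ((algebraMap ℂ K (y k) - b1) * D -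
      E * (algebraMap ℂ K (t k) - a1)) := by
    intro k
    have e1 : x k * ((algebraMap ℂ K (y k) - b1) * D - E * (algebraMap ℂ K (t k) - a1)) =
        (algebraMap ℂ K (t k) - a1) * (algebraMap ℂ K (t k) - a2) := by
      rw [hx, div_mul_cancel₀ _ (R_ne hz _ _)]
    have e2 := hl k
    linear_combination lam * e1 + ((algebraMap ℂ K (y k) - b1) * D -
      E * (algebraMap ℂ K (t k) - a1)) * e2
  let M : Matrix (Fin 12) (Fin 8) L := fun k => ![1, algebraMap ℂ L (t k), algebraMap ℂ L (y k),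
    algebraMap ℂ L (t k) ^ 2, algebraMap ℂ L (t k) * algebraMap ℂ L (y k), -(x' k),
    -(x' k * algebraMap ℂ L (t k)), -(x' k * algebraMap ℂ L (y k))]
  let v : Fin 8 → K := ![lam * (a1 * a2) + l0 * (E * a1 - D * b1),
    -lam * (a1 + a2) + l0 * (-E) + l1 * (E * a1 - D * b1), l0 * D, lam + l1 * (-E), l1 * D,
    E * a1 - D * b1, -E, D]
  have hv : v ≠ 0 := by
    intro e
    exact hD (congrFun e 7)
  obtain ⟨u, hu, hu2⟩ := descent M v hv (fun k => by
    have e1 : ∀ s : ℂ, algebraMap L K (algebraMap ℂ L s) = algebraMap ℂ K s := fun s => rfl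
    have e2 : algebraMap L K (x' k) = (x' k : K) := rfl
    simp only [M, v, Fin.sum_univ_succ, Fin.sum_univ_zero, Matrix.cons_val_zero,
      Matrix.cons_val_succ, map_one, map_neg, map_mul, map_pow, e1, e2]
    linear_combination -hkey k)
  have hK : ∀ k, (u 0 : K) + u 1 * algebraMap ℂ K (t k) + u 2 * algebraMap ℂ K (y k) +
      u 3 * algebraMap ℂ K (t k) ^ 2 + u 4 * (algebraMap ℂ K (t k) * algebraMap ℂ K (y k)) =
      x' k * (u 5 + u 6 * algebraMap ℂ K (t k) + u 7 * algebraMap ℂ K (y k)) := by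
    intro k
    have e := congrArg (algebraMap L K) (hu2 k)
    have e1 : ∀ s : ℂ, algebraMap L K (algebraMap ℂ L s) = algebraMap ℂ K s := fun s => rfl
    have e2 : ∀ z : L, algebraMap L K z = (z : K) := fun z => rfl
    simp only [M, Fin.sum_univ_succ, Fin.sum_univ_zero, Matrix.cons_val_zero,
      Matrix.cons_val_succ, map_one, map_neg, map_mul, map_pow, map_add, map_zero, e1] at e
    simp only [e2] at e
    have f1 : (Fin.succ 0 : Fin 8) = 1 := rfl
    have f2 : (Fin.succ (Fin.succ 0) : Fin 8) = 2 := rfl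
    have f3 : (Fin.succ (Fin.succ (Fin.succ 0)) : Fin 8) = 3 := rfl
    have f4 : (Fin.succ (Fin.succ (Fin.succ (Fin.succ 0))) : Fin 8) = 4 := rfl
    have f5 : (Fin.succ (Fin.succ (Fin.succ (Fin.succ (Fin.succ 0)))) : Fin 8) = 5 := rfl
    have f6 : (Fin.succ (Fin.succ (Fin.succ (Fin.succ (Fin.succ (Fin.succ 0))))) : Fin 8) = 6 :=
      rfl
    have f7 : (Fin.succ (Fin.succ (Fin.succ (Fin.succ (Fin.succ (Fin.succ (Fin.succ 0)))))) :
      Fin 8) = 7 := rfl
    rw [f7, f6, f5, f4, f3, f2, f1] at e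
    linear_combination e
  have hid := key1 h1 h2 hgen (u 0 : K) (u 1) (u 2) (u 3) (u 4) (E * a1 - D * b1) (-E) D
    (lam * (a1 * a2) + l0 * (E * a1 - D * b1))
    (-lam * (a1 + a2) + l0 * (-E) + l1 * (E * a1 - D * b1)) (l0 * D) (lam + l1 * (-E)) (l1 * D)
    (u 5) (u 6) (u 7) (fun k => by
      show ((u 0 : K) + u 1 * algebraMap ℂ K (t k) + u 2 * algebraMap ℂ K (y k) +
        u 3 * algebraMap ℂ K (t k) ^ 2 + u 4 * (algebraMap ℂ K (t k) * algebraMap ℂ K (y k))) *
        (E * a1 - D * b1 + -E * algebraMap ℂ K (t k) + D * algebraMap ℂ K (y k)) =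
        ((lam * (a1 * a2) + l0 * (E * a1 - D * b1)) +
          (-lam * (a1 + a2) + l0 * (-E) + l1 * (E * a1 - D * b1)) * algebraMap ℂ K (t k) +
          (l0 * D) * algebraMap ℂ K (y k) + (lam + l1 * (-E)) * algebraMap ℂ K (t k) ^ 2 +
          (l1 * D) * (algebraMap ℂ K (t k) * algebraMap ℂ K (y k))) *
        ((u 5 : K) + u 6 * algebraMap ℂ K (t k) + u 7 * algebraMap ℂ K (y k))
      linear_combination (E * a1 - D * b1 + -E * algebraMap ℂ K (t k) +
        D * algebraMap ℂ K (y k)) * hK k +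
        ((u 5 : K) + u 6 * algebraMap ℂ K (t k) + u 7 * algebraMap ℂ K (y k)) * hkey k)
  have ha2 : a2 = a1 + D := by rw [hDdef]; ring
  have hDD : (2 : K) * lam * D ^ 2 ≠ 0 :=
    mul_ne_zero (mul_ne_zero two_ne_zero hlam0) (pow_ne_zero 2 hD)
  have hDD2 : (6 : K) * lam * D ^ 2 ≠ 0 :=
    mul_ne_zero (mul_ne_zero (by norm_num) hlam0) (pow_ne_zero 2 hD)
  have g1 : (u 5 : K) + u 6 * (a1 - D) + u 7 * (b1 - E) = 0 := by
    have := hid (a1 - D) (b1 - E)
    have e : 2 * lam * D ^ 2 * ((u 5 : K) + u 6 * (a1 - D) + u 7 * (b1 - E)) = 0 := by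
      rw [ha2] at this
      linear_combination -this
    exact (mul_eq_zero.1 e).resolve_left hDD
  have g2 : (u 5 : K) + u 6 * (a1 - 2 * D) + u 7 * (b1 - 2 * E) = 0 := by
    have := hid (a1 - 2 * D) (b1 - 2 * E)
    have e : 6 * lam * D ^ 2 * ((u 5 : K) + u 6 * (a1 - 2 * D) + u 7 * (b1 - 2 * E)) = 0 := by
      rw [ha2] at this
      linear_combination -this
    exact (mul_eq_zero.1 e).resolve_left hDD2
  have g3 : (u 6 : K) * D + u 7 * E = 0 := by linear_combination g1 - g2
  have g4 : (u 5 : K) + u 6 * a1 + u 7 * b1 = 0 := by linear_combination g1 + g3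
  have hu7 : (u 7 : K) ≠ 0 := by
    intro e7
    have e6 : (u 6 : K) = 0 := by
      rw [e7, zero_mul, add_zero] at g3
      exact (mul_eq_zero.1 g3).resolve_right hD
    have e5 : (u 5 : K) = 0 := by
      rw [e7, e6] at g4
      linear_combination g4
    obtain ⟨d0, d1, d2, d3, d4⟩ := vanish5 h1 h2 hgen (u 0 : K) (u 1) (u 2) (u 3) (u 4)
      (fun k => by
        have := hK k
        rw [e5, e6, e7] at this
        show (u 0 : K) + u 1 * algebraMap ℂ K (t k) + u 2 * algebraMap ℂ K (y k) +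
          u 3 * algebraMap ℂ K (t k) ^ 2 +
          u 4 * (algebraMap ℂ K (t k) * algebraMap ℂ K (y k)) = 0
        linear_combination this)
    apply hu
    funext i
    apply Subtype.ext
    fin_cases i
    · exact d0
    · exact d1
    · exact d2
    · exact d3
    · exact d4
    · exact e5
    · exact e6
    · exact e7
  obtain ⟨d0, d1, d2, d3, d4⟩ := vanish5 h1 h2 hgen
    (D * (u 0 : K) - u 7 * (lam * (a1 * a2) + l0 * (E * a1 - D * b1)))
    (D * (u 1 : K) - u 7 * (-lam * (a1 + a2) + l0 * (-E) + l1 * (E * a1 - D * b1)))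
    (D * (u 2 : K) - u 7 * (l0 * D))
    (D * (u 3 : K) - u 7 * (lam + l1 * (-E)))
    (D * (u 4 : K) - u 7 * (l1 * D))
    (fun k => by
      show (D * (u 0 : K) - u 7 * (lam * (a1 * a2) + l0 * (E * a1 - D * b1))) +
        (D * (u 1 : K) - u 7 * (-lam * (a1 + a2) + l0 * (-E) + l1 * (E * a1 - D * b1))) *
          algebraMap ℂ K (t k) +
        (D * (u 2 : K) - u 7 * (l0 * D)) * algebraMap ℂ K (y k) +
        (D * (u 3 : K) - u 7 * (lam + l1 * (-E))) * algebraMap ℂ K (t k) ^ 2 +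
        (D * (u 4 : K) - u 7 * (l1 * D)) * (algebraMap ℂ K (t k) * algebraMap ℂ K (y k)) = 0
      linear_combination D * hK k + (u 7 : K) * hkey k +
        (x' k : K) * D * g4 + (x' k : K) * (algebraMap ℂ K (t k) - a1) * g3)
  let bL : L := u 6 / u 7
  let aL : L := u 5 / u 7
  let cL : L := u 2 / u 7
  let dL : L := u 4 / u 7
  let eL : L := u 3 / u 7 - dL * bL
  have hb : (bL : K) = u 6 / u 7 := rfl
  have ha : (aL : K) = u 5 / u 7 := rfl
  have hb' : (bL : K) * D = -E := by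
    rw [hb]
    field_simp
    linear_combination g3
  have ha' : (aL : K) = -b1 - bL * a1 := by
    rw [ha, hb]
    field_simp
    linear_combination g4
  have hc' : (cL : K) = l0 := by
    have : (cL : K) = u 2 / u 7 := rfl
    rw [this, div_eq_iff hu7]
    have e : D * ((u 2 : K) - l0 * u 7) = 0 := by linear_combination d2
    linear_combination (mul_eq_zero.1 e).resolve_left hD
  have hd' : (dL : K) = l1 := by
    have : (dL : K) = u 4 / u 7 := rfl
    rw [this, div_eq_iff hu7]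
    have e : D * ((u 4 : K) - l1 * u 7) = 0 := by linear_combination d4
    linear_combination (mul_eq_zero.1 e).resolve_left hD
  have he' : (eL : K) * D = lam := by
    have : (eL : K) = u 3 / u 7 - dL * bL := rfl
    rw [this, hd']
    have e : (u 3 : K) / u 7 * D = lam + l1 * (-E) := by
      field_simp
      linear_combination d3
    linear_combination e - l1 * hb'
  have heL : (eL : K) ≠ 0 := by
    intro e
    rw [e, zero_mul] at he'
    exact hlam0 he'.symm
  let SL : L := (cL * bL + dL * aL - u 1 / u 7) / eL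
  let QL : L := (u 0 / u 7 - cL * aL) / eL
  have hS : (SL : K) = a1 + a2 := by
    have : (SL : K) = (cL * bL + dL * aL - u 1 / u 7) / eL := rfl
    rw [this, div_eq_iff heL, hc', hd', ha']
    have e : (u 1 : K) / u 7 * D =
        -lam * (a1 + a2) + l0 * (-E) + l1 * (E * a1 - D * b1) := by
      field_simp
      linear_combination d1
    have e2 : D * (l0 * bL + l1 * (-b1 - bL * a1) - (u 1 : K) / u 7 - (a1 + a2) * eL) = 0 := by
      linear_combination -e - (a1 + a2) * he' + (l0 - l1 * a1) * hb'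
    linear_combination (mul_eq_zero.1 e2).resolve_left hD
  have hQ : (QL : K) = a1 * a2 := by
    have : (QL : K) = (u 0 / u 7 - cL * aL) / eL := rfl
    rw [this, div_eq_iff heL, hc', ha']
    have e : (u 0 : K) / u 7 * D = lam * (a1 * a2) + l0 * (E * a1 - D * b1) := by
      field_simp
      linear_combination d0
    have e2 : D * ((u 0 : K) / u 7 - l0 * (-b1 - bL * a1) - a1 * a2 * eL) = 0 := by
      linear_combination e - (a1 * a2) * he' + l0 * a1 * hb'
    linear_combination (mul_eq_zero.1 e2).resolve_left hD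
  have hal1 : IsAlgebraic L a1 := alg_root SL QL a1 (by
    show a1 ^ 2 - (SL : K) * a1 + (QL : K) = 0
    rw [hS, hQ]; ring)
  have hal2 : IsAlgebraic L a2 := alg_root SL QL a2 (by
    show a2 ^ 2 - (SL : K) * a2 + (QL : K) = 0
    rw [hS, hQ]; ring)
  have hbe : ∀ z : K, IsAlgebraic L z → IsAlgebraic L (-(aL : K) - bL * z) := by
    intro z hzz
    exact ((isAlgebraic_algebraMap aL).neg).sub ((isAlgebraic_algebraMap bL).mul hzz)
  have hal3 : IsAlgebraic L b1 := by
    have : b1 = -(aL : K) - bL * a1 := by rw [ha']; ring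
    rw [this]
    exact hbe _ hal1
  have hal4 : IsAlgebraic L b2 := by
    have : b2 = -(aL : K) - bL * a2 := by
      have e : b2 = b1 + E := by rw [hEdef]; ring
      rw [ha', ha2, e]
      linear_combination hb'
    rw [this]
    exact hbe _ hal2
  unfold DimGE
  refine trdeg_ge L ![a1, b1, a2, b2] hz (fun i => ?_)
  fin_cases i
  · exact hal1
  · exact hal3
  · exact hal2
  · exact hal4

end SigDimAux

/-- `Σ_4` has dimension 4 and its general point is none of the `P_i` -/
theorem SigDim (h1 : S_Simple) (h2 : S_PDRank) : S_SigDim := by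
  intro P c t y hG K _ _ a1 b1 a2 b2 hz x hx
  refine ⟨SigDimAux.dim4 h1 h2 hG hz x hx, fun i hw => ?_⟩
  obtain ⟨k, hk⟩ : ∃ k, P i k ≠ 0 := Function.ne_iff.1 (SigDimAux.P_ne h1 h2 hG i)
  have hk' : algebraMap ℂ K (P i k) ≠ 0 := by
    intro e
    exact hk ((map_eq_zero _).1 e)
  refine SigDimAux.notMul h1 h2 hG hz x hx i
    (piMap P c x k / algebraMap ℂ K (P i k)) (fun j => ?_)
  have e := congrFun hw (j, k)
  simp only [wedge, Pi.zero_apply] at e
  field_simp
  linear_combination e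

end Pool.Agent.MP5769ea
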