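import Pool.Agent.Lib.MP_5769ea_ag.Spec3

set_option autoImplicit false
set_option linter.unusedVariables false
set_option linter.unusedSectionVars false

open MvPolynomial

namespace Pool.Agent.MP5769ea

namespace SigLocAux

/-- value group -/
abbrev Gz := WithZero (Multiplicative ℤ)

section val

variable {K : Type} [Field K] [Algebra ℂ K] {v : Valuation K Gz}

/-- max norm -/
noncomputable def mx {ι : Type} [Fintype ι] (v : Valuation K Gz) (w : ι → K) : Gz :=
  Finset.univ.sup fun j => v (w j)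

theorem nrm_eq {ι : Type} [Fintype ι] (w : ι → K) : nrm v w = WithZero.log (mx v w) := rfl

theorem le_mx {ι : Type} [Fintype ι] (w : ι → K) (j : ι) : v (w j) ≤ mx v w :=
  Finset.le_sup (f := fun j => v (w j)) (Finset.mem_univ j)

theorem mx_le {ι : Type} [Fintype ι] {w : ι → K} {r : Gz} (h : ∀ j, v (w j) ≤ r) :
    mx v w ≤ r := Finset.sup_le fun j _ => h j

theorem mx_lt {ι : Type} [Fintype ι] {w : ι → K} {r : Gz} (hr : 0 < r) (h : ∀ j, v (w j) < r) :
    mx v w < r := (Finset.sup_lt_iff (by simpa using hr)).2 fun j _ => h j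

theorem mx_pos {ι : Type} [Fintype ι] {w : ι → K} (h : w ≠ 0) : 0 < mx v w := by
  obtain ⟨j, hj⟩ := Function.ne_iff.1 h
  exact lt_of_lt_of_le (zero_lt_iff.2 ((Valuation.ne_zero_iff v).2 hj)) (le_mx w j)

theorem exists_mx {ι : Type} [Fintype ι] [Nonempty ι] (w : ι → K) : ∃ j, v (w j) = mx v w := by
  obtain ⟨j, _, hj⟩ := Finset.exists_mem_eq_sup Finset.univ Finset.univ_nonempty fun j => v (w j)
  exact ⟨j, hj.symm⟩

theorem alg_mul_le (hv : ∀ c : ℂ, v (algebraMap ℂ K c) ≤ 1) (c : ℂ) (z : K) :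
    v (algebraMap ℂ K c * z) ≤ v z := by
  rw [map_mul]
  exact (mul_le_mul' (hv c) le_rfl).trans (one_mul _).le

theorem mul_alg_le (hv : ∀ c : ℂ, v (algebraMap ℂ K c) ≤ 1) (c : ℂ) (z : K) :
    v (z * algebraMap ℂ K c) ≤ v z := by
  rw [mul_comm]; exact alg_mul_le hv c z

theorem v_alg (hv : ∀ c : ℂ, v (algebraMap ℂ K c) ≤ 1) {c : ℂ} (hc : c ≠ 0) :
    v (algebraMap ℂ K c) = 1 := by
  refine le_antisymm (hv c) ?_
  have h1 := hv c⁻¹
  have h2 : v (algebraMap ℂ K c) * v (algebraMap ℂ K c⁻¹) = 1 := by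
    rw [← map_mul, ← map_mul, mul_inv_cancel₀ hc, map_one, map_one]
  calc (1 : Gz) = v (algebraMap ℂ K c) * v (algebraMap ℂ K c⁻¹) := h2.symm
    _ ≤ v (algebraMap ℂ K c) * 1 := mul_le_mul' le_rfl h1
    _ = _ := mul_one _

/-- an invertible complex matrix is an isometry -/
theorem mat_lt (hv : ∀ c : ℂ, v (algebraMap ℂ K c) ≤ 1) {n : Type} [Fintype n] [DecidableEq n]
    (M : Matrix n n ℂ) (h : IsUnit M.det) (u : n → K) {ρ : Gz} (hρ : 0 < ρ)
    (hu : ∀ i, v (∑ j, algebraMap ℂ K (M i j) * u j) < ρ) (j : n) : v (u j) < ρ := by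
  have h1 : u j = ∑ i, algebraMap ℂ K (M⁻¹ j i) * ∑ k, algebraMap ℂ K (M i k) * u k := by
    simp only [Finset.mul_sum, ← mul_assoc, ← map_mul]
    rw [Finset.sum_comm]
    simp only [← Finset.sum_mul, ← map_sum]
    have h2 : ∀ k, ∑ i, M⁻¹ j i * M i k = if j = k then 1 else 0 := by
      intro k
      have := congrFun (congrFun (Matrix.nonsing_inv_mul M h) j) k
      rw [Matrix.mul_apply, Matrix.one_apply] at this
      exact this
    simp only [h2]
    simp
  rw [h1]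
  refine Valuation.map_sum_lt _ hρ.ne' fun i _ => ?_
  exact lt_of_le_of_lt (alg_mul_le hv _ _) (hu i)

/-! ### vectors with three coordinates -/

/-- scalar product -/
def dt {R : Type} [CommRing R] (a b : Fin 3 → R) : R := a 0 * b 0 + a 1 * b 1 + a 2 * b 2

/-- cross product -/
def cr {R : Type} [CommRing R] (a b : Fin 3 → R) : Fin 3 → R :=
  ![a 1 * b 2 - a 2 * b 1, a 2 * b 0 - a 0 * b 2, a 0 * b 1 - a 1 * b 0]

theorem add_le' {a b : K} {r : Gz} (ha : v a ≤ r) (hb : v b ≤ r) : v (a + b) ≤ r :=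
  v.map_add_le ha hb

theorem sub_le' {a b : K} {r : Gz} (ha : v a ≤ r) (hb : v b ≤ r) : v (a - b) ≤ r :=
  (v.map_sub a b).trans (max_le ha hb)

theorem v_dt_le (a b : Fin 3 → K) : v (dt a b) ≤ mx v a * mx v b := by
  have h : ∀ i : Fin 3, v (a i * b i) ≤ mx v a * mx v b := fun i => by
    rw [map_mul]; exact mul_le_mul' (le_mx a i) (le_mx b i)
  exact add_le' (add_le' (h 0) (h 1)) (h 2)

theorem mx_cr_le (a b : Fin 3 → K) : mx v (cr a b) ≤ mx v a * mx v b := by
  have h : ∀ i j : Fin 3, v (a i * b j) ≤ mx v a * mx v b := fun i j => by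
    rw [map_mul]; exact mul_le_mul' (le_mx a i) (le_mx b j)
  refine mx_le fun j => ?_
  fin_cases j
  · exact sub_le' (h 1 2) (h 2 1)
  · exact sub_le' (h 2 0) (h 0 2)
  · exact sub_le' (h 0 1) (h 1 0)

theorem mx_up_le (hv : ∀ c : ℂ, v (algebraMap ℂ K c) ≤ 1) (w : Fin 3 → ℂ) :
    mx v (up w : Fin 3 → K) ≤ 1 := mx_le fun j => hv (w j)

/-- generic complex vectors -/
theorem gen (hv : ∀ c : ℂ, v (algebraMap ℂ K c) ≤ 1) {ι : Type} [Fintype ι]
    (u : ι → Fin 3 → K) (hu : ∀ i, u i ≠ 0) :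
    ∃ w : Fin 3 → ℂ, ∀ i, v (dt (up w) (u i)) = mx v (u i) := by
  classical
  let H : ι → Subspace ℂ (Fin 3 → ℂ) := fun i =>
    { carrier := {w | v (dt (up w) (u i)) < mx v (u i)}
      zero_mem' := by
        have : dt (up (0 : Fin 3 → ℂ)) (u i) = 0 := by simp [dt, up]
        rw [Set.mem_ofPred_eq, this, map_zero]
        exact mx_pos (hu i)
      add_mem' := by
        intro a b ha hb
        have : dt (up (a + b)) (u i) = dt (up a) (u i) + dt (up b) (u i) := by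
          simp only [dt, up, Pi.add_apply, map_add]; ring
        rw [Set.mem_ofPred_eq, this]
        exact v.map_add_lt ha hb
      smul_mem' := by
        intro c a ha
        have : dt (up (c • a)) (u i) = algebraMap ℂ K c * dt (up a) (u i) := by
          simp only [dt, up, Pi.smul_apply, smul_eq_mul, map_mul]; ring
        rw [Set.mem_ofPred_eq, this]
        exact lt_of_le_of_lt (alg_mul_le hv _ _) ha }
  have hH : ∀ i, H i ≠ ⊤ := by
    intro i hi
    obtain ⟨j, hj⟩ := exists_mx (v := v) (u i)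
    have h1 : (Pi.single j 1 : Fin 3 → ℂ) ∈ H i := by rw [hi]; trivial
    have h2 : v (dt (up (Pi.single j 1 : Fin 3 → ℂ)) (u i)) < mx v (u i) := h1
    have h3 : dt (up (Pi.single j 1 : Fin 3 → ℂ)) (u i) = u i j := by
      fin_cases j <;> simp [dt, up]
    rw [h3, hj] at h2
    exact lt_irrefl _ h2
  have h4 := Subspace.biUnion_ne_univ_of_top_notMem (s := Finset.univ.image H) (by
    intro h
    obtain ⟨i, _, hi⟩ := Finset.mem_image.1 h
    exact hH i hi)
  obtain ⟨w, hw⟩ := (Set.ne_univ_iff_exists_notMem _).1 h4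
  refine ⟨w, fun i => ?_⟩
  have h5 : w ∉ H i := by
    intro h
    apply hw
    simp only [Set.mem_iUnion]
    exact ⟨H i, Finset.mem_image_of_mem _ (Finset.mem_univ i), h⟩
  have h6 : mx v (u i) ≤ v (dt (up w) (u i)) := not_lt.1 h5
  refine le_antisymm ?_ h6
  refine (v_dt_le _ _).trans ?_
  calc mx v (up w) * mx v (u i) ≤ 1 * mx v (u i) := mul_le_mul' (mx_up_le hv w) le_rfl
    _ = _ := one_mul _

end val

/-! ### general position -/

section pos

variable {t y : Fin 12 → ℂ}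

theorem alg_ne (h : Gen t y) (p : MvPolynomial (Fin 12 ⊕ Fin 12) ℚ) (f : Fin 12 ⊕ Fin 12 → ℚ)
    (hf : eval f p ≠ 0) : aeval (Sum.elim t y) p ≠ 0 := by
  intro h0
  have := (algebraicIndependent_iff.1 h) p h0
  rw [this, map_zero] at hf
  exact hf rfl

theorem t_ne (h : Gen t y) {i j : Fin 12} (hij : i ≠ j) : t i ≠ t j := by
  have h1 := alg_ne h (X (Sum.inl i) - X (Sum.inl j)) (Pi.single (Sum.inl i) 1) (by
    simp [hij.symm])
  intro h2
  apply h1
  simp [h2]

theorem det3_ne (h : Gen t y) {i j k : Fin 12} (hij : i ≠ j) (hik : i ≠ k) (hjk : j ≠ k) :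
    (t j - t i) * (y k - y i) - (t k - t i) * (y j - y i) ≠ 0 := by
  have h1 := alg_ne h ((X (Sum.inl j) - X (Sum.inl i)) * (X (Sum.inr k) - X (Sum.inr i)) -
    (X (Sum.inl k) - X (Sum.inl i)) * (X (Sum.inr j) - X (Sum.inr i)))
    (fun s => if s = Sum.inl j ∨ s = Sum.inr k then 1 else 0) (by
    simp [hij, hik, hjk, hjk.symm])
  intro h2
  apply h1
  simpa using h2

/-- the thirteen points -/
noncomputable def qp (t y : Fin 12 → ℂ) : Fin 13 → Fin 3 → ℂ :=
  Fin.cons ![0, 0, 1] fun i => ![1, t i, y i]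

theorem qp_zero : qp t y 0 = ![0, 0, 1] := rfl

theorem qp_succ (i : Fin 12) : qp t y i.succ = ![1, t i, y i] := rfl

theorem det_qp (h : Gen t y) {i j k : Fin 13} (hij : i ≠ j) (hik : i ≠ k) (hjk : j ≠ k) :
    (Matrix.of ![qp t y i, qp t y j, qp t y k]).det ≠ 0 := by
  rw [Matrix.det_fin_three]
  revert hij hik hjk
  refine Fin.cases ?_ (fun i => ?_) i <;> refine Fin.cases ?_ (fun j => ?_) j <;>
    refine Fin.cases ?_ (fun k => ?_) k
  · intro h; exact absurd rfl h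
  · intro h; exact absurd rfl h
  · intro _ h; exact absurd rfl h
  · intro _ _ h1
    have h2 : t j ≠ t k := t_ne h fun h3 => h1 (by rw [h3])
    simp only [qp_zero, qp_succ, Matrix.of_apply, Matrix.cons_val', Matrix.cons_val_zero,
      Matrix.cons_val_one, Matrix.cons_val, Matrix.cons_val_fin_one]
    intro h3
    apply h2
    linear_combination -h3
  · intro _ _ h; exact absurd rfl h
  · intro _ h1 _
    have h2 : t i ≠ t k := t_ne h fun h3 => h1 (by rw [h3])
    simp only [qp_zero, qp_succ, Matrix.of_apply, Matrix.cons_val', Matrix.cons_val_zero,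
      Matrix.cons_val_one, Matrix.cons_val, Matrix.cons_val_fin_one]
    intro h3
    apply h2
    linear_combination h3
  · intro h1 _ _
    have h2 : t i ≠ t j := t_ne h fun h3 => h1 (by rw [h3])
    simp only [qp_zero, qp_succ, Matrix.of_apply, Matrix.cons_val', Matrix.cons_val_zero,
      Matrix.cons_val_one, Matrix.cons_val, Matrix.cons_val_fin_one]
    intro h3
    apply h2
    linear_combination -h3
  · intro h1 h2 h3
    have h4 := det3_ne h (i := i) (j := j) (k := k) (fun e => h1 (by rw [e]))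
      (fun e => h2 (by rw [e])) (fun e => h3 (by rw [e]))
    simp only [qp_zero, qp_succ, Matrix.of_apply, Matrix.cons_val', Matrix.cons_val_zero,
      Matrix.cons_val_one, Matrix.cons_val, Matrix.cons_val_fin_one]
    intro h5
    apply h4
    linear_combination h5

/-- monomials of degree two -/
def mn {R : Type} [CommRing R] (p : Fin 3 → R) : Fin 6 → R :=
  ![p 0 ^ 2, p 0 * p 1, p 0 * p 2, p 1 ^ 2, p 1 * p 2, p 2 ^ 2]

/-- the six test points -/
def ta : Fin 6 → ℚ := ![0, 1, -1, 0, 0, 1]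
/-- the six test points -/
def tb : Fin 6 → ℚ := ![0, 0, 0, 1, -1, 1]

theorem det_test : (Matrix.of fun i => mn ![1, ta i, tb i]).det ≠ 0 := by
  intro h
  obtain ⟨w, hw, h0⟩ := Matrix.exists_mulVec_eq_zero_iff.2 h
  apply hw
  have e : ∀ i, ∑ j, mn ![1, ta i, tb i] j * w j = 0 := fun i => by
    have := congrFun h0 i
    simpa [Matrix.mulVec, dotProduct] using this
  have e0 := e 0
  have e1 := e 1
  have e2 := e 2
  have e3 := e 3
  have e4 := e 4
  have e5 := e 5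
  simp only [mn, ta, tb, Fin.sum_univ_six, Matrix.cons_val_zero, Matrix.cons_val_one,
    Matrix.cons_val] at e0 e1 e2 e3 e4 e5
  norm_num at e0 e1 e2 e3 e4 e5
  funext j
  fin_cases j
  · exact e0
  · show w 1 = 0; linarith
  · show w 2 = 0; linarith
  · show w 3 = 0; linarith
  · show w 4 = 0; linarith
  · show w 5 = 0; linarith

theorem det_mn (h : Gen t y) (σ : Fin 6 → Fin 12) (hσ : Function.Injective σ) :
    (Matrix.of fun i => mn (qp t y (σ i).succ)).det ≠ 0 := by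
  have h1 := alg_ne h (Matrix.of fun i => mn ![1, X (Sum.inl (σ i)), X (Sum.inr (σ i))]).det
    (Sum.elim (Function.extend σ ta 0) (Function.extend σ tb 0)) (by
      rw [RingHom.map_det]
      have : ((eval (Sum.elim (Function.extend σ ta 0) (Function.extend σ tb 0))).mapMatrix
          (Matrix.of fun i => mn ![1, (X (Sum.inl (σ i)) : MvPolynomial (Fin 12 ⊕ Fin 12) ℚ),
            X (Sum.inr (σ i))])) = Matrix.of fun i => mn ![1, ta i, tb i] := by
        ext i j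
        simp only [RingHom.mapMatrix_apply, Matrix.map_apply, Matrix.of_apply]
        fin_cases j <;> simp [mn, hσ.extend_apply]
      rw [this]
      exact det_test)
  intro h2
  apply h1
  rw [AlgHom.map_det, ← h2]
  congr 1
  ext i j
  simp only [AlgHom.mapMatrix_apply, Matrix.map_apply, Matrix.of_apply, qp_succ]
  fin_cases j <;> simp [mn]

end pos

/-! ### geometry -/

section geo

variable {K : Type} [Field K] [Algebra ℂ K] {v : Valuation K Gz} {t y : Fin 12 → ℂ}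

theorem dt_cr (w z p : Fin 3 → K) : dt w (cr z p) = dt (cr w z) p := by
  simp [dt, cr]; ring

theorem cr_cr₁ (z₁ z₂ p : Fin 3 → K) :
    cr (cr z₁ z₂) (cr z₁ p) = dt (cr z₁ z₂) p • z₁ := by
  funext j
  fin_cases j <;> simp [dt, cr] <;> ring

theorem cr_cr₂ (z₁ z₂ p : Fin 3 → K) :
    cr (cr z₁ z₂) (cr z₂ p) = dt (cr z₁ z₂) p • z₂ := by
  funext j
  fin_cases j <;> simp [dt, cr] <;> ring

theorem dt_w₁ (w m z₁ z₂ : Fin 3 → K) :
    dt w (cr z₁ (cr (cr z₁ z₂) m)) = dt w (cr z₁ z₂) * dt m z₁ := by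
  simp [dt, cr]; ring

theorem dt_w₂ (w m z₁ z₂ : Fin 3 → K) :
    dt w (cr z₂ (cr (cr z₁ z₂) m)) = dt w (cr z₁ z₂) * dt m z₂ := by
  simp [dt, cr]; ring

theorem dt_self (l m : Fin 3 → K) : dt l (cr l m) = 0 := by
  simp [dt, cr]; ring

/-- coefficients of a product of two linear forms -/
def qc (a b : Fin 3 → K) : Fin 6 → K :=
  ![a 0 * b 0, a 0 * b 1 + a 1 * b 0, a 0 * b 2 + a 2 * b 0, a 1 * b 1, a 1 * b 2 + a 2 * b 1,
    a 2 * b 2]

theorem qc_sum (a b p : Fin 3 → K) : ∑ j, mn p j * qc a b j = dt a p * dt b p := by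
  simp [Fin.sum_univ_six, mn, qc, dt]; ring

theorem mx_smul {ι : Type} [Fintype ι] [Nonempty ι] (c : K) (w : ι → K) :
    mx v (c • w) = v c * mx v w := by
  apply le_antisymm
  · refine mx_le fun j => ?_
    rw [Pi.smul_apply, smul_eq_mul, map_mul]
    exact mul_le_mul' le_rfl (le_mx w j)
  · obtain ⟨j, hj⟩ := exists_mx (v := v) w
    rw [← hj, ← map_mul]
    exact le_mx (c • w) j

/-- the point `q_k` over `K` -/
noncomputable def qk (K : Type) [Field K] [Algebra ℂ K] (t y : Fin 12 → ℂ) (k : Fin 13) :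
    Fin 3 → K := up (qp t y k)

/-- the coordinates `x^w_k` -/
noncomputable def xw (t y : Fin 12 → ℂ) (z₁ z₂ w : Fin 3 → K) (k : Fin 13) : K :=
  dt w (cr z₁ (qk K t y k)) * dt w (cr z₂ (qk K t y k)) / dt (cr z₁ z₂) (qk K t y k)

/-- generic situation -/
structure Dat (v : Valuation K Gz) (t y : Fin 12 → ℂ) (z₁ z₂ w : Fin 3 → K) : Prop where
  hv : ∀ c : ℂ, v (algebraMap ℂ K c) ≤ 1
  gen : Gen t y
  ha : ∀ k, v (dt w (cr z₁ (qk K t y k))) = mx v (cr z₁ (qk K t y k))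
  hb : ∀ k, v (dt w (cr z₂ (qk K t y k))) = mx v (cr z₂ (qk K t y k))
  hl : v (dt w (cr z₁ z₂)) = mx v (cr z₁ z₂)
  n1 : ∀ k, cr z₁ (qk K t y k) ≠ 0
  n2 : ∀ k, cr z₂ (qk K t y k) ≠ 0
  n3 : ∀ k, dt (cr z₁ z₂) (qk K t y k) ≠ 0

variable {z₁ z₂ w : Fin 3 → K}

theorem Dat.l_ne (h : Dat v t y z₁ z₂ w) : cr z₁ z₂ ≠ 0 := by
  intro h0
  apply h.n3 0
  rw [h0]; simp [dt]

theorem Dat.z1_ne (h : Dat v t y z₁ z₂ w) : z₁ ≠ 0 := by
  intro h0
  apply h.l_ne
  rw [h0]; ext j; fin_cases j <;> simp [cr]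

theorem Dat.z2_ne (h : Dat v t y z₁ z₂ w) : z₂ ≠ 0 := by
  intro h0
  apply h.l_ne
  rw [h0]; ext j; fin_cases j <;> simp [cr]

theorem Dat.q_le (h : Dat v t y z₁ z₂ w) (k : Fin 13) : mx v (qk K t y k) ≤ 1 :=
  mx_up_le h.hv _

theorem Dat.l_le (h : Dat v t y z₁ z₂ w) (k : Fin 13) :
    v (dt (cr z₁ z₂) (qk K t y k)) ≤ mx v (cr z₁ z₂) := by
  refine (v_dt_le _ _).trans ?_
  calc mx v (cr z₁ z₂) * mx v (qk K t y k) ≤ mx v (cr z₁ z₂) * 1 :=
        mul_le_mul' le_rfl (h.q_le k)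
    _ = _ := mul_one _

theorem Dat.a_le (h : Dat v t y z₁ z₂ w) (k : Fin 13) :
    mx v (cr z₁ (qk K t y k)) ≤ mx v z₁ := by
  refine (mx_cr_le _ _).trans ?_
  calc mx v z₁ * mx v (qk K t y k) ≤ mx v z₁ * 1 := mul_le_mul' le_rfl (h.q_le k)
    _ = _ := mul_one _

theorem Dat.b_le (h : Dat v t y z₁ z₂ w) (k : Fin 13) :
    mx v (cr z₂ (qk K t y k)) ≤ mx v z₂ := by
  refine (mx_cr_le _ _).trans ?_
  calc mx v z₂ * mx v (qk K t y k) ≤ mx v z₂ * 1 := mul_le_mul' le_rfl (h.q_le k)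
    _ = _ := mul_one _

theorem Dat.a_eq (h : Dat v t y z₁ z₂ w) {k : Fin 13}
    (hk : v (dt (cr z₁ z₂) (qk K t y k)) = mx v (cr z₁ z₂)) :
    mx v (cr z₁ (qk K t y k)) = mx v z₁ := by
  refine le_antisymm (h.a_le k) ?_
  have h1 := mx_cr_le (v := v) (cr z₁ z₂) (cr z₁ (qk K t y k))
  rw [cr_cr₁, mx_smul, hk] at h1
  exact (mul_le_mul_iff_right₀ (mx_pos h.l_ne)).1 h1

theorem Dat.b_eq (h : Dat v t y z₁ z₂ w) {k : Fin 13}
    (hk : v (dt (cr z₁ z₂) (qk K t y k)) = mx v (cr z₁ z₂)) :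
    mx v (cr z₂ (qk K t y k)) = mx v z₂ := by
  refine le_antisymm (h.b_le k) ?_
  have h1 := mx_cr_le (v := v) (cr z₁ z₂) (cr z₂ (qk K t y k))
  rw [cr_cr₂, mx_smul, hk] at h1
  exact (mul_le_mul_iff_right₀ (mx_pos h.l_ne)).1 h1

theorem Dat.xw_v (h : Dat v t y z₁ z₂ w) (k : Fin 13) : v (xw t y z₁ z₂ w k) =
    mx v (cr z₁ (qk K t y k)) * mx v (cr z₂ (qk K t y k)) /
      v (dt (cr z₁ z₂) (qk K t y k)) := by
  unfold xw
  rw [map_div₀, map_mul, h.ha, h.hb]

theorem Dat.xw_v' (h : Dat v t y z₁ z₂ w) {k : Fin 13}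
    (hk : v (dt (cr z₁ z₂) (qk K t y k)) = mx v (cr z₁ z₂)) : v (xw t y z₁ z₂ w k) =
    mx v z₁ * mx v z₂ / mx v (cr z₁ z₂) := by
  rw [h.xw_v, h.a_eq hk, h.b_eq hk, hk]

/-- three points -/
theorem lin3_lt (hv : ∀ c : ℂ, v (algebraMap ℂ K c) ≤ 1) (hg : Gen t y) {i j k : Fin 13}
    (hij : i ≠ j) (hik : i ≠ k) (hjk : j ≠ k) {l : Fin 3 → K} {r : Gz} (hr : 0 < r)
    (hi : v (dt l (qk K t y i)) < r) (hj : v (dt l (qk K t y j)) < r)
    (hk : v (dt l (qk K t y k)) < r) (n : Fin 3) : v (l n) < r := by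
  refine mat_lt hv (Matrix.of ![qp t y i, qp t y j, qp t y k])
    (isUnit_iff_ne_zero.2 (det_qp hg hij hik hjk)) l hr (fun m => ?_) n
  have e : ∀ s : Fin 13, ∑ x, algebraMap ℂ K (qp t y s x) * l x = dt l (qk K t y s) := by
    intro s
    simp only [Fin.sum_univ_three, dt, qk, up]; ring
  fin_cases m
  · rw [← e] at hi; exact hi
  · rw [← e] at hj; exact hj
  · rw [← e] at hk; exact hk

/-- the lower bound `β` -/
theorem Dat.low1 (h : Dat v t y z₁ z₂ w) (S : Finset (Fin 13)) (hS : S.card ≤ 3)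
    (hl : ∀ k, k ∉ S → v (dt (cr z₁ z₂) (qk K t y k)) = mx v (cr z₁ z₂))
    (l : Fin 3 → K) (hx : ∀ k, k ∉ S → v (xw t y z₁ z₂ w k - dt l (qk K t y k)) <
      mx v z₁ * mx v z₂ / mx v (cr z₁ z₂)) : False := by
  classical
  have hL := mx_pos (v := v) h.l_ne
  have h1 := mx_pos (v := v) h.z1_ne
  have h2 := mx_pos (v := v) h.z2_ne
  have hpos : 0 < mx v z₁ * mx v z₂ := mul_pos h1 h2
  -- six points
  obtain ⟨σ, hσ, hσS⟩ : ∃ σ : Fin 6 → Fin 12, Function.Injective σ ∧ ∀ i, (σ i).succ ∉ S := by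
    let T : Finset (Fin 12) := Finset.univ.filter fun i => i.succ ∉ S
    have hT : 6 ≤ T.card := by
      have e1 : (Finset.univ.filter fun i : Fin 12 => i.succ ∈ S).card ≤ 3 := by
        refine le_trans ?_ hS
        refine Finset.card_le_card_of_injOn Fin.succ (fun i hi => ?_)
          (fun a _ b _ e => Fin.succ_injective _ e)
        simpa using hi
      have e2 := Finset.card_filter_add_card_filter_not (s := (Finset.univ : Finset (Fin 12)))
        (fun i => i.succ ∈ S)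
      rw [Finset.card_univ, Fintype.card_fin] at e2
      have e3 : T.card = (Finset.univ.filter fun i : Fin 12 => ¬ i.succ ∈ S).card := rfl
      omega
    refine ⟨fun i => T.orderEmbOfCardLe hT i, (T.orderEmbOfCardLe hT).injective, fun i => ?_⟩
    have := T.orderEmbOfCardLe_mem hT i
    exact (Finset.mem_filter.1 this).2
  obtain ⟨m, hm⟩ := SigLocAux.gen h.hv (ι := Bool) (fun b => if b then z₁ else z₂) (by
    intro b; cases b
    · simpa using h.z2_ne
    · simpa using h.z1_ne)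
  have hm1 : v (dt (up m) z₁) = mx v z₁ := by simpa using hm true
  have hm2 : v (dt (up m) z₂) = mx v z₂ := by simpa using hm false
  let g : Fin 6 → K := fun j => qc (cr w z₁) (cr w z₂) j - qc l (cr z₁ z₂) j
  have hg0 : ∀ p : Fin 3 → K, ∑ j, mn p j * g j =
      dt w (cr z₁ p) * dt w (cr z₂ p) - dt l p * dt (cr z₁ z₂) p := by
    intro p
    simp only [g, mul_sub, Finset.sum_sub_distrib, qc_sum, dt_cr]
  have hg : ∀ j, v (g j) < mx v z₁ * mx v z₂ := by
    refine mat_lt h.hv (Matrix.of fun i => mn (qp t y (σ i).succ))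
      (isUnit_iff_ne_zero.2 (det_mn h.gen σ hσ)) g hpos fun i => ?_
    have e : ∀ j, algebraMap ℂ K (Matrix.of (fun i => mn (qp t y (σ i).succ)) i j) =
        mn (qk K t y (σ i).succ) j := by
      intro j
      fin_cases j <;> simp [mn, qk, up, qp_succ]
    simp only [e, hg0]
    have e2 : dt w (cr z₁ (qk K t y (σ i).succ)) * dt w (cr z₂ (qk K t y (σ i).succ)) -
        dt l (qk K t y (σ i).succ) * dt (cr z₁ z₂) (qk K t y (σ i).succ) =
        (xw t y z₁ z₂ w (σ i).succ - dt l (qk K t y (σ i).succ)) *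
          dt (cr z₁ z₂) (qk K t y (σ i).succ) := by
      unfold xw
      have := h.n3 (σ i).succ
      field_simp
    rw [e2, map_mul, hl _ (hσS i)]
    have e3 := hx _ (hσS i)
    calc v (xw t y z₁ z₂ w (σ i).succ - dt l (qk K t y (σ i).succ)) * mx v (cr z₁ z₂)
        < mx v z₁ * mx v z₂ / mx v (cr z₁ z₂) * mx v (cr z₁ z₂) :=
          mul_lt_mul_of_pos_right e3 hL
      _ = mx v z₁ * mx v z₂ := div_mul_cancel₀ _ hL.ne'
  -- evaluation at `λ × m`
  have hp : mx v (cr (cr z₁ z₂) (up m)) ≤ mx v (cr z₁ z₂) := by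
    refine (mx_cr_le _ _).trans ?_
    calc mx v (cr z₁ z₂) * mx v (up m) ≤ mx v (cr z₁ z₂) * 1 :=
          mul_le_mul' le_rfl (mx_up_le h.hv m)
      _ = _ := mul_one _
  have hmn : ∀ j, v (mn (cr (cr z₁ z₂) (up m)) j) ≤ mx v (cr z₁ z₂) * mx v (cr z₁ z₂) := by
    intro j
    have e : ∀ a b : Fin 3, v (cr (cr z₁ z₂) (up m) a * cr (cr z₁ z₂) (up m) b) ≤
        mx v (cr z₁ z₂) * mx v (cr z₁ z₂) := fun a b => by
      rw [map_mul]
      exact mul_le_mul' ((le_mx _ a).trans hp) ((le_mx _ b).trans hp)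
    fin_cases j
    · exact (congrArg v (sq _)).le.trans (e 0 0)
    · exact e 0 1
    · exact e 0 2
    · exact (congrArg v (sq _)).le.trans (e 1 1)
    · exact e 1 2
    · exact (congrArg v (sq _)).le.trans (e 2 2)
  have h3 : v (∑ j, mn (cr (cr z₁ z₂) (up m)) j * g j) <
      mx v (cr z₁ z₂) * mx v (cr z₁ z₂) * (mx v z₁ * mx v z₂) := by
    refine Valuation.map_sum_lt _ (mul_pos (mul_pos hL hL) hpos).ne' fun j _ => ?_
    rw [map_mul]
    calc v (mn (cr (cr z₁ z₂) (up m)) j) * v (g j)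
        ≤ mx v (cr z₁ z₂) * mx v (cr z₁ z₂) * v (g j) := mul_le_mul' (hmn j) le_rfl
      _ < _ := mul_lt_mul_of_pos_left (hg j) (mul_pos hL hL)
  rw [hg0, dt_self, mul_zero, sub_zero, dt_w₁, dt_w₂, map_mul, map_mul, map_mul, h.hl, hm1,
    hm2] at h3
  apply lt_irrefl _ (lt_of_eq_of_lt _ h3)
  exact mul_mul_mul_comm _ _ _ _

/-- the lower bounds -/
theorem Dat.low (h : Dat v t y z₁ z₂ w) {i j : Fin 13}
    (hl : ∀ k, k ≠ i → k ≠ j → v (dt (cr z₁ z₂) (qk K t y k)) = mx v (cr z₁ z₂))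
    (k₀ : Fin 13) (l : Fin 3 → K) {r : Gz}
    (hx : ∀ k, k ≠ k₀ → v (xw t y z₁ z₂ w k - dt l (qk K t y k)) < r) :
    mx v z₁ * mx v z₂ / mx v (cr z₁ z₂) < r ∧ ∀ m, m ≠ k₀ → v (xw t y z₁ z₂ w m) < r := by
  classical
  have hS : ({i, j, k₀} : Finset (Fin 13)).card ≤ 3 := Finset.card_le_three
  have hSl : ∀ k, k ∉ ({i, j, k₀} : Finset (Fin 13)) →
      v (dt (cr z₁ z₂) (qk K t y k)) = mx v (cr z₁ z₂) := by
    intro k hk
    simp only [Finset.mem_insert, Finset.mem_singleton, not_or] at hk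
    exact hl k hk.1 hk.2.1
  have h1 : mx v z₁ * mx v z₂ / mx v (cr z₁ z₂) < r := by
    by_contra h2
    refine h.low1 _ hS hSl l fun k hk => ?_
    simp only [Finset.mem_insert, Finset.mem_singleton, not_or] at hk
    exact lt_of_lt_of_le (hx k hk.2.2) (not_lt.1 h2)
  refine ⟨h1, fun m hm => ?_⟩
  have hr : 0 < r := lt_of_le_of_lt zero_le h1
  -- three more points
  have h3 : 3 ≤ (({i, j, k₀} : Finset (Fin 13))ᶜ).card := by
    rw [Finset.card_compl, Fintype.card_fin]; omega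
  obtain ⟨a, b, c, ha, hb, hc, hab, hac, hbc⟩ := Finset.two_lt_card_iff.1 h3
  have h4 : ∀ k, k ∈ ({i, j, k₀} : Finset (Fin 13))ᶜ → v (dt l (qk K t y k)) < r := by
    intro k hk
    rw [Finset.mem_compl] at hk
    have e1 := h.xw_v' (hSl k hk)
    simp only [Finset.mem_insert, Finset.mem_singleton, not_or] at hk
    have e2 := hx k hk.2.2
    have e3 : dt l (qk K t y k) = xw t y z₁ z₂ w k - (xw t y z₁ z₂ w k - dt l (qk K t y k)) := by
      ring
    rw [e3]
    refine lt_of_le_of_lt (v.map_sub _ _) (max_lt ?_ e2)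
    rw [e1]; exact h1
  have h5 := lin3_lt h.hv h.gen hab hac hbc hr (h4 a ha) (h4 b hb) (h4 c hc)
  have h6 : v (dt l (qk K t y m)) < r := by
    refine lt_of_le_of_lt (v_dt_le _ _) ?_
    calc mx v l * mx v (qk K t y m) ≤ mx v l * 1 := mul_le_mul' le_rfl (h.q_le m)
      _ = mx v l := mul_one _
      _ < r := mx_lt hr h5
  have e3 : xw t y z₁ z₂ w m = (xw t y z₁ z₂ w m - dt l (qk K t y m)) + dt l (qk K t y m) := by
    ring
  rw [e3]
  exact v.map_add_lt (hx m hm) h6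

/-- at most two bad indices -/
theorem Dat.two (h : Dat v t y z₁ z₂ w) : ∃ i j : Fin 13, i ≠ j ∧
    ∀ k, k ≠ i → k ≠ j → v (dt (cr z₁ z₂) (qk K t y k)) = mx v (cr z₁ z₂) := by
  classical
  let I : Finset (Fin 13) :=
    Finset.univ.filter fun k => v (dt (cr z₁ z₂) (qk K t y k)) < mx v (cr z₁ z₂)
  have hI : I.card ≤ 2 := by
    by_contra hc
    obtain ⟨a, b, c, ha, hb, hc, hab, hac, hbc⟩ := Finset.two_lt_card_iff.1 (not_le.1 hc)
    have h1 := lin3_lt h.hv h.gen hab hac hbc (mx_pos h.l_ne) (Finset.mem_filter.1 ha).2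
      (Finset.mem_filter.1 hb).2 (Finset.mem_filter.1 hc).2
    obtain ⟨n, hn⟩ := exists_mx (v := v) (cr z₁ z₂)
    have := h1 n
    rw [hn] at this
    exact lt_irrefl _ this
  obtain ⟨J, hIJ, hJ⟩ := Finset.exists_superset_card_eq hI (by simp)
  obtain ⟨i, j, hij, rfl⟩ := Finset.card_eq_two.1 hJ
  refine ⟨i, j, hij, fun k hki hkj => ?_⟩
  by_contra hk
  have h2 : k ∈ I := Finset.mem_filter.2 ⟨Finset.mem_univ k, lt_of_le_of_ne (h.l_le k) hk⟩
  have h3 := hIJ h2
  simp only [Finset.mem_insert, Finset.mem_singleton] at h3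
  tauto

end geo

/-! ### the map to `K^10` -/

section Tm

variable {K : Type} [Field K] [Algebra ℂ K] {v : Valuation K Gz} {t y : Fin 12 → ℂ}
  {P : Fin 13 → Fin (9 + 1) → ℂ} {c : Fin 13 → ℂ}

/-- `Y ↦ Σ Y_k c_k P_k` -/
noncomputable def Tm (P : Fin 13 → Fin (9 + 1) → ℂ) (c : Fin 13 → ℂ) (Y : Fin 13 → K) :
    Fin (9 + 1) → K :=
  fun j => ∑ k, Y k * algebraMap ℂ K (c k * P k j)

theorem Tm_cons (x : Fin 12 → K) : Tm P c (Fin.cons 0 x) = piMap P c x := by
  funext j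
  simp only [Tm, piMap, Fin.sum_univ_succ (n := 12), Fin.cons_zero, Fin.cons_succ, zero_mul,
    zero_add]

theorem Tm_add (Y Z : Fin 13 → K) : Tm P c (fun k => Y k + Z k) = Tm P c Y + Tm P c Z := by
  funext j
  simp only [Tm, Pi.add_apply, add_mul, Finset.sum_add_distrib]

theorem Tm_smul (s : K) (Y : Fin 13 → K) : Tm P c (fun k => s * Y k) = s • Tm P c Y := by
  funext j
  simp only [Tm, Pi.smul_apply, smul_eq_mul, Finset.mul_sum, mul_assoc]

theorem Tm_ev (hG : GaleData P c t y) (l : Fin 3 → K) :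
    Tm P c (fun k => dt l (qk K t y k)) = 0 := by
  funext j
  have r1 : ∑ i : Fin 12, c i.succ * P i.succ j = 0 := by
    have := congrFun hG.rel1 j
    simpa using this
  have r2 : ∑ i : Fin 12, t i * c i.succ * P i.succ j = 0 := by
    have := congrFun hG.rel2 j
    simpa using this
  have r3 : c 0 * P 0 j + ∑ i : Fin 12, y i * c i.succ * P i.succ j = 0 := by
    have := congrFun hG.rel3 j
    simpa using this
  have r1' := congrArg (algebraMap ℂ K) r1
  have r2' := congrArg (algebraMap ℂ K) r2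
  have r3' := congrArg (algebraMap ℂ K) r3
  simp only [map_add, map_sum, map_mul, map_zero] at r1' r2' r3'
  simp only [Tm, Fin.sum_univ_succ (n := 12), Pi.zero_apply]
  have e : ∀ i : Fin 12, dt l (qk K t y i.succ) * algebraMap ℂ K (c i.succ * P i.succ j) =
      l 0 * (algebraMap ℂ K (c i.succ) * algebraMap ℂ K (P i.succ j)) +
      l 1 * (algebraMap ℂ K (t i) * algebraMap ℂ K (c i.succ) * algebraMap ℂ K (P i.succ j)) +
      l 2 * (algebraMap ℂ K (y i) * algebraMap ℂ K (c i.succ) *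
        algebraMap ℂ K (P i.succ j)) := by
    intro i
    simp [dt, qk, up, qp_succ]; ring
  have e0 : dt l (qk K t y 0) * algebraMap ℂ K (c 0 * P 0 j) =
      l 2 * (algebraMap ℂ K (c 0) * algebraMap ℂ K (P 0 j)) := by
    simp [dt, qk, up, qp_zero]
  rw [Finset.sum_congr rfl fun i _ => e i, e0, Finset.sum_add_distrib, Finset.sum_add_distrib,
    ← Finset.mul_sum, ← Finset.mul_sum, ← Finset.mul_sum]
  linear_combination l 0 * r1' + l 1 * r2' + l 2 * r3'

/-- vectors with small image are small modulo linear forms -/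
theorem Tm_lt (hv : ∀ c : ℂ, v (algebraMap ℂ K c) ≤ 1) (hG : GaleData P c t y)
    (Y : Fin 13 → K) {r : Gz} (hr : 0 < r) (h : ∀ j, v (Tm P c Y j) < r) :
    ∃ l : Fin 3 → K, ∀ k, v (Y k - dt l (qk K t y k)) < r := by
  have ht : algebraMap ℂ K (t 1) - algebraMap ℂ K (t 0) ≠ 0 := by
    rw [← map_sub]
    intro h0
    have h1 : t 1 - t 0 = 0 := (algebraMap ℂ K).injective (by rw [h0, map_zero])
    exact t_ne hG.gen (i := 1) (j := 0) (by decide) (sub_eq_zero.1 h1)
  obtain ⟨l1, hl1⟩ : ∃ l1 : K, l1 * (algebraMap ℂ K (t 1) - algebraMap ℂ K (t 0)) =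
      Y 2 - Y 1 - Y 0 * (algebraMap ℂ K (y 1) - algebraMap ℂ K (y 0)) :=
    ⟨_ / _, div_mul_cancel₀ _ ht⟩
  let l : Fin 3 → K := ![Y 1 - l1 * algebraMap ℂ K (t 0) - Y 0 * algebraMap ℂ K (y 0), l1, Y 0]
  have d0 : Y 0 - dt l (qk K t y 0) = 0 := by
    simp [dt, l, qk, up, qp_zero]
  have d1 : Y 1 - dt l (qk K t y 1) = 0 := by
    have : qk K t y 1 = qk K t y (Fin.succ 0) := rfl
    rw [this]
    simp only [dt, l, qk, up, qp_succ, Matrix.cons_val_zero, Matrix.cons_val_one,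
      Matrix.cons_val, map_one]
    ring
  have d2 : Y 2 - dt l (qk K t y 2) = 0 := by
    have : qk K t y 2 = qk K t y (Fin.succ 1) := rfl
    rw [this]
    simp only [dt, l, qk, up, qp_succ, Matrix.cons_val_zero, Matrix.cons_val_one,
      Matrix.cons_val, map_one]
    linear_combination -hl1
  refine ⟨l, fun k => ?_⟩
  let Y' : Fin 13 → K := fun k => Y k - dt l (qk K t y k)
  have hY' : Tm P c Y' = Tm P c Y := by
    have e1 : Y = fun k => Y' k + dt l (qk K t y k) := by funext k; simp [Y']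
    have e2 : Tm P c (fun k => Y' k + dt l (qk K t y k)) = Tm P c Y' := by
      rw [Tm_add, Tm_ev hG, add_zero]
    rw [← e2, ← e1]
  have hs : ∀ j, ∑ m : Fin 10, Y' (Fin.natAdd 3 m) *
      algebraMap ℂ K (c (Fin.natAdd 3 m) * P (Fin.natAdd 3 m) j) = Tm P c Y j := by
    intro j
    rw [← hY']
    have e1 : Tm P c Y' j = ∑ k : Fin (3 + 10), Y' k * algebraMap ℂ K (c k * P k j) := rfl
    rw [e1, Fin.sum_univ_add, Fin.sum_univ_three]
    have e2 : Y' (Fin.castAdd 10 (0 : Fin 3)) = 0 := d0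
    have e3 : Y' (Fin.castAdd 10 (1 : Fin 3)) = 0 := d1
    have e4 : Y' (Fin.castAdd 10 (2 : Fin 3)) = 0 := d2
    rw [e2, e3, e4]
    ring
  -- the matrix
  let M : Matrix (Fin 10) (Fin 10) ℂ :=
    Matrix.of fun j m => c (Fin.natAdd 3 m) * P (Fin.natAdd 3 m) j
  have hM : IsUnit M.det := by
    have h1 : LinearIndependent ℂ (Matrix.row (Matrix.of fun m : Fin 10 => P (Fin.natAdd 3 m) :
        Matrix (Fin 10) (Fin 10) ℂ)) := hG.basis
    have h2 := (Matrix.isUnit_iff_isUnit_det _).1 (Matrix.linearIndependent_rows_iff_isUnit.1 h1)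
    have h3 : M = (Matrix.diagonal (fun m : Fin 10 => c (Fin.natAdd 3 m)) *
        (Matrix.of fun m : Fin 10 => P (Fin.natAdd 3 m) : Matrix (Fin 10) (Fin 10) ℂ)).transpose := by
      ext j m
      rw [Matrix.transpose_apply, Matrix.diagonal_mul]
      rfl
    rw [h3, Matrix.det_transpose, Matrix.det_mul, Matrix.det_diagonal]
    exact IsUnit.mul (isUnit_iff_ne_zero.2 (Finset.prod_ne_zero_iff.2 fun m _ => hG.c_ne _)) h2
  have h10 : ∀ m : Fin 10, v (Y' (Fin.natAdd 3 m)) < r := by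
    refine mat_lt hv M hM (fun m => Y' (Fin.natAdd 3 m)) hr fun j => ?_
    have e := hs j
    have e2 : ∑ m : Fin 10, algebraMap ℂ K (M j m) * Y' (Fin.natAdd 3 m) = Tm P c Y j := by
      rw [← e]
      exact Finset.sum_congr rfl fun m _ => mul_comm _ _
    rw [e2]
    exact h j
  show v (Y' k) < r
  have hk : ∀ k : Fin (3 + 10), v (Y' k) < r := by
    intro k
    refine Fin.addCases (fun a => ?_) (fun m => h10 m) k
    have : Y' (Fin.castAdd 10 a) = 0 := by
      fin_cases a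
      · exact d0
      · exact d1
      · exact d2
    rw [this, map_zero]
    exact hr
  exact hk k

/-- the same modulo `P_k` -/
theorem wedge_lt (hv : ∀ c : ℂ, v (algebraMap ℂ K c) ≤ 1) (hG : GaleData P c t y)
    (Y : Fin 13 → K) {r : Gz} (hr : 0 < r) (k : Fin 13) (hP : P k ≠ 0)
    (h : ∀ jk, v (wedge (Tm P c Y) (P k) jk) < r) :
    ∃ l : Fin 3 → K, ∀ m, m ≠ k → v (Y m - dt l (qk K t y m)) < r := by
  obtain ⟨i₀, hi₀⟩ := Function.ne_iff.1 hP
  rw [Pi.zero_apply] at hi₀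
  have hi' : algebraMap ℂ K (P k i₀) ≠ 0 := by
    intro h0
    exact hi₀ ((algebraMap ℂ K).injective (by rw [h0, map_zero]))
  have hc' : algebraMap ℂ K (c k) ≠ 0 := by
    intro h0
    exact hG.c_ne k ((algebraMap ℂ K).injective (by rw [h0, map_zero]))
  let u : K := Tm P c Y i₀ / algebraMap ℂ K (P k i₀)
  let Y' : Fin 13 → K := fun m => Y m + (-(u / algebraMap ℂ K (c k))) * (if m = k then 1 else 0)
  have hY' : ∀ j, Tm P c Y' j = Tm P c Y j - u * algebraMap ℂ K (P k j) := by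
    intro j
    have e1 : Tm P c Y' j = Tm P c Y j + Tm P c (fun m => (-(u / algebraMap ℂ K (c k))) *
        (if m = k then 1 else 0)) j := by
      rw [← Pi.add_apply, ← Tm_add]
    rw [e1, Tm_smul, Pi.smul_apply, smul_eq_mul]
    have e2 : Tm P c (fun m : Fin 13 => if m = k then (1 : K) else 0) j =
        algebraMap ℂ K (c k * P k j) := by
      simp [Tm]
    rw [e2, map_mul]
    field_simp
    ring
  have h1 : ∀ j, v (Tm P c Y' j) < r := by
    intro j
    have e1 : Tm P c Y' j = algebraMap ℂ K (P k i₀)⁻¹ * wedge (Tm P c Y) (P k) (j, i₀) := by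
      rw [hY', map_inv₀]
      simp only [wedge, u]
      field_simp
    rw [e1]
    exact lt_of_le_of_lt (alg_mul_le hv _ _) (h (j, i₀))
  obtain ⟨l, hl⟩ := Tm_lt hv hG Y' hr h1
  refine ⟨l, fun m hm => ?_⟩
  have := hl m
  simp only [Y', if_neg hm, mul_zero, add_zero] at this
  exact this

theorem Tm_le (hv : ∀ c : ℂ, v (algebraMap ℂ K c) ≤ 1) (Y : Fin 13 → K) {r : Gz}
    (h : ∀ k, v (Y k) ≤ r) : mx v (Tm P c Y) ≤ r :=
  mx_le fun j => Valuation.map_sum_le _ fun k _ => (mul_alg_le hv _ _).trans (h k)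

theorem wedge_le (hv : ∀ c : ℂ, v (algebraMap ℂ K c) ≤ 1) (w : Fin (9 + 1) → K)
    (p : Fin (9 + 1) → ℂ) : mx v (wedge w p) ≤ mx v w :=
  mx_le fun jk => sub_le' ((mul_alg_le hv _ _).trans (le_mx w _))
    ((mul_alg_le hv _ _).trans (le_mx w _))

end Tm

/-! ### change of the auxiliary vector -/

section change

variable {K : Type} [Field K] [Algebra ℂ K] {v : Valuation K Gz} {t y : Fin 12 → ℂ}

theorem change (z₁ z₂ w e q : Fin 3 → K) :
    (dt w (cr z₁ z₂)) ^ 2 * (dt e (cr z₁ q) * dt e (cr z₂ q)) -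
      (dt e (cr z₁ z₂)) ^ 2 * (dt w (cr z₁ q) * dt w (cr z₂ q)) =
    dt (cr z₁ z₂) q * (dt w (cr z₁ z₂) * dt (cr e z₂) w * dt (cr e z₁) q +
      dt e (cr z₁ z₂) * dt (cr z₁ e) w * dt (cr z₂ w) q) := by
  simp only [dt, cr, Matrix.cons_val_zero, Matrix.cons_val_one, Matrix.cons_val]
  ring

theorem dt_lin (c A B : K) (a b q : Fin 3 → K) :
    dt (fun j => c * (A * a j + B * b j)) q = c * (A * dt a q + B * dt b q) := by
  simp only [dt]; ring

theorem change' (z₁ z₂ w e q : Fin 3 → K) (hD : dt w (cr z₁ z₂) ≠ 0)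
    (hq : dt (cr z₁ z₂) q ≠ 0) :
    dt e (cr z₁ z₂) * (dt e (cr z₁ q) * dt e (cr z₂ q) / dt (cr z₁ z₂) q) =
      (dt e (cr z₁ z₂) ^ 3 / dt w (cr z₁ z₂) ^ 2) *
        (dt w (cr z₁ q) * dt w (cr z₂ q) / dt (cr z₁ z₂) q) +
      dt (fun j => dt e (cr z₁ z₂) / dt w (cr z₁ z₂) ^ 2 *
        (dt w (cr z₁ z₂) * dt (cr e z₂) w * cr e z₁ j +
          dt e (cr z₁ z₂) * dt (cr z₁ e) w * cr z₂ w j)) q := by
  have h := change z₁ z₂ w e q
  have e1 : dt (fun j => dt e (cr z₁ z₂) / dt w (cr z₁ z₂) ^ 2 *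
        (dt w (cr z₁ z₂) * dt (cr e z₂) w * cr e z₁ j +
          dt e (cr z₁ z₂) * dt (cr z₁ e) w * cr z₂ w j)) q =
      dt e (cr z₁ z₂) / dt w (cr z₁ z₂) ^ 2 *
        (dt w (cr z₁ z₂) * dt (cr e z₂) w * dt (cr e z₁) q +
          dt e (cr z₁ z₂) * dt (cr z₁ e) w * dt (cr z₂ w) q) := dt_lin _ _ _ _ _ _
  rw [e1]
  generalize dt w (cr z₁ z₂) = D at *
  generalize dt e (cr z₁ z₂) = δ at *
  generalize dt (cr z₁ z₂) q = lq at *
  generalize dt (cr e z₂) w = A at *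
  generalize dt (cr z₁ e) w = B at *
  generalize dt (cr e z₁) q = A' at *
  generalize dt (cr z₂ w) q = B' at *
  generalize dt e (cr z₁ q) = e1 at *
  generalize dt e (cr z₂ q) = e2 at *
  generalize dt w (cr z₁ q) = w1 at *
  generalize dt w (cr z₂ q) = w2 at *
  field_simp
  linear_combination δ * h

theorem mx_zero {ι : Type} [Fintype ι] : mx v (0 : ι → K) = 0 := by
  refine le_antisymm (mx_le fun j => ?_) zero_le
  simp

theorem ne_of_mx {ι : Type} [Fintype ι] {w : ι → K} (h : 0 < mx v w) : w ≠ 0 := by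
  intro h0
  rw [h0, mx_zero] at h
  exact lt_irrefl _ h

theorem mx_zz1 (θ η : K) (i : Fin 12) :
    mx v (cr (zz θ η) (qk K t y i.succ)) = mx v (zz1 θ η (t i) (y i)) := by
  have e0 : cr (zz θ η) (qk K t y i.succ) 0 = zz1 θ η (t i) (y i) 2 := by
    simp [cr, zz, qk, up, qp_succ, zz1]
  have e1 : cr (zz θ η) (qk K t y i.succ) 1 = zz1 θ η (t i) (y i) 1 := by
    simp [cr, zz, qk, up, qp_succ, zz1]
  have e2 : cr (zz θ η) (qk K t y i.succ) 2 = -zz1 θ η (t i) (y i) 0 := by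
    simp [cr, zz, qk, up, qp_succ, zz1]
  have e2' : v (cr (zz θ η) (qk K t y i.succ) 2) = v (zz1 θ η (t i) (y i) 0) := by
    rw [e2, Valuation.map_neg]
  apply le_antisymm
  · refine mx_le fun j => ?_
    fin_cases j
    · exact (congrArg v e0).le.trans (le_mx _ 2)
    · exact (congrArg v e1).le.trans (le_mx _ 1)
    · exact e2'.le.trans (le_mx _ 0)
  · refine mx_le fun j => ?_
    fin_cases j
    · exact e2'.ge.trans (le_mx _ 2)
    · exact (congrArg v e1).ge.trans (le_mx _ 1)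
    · exact (congrArg v e0).ge.trans (le_mx _ 0)

theorem mx_zz0 (θ η : K) : mx v (cr (zz θ η) (qk K t y 0)) = mx v (zz0 θ) := by
  have e0 : cr (zz θ η) (qk K t y 0) 0 = zz0 θ 1 := by
    simp [cr, zz, qk, up, qp_zero, zz0]
  have e1 : cr (zz θ η) (qk K t y 0) 1 = -zz0 θ 0 := by
    simp [cr, zz, qk, up, qp_zero, zz0]
  have e1' : v (cr (zz θ η) (qk K t y 0) 1) = v (zz0 θ 0) := by
    rw [e1, Valuation.map_neg]
  have e2 : cr (zz θ η) (qk K t y 0) 2 = 0 := by
    simp [cr, zz, qk, up, qp_zero]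
  apply le_antisymm
  · refine mx_le fun j => ?_
    fin_cases j
    · exact (congrArg v e0).le.trans (le_mx _ 1)
    · exact e1'.le.trans (le_mx _ 0)
    · have : v (cr (zz θ η) (qk K t y 0) 2) ≤ mx v (zz0 θ) := by rw [e2, map_zero]; exact zero_le
      exact this
  · refine mx_le fun j => ?_
    fin_cases j
    · exact e1'.ge.trans (le_mx _ 1)
    · exact (congrArg v e0).ge.trans (le_mx _ 0)

end change

theorem arith (i j : Fin 13) (hij : i ≠ j) (m : Fin 13 → ℤ) (hm : ∀ k, m k = 3 ∨ m k = 4)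
    (X N : Fin 13 → ℤ) (B σ M : ℤ) (h1 : ∀ k, σ + B ≤ N k)
    (h2 : ∀ k l, l ≠ k → σ + X l ≤ N k) (h3 : M ≤ σ + B ∨ M ≤ σ + X i ∨ M ≤ σ + X j)
    (h4 : ∀ k, N k ≤ M) (h5 : ∀ k, k ≠ i → k ≠ j → X k = B) :
    ∑ k, (5 - m k) * (X k - B) + 5 * B + 5 * σ ≤ 5 * M - ∑ k, m k * (M - N k) := by
  have e1 : ∑ k, (5 - m k) * (X k - B) = (5 - m i) * (X i - B) + (5 - m j) * (X j - B) := by
    refine Finset.sum_eq_add i j hij (fun k _ hk => ?_) (by simp) (by simp)
    rw [h5 k hk.1 hk.2]; ring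
  have e2 : ∑ k, m k * (M - N k) ≤ m i * (M - N i) + m j * (M - N j) := by
    have e3 : ∑ k, (if k = i ∨ k = j then m k * (M - N k) else 0) =
        m i * (M - N i) + m j * (M - N j) := by
      have := Finset.sum_eq_add (s := Finset.univ) (f := fun k => if k = i ∨ k = j then m k * (M - N k) else 0)
        i j hij (fun k _ hk => if_neg (by tauto)) (by simp) (by simp)
      simpa using this
    rw [← e3]
    refine Finset.sum_le_sum fun k _ => ?_
    split_ifs with hk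
    · exact le_rfl
    · rw [not_or] at hk
      have a1 := h1 k
      have a2 := h2 k i (Ne.symm hk.1)
      have a3 := h2 k j (Ne.symm hk.2)
      have a4 : M - N k ≤ 0 := by omega
      have a5 : 0 ≤ m k := by rcases hm k with h | h <;> omega
      nlinarith
  have a1 := h1 i
  have a2 := h1 j
  have a3 := h2 i j hij.symm
  have a4 := h2 j i hij
  have a5 := h4 i
  have a6 := h4 j
  rw [e1]
  rcases hm i with hi | hi <;> rcases hm j with hj | hj <;> rw [hi, hj] at e2 ⊢ <;> omega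

end SigLocAux

open SigLocAux in
theorem SigLoc : S_SigLoc := by
  intro P c t y hG K _ _ v hvs hv θ₁ θ₂ a b x hθ hA hx h1 h2 hP
  have hδ : θ₂ - θ₁ ≠ 0 := sub_ne_zero.2 hθ.symm
  generalize hz₁ : zz θ₁ (-a - b * θ₁) = z₁
  generalize hz₂ : zz θ₂ (-a - b * θ₂) = z₂
  have hlam : cr z₁ z₂ = (θ₂ - θ₁) • ![a, b, 1] := by
    rw [← hz₁, ← hz₂]
    funext j
    fin_cases j <;> simp [cr, zz] <;> ring
  have hq0 : dt (cr z₁ z₂) (qk K t y 0) = θ₂ - θ₁ := by
    rw [hlam]; simp [dt, qk, up, qp_zero]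
  have hqs : ∀ i : Fin 12, dt (cr z₁ z₂) (qk K t y i.succ) =
      (θ₂ - θ₁) * (algebraMap ℂ K (y i) + a + b * algebraMap ℂ K (t i)) := by
    intro i
    rw [hlam]; simp [dt, qk, up, qp_succ]; ring
  have n3 : ∀ k, dt (cr z₁ z₂) (qk K t y k) ≠ 0 := by
    refine Fin.cases ?_ fun i => ?_
    · rw [hq0]; exact hδ
    · rw [hqs]; exact mul_ne_zero hδ (hA i)
  have hm1 : ∀ i : Fin 12, mx v (cr z₁ (qk K t y i.succ)) =
      mx v (zz1 θ₁ (-a - b * θ₁) (t i) (y i)) := fun i => by rw [← hz₁]; exact mx_zz1 _ _ _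
  have hm2 : ∀ i : Fin 12, mx v (cr z₂ (qk K t y i.succ)) =
      mx v (zz1 θ₂ (-a - b * θ₂) (t i) (y i)) := fun i => by rw [← hz₂]; exact mx_zz1 _ _ _
  have hm10 : mx v (cr z₁ (qk K t y 0)) = mx v (zz0 θ₁) := by rw [← hz₁]; exact mx_zz0 _ _
  have hm20 : mx v (cr z₂ (qk K t y 0)) = mx v (zz0 θ₂) := by rw [← hz₂]; exact mx_zz0 _ _
  have hzz0 : ∀ θ : K, zz0 θ ≠ 0 := fun θ h => by
    have := congrFun h 0
    simp [zz0] at this
  have n1 : ∀ k, cr z₁ (qk K t y k) ≠ 0 := by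
    refine Fin.cases ?_ fun i => ?_
    · exact ne_of_mx (v := v) (by rw [hm10]; exact mx_pos (hzz0 _))
    · exact ne_of_mx (v := v) (by rw [hm1]; exact mx_pos (h1 i))
  have n2 : ∀ k, cr z₂ (qk K t y k) ≠ 0 := by
    refine Fin.cases ?_ fun i => ?_
    · exact ne_of_mx (v := v) (by rw [hm20]; exact mx_pos (hzz0 _))
    · exact ne_of_mx (v := v) (by rw [hm2]; exact mx_pos (h2 i))
  have nl : cr z₁ z₂ ≠ 0 := by
    intro h0
    apply n3 0
    rw [h0]; simp [dt]
  obtain ⟨w', hw'⟩ := gen hv (ι := Fin 13 ⊕ Fin 13 ⊕ Unit)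
    (Sum.elim (fun k => cr z₁ (qk K t y k)) (Sum.elim (fun k => cr z₂ (qk K t y k))
      fun _ => cr z₁ z₂)) (by
      rintro (k | k | _)
      · exact n1 k
      · exact n2 k
      · exact nl)
  generalize hw : (up w' : Fin 3 → K) = w at hw'
  have hD : Dat v t y z₁ z₂ w :=
    ⟨hv, hG.gen, fun k => hw' (Sum.inl k), fun k => hw' (Sum.inr (Sum.inl k)),
      hw' (Sum.inr (Sum.inr ())), n1, n2, n3⟩
  obtain ⟨i, j, hij, hl⟩ := hD.two
  have hDn : dt w (cr z₁ z₂) ≠ 0 := by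
    intro h0
    have := hD.hl
    rw [h0, map_zero] at this
    exact (mx_pos (v := v) nl).ne this
  -- the scaling factor
  have hde : dt (![0, 0, 1] : Fin 3 → K) (cr z₁ z₂) = θ₂ - θ₁ := by
    rw [hlam]; simp [dt]
  obtain ⟨s, hs⟩ : ∃ s : K, s = (θ₂ - θ₁) ^ 3 / dt w (cr z₁ z₂) ^ 2 := ⟨_, rfl⟩
  obtain ⟨l₀, hl₀⟩ : ∃ l₀ : Fin 3 → K, ∀ k : Fin 13, (Fin.cons 0 x : Fin 13 → K) k =
      s * xw t y z₁ z₂ w k + dt l₀ (qk K t y k) := by
    refine ⟨fun j => (θ₂ - θ₁) / dt w (cr z₁ z₂) ^ 2 *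
        (dt w (cr z₁ z₂) * dt (cr ![0, 0, 1] z₂) w * cr ![0, 0, 1] z₁ j +
          (θ₂ - θ₁) * dt (cr z₁ ![0, 0, 1]) w * cr z₂ w j),
      fun k => ?_⟩
    · have h := change' z₁ z₂ w ![0, 0, 1] (qk K t y k) hDn (n3 k)
      rw [hde] at h
      rw [hs]
      unfold xw
      rw [← h]
      refine Fin.cases ?_ (fun i => ?_) k
      · have : dt (![0, 0, 1] : Fin 3 → K) (cr z₁ (qk K t y 0)) = 0 := by
          rw [← hz₁]; simp [dt, cr, zz, qk, up, qp_zero]
        rw [this, Fin.cons_zero]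
        simp
      · rw [Fin.cons_succ, hqs, hx]
        have a1 : dt (![0, 0, 1] : Fin 3 → K) (cr z₁ (qk K t y i.succ)) =
            algebraMap ℂ K (t i) - θ₁ := by
          rw [← hz₁]; simp [dt, cr, zz, qk, up, qp_succ]
        have a2 : dt (![0, 0, 1] : Fin 3 → K) (cr z₂ (qk K t y i.succ)) =
            algebraMap ℂ K (t i) - θ₂ := by
          rw [← hz₂]; simp [dt, cr, zz, qk, up, qp_succ]
        rw [a1, a2]
        have := hA i
        field_simp
  have hs0 : s ≠ 0 := by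
    rw [hs]; exact div_ne_zero (pow_ne_zero _ hδ) (pow_ne_zero _ hDn)
  have hvs0 : 0 < v s := zero_lt_iff.2 ((Valuation.ne_zero_iff v).2 hs0)
  have hP0 : ∀ k, P k ≠ 0 := by
    intro k h0
    apply hP k
    funext jk
    simp [wedge, h0]
  have hpi : Tm P c (Fin.cons 0 x) = piMap P c x := Tm_cons x
  -- lower bounds
  have key : ∀ (k : Fin 13) (r : Gz), mx v (wedge (piMap P c x) (P k)) < v s * r →
      mx v z₁ * mx v z₂ / mx v (cr z₁ z₂) < r ∧
        ∀ m, m ≠ k → v (xw t y z₁ z₂ w m) < r := by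
    intro k r hk
    have hr : 0 < v s * r := lt_of_le_of_lt zero_le hk
    obtain ⟨l, hll⟩ := wedge_lt hv hG (Fin.cons 0 x) hr k (hP0 k) fun jk => by
      rw [hpi]
      exact lt_of_le_of_lt (le_mx _ jk) hk
    refine hD.low hl k (fun n => (l n - l₀ n) / s) fun m hm => ?_
    have e := hll m hm
    rw [hl₀ m] at e
    have e2 : s * xw t y z₁ z₂ w m + dt l₀ (qk K t y m) - dt l (qk K t y m) =
        s * (xw t y z₁ z₂ w m - dt (fun n => (l n - l₀ n) / s) (qk K t y m)) := by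
      simp only [dt]
      field_simp
      ring
    rw [e2, map_mul] at e
    exact (mul_lt_mul_iff_right₀ hvs0).1 e
  have low1 : ∀ k, v s * (mx v z₁ * mx v z₂ / mx v (cr z₁ z₂)) ≤
      mx v (wedge (piMap P c x) (P k)) := by
    intro k
    by_contra hc
    exact lt_irrefl _ (key k _ (not_le.1 hc)).1
  have low2 : ∀ k m, m ≠ k → v s * v (xw t y z₁ z₂ w m) ≤
      mx v (wedge (piMap P c x) (P k)) := by
    intro k m hm
    by_contra hc
    exact lt_irrefl _ ((key k _ (not_le.1 hc)).2 m hm)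
  have hup : ∀ r : Gz, (∀ k, v (xw t y z₁ z₂ w k) ≤ r) → mx v (piMap P c x) ≤ v s * r := by
    intro r hr
    have e1 : piMap P c x = s • Tm P c (xw t y z₁ z₂ w) := by
      rw [← hpi]
      have : (Fin.cons 0 x : Fin 13 → K) =
          fun k => s * xw t y z₁ z₂ w k + dt l₀ (qk K t y k) := funext hl₀
      rw [this, Tm_add, Tm_ev hG, add_zero, Tm_smul]
    rw [e1, mx_smul]
    exact mul_le_mul' le_rfl (Tm_le hv _ hr)
  -- logarithms
  have p1 := (mx_pos (v := v) hD.z1_ne).ne'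
  have p2 := (mx_pos (v := v) hD.z2_ne).ne'
  have pl := (mx_pos (v := v) nl).ne'
  have pβ : mx v z₁ * mx v z₂ / mx v (cr z₁ z₂) ≠ 0 := div_ne_zero (mul_ne_zero p1 p2) pl
  have px : ∀ k, v (xw t y z₁ z₂ w k) ≠ 0 := fun k => by
    rw [hD.xw_v]
    exact div_ne_zero (mul_ne_zero (mx_pos (n1 k)).ne' (mx_pos (n2 k)).ne')
      ((Valuation.ne_zero_iff v).2 (n3 k))
  have pw : ∀ k, mx v (wedge (piMap P c x) (P k)) ≠ 0 := fun k => (mx_pos (hP k)).ne'
  have pp : mx v (piMap P c x) ≠ 0 :=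
    (lt_of_lt_of_le (mx_pos (hP 0)) (wedge_le hv _ _)).ne'
  have hvδ : v (θ₂ - θ₁) ≠ 0 := (Valuation.ne_zero_iff v).2 hδ
  have hvA : ∀ i, v (algebraMap ℂ K (y i) + a + b * algebraMap ℂ K (t i)) ≠ 0 := fun i =>
    (Valuation.ne_zero_iff v).2 (hA i)
  have pab : mx v ![a, b, 1] ≠ 0 := (mx_pos (v := v) (w := ![a, b, 1]) (fun h => by
    have := congrFun h 2
    simp at this)).ne'
  have A := arith i j hij (Fin.cons 3 fun _ => 4) (by
      refine Fin.cases ?_ fun i => ?_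
      · left; rfl
      · right; rfl)
    (fun k => WithZero.log (v (xw t y z₁ z₂ w k)))
    (fun k => nrm v (wedge (piMap P c x) (P k)))
    (WithZero.log (mx v z₁ * mx v z₂ / mx v (cr z₁ z₂))) (WithZero.log (v s))
    (nrm v (piMap P c x))
    (fun k => by
      rw [← WithZero.log_mul hvs0.ne' pβ, nrm_eq]
      exact (WithZero.log_le_log (mul_ne_zero hvs0.ne' pβ) (pw k)).2 (low1 k))
    (fun k l hlk => by
      rw [← WithZero.log_mul hvs0.ne' (px l), nrm_eq]
      exact (WithZero.log_le_log (mul_ne_zero hvs0.ne' (px l)) (pw k)).2 (low2 k l hlk))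
    (by
      have e := hup (max (mx v z₁ * mx v z₂ / mx v (cr z₁ z₂))
        (max (v (xw t y z₁ z₂ w i)) (v (xw t y z₁ z₂ w j)))) (fun k => by
          by_cases hki : k = i
          · subst hki; exact le_max_of_le_right (le_max_left _ _)
          by_cases hkj : k = j
          · subst hkj; exact le_max_of_le_right (le_max_right _ _)
          rw [hD.xw_v' (hl k hki hkj)]
          exact le_max_left _ _)
      have e2 : ∀ r : Gz, r ≠ 0 → mx v (piMap P c x) ≤ v s * r →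
          nrm v (piMap P c x) ≤ WithZero.log (v s) + WithZero.log r := by
        intro r hr h
        rw [← WithZero.log_mul hvs0.ne' hr, nrm_eq]
        exact (WithZero.log_le_log pp (mul_ne_zero hvs0.ne' hr)).2 h
      rcases max_choice (mx v z₁ * mx v z₂ / mx v (cr z₁ z₂))
        (max (v (xw t y z₁ z₂ w i)) (v (xw t y z₁ z₂ w j))) with hh | hh
      · left
        rw [hh] at e
        exact e2 _ pβ e
      · right
        rw [hh] at e
        rcases max_choice (v (xw t y z₁ z₂ w i)) (v (xw t y z₁ z₂ w j)) with hh' | hh'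
        · left
          rw [hh'] at e
          exact e2 _ (px i) e
        · right
          rw [hh'] at e
          exact e2 _ (px j) e)
    (fun k => (WithZero.log_le_log (pw k) pp).2 (wedge_le hv _ _))
    (fun k hki hkj => by rw [hD.xw_v' (hl k hki hkj)])
  -- conclusion
  have vs : WithZero.log (v s) = 3 * WithZero.log (v (θ₂ - θ₁)) -
      2 * (WithZero.log (v (θ₂ - θ₁)) + nrm v ![a, b, 1]) := by
    have e1 : v s = v (θ₂ - θ₁) ^ 3 / (v (θ₂ - θ₁) * mx v ![a, b, 1]) ^ 2 := by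
      rw [hs, map_div₀, map_pow, map_pow, hD.hl, hlam, mx_smul]
    rw [e1, WithZero.log_div (pow_ne_zero _ hvδ) (pow_ne_zero _ (mul_ne_zero hvδ pab)),
      WithZero.log_pow, WithZero.log_pow, WithZero.log_mul hvδ pab, nrm_eq]
    simp
  have vl : WithZero.log (mx v (cr z₁ z₂)) =
      WithZero.log (v (θ₂ - θ₁)) + nrm v ![a, b, 1] := by
    rw [hlam, mx_smul, WithZero.log_mul hvδ pab, nrm_eq]
  have vβ : WithZero.log (mx v z₁ * mx v z₂ / mx v (cr z₁ z₂)) =
      nrm v z₁ + nrm v z₂ - (WithZero.log (v (θ₂ - θ₁)) + nrm v ![a, b, 1]) := by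
    rw [WithZero.log_div (mul_ne_zero p1 p2) pl, WithZero.log_mul p1 p2, vl]
    rfl
  have vx0 : WithZero.log (v (xw t y z₁ z₂ w 0)) =
      nrm v (zz0 θ₁) + nrm v (zz0 θ₂) - WithZero.log (v (θ₂ - θ₁)) := by
    rw [hD.xw_v, WithZero.log_div (mul_ne_zero (mx_pos (n1 0)).ne' (mx_pos (n2 0)).ne')
      ((Valuation.ne_zero_iff v).2 (n3 0)), WithZero.log_mul (mx_pos (n1 0)).ne'
      (mx_pos (n2 0)).ne', hm10, hm20, hq0]
    rfl
  have vxs : ∀ i : Fin 12, WithZero.log (v (xw t y z₁ z₂ w i.succ)) =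
      nrm v (zz1 θ₁ (-a - b * θ₁) (t i) (y i)) + nrm v (zz1 θ₂ (-a - b * θ₂) (t i) (y i)) -
        (WithZero.log (v (θ₂ - θ₁)) +
          WithZero.log (v (algebraMap ℂ K (y i) + a + b * algebraMap ℂ K (t i)))) := by
    intro i
    rw [hD.xw_v, WithZero.log_div (mul_ne_zero (mx_pos (n1 _)).ne' (mx_pos (n2 _)).ne')
      ((Valuation.ne_zero_iff v).2 (n3 _)), WithZero.log_mul (mx_pos (n1 _)).ne'
      (mx_pos (n2 _)).ne', hm1, hm2, hqs, map_mul, WithZero.log_mul hvδ (hvA i)]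
    rfl
  rw [Fin.sum_univ_succ (n := 12), Fin.sum_univ_succ (n := 12)] at A
  simp only [Fin.cons_zero, Fin.cons_succ, vx0, vxs, vβ, vs, ← Finset.mul_sum] at A
  have e5 : ∑ i : Fin 12, (nrm v (zz1 θ₁ (-a - b * θ₁) (t i) (y i)) +
      nrm v (zz1 θ₂ (-a - b * θ₂) (t i) (y i)) - (WithZero.log (v (θ₂ - θ₁)) +
        WithZero.log (v (algebraMap ℂ K (y i) + a + b * algebraMap ℂ K (t i)))) -
      (nrm v z₁ + nrm v z₂ - (WithZero.log (v (θ₂ - θ₁)) + nrm v ![a, b, 1]))) =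
      ∑ i : Fin 12, (nrm v (zz1 θ₁ (-a - b * θ₁) (t i) (y i)) +
        nrm v (zz1 θ₂ (-a - b * θ₂) (t i) (y i)) -
        WithZero.log (v (algebraMap ℂ K (y i) + a + b * algebraMap ℂ K (t i)))) -
      12 * (nrm v z₁ + nrm v z₂ - nrm v ![a, b, 1]) := by
    have : (12 : ℤ) * (nrm v z₁ + nrm v z₂ - nrm v ![a, b, 1]) =
        ∑ _i : Fin 12, (nrm v z₁ + nrm v z₂ - nrm v ![a, b, 1]) := by
      rw [Finset.sum_const, Finset.card_univ, Fintype.card_fin]; simp
    rw [this, ← Finset.sum_sub_distrib]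
    exact Finset.sum_congr rfl fun i _ => by ring
  rw [e5] at A
  linarith [A]

end Pool.Agent.MP5769ea
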