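import Pool.Agent.Lib.MP_5769ea_ag.Spec2

/-!
# MP_5769ea_ag: dependent parameters give small points of `Σ_4`
-/

set_option autoImplicit false

open MvPolynomial

namespace Pool.Agent.MP5769ea

namespace SigSmallAux

variable {K : Type} [Field K] [Algebra ℂ K]

lemma ext_alg {S : Set K} {z : K} (h : IsAlgebraic (Algebra.adjoin ℂ S) z) {S' : Set K}
    (hS : S ⊆ S') : IsAlgebraic (IntermediateField.adjoin ℂ S') z := by
  have hle : Algebra.adjoin ℂ S ≤ (IntermediateField.adjoin ℂ S').toSubalgebra :=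
    (Algebra.adjoin_mono hS).trans (IntermediateField.algebra_adjoin_le_adjoin ℂ S')
  letI : Algebra (Algebra.adjoin ℂ S) (IntermediateField.adjoin ℂ S') :=
    (Subalgebra.inclusion hle).toRingHom.toAlgebra
  haveI : IsScalarTower (Algebra.adjoin ℂ S) (IntermediateField.adjoin ℂ S') K :=
    IsScalarTower.of_algebraMap_eq fun _ => rfl
  exact h.extendScalars (Subalgebra.inclusion_injective hle)

lemma exists_three (w : Fin 4 → K) (hw : ¬ AlgebraicIndependent ℂ w) :
    ∃ a : Fin 3 → K, ∀ i, IsAlgebraic (IntermediateField.adjoin ℂ (Set.range a)) (w i) := by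
  classical
  have hne : ({s : Set (Fin 4) | AlgebraicIndepOn ℂ w s}).Nonempty := by
    refine ⟨∅, ?_⟩
    show AlgebraicIndependent ℂ (fun i : (∅ : Set (Fin 4)) => w i)
    exact (algebraicIndependent_empty_type_iff).2 (algebraMap ℂ K).injective
  obtain ⟨s, hs⟩ := (Set.toFinite {s : Set (Fin 4) | AlgebraicIndepOn ℂ w s}).exists_maximal hne
  have hs1 : AlgebraicIndepOn ℂ w s := hs.1
  have hsu : s ≠ Set.univ := by
    rintro rfl
    apply hw
    have h1 : AlgebraicIndependent ℂ (fun i : (Set.univ : Set (Fin 4)) => w i) := hs1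
    exact (algebraicIndependent_equiv' (Equiv.Set.univ (Fin 4)) rfl).1 h1
  obtain ⟨k, hk⟩ := (Set.ne_univ_iff_exists_notMem s).1 hsu
  refine ⟨fun j => w (k.succAbove j), fun i => ?_⟩
  have hsub : w '' s ⊆ Set.range fun j => w (k.succAbove j) := by
    rintro _ ⟨j, hj, rfl⟩
    have hjk : j ≠ k := fun h => hk (h ▸ hj)
    obtain ⟨j', hj'⟩ := Fin.exists_succAbove_eq hjk
    exact ⟨j', by simp [hj']⟩
  refine ext_alg ?_ hsub
  by_contra htr
  have htr' : Transcendental (Algebra.adjoin ℂ (w '' s)) (w i) := htr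
  have h2 : AlgebraicIndepOn ℂ w (insert i s) := AlgebraicIndepOn.insert hs1 htr'
  have h3 : i ∈ s := hs.2 h2 (Set.subset_insert i s) (Set.mem_insert i s)
  exact htr (isAlgebraic_algebraMap
    (⟨w i, Algebra.subset_adjoin ⟨i, h3, rfl⟩⟩ : Algebra.adjoin ℂ (w '' s)))

end SigSmallAux

open SigSmallAux in
theorem SigSmall : S_SigSmall := by
  intro t y K _ _ θ₁ θ₂ a b x hsig hdep
  obtain ⟨-, l, l0, l1, hl, hx⟩ := hsig
  obtain ⟨c, hc⟩ := exists_three _ hdep
  refine ⟨c, l, l0, l1, hl, fun i => ?_⟩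
  rw [hx i]
  have h0 : IsAlgebraic (IntermediateField.adjoin ℂ (Set.range c)) θ₁ := hc 0
  have h1 : IsAlgebraic (IntermediateField.adjoin ℂ (Set.range c)) θ₂ := hc 1
  have h2 : IsAlgebraic (IntermediateField.adjoin ℂ (Set.range c)) a := hc 2
  have h3 : IsAlgebraic (IntermediateField.adjoin ℂ (Set.range c)) b := hc 3
  have hC : ∀ z : ℂ, IsAlgebraic (IntermediateField.adjoin ℂ (Set.range c)) (algebraMap ℂ K z) :=
    fun z => isAlgebraic_algebraMap
      (algebraMap ℂ (IntermediateField.adjoin ℂ (Set.range c)) z)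
  rw [div_eq_mul_inv]
  exact (((hC _).sub h0).mul ((hC _).sub h1)).mul
    (((hC _).add h2).add (h3.mul (hC _))).inv

end Pool.Agent.MP5769ea
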