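import Pool.Agent.Lib.MP_5769ea_ag.Spec1

open MvPolynomial

namespace Pool.Agent.MP5769ea

namespace SimpleAux

/-- the exponent set -/
def expo (d μ : ℤ) : Set (Fin 2 →₀ ℕ) :=
  {s | ((s 0 + s 1 : ℕ) : ℤ) ≤ d ∧ ((s 1 : ℕ) : ℤ) ≤ μ}

theorem expo_finite (d μ : ℤ) : (expo d μ).Finite := by
  refine (Set.finite_Iic (Finsupp.equivFunOnFinite.symm (fun _ : Fin 2 => d.toNat))).subset ?_
  intro s hs
  have h := hs.1
  intro i
  simp only [Finsupp.equivFunOnFinite_symm_apply_apply]
  fin_cases i
  · simp only [Fin.zero_eta]; omega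
  · simp only [Fin.mk_one]; omega

theorem finrank_PD (K : Type) [Field K] (d μ : ℤ) :
    Module.finrank K (PD K d μ) = Nat.card (expo d μ) := by
  rw [PD]
  exact Module.finrank_eq_nat_card_basis (basisRestrictSupport K (expo d μ))

/-- monomial for the position `(a, s)` -/
noncomputable def mon {N : ℕ} (i : Fin N) (s : Fin 2 →₀ ℕ) : (Fin N ⊕ Fin N) →₀ ℕ :=
  Finsupp.single (Sum.inl i) (s 0) + Finsupp.single (Sum.inr i) (s 1)

theorem det_ne {K : Type} [Field K] [CharZero K] {N : ℕ} {t y : Fin N → K} (hG : Gen t y)
    {ι : Type} [Fintype ι] [DecidableEq ι] (j : ι → Fin N) (hj : Function.Injective j)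
    (e : ι → (Fin 2 →₀ ℕ)) (he : Function.Injective e) :
    (Matrix.of fun a b : ι => t (j a) ^ (e b 0) * y (j a) ^ (e b 1)).det ≠ 0 := by
  classical
  set M' : Matrix ι ι (MvPolynomial (Fin N ⊕ Fin N) ℚ) :=
    Matrix.of fun a b => monomial (mon (j a) (e b)) (1 : ℚ) with hM'
  have h1 : (Matrix.of fun a b : ι => t (j a) ^ (e b 0) * y (j a) ^ (e b 1)) =
      (aeval (Sum.elim t y) : MvPolynomial (Fin N ⊕ Fin N) ℚ →ₐ[ℚ] K).toRingHom.mapMatrix M' := by
    ext a b
    simp only [Matrix.of_apply, AlgHom.toRingHom_eq_coe, RingHom.mapMatrix_apply,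
      RingHom.coe_coe, Matrix.map_apply, hM', mon]
    rw [aeval_monomial]
    rw [Finsupp.prod_add_index' (by simp) (by intros; rw [pow_add])]
    rw [Finsupp.prod_single_index (by simp), Finsupp.prod_single_index (by simp)]
    simp
  rw [h1, ← RingHom.map_det]
  have h2 : M'.det ≠ 0 := by
    intro h0
    have hc : coeff (∑ i, mon (j i) (e i)) M'.det = 1 := by
      rw [Matrix.det_apply, coeff_sum]
      rw [Finset.sum_eq_single (1 : Equiv.Perm ι)]
      · simp only [Equiv.Perm.sign_one, one_smul, hM', Matrix.of_apply, Equiv.Perm.coe_one, id_eq]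
        rw [← monomial_sum_one]
        simp
      · intro σ _ hσ
        simp only [hM', Matrix.of_apply]
        rw [← monomial_sum_one, coeff_smul, coeff_monomial, if_neg, smul_zero]
        intro heq
        apply hσ
        have key : ∀ a : ι, e (σ.symm a) = e a := by
          intro a
          have hl := DFunLike.congr_fun heq (Sum.inl (j a))
          have hr := DFunLike.congr_fun heq (Sum.inr (j a))
          simp only [mon, Finsupp.coe_finsetSum, Finset.sum_apply, Finsupp.add_apply,
            Finsupp.single_apply, Sum.inl.injEq, reduceCtorEq, if_false, add_zero, zero_add,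
            Sum.inr.injEq, hj.eq_iff] at hl hr
          have hl1 : ∑ x, (if σ x = a then e x 0 else 0) = e (σ.symm a) 0 := by
            rw [Finset.sum_eq_single (σ.symm a)]
            · simp
            · intro b _ hb
              rw [if_neg]
              rintro rfl
              exact hb (by simp)
            · simp
          have hr1 : ∑ x, (if σ x = a then e x 1 else 0) = e (σ.symm a) 1 := by
            rw [Finset.sum_eq_single (σ.symm a)]
            · simp
            · intro b _ hb
              rw [if_neg]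
              rintro rfl
              exact hb (by simp)
            · simp
          rw [hl1] at hl
          rw [hr1] at hr
          simp only [Finset.sum_ite_eq', Finset.mem_univ, if_true] at hl hr
          ext i
          fin_cases i
          · exact hl
          · exact hr
        ext a
        have := he (key (σ a))
        simp only [Equiv.symm_apply_apply] at this
        simpa using this.symm
      · intro h; exact absurd (Finset.mem_univ _) h
    rw [h0] at hc
    simp at hc
  intro h3
  apply h2
  have hinj : Function.Injective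
      (aeval (Sum.elim t y) : MvPolynomial (Fin N ⊕ Fin N) ℚ →ₐ[ℚ] K) := hG
  apply hinj
  rw [map_zero]
  exact h3

theorem eval_of_ord {K : Type} [Field K] (q : Fin 2 → K) (F : MvPolynomial (Fin 2) K)
    (hF : F ∈ OrdGE q 1) : eval q F = 0 := by
  have h1 : shift q F ∈ restrictSupport K {s : Fin 2 →₀ ℕ | (1 : ℤ) ≤ ((s 0 + s 1 : ℕ) : ℤ)} := hF
  have h2 : coeff 0 (shift q F) = 0 := by
    by_contra hne
    have h3 : (0 : Fin 2 →₀ ℕ) ∈ (shift q F).support := by
      rw [mem_support_iff]; exact hne
    have h4 := (mem_restrictSupport_iff K).1 h1 (by exact_mod_cast h3)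
    have h5 : (1 : ℤ) ≤ (((0 : Fin 2 →₀ ℕ) 0 + (0 : Fin 2 →₀ ℕ) 1 : ℕ) : ℤ) := h4
    simp at h5
  have h6 : coeff 0 (shift q F) = eval q F := by
    have h7 : (constantCoeff : MvPolynomial (Fin 2) K →+* K).comp (shift q).toRingHom = eval q := by
      apply MvPolynomial.ringHom_ext
      · intro c; simp [shift]
      · intro i; simp [shift]
    have := RingHom.congr_fun h7 F
    rw [← this]
    rfl
  rw [← h6, h2]

theorem surj {K : Type} [Field K] [CharZero K] {N : ℕ} {t y : Fin N → K} (hG : Gen t y)
    (d μ : ℤ) {ι : Type} [Fintype ι] (j : ι → Fin N) (hj : Function.Injective j)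
    (hc : Fintype.card ι ≤ Nat.card (expo d μ)) (v : ι → K) :
    ∃ F ∈ PD K d μ, ∀ a, eval (pt t y (j a)) F = v a := by
  classical
  have : Finite (expo d μ) := (expo_finite d μ)
  have : Fintype (expo d μ) := Fintype.ofFinite _
  rw [Nat.card_eq_fintype_card] at hc
  obtain ⟨f⟩ := Function.Embedding.nonempty_of_card_le hc
  set e : ι → (Fin 2 →₀ ℕ) := fun a => (f a : Fin 2 →₀ ℕ) with he
  have hei : Function.Injective e := fun a b h => f.injective (Subtype.ext h)
  have hd := det_ne hG j hj e hei
  set M := Matrix.of fun a b : ι => t (j a) ^ (e b 0) * y (j a) ^ (e b 1) with hM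
  have hu : IsUnit M.det := isUnit_iff_ne_zero.2 hd
  set w := M⁻¹.mulVec v with hw
  have hMw : M.mulVec w = v := by
    rw [hw, Matrix.mulVec_mulVec, Matrix.mul_nonsing_inv _ hu, Matrix.one_mulVec]
  refine ⟨∑ b, monomial (e b) (w b), ?_, ?_⟩
  · refine Submodule.sum_mem _ fun b _ => ?_
    rw [PD, mem_restrictSupport_iff]
    intro s hs
    have hs' : s ∈ (monomial (e b) (w b)).support := by exact_mod_cast hs
    have h1 := support_monomial_subset hs'
    rw [Finset.mem_singleton] at h1
    rw [h1]
    exact (f b).2
  · intro a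
    rw [map_sum]
    have h2 : ∀ b, eval (pt t y (j a)) (monomial (e b) (w b)) = M a b * w b := by
      intro b
      rw [eval_monomial]
      rw [Finsupp.prod_fintype _ _ (by simp)]
      simp only [Fin.prod_univ_two, pt, hM, Matrix.of_apply, Matrix.cons_val_zero,
        Matrix.cons_val_one]
      ring
    rw [Finset.sum_congr rfl fun b _ => h2 b]
    have := congrFun hMw a
    rw [← this]
    rfl

end SimpleAux

open SimpleAux in
theorem Simple : S_Simple := by
  classical
  intro K _ _ N t y hG d μ g hg
  set I : Finset (Fin N) := Finset.univ.filter fun i => g i = 1 with hI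
  have hsum : ∑ i, g i = (I.card : ℤ) := by
    rw [Finset.card_filter]
    push_cast
    refine Finset.sum_congr rfl fun i _ => ?_
    rcases hg i with h | h <;> simp [h]
  rw [hsum]
  obtain ⟨I', hI'sub, hI'card⟩ := Finset.exists_subset_card_eq
    (n := min I.card (Nat.card (expo d μ))) (s := I) (min_le_left _ _)
  have : FiniteDimensional K (PD K d μ) := by
    have : Finite (expo d μ) := (expo_finite d μ)
    exact Module.Finite.of_basis (basisRestrictSupport K (expo d μ))
  let ev : PD K d μ →ₗ[K] (I' → K) :=
    LinearMap.pi fun a => ((MvPolynomial.aeval (pt t y a.1) :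
      MvPolynomial (Fin 2) K →ₐ[K] K).toLinearMap).comp (PD K d μ).subtype
  have hev : ∀ (F : PD K d μ) (a : I'), ev F a = eval (pt t y a.1) F.1 := by
    intro F a
    simp [ev, MvPolynomial.aeval_eq_eval]
  have hsurj : Function.Surjective ev := by
    intro v
    obtain ⟨F, hF, hFv⟩ := surj hG d μ (ι := I') (fun a => a.1) Subtype.val_injective
      (by rw [Fintype.card_coe, hI'card]; exact min_le_right _ _) v
    refine ⟨⟨F, hF⟩, ?_⟩
    funext a
    rw [hev]
    exact hFv a
  have hrank := LinearMap.finrank_range_add_finrank_ker ev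
  rw [LinearMap.range_eq_top.2 hsurj, finrank_top, Module.finrank_pi, Fintype.card_coe,
    hI'card] at hrank
  have hle : HH (pt t y) d μ g ≤ (LinearMap.ker ev).map (PD K d μ).subtype := by
    intro F hF
    have hF1 : F ∈ PD K d μ := (Submodule.mem_inf.1 hF).1
    have hF2 := (Submodule.mem_iInf _).1 (Submodule.mem_inf.1 hF).2
    refine ⟨⟨F, hF1⟩, ?_, rfl⟩
    simp only [SetLike.mem_coe, LinearMap.mem_ker]
    funext a
    rw [hev]
    have ha : g a.1 = 1 := (Finset.mem_filter.1 (hI'sub a.2)).2
    have h3 := hF2 a.1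
    rw [ha] at h3
    simpa using eval_of_ord _ _ h3
  have hfin : Module.finrank K (HH (pt t y) d μ g) ≤ Module.finrank K (LinearMap.ker ev) := by
    rw [← Submodule.finrank_map_subtype_eq (PD K d μ) (LinearMap.ker ev)]
    have : FiniteDimensional K ((LinearMap.ker ev).map (PD K d μ).subtype) := by
      infer_instance
    exact Submodule.finrank_mono hle
  rw [finrank_PD] at hrank ⊢
  have : (min I.card (Nat.card (expo d μ)) : ℕ) ≤ Nat.card (expo d μ) := min_le_right _ _
  omega

end Pool.Agent.MP5769ea
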