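import Pool.Agent.Lib.MP_5769ea_ag.Spec2

/-!
# MP_5769ea_ag: types with `κ = 0`
-/

set_option autoImplicit false

open MvPolynomial

namespace Pool.Agent.MP5769ea

namespace Small0Aux

/-! ### polynomials in one variable -/

/-- `X_0 ↦ X`, `X_1 ↦ 0` -/
noncomputable def ret (K : Type) [Field K] : MvPolynomial (Fin 2) K →ₐ[K] Polynomial K :=
  aeval ![Polynomial.X, 0]

/-- `X ↦ X_0` -/
noncomputable def inc (K : Type) [Field K] : Polynomial K →ₐ[K] MvPolynomial (Fin 2) K :=
  Polynomial.aeval (X 0)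

variable {K : Type} [Field K]

lemma ret_inc (p : Polynomial K) : ret K (inc K p) = p := by
  have h : (ret K).comp (inc K) = AlgHom.id K _ := by
    apply Polynomial.algHom_ext
    simp [ret, inc]
  exact DFunLike.congr_fun h p

lemma eval_inc (q : Fin 2 → K) (p : Polynomial K) : eval q (inc K p) = p.eval (q 0) := by
  have h : (aeval q : MvPolynomial (Fin 2) K →ₐ[K] K).comp (inc K) = Polynomial.aeval (q 0) := by
    apply Polynomial.algHom_ext
    simp [inc]
  have h2 := DFunLike.congr_fun h p
  simpa using h2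

lemma ret_monomial (v : Fin 2 →₀ ℕ) (a : K) (hv : v 1 = 0) :
    ret K (monomial v a) = Polynomial.monomial (v 0) a := by
  unfold ret
  rw [aeval_monomial, Finsupp.prod_fintype _ _ (fun i => pow_zero _), Fin.prod_univ_two, hv]
  simp [Polynomial.C_mul_X_pow_eq_monomial]

lemma inc_monomial (n : ℕ) (a : K) :
    inc K (Polynomial.monomial n a) = monomial (Finsupp.single 0 n) a := by
  unfold inc
  rw [← Polynomial.C_mul_X_pow_eq_monomial, map_mul, map_pow, Polynomial.aeval_X,
    Polynomial.aeval_C, X_pow_eq_monomial, algebraMap_eq, C_mul_monomial, mul_one]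

lemma inc_ret_monomial (v : Fin 2 →₀ ℕ) (a : K) (hv : v 1 = 0) :
    inc K (ret K (monomial v a)) = monomial v a := by
  rw [ret_monomial v a hv, inc_monomial]
  have h : (Finsupp.single 0 (v 0) : Fin 2 →₀ ℕ) = v := by
    refine Finsupp.ext fun i => ?_
    fin_cases i
    · simp
    · simp [hv]
  rw [h]

lemma supp_PD {P : MvPolynomial (Fin 2) K} {d : ℤ} (h : P ∈ PD K d 0) (v : Fin 2 →₀ ℕ)
    (hv : v ∈ P.support) : v 1 = 0 ∧ ((v 0 : ℕ) : ℤ) ≤ d := by
  have h1 := (mem_restrictSupport_iff K).1 h hv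
  have h2 : (((v 0 + v 1 : ℕ) : ℤ) ≤ d) ∧ ((v 1 : ℕ) : ℤ) ≤ 0 := h1
  push_cast at h2
  constructor <;> omega

lemma inc_ret {P : MvPolynomial (Fin 2) K} {d : ℤ} (h : P ∈ PD K d 0) :
    inc K (ret K P) = P := by
  conv_rhs => rw [← support_sum_monomial_coeff P]
  conv_lhs => rw [← support_sum_monomial_coeff P]
  rw [map_sum, map_sum]
  exact Finset.sum_congr rfl fun v hv => inc_ret_monomial v _ (supp_PD h v hv).1

lemma coeff_ret {P : MvPolynomial (Fin 2) K} {d : ℤ} (h : P ∈ PD K d 0) (j : ℕ)
    (hj : d < (j : ℤ)) : (ret K P).coeff j = 0 := by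
  rw [← support_sum_monomial_coeff P, map_sum, Polynomial.finsetSum_coeff]
  refine Finset.sum_eq_zero fun v hv => ?_
  obtain ⟨h1, h2⟩ := supp_PD h v hv
  rw [ret_monomial v _ h1, Polynomial.coeff_monomial, if_neg]
  intro h3
  rw [h3] at h2
  omega

lemma eval_eq_zero {F : MvPolynomial (Fin 2) K} {q : Fin 2 → K} (h : F ∈ OrdGE q 1) :
    eval q F = 0 := by
  have h1 : shift q F ∈ restrictSupport K {s : Fin 2 →₀ ℕ | (1 : ℤ) ≤ ((s 0 + s 1 : ℕ) : ℤ)} := h
  have h2 : constantCoeff (shift q F) = eval q F := by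
    have h3 : (constantCoeff : MvPolynomial (Fin 2) K →+* K).comp (shift q).toRingHom = eval q := by
      apply MvPolynomial.ringHom_ext
      · intro a
        simp [shift]
      · intro i
        simp [shift]
    exact DFunLike.congr_fun h3 F
  rw [← h2, constantCoeff_eq]
  by_contra h4
  have h5 : (0 : Fin 2 →₀ ℕ) ∈ (shift q F).support := mem_support_iff.2 h4
  have h6 := (mem_restrictSupport_iff K).1 h1 h5
  simp at h6

lemma coprime_ret {P R : MvPolynomial (Fin 2) K} {d e : ℤ} (hP : P ∈ PD K d 0)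
    (hR : R ∈ PD K e 0) (h : IsRelPrime P R) : IsCoprime (ret K P) (ret K R) := by
  apply IsRelPrime.isCoprime
  intro q h1 h2
  have h3 : inc K q ∣ P := by
    rw [← inc_ret hP]
    exact map_dvd _ h1
  have h4 : inc K q ∣ R := by
    rw [← inc_ret hR]
    exact map_dvd _ h2
  have h5 := (h h3 h4).map (ret K)
  rwa [ret_inc] at h5

lemma eval_four (p : Polynomial K) (h : ∀ j : ℕ, 3 < j → p.coeff j = 0) (T : K) :
    p.eval T = p.coeff 0 + p.coeff 1 * T + p.coeff 2 * T ^ 2 + p.coeff 3 * T ^ 3 := by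
  have h1 : p.natDegree < 4 := Nat.lt_succ_of_le (Polynomial.natDegree_le_iff_coeff_eq_zero.2 h)
  rw [Polynomial.eval_eq_sum_range' h1]
  simp [Finset.sum_range_succ]

/-! ### the generators -/

section gens

variable [Algebra ℂ K]

omit [Algebra ℂ K] in
lemma exists_a (G : Finset K) (hG : G.card ≤ 3) :
    ∃ a : Fin 3 → K, (G : Set K) ⊆ Set.range a := by
  classical
  refine ⟨fun k => G.toList.getD k 0, fun z hz => ?_⟩
  have h1 : z ∈ G.toList := Finset.mem_toList.2 hz
  obtain ⟨n, hn, hz'⟩ := List.getElem_of_mem h1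
  have h2 : n < 3 := by
    rw [Finset.length_toList] at hn
    omega
  refine ⟨⟨n, h2⟩, ?_⟩
  show G.toList.getD n 0 = z
  rw [List.getD_eq_getElem _ _ hn, hz']

lemma fin3 (t : Fin 12 → ℂ) (x : Fin 12 → K) (I : Finset (Fin 12)) (G : Finset K) (l l0 l1 : K)
    (hl : l ≠ 0) (hcard : G.card + I.card ≤ 3)
    (h : ∀ i, i ∉ I → l * (x i - l0 - l1 * algebraMap ℂ K (t i)) ∈
      IntermediateField.adjoin ℂ (G : Set K)) : SmallDim t x := by
  classical
  obtain ⟨a, ha⟩ := exists_a
    (G ∪ I.image (fun i => l * (x i - l0 - l1 * algebraMap ℂ K (t i))))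
    (((Finset.card_union_le _ _).trans (Nat.add_le_add_left Finset.card_image_le _)).trans hcard)
  refine ⟨a, l, l0, l1, hl, fun i => ?_⟩
  have hmem : l * (x i - l0 - l1 * algebraMap ℂ K (t i)) ∈
      IntermediateField.adjoin ℂ (Set.range a) := by
    by_cases hi : i ∈ I
    · exact IntermediateField.subset_adjoin _ _
        (ha (Finset.mem_coe.2 (Finset.mem_union_right _ (Finset.mem_image_of_mem _ hi))))
    · exact IntermediateField.adjoin.mono ℂ _ _
        (fun z hz => ha (Finset.mem_coe.2 (Finset.mem_union_left _ (Finset.mem_coe.1 hz))))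
        (h i hi)
  exact isAlgebraic_algebraMap
    (⟨_, hmem⟩ : IntermediateField.adjoin ℂ (Set.range a))

lemma norm1 (t : Fin 12 → ℂ) (x : Fin 12 → K) (I : Finset (Fin 12)) (G : Finset K)
    (l0 l1 ρ u : K) (hρ : ρ ≠ 0) (A : Fin 12 → ℂ) (D : Fin 12 → K)
    (hD : ∀ i, D i ∈ IntermediateField.adjoin ℂ (G : Set K)) (hcard : G.card + I.card ≤ 3)
    (h : ∀ i, i ∉ I → x i - l0 - l1 * algebraMap ℂ K (t i) =
      u * algebraMap ℂ K (A i) / (ρ * D i)) : SmallDim t x := by
  by_cases hu : u = 0
  · refine fin3 t x I G 1 l0 l1 one_ne_zero hcard fun i hi => ?_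
    rw [h i hi, hu, zero_mul, zero_div, mul_zero]
    exact zero_mem _
  · refine fin3 t x I G (ρ / u) l0 l1 (div_ne_zero hρ hu) hcard fun i hi => ?_
    have e : ρ / u * (u * algebraMap ℂ K (A i) / (ρ * D i)) = algebraMap ℂ K (A i) / D i := by
      rw [div_mul_eq_div_div, ← mul_div_assoc]
      congr 1
      field_simp
    rw [h i hi, e]
    exact div_mem (IntermediateField.algebraMap_mem _ _) (hD i)

lemma norm2 (t : Fin 12 → ℂ) (x : Fin 12 → K) (I : Finset (Fin 12)) (G : Finset K)
    (l0 l1 ρ u v : K) (hρ : ρ ≠ 0) (A B : Fin 12 → ℂ) (D : Fin 12 → K)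
    (hD : ∀ i, D i ∈ IntermediateField.adjoin ℂ (G : Set K)) (hcard : G.card + 1 + I.card ≤ 3)
    (h : ∀ i, i ∉ I → x i - l0 - l1 * algebraMap ℂ K (t i) =
      (u * algebraMap ℂ K (A i) + v * algebraMap ℂ K (B i)) / (ρ * D i)) : SmallDim t x := by
  classical
  by_cases hu : u = 0
  · refine norm1 t x I G l0 l1 ρ v hρ B D hD (by omega) fun i hi => ?_
    rw [h i hi, hu, zero_mul, zero_add]
  · refine fin3 t x I (insert (v / u) G) (ρ / u) l0 l1 (div_ne_zero hρ hu)
      ((Nat.add_le_add_right (Finset.card_insert_le _ _) _).trans hcard) fun i hi => ?_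
    have e : ρ / u * ((u * algebraMap ℂ K (A i) + v * algebraMap ℂ K (B i)) / (ρ * D i)) =
        (algebraMap ℂ K (A i) + v / u * algebraMap ℂ K (B i)) / D i := by
      rw [div_mul_eq_div_div, ← mul_div_assoc]
      congr 1
      field_simp
    rw [h i hi, e]
    refine div_mem (add_mem (IntermediateField.algebraMap_mem _ _)
      (mul_mem ?_ (IntermediateField.algebraMap_mem _ _))) ?_
    · exact IntermediateField.subset_adjoin _ _ (by simp)
    · exact IntermediateField.adjoin.mono ℂ _ _ (by
        rw [Finset.coe_insert]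
        exact Set.subset_insert _ _) (hD i)

/-- the three cases -/
lemma final (t : Fin 12 → ℂ) (x : Fin 12 → K) (I : Finset (Fin 12)) (c : ℤ) (hc1 : -1 ≤ c)
    (hc2 : c ≤ 2) (hI : (I.card : ℤ) ≤ 4 - 2 * c) (p r : Polynomial K)
    (hp : ∀ j : ℕ, c + 1 < (j : ℤ) → p.coeff j = 0) (hr : ∀ j : ℕ, c < (j : ℤ) → r.coeff j = 0)
    (hr0 : ∀ i, i ∉ I → r.eval (algebraMap ℂ K (t i)) ≠ 0)
    (hx : ∀ i, i ∉ I → p.eval (algebraMap ℂ K (t i)) = x i * r.eval (algebraMap ℂ K (t i))) :
    SmallDim t x := by
  classical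
  have ep : ∀ T : K, p.eval T =
      p.coeff 0 + p.coeff 1 * T + p.coeff 2 * T ^ 2 + p.coeff 3 * T ^ 3 :=
    eval_four p fun j hj => hp j (by omega)
  have er : ∀ T : K, r.eval T =
      r.coeff 0 + r.coeff 1 * T + r.coeff 2 * T ^ 2 + r.coeff 3 * T ^ 3 :=
    eval_four r fun j hj => hr j (by omega)
  have hr3 : r.coeff 3 = 0 := hr 3 (by push_cast; omega)
  simp only [hr3, zero_mul, add_zero] at er
  -- some index is outside `I`
  obtain ⟨i₀, hi₀⟩ : ∃ i, i ∉ I := by
    by_contra hcon
    push Not at hcon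
    have h1 : I = Finset.univ := Finset.eq_univ_iff_forall.2 hcon
    rw [h1, Finset.card_univ, Fintype.card_fin] at hI
    push_cast at hI
    omega
  have hr₀ := hr0 i₀ hi₀
  simp only [er] at hr0 hx hr₀
  simp only [ep] at hx
  obtain ⟨T, hT⟩ : ∃ T : Fin 12 → K, T = fun i => algebraMap ℂ K (t i) := ⟨_, rfl⟩
  have hTi : ∀ i, algebraMap ℂ K (t i) = T i := fun i => by rw [hT]
  by_cases h2 : r.coeff 2 = 0
  · by_cases h1 : r.coeff 1 = 0
    · -- `r` is constant
      rw [h1, h2] at hr₀
      simp only [h1, h2, zero_mul, add_zero] at hr₀ hx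
      by_cases hc0 : c = 2
      · have hI0 : I.card = 0 := by omega
        refine norm2 t x I ∅ (p.coeff 0 / r.coeff 0) (p.coeff 1 / r.coeff 0) (r.coeff 0)
          (p.coeff 2) (p.coeff 3) hr₀ (fun i => t i ^ 2) (fun i => t i ^ 3) (fun _ => 1)
          (fun _ => one_mem _) (by simp [hI0]) fun i hi => ?_
        have h3 := hx i hi
        rw [map_pow, map_pow]
        rw [hTi] at h3 ⊢
        rw [mul_one, eq_div_iff hr₀]
        field_simp
        linear_combination -h3
      by_cases hc1' : c = 1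
      · have hI0 : I.card ≤ 2 := by omega
        have hp3 : p.coeff 3 = 0 := hp 3 (by push_cast; omega)
        refine norm1 t x I ∅ (p.coeff 0 / r.coeff 0) (p.coeff 1 / r.coeff 0) (r.coeff 0)
          (p.coeff 2) hr₀ (fun i => t i ^ 2) (fun _ => 1)
          (fun _ => one_mem _) (by simp; omega) fun i hi => ?_
        have h3 := hx i hi
        rw [hp3] at h3
        rw [map_pow]
        rw [hTi] at h3 ⊢
        rw [mul_one, eq_div_iff hr₀]
        field_simp
        linear_combination -h3
      · have hp3 : p.coeff 3 = 0 := hp 3 (by push_cast; omega)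
        have hp2 : p.coeff 2 = 0 := hp 2 (by push_cast; omega)
        have hc00 : c = 0 := by
          by_contra hne
          exact hr₀ (hr 0 (by push_cast; omega))
        have hI4 : I.card ≤ 4 := by omega
        have hz : ∀ i, i ∉ I → x i - p.coeff 0 / r.coeff 0 -
            p.coeff 1 / r.coeff 0 * algebraMap ℂ K (t i) = 0 := by
          intro i hi
          have h3 := hx i hi
          rw [hp3, hp2] at h3
          rw [hTi] at h3 ⊢
          field_simp
          linear_combination -h3
        by_cases hall : ∀ i, x i - p.coeff 0 / r.coeff 0 -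
            p.coeff 1 / r.coeff 0 * algebraMap ℂ K (t i) = 0
        · refine fin3 t x ∅ ∅ 1 (p.coeff 0 / r.coeff 0) (p.coeff 1 / r.coeff 0) one_ne_zero
            (by simp) fun i _ => ?_
          rw [hall i, mul_zero]
          exact zero_mem _
        · push Not at hall
          obtain ⟨i₁, hi₁⟩ := hall
          have hi₁I : i₁ ∈ I := by
            by_contra hcon
            exact hi₁ (hz i₁ hcon)
          refine fin3 t x (I.erase i₁) ∅ (x i₁ - p.coeff 0 / r.coeff 0 -
            p.coeff 1 / r.coeff 0 * algebraMap ℂ K (t i₁))⁻¹ (p.coeff 0 / r.coeff 0)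
            (p.coeff 1 / r.coeff 0) (inv_ne_zero hi₁) ?_ fun i hi => ?_
          · rw [Finset.card_erase_of_mem hi₁I]
            simp
            omega
          · by_cases hii : i = i₁
            · rw [hii, inv_mul_cancel₀ hi₁]
              exact one_mem _
            · have hiI : i ∉ I := fun h => hi (Finset.mem_erase.2 ⟨hii, h⟩)
              rw [hz i hiI, mul_zero]
              exact zero_mem _
    · -- degree one
      simp only [h2, zero_mul, add_zero] at hr0 hx
      have hcge : 1 ≤ c := by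
        by_contra hne
        exact h1 (hr 1 (by push_cast; omega))
      have hD : ∀ i, T i + r.coeff 0 / r.coeff 1 ∈ IntermediateField.adjoin ℂ
          (({r.coeff 0 / r.coeff 1} : Finset K) : Set K) := by
        intro i
        refine add_mem ?_ (IntermediateField.subset_adjoin _ _ (by simp))
        rw [← hTi]
        exact IntermediateField.algebraMap_mem _ _
      by_cases hc0 : c = 2
      · have hI0 : I.card = 0 := by omega
        refine norm2 t x I {r.coeff 0 / r.coeff 1}
          ((p.coeff 1 - p.coeff 2 / r.coeff 1 * r.coeff 0) / r.coeff 1)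
          (p.coeff 2 / r.coeff 1) (r.coeff 1)
          (p.coeff 0 - (p.coeff 1 - p.coeff 2 / r.coeff 1 * r.coeff 0) / r.coeff 1 * r.coeff 0)
          (p.coeff 3) h1 (fun _ => 1) (fun i => t i ^ 3) (fun i => T i + r.coeff 0 / r.coeff 1)
          hD (by simp [hI0]) fun i hi => ?_
        have h3 := hx i hi
        have h4 := hr0 i hi
        rw [map_pow, map_one]
        rw [hTi] at h3 h4 ⊢
        have h5 : r.coeff 1 * (T i + r.coeff 0 / r.coeff 1) = r.coeff 0 + r.coeff 1 * T i := by
          field_simp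
          ring
        rw [h5, eq_div_iff h4]
        field_simp
        linear_combination (-(r.coeff 1) ^ 2) * h3
      · have hc11 : c = 1 := by omega
        have hI0 : I.card ≤ 2 := by omega
        have hp3 : p.coeff 3 = 0 := hp 3 (by push_cast; omega)
        refine norm1 t x I {r.coeff 0 / r.coeff 1}
          ((p.coeff 1 - p.coeff 2 / r.coeff 1 * r.coeff 0) / r.coeff 1)
          (p.coeff 2 / r.coeff 1) (r.coeff 1)
          (p.coeff 0 - (p.coeff 1 - p.coeff 2 / r.coeff 1 * r.coeff 0) / r.coeff 1 * r.coeff 0)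
          h1 (fun _ => 1) (fun i => T i + r.coeff 0 / r.coeff 1)
          hD (by simp; omega) fun i hi => ?_
        have h3 := hx i hi
        have h4 := hr0 i hi
        rw [hp3] at h3
        rw [map_one]
        rw [hTi] at h3 h4 ⊢
        have h5 : r.coeff 1 * (T i + r.coeff 0 / r.coeff 1) = r.coeff 0 + r.coeff 1 * T i := by
          field_simp
          ring
        rw [h5, eq_div_iff h4]
        field_simp
        linear_combination (-(r.coeff 1) ^ 2) * h3
  · -- degree two
    have hcge : c = 2 := by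
      by_contra hne
      exact h2 (hr 2 (by push_cast; omega))
    have hI0 : I.card = 0 := by omega
    have hD : ∀ i, T i ^ 2 + r.coeff 1 / r.coeff 2 * T i + r.coeff 0 / r.coeff 2 ∈
        IntermediateField.adjoin ℂ
        (({r.coeff 0 / r.coeff 2, r.coeff 1 / r.coeff 2} : Finset K) : Set K) := by
      intro i
      have hTm : T i ∈ IntermediateField.adjoin ℂ
          (({r.coeff 0 / r.coeff 2, r.coeff 1 / r.coeff 2} : Finset K) : Set K) := by
        rw [← hTi]
        exact IntermediateField.algebraMap_mem _ _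
      refine add_mem (add_mem (pow_mem hTm 2) (mul_mem ?_ hTm)) ?_
      · exact IntermediateField.subset_adjoin _ _ (by simp)
      · exact IntermediateField.subset_adjoin _ _ (by simp)
    have hcard2 : ({r.coeff 0 / r.coeff 2, r.coeff 1 / r.coeff 2} : Finset K).card ≤ 2 :=
      Finset.card_le_two
    refine norm2 t x I {r.coeff 0 / r.coeff 2, r.coeff 1 / r.coeff 2}
      ((p.coeff 2 - p.coeff 3 / r.coeff 2 * r.coeff 1) / r.coeff 2)
      (p.coeff 3 / r.coeff 2) (r.coeff 2)
      (p.coeff 0 - (p.coeff 2 - p.coeff 3 / r.coeff 2 * r.coeff 1) / r.coeff 2 * r.coeff 0)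
      (p.coeff 1 - (p.coeff 2 - p.coeff 3 / r.coeff 2 * r.coeff 1) / r.coeff 2 * r.coeff 1 -
        p.coeff 3 / r.coeff 2 * r.coeff 0)
      h2 (fun _ => 1) (fun i => t i)
      (fun i => T i ^ 2 + r.coeff 1 / r.coeff 2 * T i + r.coeff 0 / r.coeff 2)
      hD (by omega) fun i hi => ?_
    have h3 := hx i hi
    have h4 := hr0 i hi
    rw [map_one]
    rw [hTi] at h3 h4 ⊢
    have h5 : r.coeff 2 * (T i ^ 2 + r.coeff 1 / r.coeff 2 * T i + r.coeff 0 / r.coeff 2) =
        r.coeff 0 + r.coeff 1 * T i + r.coeff 2 * T i ^ 2 := by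
      field_simp
      ring
    rw [h5, eq_div_iff h4]
    field_simp
    linear_combination (-(r.coeff 2) ^ 2) * h3

end gens

end Small0Aux

open Small0Aux in
theorem Small0 : S_Small0 := by
  classical
  intro t y _ K _ _ x c γ P R hPR hc hγ hsum
  obtain ⟨I, hIdef⟩ : ∃ I : Finset (Fin 12), I = Finset.univ.filter fun i => γ i = -1 := ⟨_, rfl⟩
  have hmI : ∀ i, i ∈ I ↔ γ i = -1 := fun i => by rw [hIdef]; simp
  have hsumI : ∑ i, γ i = -(I.card : ℤ) := by
    have h1 : ∀ i, γ i = if i ∈ I then -1 else 0 := by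
      intro i
      split_ifs with h
      · exact (hmI i).1 h
      · rcases hγ i with h2 | h2
        · exact h2
        · exact absurd ((hmI i).2 h2) h
    rw [Finset.sum_congr rfl fun i _ => h1 i, Finset.sum_ite_mem]
    simp
  have hc1 : -1 ≤ c := by
    have := hPR.hκc
    omega
  have hcop := coprime_ret hPR.hP hPR.hR hPR.rel
  have hrel : ∀ i, i ∉ I → (ret K P).eval (algebraMap ℂ K (t i)) =
      x i * (ret K R).eval (algebraMap ℂ K (t i)) := by
    intro i hi
    have h0 : γ i = 0 := by
      rcases hγ i with h2 | h2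
      · exact h2
      · exact absurd ((hmI i).2 h2) hi
    have h1 := hPR.hPo i
    rw [h0, zero_add] at h1
    have h2 := eval_eq_zero h1
    rw [map_sub, map_mul, eval_C] at h2
    have e1 : eval (pt (up t) (up y) i) P = (ret K P).eval (algebraMap ℂ K (t i)) := by
      conv_lhs => rw [← inc_ret hPR.hP]
      rw [eval_inc]
      rfl
    have e2 : eval (pt (up t) (up y) i) R = (ret K R).eval (algebraMap ℂ K (t i)) := by
      conv_lhs => rw [← inc_ret hPR.hR]
      rw [eval_inc]
      rfl
    rw [e1, e2] at h2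
    linear_combination h2
  refine final t x I c hc1 hc (by omega) (ret K P) (ret K R)
    (fun j hj => coeff_ret hPR.hP j hj) (fun j hj => coeff_ret hPR.hR j hj) ?_ hrel
  intro i hi h0
  have h1 := hrel i hi
  rw [h0, mul_zero] at h1
  obtain ⟨a, b, hab⟩ := hcop
  have h2 := congrArg (Polynomial.eval (algebraMap ℂ K (t i))) hab
  rw [Polynomial.eval_add, Polynomial.eval_mul, Polynomial.eval_mul, h0, h1, mul_zero, mul_zero,
    add_zero, Polynomial.eval_one] at h2
  exact zero_ne_one h2

end Pool.Agent.MP5769ea
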