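import Pool.Agent.Lib.MP_5769ea_ag.Spec2
import Pool.Agent.Lib.MP_5769ea_ag.Simple

open MvPolynomial

namespace Pool.Agent.MP5769ea

namespace Small1Aux

theorem mem_PD {K : Type} [Field K] {d μ : ℤ} {F : MvPolynomial (Fin 2) K} (h : F ∈ PD K d μ)
    {s : Fin 2 →₀ ℕ} (hs : s ∈ F.support) :
    ((s 0 + s 1 : ℕ) : ℤ) ≤ d ∧ ((s 1 : ℕ) : ℤ) ≤ μ :=
  (mem_restrictSupport_iff K).1 h (by exact_mod_cast hs)

theorem eq_sum {K : Type} [Field K] (F : MvPolynomial (Fin 2) K) (T : Finset (Fin 2 →₀ ℕ))
    (h : F.support ⊆ T) : F = ∑ s ∈ T, monomial s (coeff s F) := by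
  conv_lhs => rw [← support_sum_monomial_coeff F]
  refine Finset.sum_subset h fun s _ hs => ?_
  rw [notMem_support_iff.1 hs, map_zero]

theorem eval_PD01 {K : Type} [Field K] {R : MvPolynomial (Fin 2) K} (h : R ∈ PD K 0 1) :
    R = C (coeff 0 R) := by
  have hT : R.support ⊆ {0} := by
    intro s hs
    have := mem_PD h hs
    rw [Finset.mem_singleton]
    ext i
    fin_cases i
    · simp only [Fin.zero_eta, Finsupp.coe_zero, Pi.zero_apply]; omega
    · simp only [Fin.mk_one, Finsupp.coe_zero, Pi.zero_apply]; omega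
  have := eq_sum R _ hT
  rw [Finset.sum_singleton] at this
  exact this

theorem eval_PD11 {K : Type} [Field K] {P : MvPolynomial (Fin 2) K} (h : P ∈ PD K 1 1)
    (q : Fin 2 → K) :
    eval q P = coeff 0 P + coeff (Finsupp.single 0 1) P * q 0 +
      coeff (Finsupp.single 1 1) P * q 1 := by
  have hT : P.support ⊆ {0, Finsupp.single 0 1, Finsupp.single 1 1} := by
    intro s hs
    have h1 := (mem_PD h hs).1
    simp only [Finset.mem_insert, Finset.mem_singleton]
    have h2 : s 0 + s 1 ≤ 1 := by exact_mod_cast h1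
    have h3 : (s 0 = 0 ∧ s 1 = 0) ∨ (s 0 = 1 ∧ s 1 = 0) ∨ (s 0 = 0 ∧ s 1 = 1) := by omega
    rcases h3 with ⟨a, b⟩ | ⟨a, b⟩ | ⟨a, b⟩
    · left
      ext i; fin_cases i
      · simpa using a
      · simpa using b
    · right; left
      ext i; fin_cases i
      · simpa using a
      · simpa using b
    · right; right
      ext i; fin_cases i
      · simpa using a
      · simpa using b
  have he := eq_sum P _ hT
  have hne1 : (0 : Fin 2 →₀ ℕ) ∉ ({Finsupp.single 0 1, Finsupp.single 1 1} :
      Finset (Fin 2 →₀ ℕ)) := by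
    simp only [Finset.mem_insert, Finset.mem_singleton, not_or]
    constructor
    · intro h; have := DFunLike.congr_fun h 0; simp at this
    · intro h; have := DFunLike.congr_fun h 1; simp at this
  have hne2 : (Finsupp.single 0 1 : Fin 2 →₀ ℕ) ∉ ({Finsupp.single 1 1} :
      Finset (Fin 2 →₀ ℕ)) := by
    simp only [Finset.mem_singleton]
    intro h; have := DFunLike.congr_fun h 0; simp at this
  rw [Finset.sum_insert hne1, Finset.sum_insert hne2, Finset.sum_singleton] at he
  conv_lhs => rw [he]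
  simp only [map_add, eval_monomial]
  rw [Finsupp.prod_single_index (by simp), Finsupp.prod_single_index (by simp)]
  simp
  ring

theorem alg_mem {K : Type} [Field K] [Algebra ℂ K] {E : IntermediateField ℂ K} {z : K}
    (hz : z ∈ E) : IsAlgebraic E z :=
  isAlgebraic_algebraMap (⟨z, hz⟩ : E)

theorem exists_gen {K : Type} [Zero K] (I : Finset (Fin 12)) (hI : I.card ≤ 3) (f : Fin 12 → K) :
    ∃ a : Fin 3 → K, ∀ i ∈ I, f i ∈ Set.range a := by
  classical
  refine ⟨fun k => if h : k.1 < I.card then f (I.equivFin.symm ⟨k.1, h⟩).1 else 0,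
    fun i hi => ?_⟩
  refine ⟨⟨(I.equivFin ⟨i, hi⟩).1, lt_of_lt_of_le (I.equivFin ⟨i, hi⟩).2 hI⟩, ?_⟩
  simp

end Small1Aux

open Small1Aux in
theorem Small1 : S_Small1 := by
  classical
  intro t y _ K _ _ x γ P R hPR hγ hsum
  set I : Finset (Fin 12) := Finset.univ.filter fun i => γ i = -1 with hI
  have hcard : I.card ≤ 2 := by
    have h1 : ∑ i, γ i = -(I.card : ℤ) := by
      rw [Finset.card_filter]
      push_cast
      rw [← Finset.sum_neg_distrib]
      refine Finset.sum_congr rfl fun i _ => ?_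
      rcases hγ i with h | h <;> simp [h]
    omega
  have hnI : ∀ i, i ∉ I → γ i = 0 := by
    intro i hi
    rcases hγ i with h | h
    · exact h
    · exact absurd (by simp [hI, h]) hi
  have hR := eval_PD01 hPR.hR
  have hP11 : P ∈ PD K 1 1 := by simpa using hPR.hP
  have hev : ∀ i, i ∉ I → coeff 0 P + coeff (Finsupp.single 0 1) P * algebraMap ℂ K (t i) +
      coeff (Finsupp.single 1 1) P * algebraMap ℂ K (y i) = x i * coeff 0 R := by
    intro i hi
    have h1 := hPR.hPo i
    rw [hnI i hi, zero_add] at h1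
    have h2 := SimpleAux.eval_of_ord _ _ h1
    rw [map_sub, map_mul, eval_C, eval_PD11 hP11, sub_eq_zero] at h2
    rw [hR] at h2
    simpa [pt, up] using h2
  obtain ⟨i₀, hi₀⟩ : ∃ i₀, i₀ ∉ I := by
    by_contra hall
    push Not at hall
    have : I = Finset.univ := Finset.eq_univ_iff_forall.2 hall
    rw [this] at hcard
    simp at hcard
  have hr : coeff 0 R ≠ 0 := by
    intro h0
    have hR0 : R = 0 := by rw [hR, h0, map_zero]
    have hu : IsUnit P := by
      have := hPR.rel
      rw [hR0] at this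
      exact isRelPrime_zero_right.1 this
    have h1 := hPR.hPo i₀
    rw [hnI i₀ hi₀, zero_add] at h1
    have h2 := SimpleAux.eval_of_ord _ _ h1
    rw [hR0, mul_zero, sub_zero] at h2
    have h3 := hu.map (eval (pt (up t) (up y) i₀))
    rw [h2] at h3
    exact not_isUnit_zero h3
  set r := coeff 0 R with hrdef
  set α := coeff 0 P with hα
  set β := coeff (Finsupp.single 0 1) P with hβ
  set κ := coeff (Finsupp.single 1 1) P with hκ
  have hz : ∀ i, i ∉ I → x i - α / r - β / r * algebraMap ℂ K (t i) =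
      κ / r * algebraMap ℂ K (y i) := by
    intro i hi
    have := hev i hi
    field_simp
    linear_combination -this
  obtain ⟨l, hl, hlκ⟩ : ∃ l : K, l ≠ 0 ∧ (l * (κ / r) = 0 ∨ l * (κ / r) = 1) := by
    by_cases hk : κ / r = 0
    · exact ⟨1, one_ne_zero, Or.inl (by simp [hk])⟩
    · exact ⟨(κ / r)⁻¹, inv_ne_zero hk, Or.inr (inv_mul_cancel₀ hk)⟩
  obtain ⟨a, ha⟩ := exists_gen I (by omega)
    (fun i => l * (x i - α / r - β / r * algebraMap ℂ K (t i)))
  refine ⟨a, l, α / r, β / r, hl, fun i => ?_⟩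
  by_cases hi : i ∈ I
  · exact alg_mem (IntermediateField.subset_adjoin _ _ (ha i hi))
  · rw [hz i hi, ← mul_assoc]
    rcases hlκ with h | h
    · rw [h, zero_mul]
      exact isAlgebraic_zero
    · rw [h, one_mul]
      exact alg_mem (IntermediateField.algebraMap_mem _ _)

end Pool.Agent.MP5769ea
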