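import Pool.Agent.Lib.MP_5769ea_ag.Spec2

/-!
# MP_5769ea_ag, `Small4`: the type `κ = 1, c = 1`
-/

open MvPolynomial

namespace Pool.Agent.MP5769ea

namespace Small4Aux

lemma PD11 {K : Type} [Field K] {F : MvPolynomial (Fin 2) K} (hF : F ∈ PD K 1 1) :
    ∃ r0 r1 r2 : K, F = C r0 + C r1 * X 0 + C r2 * X 1 := by
  unfold PD at hF
  rw [restrictSupport_eq_span] at hF
  induction hF using Submodule.span_induction with
  | mem z hz =>
    obtain ⟨s, ⟨h1, h2⟩, rfl⟩ := hz
    have hs : (monomial s (1 : K)) = X 0 ^ s 0 * X 1 ^ s 1 := by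
      rw [monomial_eq, Finsupp.prod_fintype _ _ (by simp)]
      simp [Fin.prod_univ_two]
    simp only [hs]
    have c1 : s 0 + s 1 ≤ 1 := by exact_mod_cast h1
    have : (s 0 = 0 ∧ s 1 = 0) ∨ (s 0 = 1 ∧ s 1 = 0) ∨ (s 0 = 0 ∧ s 1 = 1) := by omega
    rcases this with ⟨e1, e2⟩ | ⟨e1, e2⟩ | ⟨e1, e2⟩
    · exact ⟨1, 0, 0, by simp [e1, e2]⟩
    · exact ⟨0, 1, 0, by simp [e1, e2]⟩
    · exact ⟨0, 0, 1, by simp [e1, e2]⟩
  | zero => exact ⟨0, 0, 0, by simp⟩
  | add p q _ _ hp hq =>
    obtain ⟨a, b, c, rfl⟩ := hp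
    obtain ⟨a', b', c', rfl⟩ := hq
    exact ⟨a + a', b + b', c + c', by simp only [map_add]; ring⟩
  | smul r p _ hp =>
    obtain ⟨a, b, c, rfl⟩ := hp
    exact ⟨r * a, r * b, r * c, by simp only [smul_eq_C_mul, map_mul]; ring⟩

lemma PD21 {K : Type} [Field K] {F : MvPolynomial (Fin 2) K} (hF : F ∈ PD K 2 1) :
    ∃ α β κ δ ε : K, F = C α + C β * X 0 + C κ * X 1 + C δ * X 0 ^ 2 + C ε * (X 0 * X 1) := by
  unfold PD at hF
  rw [restrictSupport_eq_span] at hF
  induction hF using Submodule.span_induction with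
  | mem z hz =>
    obtain ⟨s, ⟨h1, h2⟩, rfl⟩ := hz
    have hs : (monomial s (1 : K)) = X 0 ^ s 0 * X 1 ^ s 1 := by
      rw [monomial_eq, Finsupp.prod_fintype _ _ (by simp)]
      simp [Fin.prod_univ_two]
    simp only [hs]
    have c1 : s 0 + s 1 ≤ 2 := by exact_mod_cast h1
    have c2 : s 1 ≤ 1 := by exact_mod_cast h2
    have : (s 0 = 0 ∧ s 1 = 0) ∨ (s 0 = 1 ∧ s 1 = 0) ∨ (s 0 = 0 ∧ s 1 = 1) ∨
      (s 0 = 2 ∧ s 1 = 0) ∨ (s 0 = 1 ∧ s 1 = 1) := by omega
    rcases this with ⟨e1, e2⟩ | ⟨e1, e2⟩ | ⟨e1, e2⟩ | ⟨e1, e2⟩ | ⟨e1, e2⟩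
    · exact ⟨1, 0, 0, 0, 0, by simp [e1, e2]⟩
    · exact ⟨0, 1, 0, 0, 0, by simp [e1, e2]⟩
    · exact ⟨0, 0, 1, 0, 0, by simp [e1, e2]⟩
    · exact ⟨0, 0, 0, 1, 0, by simp [e1, e2]⟩
    · exact ⟨0, 0, 0, 0, 1, by simp [e1, e2]⟩
  | zero => exact ⟨0, 0, 0, 0, 0, by simp⟩
  | add p q _ _ hp hq =>
    obtain ⟨a, b, c, d, e, rfl⟩ := hp
    obtain ⟨a', b', c', d', e', rfl⟩ := hq
    exact ⟨a + a', b + b', c + c', d + d', e + e', by simp only [map_add]; ring⟩
  | smul r p _ hp =>
    obtain ⟨a, b, c, d, e, rfl⟩ := hp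
    exact ⟨r * a, r * b, r * c, r * d, r * e, by simp only [smul_eq_C_mul, map_mul]; ring⟩

lemma eval_of_ord {K : Type} [Field K] {q : Fin 2 → K} {g : ℤ} (hg : 1 ≤ g)
    {F : MvPolynomial (Fin 2) K} (hF : F ∈ OrdGE q g) : eval q F = 0 := by
  unfold OrdGE at hF
  rw [Submodule.mem_comap, mem_restrictSupport_iff] at hF
  have h0 : coeff 0 (shift q F) = 0 := by
    by_contra hne
    have := hF (MvPolynomial.mem_support_iff.2 hne)
    simp only [Set.mem_ofPred_eq, Finsupp.coe_zero, Pi.zero_apply] at this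
    simp at this
    omega
  have h1 : coeff 0 (shift q F) = eval q F := by
    rw [← constantCoeff_eq]
    have : (constantCoeff : MvPolynomial (Fin 2) K →+* K).comp (shift q : _ →ₐ[K] _).toRingHom
        = eval q := by
      apply MvPolynomial.ringHom_ext
      · intro r; simp [shift]
      · intro i; simp [shift]
    exact congrArg (fun f : MvPolynomial (Fin 2) K →+* K => f F) this
  rw [← h1, h0]

lemma fin_small {K : Type} [Field K] [Algebra ℂ K] (t : Fin 12 → ℂ) (x : Fin 12 → K)
    (S : Fin 3 → K) (l l0 l1 : K) (hl : l ≠ 0) (num den : Fin 12 → K)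
    (hn : ∀ k, l * num k ∈ IntermediateField.adjoin ℂ (Set.range S))
    (hd : ∀ k, den k ∈ IntermediateField.adjoin ℂ (Set.range S))
    (h : ∀ k, num k = (x k - l0 - l1 * algebraMap ℂ K (t k)) * den k)
    (h0 : ∀ k, den k = 0 → l * (x k - l0 - l1 * algebraMap ℂ K (t k)) ∈
      IntermediateField.adjoin ℂ (Set.range S)) : SmallDim t x := by
  refine ⟨S, l, l0, l1, hl, fun k => ?_⟩
  have hm : l * (x k - l0 - l1 * algebraMap ℂ K (t k)) ∈
      IntermediateField.adjoin ℂ (Set.range S) := by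
    by_cases hz : den k = 0
    · exact h0 k hz
    · have : l * (x k - l0 - l1 * algebraMap ℂ K (t k)) = l * num k / den k := by
        rw [h k]; field_simp
      rw [this]
      exact div_mem (hn k) (hd k)
  exact isAlgebraic_algebraMap
    (⟨_, hm⟩ : IntermediateField.adjoin ℂ (Set.range S))

lemma scale3 {K : Type} [Field K] [Algebra ℂ K] (u v w : K) (h : ¬ (u = 0 ∧ v = 0 ∧ w = 0)) :
    ∃ l g k : K, l ≠ 0 ∧ ∀ L : IntermediateField ℂ K, g ∈ L → k ∈ L →
      l * u ∈ L ∧ l * v ∈ L ∧ l * w ∈ L := by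
  by_cases hu : u = 0
  · by_cases hv : v = 0
    · have hw : w ≠ 0 := fun hw => h ⟨hu, hv, hw⟩
      refine ⟨w⁻¹, 0, 0, inv_ne_zero hw, fun L _ _ => ?_⟩
      rw [hu, hv, inv_mul_cancel₀ hw]
      simp [zero_mem, one_mem]
    · refine ⟨v⁻¹, v⁻¹ * w, 0, inv_ne_zero hv, fun L hg _ => ?_⟩
      rw [hu, inv_mul_cancel₀ hv]
      exact ⟨by simp [zero_mem], one_mem _, hg⟩
  · refine ⟨u⁻¹, u⁻¹ * v, u⁻¹ * w, inv_ne_zero hu, fun L hg hk => ?_⟩
    rw [inv_mul_cancel₀ hu]
    exact ⟨one_mem _, hg, hk⟩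

lemma scale2 {K : Type} [Field K] [Algebra ℂ K] (u v : K) (h : ¬ (u = 0 ∧ v = 0)) :
    ∃ l g : K, l ≠ 0 ∧ ∀ L : IntermediateField ℂ K, g ∈ L → l * u ∈ L ∧ l * v ∈ L := by
  by_cases hu : u = 0
  · have hv : v ≠ 0 := fun hv => h ⟨hu, hv⟩
    refine ⟨v⁻¹, 0, inv_ne_zero hv, fun L _ => ?_⟩
    rw [hu, inv_mul_cancel₀ hv]
    exact ⟨by simp [zero_mem], one_mem _⟩
  · refine ⟨u⁻¹, u⁻¹ * v, inv_ne_zero hu, fun L hg => ?_⟩
    rw [inv_mul_cancel₀ hu]
    exact ⟨one_mem _, hg⟩

lemma quad {K : Type} [Field K] [IsAlgClosed K] (α β δ : K) (hδ : δ ≠ 0) :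
    ∃ θ₁ θ₂ : K, ∀ z, α + β * z + δ * z ^ 2 = δ * ((z - θ₁) * (z - θ₂)) := by
  obtain ⟨θ, hθ⟩ := IsAlgClosed.exists_root
    (Polynomial.C α + Polynomial.C β * Polynomial.X + Polynomial.C δ * Polynomial.X ^ 2) (by
      have : (Polynomial.C α + Polynomial.C β * Polynomial.X +
          Polynomial.C δ * Polynomial.X ^ 2).degree = 2 := by
        compute_degree!
      rw [this]; decide)
  simp only [Polynomial.IsRoot.def, Polynomial.eval_add, Polynomial.eval_C, Polynomial.eval_mul,
    Polynomial.eval_X, Polynomial.eval_pow] at hθ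
  refine ⟨θ, -β / δ - θ, fun z => ?_⟩
  field_simp
  linear_combination hθ

end Small4Aux

open Small4Aux in
theorem Small4 (hG : S_GenPos) : S_Small4 := by
  intro t y hg K _ _ _ x γ P R hp hγ
  obtain ⟨hT, hcol, -⟩ := hG t y hg K
  obtain ⟨r0, r1, r2, hR⟩ := PD11 hp.hR
  obtain ⟨α, β, κ, δ, ε, hP⟩ := PD21 (show P ∈ PD K 2 1 from by
    have := hp.hP; norm_num at this; exact this)
  set T : Fin 12 → K := fun k => algebraMap ℂ K (t k) with hTdef
  set Y : Fin 12 → K := fun k => algebraMap ℂ K (y k) with hYdef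
  have inj : Function.Injective (algebraMap ℂ K) := (algebraMap ℂ K).injective
  have hTne : ∀ i j, i ≠ j → T i - T j ≠ 0 := fun i j hij h =>
    hT i j hij (inj (sub_eq_zero.1 h))
  have hcolK : ∀ i j k, i ≠ j → i ≠ k → j ≠ k →
      (T j - T i) * (Y k - Y i) - (T k - T i) * (Y j - Y i) ≠ 0 := by
    intro i j k h1 h2 h3 h
    apply hcol i j k h1 h2 h3
    apply inj
    simp only [map_sub, map_mul, map_zero]
    exact h
  -- the fundamental relation
  have rel : ∀ k, α + β * T k + κ * Y k + δ * T k ^ 2 + ε * (T k * Y k) =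
      x k * (r0 + r1 * T k + r2 * Y k) := by
    intro k
    have h1 := eval_of_ord (by have := hγ k; omega) (hp.hPo k)
    rw [hP, hR] at h1
    simp [pt, up] at h1
    linear_combination h1
  -- algebraic numbers
  have Tm : ∀ (L : IntermediateField ℂ K) k, T k ∈ L := fun L k => L.algebraMap_mem _
  have Ym : ∀ (L : IntermediateField ℂ K) k, Y k ∈ L := fun L k => L.algebraMap_mem _
  have hRne : ¬ (r0 = 0 ∧ r1 = 0 ∧ r2 = 0) := by
    rintro ⟨e0, e1, e2⟩
    have hR0 : R = 0 := by rw [hR, e0, e1, e2]; simp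
    have hu : IsUnit P := hp.rel dvd_rfl (by rw [hR0]; exact dvd_zero _)
    have h1 := rel 0
    rw [e0, e1, e2] at h1
    have h2 : eval (fun i => if i = 0 then T 0 else Y 0) P = 0 := by
      rw [hP]; simp; linear_combination h1
    have := hu.map (eval (fun i => if i = 0 then T 0 else Y 0))
    rw [h2] at this
    exact not_isUnit_zero this
  have hndvd : ∀ q : Fin 2 → K, eval q R = 0 → ¬ R ∣ P := by
    intro q hq hd
    have hu : IsUnit R := hp.rel hd dvd_rfl
    have := hu.map (eval q)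
    rw [hq] at this
    exact not_isUnit_zero this
  by_cases h2 : r2 = 0
  · by_cases h1 : r1 = 0
    · -- constant
      left
      have h0 : r0 ≠ 0 := fun h0 => hRne ⟨h0, h1, h2⟩
      by_cases hz : κ = 0 ∧ δ = 0 ∧ ε = 0
      · obtain ⟨z1, z2, z3⟩ := hz
        refine fin_small t x (fun _ => 0) 1 (α / r0) (β / r0) one_ne_zero (fun _ => 0)
          (fun _ => 1) ?_ ?_ ?_ ?_
        · intro k; simp [zero_mem]
        · intro k; exact one_mem _
        · intro k
          have := rel k
          rw [z1, z2, z3, h1, h2] at this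
          change 0 = (x k - α / r0 - β / r0 * T k) * 1
          field_simp
          linear_combination this
        · intro k h; exact absurd h one_ne_zero
      · obtain ⟨l, g, h, hl, hL⟩ := scale3 κ δ ε hz
        have hg : g ∈ IntermediateField.adjoin ℂ (Set.range ![g, h, 0]) :=
          IntermediateField.subset_adjoin _ _ ⟨0, rfl⟩
        have hh : h ∈ IntermediateField.adjoin ℂ (Set.range ![g, h, 0]) :=
          IntermediateField.subset_adjoin _ _ ⟨1, rfl⟩
        obtain ⟨m1, m2, m3⟩ := hL _ hg hh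
        refine fin_small t x ![g, h, 0] (l * r0) (α / r0) (β / r0) (mul_ne_zero hl h0)
          (fun k => (κ * Y k + δ * T k ^ 2 + ε * (T k * Y k)) / r0)
          (fun _ => 1) ?_ ?_ ?_ ?_
        · intro k
          have e : l * r0 * ((κ * Y k + δ * T k ^ 2 + ε * (T k * Y k)) / r0) =
              l * κ * Y k + l * δ * T k ^ 2 + l * ε * (T k * Y k) := by
            field_simp
          rw [e]
          exact add_mem (add_mem (mul_mem m1 (Ym _ k)) (mul_mem m2 (pow_mem (Tm _ k) 2)))
            (mul_mem m3 (mul_mem (Tm _ k) (Ym _ k)))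
        · intro k; exact one_mem _
        · intro k
          have := rel k
          rw [h1, h2] at this
          change (κ * Y k + δ * T k ^ 2 + ε * (T k * Y k)) / r0 =
            (x k - α / r0 - β / r0 * T k) * 1
          field_simp
          linear_combination this
        · intro k h; exact absurd h one_ne_zero
    · -- R = r1 (t - τ)
      left
      obtain ⟨τ, hτ⟩ : ∃ τ : K, r0 = - r1 * τ := ⟨- r0 / r1, by field_simp⟩
      obtain ⟨l1, hl1⟩ : ∃ l1 : K, δ = l1 * r1 := ⟨δ / r1, by field_simp⟩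
      obtain ⟨l0, hl0⟩ : ∃ l0 : K, β = l0 * r1 + l1 * r0 :=
        ⟨(β - l1 * r0) / r1, by field_simp; ring⟩
      obtain ⟨α', hα'⟩ : ∃ α' : K, α = r1 * α' + l0 * r0 := ⟨(α - l0 * r0) / r1, by
        field_simp; ring⟩
      obtain ⟨κ', hκ'⟩ : ∃ κ' : K, κ = r1 * κ' := ⟨κ / r1, by field_simp⟩
      obtain ⟨ε', hε'⟩ : ∃ ε' : K, ε = r1 * ε' := ⟨ε / r1, by field_simp⟩
      have hnz : ¬ (α' = 0 ∧ κ' = 0 ∧ ε' = 0) := by
        rintro ⟨z1, z2, z3⟩
        apply hndvd (fun i => if i = 0 then τ else 0)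
        · rw [hR, hτ, h2]; simp
        · refine ⟨C l0 + C l1 * X 0, ?_⟩
          rw [hP, hR, hα', hκ', hε', z1, z2, z3, hl0, hl1, h2]
          simp only [map_add, map_mul, map_zero]
          ring
      have rel' : ∀ k, α' + κ' * Y k + ε' * (T k * Y k) =
          (x k - l0 - l1 * algebraMap ℂ K (t k)) * (T k - τ) := by
        intro k
        have := rel k
        rw [hα', hκ', hε', hl0, hl1, h2, hτ] at this
        change _ = (x k - l0 - l1 * T k) * (T k - τ)
        apply mul_left_cancel₀ h1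
        linear_combination this
      by_cases hJ : ∃ i, T i - τ = 0
      · obtain ⟨i, hi⟩ := hJ
        have hti : τ = T i := (sub_eq_zero.1 hi).symm
        have hα : α' = - κ' * Y i - ε' * (T i * Y i) := by
          have := rel' i
          rw [hi] at this
          linear_combination this
        have hnz' : ¬ (κ' = 0 ∧ ε' = 0) := by
          rintro ⟨z1, z2⟩
          exact hnz ⟨by rw [hα, z1, z2]; ring, z1, z2⟩
        obtain ⟨l, g, hl, hL⟩ := scale2 κ' ε' hnz'
        set S : Fin 3 → K := ![g, l * (x i - l0 - l1 * algebraMap ℂ K (t i)), 0] with hS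
        have m0 : g ∈ IntermediateField.adjoin ℂ (Set.range S) :=
          IntermediateField.subset_adjoin _ _ ⟨0, rfl⟩
        have m1 : l * (x i - l0 - l1 * algebraMap ℂ K (t i)) ∈
            IntermediateField.adjoin ℂ (Set.range S) :=
          IntermediateField.subset_adjoin _ _ ⟨1, rfl⟩
        obtain ⟨n1, n2⟩ := hL _ m0
        refine fin_small t x S l l0 l1 hl (fun k => α' + κ' * Y k + ε' * (T k * Y k))
          (fun k => T k - τ) ?_ ?_ rel' ?_
        · intro k
          have e : l * (α' + κ' * Y k + ε' * (T k * Y k)) =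
              l * κ' * (Y k - Y i) + l * ε' * (T k * Y k - T i * Y i) := by
            rw [hα]; ring
          show l * (α' + κ' * Y k + ε' * (T k * Y k)) ∈ _
          rw [e]
          exact add_mem (mul_mem n1 (sub_mem (Ym _ k) (Ym _ i)))
            (mul_mem n2 (sub_mem (mul_mem (Tm _ k) (Ym _ k)) (mul_mem (Tm _ i) (Ym _ i))))
        · intro k
          show T k - τ ∈ _
          rw [hti]
          exact sub_mem (Tm _ k) (Tm _ i)
        · intro k hk
          have : k = i := by
            by_contra hne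
            apply hTne k i hne
            rw [← hti]; exact hk
          rw [this]; exact m1
      · obtain ⟨l, g, h, hl, hL⟩ := scale3 α' κ' ε' hnz
        set S : Fin 3 → K := ![τ, g, h] with hS
        have m0 : τ ∈ IntermediateField.adjoin ℂ (Set.range S) :=
          IntermediateField.subset_adjoin _ _ ⟨0, rfl⟩
        have m1 : g ∈ IntermediateField.adjoin ℂ (Set.range S) :=
          IntermediateField.subset_adjoin _ _ ⟨1, rfl⟩
        have m2 : h ∈ IntermediateField.adjoin ℂ (Set.range S) :=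
          IntermediateField.subset_adjoin _ _ ⟨2, rfl⟩
        obtain ⟨n1, n2, n3⟩ := hL _ m1 m2
        refine fin_small t x S l l0 l1 hl (fun k => α' + κ' * Y k + ε' * (T k * Y k))
          (fun k => T k - τ) ?_ ?_ rel' ?_
        · intro k
          have e : l * (α' + κ' * Y k + ε' * (T k * Y k)) =
              l * α' + l * κ' * Y k + l * ε' * (T k * Y k) := by ring
          show l * (α' + κ' * Y k + ε' * (T k * Y k)) ∈ _
          rw [e]
          exact add_mem (add_mem n1 (mul_mem n2 (Ym _ k)))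
            (mul_mem n3 (mul_mem (Tm _ k) (Ym _ k)))
        · intro k
          exact sub_mem (Tm _ k) m0
        · intro k hk
          exact absurd ⟨k, hk⟩ hJ
  · -- R = r2 (y + a + b t)
    obtain ⟨a, ha⟩ : ∃ a : K, r0 = r2 * a := ⟨r0 / r2, by field_simp⟩
    obtain ⟨b, hb⟩ : ∃ b : K, r1 = r2 * b := ⟨r1 / r2, by field_simp⟩
    obtain ⟨l1, hl1⟩ : ∃ l1 : K, ε = l1 * r2 := ⟨ε / r2, by field_simp⟩
    obtain ⟨l0, hl0⟩ : ∃ l0 : K, κ = l0 * r2 := ⟨κ / r2, by field_simp⟩
    obtain ⟨α', hα'⟩ : ∃ α' : K, α = r2 * α' + l0 * r0 := ⟨(α - l0 * r0) / r2, by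
      field_simp; ring⟩
    obtain ⟨β', hβ'⟩ : ∃ β' : K, β = r2 * β' + l0 * r1 + l1 * r0 :=
      ⟨(β - l0 * r1 - l1 * r0) / r2, by field_simp; ring⟩
    obtain ⟨δ', hδ'⟩ : ∃ δ' : K, δ = r2 * δ' + l1 * r1 := ⟨(δ - l1 * r1) / r2, by
      field_simp; ring⟩
    have hnz : ¬ (α' = 0 ∧ β' = 0 ∧ δ' = 0) := by
      rintro ⟨z1, z2, z3⟩
      apply hndvd (fun i => if i = 0 then 0 else - a)
      · rw [hR, ha]; simp
      · refine ⟨C l0 + C l1 * X 0, ?_⟩
        rw [hP, hR, hα', hβ', hδ', z1, z2, z3, hl0, hl1]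
        simp only [map_add, map_mul, map_zero]
        ring
    have rel' : ∀ k, α' + β' * T k + δ' * T k ^ 2 =
        (x k - l0 - l1 * algebraMap ℂ K (t k)) * (Y k + a + b * T k) := by
      intro k
      have := rel k
      rw [hα', hβ', hδ', hl0, hl1, ha, hb] at this
      change _ = (x k - l0 - l1 * T k) * (Y k + a + b * T k)
      apply mul_left_cancel₀ h2
      linear_combination this
    by_cases hJ : ∃ i, Y i + a + b * T i = 0
    · left
      obtain ⟨i, hi⟩ := hJ
      have hai : a = - Y i - b * T i := by linear_combination hi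
      have hα : α' = - β' * T i - δ' * T i ^ 2 := by
        have := rel' i
        rw [hi] at this
        linear_combination this
      by_cases hJ2 : ∃ j, j ≠ i ∧ Y j + a + b * T j = 0
      · obtain ⟨j, hji, hj⟩ := hJ2
        have hij : T i - T j ≠ 0 := hTne i j (Ne.symm hji)
        have hbb : b = - (Y i - Y j) / (T i - T j) := by
          rw [eq_div_iff hij]
          linear_combination hi - hj
        have hβ : β' = - δ' * (T i + T j) := by
          have h3 := rel' j
          rw [hj, hα] at h3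
          apply mul_left_cancel₀ hij
          linear_combination (-1) * h3
        have hδ : δ' ≠ 0 := by
          intro h
          apply hnz
          refine ⟨?_, ?_, h⟩
          · rw [hα, hβ, h]; ring
          · rw [hβ, h]; ring
        set S : Fin 3 → K := ![δ'⁻¹ * (x i - l0 - l1 * algebraMap ℂ K (t i)),
          δ'⁻¹ * (x j - l0 - l1 * algebraMap ℂ K (t j)), 0] with hS
        have m0 : δ'⁻¹ * (x i - l0 - l1 * algebraMap ℂ K (t i)) ∈
            IntermediateField.adjoin ℂ (Set.range S) :=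
          IntermediateField.subset_adjoin _ _ ⟨0, rfl⟩
        have m1 : δ'⁻¹ * (x j - l0 - l1 * algebraMap ℂ K (t j)) ∈
            IntermediateField.adjoin ℂ (Set.range S) :=
          IntermediateField.subset_adjoin _ _ ⟨1, rfl⟩
        have mb : b ∈ IntermediateField.adjoin ℂ (Set.range S) := by
          rw [hbb]
          exact div_mem (neg_mem (sub_mem (Ym _ i) (Ym _ j))) (sub_mem (Tm _ i) (Tm _ j))
        have ma : a ∈ IntermediateField.adjoin ℂ (Set.range S) := by
          rw [hai]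
          exact sub_mem (neg_mem (Ym _ i)) (mul_mem mb (Tm _ i))
        refine fin_small t x S δ'⁻¹ l0 l1 (inv_ne_zero hδ)
          (fun k => α' + β' * T k + δ' * T k ^ 2)
          (fun k => Y k + a + b * T k) ?_ ?_ rel' ?_
        · intro k
          have e : δ'⁻¹ * (α' + β' * T k + δ' * T k ^ 2) =
              (T k - T i) * (T k - T j) := by
            rw [hα, hβ]; field_simp; ring
          show δ'⁻¹ * (α' + β' * T k + δ' * T k ^ 2) ∈ _
          rw [e]
          exact mul_mem (sub_mem (Tm _ k) (Tm _ i)) (sub_mem (Tm _ k) (Tm _ j))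
        · intro k
          exact add_mem (add_mem (Ym _ k) ma) (mul_mem mb (Tm _ k))
        · intro k hk
          by_cases hki : k = i
          · rw [hki]; exact m0
          · by_cases hkj : k = j
            · rw [hkj]; exact m1
            · exfalso
              apply hcolK i j k (Ne.symm hji) (Ne.symm hki) (Ne.symm hkj)
              have hk' : Y k + a + b * T k = 0 := hk
              linear_combination (T j - T i) * (hk' - hi) - (T k - T i) * (hj - hi)
      · have hnz' : ¬ (β' = 0 ∧ δ' = 0) := by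
          rintro ⟨z1, z2⟩
          exact hnz ⟨by rw [hα, z1, z2]; ring, z1, z2⟩
        obtain ⟨l, g, hl, hL⟩ := scale2 β' δ' hnz'
        set S : Fin 3 → K := ![b, g, l * (x i - l0 - l1 * algebraMap ℂ K (t i))] with hS
        have m0 : b ∈ IntermediateField.adjoin ℂ (Set.range S) :=
          IntermediateField.subset_adjoin _ _ ⟨0, rfl⟩
        have m1 : g ∈ IntermediateField.adjoin ℂ (Set.range S) :=
          IntermediateField.subset_adjoin _ _ ⟨1, rfl⟩
        have m2 : l * (x i - l0 - l1 * algebraMap ℂ K (t i)) ∈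
            IntermediateField.adjoin ℂ (Set.range S) :=
          IntermediateField.subset_adjoin _ _ ⟨2, rfl⟩
        have ma : a ∈ IntermediateField.adjoin ℂ (Set.range S) := by
          rw [hai]
          exact sub_mem (neg_mem (Ym _ i)) (mul_mem m0 (Tm _ i))
        obtain ⟨n1, n2⟩ := hL _ m1
        refine fin_small t x S l l0 l1 hl (fun k => α' + β' * T k + δ' * T k ^ 2)
          (fun k => Y k + a + b * T k) ?_ ?_ rel' ?_
        · intro k
          have e : l * (α' + β' * T k + δ' * T k ^ 2) =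
              l * β' * (T k - T i) + l * δ' * (T k ^ 2 - T i ^ 2) := by
            rw [hα]; ring
          show l * (α' + β' * T k + δ' * T k ^ 2) ∈ _
          rw [e]
          exact add_mem (mul_mem n1 (sub_mem (Tm _ k) (Tm _ i)))
            (mul_mem n2 (sub_mem (pow_mem (Tm _ k) 2) (pow_mem (Tm _ i) 2)))
        · intro k
          exact add_mem (add_mem (Ym _ k) ma) (mul_mem m0 (Tm _ k))
        · intro k hk
          have : k = i := by
            by_contra hne
            exact hJ2 ⟨k, hne, hk⟩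
          rw [this]; exact m2
    · by_cases hδ : δ' = 0
      · left
        have hnz' : ¬ (α' = 0 ∧ β' = 0) := fun h => hnz ⟨h.1, h.2, hδ⟩
        obtain ⟨l, g, hl, hL⟩ := scale2 α' β' hnz'
        set S : Fin 3 → K := ![a, b, g] with hS
        have m0 : a ∈ IntermediateField.adjoin ℂ (Set.range S) :=
          IntermediateField.subset_adjoin _ _ ⟨0, rfl⟩
        have m1 : b ∈ IntermediateField.adjoin ℂ (Set.range S) :=
          IntermediateField.subset_adjoin _ _ ⟨1, rfl⟩
        have m2 : g ∈ IntermediateField.adjoin ℂ (Set.range S) :=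
          IntermediateField.subset_adjoin _ _ ⟨2, rfl⟩
        obtain ⟨n1, n2⟩ := hL _ m2
        refine fin_small t x S l l0 l1 hl (fun k => α' + β' * T k + δ' * T k ^ 2)
          (fun k => Y k + a + b * T k) ?_ ?_ rel' ?_
        · intro k
          have e : l * (α' + β' * T k + δ' * T k ^ 2) =
              l * α' + l * β' * T k := by
            rw [hδ]; ring
          show l * (α' + β' * T k + δ' * T k ^ 2) ∈ _
          rw [e]
          exact add_mem n1 (mul_mem n2 (Tm _ k))
        · intro k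
          exact add_mem (add_mem (Ym _ k) m0) (mul_mem m1 (Tm _ k))
        · intro k hk
          exact absurd ⟨k, hk⟩ hJ
      · right
        obtain ⟨θ₁, θ₂, hθ⟩ := quad α' β' δ' hδ
        have hne : ∀ k, Y k + a + b * T k ≠ 0 := fun k hk => hJ ⟨k, hk⟩
        refine ⟨θ₁, θ₂, a, b, hne, δ'⁻¹, l0, l1, inv_ne_zero hδ, fun i => ?_⟩
        change δ'⁻¹ * (x i - l0 - l1 * T i) = (T i - θ₁) * (T i - θ₂) / (Y i + a + b * T i)
        rw [eq_div_iff (hne i)]
        have h3 := rel' i
        rw [hθ (T i)] at h3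
        have h4 : (T i - θ₁) * (T i - θ₂) =
            δ'⁻¹ * (δ' * ((T i - θ₁) * (T i - θ₂))) := by
          rw [inv_mul_cancel_left₀ hδ]
        rw [h4, h3]
        ring

end Pool.Agent.MP5769ea
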