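import Pool.Agent.Lib.MP_5769ea_ag.Spec2
import Pool.Agent.Lib.MP_5769ea_ag.Small4

/-!
# MP_5769ea_ag, `Small2`: the type `κ = 1, c = 1` with one `γ_i = 1` and one `γ_j = -1`
-/

set_option autoImplicit false

open MvPolynomial

namespace Pool.Agent.MP5769ea

namespace Small2Aux

lemma coeff_zero_one {K : Type} [Field K] (a b c d e : K) :
    coeff (Finsupp.single 0 1) (C a + C b * X 0 + C c * X 1 + C d * X 0 ^ 2 + C e * (X 0 * X 1) :
      MvPolynomial (Fin 2) K) = b := by
  have h1 : (0 : Fin 2 →₀ ℕ) ≠ Finsupp.single 0 1 :=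
    (Finsupp.single_ne_zero.2 one_ne_zero).symm
  simp only [coeff_add, coeff_C_mul, coeff_C, coeff_X, coeff_X_pow, coeff_X_mul', if_neg h1]
  simp [Finsupp.single_eq_single_iff]

lemma coeff_one_one {K : Type} [Field K] (a b c d e : K) :
    coeff (Finsupp.single 1 1) (C a + C b * X 0 + C c * X 1 + C d * X 0 ^ 2 + C e * (X 0 * X 1) :
      MvPolynomial (Fin 2) K) = c := by
  have h1 : (0 : Fin 2 →₀ ℕ) ≠ Finsupp.single 1 1 :=
    (Finsupp.single_ne_zero.2 one_ne_zero).symm
  simp only [coeff_add, coeff_C_mul, coeff_C, coeff_X, coeff_X_pow, coeff_X_mul', if_neg h1]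
  simp [Finsupp.single_eq_single_iff]

/-- the linear conditions of a singular point -/
lemma lin_of_ord {K : Type} [Field K] {q : Fin 2 → K} {g : ℤ} (hg : 2 ≤ g) (a b c d e : K)
    (hF : (C a + C b * X 0 + C c * X 1 + C d * X 0 ^ 2 + C e * (X 0 * X 1) :
      MvPolynomial (Fin 2) K) ∈ OrdGE q g) :
    b + 2 * d * q 0 + e * q 1 = 0 ∧ c + e * q 0 = 0 := by
  unfold OrdGE at hF
  rw [Submodule.mem_comap, mem_restrictSupport_iff] at hF
  have hS : (shift q) (C a + C b * X 0 + C c * X 1 + C d * X 0 ^ 2 + C e * (X 0 * X 1) :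
      MvPolynomial (Fin 2) K) =
      C (a + b * q 0 + c * q 1 + d * q 0 ^ 2 + e * (q 0 * q 1)) +
        C (b + 2 * d * q 0 + e * q 1) * X 0 + C (c + e * q 0) * X 1 + C d * X 0 ^ 2 +
        C e * (X 0 * X 1) := by
    simp only [shift, map_add, map_mul, map_pow, aeval_X, algHom_C, algebraMap_eq, map_ofNat]
    ring
  have hcoef : ∀ i : Fin 2, coeff (Finsupp.single i 1) (shift q
      (C a + C b * X 0 + C c * X 1 + C d * X 0 ^ 2 + C e * (X 0 * X 1) :
        MvPolynomial (Fin 2) K)) = 0 := by
    intro i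
    by_contra hne
    have := hF (MvPolynomial.mem_support_iff.2 hne)
    simp only [Set.mem_ofPred_eq] at this
    have h2 : (Finsupp.single i 1 : Fin 2 →₀ ℕ) 0 + (Finsupp.single i 1 : Fin 2 →₀ ℕ) 1 = 1 := by
      fin_cases i <;> simp
    rw [h2] at this
    push_cast at this
    omega
  constructor
  · have h := hcoef 0
    rwa [hS, coeff_zero_one] at h
  · have h := hcoef 1
    rwa [hS, coeff_one_one] at h

end Small2Aux

open Small4Aux Small2Aux in
theorem Small2 (hG : S_GenPos) : S_Small2 := by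
  intro t y hg K _ _ x γ P R hp ⟨i, j, hij, hγi, hγj, hγk⟩
  obtain ⟨hT, -, -⟩ := hG t y hg K
  obtain ⟨r0, r1, r2, hR⟩ := PD11 hp.hR
  obtain ⟨α, β, κ, δ, ε, hP⟩ := PD21 (show P ∈ PD K 2 1 from by
    have := hp.hP; norm_num at this; exact this)
  set T : Fin 12 → K := fun k => algebraMap ℂ K (t k) with hTdef
  set Y : Fin 12 → K := fun k => algebraMap ℂ K (y k) with hYdef
  have inj : Function.Injective (algebraMap ℂ K) := (algebraMap ℂ K).injective
  have hTne : ∀ i j, i ≠ j → T i - T j ≠ 0 := fun i j hij h =>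
    hT i j hij (inj (sub_eq_zero.1 h))
  -- the fundamental relations
  have rel : ∀ k, k ≠ j → α + β * T k + κ * Y k + δ * T k ^ 2 + ε * (T k * Y k) =
      x k * (r0 + r1 * T k + r2 * Y k) := by
    intro k hk
    have h0 : 0 ≤ γ k := by
      by_cases hki : k = i
      · rw [hki, hγi]; norm_num
      · rw [hγk k hki hk]
    have h1 := eval_of_ord (by omega) (hp.hPo k)
    rw [hP, hR] at h1
    simp [pt, up] at h1
    linear_combination h1
  have relR : r0 + r1 * T i + r2 * Y i = 0 := by
    have h1 := eval_of_ord (by rw [hγi]) (hp.hRo i)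
    rw [hR] at h1
    simp [pt, up] at h1
    linear_combination h1
  have rel2 : β - x i * r1 + 2 * δ * T i + ε * Y i = 0 ∧ κ - x i * r2 + ε * T i = 0 := by
    have h1 := hp.hPo i
    have h2 : P - C (x i) * R = C (α - x i * r0) + C (β - x i * r1) * X 0 +
        C (κ - x i * r2) * X 1 + C δ * X 0 ^ 2 + C ε * (X 0 * X 1) := by
      rw [hP, hR]
      simp only [map_sub, map_mul]
      ring
    rw [h2] at h1
    have h3 := lin_of_ord (by rw [hγi]; norm_num) _ _ _ _ _ h1
    simpa [pt, up] using h3
  obtain ⟨e1, e2⟩ := rel2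
  have e0 := rel i hij
  rw [relR, mul_zero] at e0
  have hPi : P = C (x i) * R + (X 0 - C (T i)) * (C δ * (X 0 - C (T i)) +
      C ε * (X 1 - C (Y i))) := by
    have a1 : α = x i * r0 + δ * T i ^ 2 + ε * (T i * Y i) := by
      linear_combination e0 - x i * relR - T i * e1 - Y i * e2
    have a2 : β = x i * r1 - 2 * δ * T i - ε * Y i := by linear_combination e1
    have a3 : κ = x i * r2 - ε * T i := by linear_combination e2
    rw [hP, hR, a1, a2, a3]
    simp only [map_sub, map_mul, map_add, map_pow, map_ofNat]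
    ring
  have hRi : R = C r1 * (X 0 - C (T i)) + C r2 * (X 1 - C (Y i)) := by
    have a1 : r0 = - r1 * T i - r2 * Y i := by linear_combination relR
    rw [hR, a1]
    simp only [map_sub, map_mul, map_neg]
    ring
  by_cases h2 : r2 = 0
  · exfalso
    have hu : IsUnit (X 0 - C (T i) : MvPolynomial (Fin 2) K) := by
      apply hp.rel
      · rw [hPi, hRi, h2]
        simp only [map_zero, zero_mul, add_zero]
        exact Dvd.dvd.add (Dvd.intro_left (C (x i) * C r1) (by ring)) (dvd_mul_right _ _)
      · rw [hRi, h2]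
        simp only [map_zero, zero_mul, add_zero]
        exact dvd_mul_left _ _
    have := hu.map (eval (fun m => if m = 0 then T i else 0))
    simp at this
  obtain ⟨ρ, hρ⟩ : ∃ ρ : K, r1 = r2 * ρ := ⟨r1 / r2, by field_simp⟩
  obtain ⟨η, hη⟩ : ∃ η : K, ε = r2 * η := ⟨ε / r2, by field_simp⟩
  obtain ⟨α', hα'⟩ : ∃ α' : K, α' = δ - ε * ρ := ⟨_, rfl⟩
  have hP2 : P = (C (x i) + C η * (X 0 - C (T i))) * R + C α' * (X 0 - C (T i)) ^ 2 := by
    rw [hPi, hRi, hα', hη, hρ]
    simp only [map_sub, map_mul]
    ring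
  have hα0 : α' ≠ 0 := by
    intro h0
    have hd : R ∣ P := by
      rw [hP2, h0]
      simp only [map_zero, zero_mul, add_zero]
      exact dvd_mul_left _ _
    have hu : IsUnit R := hp.rel hd dvd_rfl
    have h3 := hu.map (eval (fun m => if m = 0 then T i else Y i))
    rw [hRi] at h3
    simp at h3
  -- the values
  have relk : ∀ k, k ≠ j → α' * (T k - T i) ^ 2 =
      (x k - (x i - η * T i) - η * T k) * (r2 * (ρ * (T k - T i) + (Y k - Y i))) := by
    intro k hk
    have h3 := rel k hk
    have a1 : α = x i * r0 + δ * T i ^ 2 + ε * (T i * Y i) := by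
      linear_combination e0 - x i * relR - T i * e1 - Y i * e2
    have a2 : β = x i * r1 - 2 * δ * T i - ε * Y i := by linear_combination e1
    have a3 : κ = x i * r2 - ε * T i := by linear_combination e2
    have a4 : r0 = - r1 * T i - r2 * Y i := by linear_combination relR
    rw [a1, a2, a3, a4, hρ, hη] at h3
    rw [hα', hη]
    linear_combination h3
  have hl : r2 / α' ≠ 0 := div_ne_zero h2 hα0
  have g0 : ρ ∈ IntermediateField.adjoin ℂ (Set.range
      ![ρ, r2 / α' * (x j - (x i - η * T i) - η * algebraMap ℂ K (t j)), 0]) :=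
    IntermediateField.subset_adjoin _ _ ⟨0, rfl⟩
  have g1 : r2 / α' * (x j - (x i - η * T i) - η * algebraMap ℂ K (t j)) ∈
      IntermediateField.adjoin ℂ (Set.range
      ![ρ, r2 / α' * (x j - (x i - η * T i) - η * algebraMap ℂ K (t j)), 0]) :=
    IntermediateField.subset_adjoin _ _ ⟨1, rfl⟩
  have Tm : ∀ (L : IntermediateField ℂ K) k, T k ∈ L := fun L k => L.algebraMap_mem _
  have Ym : ∀ (L : IntermediateField ℂ K) k, Y k ∈ L := fun L k => L.algebraMap_mem _
  refine fin_small t x ![ρ, r2 / α' * (x j - (x i - η * T i) - η * algebraMap ℂ K (t j)), 0]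
    (r2 / α') (x i - η * T i) η hl
    (fun k => if k = j then 0 else α' / r2 * (T k - T i) ^ 2)
    (fun k => if k = j then 0 else ρ * (T k - T i) + (Y k - Y i)) ?_ ?_ ?_ ?_
  · intro k
    by_cases hk : k = j
    · simp only [hk, if_true, mul_zero]
      exact zero_mem _
    · simp only [hk, if_false]
      have h3 : r2 / α' * (α' / r2 * (T k - T i) ^ 2) = (T k - T i) ^ 2 := by field_simp
      rw [h3]
      exact pow_mem (sub_mem (Tm _ k) (Tm _ i)) 2
  · intro k
    by_cases hk : k = j
    · simp only [hk, if_true]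
      exact zero_mem _
    · simp only [hk, if_false]
      exact add_mem (mul_mem g0 (sub_mem (Tm _ k) (Tm _ i))) (sub_mem (Ym _ k) (Ym _ i))
  · intro k
    by_cases hk : k = j
    · simp only [hk, if_true, mul_zero]
    · simp only [hk, if_false]
      have h3 := relk k hk
      have h4 : algebraMap ℂ K (t k) = T k := rfl
      rw [h4, div_mul_eq_mul_div, div_eq_iff h2, h3]
      ring
  · intro k
    by_cases hk : k = j
    · intro _
      rw [hk]
      exact g1
    · simp only [hk, if_false]
      intro h0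
      have h3 := relk k hk
      rw [h0, mul_zero, mul_zero] at h3
      have h4 : (T k - T i) ^ 2 = 0 := by
        rcases mul_eq_zero.1 h3 with h5 | h5
        · exact absurd h5 hα0
        · exact h5
      have h5 : k = i := by
        by_contra hne
        exact hTne k i hne (pow_eq_zero_iff two_ne_zero |>.1 h4)
      rw [h5]
      have h6 : x i - (x i - η * T i) - η * algebraMap ℂ K (t i) = 0 := by
        show x i - (x i - η * T i) - η * T i = 0
        ring
      rw [h6, mul_zero]
      exact zero_mem _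

end Pool.Agent.MP5769ea
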