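import Pool.Agent.Lib.MP_5769ea_ag.Small4

/-!
# MP_5769ea_ag, `Small3`: the type `κ = 1, c = 2`
-/

open MvPolynomial

namespace Pool.Agent.MP5769ea

namespace Small3Aux

lemma PD31 {K : Type} [Field K] {F : MvPolynomial (Fin 2) K} (hF : F ∈ PD K 3 1) :
    ∃ p0 p1 p2 p3 q0 q1 q2 : K, F = C p0 + C p1 * X 0 + C p2 * X 0 ^ 2 + C p3 * X 0 ^ 3 +
      C q0 * X 1 + C q1 * (X 0 * X 1) + C q2 * (X 0 ^ 2 * X 1) := by
  unfold PD at hF
  rw [restrictSupport_eq_span] at hF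
  induction hF using Submodule.span_induction with
  | mem z hz =>
    obtain ⟨s, ⟨h1, h2⟩, rfl⟩ := hz
    have hs : (monomial s (1 : K)) = X 0 ^ s 0 * X 1 ^ s 1 := by
      rw [monomial_eq, Finsupp.prod_fintype _ _ (by simp)]
      simp [Fin.prod_univ_two]
    simp only [hs]
    have c1 : s 0 + s 1 ≤ 3 := by exact_mod_cast h1
    have c2 : s 1 ≤ 1 := by exact_mod_cast h2
    have : (s 0 = 0 ∧ s 1 = 0) ∨ (s 0 = 1 ∧ s 1 = 0) ∨ (s 0 = 2 ∧ s 1 = 0) ∨
      (s 0 = 3 ∧ s 1 = 0) ∨ (s 0 = 0 ∧ s 1 = 1) ∨ (s 0 = 1 ∧ s 1 = 1) ∨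
      (s 0 = 2 ∧ s 1 = 1) := by omega
    rcases this with ⟨e1, e2⟩ | ⟨e1, e2⟩ | ⟨e1, e2⟩ | ⟨e1, e2⟩ | ⟨e1, e2⟩ | ⟨e1, e2⟩ | ⟨e1, e2⟩
    · exact ⟨1, 0, 0, 0, 0, 0, 0, by simp [e1, e2]⟩
    · exact ⟨0, 1, 0, 0, 0, 0, 0, by simp [e1, e2]⟩
    · exact ⟨0, 0, 1, 0, 0, 0, 0, by simp [e1, e2]⟩
    · exact ⟨0, 0, 0, 1, 0, 0, 0, by simp [e1, e2]⟩
    · exact ⟨0, 0, 0, 0, 1, 0, 0, by simp [e1, e2]⟩
    · exact ⟨0, 0, 0, 0, 0, 1, 0, by simp [e1, e2]⟩
    · exact ⟨0, 0, 0, 0, 0, 0, 1, by simp [e1, e2]⟩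
  | zero => exact ⟨0, 0, 0, 0, 0, 0, 0, by simp⟩
  | add p q _ _ hp hq =>
    obtain ⟨a, b, c, d, e, f, g, rfl⟩ := hp
    obtain ⟨a', b', c', d', e', f', g', rfl⟩ := hq
    exact ⟨a + a', b + b', c + c', d + d', e + e', f + f', g + g', by
      simp only [map_add]; ring⟩
  | smul r p _ hp =>
    obtain ⟨a, b, c, d, e, f, g, rfl⟩ := hp
    exact ⟨r * a, r * b, r * c, r * d, r * e, r * f, r * g, by
      simp only [smul_eq_C_mul, map_mul]; ring⟩

theorem sum_aeval {K : Type} [Field K] {A : Type} [CommRing A] [Algebra K A] (x : Fin 2 → A)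
    (F : MvPolynomial (Fin 2) K) :
    aeval x F = ∑ d ∈ F.support, algebraMap K A (coeff d F) * (x 0 ^ d 0 * x 1 ^ d 1) := by
  rw [aeval_def, eval₂_eq']
  simp [Fin.prod_univ_two]

open TrivSqZeroExt in
/-- a polynomial of order `≥ 2` at `q` vanishes at `q + ε w` -/
theorem aeval_ord2 {K : Type} [Field K] {q : Fin 2 → K} {F : MvPolynomial (Fin 2) K}
    (hF : F ∈ OrdGE q 2) (w : Fin 2 → K) :
    aeval (fun i => (inl (q i) + inr (w i) : TrivSqZeroExt K K)) F = 0 := by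
  have h1 : aeval (fun i => (inl (q i) + inr (w i) : TrivSqZeroExt K K)) F =
      aeval (fun i => (inr (w i) : TrivSqZeroExt K K)) (shift q F) := by
    unfold shift
    rw [← AlgHom.comp_apply]
    congr 1
    apply MvPolynomial.algHom_ext
    intro i
    simp only [aeval_X, AlgHom.comp_apply, map_add]
    rw [add_comm]
    congr 1
    rw [← MvPolynomial.algebraMap_eq, AlgHom.commutes]
    rfl
  rw [h1, sum_aeval]
  apply Finset.sum_eq_zero
  intro d hd
  have h2 : shift q F ∈ restrictSupport K {s : Fin 2 →₀ ℕ | (2 : ℤ) ≤ ((s 0 + s 1 : ℕ) : ℤ)} := hF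
  rw [mem_restrictSupport_iff] at h2
  have h3 : (2 : ℤ) ≤ ((d 0 + d 1 : ℕ) : ℤ) := h2 hd
  have h4 : 2 ≤ d 0 + d 1 := by exact_mod_cast h3
  have h5 : ∀ (w : K) (n : ℕ), 2 ≤ n → (inr w : TrivSqZeroExt K K) ^ n = 0 := by
    intro w n hn
    obtain ⟨k, rfl⟩ := Nat.exists_eq_add_of_le hn
    rw [pow_add, pow_two, TrivSqZeroExt.inr_mul_inr, zero_mul]
  have h6 : (inr (w 0) : TrivSqZeroExt K K) ^ d 0 * inr (w 1) ^ d 1 = 0 := by
    by_cases h0 : 2 ≤ d 0
    · rw [h5 _ _ h0, zero_mul]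
    · by_cases h1 : 2 ≤ d 1
      · rw [h5 _ _ h1, mul_zero]
      · have e0 : d 0 = 1 := by omega
        have e1 : d 1 = 1 := by omega
        rw [e0, e1, pow_one, pow_one, TrivSqZeroExt.inr_mul_inr]
  rw [h6, mul_zero]

/-- the three conditions of order `≥ 2` for `P - x R` at a point where `R` vanishes -/
lemma conds {K : Type} [Field K] {T Y x p0 p1 p2 p3 q0 q1 q2 r0 r1 s0 r2 s1 : K}
    (h : (C p0 + C p1 * X 0 + C p2 * X 0 ^ 2 + C p3 * X 0 ^ 3 +
      C q0 * X 1 + C q1 * (X 0 * X 1) + C q2 * (X 0 ^ 2 * X 1) : MvPolynomial (Fin 2) K) -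
      C x * (C r0 + C r1 * X 0 + C s0 * X 1 + C r2 * X 0 ^ 2 + C s1 * (X 0 * X 1)) ∈
        OrdGE (![T, Y] : Fin 2 → K) 2) :
    (p0 + p1 * T + p2 * T ^ 2 + p3 * T ^ 3 + q0 * Y + q1 * (T * Y) + q2 * (T ^ 2 * Y)
      = x * (r0 + r1 * T + s0 * Y + r2 * T ^ 2 + s1 * (T * Y))) ∧
    (p1 + 2 * p2 * T + 3 * p3 * T ^ 2 + q1 * Y + 2 * q2 * T * Y =
      x * (r1 + 2 * r2 * T + s1 * Y)) ∧
    (q0 + q1 * T + q2 * T ^ 2 = x * (s0 + s1 * T)) := by
  have k0 := aeval_ord2 h ![1, 0]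
  have k1 := aeval_ord2 h ![0, 1]
  have a1 := congrArg TrivSqZeroExt.fst k0
  have a2 := congrArg TrivSqZeroExt.snd k0
  have a3 := congrArg TrivSqZeroExt.snd k1
  simp [TrivSqZeroExt.algebraMap_eq_inl, TrivSqZeroExt.snd_pow, TrivSqZeroExt.fst_pow,
        TrivSqZeroExt.snd_mul, TrivSqZeroExt.fst_mul, ← MvPolynomial.algebraMap_eq] at a1 a2 a3
  refine ⟨by linear_combination a1, by linear_combination a2, by linear_combination a3⟩

/-- the polynomial `P'` singular at two points is `q2 (t - T) (t - U) (y - L(t))` -/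
lemma hermite {K : Type} [Field K] {T Y U Z p0 p1 p2 p3 q0 q1 q2 : K} (hD : U - T ≠ 0)
    (a1 : p0 + p1 * T + p2 * T ^ 2 + p3 * T ^ 3 + q0 * Y + q1 * (T * Y) + q2 * (T ^ 2 * Y) = 0)
    (a2 : p1 + 2 * p2 * T + 3 * p3 * T ^ 2 + q1 * Y + 2 * q2 * T * Y = 0)
    (a3 : q0 + q1 * T + q2 * T ^ 2 = 0)
    (b1 : p0 + p1 * U + p2 * U ^ 2 + p3 * U ^ 3 + q0 * Z + q1 * (U * Z) + q2 * (U ^ 2 * Z) = 0)
    (b2 : p1 + 2 * p2 * U + 3 * p3 * U ^ 2 + q1 * Z + 2 * q2 * U * Z = 0)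
    (b3 : q0 + q1 * U + q2 * U ^ 2 = 0) :
    q1 = -q2 * (T + U) ∧ q0 = q2 * T * U ∧ p3 * (U - T) = q2 * (Y - Z) ∧
    p2 = -q2 * Y - p3 * (U + 2 * T) ∧ p1 = -p2 * (U + T) - p3 * (U ^ 2 + U * T + T ^ 2) ∧
    p0 = -p1 * T - p2 * T ^ 2 - p3 * T ^ 3 := by
  have h1 : q1 = -q2 * (T + U) := by
    apply mul_left_cancel₀ hD
    linear_combination b3 - a3
  have h0 : q0 = q2 * T * U := by
    rw [h1] at a3
    linear_combination a3
  subst h1
  subst h0
  have e3 : p3 * (U - T) = q2 * (Y - Z) := by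
    apply mul_left_cancel₀ (pow_ne_zero 2 hD)
    linear_combination (U - T) * a2 + (U - T) * b2 - 2 * b1 + 2 * a1
  have e1 : p1 = -p2 * (U + T) - p3 * (U ^ 2 + U * T + T ^ 2) := by
    apply mul_left_cancel₀ hD
    linear_combination b1 - a1
  have e2 : p2 = -q2 * Y - p3 * (U + 2 * T) := by
    apply mul_left_cancel₀ hD
    rw [e1] at a2
    linear_combination -a2
  refine ⟨rfl, rfl, e3, e2, e1, ?_⟩
  linear_combination a1

lemma ex3 : ∀ i j : Fin 12, ∃ k, k ≠ i ∧ k ≠ j := by decide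

end Small3Aux

open Small3Aux Small4Aux in
theorem Small3 (hG : S_GenPos) : S_Small3 := by
  intro t y hgen K _ _ x γ P R hPT hγ
  obtain ⟨i, j, hij, hγi, hγj, hγk⟩ := hγ
  obtain ⟨htt, hcol, -⟩ := hG t y hgen K
  obtain ⟨p0, p1, p2, p3, q0, q1, q2, hP⟩ := PD31 (F := P) (by
    have := hPT.hP
    norm_num at this
    exact this)
  obtain ⟨r0, r1, s0, r2, s1, hR⟩ := PD21 hPT.hR
  set T : Fin 12 → K := fun k => algebraMap ℂ K (t k) with hT
  set Y : Fin 12 → K := fun k => algebraMap ℂ K (y k) with hY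
  have hpt : ∀ k, pt (up t) (up y) k = (![T k, Y k] : Fin 2 → K) := fun k => rfl
  have hinj := (algebraMap ℂ K).injective
  have hD : T j - T i ≠ 0 := by
    rw [hT]
    intro h
    exact htt i j hij (hinj (sub_eq_zero.1 h)).symm
  -- values of `P` and `R`
  have evP : ∀ k, eval (![T k, Y k] : Fin 2 → K) P = p0 + p1 * T k + p2 * T k ^ 2 +
      p3 * T k ^ 3 + q0 * Y k + q1 * (T k * Y k) + q2 * (T k ^ 2 * Y k) := by
    intro k
    rw [hP]
    simp
  have evR : ∀ k, eval (![T k, Y k] : Fin 2 → K) R = r0 + r1 * T k + s0 * Y k + r2 * T k ^ 2 +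
      s1 * (T k * Y k) := by
    intro k
    rw [hR]
    simp
  have hRi : r0 + r1 * T i + s0 * Y i + r2 * T i ^ 2 + s1 * (T i * Y i) = 0 := by
    rw [← evR, ← hpt]
    exact eval_of_ord (by rw [hγi]) (hPT.hRo i)
  have hRj : r0 + r1 * T j + s0 * Y j + r2 * T j ^ 2 + s1 * (T j * Y j) = 0 := by
    rw [← evR, ← hpt]
    exact eval_of_ord (by rw [hγj]) (hPT.hRo j)
  have hci := hPT.hPo i
  have hcj := hPT.hPo j
  rw [hγi, hpt, hP, hR] at hci
  rw [hγj, hpt, hP, hR] at hcj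
  obtain ⟨a1, a2, a3⟩ := conds hci
  obtain ⟨b1, b2, b3⟩ := conds hcj
  have hval : ∀ k, eval (![T k, Y k] : Fin 2 → K) P = x k * eval (![T k, Y k] : Fin 2 → K) R := by
    intro k
    have h1 : eval (pt (up t) (up y) k) (P - C (x k) * R) = 0 := by
      refine eval_of_ord ?_ (hPT.hPo k)
      by_cases hki : k = i
      · rw [hki, hγi]; norm_num
      · by_cases hkj : k = j
        · rw [hkj, hγj]; norm_num
        · rw [hγk k hki hkj]; norm_num
    rw [hpt, map_sub, map_mul, eval_C] at h1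
    exact sub_eq_zero.1 h1
  obtain ⟨l1, hl1⟩ : ∃ l1 : K, l1 * (T j - T i) = x j - x i := ⟨(x j - x i) / (T j - T i), by
    field_simp⟩
  obtain ⟨l0, hl0⟩ : ∃ l0 : K, l0 = x i - l1 * T i := ⟨_, rfl⟩
  have hl0' : l0 + l1 * T j = x j := by
    rw [hl0]; linear_combination hl1
  have hH := hermite (T := T i) (Y := Y i) (U := T j) (Z := Y j) (p0 := p0 - l0 * r0)
    (p1 := p1 - l0 * r1 - l1 * r0) (p2 := p2 - l0 * r2 - l1 * r1) (p3 := p3 - l1 * r2)
    (q0 := q0 - l0 * s0) (q1 := q1 - l0 * s1 - l1 * s0) (q2 := q2 - l1 * s1) hD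
    (by rw [hl0]; linear_combination a1)
    (by rw [hl0]; linear_combination a2 - l1 * hRi)
    (by rw [hl0]; linear_combination a3)
    (by rw [← hl0'] at b1; linear_combination b1)
    (by rw [← hl0'] at b2; linear_combination b2 - l1 * hRj)
    (by rw [← hl0'] at b3; linear_combination b3)
  obtain ⟨e1, e0, f3, f2, f1, f0⟩ := hH
  obtain ⟨σ, hσ⟩ : ∃ σ : K, σ = q2 - l1 * s1 := ⟨_, rfl⟩
  rw [← hσ] at e1 e0 f3 f2
  -- `σ` is not zero
  have hσ0 : σ ≠ 0 := by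
    intro hz
    rw [hz] at e1 e0 f3 f2
    have g3 : p3 - l1 * r2 = 0 := by
      have h : (p3 - l1 * r2) * (T j - T i) = 0 := by rw [f3]; ring
      exact (mul_eq_zero.1 h).resolve_right hD
    rw [g3] at f2 f1 f0
    have g2 : p2 - l0 * r2 - l1 * r1 = 0 := by rw [f2]; ring
    rw [g2] at f1 f0
    have g1 : p1 - l0 * r1 - l1 * r0 = 0 := by rw [f1]; ring
    rw [g1] at f0
    have g0 : p0 - l0 * r0 = 0 := by rw [f0]; ring
    have hPR : P = (C l0 + C l1 * X 0) * R := by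
      have c0 : p0 = l0 * r0 := by linear_combination g0
      have c1 : p1 = l0 * r1 + l1 * r0 := by linear_combination g1
      have c2 : p2 = l0 * r2 + l1 * r1 := by linear_combination g2
      have c3 : p3 = l1 * r2 := by linear_combination g3
      have d0 : q0 = l0 * s0 := by linear_combination e0
      have d1 : q1 = l0 * s1 + l1 * s0 := by linear_combination e1
      have d2 : q2 = l1 * s1 := by rw [hz] at hσ; linear_combination -hσ
      rw [hP, hR, c0, c1, c2, c3, d0, d1, d2]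
      simp only [map_add, map_mul]
      ring
    have hu : IsUnit R := hPT.rel ⟨C l0 + C l1 * X 0, by rw [hPR]; ring⟩ (dvd_refl R)
    have hu2 := hu.map (eval (![T i, Y i] : Fin 2 → K))
    rw [evR, hRi] at hu2
    exact not_isUnit_zero hu2
  -- the constants
  set e1' : Fin 12 → ℂ := fun k => (t j - t i) * ((t k - t i) * (t k - t j)) with he1'
  set e2' : Fin 12 → ℂ := fun k => (t j - t i) * (y k - y i) - (t k - t i) * (y j - y i) with he2'
  set e3' : Fin 12 → ℂ := fun k => (t j - t i) * (t k * y k) - t i * y i * (t j - t k) -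
    t j * y j * (t k - t i) with he3'
  have hden : ∀ k, (T j - T i) * eval (![T k, Y k] : Fin 2 → K) R =
      r2 * algebraMap ℂ K (e1' k) + s0 * algebraMap ℂ K (e2' k) + s1 * algebraMap ℂ K (e3' k) := by
    intro k
    rw [evR, he1', he2', he3']
    simp only [map_sub, map_mul]
    change _ = r2 * ((T j - T i) * ((T k - T i) * (T k - T j))) +
      s0 * ((T j - T i) * (Y k - Y i) - (T k - T i) * (Y j - Y i)) +
      s1 * ((T j - T i) * (T k * Y k) - T i * Y i * (T j - T k) - T j * Y j * (T k - T i))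
    linear_combination (T j - T k) * hRi + (T k - T i) * hRj
  have hnum : ∀ k, (x k - l0 - l1 * T k) * ((T j - T i) * eval (![T k, Y k] : Fin 2 → K) R) =
      σ * algebraMap ℂ K ((t k - t i) * (t k - t j) * e2' k) := by
    intro k
    have h1 := hval k
    rw [he2']
    simp only [map_sub, map_mul]
    change _ = σ * ((T k - T i) * (T k - T j) *
      ((T j - T i) * (Y k - Y i) - (T k - T i) * (Y j - Y i)))
    have h2 : (x k - l0 - l1 * T k) * ((T j - T i) * eval (![T k, Y k] : Fin 2 → K) R) =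
        (T j - T i) * (eval (![T k, Y k] : Fin 2 → K) P -
          (l0 + l1 * T k) * eval (![T k, Y k] : Fin 2 → K) R) := by
      rw [h1]; ring
    rw [h2, evP, evR]
    have c3 : p3 = (p3 - l1 * r2) + l1 * r2 := by ring
    have c2 : p2 = (p2 - l0 * r2 - l1 * r1) + l0 * r2 + l1 * r1 := by ring
    have c1 : p1 = (p1 - l0 * r1 - l1 * r0) + l0 * r1 + l1 * r0 := by ring
    have c0 : p0 = (p0 - l0 * r0) + l0 * r0 := by ring
    have d0 : q0 = (q0 - l0 * s0) + l0 * s0 := by ring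
    have d1 : q1 = (q1 - l0 * s1 - l1 * s0) + l0 * s1 + l1 * s0 := by ring
    have d2 : q2 = σ + l1 * s1 := by rw [hσ]; ring
    generalize p3 - l1 * r2 = P3 at *
    generalize p2 - l0 * r2 - l1 * r1 = P2 at *
    generalize p1 - l0 * r1 - l1 * r0 = P1 at *
    generalize p0 - l0 * r0 = P0 at *
    generalize q0 - l0 * s0 = Q0 at *
    generalize q1 - l0 * s1 - l1 * s0 = Q1 at *
    rw [c3, c2, c1, c0, d0, d1, d2, f0, f1, f2, e0, e1]
    linear_combination (T k - T i) ^ 2 * (T k - T j) * f3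
  have hne : ∀ k, k ≠ i → k ≠ j → (t k - t i) * (t k - t j) * e2' k ≠ 0 := by
    intro k hki hkj
    refine mul_ne_zero (mul_ne_zero ?_ ?_) (hcol i j k hij hki.symm hkj.symm)
    · exact sub_ne_zero.2 (htt k i hki)
    · exact sub_ne_zero.2 (htt k j hkj)
  have hnz : ¬ (r2 = 0 ∧ s0 = 0 ∧ s1 = 0) := by
    rintro ⟨z1, z2, z3⟩
    obtain ⟨k, hki, hkj⟩ := ex3 i j
    have h1 := hden k
    rw [z1, z2, z3, zero_mul, zero_mul, zero_mul, add_zero, add_zero] at h1
    have h2 := hnum k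
    rw [h1, mul_zero] at h2
    have h3 := (mul_eq_zero.1 h2.symm).resolve_left hσ0
    rw [map_eq_zero] at h3
    exact hne k hki hkj h3
  obtain ⟨lam, g, g', hlam, hL⟩ := scale3 (K := K) r2 s0 s1 hnz
  set S : Fin 3 → K := ![g, g', 0] with hS
  have hg : g ∈ IntermediateField.adjoin ℂ (Set.range S) :=
    IntermediateField.subset_adjoin _ _ ⟨0, rfl⟩
  have hg' : g' ∈ IntermediateField.adjoin ℂ (Set.range S) :=
    IntermediateField.subset_adjoin _ _ ⟨1, rfl⟩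
  obtain ⟨m1, m2, m3⟩ := hL _ hg hg'
  have hC : ∀ z : ℂ, algebraMap ℂ K z ∈ IntermediateField.adjoin ℂ (Set.range S) :=
    fun z => IntermediateField.algebraMap_mem _ z
  refine fin_small t x S (lam * σ)⁻¹ l0 l1 (inv_ne_zero (mul_ne_zero hlam hσ0))
    (fun k => lam * (σ * algebraMap ℂ K ((t k - t i) * (t k - t j) * e2' k)))
    (fun k => lam * ((T j - T i) * eval (![T k, Y k] : Fin 2 → K) R)) ?_ ?_ ?_ ?_
  · intro k
    have h : (lam * σ)⁻¹ * (lam * (σ * algebraMap ℂ K ((t k - t i) * (t k - t j) * e2' k))) =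
        algebraMap ℂ K ((t k - t i) * (t k - t j) * e2' k) := by
      field_simp
    show (lam * σ)⁻¹ * (lam * (σ * algebraMap ℂ K ((t k - t i) * (t k - t j) * e2' k))) ∈ _
    rw [h]
    exact hC _
  · intro k
    show lam * ((T j - T i) * eval (![T k, Y k] : Fin 2 → K) R) ∈ _
    rw [hden]
    have h : lam * (r2 * algebraMap ℂ K (e1' k) + s0 * algebraMap ℂ K (e2' k) +
        s1 * algebraMap ℂ K (e3' k)) = lam * r2 * algebraMap ℂ K (e1' k) +
        lam * s0 * algebraMap ℂ K (e2' k) + lam * s1 * algebraMap ℂ K (e3' k) := by ring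
    rw [h]
    exact add_mem (add_mem (mul_mem m1 (hC _)) (mul_mem m2 (hC _))) (mul_mem m3 (hC _))
  · intro k
    show lam * (σ * algebraMap ℂ K ((t k - t i) * (t k - t j) * e2' k)) =
      (x k - l0 - l1 * T k) * (lam * ((T j - T i) * eval (![T k, Y k] : Fin 2 → K) R))
    rw [← hnum k]
    ring
  · intro k hk
    have hk' : lam * ((T j - T i) * eval (![T k, Y k] : Fin 2 → K) R) = 0 := hk
    have hk2 := (mul_eq_zero.1 hk').resolve_left hlam
    have h2 := hnum k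
    rw [hk2, mul_zero] at h2
    have h3 := (mul_eq_zero.1 h2.symm).resolve_left hσ0
    rw [map_eq_zero] at h3
    have hxk : x k - l0 - l1 * T k = 0 := by
      by_cases hki : k = i
      · rw [hki, hl0]; ring
      · by_cases hkj : k = j
        · rw [hkj]; linear_combination -hl0'
        · exact absurd h3 (hne k hki hkj)
    show (lam * σ)⁻¹ * (x k - l0 - l1 * T k) ∈ _
    rw [hxk, mul_zero]
    exact zero_mem _

end Pool.Agent.MP5769ea
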