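import Pool.Agent.Lib.MP_5769ea_ag.Spec2

/-!
# MP_5769ea_ag: a small point does not move in dimension 4
-/

set_option autoImplicit false

open MvPolynomial

namespace Pool.Agent.MP5769ea

namespace SmallNotAux

/-- algebraically independent elements which are algebraic over three elements: at most three -/
lemma card_le_three {K : Type} [Field K] [Algebra ℂ K] (a : Fin 3 → K) {ι : Type} (z : ι → K)
    (hz : AlgebraicIndependent ℂ z)
    (ha : ∀ i, IsAlgebraic (IntermediateField.adjoin ℂ (Set.range a)) (z i)) :
    ¬ (4 : Cardinal) ≤ Cardinal.mk ι := by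
  intro h4
  have hinj : Function.Injective z := hz.injective
  have hI : (AlgebraicIndependent.matroid ℂ K).Indep (Set.range z) :=
    AlgebraicIndependent.matroid_indep_iff.2 hz.to_subtype_range
  have hsub : Set.range z ⊆ (AlgebraicIndependent.matroid ℂ K).closure (Set.range a) := by
    rw [AlgebraicIndependent.matroid_closure_eq]
    rintro _ ⟨i, rfl⟩
    rw [SetLike.mem_coe, Subalgebra.mem_algebraicClosure]
    exact IntermediateField.isAlgebraic_adjoin_iff.1 (ha i)
  have h1 := hI.encard_le_eRk_of_subset hsub
  rw [Matroid.eRk_closure_eq] at h1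
  have h2 := h1.trans (Matroid.eRk_le_encard _ (Set.range a))
  have h3 : (Set.range a).encard ≤ 3 := by
    have : Set.range a = a '' Set.univ := Set.image_univ.symm
    rw [this]
    refine (Set.encard_image_le _ _).trans ?_
    rw [Set.encard_univ]
    simp
  have h5 : (Set.range z).encard ≤ 3 := h2.trans h3
  have h6 : Cardinal.mk (Set.range z) = Cardinal.mk ι := Cardinal.mk_range_eq z hinj
  rw [← h6] at h4
  have hfin : (Set.range z).Finite := Set.finite_of_encard_le_coe (k := 3) (by exact_mod_cast h5)
  have h7 : (Set.range z).ncard ≤ 3 := by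
    rw [← hfin.cast_ncard_eq] at h5
    exact_mod_cast h5
  have h8 : Cardinal.mk (Set.range z) = ((Set.range z).ncard : Cardinal) := by
    have : Finite (Set.range z) := hfin
    rw [Set.ncard_def, Set.encard, ENat.card_eq_coe_natCard, ENat.toNat_natCast,
      Nat.cast_card]
  rw [h8] at h4
  have h9 : 4 ≤ (Set.range z).ncard := by exact_mod_cast h4
  omega

end SmallNotAux

open SmallNotAux in
theorem SmallNot : S_SmallNot := by
  intro P c t y hG K K' _ _ _ _ _ _ x hsmall hdim
  obtain ⟨a, l, l0, l1, hl, halg⟩ := hsmall
  let Fa := IntermediateField.adjoin ℂ (Set.range a)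
  let L : IntermediateField ℂ K' := (algebraicClosure Fa K').restrictScalars ℂ
  have hL : ∀ z : K', z ∈ L ↔ IsAlgebraic Fa z := fun z => mem_algebraicClosure_iff
  -- the coordinates
  have hW : ∀ j, l * algebraMap K K' (piMap P c x j) ∈ L := by
    intro j
    have e1 : ∑ i : Fin 12, c i.succ * P i.succ j = 0 := by
      have h := congrFun hG.rel1 j
      simpa using h
    have e2 : ∑ i : Fin 12, (t i * c i.succ) * P i.succ j = 0 := by
      have h := congrFun hG.rel2 j
      simpa using h
    have e3 : l * algebraMap K K' (piMap P c x j) =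
        ∑ i : Fin 12, (l * (algebraMap K K' (x i) - l0 - l1 * algebraMap ℂ K' (t i))) *
          algebraMap ℂ K' (c i.succ * P i.succ j) := by
      have e4 : ∀ i : Fin 12, (l * (algebraMap K K' (x i) - l0 - l1 * algebraMap ℂ K' (t i))) *
          algebraMap ℂ K' (c i.succ * P i.succ j) =
          l * (algebraMap K K' (x i) * algebraMap ℂ K' (c i.succ * P i.succ j)) -
          (l * l0) * algebraMap ℂ K' (c i.succ * P i.succ j) -
          (l * l1) * algebraMap ℂ K' ((t i * c i.succ) * P i.succ j) := by
        intro i
        rw [map_mul, map_mul, map_mul]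
        ring
      rw [Finset.sum_congr rfl fun i _ => e4 i, Finset.sum_sub_distrib, Finset.sum_sub_distrib,
        ← Finset.mul_sum, ← Finset.mul_sum, ← Finset.mul_sum, ← map_sum, ← map_sum, e1, e2,
        map_zero, mul_zero, mul_zero, sub_zero, sub_zero]
      unfold piMap
      rw [map_sum]
      congr 1
      refine Finset.sum_congr rfl fun i _ => ?_
      rw [map_mul, ← IsScalarTower.algebraMap_apply ℂ K K']
    rw [e3]
    refine sum_mem fun i _ => mul_mem ((hL _).2 (halg i)) ?_
    exact L.algebraMap_mem _
  have hR : ∀ z ∈ ratioField ℂ (piMap P c x), algebraMap K K' z ∈ L := by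
    have h : ratioField ℂ (piMap P c x) ≤ L.comap (IsScalarTower.toAlgHom ℂ K K') := by
      unfold ratioField
      rw [IntermediateField.adjoin_le_iff]
      rintro _ ⟨j, k, hk, rfl⟩
      change algebraMap K K' (piMap P c x j / piMap P c x k) ∈ L
      have hk' : algebraMap K K' (piMap P c x k) ≠ 0 := fun h0 =>
        hk ((map_eq_zero (algebraMap K K')).1 h0)
      have e : algebraMap K K' (piMap P c x j / piMap P c x k) =
          (l * algebraMap K K' (piMap P c x j)) / (l * algebraMap K K' (piMap P c x k)) := by
        rw [map_div₀]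
        field_simp
      rw [e]
      exact div_mem (hW j) (hW k)
    exact fun z hz => h hz
  -- a transcendence basis
  obtain ⟨ι, z, hz⟩ := exists_isTranscendenceBasis' ℂ (ratioField ℂ (piMap P c x))
  let f : ratioField ℂ (piMap P c x) →ₐ[ℂ] K' :=
    (IsScalarTower.toAlgHom ℂ K K').comp (ratioField ℂ (piMap P c x)).val
  have hf : Function.Injective f := f.toRingHom.injective
  refine card_le_three a (f ∘ z) (hz.1.map' hf) (fun i => ?_) ?_
  · exact (hL _).1 (hR _ (z i).2)
  · unfold DimGE at hdim
    rw [hz.cardinalMk_eq_trdeg]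
    exact_mod_cast hdim

end Pool.Agent.MP5769ea
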