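import Pool.Agent.Lib.MP_5769ea_ag.Spec4
import Pool.Agent.Lib.MP_5769ea_ag.Spec1

/-!
# MP_5769ea_ag: `S_Strict`
-/

open MvPolynomial

namespace Pool.Agent.MP5769ea

namespace StrictAux

/-- the square-free factor of the product of the linear factors divides -/
theorem prod_dvd {K : Type} [Field K] (s : Fin 12 → K) (hs : Function.Injective s) (g : ℕ)
    (p : Polynomial K) (h : ∀ i, (Polynomial.X - Polynomial.C (s i)) ^ g ∣ p) :
    ∏ i, (Polynomial.X - Polynomial.C (s i)) ^ g ∣ p := by
  apply Finset.prod_dvd_of_coprime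
  · intro i _ j _ hij
    exact IsCoprime.pow (Polynomial.pairwise_coprime_X_sub_C hs hij)
  · intro i _
    exact h i

theorem prod_facts {K : Type} [Field K] (s : Fin 12 → K) (g : ℕ) :
    (∏ i, (Polynomial.X - Polynomial.C (s i)) ^ g).Monic ∧
    (∏ i, (Polynomial.X - Polynomial.C (s i)) ^ g).natDegree = 12 * g ∧
    (∏ i, (Polynomial.X - Polynomial.C (s i)) ^ g).nextCoeff = - (g * ∑ i, s i) := by
  have hm : ∀ i ∈ (Finset.univ : Finset (Fin 12)),
      ((Polynomial.X - Polynomial.C (s i)) ^ g).Monic :=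
    fun i _ => (Polynomial.monic_X_sub_C (s i)).pow g
  refine ⟨Polynomial.monic_prod_of_monic _ _ hm, ?_, ?_⟩
  · rw [Polynomial.natDegree_prod_of_monic _ _ hm]
    have : ∀ i, ((Polynomial.X - Polynomial.C (s i)) ^ g).natDegree = g := by
      intro i
      rw [(Polynomial.monic_X_sub_C (s i)).natDegree_pow, Polynomial.natDegree_X_sub_C, mul_one]
    simp [this]
  · rw [Polynomial.Monic.nextCoeff_prod _ _ hm, Finset.mul_sum, ← Finset.sum_neg_distrib]
    apply Finset.sum_congr rfl
    intro i _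
    rw [(Polynomial.monic_X_sub_C (s i)).nextCoeff_pow, Polynomial.nextCoeff_X_sub_C]
    simp

/-- a polynomial of degree at most `12 g` divisible by the product, whose second coefficient
vanishes, is zero -/
theorem eq_zero {K : Type} [Field K] [CharZero K] (s : Fin 12 → K) (hs : Function.Injective s)
    (hsum : ∑ i, s i ≠ 0) (g : ℕ) (hg : 1 ≤ g) (p : Polynomial K)
    (h : ∀ i, (Polynomial.X - Polynomial.C (s i)) ^ g ∣ p) (hdeg : p.natDegree ≤ 12 * g)
    (hc : p.coeff (12 * g - 1) = 0) : p = 0 := by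
  by_contra hp
  obtain ⟨q, hq⟩ := prod_dvd s hs g p h
  obtain ⟨h1, h2, h3⟩ := prod_facts s g
  set P := ∏ i, (Polynomial.X - Polynomial.C (s i)) ^ g with hP
  have hq0 : q ≠ 0 := by
    rintro rfl
    exact hp (by rw [hq, mul_zero])
  have h4 : p.natDegree = 12 * g + q.natDegree := by
    rw [hq, h1.natDegree_mul' hq0, h2]
  have h5 : q.natDegree = 0 := by omega
  obtain ⟨κ, hκ⟩ : ∃ κ, q = Polynomial.C κ := ⟨_, Polynomial.eq_C_of_natDegree_eq_zero h5⟩
  rw [hq, hκ, Polynomial.coeff_mul_C] at hc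
  have h6 : P.coeff (12 * g - 1) = P.nextCoeff := by
    rw [Polynomial.nextCoeff, if_neg (by omega), h2]
  rw [h6, h3] at hc
  have hκ0 : κ ≠ 0 := by
    rintro rfl
    exact hq0 (by rw [hκ, map_zero])
  have hg0 : (g : K) ≠ 0 := by
    have : g ≠ 0 := by omega
    exact_mod_cast this
  rcases mul_eq_zero.1 hc with h7 | h7
  · rw [neg_eq_zero] at h7
    rcases mul_eq_zero.1 h7 with h8 | h8
    · exact hg0 h8
    · exact hsum h8
  · exact hκ0 h7

theorem sum_ne {K : Type} [Field K] [CharZero K] (s : Fin 12 → K) (z : Fin 2 → K)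
    (h : AlgebraicIndependent ℚ (Sum.elim s z)) : ∑ i, s i ≠ 0 := by
  intro h0
  have h1 : aeval (Sum.elim s z) (∑ i : Fin 12, (X (Sum.inl i) : MvPolynomial (Fin 12 ⊕ Fin 2) ℚ))
      = 0 := by
    rw [map_sum]
    simpa using h0
  have h2 := (algebraicIndependent_iff.1 h) _ h1
  have h3 := congrArg (eval (fun _ => (1 : ℚ))) h2
  simp at h3

theorem Q_ne {K : Type} [Field K] [CharZero K] (s : Fin 12 → K) (z : Fin 2 → K)
    (h : AlgebraicIndependent ℚ (Sum.elim s z)) : eval z (Qp K) ≠ 0 := by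
  intro h0
  have h1 : aeval (Sum.elim s z) (((X (Sum.inr 1) - X (Sum.inr 0) ^ 2) ^ 2 - X (Sum.inr 0)) :
      MvPolynomial (Fin 12 ⊕ Fin 2) ℚ) = 0 := by
    simpa [Qp] using h0
  have h2 := (algebraicIndependent_iff.1 h) _ h1
  have h3 := congrArg (eval (Sum.elim (fun _ => (0 : ℚ)) ![-1, 0])) h2
  simp at h3

theorem main (hPD : S_PDBasic) (hRk : S_PDRank) (hO : S_OrdBasic) (hQ : S_QKer) (hW : S_PsiW)
    (K : Type) [Field K] [CharZero K] (s : Fin 12 → K) (z : Fin 2 → K)
    (h : AlgebraicIndependent ℚ (Sum.elim s z)) : ∀ (g : ℕ) (d μ : ℤ), d + μ = 6 * g →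
    ∀ F : MvPolynomial (Fin 2) K, F ∈ PD K d μ → (∀ i, F ∈ OrdGE (sp s i) g) →
      F ∈ OrdGE z 1 → F = 0 := by
  have hs : Function.Injective s := by
    have h1 := h.injective
    intro a b hab
    have h2 : Sum.elim s z (Sum.inl a) = Sum.elim s z (Sum.inl b) := by simpa using hab
    exact Sum.inl_injective (h1 h2)
  have hsum := sum_ne s z h
  have hQz := Q_ne s z h
  intro g
  induction g with
  | zero =>
    intro d μ hd F hF _ hz
    by_contra hF0
    by_cases hneg : d < 0 ∨ μ < 0
    · rw [(hRk K).2.1 d μ hneg] at hF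
      exact hF0 ((Submodule.mem_bot K).1 hF)
    · push Not at hneg
      have h1 := ((hPD K).1 F d μ hF0).1 hF
      have h2 : F.totalDegree = 0 := by
        have := h1.1
        push_cast at hd
        omega
      rw [totalDegree_eq_zero_iff_eq_C] at h2
      have h3 := ((hO K z).2.2.2.2.2 F).1 hz
      rw [h2, eval_C] at h3
      exact hF0 (by rw [h2, h3, map_zero])
  | succ g ih =>
    intro d μ hd F hF hs' hz
    by_contra hF0
    by_cases hneg : d < 0 ∨ μ < 0
    · rw [(hRk K).2.1 d μ hneg] at hF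
      exact hF0 ((Submodule.mem_bot K).1 hF)
    · push Not at hneg
      obtain ⟨d', rfl⟩ := Int.eq_ofNat_of_zero_le hneg.1
      obtain ⟨μ', rfl⟩ := Int.eq_ofNat_of_zero_le hneg.2
      have hdm : 2 * (d' + μ') = 12 * (g + 1) := by
        push_cast at hd
        omega
      obtain ⟨w1, w2, _⟩ := (hW K F).1 d' μ' hF
      have hpsi : psi K F = 0 := by
        apply eq_zero s hs hsum (g + 1) (by omega)
        · intro i
          apply (hW K F).2 (s i) (g + 1)
          have := hs' i
          exact_mod_cast this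
        · omega
        · rw [← hdm]
          exact w2 (by omega)
      obtain ⟨F', hF'⟩ := ((hQ K).1 F).1 hpsi
      have hF'0 : F' ≠ 0 := by
        rintro rfl
        exact hF0 (by rw [hF', mul_zero])
      have hQ0 : Qp K ≠ 0 := (hQ K).2.1.ne_zero
      obtain ⟨t1, t2⟩ := (hPD K).2.2 (Qp K) F' hQ0 hF'0
      rw [← hF', (hQ K).2.2.1] at t1
      rw [← hF', (hQ K).2.2.2.1] at t2
      have h1 := ((hPD K).1 F _ _ hF0).1 hF
      have h2 : F' ∈ PD K ((d' : ℤ) - 4) ((μ' : ℤ) - 2) := by
        rw [(hPD K).1 F' _ _ hF'0]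
        constructor
        · have := h1.1
          rw [t1] at this
          push_cast at this
          omega
        · have := h1.2
          rw [t2] at this
          push_cast at this
          omega
      apply hF'0
      apply ih ((d' : ℤ) - 4) ((μ' : ℤ) - 2) (by push_cast at hd ⊢; omega) F' h2
      · intro i
        by_contra hcon
        have h3 := (hO K (sp s i)).2.2.2.1 (Qp K) F' 2 g ((hQ K).2.2.2.2 (s i)).2 hcon
        rw [← hF'] at h3
        apply h3
        have h4 := hs' i
        have e : ((2 : ℤ) + (g : ℤ) - 1) = ((g + 1 : ℕ) : ℤ) := by push_cast; ring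
        rw [e]
        exact h4
      · rw [(hO K z).2.2.2.2.2 F']
        have h3 := ((hO K z).2.2.2.2.2 F).1 hz
        rw [hF', map_mul] at h3
        exact (mul_eq_zero.1 h3).resolve_left hQz

end StrictAux

open StrictAux in
theorem Strict (hPD : S_PDBasic) (hRk : S_PDRank) (hO : S_OrdBasic) (hQ : S_QKer)
    (hW : S_PsiW) : S_Strict := by
  intro K _ _ s z h d μ g hg hd
  rw [Submodule.eq_bot_iff]
  intro F hF
  unfold HH at hF
  rw [Submodule.mem_inf, Submodule.mem_iInf] at hF
  apply main hPD hRk hO hQ hW K s z h g d μ hd F hF.1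
  · intro i
    have := hF.2 (Fin.castSucc i)
    simpa [sp13, Fin.snoc_castSucc] using this
  · have h1 := hF.2 (Fin.last 12)
    have h2 : F ∈ OrdGE z g := by
      have e : sp13 s z (Fin.last 12) = z := Fin.snoc_last (α := fun _ => Fin 2 → K) z (sp s)
      rw [e] at h1
      exact h1
    exact (hO K z).2.1 1 g (by exact_mod_cast hg) h2

end Pool.Agent.MP5769ea
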