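import Pool.Agent.Lib.MP_5769ea_ag.Spec1
import Pool.Agent.Lib.MP_5769ea_ag.Spec2

/-!
# MP_5769ea_ag: the type `(5, 3; 1)` is small
-/

set_option autoImplicit false

open MvPolynomial

namespace Pool.Agent.MP5769ea

namespace T6Aux

section coord

variable {F K I : Type} [Field F] [Field K] [Algebra F K] (b : Module.Basis I F K) (β : I)

/-- the coordinate `β` of the coefficients -/
noncomputable def cp (G : MvPolynomial (Fin 2) K) : MvPolynomial (Fin 2) F :=
  ∑ s ∈ G.support, monomial s (b.repr (coeff s G) β)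

lemma coeff_cp (G : MvPolynomial (Fin 2) K) (s : Fin 2 →₀ ℕ) :
    coeff s (cp b β G) = b.repr (coeff s G) β := by
  classical
  unfold cp
  rw [coeff_sum]
  simp only [coeff_monomial]
  rw [Finset.sum_ite_eq']
  split_ifs with h
  · rfl
  · rw [notMem_support_iff.1 h]
    simp

lemma cp_add (G H : MvPolynomial (Fin 2) K) : cp b β (G + H) = cp b β G + cp b β H := by
  ext s
  simp [coeff_cp]

lemma cp_sub (G H : MvPolynomial (Fin 2) K) : cp b β (G - H) = cp b β G - cp b β H := by
  ext s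
  simp [coeff_cp]

lemma repr_mul (a : K) (h : F) : b.repr (a * algebraMap F K h) β = b.repr a β * h := by
  rw [mul_comm, ← Algebra.smul_def, map_smul]
  simp [mul_comm]

lemma repr_mul' (a : K) (h : F) : b.repr (algebraMap F K h * a) β = h * b.repr a β := by
  rw [← Algebra.smul_def, map_smul]
  simp

/-- base change of polynomials -/
noncomputable def mp (H : MvPolynomial (Fin 2) F) : MvPolynomial (Fin 2) K :=
  map (algebraMap F K) H

lemma coeff_mp (H : MvPolynomial (Fin 2) F) (s : Fin 2 →₀ ℕ) :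
    coeff s (mp (K := K) H) = algebraMap F K (coeff s H) := coeff_map _ _ _

lemma cp_C_mul (a : K) (H : MvPolynomial (Fin 2) F) :
    cp b β (C a * mp H) = C (b.repr a β) * H := by
  ext s
  rw [coeff_cp, coeff_C_mul, coeff_C_mul, coeff_mp, repr_mul]

/-- operators defined over `F` commute with coordinates -/
lemma cp_comm (TK : MvPolynomial (Fin 2) K → MvPolynomial (Fin 2) K)
    (TF : MvPolynomial (Fin 2) F → MvPolynomial (Fin 2) F)
    (haK : ∀ G H, TK (G + H) = TK G + TK H) (haF : ∀ G H, TF (G + H) = TF G + TF H)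
    (hsK : ∀ (a : K) G, TK (C a * G) = C a * TK G) (hsF : ∀ (a : F) G, TF (C a * G) = C a * TF G)
    (hT : ∀ H, TK (mp H) = mp (TF H)) (G : MvPolynomial (Fin 2) K) :
    cp b β (TK G) = TF (cp b β G) := by
  induction G using MvPolynomial.induction_on' with
  | monomial s a =>
    have e : (monomial s a : MvPolynomial (Fin 2) K) =
        C a * mp (monomial s (1 : F)) := by
      unfold mp
      rw [map_monomial, map_one, C_mul_monomial, mul_one]
    rw [e, hsK, hT, cp_C_mul, cp_C_mul, hsF]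
  | add G H hG hH => rw [haK, cp_add, hG, hH, cp_add, haF]

/-- functionals defined over `F` commute with coordinates -/
lemma repr_comm (TK : MvPolynomial (Fin 2) K → K) (TF : MvPolynomial (Fin 2) F → F)
    (haK : ∀ G H, TK (G + H) = TK G + TK H) (haF : ∀ G H, TF (G + H) = TF G + TF H)
    (hsK : ∀ (a : K) G, TK (C a * G) = a * TK G) (hsF : ∀ (a : F) G, TF (C a * G) = a * TF G)
    (hT : ∀ H, TK (mp H) = algebraMap F K (TF H)) (G : MvPolynomial (Fin 2) K) :
    b.repr (TK G) β = TF (cp b β G) := by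
  induction G using MvPolynomial.induction_on' with
  | monomial s a =>
    have e : (monomial s a : MvPolynomial (Fin 2) K) =
        C a * mp (monomial s (1 : F)) := by
      unfold mp
      rw [map_monomial, map_one, C_mul_monomial, mul_one]
    rw [e, hsK, hT, cp_C_mul, hsF, repr_mul]
  | add G H hG hH => rw [haK, cp_add, haF, map_add, Finsupp.add_apply, hG, hH]

/-- expansion -/
lemma expand (G : MvPolynomial (Fin 2) K) : ∃ B : Finset I,
    G = ∑ β ∈ B, C (b β) * mp (cp b β G) := by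
  classical
  refine ⟨G.support.biUnion fun s => (b.repr (coeff s G)).support, ?_⟩
  ext s
  rw [coeff_sum]
  simp only [coeff_C_mul, coeff_mp, coeff_cp]
  by_cases hs : s ∈ G.support
  · have h1 : coeff s G = ∑ β ∈ (b.repr (coeff s G)).support,
        b β * algebraMap F K (b.repr (coeff s G) β) := by
      conv_lhs => rw [← b.linearCombination_repr (coeff s G)]
      rw [Finsupp.linearCombination_apply, Finsupp.sum]
      refine Finset.sum_congr rfl fun β _ => ?_
      rw [Algebra.smul_def, mul_comm]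
    rw [h1]
    conv_rhs => rw [← h1]
    refine Finset.sum_subset (Finset.subset_biUnion_of_mem (fun s => (b.repr (coeff s G)).support)
      hs) fun β _ hβ => ?_
    rw [Finsupp.notMem_support_iff.1 hβ, map_zero, mul_zero]
  · rw [notMem_support_iff.1 hs]
    symm
    refine Finset.sum_eq_zero fun β _ => ?_
    simp

lemma support_cp (G : MvPolynomial (Fin 2) K) : (cp b β G).support ⊆ G.support := by
  intro s hs
  rw [mem_support_iff] at hs ⊢
  intro h
  apply hs
  rw [coeff_cp, h]
  simp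

lemma support_mp (H : MvPolynomial (Fin 2) F) : (mp (K := K) H).support ⊆ H.support := by
  intro s hs
  rw [mem_support_iff] at hs ⊢
  intro h
  apply hs
  rw [coeff_mp, h, map_zero]

lemma cp_PD {d μ : ℤ} {G : MvPolynomial (Fin 2) K} (hG : G ∈ PD K d μ) : cp b β G ∈ PD F d μ := by
  unfold PD at hG ⊢
  rw [mem_restrictSupport_iff] at hG ⊢
  exact fun s hs => hG (support_cp b β G hs)

lemma mp_PD {d μ : ℤ} {H : MvPolynomial (Fin 2) F} (hH : H ∈ PD F d μ) :
    mp H ∈ PD K d μ := by
  unfold PD at hH ⊢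
  rw [mem_restrictSupport_iff] at hH ⊢
  exact fun s hs => hH (support_mp H hs)

/-- base change of a point -/
def mq (q : Fin 2 → F) : Fin 2 → K := fun i => algebraMap F K (q i)

lemma eval_mp (q : Fin 2 → F) (H : MvPolynomial (Fin 2) F) :
    eval (mq q) (mp (K := K) H) = algebraMap F K (eval q H) := by
  unfold mp
  rw [eval_map]
  exact (eval₂_comp (algebraMap F K) q H).symm

lemma pderiv_mp (i : Fin 2) (H : MvPolynomial (Fin 2) F) :
    pderiv i (mp (K := K) H) = mp (pderiv i H) := by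
  unfold mp
  rw [pderiv_map]

lemma shift_mp (q : Fin 2 → F) (H : MvPolynomial (Fin 2) F) :
    shift (mq q) (mp (K := K) H) = mp (shift q H) := by
  unfold mp shift mq
  induction H using MvPolynomial.induction_on with
  | C a => simp [MvPolynomial.algebraMap_eq]
  | add p r hp hr => rw [map_add, map_add, map_add, map_add, hp, hr]
  | mul_X p i hp => simp only [map_mul, hp, map_X, aeval_X, map_add, map_C]

lemma repr_eval (q : Fin 2 → F) (G : MvPolynomial (Fin 2) K) :
    b.repr (eval (mq q) G) β = eval q (cp b β G) :=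
  repr_comm b β (fun G => eval (mq q) G) (fun H => eval q H) (fun G H => by simp)
    (fun G H => by simp) (fun a G => by simp) (fun a G => by simp) (fun H => eval_mp q H) G

lemma cp_pderiv (i : Fin 2) (G : MvPolynomial (Fin 2) K) :
    cp b β (pderiv i G) = pderiv i (cp b β G) :=
  cp_comm b β (fun G => pderiv i G) (fun H => pderiv i H) (fun G H => by simp)
    (fun G H => by simp) (fun a G => by simp) (fun a G => by simp)
    (fun H => pderiv_mp i H) G

lemma cp_shift (q : Fin 2 → F) (G : MvPolynomial (Fin 2) K) :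
    cp b β (shift (mq q) G) = shift q (cp b β G) :=
  cp_comm b β (fun G => shift (mq q) G) (fun H => shift q H) (fun G H => by simp)
    (fun G H => by simp) (fun a G => by simp [shift]) (fun a G => by simp [shift])
    (fun H => shift_mp q H) G

lemma cp_OrdGE {q : Fin 2 → F} {g : ℤ} {G : MvPolynomial (Fin 2) K}
    (hG : G ∈ OrdGE (mq q) g) : cp b β G ∈ OrdGE q g := by
  unfold OrdGE at hG ⊢
  rw [Submodule.mem_comap, mem_restrictSupport_iff] at hG ⊢
  intro s hs
  refine hG ?_
  have h : (shift q).toLinearMap (cp b β G) = cp b β (shift (mq q) G) := (cp_shift b β q G).symm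
  rw [h] at hs
  exact support_cp b β _ hs

lemma mp_OrdGE {q : Fin 2 → F} {g : ℤ} {H : MvPolynomial (Fin 2) F}
    (hH : H ∈ OrdGE q g) : mp (K := K) H ∈ OrdGE (mq q) g := by
  unfold OrdGE at hH ⊢
  rw [Submodule.mem_comap, mem_restrictSupport_iff] at hH ⊢
  intro s hs
  refine hH ?_
  have h : (shift (mq q)).toLinearMap (mp (K := K) H) = mp (shift q H) := shift_mp q H
  rw [h] at hs
  exact support_mp _ hs

end coord

lemma pt_up {F K : Type} [Field F] [Field K] [Algebra F K] {N : ℕ} (t y : Fin N → F)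
    (i : Fin N) : pt (fun i => algebraMap F K (t i)) (fun i => algebraMap F K (y i)) i =
      mq (pt t y i) := by
  funext j
  fin_cases j <;> rfl

/-- the space `W` -/
noncomputable def WW (t y : Fin 12 → ℂ) (φ : Fin 12 → Fin 3 → ℂ) :
    Submodule ℂ (MvPolynomial (Fin 2) ℂ) where
  carrier := {R | R ∈ PD ℂ 5 3 ∧ ∀ i, eval (pt t y i) R = 0 ∧
    φ i 1 * eval (pt t y i) (pderiv 0 R) + φ i 2 * eval (pt t y i) (pderiv 1 R) = 0}
  add_mem' := by
    rintro a b ⟨ha1, ha2⟩ ⟨hb1, hb2⟩
    refine ⟨Submodule.add_mem _ ha1 hb1, fun i => ⟨?_, ?_⟩⟩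
    · rw [map_add, (ha2 i).1, (hb2 i).1, add_zero]
    · have h1 := (ha2 i).2
      have h2 := (hb2 i).2
      simp only [map_add]
      linear_combination h1 + h2
  zero_mem' := ⟨Submodule.zero_mem _, fun i => by simp⟩
  smul_mem' := by
    rintro c a ⟨ha1, ha2⟩
    refine ⟨Submodule.smul_mem _ _ ha1, fun i => ⟨?_, ?_⟩⟩
    · rw [smul_eval, (ha2 i).1, mul_zero]
    · have h1 := (ha2 i).2
      rw [Derivation.map_smul, Derivation.map_smul, smul_eval, smul_eval]
      linear_combination c * h1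

/-- a functional defined over `ℂ` which kills `PD ℂ 8 4` kills `PD K 8 4` -/
lemma jf_up {K : Type} [Field K] [Algebra ℂ K] (t y : Fin 12 → ℂ) (φ : Fin 12 → Fin 3 → ℂ)
    (h : ∀ F ∈ PD ℂ 8 4, jf t y φ F = 0) (F : MvPolynomial (Fin 2) K) (hF : F ∈ PD K 8 4) :
    jf (up t) (up y) (fun i j => algebraMap ℂ K (φ i j)) F = 0 := by
  let b := Module.Basis.ofVectorSpace ℂ K
  apply b.repr.injective
  rw [map_zero]
  ext β
  have h1 := h (cp b β F) (cp_PD b β hF)
  rw [Finsupp.zero_apply, ← h1]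
  unfold jf up
  rw [map_sum, Finsupp.finsetSum_apply]
  refine Finset.sum_congr rfl fun i _ => ?_
  rw [map_add, map_add, Finsupp.add_apply, Finsupp.add_apply, repr_mul', repr_mul', repr_mul',
    pt_up, repr_eval, repr_eval, repr_eval, cp_pderiv, cp_pderiv]

/-- a set of at most four elements, one of which is `1`, is contained in the field generated by
three elements -/
lemma three_gens {K : Type} [Field K] [Algebra ℂ K] {n : ℕ} (hn : n ≤ 4) (a : Fin n → K)
    (j0 : Fin n) (h0 : a j0 = 1) :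
    ∃ c : Fin 3 → K, ∀ j, a j ∈ IntermediateField.adjoin ℂ (Set.range c) := by
  classical
  have hc : Fintype.card {j : Fin n // j ≠ j0} ≤ Fintype.card (Fin 3) := by
    rw [Fintype.card_fin, Fintype.card_subtype, Finset.filter_ne',
      Finset.card_erase_of_mem (Finset.mem_univ _), Finset.card_univ, Fintype.card_fin]
    omega
  obtain ⟨e⟩ := Function.Embedding.nonempty_of_card_le hc
  refine ⟨Function.extend e (fun j => a j.1) 0, fun j => ?_⟩
  by_cases hj : j = j0
  · rw [hj, h0]
    exact one_mem _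
  · refine IntermediateField.subset_adjoin _ _ ⟨e ⟨j, hj⟩, ?_⟩
    rw [e.injective.extend_apply]

/-- scaling a primitive pair -/
lemma pair_scale {K : Type} [Field K] {t y x : Fin 12 → K} {c κ : ℤ} {γ : Fin 12 → ℤ}
    {P R : MvPolynomial (Fin 2) K} (h : PairType t y x c κ γ P R) {r : K} (hr : r ≠ 0) :
    PairType t y x c κ γ (C r * P) (C r * R) := by
  have hinv : ∀ G : MvPolynomial (Fin 2) K, C r⁻¹ * (C r * G) = G := fun G => by
    rw [← mul_assoc, ← C_mul, inv_mul_cancel₀ hr, C_1, one_mul]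
  refine ⟨fun d hd1 hd2 => ?_, ?_, ?_, h.hκ, h.hκc, h.hγ, fun i => ?_, fun i => ?_⟩
  · refine h.rel ?_ ?_
    · have := Dvd.dvd.mul_left hd1 (C r⁻¹)
      rwa [hinv] at this
    · have := Dvd.dvd.mul_left hd2 (C r⁻¹)
      rwa [hinv] at this
  · rw [C_mul']
    exact Submodule.smul_mem _ _ h.hP
  · rw [C_mul']
    exact Submodule.smul_mem _ _ h.hR
  · rw [C_mul']
    exact Submodule.smul_mem _ _ (h.hRo i)
  · have e : C r * P - C (x i) * (C r * R) = C r * (P - C (x i) * R) := by ring
    rw [e, C_mul']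
    exact Submodule.smul_mem _ _ (h.hPo i)

end T6Aux

open T6Aux in
theorem T6 (hPhi : S_T6Phi) (hW : S_T6W) (hEx : S_T6Ex) (hIrr : S_T6Irr) (hUni : S_T6Uni)
    (hRk : S_PDRank) (hOrd : S_OrdBasic) : S_T6 := by
  classical
  intro t y hgen K _ _ _ x P R hPR
  have : CharZero K := charZero_of_injective_algebraMap (algebraMap ℂ K).injective
  have hgenK : Gen (up (K := K) t) (up y) := by
    have h := AlgebraicIndependent.map' (f := (algebraMap ℂ K).toRatAlgHom) hgen
      (algebraMap ℂ K).injective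
    unfold Gen
    convert h using 1
    funext i
    rcases i with i | i <;> rfl
  -- the functional
  obtain ⟨φ, hφ1, hφ2, -⟩ := hPhi ℂ t y hgen
  obtain ⟨φ0, -, -, hφ0⟩ := hPhi K (up t) (up y) hgenK
  obtain ⟨φ', hφ'0, hφ'1, hφ'2⟩ := hEx K (up t) (up y) x hgenK P R hPR
  obtain ⟨c1, hc1⟩ := hφ0 (fun i j => algebraMap ℂ K (φ i j)) (fun F hF => jf_up t y φ hφ1 F hF)
  obtain ⟨c2, hc2⟩ := hφ0 φ' hφ'1
  have hc20 : c2 ≠ 0 := by
    intro h
    apply hφ'0
    funext i j
    rw [hc2, h, zero_mul]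
    rfl
  have hφR : ∀ i, algebraMap ℂ K (φ i 1) * eval (pt (up t) (up y) i) (pderiv 0 R) +
      algebraMap ℂ K (φ i 2) * eval (pt (up t) (up y) i) (pderiv 1 R) = 0 := by
    intro i
    have h1 := hφ'2 i
    have h2 := hc1 i 1
    have h3 := hc1 i 2
    beta_reduce at h2 h3
    rw [hc2, hc2] at h1
    have h4 : c2 * (φ0 i 1 * eval (pt (up t) (up y) i) (pderiv 0 R) +
        φ0 i 2 * eval (pt (up t) (up y) i) (pderiv 1 R)) = 0 := by
      linear_combination h1
    have h5 := (mul_eq_zero.1 h4).resolve_left hc20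
    rw [h2, h3]
    linear_combination c1 * h5
  -- `R` is in the span of `W`
  let b := Module.Basis.ofVectorSpace ℂ K
  have hRW : ∀ β, cp b β R ∈ WW t y φ := by
    intro β
    refine ⟨cp_PD b β hPR.hR, fun i => ⟨?_, ?_⟩⟩
    · rw [← repr_eval, ← pt_up]
      have h := (((hOrd K (pt (up t) (up y) i)).2.2.2.2.2) R).1 (hPR.hRo i)
      have h' : eval (pt (fun i => algebraMap ℂ K (t i)) (fun i => algebraMap ℂ K (y i)) i) R =
        0 := h
      rw [h', map_zero, Finsupp.zero_apply]
    · have h := congrArg (fun z => b.repr z β) (hφR i)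
      beta_reduce at h
      have e : pt (up (K := K) t) (up y) i = mq (pt t y i) := pt_up t y i
      rw [map_add, Finsupp.add_apply, repr_mul', repr_mul', e, repr_eval, repr_eval, cp_pderiv,
        cp_pderiv, map_zero, Finsupp.zero_apply] at h
      exact h
  have hfd : FiniteDimensional ℂ (WW t y φ) := by
    have := (hRk ℂ).1 5 3
    exact Submodule.finiteDimensional_of_le (fun G hG => hG.1 : WW t y φ ≤ PD ℂ 5 3)
  have hdim : Module.finrank ℂ (WW t y φ) ≤ 4 :=
    hW ℂ t y hgen φ hφ1 (hφ2 0) (WW t y φ) (fun G hG => hG)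
  let w := Module.finBasis ℂ (WW t y φ)
  obtain ⟨B, hB⟩ := expand b R
  let ρ : Fin (Module.finrank ℂ (WW t y φ)) → K := fun j =>
    ∑ β ∈ B, b β * algebraMap ℂ K (w.repr ⟨cp b β R, hRW β⟩ j)
  have hRρ : R = ∑ j, C (ρ j) * mp ((w j : WW t y φ) : MvPolynomial (Fin 2) ℂ) := by
    have h1 : ∀ β, cp b β R = ∑ j, C (w.repr ⟨cp b β R, hRW β⟩ j) *
        ((w j : WW t y φ) : MvPolynomial (Fin 2) ℂ) := by
      intro β
      have h := congrArg (fun z : WW t y φ => (z : MvPolynomial (Fin 2) ℂ))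
        (w.sum_repr ⟨cp b β R, hRW β⟩)
      beta_reduce at h
      refine h.symm.trans ?_
      rw [Submodule.coe_sum]
      refine Finset.sum_congr rfl fun j _ => ?_
      rw [Submodule.coe_smul, C_mul']
    have h2 : ∀ β, C (b β) * mp (cp b β R) = ∑ j, C (b β * algebraMap ℂ K
        (w.repr ⟨cp b β R, hRW β⟩ j)) * mp ((w j : WW t y φ) : MvPolynomial (Fin 2) ℂ) := by
      intro β
      conv_lhs => rw [h1 β]
      unfold mp
      rw [map_sum, Finset.mul_sum]
      refine Finset.sum_congr rfl fun j _ => ?_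
      rw [map_mul, map_C, C_mul, mul_assoc]
    conv_lhs => rw [hB]
    rw [Finset.sum_congr rfl fun β _ => h2 β, Finset.sum_comm]
    refine Finset.sum_congr rfl fun j _ => ?_
    rw [← Finset.sum_mul, ← map_sum]
  -- normalisation
  have hR0 : R ≠ 0 := (hIrr K (up t) (up y) x hgenK P R hPR).1.ne_zero
  obtain ⟨j0, hj0⟩ : ∃ j, ρ j ≠ 0 := by
    by_contra hcon
    push Not at hcon
    apply hR0
    rw [hRρ]
    refine Finset.sum_eq_zero fun j _ => ?_
    rw [hcon j, C_0, zero_mul]
  have hr : (ρ j0)⁻¹ ≠ 0 := inv_ne_zero hj0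
  have hPR' := pair_scale hPR hr
  obtain ⟨c, hc⟩ := three_gens hdim (fun j => (ρ j0)⁻¹ * ρ j) j0 (inv_mul_cancel₀ hj0)
  let F := IntermediateField.adjoin ℂ (Set.range c)
  let RF : MvPolynomial (Fin 2) F :=
    ∑ j, C (⟨(ρ j0)⁻¹ * ρ j, hc j⟩ : F) * mp ((w j : WW t y φ) : MvPolynomial (Fin 2) ℂ)
  have hRF : C (ρ j0)⁻¹ * R = mp RF := by
    have e : mp (K := K) RF = ∑ j, C ((ρ j0)⁻¹ * ρ j) *
        mp ((w j : WW t y φ) : MvPolynomial (Fin 2) ℂ) := by
      unfold mp
      rw [map_sum]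
      refine Finset.sum_congr rfl fun j _ => ?_
      unfold mp
      rw [map_mul, map_C, map_map, ← IsScalarTower.algebraMap_eq ℂ F K]
      rfl
    rw [e]
    conv_lhs => rw [hRρ]
    rw [Finset.mul_sum]
    refine Finset.sum_congr rfl fun j _ => ?_
    rw [C_mul, mul_assoc]
  have hirr' := (hIrr K (up t) (up y) x hgenK _ _ hPR').1
  let b' := Module.Basis.ofVectorSpace F K
  obtain ⟨B', hB'⟩ := expand b' (C (ρ j0)⁻¹ * P)
  obtain ⟨β, hβ⟩ : ∃ β, ¬ ∃ l0 l1 : K, mp (K := K) (cp b' β (C (ρ j0)⁻¹ * P)) =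
      (C l0 + C l1 * X 0) * (C (ρ j0)⁻¹ * R) := by
    by_contra hcon
    push Not at hcon
    choose l0 l1 hl using hcon
    have hdvd : C (ρ j0)⁻¹ * R ∣ C (ρ j0)⁻¹ * P := by
      refine ⟨∑ β ∈ B', C (b' β) * (C (l0 β) + C (l1 β) * X 0), ?_⟩
      conv_lhs => rw [hB']
      rw [Finset.mul_sum]
      refine Finset.sum_congr rfl fun β _ => ?_
      rw [hl β]
      ring
    exact hirr'.not_isUnit (hPR'.rel hdvd dvd_rfl)
  -- the second solution
  let x₁ : Fin 12 → K := fun i => algebraMap F K (b'.repr (x i) β)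
  have hP1 : mp (K := K) (cp b' β (C (ρ j0)⁻¹ * P)) ∈ PD K 6 3 := by
    have h := hPR'.hP
    norm_num at h
    exact mp_PD (cp_PD b' β h)
  have hO : ∀ i, mp (K := K) (cp b' β (C (ρ j0)⁻¹ * P)) - C (x₁ i) * (C (ρ j0)⁻¹ * R) ∈
      OrdGE (pt (up t) (up y) i) 2 := by
    intro i
    have h := hPR'.hPo i
    norm_num at h
    have e : pt (up (K := K) t) (up y) i =
        mq (K := K) (pt (fun i => algebraMap ℂ F (t i)) (fun i => algebraMap ℂ F (y i)) i) := by
      funext j
      fin_cases j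
      · exact IsScalarTower.algebraMap_apply ℂ F K (t i)
      · exact IsScalarTower.algebraMap_apply ℂ F K (y i)
    rw [e, hRF] at h
    have h2 := mp_OrdGE (K := K) (cp_OrdGE b' β h)
    rw [cp_sub, cp_C_mul] at h2
    rw [e, hRF]
    have e2 : mp (K := K) (cp b' β (C (ρ j0)⁻¹ * P) - C (b'.repr (x i) β) * RF) =
        mp (K := K) (cp b' β (C (ρ j0)⁻¹ * P)) - C (x₁ i) * mp RF := by
      unfold mp
      rw [map_sub, map_mul, map_C]
    rw [← e2]
    exact h2
  obtain ⟨c3, l0, l1, hc3, hx⟩ := hUni K (up t) (up y) x x₁ hgenK _ _ _ hPR' hP1 hO hβ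
  refine ⟨c, c3⁻¹, l0, l1, inv_ne_zero hc3, fun i => ?_⟩
  have e : c3⁻¹ * (x i - l0 - l1 * algebraMap ℂ K (t i)) = x₁ i := by
    have h := hx i
    have h' : x i - l0 - l1 * algebraMap ℂ K (t i) = c3 * x₁ i := by
      rw [h]
      change c3 * x₁ i + l0 + l1 * algebraMap ℂ K (t i) - l0 - l1 * algebraMap ℂ K (t i) =
        c3 * x₁ i
      ring
    rw [h', ← mul_assoc, inv_mul_cancel₀ hc3, one_mul]
  rw [e]
  exact isAlgebraic_algebraMap (b'.repr (x i) β)

end Pool.Agent.MP5769ea
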