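import Pool.Agent.Lib.MP_5769ea_ag.Spec1
import Pool.Agent.Lib.MP_5769ea_ag.Spec2

/-!
# MP_5769ea_ag, task T6Def (proof A, numerical)

Twelve points over `ZMod 7` at which no nonzero polynomial of `PD 8 4` is singular: the `36 × 35`
matrix of the conditions has a left inverse, the list `tab` below.
-/

open MvPolynomial

namespace Pool.Agent.MP5769ea.T6DefAux

instance : Fact (Nat.Prime 7) := ⟨by norm_num⟩

/-! ### the certificate -/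

/-- weight of the combination of the conditions at the points `ps` with coefficients `ls` at the
monomial `t^i y^j` -/
def gw : List (ℕ × ℕ) → List ℕ → ℕ → ℕ → ℕ
  | p :: ps, l0 :: l1 :: l2 :: ls, i, j =>
      l0 * (p.1 ^ i * p.2 ^ j) + l1 * (i * p.1 ^ (i - 1) * p.2 ^ j) +
        l2 * (j * p.1 ^ i * p.2 ^ (j - 1)) + gw ps ls i j
  | _, _, _, _ => 0

/-- the twelve points -/
def pts : List (ℕ × ℕ) := [(2, 1), (5, 4), (5, 2), (6, 0), (3, 6), (4, 2), (2, 5), (1, 1), (6, 2), (4, 6), (1, 0), (2, 2)]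

/-- the left inverse -/
def tab : List ((ℕ × ℕ) × List ℕ) := [
  ((0, 0), [4, 2, 0, 3, 4, 3, 6, 2, 4, 6, 4, 1, 0, 0, 1, 0, 4, 5, 2, 1, 4, 6, 5, 3, 5, 6, 2, 4, 3, 5, 5, 4, 2, 2, 0, 0]),
  ((1, 0), [0, 0, 0, 3, 0, 2, 4, 3, 2, 2, 6, 4, 6, 2, 2, 0, 5, 1, 6, 0, 5, 2, 5, 1, 2, 0, 4, 1, 4, 6, 1, 1, 6, 1, 3, 0]),
  ((2, 0), [3, 2, 3, 2, 0, 5, 5, 3, 3, 2, 3, 5, 4, 5, 2, 0, 0, 4, 3, 6, 6, 0, 0, 1, 2, 1, 1, 5, 0, 5, 2, 1, 4, 0, 0, 0]),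
  ((3, 0), [6, 5, 5, 5, 1, 5, 6, 1, 3, 2, 4, 5, 6, 5, 2, 1, 3, 1, 4, 4, 1, 2, 1, 1, 2, 5, 6, 6, 3, 2, 4, 2, 3, 5, 1, 0]),
  ((4, 0), [0, 6, 2, 3, 1, 0, 1, 5, 5, 1, 6, 4, 4, 5, 4, 3, 4, 0, 3, 5, 3, 6, 1, 6, 2, 1, 5, 1, 3, 3, 2, 1, 1, 2, 4, 0]),
  ((5, 0), [2, 4, 4, 2, 5, 5, 4, 3, 2, 4, 0, 6, 5, 5, 4, 5, 0, 2, 2, 6, 4, 4, 4, 2, 4, 4, 4, 6, 3, 6, 3, 5, 4, 1, 3, 0]),
  ((6, 0), [3, 2, 1, 4, 3, 1, 1, 1, 0, 5, 0, 1, 1, 3, 3, 1, 4, 3, 5, 3, 2, 6, 6, 1, 5, 6, 0, 2, 3, 1, 0, 5, 6, 2, 6, 0]),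
  ((7, 0), [6, 5, 5, 4, 1, 2, 0, 0, 0, 2, 4, 6, 4, 2, 6, 1, 6, 3, 2, 4, 4, 6, 4, 3, 6, 5, 0, 1, 4, 0, 3, 6, 1, 0, 0, 0]),
  ((8, 0), [4, 2, 1, 2, 6, 5, 1, 3, 2, 4, 1, 3, 5, 1, 4, 3, 2, 2, 1, 6, 6, 3, 2, 3, 0, 0, 6, 2, 5, 0, 2, 3, 1, 1, 4, 0]),
  ((0, 1), [3, 2, 1, 2, 6, 2, 1, 0, 2, 4, 6, 6, 0, 6, 3, 0, 5, 1, 1, 5, 0, 2, 3, 3, 3, 1, 0, 1, 0, 6, 2, 3, 4, 2, 5, 0]),
  ((1, 1), [1, 0, 6, 1, 0, 4, 5, 3, 5, 4, 0, 3, 3, 3, 6, 4, 6, 6, 0, 4, 3, 6, 0, 3, 1, 3, 6, 6, 5, 2, 6, 4, 1, 5, 0, 0]),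
  ((2, 1), [3, 2, 5, 4, 0, 4, 5, 2, 3, 6, 5, 5, 2, 5, 3, 3, 6, 6, 4, 5, 5, 1, 1, 5, 6, 1, 1, 6, 2, 0, 3, 1, 3, 6, 5, 0]),
  ((3, 1), [1, 6, 3, 5, 4, 1, 6, 4, 4, 5, 6, 3, 2, 2, 2, 2, 5, 6, 0, 3, 0, 0, 3, 3, 2, 2, 2, 1, 6, 6, 6, 0, 6, 5, 1, 0]),
  ((4, 1), [6, 2, 4, 3, 3, 2, 2, 5, 1, 0, 0, 2, 0, 3, 0, 1, 2, 4, 5, 4, 6, 6, 4, 0, 5, 5, 0, 5, 2, 1, 6, 2, 5, 3, 3, 0]),
  ((5, 1), [6, 6, 0, 2, 4, 4, 5, 0, 4, 4, 6, 2, 5, 6, 0, 3, 3, 6, 4, 6, 3, 6, 5, 1, 0, 4, 3, 3, 6, 6, 6, 1, 4, 5, 2, 0]),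
  ((6, 1), [2, 1, 4, 5, 5, 6, 6, 0, 1, 4, 3, 5, 5, 0, 1, 3, 1, 3, 4, 0, 3, 5, 6, 6, 0, 0, 6, 2, 3, 0, 3, 1, 6, 3, 1, 0]),
  ((7, 1), [6, 2, 5, 6, 6, 5, 5, 0, 1, 1, 2, 2, 4, 3, 6, 5, 0, 3, 3, 1, 1, 2, 6, 0, 4, 5, 3, 4, 4, 0, 3, 2, 0, 6, 4, 0]),
  ((0, 2), [4, 3, 2, 6, 6, 6, 3, 6, 3, 1, 2, 6, 0, 4, 5, 2, 1, 3, 0, 0, 5, 1, 1, 0, 0, 6, 2, 0, 1, 6, 6, 5, 4, 5, 0, 0]),
  ((1, 2), [4, 6, 4, 1, 4, 5, 3, 0, 0, 1, 0, 6, 1, 5, 1, 1, 1, 2, 3, 0, 5, 0, 2, 0, 2, 0, 4, 4, 5, 5, 0, 6, 6, 1, 6, 0]),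
  ((2, 2), [0, 1, 4, 4, 4, 2, 1, 3, 1, 6, 5, 5, 2, 4, 2, 0, 0, 0, 6, 1, 1, 0, 4, 4, 5, 0, 1, 4, 5, 0, 6, 2, 3, 1, 6, 0]),
  ((3, 2), [1, 5, 0, 4, 1, 3, 5, 6, 6, 6, 3, 6, 3, 2, 0, 2, 0, 6, 0, 1, 0, 6, 3, 4, 4, 5, 3, 4, 0, 4, 6, 3, 5, 1, 6, 0]),
  ((4, 2), [3, 3, 2, 0, 6, 1, 3, 6, 5, 0, 1, 5, 1, 3, 0, 1, 4, 3, 3, 3, 2, 3, 6, 4, 6, 2, 6, 3, 1, 4, 4, 6, 6, 1, 1, 0]),
  ((5, 2), [4, 5, 3, 0, 1, 1, 3, 4, 4, 0, 5, 6, 0, 6, 4, 4, 6, 5, 4, 4, 6, 3, 0, 3, 6, 1, 4, 5, 5, 4, 6, 4, 3, 0, 1, 0]),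
  ((6, 2), [0, 6, 3, 0, 2, 2, 6, 4, 3, 2, 2, 6, 6, 1, 4, 4, 0, 3, 2, 1, 5, 3, 6, 2, 6, 2, 4, 2, 3, 5, 2, 0, 6, 2, 1, 0]),
  ((0, 3), [0, 1, 2, 3, 2, 3, 6, 1, 6, 0, 0, 6, 0, 4, 4, 6, 0, 5, 5, 4, 0, 2, 1, 3, 6, 6, 0, 5, 0, 2, 1, 1, 2, 1, 1, 0]),
  ((1, 3), [6, 3, 3, 5, 2, 3, 6, 4, 3, 0, 1, 0, 2, 2, 5, 4, 6, 1, 4, 1, 2, 2, 4, 3, 5, 5, 5, 1, 3, 2, 0, 2, 3, 0, 2, 0]),
  ((2, 3), [3, 4, 1, 3, 1, 6, 4, 1, 5, 0, 2, 6, 1, 4, 1, 1, 0, 2, 6, 4, 3, 1, 4, 0, 2, 4, 3, 6, 3, 6, 1, 1, 5, 0, 0, 0]),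
  ((3, 3), [6, 2, 2, 2, 6, 6, 3, 1, 5, 5, 5, 0, 3, 1, 1, 3, 4, 5, 4, 4, 4, 5, 4, 5, 6, 4, 1, 3, 2, 5, 6, 3, 1, 3, 6, 0]),
  ((4, 3), [3, 6, 5, 1, 2, 5, 0, 3, 1, 2, 0, 6, 1, 6, 4, 0, 3, 1, 4, 3, 0, 5, 2, 6, 1, 0, 6, 4, 5, 5, 5, 0, 5, 2, 5, 0]),
  ((5, 3), [6, 3, 0, 5, 2, 0, 3, 2, 6, 3, 5, 0, 2, 3, 2, 0, 5, 5, 4, 6, 6, 6, 4, 4, 6, 5, 0, 0, 3, 1, 0, 4, 6, 0, 0, 0]),
  ((0, 4), [2, 5, 3, 1, 5, 0, 0, 0, 5, 6, 4, 2, 3, 0, 3, 6, 0, 6, 1, 1, 0, 5, 3, 0, 4, 4, 0, 2, 3, 3, 1, 1, 2, 4, 2, 0]),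
  ((1, 4), [0, 3, 5, 6, 2, 2, 4, 3, 2, 5, 3, 6, 6, 2, 4, 2, 3, 2, 6, 3, 5, 1, 1, 4, 1, 6, 3, 5, 0, 5, 3, 2, 3, 3, 0, 0]),
  ((2, 4), [1, 0, 6, 3, 2, 4, 0, 2, 5, 2, 0, 4, 2, 0, 2, 2, 1, 5, 4, 2, 6, 2, 3, 4, 3, 6, 2, 5, 4, 5, 1, 1, 4, 3, 0, 0]),
  ((3, 4), [3, 4, 0, 0, 5, 6, 6, 6, 0, 2, 4, 2, 6, 1, 5, 5, 5, 6, 6, 2, 5, 4, 5, 2, 4, 5, 3, 3, 3, 0, 4, 4, 6, 6, 5, 0]),
  ((4, 4), [3, 3, 4, 5, 3, 1, 0, 4, 3, 1, 0, 5, 3, 1, 2, 6, 3, 3, 1, 2, 1, 1, 3, 1, 3, 2, 2, 0, 3, 1, 3, 4, 6, 2, 0, 0])]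

/-- the check of one row of the table -/
def chkRow (x : (ℕ × ℕ) × List ℕ) : Bool :=
  tab.all fun s => Nat.beq (gw pts x.2 s.1.1 s.1.2 % 7)
    (cond (Nat.beq s.1.1 x.1.1 && Nat.beq s.1.2 x.1.2) 1 0)

theorem chk_all : tab.all chkRow = true := by decide +kernel

/-- every exponent occurs in the table -/
theorem chk_mem : ((List.range 9).all fun i => (List.range 5).all fun j =>
    decide (8 < i + j) || (tab.any fun x => Nat.beq x.1.1 i && Nat.beq x.1.2 j)) = true := by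
  decide +kernel

theorem tab_ex {i j : ℕ} (h : i + j ≤ 8) (hj : j ≤ 4) : ∃ x ∈ tab, x.1.1 = i ∧ x.1.2 = j := by
  have h1 := chk_mem
  rw [List.all_eq_true] at h1
  have h2 := h1 i (List.mem_range.2 (by omega))
  rw [List.all_eq_true] at h2
  have h3 := h2 j (List.mem_range.2 (by omega))
  rw [Bool.or_eq_true] at h3
  rcases h3 with h3 | h3
  · have := of_decide_eq_true h3
    omega
  · rw [List.any_eq_true] at h3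
    obtain ⟨x, hx, h4⟩ := h3
    rw [Bool.and_eq_true] at h4
    exact ⟨x, hx, Nat.eq_of_beq_eq_true h4.1, Nat.eq_of_beq_eq_true h4.2⟩

theorem tab_row {x y : (ℕ × ℕ) × List ℕ} (hx : x ∈ tab) (hy : y ∈ tab) :
    gw pts x.2 y.1.1 y.1.2 % 7 = if y.1.1 = x.1.1 ∧ y.1.2 = x.1.2 then 1 else 0 := by
  have h1 := chk_all
  rw [List.all_eq_true] at h1
  have h2 := h1 x hx
  unfold chkRow at h2
  rw [List.all_eq_true] at h2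
  have h3 := Nat.eq_of_beq_eq_true (h2 y hy)
  rw [h3]
  by_cases h : y.1.1 = x.1.1 ∧ y.1.2 = x.1.2
  · rw [if_pos h, h.1, h.2]
    simp
  · rw [if_neg h]
    have : (Nat.beq y.1.1 x.1.1 && Nat.beq y.1.2 x.1.2) = false := by
      rw [Bool.and_eq_false_iff]
      by_contra hc
      push Not at hc
      apply h
      constructor
      · apply Nat.eq_of_beq_eq_true
        cases hb : Nat.beq y.1.1 x.1.1
        · exact absurd hb hc.1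
        · rfl
      · apply Nat.eq_of_beq_eq_true
        cases hb : Nat.beq y.1.2 x.1.2
        · exact absurd hb hc.2
        · rfl
    rw [this]
    rfl

/-! ### conditions at a point -/

section cond

variable {K : Type} [Field K]

theorem sum_aeval {A : Type} [CommRing A] [Algebra K A] (x : Fin 2 → A)
    (F : MvPolynomial (Fin 2) K) :
    aeval x F = ∑ d ∈ F.support, algebraMap K A (coeff d F) * (x 0 ^ d 0 * x 1 ^ d 1) := by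
  rw [aeval_def, eval₂_eq']
  simp [Fin.prod_univ_two]

open TrivSqZeroExt in
/-- a polynomial of order `≥ 2` at `q` vanishes at `q + ε w` -/
theorem aeval_ord2 {q : Fin 2 → K} {F : MvPolynomial (Fin 2) K} (hF : F ∈ OrdGE q 2)
    (w : Fin 2 → K) :
    aeval (fun i => (inl (q i) + inr (w i) : TrivSqZeroExt K K)) F = 0 := by
  have h1 : aeval (fun i => (inl (q i) + inr (w i) : TrivSqZeroExt K K)) F =
      aeval (fun i => (inr (w i) : TrivSqZeroExt K K)) (shift q F) := by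
    unfold shift
    rw [← AlgHom.comp_apply]
    congr 1
    apply MvPolynomial.algHom_ext
    intro i
    simp only [aeval_X, AlgHom.comp_apply, map_add]
    rw [add_comm]
    congr 1
    rw [← MvPolynomial.algebraMap_eq, AlgHom.commutes]
    rfl
  rw [h1, sum_aeval]
  apply Finset.sum_eq_zero
  intro d hd
  have h2 : shift q F ∈ restrictSupport K {s : Fin 2 →₀ ℕ | (2 : ℤ) ≤ ((s 0 + s 1 : ℕ) : ℤ)} := hF
  rw [mem_restrictSupport_iff] at h2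
  have h3 : (2 : ℤ) ≤ ((d 0 + d 1 : ℕ) : ℤ) := h2 hd
  have h4 : 2 ≤ d 0 + d 1 := by exact_mod_cast h3
  have h5 : ∀ (w : K) (n : ℕ), 2 ≤ n → (inr w : TrivSqZeroExt K K) ^ n = 0 := by
    intro w n hn
    obtain ⟨k, rfl⟩ := Nat.exists_eq_add_of_le hn
    rw [pow_add, pow_two, TrivSqZeroExt.inr_mul_inr, zero_mul]
  have h6 : (inr (w 0) : TrivSqZeroExt K K) ^ d 0 * inr (w 1) ^ d 1 = 0 := by
    by_cases h0 : 2 ≤ d 0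
    · rw [h5 _ _ h0, zero_mul]
    · by_cases h1 : 2 ≤ d 1
      · rw [h5 _ _ h1, mul_zero]
      · have e0 : d 0 = 1 := by omega
        have e1 : d 1 = 1 := by omega
        rw [e0, e1, pow_one, pow_one, TrivSqZeroExt.inr_mul_inr]
  rw [h6, mul_zero]

open TrivSqZeroExt in
/-- the three conditions at a point -/
theorem cond_point {a b : K} {F : MvPolynomial (Fin 2) K} (hF : F ∈ OrdGE ![a, b] 2) :
    (∑ d ∈ F.support, coeff d F * (a ^ d 0 * b ^ d 1) = 0) ∧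
    (∑ d ∈ F.support, coeff d F * (d 0 * a ^ (d 0 - 1) * b ^ d 1) = 0) ∧
    (∑ d ∈ F.support, coeff d F * (d 1 * a ^ d 0 * b ^ (d 1 - 1)) = 0) := by
  have key : ∀ w : Fin 2 → K,
      (∑ d ∈ F.support, coeff d F * (a ^ d 0 * b ^ d 1) = 0) ∧
      (∑ d ∈ F.support, coeff d F * (w 0 * (d 0 * a ^ (d 0 - 1) * b ^ d 1) +
        w 1 * (d 1 * a ^ d 0 * b ^ (d 1 - 1))) = 0) := by
    intro w
    have h1 := aeval_ord2 hF w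
    rw [sum_aeval] at h1
    constructor
    · have h2 := congrArg fst h1
      rw [TrivSqZeroExt.fst_sum, TrivSqZeroExt.fst_zero] at h2
      rw [← h2]
      apply Finset.sum_congr rfl
      intro d _
      simp [TrivSqZeroExt.algebraMap_eq_inl]
    · have h2 := congrArg snd h1
      rw [TrivSqZeroExt.snd_sum, TrivSqZeroExt.snd_zero] at h2
      rw [← h2]
      apply Finset.sum_congr rfl
      intro d _
      simp [TrivSqZeroExt.algebraMap_eq_inl, TrivSqZeroExt.snd_pow, TrivSqZeroExt.fst_pow,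
        TrivSqZeroExt.snd_mul, TrivSqZeroExt.fst_mul]
      left
      ring
  refine ⟨(key 0).1, ?_, ?_⟩
  · have := (key ![1, 0]).2
    simpa using this
  · have := (key ![0, 1]).2
    simpa using this

theorem sum_gw {F : MvPolynomial (Fin 2) K} : ∀ (ps : List (ℕ × ℕ)) (ls : List ℕ),
    (∀ p ∈ ps, F ∈ OrdGE ![(p.1 : K), (p.2 : K)] 2) →
    ∑ d ∈ F.support, coeff d F * ((gw ps ls (d 0) (d 1) : ℕ) : K) = 0
  | [], ls, _ => by simp [gw]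
  | p :: ps, [], _ => by simp [gw]
  | p :: ps, [l0], _ => by simp [gw]
  | p :: ps, [l0, l1], _ => by simp [gw]
  | p :: ps, l0 :: l1 :: l2 :: ls, h => by
    obtain ⟨h0, h1, h2⟩ := cond_point (h p (List.mem_cons_self ..))
    have ih := sum_gw ps ls (fun q hq => h q (List.mem_cons_of_mem _ hq))
    have e : ∀ d : Fin 2 →₀ ℕ, coeff d F * ((gw (p :: ps) (l0 :: l1 :: l2 :: ls) (d 0) (d 1) : ℕ) : K)
        = (l0 : K) * (coeff d F * ((p.1 : K) ^ d 0 * (p.2 : K) ^ d 1)) +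
          (l1 : K) * (coeff d F * (d 0 * (p.1 : K) ^ (d 0 - 1) * (p.2 : K) ^ d 1)) +
          (l2 : K) * (coeff d F * (d 1 * (p.1 : K) ^ d 0 * (p.2 : K) ^ (d 1 - 1))) +
          coeff d F * ((gw ps ls (d 0) (d 1) : ℕ) : K) := by
      intro d
      simp only [gw]
      push_cast
      ring
    simp only [e]
    rw [Finset.sum_add_distrib, Finset.sum_add_distrib, Finset.sum_add_distrib,
      ← Finset.mul_sum, ← Finset.mul_sum, ← Finset.mul_sum, h0, h1, h2, ih]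
    simp

end cond

/-! ### the points over `ZMod 7` -/

theorem zero_mod7 {F : MvPolynomial (Fin 2) (ZMod 7)} (hF : F ∈ PD (ZMod 7) 8 4)
    (h : ∀ p ∈ pts, F ∈ OrdGE ![(p.1 : ZMod 7), (p.2 : ZMod 7)] 2) : F = 0 := by
  have hS : ∀ d ∈ F.support, d 0 + d 1 ≤ 8 ∧ d 1 ≤ 4 := by
    intro d hd
    unfold PD at hF
    rw [mem_restrictSupport_iff] at hF
    have h3 := hF hd
    have h4 : ((d 0 + d 1 : ℕ) : ℤ) ≤ 8 ∧ ((d 1 : ℕ) : ℤ) ≤ 4 := h3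
    omega
  ext d
  rw [coeff_zero]
  by_contra hd
  have hd' : d ∈ F.support := mem_support_iff.2 hd
  obtain ⟨x, hx, hx1, hx2⟩ := tab_ex (hS d hd').1 (hS d hd').2
  have h1 := sum_gw (F := F) pts x.2 h
  rw [Finset.sum_eq_single d] at h1
  · have h2 : ((gw pts x.2 (d 0) (d 1) : ℕ) : ZMod 7) = 1 := by
      have h3 := tab_row hx hx
      rw [if_pos ⟨rfl, rfl⟩, hx1, hx2] at h3
      have h4 : gw pts x.2 (d 0) (d 1) ≡ 1 [MOD 7] := by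
        unfold Nat.ModEq
        rw [h3]
      have h5 := (ZMod.natCast_eq_natCast_iff _ _ _).2 h4
      rw [h5, Nat.cast_one]
    rw [h2, mul_one] at h1
    exact hd h1
  · intro e he hne
    obtain ⟨y, hy, hy1, hy2⟩ := tab_ex (hS e he).1 (hS e he).2
    have h3 := tab_row hx hy
    rw [if_neg, hy1, hy2] at h3
    · have h5 : ((gw pts x.2 (e 0) (e 1) : ℕ) : ZMod 7) = 0 := by
        rw [ZMod.natCast_eq_zero_iff]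
        exact Nat.dvd_of_mod_eq_zero h3
      rw [h5, mul_zero]
    · rintro ⟨g1, g2⟩
      apply hne
      ext k
      fin_cases k
      · change e 0 = d 0
        rw [← hy1, ← hx1, g1]
      · change e 1 = d 1
        rw [← hy2, ← hx2, g2]
  · intro hn
    exact absurd hd' hn

/-- the points as functions -/
def pf (i : Fin 12) : ℕ × ℕ := pts.get (i.cast (by rfl))

theorem pf_surj : ∀ p ∈ pts, ∃ i : Fin 12, pf i = p := by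
  intro p hp
  obtain ⟨n, hn, h⟩ := List.mem_iff_getElem.1 hp
  exact ⟨⟨n, hn⟩, h⟩

end T6DefAux

open T6DefAux in
/-- **T6Def.** -/
theorem T6Def (hSC : S_SemiCont) (hPR : S_PDRank) : S_T6Def := by
  intro K _ _ t y hgen
  have hinj : Function.Injective
      (aeval (Sum.elim t y) : MvPolynomial (Fin 12 ⊕ Fin 12) ℤ →ₐ[ℤ] K).toRingHom := by
    have h1 : AlgebraicIndependent ℤ (Sum.elim t y) :=
      AlgebraicIndependent.restrictScalars (K := ℚ) (R := ℤ)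
        (by simpa using (Int.cast_injective : Function.Injective (Int.cast : ℤ → ℚ))) hgen
    exact h1
  have hsc := hSC (MvPolynomial (Fin 12 ⊕ Fin 12) ℤ) (ZMod 7) K
    (aeval (Sum.elim (fun i => ((pf i).1 : ZMod 7)) (fun i => ((pf i).2 : ZMod 7))) :
      MvPolynomial (Fin 12 ⊕ Fin 12) ℤ →ₐ[ℤ] ZMod 7).toRingHom
    (aeval (Sum.elim t y) : MvPolynomial (Fin 12 ⊕ Fin 12) ℤ →ₐ[ℤ] K).toRingHom hinj 12
    (fun i => ![X (Sum.inl i), X (Sum.inr i)]) 8 4 (fun _ => 2)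
  have e1 : (fun (i : Fin 12) (j : Fin 2) =>
      (aeval (Sum.elim t y) : MvPolynomial (Fin 12 ⊕ Fin 12) ℤ →ₐ[ℤ] K).toRingHom
        ((![X (Sum.inl i), X (Sum.inr i)] : Fin 2 → MvPolynomial (Fin 12 ⊕ Fin 12) ℤ) j)) =
      pt t y := by
    funext i j
    fin_cases j <;> simp [pt]
  have e2 : (fun (i : Fin 12) (j : Fin 2) =>
      (aeval (Sum.elim (fun i => ((pf i).1 : ZMod 7)) (fun i => ((pf i).2 : ZMod 7))) :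
        MvPolynomial (Fin 12 ⊕ Fin 12) ℤ →ₐ[ℤ] ZMod 7).toRingHom
        ((![X (Sum.inl i), X (Sum.inr i)] : Fin 2 → MvPolynomial (Fin 12 ⊕ Fin 12) ℤ) j)) =
      fun i => ![((pf i).1 : ZMod 7), ((pf i).2 : ZMod 7)] := by
    funext i j
    fin_cases j <;> simp
  rw [e1, e2] at hsc
  have h0 : HH (fun i => ![((pf i).1 : ZMod 7), ((pf i).2 : ZMod 7)]) 8 4 (fun _ => 2) = ⊥ := by
    rw [eq_bot_iff]
    intro F hF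
    rw [Submodule.mem_bot]
    unfold HH at hF
    rw [Submodule.mem_inf, Submodule.mem_iInf] at hF
    apply zero_mod7 hF.1
    intro p hp
    obtain ⟨i, rfl⟩ := pf_surj p hp
    exact hF.2 i
  rw [h0, finrank_bot] at hsc
  have : FiniteDimensional K (PD K 8 4) := (hPR K).1 8 4
  have : FiniteDimensional K (HH (pt t y) 8 4 (fun _ => 2)) := by
    unfold HH
    exact Submodule.finiteDimensional_inf_left _ _
  exact Submodule.finrank_eq_zero.1 (Nat.le_zero.1 hsc)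

end Pool.Agent.MP5769ea
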