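import Pool.Agent.Lib.MP_5769ea_ag.Spec1
import Pool.Agent.Lib.MP_5769ea_ag.Spec2

/-!
# MP_5769ea_ag, T6Ex: the functional attached to a primitive pair of type `(5, 3; 1)`
-/

open MvPolynomial

namespace Pool.Agent.MP5769ea

namespace T6ExAux

variable {K : Type} [Field K]

theorem mem_ord {q : Fin 2 → K} {g : ℤ} {F : MvPolynomial (Fin 2) K} (h : F ∈ OrdGE q g)
    (s : Fin 2 →₀ ℕ) (hs : ((s 0 + s 1 : ℕ) : ℤ) < g) : coeff s (shift q F) = 0 := by
  rw [OrdGE, Submodule.mem_comap, mem_restrictSupport_iff] at h
  by_contra hne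
  have h1 := h (Finset.mem_coe.mpr (mem_support_iff.mpr hne))
  simp only [Set.mem_ofPred_eq] at h1
  omega

theorem shift_X (q : Fin 2 → K) (i : Fin 2) : shift q (X i) = X i + C (q i) := by
  simp [shift]

theorem coeff_zero_shift (q : Fin 2 → K) (F : MvPolynomial (Fin 2) K) :
    coeff 0 (shift q F) = eval q F := by
  induction F using MvPolynomial.induction_on with
  | C a => simp [shift]
  | add p r hp hr => simp only [map_add, coeff_add, hp, hr]
  | mul_X p i hp =>
    rw [map_mul, shift_X, mul_add, coeff_add, mul_comm _ (C (q i)), coeff_C_mul, hp, map_mul,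
      eval_X, coeff_mul_X', if_neg (by simp), zero_add, mul_comm]

theorem coeff_one_shift (q : Fin 2 → K) (j : Fin 2) (F : MvPolynomial (Fin 2) K) :
    coeff (Finsupp.single j 1) (shift q F) = eval q (pderiv j F) := by
  induction F using MvPolynomial.induction_on with
  | C a =>
    have h : shift q (C a) = C a := by simp [shift]
    rw [h, coeff_C, if_neg, pderiv_C, map_zero]
    intro h0
    have := DFunLike.congr_fun h0 j
    simp at this
  | add p r hp hr => simp only [map_add, coeff_add, hp, hr]
  | mul_X p i hp =>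
    rw [map_mul, shift_X, mul_add, coeff_add, mul_comm _ (C (q i)), coeff_C_mul, hp, pderiv_mul,
      map_add, map_mul, eval_X, map_mul, add_comm, coeff_mul_X', mul_comm (q i)]
    congr 1
    by_cases hij : i = j
    · subst hij
      rw [if_pos (by simp), tsub_self, coeff_zero_shift, pderiv_X_self, map_one, mul_one]
    · rw [if_neg, pderiv_X_of_ne (fun h => hij h), map_zero, mul_zero]
      intro h
      have h2 := Finsupp.support_single_subset h
      simp only [Finset.mem_singleton] at h2
      exact hij h2

theorem eval_of_ord {q : Fin 2 → K} {g : ℤ} (hg : 1 ≤ g) {F : MvPolynomial (Fin 2) K}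
    (h : F ∈ OrdGE q g) : eval q F = 0 := by
  rw [← coeff_zero_shift]
  exact mem_ord h _ (by simp; omega)

theorem pderiv_of_ord {q : Fin 2 → K} {g : ℤ} (hg : 2 ≤ g) {F : MvPolynomial (Fin 2) K}
    (h : F ∈ OrdGE q g) (j : Fin 2) : eval q (pderiv j F) = 0 := by
  rw [← coeff_one_shift]
  refine mem_ord h _ ?_
  fin_cases j <;> simp <;> omega

/-- the first order jets at the twelve points -/
noncomputable def jetL (t y : Fin 12 → K) :
    MvPolynomial (Fin 2) K →ₗ[K] (Fin 12 → Fin 3 → K) where
  toFun F := fun i => ![eval (pt t y i) F, eval (pt t y i) (pderiv 0 F),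
    eval (pt t y i) (pderiv 1 F)]
  map_add' F G := by
    funext i j
    fin_cases j <;> simp
  map_smul' c F := by
    funext i j
    fin_cases j <;> simp [smul_eval]

theorem jetL_zero (t y : Fin 12 → K) (F : MvPolynomial (Fin 2) K) (i : Fin 12) :
    jetL t y F i 0 = eval (pt t y i) F := rfl

theorem jetL_one (t y : Fin 12 → K) (F : MvPolynomial (Fin 2) K) (i : Fin 12) :
    jetL t y F i 1 = eval (pt t y i) (pderiv 0 F) := rfl

theorem jetL_two (t y : Fin 12 → K) (F : MvPolynomial (Fin 2) K) (i : Fin 12) :
    jetL t y F i 2 = eval (pt t y i) (pderiv 1 F) := rfl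

end T6ExAux

open T6ExAux in
theorem T6Ex (hPD : S_PDBasic) (hRank : S_PDRank) (hBez : S_Bezout) : S_T6Ex := by
  intro K _ _ t y x hgen P R hPR
  have hinj : Function.Injective (pt t y) := by
    intro i j hij
    have h0 : t i = t j := congrFun hij 0
    have h1 := hgen.injective (a₁ := Sum.inl i) (a₂ := Sum.inl j) (by simpa using h0)
    exact Sum.inl_injective h1
  have hPev : ∀ i, eval (pt t y i) P = 0 := by
    intro i
    have h1 := eval_of_ord (by norm_num) (hPR.hPo i)
    have h2 := eval_of_ord (by norm_num) (hPR.hRo i)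
    simpa [h2] using h1
  have hRev : ∀ i, eval (pt t y i) R = 0 := fun i => eval_of_ord (by norm_num) (hPR.hRo i)
  have hPd : ∀ i j, eval (pt t y i) (pderiv j P) = x i * eval (pt t y i) (pderiv j R) := by
    intro i j
    have h1 := pderiv_of_ord (by norm_num) (hPR.hPo i) j
    rw [map_sub, Derivation.leibniz, pderiv_C, smul_zero, add_zero, map_sub, sub_eq_zero] at h1
    rw [h1]
    simp
  have hunit : ∀ F : MvPolynomial (Fin 2) K, IsUnit F → eval (pt t y 0) F ≠ 0 := by
    intro F hF
    exact (hF.map (eval (pt t y 0))).ne_zero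
  have hR0 : R ≠ 0 := by
    intro h
    have h1 := hPR.rel
    rw [h, isRelPrime_zero_right] at h1
    exact hunit P h1 (hPev 0)
  have hP0 : P ≠ 0 := by
    intro h
    have h1 := hPR.rel
    rw [h, isRelPrime_zero_left] at h1
    exact hunit R h1 (hRev 0)
  obtain ⟨hdeg, hmul, hadd⟩ := hPD K
  obtain ⟨hfin, -, hdim, -⟩ := hRank K
  -- injectivity
  have key : ∀ a ∈ PD K 2 1, ∀ b ∈ PD K 3 1, a * P + b * R = 0 → a = 0 ∧ b = 0 := by
    intro a ha b hb hab
    have h1 : R ∣ P * a := ⟨-b, by linear_combination hab⟩
    obtain ⟨e, he⟩ := hPR.rel.symm.dvd_of_dvd_mul_left h1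
    have h2 : R * (b + e * P) = 0 := by
      rw [he] at hab
      linear_combination hab
    have h3 : b = -(P * e) := by
      rcases mul_eq_zero.mp h2 with h | h
      · exact absurd h hR0
      · linear_combination h
    by_cases he0 : e = 0
    · subst he0
      simp [he, h3]
    exfalso
    have hRe := (hdeg (R * e) 2 1 (mul_ne_zero hR0 he0)).mp (he ▸ ha)
    have hPe' : P * e ∈ PD K 3 1 := by
      have := Submodule.neg_mem _ hb
      rwa [h3, neg_neg] at this
    have hPe := (hdeg (P * e) 3 1 (mul_ne_zero hP0 he0)).mp hPe'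
    rw [(hadd R e hR0 he0).1, (hadd R e hR0 he0).2] at hRe
    rw [(hadd P e hP0 he0).1, (hadd P e hP0 he0).2] at hPe
    have hR1 : R ∈ PD K ((2 : ℕ) : ℤ) ((1 : ℕ) : ℤ) := by
      rw [hdeg R _ _ hR0]
      constructor
      · have := hRe.1; push_cast at this ⊢; omega
      · have := hRe.2; push_cast at this ⊢; omega
    have hP1 : P ∈ PD K ((3 : ℕ) : ℤ) ((1 : ℕ) : ℤ) := by
      rw [hdeg P _ _ hP0]
      constructor
      · have := hPe.1; push_cast at this ⊢; omega
      · have := hPe.2; push_cast at this ⊢; omega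
    have hB := hBez K 12 (pt t y) hinj 3 1 2 1 (by norm_num) (by norm_num) P R hP1 hR1 hPR.rel
      (fun _ => 2) (fun _ => 1) (fun i => C (x i)) (fun i => by simpa using hPR.hPo i)
      (fun i => by simpa using hPR.hRo i)
    norm_num at hB
  -- the linear maps
  have hmem : ∀ (a : PD K 2 1) (b : PD K 3 1), (a : MvPolynomial (Fin 2) K) * P + b * R ∈
      PD K 8 4 := by
    intro a b
    have h1 := hmul a P 2 1 6 3 a.2 (by simpa using hPR.hP)
    have h2 := hmul b R 3 1 5 3 b.2 hPR.hR
    norm_num at h1 h2
    exact Submodule.add_mem _ h1 h2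
  have := hfin 8 4
  have := hfin 2 1
  have := hfin 3 1
  let J : (PD K 8 4 × (Fin 12 → K)) →ₗ[K] (Fin 12 → Fin 3 → K) :=
    { toFun := fun p => fun i => jetL t y p.1 i - p.2 i • jetL t y R i
      map_add' := by
        intro p r
        funext i
        simp only [Prod.fst_add, Submodule.coe_add, map_add, Prod.snd_add, Pi.add_apply, add_smul]
        abel
      map_smul' := by
        intro c p
        funext i
        simp only [Prod.smul_fst, Submodule.coe_smul, map_smul, Prod.smul_snd, Pi.smul_apply,
          RingHom.id_apply, smul_sub, smul_assoc] }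
  have hJ : ∀ p, J p = fun i => jetL t y p.1 i - p.2 i • jetL t y R i := fun p => rfl
  let I0 : (PD K 2 1 × PD K 3 1) →ₗ[K] (PD K 8 4 × (Fin 12 → K)) :=
    { toFun := fun p => (⟨(p.1 : MvPolynomial (Fin 2) K) * P + p.2 * R, hmem p.1 p.2⟩,
        fun i => eval (pt t y i) (p.1 : MvPolynomial (Fin 2) K) * x i +
          eval (pt t y i) (p.2 : MvPolynomial (Fin 2) K))
      map_add' := by
        intro p r
        refine Prod.ext (Subtype.ext ?_) ?_
        · simp only [Prod.fst_add, Prod.snd_add, Submodule.coe_add]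
          ring
        · funext i
          simp only [Prod.fst_add, Prod.snd_add, Submodule.coe_add, map_add, Pi.add_apply]
          ring
      map_smul' := by
        intro c p
        refine Prod.ext (Subtype.ext ?_) ?_
        · simp only [Prod.smul_fst, Prod.smul_snd, Submodule.coe_smul, RingHom.id_apply,
            smul_add, smul_mul_assoc]
        · funext i
          simp only [Prod.smul_fst, Prod.smul_snd, Submodule.coe_smul, RingHom.id_apply,
            smul_eval, Pi.smul_apply, smul_eq_mul]
          ring }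
  have hI0 : ∀ p, I0 p = (⟨(p.1 : MvPolynomial (Fin 2) K) * P + p.2 * R, hmem p.1 p.2⟩,
        fun i => eval (pt t y i) (p.1 : MvPolynomial (Fin 2) K) * x i +
          eval (pt t y i) (p.2 : MvPolynomial (Fin 2) K)) := fun p => rfl
  have hI0J : ∀ p, I0 p ∈ LinearMap.ker J := by
    rintro ⟨a, b⟩
    rw [LinearMap.mem_ker, hJ, hI0]
    funext i j
    fin_cases j
    · change jetL t y _ i 0 - (eval (pt t y i) (a : MvPolynomial (Fin 2) K) * x i +
        eval (pt t y i) (b : MvPolynomial (Fin 2) K)) * jetL t y R i 0 = 0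
      rw [jetL_zero, jetL_zero]
      simp only [map_add, map_mul, hPev, hRev]
      ring
    · change jetL t y _ i 1 - (eval (pt t y i) (a : MvPolynomial (Fin 2) K) * x i +
        eval (pt t y i) (b : MvPolynomial (Fin 2) K)) * jetL t y R i 1 = 0
      rw [jetL_one, jetL_one, map_add, pderiv_mul, pderiv_mul]
      simp only [map_add, map_mul, hPev, hRev, hPd]
      ring
    · change jetL t y _ i 2 - (eval (pt t y i) (a : MvPolynomial (Fin 2) K) * x i +
        eval (pt t y i) (b : MvPolynomial (Fin 2) K)) * jetL t y R i 2 = 0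
      rw [jetL_two, jetL_two, map_add, pderiv_mul, pderiv_mul]
      simp only [map_add, map_mul, hPev, hRev, hPd]
      ring
  have hI0inj : Function.Injective (I0.codRestrict (LinearMap.ker J) hI0J) := by
    rw [injective_iff_map_eq_zero]
    rintro ⟨a, b⟩ hab'
    have hab : I0 (a, b) = 0 := congrArg Subtype.val hab'
    rw [hI0] at hab
    have h1 : (a : MvPolynomial (Fin 2) K) * P + b * R = 0 := by
      have := congrArg Prod.fst hab
      simpa using congrArg Subtype.val this
    obtain ⟨h2, h3⟩ := key a a.2 b b.2 h1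
    exact Prod.ext (Subtype.ext h2) (Subtype.ext h3)
  have d1 : Module.finrank K (PD K 8 4) = 35 := by
    have := hdim 8 4 (by norm_num)
    push_cast at this
    omega
  have d2 : Module.finrank K (PD K 2 1) = 5 := by
    have := hdim 2 1 (by norm_num)
    push_cast at this
    omega
  have d3 : Module.finrank K (PD K 3 1) = 7 := by
    have := hdim 3 1 (by norm_num)
    push_cast at this
    omega
  have hker : 12 ≤ Module.finrank K (LinearMap.ker J) := by
    have := LinearMap.finrank_le_finrank_of_injective hI0inj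
    rw [Module.finrank_prod, d2, d3] at this
    exact this
  have hrn := J.finrank_range_add_finrank_ker
  rw [Module.finrank_prod, d1, Module.finrank_fintype_fun_eq_card, Fintype.card_fin] at hrn
  have hV : Module.finrank K (Fin 12 → Fin 3 → K) = 36 := by
    rw [Module.finrank_pi_fintype]
    simp
  have hlt : LinearMap.range J < ⊤ := by
    rw [lt_top_iff_ne_top]
    intro h
    rw [h, finrank_top, hV] at hrn
    omega
  obtain ⟨f, hf0, hf⟩ := Submodule.exists_le_ker_of_lt_top _ hlt
  set φ : Fin 12 → Fin 3 → K := fun i j => f (Pi.single i (Pi.single j 1)) with hφ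
  have hfφ : ∀ v : Fin 12 → Fin 3 → K, f v = ∑ i, (φ i 0 * v i 0 + φ i 1 * v i 1 +
      φ i 2 * v i 2) := by
    intro v
    have h1 : v = ∑ i, ∑ j, v i j • (Pi.single i (Pi.single j 1) : Fin 12 → Fin 3 → K) := by
      funext k l
      rw [Finset.sum_apply, Finset.sum_apply, Finset.sum_eq_single k]
      · rw [Finset.sum_apply, Finset.sum_apply, Finset.sum_eq_single l]
        · simp
        · intro b _ hb
          simp [hb.symm]
        · simp
      · intro b _ hb
        rw [Finset.sum_apply, Finset.sum_apply]
        apply Finset.sum_eq_zero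
        intro j _
        simp [hb.symm]
      · simp
    conv_lhs => rw [h1]
    rw [map_sum]
    refine Finset.sum_congr rfl fun i _ => ?_
    rw [map_sum, Fin.sum_univ_three]
    simp only [map_smul, smul_eq_mul, hφ]
    ring
  refine ⟨φ, ?_, ?_, ?_⟩
  · intro h
    apply hf0
    refine LinearMap.ext fun v => ?_
    rw [hfφ, h]
    simp
  · intro F hF
    have h1 : J (⟨F, hF⟩, 0) ∈ LinearMap.ker f := hf (LinearMap.mem_range_self _ _)
    rw [LinearMap.mem_ker, hfφ, hJ] at h1
    simpa [jf, jetL_zero, jetL_one, jetL_two] using h1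
  · intro i
    have h1 : J (0, Pi.single i 1) ∈ LinearMap.ker f := hf (LinearMap.mem_range_self _ _)
    rw [LinearMap.mem_ker, hfφ, hJ, Finset.sum_eq_single i] at h1
    · simp only [ZeroMemClass.coe_zero, map_zero, Pi.zero_apply, Pi.single_eq_same, one_smul,
        zero_sub, Pi.neg_apply, jetL_zero, jetL_one, jetL_two, hRev] at h1
      linear_combination -h1
    · intro k _ hk
      simp [hk]
    · simp

end Pool.Agent.MP5769ea
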