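import Pool.Agent.Lib.MP_5769ea_ag.Spec1
import Pool.Agent.Lib.MP_5769ea_ag.Spec2

set_option autoImplicit false

open MvPolynomial

namespace Pool.Agent.MP5769ea

namespace T6IrrAux

variable {K : Type} [Field K]

theorem pt_inj [CharZero K] {t y : Fin 12 → K} (h : Gen t y) : Function.Injective (pt t y) := by
  intro i j hij
  have h1 : t i = t j := by
    have := congrFun hij 0
    simpa [pt] using this
  have h2 : Function.Injective (Sum.elim t y) := AlgebraicIndependent.injective h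
  have h3 := h2 (a₁ := Sum.inl i) (a₂ := Sum.inl j) (by simpa using h1)
  exact Sum.inl.inj h3

theorem mu_le (F : MvPolynomial (Fin 2) K) : F.degreeOf 1 ≤ F.totalDegree :=
  degreeOf_le_totalDegree F 1

theorem mem_exact (hPD : S_PDBasic) {F : MvPolynomial (Fin 2) K} (hF : F ≠ 0) :
    F ∈ PD K (F.totalDegree : ℤ) ((F.degreeOf 1 : ℕ) : ℤ) :=
  ((hPD K).1 F _ _ hF).2 ⟨le_rfl, le_rfl⟩

open Classical in
/-- the number of the points on a curve -/
noncomputable def cnt (q : Fin 12 → Fin 2 → K) (F : MvPolynomial (Fin 2) K) (i : Fin 12) : ℕ :=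
  if eval (q i) F = 0 then 1 else 0

theorem cnt_le (hPD : S_PDBasic) (hRank : S_PDRank) (hOrd : S_OrdBasic) (hSimple : S_Simple)
    [CharZero K] {t y : Fin 12 → K} (h : Gen t y) {F : MvPolynomial (Fin 2) K} (hF : F ≠ 0) :
    2 * (∑ i, (cnt (pt t y) F i : ℤ)) + 2 ≤
      ((F.degreeOf 1 : ℤ) + 1) * (2 * (F.totalDegree : ℤ) + 2 - (F.degreeOf 1 : ℤ)) := by
  have h1 := hSimple K 12 t y h (F.totalDegree : ℤ) ((F.degreeOf 1 : ℕ) : ℤ)
    (fun i => (cnt (pt t y) F i : ℤ)) (by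
      intro i
      unfold cnt
      split_ifs
      · right; simp
      · left; simp)
  have h2 := (hRank K).2.2.1 F.totalDegree (F.degreeOf 1) (mu_le F)
  have hfin := (hRank K).1 (F.totalDegree : ℤ) ((F.degreeOf 1 : ℕ) : ℤ)
  have hmem : F ∈ HH (pt t y) (F.totalDegree : ℤ) ((F.degreeOf 1 : ℕ) : ℤ)
      (fun i => (cnt (pt t y) F i : ℤ)) := by
    unfold HH
    rw [Submodule.mem_inf, Submodule.mem_iInf]
    refine ⟨mem_exact hPD hF, fun i => ?_⟩
    change F ∈ OrdGE (pt t y i) ((cnt (pt t y) F i : ℕ) : ℤ)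
    unfold cnt
    split_ifs with h0
    · have := ((hOrd K (pt t y i)).2.2.2.2.2 F).2 h0
      simpa using this
    · rw [(hOrd K (pt t y i)).1 _ (by simp)]
      exact Submodule.mem_top
  have hle : HH (pt t y) (F.totalDegree : ℤ) ((F.degreeOf 1 : ℕ) : ℤ)
      (fun i => (cnt (pt t y) F i : ℤ)) ≤ PD K (F.totalDegree : ℤ) ((F.degreeOf 1 : ℕ) : ℤ) :=
    inf_le_left
  have : FiniteDimensional K (HH (pt t y) (F.totalDegree : ℤ) ((F.degreeOf 1 : ℕ) : ℤ)
      (fun i => (cnt (pt t y) F i : ℤ))) :=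
    Submodule.finiteDimensional_of_le hle
  have hpos : 0 < Module.finrank K (HH (pt t y) (F.totalDegree : ℤ) ((F.degreeOf 1 : ℕ) : ℤ)
      (fun i => (cnt (pt t y) F i : ℤ))) := by
    have : Nontrivial (HH (pt t y) (F.totalDegree : ℤ) ((F.degreeOf 1 : ℕ) : ℤ)
      (fun i => (cnt (pt t y) F i : ℤ))) :=
      ⟨⟨F, hmem⟩, 0, fun h => hF (congrArg Subtype.val h)⟩
    exact Module.finrank_pos
  have hpos' : (1 : ℤ) ≤ (Module.finrank K (HH (pt t y) (F.totalDegree : ℤ)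
      ((F.degreeOf 1 : ℕ) : ℤ) (fun i => (cnt (pt t y) F i : ℤ))) : ℤ) := by exact_mod_cast hpos
  have h3 := hpos'.trans h1
  rcases le_max_iff.1 h3 with h4 | h4
  · norm_num at h4
  · linarith

/-- Bezout for a factor -/
theorem bez (hPD : S_PDBasic) (hOrd : S_OrdBasic) (hBez : S_Bezout)
    [CharZero K] {t y x : Fin 12 → K} (h : Gen t y) {P R : MvPolynomial (Fin 2) K}
    (hPR : PairType t y x 5 3 (fun _ => 1) P R) {Y Z : MvPolynomial (Fin 2) K} (hYZ : R = Y * Z)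
    (hY : Y ≠ 0) :
    2 * (∑ i, (cnt (pt t y) Y i : ℤ)) ≤ 3 * ((Y.totalDegree : ℤ) + (Y.degreeOf 1 : ℤ)) := by
  have hrel : IsRelPrime P Y := hPR.rel.of_dvd_right (Dvd.intro Z hYZ.symm)
  have h1 := hBez K 12 (pt t y) (pt_inj h) 6 3 Y.totalDegree (Y.degreeOf 1) (by norm_num) (mu_le Y)
    P Y (by simpa using hPR.hP) (mem_exact hPD hY) hrel (fun _ => 2) (cnt (pt t y) Y)
    (fun i => C (x i) * Z) (by
      intro i
      have := hPR.hPo i
      rw [hYZ] at this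
      have e : P - C (x i) * Z * Y = P - C (x i) * (Y * Z) := by ring
      rw [e]
      simpa using this) (by
      intro i
      unfold cnt
      split_ifs with h0
      · have := ((hOrd K (pt t y i)).2.2.2.2.2 Y).2 h0
        simpa using this
      · rw [(hOrd K (pt t y i)).1 _ (by simp)]
        exact Submodule.mem_top)
  rw [Finset.mul_sum]
  push_cast at h1
  linarith

/-- the numerical contradiction -/
theorem numer {d₁ μ₁ d₂ μ₂ n₁ n₂ : ℕ} (hd : d₁ + d₂ = 5) (hμ : μ₁ + μ₂ = 3) (hn : n₁ + n₂ = 12)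
    (h1 : μ₁ ≤ d₁) (h2 : μ₂ ≤ d₂) (hd1 : d₁ ≠ 0) (hμ1 : μ₁ ≤ 1)
    (b1 : 2 * n₁ ≤ 3 * (d₁ + μ₁)) (b2 : 2 * n₂ ≤ 3 * (d₂ + μ₂))
    (c1 : 2 * (n₁ : ℤ) + 2 ≤ ((μ₁ : ℤ) + 1) * (2 * (d₁ : ℤ) + 2 - (μ₁ : ℤ)))
    (c2 : 2 * (n₂ : ℤ) + 2 ≤ ((μ₂ : ℤ) + 1) * (2 * (d₂ : ℤ) + 2 - (μ₂ : ℤ))) : False := by
  have h3 : d₁ ≤ 5 := by omega
  interval_cases μ₁
  · push_cast at c1
    have : μ₂ = 3 := by omega
    subst this
    push_cast at c2
    omega
  · have : μ₂ = 2 := by omega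
    subst this
    push_cast at c1 c2
    omega

end T6IrrAux

open T6IrrAux

theorem T6Irr (hPD : S_PDBasic) (hRank : S_PDRank) (hOrd : S_OrdBasic) (hBez : S_Bezout)
    (hSimple : S_Simple) : S_T6Irr := by
  intro K _ _ t y x hG P R hPR
  have hR1 : ∀ i, eval (pt t y i) R = 0 := fun i =>
    ((hOrd K (pt t y i)).2.2.2.2.2 R).1 (hPR.hRo i)
  have hP1 : ∀ i, eval (pt t y i) P = 0 := by
    intro i
    have h1 := hPR.hPo i
    have h2 := (hOrd K (pt t y i)).2.1 1 (1 + 1) (by norm_num) h1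
    have h3 := ((hOrd K (pt t y i)).2.2.2.2.2 _).1 h2
    rw [map_sub, map_mul, hR1 i, mul_zero, sub_zero] at h3
    exact h3
  have hunit : ∀ F : MvPolynomial (Fin 2) K, eval (pt t y 0) F = 0 → ¬ IsUnit F := by
    intro F hF hu
    exact (hu.map (eval (pt t y 0))).ne_zero hF
  have hR0 : R ≠ 0 := by
    intro h
    have := hPR.rel
    rw [h, isRelPrime_zero_right] at this
    exact hunit P (hP1 0) this
  -- order exactly one, exact degrees
  choose k hk1 hk2 using fun i => (hOrd K (pt t y i)).2.2.2.2.1 R hR0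
  have hk : ∀ i, 1 ≤ k i := by
    intro i
    by_contra hlt
    have h0 : k i = 0 := by omega
    apply hk2 i
    rw [h0]
    have := hPR.hRo i
    simpa using this
  have hb := hBez K 12 (pt t y) (pt_inj hG) 6 3 R.totalDegree (R.degreeOf 1) (by norm_num)
    (mu_le R) P R (by simpa using hPR.hP) (mem_exact hPD hR0) hPR.rel (fun _ => 2) k
    (fun i => C (x i)) (by
      intro i
      have := hPR.hPo i
      simpa using this) hk1
  have hdeg := ((hPD K).1 R 5 3 hR0).1 hPR.hR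
  have hd5 : R.totalDegree ≤ 5 := by exact_mod_cast hdeg.1
  have hμ3 : R.degreeOf 1 ≤ 3 := by exact_mod_cast hdeg.2
  have hsum : (24 : ℤ) ≤ ∑ i, ((2 : ℕ) : ℤ) * (k i : ℤ) := by
    calc (24 : ℤ) = ∑ i : Fin 12, ((2 : ℕ) : ℤ) * ((1 : ℕ) : ℤ) := by simp
      _ ≤ ∑ i, ((2 : ℕ) : ℤ) * (k i : ℤ) := by
        refine Finset.sum_le_sum fun i _ => ?_
        have : ((1 : ℕ) : ℤ) ≤ (k i : ℤ) := by exact_mod_cast hk i
        exact mul_le_mul_of_nonneg_left this (by norm_num)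
  have hdμ : R.totalDegree = 5 ∧ R.degreeOf 1 = 3 := by
    push_cast at hb hsum
    have e1 : (24 : ℤ) ≤ 3 * ((R.totalDegree : ℤ) + (R.degreeOf 1 : ℤ)) := by linarith
    omega
  have hkeq : ∀ i, k i = 1 := by
    intro i
    by_contra hne
    have h2 : 2 ≤ k i := by have := hk i; omega
    have h3 : (24 : ℤ) < ∑ i, ((2 : ℕ) : ℤ) * (k i : ℤ) := by
      calc (24 : ℤ) = ∑ i : Fin 12, ((2 : ℕ) : ℤ) * ((1 : ℕ) : ℤ) := by simp
        _ < ∑ i, ((2 : ℕ) : ℤ) * (k i : ℤ) := by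
          refine Finset.sum_lt_sum (fun j _ => ?_) ⟨i, Finset.mem_univ _, ?_⟩
          · have : ((1 : ℕ) : ℤ) ≤ (k j : ℤ) := by exact_mod_cast hk j
            exact mul_le_mul_of_nonneg_left this (by norm_num)
          · have : ((1 : ℕ) : ℤ) < (k i : ℤ) := by exact_mod_cast h2
            exact mul_lt_mul_of_pos_left this (by norm_num)
    rw [hdμ.1, hdμ.2] at hb
    push_cast at hb h3
    linarith
  have hnot2 : ∀ i, R ∉ OrdGE (pt t y i) 2 := by
    intro i hi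
    have := hk2 i
    rw [hkeq i] at this
    apply this
    simpa using hi
  refine ⟨⟨hunit R (hR1 0), ?_⟩, hdμ.1, hdμ.2, hnot2⟩
  -- irreducibility
  intro Y Z hYZ
  by_contra hcon
  rw [not_or] at hcon
  obtain ⟨hYu, hZu⟩ := hcon
  have hY0 : Y ≠ 0 := by rintro rfl; exact hR0 (by rw [hYZ, zero_mul])
  have hZ0 : Z ≠ 0 := by rintro rfl; exact hR0 (by rw [hYZ, mul_zero])
  have hadd := (hPD K).2.2 Y Z hY0 hZ0
  rw [← hYZ, hdμ.1, hdμ.2] at hadd
  have hcnt : ∀ i, cnt (pt t y) Y i + cnt (pt t y) Z i = 1 := by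
    intro i
    have h1 : eval (pt t y i) Y * eval (pt t y i) Z = 0 := by
      rw [← map_mul, ← hYZ]; exact hR1 i
    have h2 : ¬ (eval (pt t y i) Y = 0 ∧ eval (pt t y i) Z = 0) := by
      rintro ⟨a, b⟩
      apply hnot2 i
      have := (hOrd K (pt t y i)).2.2.1 Y Z 1 1 (by norm_num) (by norm_num)
        (((hOrd K (pt t y i)).2.2.2.2.2 Y).2 a) (((hOrd K (pt t y i)).2.2.2.2.2 Z).2 b)
      rw [← hYZ] at this
      simpa using this
    unfold cnt
    rcases mul_eq_zero.1 h1 with h | h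
    · have h' : eval (pt t y i) Z ≠ 0 := fun h'' => h2 ⟨h, h''⟩
      rw [if_pos h, if_neg h']
    · have h' : eval (pt t y i) Y ≠ 0 := fun h'' => h2 ⟨h'', h⟩
      rw [if_neg h', if_pos h]
  have hn : (∑ i, cnt (pt t y) Y i) + ∑ i, cnt (pt t y) Z i = 12 := by
    rw [← Finset.sum_add_distrib, Finset.sum_congr rfl fun i _ => hcnt i]
    simp
  have b1 := bez hPD hOrd hBez hG hPR hYZ hY0
  have b2 := bez hPD hOrd hBez hG hPR (hYZ.trans (mul_comm Y Z)) hZ0
  have c1 := cnt_le hPD hRank hOrd hSimple hG hY0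
  have c2 := cnt_le hPD hRank hOrd hSimple hG hZ0
  have hdeg0 : ∀ F : MvPolynomial (Fin 2) K, F ≠ 0 → ¬ IsUnit F → F.totalDegree ≠ 0 := by
    intro F hF hu h0
    rw [totalDegree_eq_zero_iff_eq_C] at h0
    apply hu
    rw [h0]
    refine IsUnit.map C ?_
    rw [isUnit_iff_ne_zero]
    intro h1
    rw [h1, map_zero] at h0
    exact hF h0
  have b1' : 2 * (∑ i, cnt (pt t y) Y i) ≤ 3 * (Y.totalDegree + Y.degreeOf 1) := by
    exact_mod_cast b1
  have b2' : 2 * (∑ i, cnt (pt t y) Z i) ≤ 3 * (Z.totalDegree + Z.degreeOf 1) := by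
    exact_mod_cast b2
  have c1' : 2 * (((∑ i, cnt (pt t y) Y i : ℕ)) : ℤ) + 2 ≤
      ((Y.degreeOf 1 : ℤ) + 1) * (2 * (Y.totalDegree : ℤ) + 2 - (Y.degreeOf 1 : ℤ)) := by
    push_cast; exact c1
  have c2' : 2 * (((∑ i, cnt (pt t y) Z i : ℕ)) : ℤ) + 2 ≤
      ((Z.degreeOf 1 : ℤ) + 1) * (2 * (Z.totalDegree : ℤ) + 2 - (Z.degreeOf 1 : ℤ)) := by
    push_cast; exact c2
  rcases le_or_gt (Y.degreeOf 1) 1 with h | h
  · exact numer hadd.1.symm hadd.2.symm hn (mu_le Y) (mu_le Z) (hdeg0 Y hY0 hYu) h b1' b2' c1' c2'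
  · have h' : Z.degreeOf 1 ≤ 1 := by omega
    exact numer (by rw [add_comm]; exact hadd.1.symm) (by rw [add_comm]; exact hadd.2.symm)
      (by rw [add_comm]; exact hn) (mu_le Z) (mu_le Y) (hdeg0 Z hZ0 hZu) h' b2' b1' c2' c1'

end Pool.Agent.MP5769ea
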