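import Pool.Agent.Lib.MP_5769ea_ag.Spec1
import Pool.Agent.Lib.MP_5769ea_ag.Spec2

/-!
# MP_5769ea_ag, T6Phi
-/

open MvPolynomial

namespace Pool.Agent.MP5769ea

namespace T6PhiAux

variable {K : Type} [Field K]

theorem pderiv_shift (q : Fin 2 → K) (i : Fin 2) (F : MvPolynomial (Fin 2) K) :
    pderiv i (shift q F) = shift q (pderiv i F) := by
  induction F using MvPolynomial.induction_on with
  | C a => simp [shift]
  | add p r hp hr => simp only [map_add, hp, hr]
  | mul_X p j hp =>
    rw [map_mul, Derivation.leibniz, Derivation.leibniz, hp]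
    have e : pderiv i (shift q (X j)) = shift q (pderiv i (X j)) := by
      unfold shift
      rw [aeval_X, map_add, pderiv_C, add_zero]
      by_cases h : i = j
      · subst h; simp
      · rw [pderiv_X_of_ne (fun h' => h h'.symm)]; simp
    rw [e]
    simp only [smul_eq_mul, map_add, map_mul]

theorem coeff_zero_shift (q : Fin 2 → K) (F : MvPolynomial (Fin 2) K) :
    coeff 0 (shift q F) = eval q F := by
  induction F using MvPolynomial.induction_on with
  | C a => simp [shift]
  | add p r hp hr => simp only [map_add, coeff_add, hp, hr]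
  | mul_X p j hp =>
    have h := hp
    rw [← constantCoeff_eq] at h ⊢
    rw [map_mul, map_mul, map_mul, h]
    congr 1
    simp [shift]

theorem coeff_pderiv_zero (i : Fin 2) (F : MvPolynomial (Fin 2) K) :
    coeff 0 (pderiv i F) = coeff (Finsupp.single i 1) F := by
  induction F using MvPolynomial.induction_on' with
  | monomial s a =>
    rw [pderiv_monomial, coeff_monomial, coeff_monomial]
    by_cases h : s = Finsupp.single i 1
    · subst h; simp
    · rw [if_neg h]
      by_cases h2 : s - Finsupp.single i 1 = 0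
      · rw [if_pos h2]
        have h3 : s ≤ Finsupp.single i 1 := tsub_eq_zero_iff_le.mp h2
        have h4 : s i ≠ 1 := by
          intro h5
          apply h
          ext j
          by_cases hj : j = i
          · subst hj; simp [h5]
          · have := h3 j
            rw [Finsupp.single_eq_of_ne hj] at this ⊢
            omega
        have h6 : s i ≤ 1 := by have := h3 i; simpa using this
        have h7 : s i = 0 := by omega
        simp [h7]
      · rw [if_neg h2]
  | add p r hp hr => simp only [map_add, coeff_add, hp, hr]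

theorem mem_ord_two (q : Fin 2 → K) (F : MvPolynomial (Fin 2) K) (h0 : eval q F = 0)
    (h1 : eval q (pderiv 0 F) = 0) (h2 : eval q (pderiv 1 F) = 0) : F ∈ OrdGE q 2 := by
  unfold OrdGE
  rw [Submodule.mem_comap, mem_restrictSupport_iff]
  intro s hs
  simp only [Set.mem_ofPred_eq]
  by_contra hcon
  have hs2 : s 0 + s 1 < 2 := by
    by_contra h
    apply hcon
    have : 2 ≤ s 0 + s 1 := by omega
    exact_mod_cast this
  have hs' : coeff s (shift q F) ≠ 0 := by
    have := Finset.mem_coe.mp hs
    exact mem_support_iff.mp this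
  apply hs'
  have hcases : s = 0 ∨ s = Finsupp.single 0 1 ∨ s = Finsupp.single 1 1 := by
    have hh : (s 0 = 0 ∧ s 1 = 0) ∨ (s 0 = 1 ∧ s 1 = 0) ∨ (s 0 = 0 ∧ s 1 = 1) := by omega
    rcases hh with ⟨ha, hb⟩ | ⟨ha, hb⟩ | ⟨ha, hb⟩
    · left
      ext j
      fin_cases j <;> simp [ha, hb]
    · right; left
      ext j
      fin_cases j <;> simp [ha, hb]
    · right; right
      ext j
      fin_cases j <;> simp [ha, hb]
  rcases hcases with h | h | h
  · rw [h, coeff_zero_shift, h0]
  · rw [h, ← coeff_pderiv_zero, pderiv_shift, coeff_zero_shift, h1]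
  · rw [h, ← coeff_pderiv_zero, pderiv_shift, coeff_zero_shift, h2]

/-- first order jets -/
noncomputable def J {n : ℕ} (q : Fin n → Fin 2 → K) :
    MvPolynomial (Fin 2) K →ₗ[K] (Fin n × Fin 3 → K) where
  toFun F := fun p => ![eval (q p.1) F, eval (q p.1) (pderiv 0 F), eval (q p.1) (pderiv 1 F)] p.2
  map_add' F G := by
    ext ⟨i, j⟩
    fin_cases j <;> simp
  map_smul' c F := by
    ext ⟨i, j⟩
    fin_cases j <;> simp [smul_eval]

theorem jf_eq (t y : Fin 12 → K) (φ : Fin 12 → Fin 3 → K) (F : MvPolynomial (Fin 2) K) :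
    jf t y φ F = ∑ p : Fin 12 × Fin 3, J (pt t y) F p * φ p.1 p.2 := by
  unfold jf
  rw [Fintype.sum_prod_type]
  refine Finset.sum_congr rfl fun i _ => ?_
  rw [Fin.sum_univ_three]
  simp only [J, LinearMap.coe_mk, AddHom.coe_mk, Matrix.cons_val_zero, Matrix.cons_val_one,
    Matrix.cons_val]
  ring

theorem J_zero {n : ℕ} (q : Fin n → Fin 2 → K) (F : MvPolynomial (Fin 2) K) (h : J q F = 0)
    (i : Fin n) : F ∈ OrdGE (q i) 2 := by
  refine mem_ord_two _ _ ?_ ?_ ?_
  · have := congrFun h (i, 0)
    simpa [J] using this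
  · have := congrFun h (i, 1)
    simpa [J] using this
  · have := congrFun h (i, 2)
    simpa [J] using this

end T6PhiAux

open T6PhiAux in
theorem T6Phi (hDef : S_T6Def) (hQT : S_QT6) (hGB : S_GenBound) (hRank : S_PDRank)
    (hOrd : S_OrdBasic) : S_T6Phi := by
  intro K _ _ t y hg
  obtain ⟨hfin, -, hdim, -⟩ := hRank K
  have hf : FiniteDimensional K (PD K 8 4) := hfin 8 4
  have h35 : Module.finrank K (PD K 8 4) = 35 := by
    have := hdim 8 4 (by norm_num)
    push_cast at this
    omega
  -- the jet map on `PD 8 4`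
  obtain ⟨L, hL⟩ : ∃ L : PD K 8 4 →ₗ[K] (Fin 12 × Fin 3 → K),
      L = (J (pt t y)).comp (PD K 8 4).subtype := ⟨_, rfl⟩
  have hLa : ∀ F : PD K 8 4, L F = J (pt t y) F.1 := by intro F; rw [hL]; rfl
  have hinj : Function.Injective L := by
    rw [injective_iff_map_eq_zero]
    intro F hF
    rw [hLa] at hF
    have hmem : (F : MvPolynomial (Fin 2) K) ∈ HH (pt t y) 8 4 (fun _ => 2) := by
      refine ⟨F.2, ?_⟩
      rw [SetLike.mem_coe, Submodule.mem_iInf]
      intro i
      exact J_zero _ _ hF i
    rw [hDef K t y hg, Submodule.mem_bot] at hmem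
    exact Subtype.ext hmem
  -- the map from functionals to functionals on `PD 8 4`
  obtain ⟨T, hT⟩ : ∃ T : (Fin 12 × Fin 3 → K) →ₗ[K] Module.Dual K (PD K 8 4),
      T = L.dualMap.comp (Pi.basisFun K (Fin 12 × Fin 3)).toDualEquiv.toLinearMap := ⟨_, rfl⟩
  have hTa : ∀ (φ : Fin 12 × Fin 3 → K) (F : PD K 8 4),
      T φ F = ∑ p : Fin 12 × Fin 3, L F p * φ p := by
    intro φ F
    rw [hT]
    simp only [LinearMap.comp_apply, LinearEquiv.coe_coe, Module.Basis.toDualEquiv_apply,
      LinearMap.dualMap_apply]
    conv_lhs => rw [← (Pi.basisFun K (Fin 12 × Fin 3)).sum_repr (L F)]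
    rw [map_sum]
    refine Finset.sum_congr rfl fun p _ => ?_
    rw [map_smul, smul_eq_mul, Pi.basisFun_repr]
    congr 1
    rw [Module.Basis.toDual_apply_left, Pi.basisFun_repr]
  have hTs : Function.Surjective T := by
    rw [hT, LinearMap.coe_comp]
    exact (LinearMap.dualMap_surjective_of_injective hinj).comp
      (Pi.basisFun K (Fin 12 × Fin 3)).toDualEquiv.surjective
  have hker : Module.finrank K (LinearMap.ker T) = 1 := by
    have h1 := LinearMap.finrank_range_add_finrank_ker T
    rw [LinearMap.range_eq_top.mpr hTs, finrank_top, Subspace.dual_finrank_eq, h35] at h1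
    rw [Module.finrank_fintype_fun_eq_card, Fintype.card_prod, Fintype.card_fin,
      Fintype.card_fin] at h1
    omega
  -- killing functionals and the kernel
  have hkill : ∀ φ : Fin 12 → Fin 3 → K, (∀ F ∈ PD K 8 4, jf t y φ F = 0) ↔
      (fun p : Fin 12 × Fin 3 => φ p.1 p.2) ∈ LinearMap.ker T := by
    intro φ
    rw [LinearMap.mem_ker]
    constructor
    · intro h
      refine LinearMap.ext fun F => ?_
      rw [hTa, LinearMap.zero_apply, ← h F.1 F.2, jf_eq, hLa]
    · intro h F hF
      have := congrArg (fun f : Module.Dual K (PD K 8 4) => f ⟨F, hF⟩) h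
      simp only [LinearMap.zero_apply] at this
      rw [hTa, hLa] at this
      rw [jf_eq, ← this]
  obtain ⟨v, hv, hv0, hvspan⟩ : ∃ v : Fin 12 × Fin 3 → K, v ∈ LinearMap.ker T ∧ v ≠ 0 ∧
      ∀ w ∈ LinearMap.ker T, ∃ c : K, w = c • v := by
    obtain ⟨v, hv0, hv⟩ := finrank_eq_one_iff'.mp hker
    refine ⟨v.1, v.2, fun h => hv0 (Subtype.ext h), fun w hw => ?_⟩
    obtain ⟨c, hc⟩ := hv ⟨w, hw⟩
    exact ⟨c, by rw [← Submodule.coe_smul, hc]⟩
  refine ⟨fun i j => v (i, j), ?_, ?_, ?_⟩
  · rw [hkill]; exact hv
  · intro i₀ hi₀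
    apply hv0
    -- surjectivity on the other eleven points
    obtain ⟨M, hM⟩ : ∃ M : PD K 8 4 →ₗ[K] (Fin 11 × Fin 3 → K),
        M = (J (fun k => pt t y (i₀.succAbove k))).comp (PD K 8 4).subtype := ⟨_, rfl⟩
    have hMa : ∀ F : PD K 8 4, M F = J (fun k => pt t y (i₀.succAbove k)) F.1 := by
      intro F; rw [hM]; rfl
    have hHH : Module.finrank K (HH (pt t y) 8 4 (fun i => if i = i₀ then 0 else 2)) ≤ 2 := by
      refine hGB 12 8 4 (fun i => if i = i₀ then 0 else 2) 2 ?_ K t y hg
      intro K₁ _ _ s hs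
      exact (hQT K₁ s hs).1 i₀
    have hkM : Module.finrank K (LinearMap.ker M) ≤ 2 := by
      refine le_trans ?_ hHH
      have : FiniteDimensional K (HH (pt t y) 8 4 (fun i => if i = i₀ then 0 else 2)) :=
        Submodule.finiteDimensional_of_le (S₂ := PD K 8 4) inf_le_left
      rw [← Submodule.finrank_map_subtype_eq]
      refine Submodule.finrank_mono ?_
      rintro _ ⟨F, hF, rfl⟩
      rw [SetLike.mem_coe, LinearMap.mem_ker, hMa] at hF
      refine ⟨F.2, ?_⟩
      rw [SetLike.mem_coe, Submodule.mem_iInf]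
      intro i
      by_cases hi : i = i₀
      · simp only [if_pos hi]
        rw [(hOrd K (pt t y i)).1 0 le_rfl]
        exact Submodule.mem_top
      · simp only [if_neg hi]
        obtain ⟨k, hk⟩ := Fin.exists_succAbove_eq hi
        have := J_zero _ _ hF k
        simp only [hk] at this
        exact this
    have hMs : Function.Surjective M := by
      rw [← LinearMap.range_eq_top]
      apply Submodule.eq_top_of_finrank_eq
      have h1 := LinearMap.finrank_range_add_finrank_ker M
      rw [h35] at h1
      have h2 := Submodule.finrank_le (LinearMap.range M)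
      rw [Module.finrank_fintype_fun_eq_card, Fintype.card_prod, Fintype.card_fin,
        Fintype.card_fin] at h2 ⊢
      omega
    -- the functional restricted to the eleven points vanishes
    have hz : ∀ e : Fin 11 × Fin 3 → K, ∑ p, e p * v (i₀.succAbove p.1, p.2) = 0 := by
      intro e
      obtain ⟨F, hF⟩ := hMs e
      have h1 : T v F = 0 := by
        rw [LinearMap.mem_ker.mp hv, LinearMap.zero_apply]
      rw [hTa, Fintype.sum_prod_type, Fin.sum_univ_succAbove _ i₀] at h1
      rw [Fintype.sum_prod_type]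
      have h2 : ∑ x : Fin 3, L F (i₀, x) * v (i₀, x) = 0 := by
        refine Finset.sum_eq_zero fun x _ => ?_
        have := congrFun hi₀ x
        simp only [Pi.zero_apply] at this
        rw [this, mul_zero]
      rw [h2, zero_add] at h1
      rw [← h1]
      refine Finset.sum_congr rfl fun k _ => Finset.sum_congr rfl fun x _ => ?_
      rw [← hF, hMa, hLa]
      rfl
    funext p
    obtain ⟨i, j⟩ := p
    by_cases hi : i = i₀
    · subst hi
      exact congrFun hi₀ j
    · obtain ⟨k, hk⟩ := Fin.exists_succAbove_eq hi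
      have := hz (Pi.single (k, j) 1)
      rw [Finset.sum_eq_single (k, j)] at this
      · simpa [hk] using this
      · intro b _ hb
        rw [Pi.single_eq_of_ne hb, zero_mul]
      · intro h; exact absurd (Finset.mem_univ _) h
  · intro φ' h'
    rw [hkill] at h'
    obtain ⟨c, hc⟩ := hvspan _ h'
    exact ⟨c, fun i j => by have := congrFun hc (i, j); simpa using this⟩

end Pool.Agent.MP5769ea
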