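import Pool.Agent.Lib.MP_5769ea_ag.Spec1
import Pool.Agent.Lib.MP_5769ea_ag.Spec2

set_option autoImplicit false

open MvPolynomial

namespace Pool.Agent.MP5769ea

namespace T6UniAux

variable {K : Type} [Field K]

theorem pt_inj [CharZero K] {t y : Fin 12 → K} (h : Gen t y) : Function.Injective (pt t y) := by
  intro i j hij
  have h1 : t i = t j := by
    have := congrFun hij 0
    simpa [pt] using this
  have h2 : Function.Injective (Sum.elim t y) := AlgebraicIndependent.injective h
  have h3 := h2 (a₁ := Sum.inl i) (a₂ := Sum.inl j) (by simpa using h1)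
  exact Sum.inl.inj h3

/-- elements of `PD 1 0` -/
theorem pd10 {S : MvPolynomial (Fin 2) K} (h : S ∈ PD K 1 0) :
    ∃ l0 l1 : K, S = C l0 + C l1 * X 0 := by
  refine ⟨coeff 0 S, coeff (Finsupp.single 0 1) S, ?_⟩
  have hne : (0 : Fin 2 →₀ ℕ) ≠ Finsupp.single 0 1 := by
    intro h3
    have := DFunLike.congr_fun h3 0
    simp at this
  unfold PD at h
  rw [mem_restrictSupport_iff] at h
  ext m
  by_cases hm : m ∈ S.support
  · have h1 := h hm
    simp only [Set.mem_ofPred_eq] at h1
    have h2 : m 1 = 0 := by have := h1.2; omega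
    have h3 : m 0 = 0 ∨ m 0 = 1 := by have := h1.1; omega
    rcases h3 with h3 | h3
    · have : m = 0 := by
        ext i
        fin_cases i
        · exact h3
        · exact h2
      subst this
      simp
    · have : m = Finsupp.single 0 1 := by
        ext i
        fin_cases i
        · simpa using h3
        · simpa using h2
      subst this
      rw [coeff_add, coeff_C, coeff_C_mul, coeff_X, if_neg hne]
      simp
  · have h0 : coeff m S = 0 := notMem_support_iff.1 hm
    rw [h0, coeff_add, coeff_C, coeff_C_mul]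
    by_cases h1 : m = 0
    · subst h1
      rw [h0]
      simp
    · by_cases h2 : m = Finsupp.single 0 1
      · subst h2
        rw [h0, if_neg hne]
        simp
      · rw [if_neg (fun h => h1 h.symm), coeff_X, if_neg (fun h => h2 h.symm)]
        simp

/-- a point of the curve `R = 0` away from finitely many vertical lines -/
theorem exists_pt [IsAlgClosed K] {R : MvPolynomial (Fin 2) K} (hR : R.degreeOf 1 ≠ 0)
    (t : Fin 12 → K) : ∃ z : Fin 2 → K, eval z R = 0 ∧ ∀ i, z 0 ≠ t i := by
  classical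
  have : Infinite K := IsAlgClosed.instInfinite
  set σ : Fin 2 → Fin 2 := fun i => Equiv.swap (0 : Fin 2) 1 i with hσ
  have hσi : Function.Injective σ := (Equiv.swap (0 : Fin 2) 1).injective
  set R' := rename σ R with hR'
  have hdeg : R'.degreeOf 0 = R.degreeOf 1 := by
    have := degreeOf_rename_of_injective (p := R) hσi 1
    rw [← this, hR']
    congr 1
  set f := finSuccEquiv K 1 R' with hf
  have hnat : f.natDegree = R.degreeOf 1 := by
    rw [hf, natDegree_finSuccEquiv, hdeg]
  have hf0 : f ≠ 0 := by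
    intro h
    rw [h, Polynomial.natDegree_zero] at hnat
    exact hR hnat.symm
  have hlc : f.leadingCoeff ≠ 0 := Polynomial.leadingCoeff_ne_zero.2 hf0
  have hprod : f.leadingCoeff * ∏ i : Fin 12, (X 0 - C (t i) : MvPolynomial (Fin 1) K) ≠ 0 := by
    refine mul_ne_zero hlc (Finset.prod_ne_zero_iff.2 fun i _ h => ?_)
    have := congrArg (coeff (Finsupp.single 0 1)) h
    rw [coeff_sub, coeff_X, coeff_C, coeff_zero] at this
    have h2 : (0 : Fin 1 →₀ ℕ) ≠ Finsupp.single 0 1 := by
      intro h3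
      have := DFunLike.congr_fun h3 0
      simp at this
    rw [if_neg h2] at this
    simp at this
  obtain ⟨s, hs⟩ : ∃ s : Fin 1 → K,
      eval s (f.leadingCoeff * ∏ i : Fin 12, (X 0 - C (t i) : MvPolynomial (Fin 1) K)) ≠ 0 := by
    by_contra hcon
    push Not at hcon
    apply hprod
    apply MvPolynomial.funext
    intro x
    rw [hcon x, map_zero]
  rw [map_mul, map_prod] at hs
  have hs1 := left_ne_zero_of_mul hs
  have hs2 := right_ne_zero_of_mul hs
  have hg : (f.map (eval s)).natDegree = R.degreeOf 1 := by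
    rw [Polynomial.natDegree_map_of_leadingCoeff_ne_zero (eval s) hs1, hnat]
  obtain ⟨y0, hy0⟩ := IsAlgClosed.exists_root (f.map (eval s)) (by
    intro h
    have h0 : (f.map (eval s)).natDegree = 0 := Polynomial.natDegree_eq_of_degree_eq_some h
    exact hR (hg.symm.trans h0))
  refine ⟨![s 0, y0], ?_, ?_⟩
  · have h1 := eval_eq_eval_mv_eval' s y0 R'
    have h2 : eval (Fin.cons y0 s) R' = 0 := by
      rw [h1]
      exact hy0
    rw [hR', eval_rename] at h2
    have h3 : (Fin.cons y0 s : Fin 2 → K) ∘ σ = ![s 0, y0] := by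
      funext i
      fin_cases i <;> simp [hσ]
    rw [h3] at h2
    exact h2
  · intro i
    have := Finset.prod_ne_zero_iff.1 hs2 i (Finset.mem_univ i)
    rw [map_sub, eval_X, eval_C] at this
    simpa using sub_ne_zero.1 this

/-- Bezout with an additional point -/
theorem extra (hBez : S_Bezout) [CharZero K] {t y x' : Fin 12 → K} (h : Gen t y)
    {P R : MvPolynomial (Fin 2) K} (hOrd : S_OrdBasic) (hP : P ∈ PD K 6 3) (hR : R ∈ PD K 5 3)
    (hR1 : ∀ i, R ∈ OrdGE (pt t y i) 1) (hP2 : ∀ i, P - C (x' i) * R ∈ OrdGE (pt t y i) 2)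
    {z : Fin 2 → K} (hz : ∀ i, z 0 ≠ t i) (hPz : eval z P = 0) (hRz : eval z R = 0)
    (hrel : IsRelPrime P R) : False := by
  have hinj : Function.Injective (Fin.cons z (pt t y) : Fin 13 → Fin 2 → K) := by
    rw [Fin.cons_injective_iff]
    refine ⟨?_, pt_inj h⟩
    rintro ⟨i, hi⟩
    have := congrFun hi 0
    exact hz i (by simpa [pt] using this.symm)
  have h1 := hBez K 13 (Fin.cons z (pt t y)) hinj 6 3 5 3 (by norm_num) (by norm_num) P R
    (by simpa using hP) (by simpa using hR) hrel (Fin.cons 1 (fun _ => 2)) (fun _ => 1)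
    (Fin.cons 0 (fun i => C (x' i))) (by
      intro i
      refine Fin.cases ?_ (fun i => ?_) i
      · have h2 := ((hOrd K z).2.2.2.2.2 P).2 hPz
        simpa using h2
      · simpa using hP2 i) (by
      intro i
      refine Fin.cases ?_ (fun i => ?_) i
      · have h2 := ((hOrd K z).2.2.2.2.2 R).2 hRz
        simpa using h2
      · simpa using hR1 i)
  rw [Fin.sum_univ_succ] at h1
  simp at h1

end T6UniAux

open T6UniAux

theorem T6Uni (hIrr : S_T6Irr) (hPD : S_PDBasic) (hOrd : S_OrdBasic) (hBez : S_Bezout) :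
    S_T6Uni := by
  intro K _ _ _ t y x x₁ hG P R P₁ hPR hP₁ hx₁ hno
  obtain ⟨hirr, hd5, hμ3, hnot2⟩ := hIrr K t y x hG P R hPR
  have hR0 : R ≠ 0 := hirr.ne_zero
  have hR1 : ∀ i, R ∈ OrdGE (pt t y i) 1 := hPR.hRo
  -- quotients
  have hquot : ∀ F ∈ PD K 6 3, R ∣ F → ∃ l0 l1 : K, F = (C l0 + C l1 * X 0) * R := by
    rintro F hF ⟨S, rfl⟩
    by_cases hS : S = 0
    · subst hS
      exact ⟨0, 0, by simp⟩
    · have h1 := ((hPD K).1 (R * S) 6 3 (mul_ne_zero hR0 hS)).1 hF
      have h2 := (hPD K).2.2 R S hR0 hS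
      rw [h2.1, h2.2, hd5, hμ3] at h1
      have h3 : S ∈ PD K 1 0 := by
        refine ((hPD K).1 S 1 0 hS).2 ⟨?_, ?_⟩
        · have := h1.1; push_cast at this; linarith
        · have := h1.2; push_cast at this; linarith
      obtain ⟨l0, l1, hl⟩ := pd10 h3
      exact ⟨l0, l1, by rw [hl]; ring⟩
  have hcop : ∀ F : MvPolynomial (Fin 2) K, ¬ R ∣ F → IsRelPrime F R := fun F hF =>
    ((hirr.isRelPrime_iff_not_dvd).2 hF).symm
  have h₁ : ¬ R ∣ P₁ := fun h => hno (hquot P₁ hP₁ h)
  obtain ⟨z, hz, hzt⟩ := exists_pt (R := R) (by rw [hμ3]; norm_num) t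
  have hP₁z : eval z P₁ ≠ 0 := fun h =>
    extra hBez hG hOrd hP₁ hPR.hR hR1 hx₁ hzt h hz (hcop P₁ h₁)
  have hP6 : P ∈ PD K 6 3 := hPR.hP
  set c : K := eval z P / eval z P₁ with hc
  have hP'6 : P - C c * P₁ ∈ PD K 6 3 := by
    have e : P - C c * P₁ = P - c • P₁ := by rw [smul_eq_C_mul]
    rw [e]
    exact Submodule.sub_mem _ hP6 (Submodule.smul_mem _ _ hP₁)
  have hP'z : eval z (P - C c * P₁) = 0 := by
    rw [map_sub, map_mul, eval_C, hc]
    field_simp
    ring
  have hP'2 : ∀ i, (P - C c * P₁) - C (x i - c * x₁ i) * R ∈ OrdGE (pt t y i) 2 := by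
    intro i
    have e : (P - C c * P₁) - C (x i - c * x₁ i) * R =
        (P - C (x i) * R) - c • (P₁ - C (x₁ i) * R) := by
      rw [smul_eq_C_mul, map_sub, map_mul]
      ring
    rw [e]
    exact Submodule.sub_mem _ (hPR.hPo i) (Submodule.smul_mem _ _ (hx₁ i))
  have hdvd : R ∣ P - C c * P₁ := by
    by_contra h
    exact extra hBez hG hOrd hP'6 hPR.hR hR1 hP'2 hzt hP'z hz (hcop _ h)
  obtain ⟨l0, l1, hl⟩ := hquot _ hP'6 hdvd
  refine ⟨c, l0, l1, ?_, ?_⟩
  · intro hc0
    rw [hc0, map_zero, zero_mul, sub_zero] at hdvd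
    have := hPR.rel
    exact hirr.not_isUnit (this hdvd dvd_rfl)
  · intro i
    have h2 := hP'2 i
    rw [hl] at h2
    have e : (C l0 + C l1 * X 0) * R - C (x i - c * x₁ i) * R =
        (C l0 + C l1 * X 0 - C (x i - c * x₁ i)) * R := by ring
    rw [e] at h2
    have h3 : C l0 + C l1 * X 0 - C (x i - c * x₁ i) ∈ OrdGE (pt t y i) 1 := by
      by_contra h
      have h4 := (hOrd K (pt t y i)).2.2.2.1 _ R 1 2 h (hnot2 i)
      apply h4
      have : (1 : ℤ) + 2 - 1 = 2 := by norm_num
      rw [this]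
      exact h2
    have h4 := ((hOrd K (pt t y i)).2.2.2.2.2 _).1 h3
    simp only [map_sub, map_add, map_mul, eval_C, eval_X] at h4
    have h5 : pt t y i 0 = t i := by simp [pt]
    rw [h5] at h4
    linear_combination -h4

end Pool.Agent.MP5769ea
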