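import Pool.Agent.Lib.MP_5769ea_ag.Spec1
import Pool.Agent.Lib.MP_5769ea_ag.Spec2

/-!
# MP_5769ea_ag: T6W, the space of the possible `R` has dimension at most 4
-/

set_option autoImplicit false

open MvPolynomial

namespace Pool.Agent.MP5769ea

namespace T6WAux

variable {K : Type} [Field K]

theorem PD_mono {a b c d : ℤ} (h1 : a ≤ c) (h2 : b ≤ d) : PD K a b ≤ PD K c d := by
  unfold PD
  exact restrictSupport_mono K fun s hs => ⟨hs.1.trans h1, hs.2.trans h2⟩

theorem X_mem (i : Fin 2) : (X i : MvPolynomial (Fin 2) K) ∈ PD K 1 1 := by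
  unfold PD X
  rw [monomial_mem_restrictSupport]
  left
  fin_cases i <;> simp

theorem C_mem (a : K) : (C a : MvPolynomial (Fin 2) K) ∈ PD K 1 1 := by
  unfold PD
  rw [← monomial_zero', monomial_mem_restrictSupport]
  left
  simp

/-- the linear polynomial `α (X 0 - t₀) + β (X 1 - y₀)` -/
noncomputable def lin (q : Fin 2 → K) (α β : K) : MvPolynomial (Fin 2) K :=
  C α * (X 0 - C (q 0)) + C β * (X 1 - C (q 1))

theorem lin_mem (q : Fin 2 → K) (α β : K) : lin q α β ∈ PD K 1 1 := by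
  unfold lin
  rw [C_mul', C_mul']
  exact Submodule.add_mem _
    (Submodule.smul_mem _ _ (Submodule.sub_mem _ (X_mem 0) (C_mem _)))
    (Submodule.smul_mem _ _ (Submodule.sub_mem _ (X_mem 1) (C_mem _)))

theorem eval_lin (p q : Fin 2 → K) (α β : K) :
    eval p (lin q α β) = α * (p 0 - q 0) + β * (p 1 - q 1) := by
  simp [lin]

theorem pd0_lin (q : Fin 2 → K) (α β : K) : pderiv 0 (lin q α β) = C α := by
  simp [lin, pderiv_X]

theorem pd1_lin (q : Fin 2 → K) (α β : K) : pderiv 1 (lin q α β) = C β := by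
  simp [lin, pderiv_X]

theorem pder (j : Fin 2) (F G : MvPolynomial (Fin 2) K) (p : Fin 2 → K) :
    eval p (pderiv j (F * G)) =
      eval p (pderiv j F) * eval p G + eval p F * eval p (pderiv j G) := by
  rw [pderiv_mul, map_add, map_mul, map_mul]

theorem mem_HH (hO : S_OrdBasic) {N : ℕ} (q : Fin N → Fin 2 → K) (d μ : ℤ)
    (g : Fin N → ℤ) (hg : ∀ i, g i = 0 ∨ g i = 1) (F : MvPolynomial (Fin 2) K)
    (hF : F ∈ PD K d μ) (hz : ∀ i, g i = 1 → eval (q i) F = 0) : F ∈ HH q d μ g := by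
  unfold HH
  refine Submodule.mem_inf.2 ⟨hF, ?_⟩
  rw [Submodule.mem_iInf]
  intro i
  rcases hg i with h | h
  · rw [(hO K (q i)).1 (g i) h.le]
    trivial
  · rw [h]
    exact ((hO K (q i)).2.2.2.2.2 F).2 (hz i h)

theorem HH_fin (hR : S_PDRank) {N : ℕ} (q : Fin N → Fin 2 → K) (d μ : ℤ)
    (g : Fin N → ℤ) : FiniteDimensional K (HH q d μ g) := by
  have := (hR K).1 d μ
  exact Submodule.finiteDimensional_of_le (inf_le_left : HH q d μ g ≤ PD K d μ)

theorem eq_zero (hS : S_Simple) (hR : S_PDRank) (hO : S_OrdBasic) [CharZero K] {N : ℕ}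
    (t y : Fin N → K) (hg : Gen t y) (d μ : ℤ) (g : Fin N → ℤ) (hg1 : ∀ i, g i = 0 ∨ g i = 1)
    (hle : (Module.finrank K (PD K d μ) : ℤ) ≤ ∑ i, g i) (F : MvPolynomial (Fin 2) K)
    (hF : F ∈ PD K d μ) (hz : ∀ i, g i = 1 → eval (pt t y i) F = 0) : F = 0 := by
  have h1 := hS K N t y hg d μ g hg1
  rw [max_eq_left (by linarith)] at h1
  have h2 : Module.finrank K (HH (pt t y) d μ g) = 0 := by
    have : (0 : ℤ) ≤ Module.finrank K (HH (pt t y) d μ g) := Int.natCast_nonneg _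
    exact_mod_cast le_antisymm h1 this
  have := HH_fin hR (pt t y) d μ g
  have h3 := Submodule.finrank_eq_zero.1 h2
  have h4 := mem_HH hO (pt t y) d μ g hg1 F hF hz
  rw [h3] at h4
  exact (Submodule.mem_bot K).1 h4

theorem rank_PD (hR : S_PDRank) (d μ r : ℕ) (h : μ ≤ d)
    (hr : (2 * r : ℤ) = (μ + 1) * (2 * d + 2 - μ)) : Module.finrank K (PD K d μ) = r := by
  have h1 := (hR K).2.2.1 d μ h
  rw [← hr] at h1
  have : (Module.finrank K (PD K d μ) : ℤ) = r := by linarith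
  exact_mod_cast this

theorem sum3 (i j : Fin 12) (hi : i ≠ 0) (hj : j ≠ 0) (hij : i ≠ j) :
    ∑ k : Fin 12, (if k = 0 ∨ k = i ∨ k = j then (1 : ℤ) else 0) = 3 := by
  rw [Finset.sum_boole]
  have h1 : (Finset.univ.filter fun k : Fin 12 => k = 0 ∨ k = i ∨ k = j) = {0, i, j} := by
    ext k
    simp
  rw [h1, Finset.card_eq_three.2 ⟨0, i, j, hi.symm, hj.symm, hij, rfl⟩]
  rfl

/-- the line `lin` through `q_0` contains at most one other point -/
theorem line (hS : S_Simple) (hR : S_PDRank) (hO : S_OrdBasic) [CharZero K]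
    (t y : Fin 12 → K) (hg : Gen t y) (α β : K) (hab : ¬ (α = 0 ∧ β = 0)) (i j : Fin 12)
    (hi : i ≠ 0) (hj : j ≠ 0) (hij : i ≠ j)
    (h1 : eval (pt t y i) (lin (pt t y 0) α β) = 0)
    (h2 : eval (pt t y j) (lin (pt t y 0) α β) = 0) : False := by
  have h3 : lin (pt t y 0) α β = 0 := by
    refine eq_zero hS hR hO t y hg 1 1
      (fun k => if k = 0 ∨ k = i ∨ k = j then (1 : ℤ) else 0) (fun k => ?_) ?_ _
      (lin_mem _ _ _) (fun k hk => ?_)
    · by_cases h : k = 0 ∨ k = i ∨ k = j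
      · exact Or.inr (if_pos h)
      · exact Or.inl (if_neg h)
    · have h3 : Module.finrank K (PD K 1 1) = 3 := by
        have := rank_PD (K := K) hR 1 1 3 le_rfl (by norm_num)
        exact_mod_cast this
      rw [h3, sum3 i j hi hj hij]
      norm_num
    · have hk' : k = 0 ∨ k = i ∨ k = j := by
        by_contra h
        rw [if_neg h] at hk
        exact absurd hk (by norm_num)
      rcases hk' with rfl | rfl | rfl
      · rw [eval_lin]; ring
      · exact h1
      · exact h2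
  have h4 := pd0_lin (pt t y 0) α β
  have h5 := pd1_lin (pt t y 0) α β
  rw [h3, map_zero] at h4 h5
  refine hab ⟨?_, ?_⟩
  · exact (C_eq_zero).1 h4.symm
  · exact (C_eq_zero).1 h5.symm

theorem key (hS : S_Simple) (hB : S_PDBasic) (hR : S_PDRank) (hO : S_OrdBasic) [CharZero K]
    (t y : Fin 12 → K) (hg : Gen t y) (φ : Fin 12 → Fin 3 → K)
    (hφ : ∀ F ∈ PD K 8 4, jf t y φ F = 0) (h0 : φ 0 ≠ 0) (ρ : MvPolynomial (Fin 2) K)
    (hρ : ρ ∈ PD K 4 2) (hρi : ∀ i, i ≠ 0 → eval (pt t y i) ρ = 0)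
    (hρ0 : eval (pt t y 0) ρ ≠ 0) (α β : K)
    (hW : ∀ i, φ i 1 * eval (pt t y i) (pderiv 0 (lin (pt t y 0) α β * ρ)) +
      φ i 2 * eval (pt t y i) (pderiv 1 (lin (pt t y 0) α β * ρ)) = 0) : α = 0 ∧ β = 0 := by
  by_contra hab
  -- the exceptional index
  obtain ⟨i₁, hi₁, hex⟩ : ∃ i₁ : Fin 12, i₁ ≠ 0 ∧
      ∀ i, i ≠ 0 → i ≠ i₁ → eval (pt t y i) (lin (pt t y 0) α β) ≠ 0 := by
    by_cases h : ∃ i : Fin 12, i ≠ 0 ∧ eval (pt t y i) (lin (pt t y 0) α β) = 0
    · obtain ⟨i₁, hi₁, h1⟩ := h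
      exact ⟨i₁, hi₁, fun i hi hii h2 =>
        line hS hR hO t y hg α β hab i i₁ hi hi₁ hii h2 h1⟩
    · push Not at h
      exact ⟨1, by decide, fun i hi _ => h i hi⟩
  have hc : ∀ i, i ≠ 0 → i ≠ i₁ → φ i 1 * eval (pt t y i) (pderiv 0 ρ) +
      φ i 2 * eval (pt t y i) (pderiv 1 ρ) = 0 := by
    intro i hi hii
    have h1 := hW i
    rw [pder, pder, hρi i hi] at h1
    have h2 : eval (pt t y i) (lin (pt t y 0) α β) *
        (φ i 1 * eval (pt t y i) (pderiv 0 ρ) + φ i 2 * eval (pt t y i) (pderiv 1 ρ)) = 0 := by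
      linear_combination h1
    exact (mul_eq_zero.1 h2).resolve_left (hex i hi hii)
  -- the identity
  have hid : ∀ u ∈ PD K 4 2,
      (φ i₁ 1 * eval (pt t y i₁) (pderiv 0 ρ) + φ i₁ 2 * eval (pt t y i₁) (pderiv 1 ρ)) *
        eval (pt t y i₁) u +
      (eval (pt t y 0) ρ * (φ 0 1 * eval (pt t y 0) (pderiv 0 u) +
        φ 0 2 * eval (pt t y 0) (pderiv 1 u)) +
      (φ 0 0 * eval (pt t y 0) ρ + φ 0 1 * eval (pt t y 0) (pderiv 0 ρ) +
        φ 0 2 * eval (pt t y 0) (pderiv 1 ρ)) * eval (pt t y 0) u) = 0 := by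
    intro u hu
    have h1 : ρ * u ∈ PD K 8 4 := by
      have := (hB K).2.1 ρ u 4 2 4 2 hρ hu
      norm_num at this
      exact this
    have h2 := hφ _ h1
    unfold jf at h2
    rw [← Finset.add_sum_erase _ _ (Finset.mem_univ (0 : Fin 12)),
      ← Finset.add_sum_erase _ _ (Finset.mem_erase.2 ⟨hi₁, Finset.mem_univ i₁⟩)] at h2
    rw [Finset.sum_eq_zero (s := (Finset.univ.erase (0 : Fin 12)).erase i₁)] at h2
    · simp only [pder, map_mul] at h2
      rw [hρi i₁ hi₁] at h2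
      linear_combination h2
    · intro i hi
      rw [Finset.mem_erase, Finset.mem_erase] at hi
      simp only [pder, map_mul]
      rw [hρi i hi.2.1]
      have := hc i hi.2.1 hi.1
      linear_combination eval (pt t y i) u * this
  -- the points `q_0`, `q_{i₁}` have different first coordinates
  have ht : t 0 - t i₁ ≠ 0 := by
    have hinj : Function.Injective (Sum.elim t y) := hg.injective
    intro h
    have : (Sum.inl 0 : Fin 12 ⊕ Fin 12) = Sum.inl i₁ := hinj (by simpa using sub_eq_zero.1 h)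
    exact hi₁ (Sum.inl.inj this).symm
  have hpt0 : ∀ i, pt t y i 0 = t i := fun i => rfl
  have hev1 : eval (pt t y i₁) (lin (pt t y i₁) 1 0) = 0 := by
    rw [eval_lin]; ring
  have hev2 : eval (pt t y 0) (lin (pt t y i₁) 1 0) = t 0 - t i₁ := by
    rw [eval_lin, hpt0, hpt0]; ring
  have hab' : ∀ a b : K, φ 0 1 * a + φ 0 2 * b = 0 := by
    intro a b
    have hu : lin (pt t y 0) a b * lin (pt t y i₁) 1 0 ∈ PD K 4 2 := by
      have := (hB K).2.1 _ _ 1 1 1 1 (lin_mem (pt t y 0) a b) (lin_mem (pt t y i₁) 1 0)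
      exact PD_mono (by norm_num) (by norm_num) this
    have h1 := hid _ hu
    have h2 : eval (pt t y 0) (lin (pt t y 0) a b) = 0 := by
      rw [eval_lin]; ring
    simp only [pder, map_mul, pd0_lin, pd1_lin, hev1, hev2, h2, eval_C] at h1
    have h3 : (eval (pt t y 0) ρ * (t 0 - t i₁)) * (φ 0 1 * a + φ 0 2 * b) = 0 := by
      linear_combination h1
    exact (mul_eq_zero.1 h3).resolve_left (mul_ne_zero hρ0 ht)
  have h01 : φ 0 1 = 0 := by simpa using hab' 1 0
  have h02 : φ 0 2 = 0 := by simpa using hab' 0 1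
  have h00 : φ 0 0 = 0 := by
    have h1 := hid _ (PD_mono (by norm_num) (by norm_num) (lin_mem (pt t y i₁) 1 0))
    rw [hev1, hev2, h01, h02] at h1
    have h3 : (eval (pt t y 0) ρ * (t 0 - t i₁)) * φ 0 0 = 0 := by
      linear_combination h1
    exact (mul_eq_zero.1 h3).resolve_left (mul_ne_zero hρ0 ht)
  refine h0 (funext fun j => ?_)
  fin_cases j
  · exact h00
  · exact h01
  · exact h02

/-- the map `(α, β) ↦ (α (X 0 - t₀) + β (X 1 - y₀)) ρ` -/
noncomputable def mulMap (q : Fin 2 → K) (ρ : MvPolynomial (Fin 2) K) :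
    (K × K) →ₗ[K] MvPolynomial (Fin 2) K where
  toFun v := lin q v.1 v.2 * ρ
  map_add' v w := by
    simp only [lin, Prod.fst_add, Prod.snd_add, C_add]
    ring
  map_smul' c v := by
    simp only [lin, Prod.smul_fst, Prod.smul_snd, smul_eq_mul, C_mul, RingHom.id_apply]
    rw [← C_mul']
    ring

theorem exists_rho (hS : S_Simple) (hR : S_PDRank) (hO : S_OrdBasic) [CharZero K]
    (t y : Fin 12 → K) (hg : Gen t y) : ∃ ρ ∈ PD K 4 2,
      (∀ i, i ≠ 0 → eval (pt t y i) ρ = 0) ∧ eval (pt t y 0) ρ ≠ 0 := by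
  have hfd := (hR K).1 4 2
  have hrk : Module.finrank K (PD K 4 2) = 12 := by
    have := rank_PD (K := K) hR 4 2 12 (by norm_num) (by norm_num)
    exact_mod_cast this
  let T : PD K 4 2 →ₗ[K] (Fin 11 → K) :=
    (LinearMap.pi fun k : Fin 11 => (aeval (R := K) (pt t y k.succ)).toLinearMap) ∘ₗ
      (PD K 4 2).subtype
  have hker : LinearMap.ker T ≠ ⊥ := by
    refine LinearMap.ker_ne_bot_of_finrank_lt ?_
    rw [hrk, Module.finrank_fin_fun]
    norm_num
  obtain ⟨ρ, hρk, hρ0⟩ := (Submodule.ne_bot_iff _).1 hker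
  have hz : ∀ i, i ≠ 0 → eval (pt t y i) (ρ : MvPolynomial (Fin 2) K) = 0 := by
    intro i hi
    obtain ⟨k, rfl⟩ := Fin.exists_succ_eq.2 hi
    have := congrFun (LinearMap.mem_ker.1 hρk) k
    simpa [T, coe_aeval_eq_eval] using this
  refine ⟨ρ, ρ.2, hz, fun h => hρ0 ?_⟩
  have := eq_zero hS hR hO t y hg 4 2 (fun _ => 1) (fun _ => Or.inr rfl)
    (by rw [hrk]; simp) (ρ : MvPolynomial (Fin 2) K) ρ.2 (fun i _ => by
      by_cases hi : i = 0
      · rw [hi]; exact h
      · exact hz i hi)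
  exact Subtype.ext this

end T6WAux

open T6WAux

theorem T6W (hS : S_Simple) (hB : S_PDBasic) (hR : S_PDRank) (hO : S_OrdBasic) : S_T6W := by
  intro K _ _ t y hg φ hφ h0 W hW
  obtain ⟨ρ, hρ, hρi, hρ0⟩ := exists_rho hS hR hO t y hg
  set A := HH (pt t y) 5 3 (fun _ : Fin 12 => (1 : ℤ)) with hA
  have hfA : FiniteDimensional K A := HH_fin hR _ _ _ _
  have hmemA : ∀ R ∈ PD K 5 3, (∀ i, eval (pt t y i) R = 0) → R ∈ A := fun R h1 h2 =>
    mem_HH hO _ _ _ _ (fun _ => Or.inr rfl) R h1 fun i _ => h2 i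
  have hWA : W ≤ A := fun R hR' => hmemA R (hW R hR').1 fun i => ((hW R hR').2 i).1
  have hfW : FiniteDimensional K W := Submodule.finiteDimensional_of_le hWA
  have hrA : Module.finrank K A ≤ 6 := by
    have h1 := hS K 12 t y hg 5 3 (fun _ => 1) (fun _ => Or.inr rfl)
    have h2 : Module.finrank K (PD K 5 3) = 18 := by
      have := rank_PD (K := K) hR 5 3 18 (by norm_num) (by norm_num)
      exact_mod_cast this
    rw [h2] at h1
    norm_num at h1
    exact_mod_cast h1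
  let f : (W × (K × K)) →ₗ[K] MvPolynomial (Fin 2) K :=
    W.subtype.coprod (mulMap (pt t y 0) ρ)
  have hfapp : ∀ v, f v = (v.1 : MvPolynomial (Fin 2) K) + lin (pt t y 0) v.2.1 v.2.2 * ρ := by
    intro v
    rfl
  have hfA' : ∀ v, f v ∈ A := by
    intro v
    rw [hfapp]
    refine Submodule.add_mem _ (hWA v.1.2) (hmemA _ ?_ fun i => ?_)
    · have := (hB K).2.1 _ _ 1 1 4 2 (lin_mem (pt t y 0) v.2.1 v.2.2) hρ
      exact PD_mono (by norm_num) (by norm_num) this
    · rw [map_mul]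
      by_cases hi : i = 0
      · rw [hi, eval_lin]; ring
      · rw [hρi i hi, mul_zero]
  have hinj : Function.Injective (f.codRestrict A hfA') := by
    rw [← LinearMap.ker_eq_bot, LinearMap.ker_codRestrict, LinearMap.ker_eq_bot']
    intro v hv
    rw [hfapp] at hv
    have h1 : lin (pt t y 0) v.2.1 v.2.2 * ρ ∈ W := by
      have : lin (pt t y 0) v.2.1 v.2.2 * ρ = -(v.1 : MvPolynomial (Fin 2) K) := by
        linear_combination hv
      rw [this]
      exact Submodule.neg_mem _ v.1.2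
    have h2 := key hS hB hR hO t y hg φ hφ h0 ρ hρ hρi hρ0 v.2.1 v.2.2
      (fun i => ((hW _ h1).2 i).2)
    have h3 : (v.1 : MvPolynomial (Fin 2) K) = 0 := by
      rw [h2.1, h2.2] at hv
      simpa [lin] using hv
    refine Prod.ext (Subtype.ext h3) (Prod.ext h2.1 h2.2)
  have h1 := LinearMap.finrank_le_finrank_of_injective hinj
  rw [Module.finrank_prod, Module.finrank_prod, Module.finrank_self] at h1
  omega

end Pool.Agent.MP5769ea
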