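import Pool.Agent.Lib.MP_5769ea_ag.Spec1

/-!
# Wro: generic points impose independent conditions (with multiplicities) on a finite-dimensional
space of polynomials in one variable defined over the rational numbers

One point: a space of polynomials has a family with distinct degrees, the matrix of the Hasse
derivatives of such a family is invertible at some point (leading coefficients, Vandermonde).
Several points, over the rational numbers: induction. Generic points: the determinant is a nonzero
polynomial in the coordinates of the points.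
-/

set_option autoImplicit false
set_option linter.unusedSectionVars false

namespace Pool.Agent.MP5769ea.WroAux

open Polynomial

section one

variable {k : Type} [Field k]

theorem dvd_iff (a : k) (n : ℕ) (f : k[X]) :
    (X - C a) ^ n ∣ f ↔ ∀ j < n, (hasseDeriv j f).eval a = 0 := by
  rw [X_sub_C_pow_dvd_iff, X_pow_dvd_iff]
  simp only [← taylor_apply, taylor_coeff]

/-- the top coefficient of a product -/
theorem coeff_prod_le {ι : Type} (s : Finset ι) (f : ι → k[X]) (n : ι → ℕ)
    (h : ∀ i ∈ s, (f i).natDegree ≤ n i) :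
    (∏ i ∈ s, f i).natDegree ≤ ∑ i ∈ s, n i ∧
      (∏ i ∈ s, f i).coeff (∑ i ∈ s, n i) = ∏ i ∈ s, (f i).coeff (n i) := by
  classical
  induction s using Finset.induction_on with
  | empty => simp
  | insert a s ha ih =>
    obtain ⟨h1, h2⟩ := ih fun i hi => h i (Finset.mem_insert_of_mem hi)
    have h3 := h a (Finset.mem_insert_self a s)
    rw [Finset.prod_insert ha, Finset.sum_insert ha, Finset.prod_insert ha]
    refine ⟨natDegree_mul_le.trans (Nat.add_le_add h3 h1), ?_⟩
    rw [coeff_mul_add_eq_of_natDegree_le h3 h1, h2]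

/-- the top coefficient of a determinant -/
theorem coeff_det {u : ℕ} (M : Matrix (Fin u) (Fin u) k[X]) (n : Fin u → ℕ)
    (h : ∀ i j, (M i j).natDegree ≤ n j) :
    M.det.coeff (∑ j, n j) = (Matrix.of fun i j => (M i j).coeff (n j)).det := by
  rw [Matrix.det_apply', Matrix.det_apply', finsetSum_coeff]
  refine Finset.sum_congr rfl fun σ _ => ?_
  rw [coeff_intCast_mul, (coeff_prod_le Finset.univ _ n fun i _ => h (σ i) i).2]
  rfl

theorem det_choose_ne [CharZero k] {u : ℕ} (n : Fin u → ℕ) (hn : Function.Injective n) :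
    (Matrix.of fun i j : Fin u => ((n i).choose (j : ℕ) : k)).det ≠ 0 := by
  intro h0
  have h1 := Matrix.det_eval_matrixOfPolynomials_eq_det_vandermonde (fun i => (n i : k))
      (fun i : Fin u => descPochhammer k i) (fun i => descPochhammer_natDegree k i)
      (fun i => monic_descPochhammer k i)
  have h2 : (Matrix.vandermonde fun i => (n i : k)).det ≠ 0 :=
    Matrix.det_vandermonde_ne_zero_iff.2 fun a b hab => hn (Nat.cast_injective hab)
  apply h2
  rw [h1]
  have h3 : (Matrix.of fun i j : Fin u => (descPochhammer k j).eval (n i : k)) =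
      Matrix.of fun (i j : Fin u) => ((Nat.factorial (j : ℕ) : ℕ) : k) *
        (Matrix.of fun i j : Fin u => ((n i).choose (j : ℕ) : k)) i j := by
    ext i j
    rw [Matrix.of_apply, Matrix.of_apply, Matrix.of_apply, descPochhammer_eval_eq_descFactorial,
      Nat.descFactorial_eq_factorial_mul_choose, Nat.cast_mul]
  rw [h3, Matrix.det_mul_row, h0, mul_zero]

/-- polynomials with distinct degrees: the matrix of derivatives is invertible somewhere -/
theorem exists_point [CharZero k] {u : ℕ} (f : Fin u → k[X]) (h0 : ∀ l, f l ≠ 0)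
    (hinj : Function.Injective fun l => (f l).natDegree) :
    ∃ a : k, (Matrix.of fun j l : Fin u => (hasseDeriv (j : ℕ) (f l)).eval a).det ≠ 0 := by
  set M : Matrix (Fin u) (Fin u) k[X] :=
    Matrix.of fun j l => X ^ (j : ℕ) * hasseDeriv (j : ℕ) (f l) with hMdef
  have hcoef : ∀ (j l : Fin u) (m : ℕ), (M j l).coeff m = (m.choose (j : ℕ) : k) * (f l).coeff m := by
    intro j l m
    rw [hMdef, Matrix.of_apply, coeff_X_pow_mul', hasseDeriv_coeff]
    split_ifs with h
    · rw [Nat.sub_add_cancel h]
    · rw [Nat.choose_eq_zero_of_lt (not_le.1 h), Nat.cast_zero, zero_mul]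
  have hdeg : ∀ j l, (M j l).natDegree ≤ (f l).natDegree := by
    intro j l
    rw [natDegree_le_iff_coeff_eq_zero]
    intro m hm
    rw [hcoef, coeff_eq_zero_of_natDegree_lt hm, mul_zero]
  have hdet : M.det.coeff (∑ l, (f l).natDegree) ≠ 0 := by
    rw [coeff_det M _ hdeg]
    have h1 : (Matrix.of fun j l => (M j l).coeff (f l).natDegree) =
        Matrix.of fun j l => (f l).leadingCoeff *
          ((Matrix.of fun i j : Fin u => (((f i).natDegree).choose (j : ℕ) : k)).transpose) j l := by
      ext j l
      rw [Matrix.of_apply, Matrix.of_apply, hcoef, Matrix.transpose_apply, Matrix.of_apply,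
        mul_comm]
      rfl
    rw [h1, Matrix.det_mul_row, Matrix.det_transpose]
    exact mul_ne_zero (Finset.prod_ne_zero_iff.2 fun l _ => leadingCoeff_ne_zero.2 (h0 l))
      (det_choose_ne _ hinj)
  have hM : M.det ≠ 0 := fun h => hdet (by rw [h, coeff_zero])
  obtain ⟨a, ha⟩ : ∃ a, M.det.eval a ≠ 0 := by
    by_contra hcon
    push Not at hcon
    exact hM (Polynomial.funext fun a => by rw [hcon a, eval_zero])
  refine ⟨a, fun h => ha ?_⟩
  have h2 : M.det.eval a = (∏ j : Fin u, a ^ (j : ℕ)) *
      (Matrix.of fun j l : Fin u => (hasseDeriv (j : ℕ) (f l)).eval a).det := by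
    rw [← Matrix.det_mul_column, ← coe_evalRingHom, RingHom.map_det]
    congr 1
    ext j l
    simp [hMdef]
  rw [h2, h, mul_zero]

/-- a space of polynomials contains a family with distinct degrees -/
theorem exists_degrees (D : ℕ) : ∀ (U : Submodule k k[X]), U ≤ degreeLT k D →
    ∃ f : Fin (Module.finrank k U) → k[X], (∀ l, f l ∈ U) ∧ (∀ l, f l ≠ 0) ∧
      Function.Injective fun l => (f l).natDegree := by
  induction D with
  | zero =>
    intro U hU
    have h0 : U = ⊥ := by
      rw [eq_bot_iff]
      intro f hf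
      have h1 := mem_degreeLT.1 (hU hf)
      rw [Submodule.mem_bot]
      by_contra hne
      rw [degree_eq_natDegree hne] at h1
      exact absurd h1 (by simp)
    have h1 : Module.finrank k U = 0 := by rw [h0, finrank_bot]
    exact ⟨fun l => absurd l.2 (by omega), fun l => absurd l.2 (by omega),
      fun l => absurd l.2 (by omega), fun l => absurd l.2 (by omega)⟩
  | succ D ih =>
    intro U hU
    by_cases hU' : U ≤ degreeLT k D
    · exact ih U hU'
    obtain ⟨g, hgU, hgD⟩ : ∃ g ∈ U, g ∉ degreeLT k D := by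
      by_contra hcon
      push Not at hcon
      exact hU' fun f hf => hcon f hf
    have hg0 : g ≠ 0 := by
      rintro rfl
      exact hgD (Submodule.zero_mem _)
    have hgdeg : g.natDegree = D := by
      have h1 := mem_degreeLT.1 (hU hgU)
      have h2 : ¬ g.degree < (D : WithBot ℕ) := fun h => hgD (mem_degreeLT.2 h)
      rw [degree_eq_natDegree hg0] at h1 h2
      have h3 : g.natDegree < D + 1 := by exact_mod_cast h1
      have h4 : ¬ g.natDegree < D := by exact_mod_cast h2
      omega
    obtain ⟨f', hf'U, hf'0, hf'i⟩ := ih (U ⊓ degreeLT k D) inf_le_right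
    have hfin : FiniteDimensional k (degreeLT k (D + 1)) :=
      Module.Finite.equiv (degreeLTEquiv k (D + 1)).symm
    have hfinU : FiniteDimensional k U := Submodule.finiteDimensional_of_le hU
    have hle : Module.finrank k U ≤ Module.finrank k (U ⊓ degreeLT k D : Submodule k k[X]) + 1 := by
      set φ : U →ₗ[k] k := (lcoeff k D).comp U.subtype with hφ
      have h1 := φ.finrank_range_add_finrank_ker
      have h2 : Module.finrank k (LinearMap.range φ) ≤ 1 :=
        (Submodule.finrank_le _).trans (by rw [Module.finrank_self])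
      have h3 : Module.finrank k (LinearMap.ker φ) ≤
          Module.finrank k (U ⊓ degreeLT k D : Submodule k k[X]) := by
        rw [← Submodule.finrank_map_subtype_eq U (LinearMap.ker φ)]
        apply Submodule.finrank_mono
        intro f hf
        obtain ⟨y, hy, rfl⟩ := Submodule.mem_map.1 hf
        refine ⟨y.2, ?_⟩
        have h4 : (y : k[X]).coeff D = 0 := hy
        show (y : k[X]) ∈ degreeLT k D
        rw [mem_degreeLT]
        by_cases hy0 : (y : k[X]) = 0
        · rw [hy0, degree_zero]
          exact WithBot.bot_lt_coe _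
        · have h5 := mem_degreeLT.1 (hU y.2)
          rw [degree_eq_natDegree hy0] at h5 ⊢
          have h6 : (y : k[X]).natDegree < D + 1 := by exact_mod_cast h5
          have h7 : (y : k[X]).natDegree ≠ D := by
            intro h8
            rw [← h8] at h4
            exact hy0 (leadingCoeff_eq_zero.1 h4)
          exact_mod_cast (by omega : (y : k[X]).natDegree < D)
      omega
    have hf'D : ∀ l, (f' l).natDegree < D := by
      intro l
      have h1 := mem_degreeLT.1 (hf'U l).2
      rw [degree_eq_natDegree (hf'0 l)] at h1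
      exact_mod_cast h1
    refine ⟨fun l => if h : (l : ℕ) < Module.finrank k (U ⊓ degreeLT k D : Submodule k k[X])
      then f' ⟨l, h⟩ else g, ?_, ?_, ?_⟩
    · intro l
      dsimp only
      split_ifs with h
      · exact (hf'U _).1
      · exact hgU
    · intro l
      dsimp only
      split_ifs with h
      · exact hf'0 _
      · exact hg0
    · intro l m hlm
      dsimp only at hlm
      have hl := l.2
      have hm := m.2
      by_cases h1 : (l : ℕ) < Module.finrank k (U ⊓ degreeLT k D : Submodule k k[X])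
      · by_cases h2 : (m : ℕ) < Module.finrank k (U ⊓ degreeLT k D : Submodule k k[X])
        · rw [dif_pos h1, dif_pos h2] at hlm
          have h3 := hf'i hlm
          exact Fin.ext (Fin.mk.inj_iff.1 h3)
        · rw [dif_pos h1, dif_neg h2, hgdeg] at hlm
          have := hf'D ⟨l, h1⟩
          omega
      · by_cases h2 : (m : ℕ) < Module.finrank k (U ⊓ degreeLT k D : Submodule k k[X])
        · rw [dif_neg h1, dif_pos h2, hgdeg] at hlm
          have := hf'D ⟨m, h2⟩
          omega
        · exact Fin.ext (by omega)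

/-- one point -/
theorem one_point [CharZero k] (U : Submodule k k[X]) [FiniteDimensional k U] (g : ℕ) :
    ∃ a : k, ∀ W : Submodule k k[X], W ≤ U → (∀ f ∈ W, (X - C a) ^ g ∣ f) →
      Module.finrank k W ≤ Module.finrank k U - g := by
  obtain ⟨D, hD⟩ : ∃ D, U ≤ degreeLT k D := by
    obtain ⟨S, hS⟩ : U.FG := Module.Finite.iff_fg.1 inferInstance
    refine ⟨S.sup natDegree + 1, ?_⟩
    rw [← hS, Submodule.span_le]
    intro f hf
    show f ∈ degreeLT k _
    rw [mem_degreeLT]
    refine degree_le_natDegree.trans_lt ?_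
    have h1 : f.natDegree ≤ S.sup natDegree := Finset.le_sup (f := natDegree) hf
    exact_mod_cast (by omega : f.natDegree < S.sup natDegree + 1)
  obtain ⟨f, hfU, hf0, hfi⟩ := exists_degrees D U hD
  obtain ⟨a, ha⟩ := exists_point f hf0 hfi
  refine ⟨a, fun W hWU hW => ?_⟩
  set M : Matrix (Fin (Module.finrank k U)) (Fin (Module.finrank k U)) k :=
    Matrix.of fun j l : Fin (Module.finrank k U) => (hasseDeriv (j : ℕ) (f l)).eval a with hM
  let Θ : U →ₗ[k] (Fin (Module.finrank k U) → k) :=
    LinearMap.pi fun j => (leval a).comp ((hasseDeriv (j : ℕ)).comp U.subtype)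
  have hΘ : ∀ (y : U) (j : Fin (Module.finrank k U)), Θ y j = (hasseDeriv (j : ℕ) (y : k[X])).eval a :=
    fun y j => rfl
  have hsurj : Function.Surjective Θ := by
    intro y
    have hunit : IsUnit M.det := Ne.isUnit ha
    refine ⟨∑ l, (M⁻¹.mulVec y) l • (⟨f l, hfU l⟩ : U), ?_⟩
    have h1 : M.mulVec (M⁻¹.mulVec y) = y := by
      rw [Matrix.mulVec_mulVec, Matrix.mul_nonsing_inv M hunit, Matrix.one_mulVec]
    rw [map_sum]
    conv_rhs => rw [← h1]
    funext j
    rw [Finset.sum_apply, Matrix.mulVec, dotProduct]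
    refine Finset.sum_congr rfl fun l _ => ?_
    rw [map_smul, Pi.smul_apply, hΘ, smul_eq_mul, mul_comm]
    rfl
  have hinj : Function.Injective Θ :=
    (LinearMap.injective_iff_surjective_of_finrank_eq_finrank
      (by rw [Module.finrank_fin_fun])).2 hsurj
  let Λ : W →ₗ[k] (Fin (Module.finrank k U - g) → k) :=
    LinearMap.pi fun j => (leval a).comp ((hasseDeriv (g + (j : ℕ))).comp W.subtype)
  have hΛ : ∀ (y : W) (j : Fin (Module.finrank k U - g)), Λ y j = (hasseDeriv (g + (j : ℕ)) (y : k[X])).eval a :=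
    fun y j => rfl
  have hΛinj : Function.Injective Λ := by
    rw [← LinearMap.ker_eq_bot, LinearMap.ker_eq_bot']
    intro y hy
    have h1 : Θ ⟨y, hWU y.2⟩ = 0 := by
      funext j
      rw [hΘ, Pi.zero_apply]
      by_cases hj : (j : ℕ) < g
      · exact (dvd_iff a g _).1 (hW y y.2) j hj
      · have h2 := congrFun hy ⟨(j : ℕ) - g, by have := j.2; omega⟩
        rw [hΛ, Pi.zero_apply] at h2
        have h3 : g + ((j : ℕ) - g) = j := by omega
        simp only [h3] at h2
        exact h2
    have h2 : (⟨y, hWU y.2⟩ : U) = 0 := hinj (by rw [h1, map_zero])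
    have h4 := congrArg (fun x : U => (x : k[X])) h2
    apply Subtype.ext
    exact h4
  have h3 := LinearMap.finrank_le_finrank_of_injective hΛinj
  rwa [Module.finrank_fin_fun] at h3

/-- several points -/
theorem many_points [CharZero k] (N : ℕ) : ∀ (G : Fin N → ℕ) (U : Submodule k k[X])
    (_ : FiniteDimensional k U), ∃ a : Fin N → k, ∀ W : Submodule k k[X], W ≤ U →
      (∀ f ∈ W, ∀ i, (X - C (a i)) ^ (G i) ∣ f) →
      Module.finrank k W ≤ Module.finrank k U - ∑ i, G i := by
  induction N with
  | zero =>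
    intro G U _
    refine ⟨fun i => i.elim0, fun W hW _ => ?_⟩
    rw [Finset.univ_eq_empty, Finset.sum_empty, Nat.sub_zero]
    exact Submodule.finrank_mono hW
  | succ N ih =>
    intro G U hfin
    obtain ⟨a0, ha0⟩ := one_point U (G 0)
    let U' : Submodule k k[X] :=
      U ⊓ (Ideal.span {(X - C a0) ^ (G 0)}).restrictScalars k
    have hU' : ∀ f ∈ U', (X - C a0) ^ (G 0) ∣ f := fun f hf =>
      Ideal.mem_span_singleton.1 hf.2
    obtain ⟨a', ha'⟩ := ih (fun i => G i.succ) U' inferInstance
    refine ⟨Fin.cons a0 a', fun W hWU hW => ?_⟩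
    have h1 : W ≤ U' := by
      intro f hf
      refine ⟨hWU hf, ?_⟩
      have h2 := hW f hf 0
      rw [Fin.cons_zero] at h2
      exact Ideal.mem_span_singleton.2 h2
    have h2 := ha' W h1 fun f hf i => by
      have h3 := hW f hf i.succ
      rwa [Fin.cons_succ] at h3
    have h3 := ha0 U' inf_le_left hU'
    rw [Fin.sum_univ_succ]
    omega

end one

/-- decreasing the multiplicities -/
theorem exists_cut (N : ℕ) : ∀ (g : Fin N → ℕ) (w : ℕ), ∃ g' : Fin N → ℕ, (∀ i, g' i ≤ g i) ∧
    ∑ i, g' i = min w (∑ i, g i) := by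
  induction N with
  | zero =>
    intro g w
    exact ⟨g, fun i => i.elim0, by simp⟩
  | succ N ih =>
    intro g w
    obtain ⟨g', h1, h2⟩ := ih (fun i => g i.succ) (w - min w (g 0))
    refine ⟨Fin.cons (min w (g 0)) g', ?_, ?_⟩
    · intro i
      refine Fin.cases ?_ (fun j => ?_) i
      · rw [Fin.cons_zero]
        exact min_le_right _ _
      · rw [Fin.cons_succ]
        exact h1 j
    · rw [Fin.sum_univ_succ, Fin.sum_univ_succ, Fin.cons_zero]
      simp only [Fin.cons_succ]
      rw [h2]
      omega

end Pool.Agent.MP5769ea.WroAux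

namespace Pool.Agent.MP5769ea

open Polynomial WroAux

theorem Wro : S_Wro := by
  intro K _ _ N s hs V _ g W hdvd hspan
  classical
  obtain ⟨g', hg', hsum⟩ := exists_cut N g (Module.finrank ℚ V)
  set w := Module.finrank ℚ V with hw
  obtain ⟨r, hr⟩ : ∃ r, r = w - ∑ i, g' i := ⟨_, rfl⟩
  let G : Fin (N + 1) → ℕ := Fin.cons r g'
  have hG : ∑ i, G i = w := by
    rw [Fin.sum_univ_succ]
    simp only [G, Fin.cons_zero, Fin.cons_succ]
    have : ∑ i, g' i ≤ w := by rw [hsum]; exact min_le_left _ _
    omega
  obtain ⟨a, ha⟩ := many_points (N + 1) G V inferInstance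
  have hcard : Fintype.card (Σ i : Fin (N + 1), Fin (G i)) = w := by
    rw [Fintype.card_sigma]
    simp only [Fintype.card_fin]
    exact hG
  let b : Module.Basis (Σ i : Fin (N + 1), Fin (G i)) ℚ V :=
    (Module.finBasis ℚ V).reindex (Fintype.equivOfCardEq (by rw [Fintype.card_fin, hcard]))
  let p : Fin (N + 1) → MvPolynomial (Fin N) ℚ :=
    Fin.cons (MvPolynomial.C (a 0)) MvPolynomial.X
  let A : Matrix (Σ i : Fin (N + 1), Fin (G i)) (Σ i : Fin (N + 1), Fin (G i))
      (MvPolynomial (Fin N) ℚ) :=
    Matrix.of fun ij l =>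
      (taylor (p ij.1) ((b l : ℚ[X]).map MvPolynomial.C)).coeff (ij.2 : ℕ)
  -- the image of the matrix under a homomorphism
  have hmap : ∀ {L : Type} [Field L] [Algebra ℚ L] (φ : MvPolynomial (Fin N) ℚ →ₐ[ℚ] L)
      (ij l : Σ i : Fin (N + 1), Fin (G i)),
      (φ.toRingHom.mapMatrix A) ij l =
        (hasseDeriv (ij.2 : ℕ) ((b l : ℚ[X]).map (algebraMap ℚ L))).eval (φ (p ij.1)) := by
    intro L _ _ φ ij l
    have h1 : (φ.toRingHom.mapMatrix A) ij l = φ (A ij l) := rfl
    rw [h1]
    show φ ((taylor (p ij.1) ((b l : ℚ[X]).map MvPolynomial.C)).coeff (ij.2 : ℕ)) = _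
    have h2 : φ ((taylor (p ij.1) ((b l : ℚ[X]).map MvPolynomial.C)).coeff (ij.2 : ℕ)) =
        ((taylor (p ij.1) ((b l : ℚ[X]).map MvPolynomial.C)).map φ.toRingHom).coeff (ij.2 : ℕ) := by
      rw [coeff_map]
      rfl
    have h3 : φ.toRingHom.comp MvPolynomial.C = algebraMap ℚ L := Subsingleton.elim _ _
    rw [h2, map_taylor, taylor_coeff, map_map, h3]
    rfl
  -- the determinant at the rational points
  have hdet1 : A.det ≠ 0 := by
    intro h0
    let φ : MvPolynomial (Fin N) ℚ →ₐ[ℚ] ℚ := MvPolynomial.aeval fun i => a i.succ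
    have hφp : ∀ i, φ (p i) = a i := by
      intro i
      refine Fin.cases ?_ (fun j => ?_) i
      · simp [φ, p]
      · simp [φ, p]
    have h1 : (φ.toRingHom.mapMatrix A).det = 0 := by
      rw [← RingHom.map_det, h0, map_zero]
    obtain ⟨v, hv, hv0⟩ := Matrix.exists_mulVec_eq_zero_iff.2 h1
    set y : V := ∑ l, v l • b l with hy
    have hyne : y ≠ 0 := by
      intro h2
      apply hv
      funext l
      exact Fintype.linearIndependent_iff.1 b.linearIndependent v h2 l
    have hy0 : (y : ℚ[X]) ≠ 0 := fun h => hyne (Subtype.ext h)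
    have hyc : (y : ℚ[X]) = ∑ l, v l • (b l : ℚ[X]) := by
      rw [hy]
      simp
    have h3 := ha (Submodule.span ℚ {(y : ℚ[X])})
      (by rw [Submodule.span_singleton_le_iff_mem]; exact y.2) ?_
    · rw [finrank_span_singleton hy0, hG] at h3
      omega
    · intro f hf i
      obtain ⟨c, rfl⟩ := Submodule.mem_span_singleton.1 hf
      rw [smul_eq_C_mul]
      refine Dvd.dvd.mul_left ?_ _
      rw [dvd_iff]
      intro j hj
      have h4 := congrFun hv0 ⟨i, ⟨j, hj⟩⟩
      rw [Matrix.mulVec, dotProduct, Pi.zero_apply] at h4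
      rw [← h4, hyc, map_sum, eval_finsetSum]
      refine Finset.sum_congr rfl fun l _ => ?_
      rw [hmap φ, hφp, map_smul, eval_smul, smul_eq_mul, mul_comm]
      congr 2
      rw [Algebra.algebraMap_self, map_id]
  -- the determinant at the generic points
  let ψ : MvPolynomial (Fin N) ℚ →ₐ[ℚ] K := MvPolynomial.aeval s
  have hdet2 : (ψ.toRingHom.mapMatrix A).det ≠ 0 := by
    rw [← RingHom.map_det]
    intro h0
    apply hdet1
    apply hs
    show ψ A.det = ψ 0
    rw [map_zero]
    exact h0
  let Λ : W →ₗ[K] (Fin r → K) :=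
    LinearMap.pi fun j => (leval (algebraMap ℚ K (a 0))).comp
      ((hasseDeriv (j : ℕ)).comp W.subtype)
  have hΛ : ∀ (y : W) (j : Fin r), Λ y j =
      (hasseDeriv (j : ℕ) (y : K[X])).eval (algebraMap ℚ K (a 0)) := fun y j => rfl
  have hΛinj : Function.Injective Λ := by
    rw [← LinearMap.ker_eq_bot, LinearMap.ker_eq_bot']
    intro y hy
    have h1 : Submodule.span K (Polynomial.map (algebraMap ℚ K) '' (V : Set ℚ[X])) ≤
        Submodule.span K (Set.range fun l => (b l : ℚ[X]).map (algebraMap ℚ K)) := by
      rw [Submodule.span_le]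
      rintro _ ⟨v, hv, rfl⟩
      have h2 : v = ∑ l, b.repr ⟨v, hv⟩ l • (b l : ℚ[X]) := by
        have h3 := congrArg (fun x : V => (x : ℚ[X])) (b.sum_repr ⟨v, hv⟩)
        simp only [AddSubmonoidClass.coe_finsetSum, SetLike.val_smul] at h3
        exact h3.symm
      show Polynomial.map (algebraMap ℚ K) v ∈ _
      rw [h2, Polynomial.map_sum]
      refine Submodule.sum_mem _ fun l _ => ?_
      rw [smul_eq_C_mul, Polynomial.map_mul, map_C, ← smul_eq_C_mul]
      exact Submodule.smul_mem _ _ (Submodule.subset_span ⟨l, rfl⟩)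
    obtain ⟨c, hc⟩ := (Submodule.mem_span_range_iff_exists_fun K).1 (h1 (hspan y.2))
    have h2 : (ψ.toRingHom.mapMatrix A).mulVec c = 0 := by
      funext ij
      rw [Matrix.mulVec, dotProduct, Pi.zero_apply]
      have h3 : ∑ l, (ψ.toRingHom.mapMatrix A) ij l * c l =
          (hasseDeriv (ij.2 : ℕ) (y : K[X])).eval (ψ (p ij.1)) := by
        rw [← hc, map_sum, eval_finsetSum]
        refine Finset.sum_congr rfl fun l _ => ?_
        rw [hmap ψ, map_smul, eval_smul, smul_eq_mul, mul_comm]
      rw [h3]
      clear h3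
      obtain ⟨i, j⟩ := ij
      revert j
      refine Fin.cases ?_ (fun i' => ?_) i
      · intro j
        have h4 : ψ (p 0) = algebraMap ℚ K (a 0) := by simp [ψ, p]
        show (hasseDeriv (j : ℕ) (y : K[X])).eval (ψ (p 0)) = 0
        rw [h4]
        exact congrFun hy ⟨j, j.2⟩
      · intro j
        have h4 : ψ (p i'.succ) = s i' := by simp [ψ, p]
        show (hasseDeriv (j : ℕ) (y : K[X])).eval (ψ (p i'.succ)) = 0
        rw [h4]
        have h5 : (j : ℕ) < g' i' := j.2
        exact (dvd_iff (s i') (g i') _).1 (hdvd y y.2 i') j (lt_of_lt_of_le h5 (hg' i'))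
    have h3 : c = 0 := Matrix.eq_zero_of_mulVec_eq_zero hdet2 h2
    apply Subtype.ext
    rw [← hc, h3]
    simp
  have h3 := LinearMap.finrank_le_finrank_of_injective hΛinj
  rw [Module.finrank_fin_fun] at h3
  omega

end Pool.Agent.MP5769ea
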