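import Pool.Agent.Lib.MP_5769ea_ag.Approx
import Pool.Agent.Lib.MP_5769ea_ag.Asm1
import Pool.Agent.Lib.MP_5769ea_ag.Asm2
import Pool.Agent.Lib.MP_5769ea_ag.Asm3
import Pool.Agent.Lib.MP_5769ea_ag.Asm4
import Pool.Agent.Lib.MP_5769ea_ag.Bezout
import Pool.Agent.Lib.MP_5769ea_ag.BzGlobal
import Pool.Agent.Lib.MP_5769ea_ag.BzJets
import Pool.Agent.Lib.MP_5769ea_ag.BzLocal
import Pool.Agent.Lib.MP_5769ea_ag.Defs
import Pool.Agent.Lib.MP_5769ea_ag.Defs2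
import Pool.Agent.Lib.MP_5769ea_ag.Descend
import Pool.Agent.Lib.MP_5769ea_ag.DetForm
import Pool.Agent.Lib.MP_5769ea_ag.Dims
import Pool.Agent.Lib.MP_5769ea_ag.FFBasic
import Pool.Agent.Lib.MP_5769ea_ag.FFCount
import Pool.Agent.Lib.MP_5769ea_ag.FFExt
import Pool.Agent.Lib.MP_5769ea_ag.FFExtFin
import Pool.Agent.Lib.MP_5769ea_ag.FFProd
import Pool.Agent.Lib.MP_5769ea_ag.GaleBasic
import Pool.Agent.Lib.MP_5769ea_ag.GaleEx
import Pool.Agent.Lib.MP_5769ea_ag.GenBound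
import Pool.Agent.Lib.MP_5769ea_ag.GenPos
import Pool.Agent.Lib.MP_5769ea_ag.GenUp
import Pool.Agent.Lib.MP_5769ea_ag.Gpoly
import Pool.Agent.Lib.MP_5769ea_ag.H0Mul
import Pool.Agent.Lib.MP_5769ea_ag.Interp
import Pool.Agent.Lib.MP_5769ea_ag.IrrSp
import Pool.Agent.Lib.MP_5769ea_ag.Lift
import Pool.Agent.Lib.MP_5769ea_ag.LocIneq
import Pool.Agent.Lib.MP_5769ea_ag.MultV
import Pool.Agent.Lib.MP_5769ea_ag.NefJ
import Pool.Agent.Lib.MP_5769ea_ag.NonEff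
import Pool.Agent.Lib.MP_5769ea_ag.Num
import Pool.Agent.Lib.MP_5769ea_ag.OrdBasic
import Pool.Agent.Lib.MP_5769ea_ag.PDBasic
import Pool.Agent.Lib.MP_5769ea_ag.PDRank
import Pool.Agent.Lib.MP_5769ea_ag.PairBez
import Pool.Agent.Lib.MP_5769ea_ag.PairClosure
import Pool.Agent.Lib.MP_5769ea_ag.PairOf
import Pool.Agent.Lib.MP_5769ea_ag.PlaneLoc
import Pool.Agent.Lib.MP_5769ea_ag.PlaneNef
import Pool.Agent.Lib.MP_5769ea_ag.PsiW
import Pool.Agent.Lib.MP_5769ea_ag.QA1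
import Pool.Agent.Lib.MP_5769ea_ag.QA3
import Pool.Agent.Lib.MP_5769ea_ag.QKer
import Pool.Agent.Lib.MP_5769ea_ag.QNef
import Pool.Agent.Lib.MP_5769ea_ag.QStep
import Pool.Agent.Lib.MP_5769ea_ag.QT6
import Pool.Agent.Lib.MP_5769ea_ag.SecPos
import Pool.Agent.Lib.MP_5769ea_ag.SemiCont
import Pool.Agent.Lib.MP_5769ea_ag.SigBase
import Pool.Agent.Lib.MP_5769ea_ag.SigDim
import Pool.Agent.Lib.MP_5769ea_ag.SigLoc
import Pool.Agent.Lib.MP_5769ea_ag.SigPos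
import Pool.Agent.Lib.MP_5769ea_ag.SigSmall
import Pool.Agent.Lib.MP_5769ea_ag.Simple
import Pool.Agent.Lib.MP_5769ea_ag.Small0
import Pool.Agent.Lib.MP_5769ea_ag.Small1
import Pool.Agent.Lib.MP_5769ea_ag.Small2
import Pool.Agent.Lib.MP_5769ea_ag.Small3
import Pool.Agent.Lib.MP_5769ea_ag.Small4
import Pool.Agent.Lib.MP_5769ea_ag.SmallNot
import Pool.Agent.Lib.MP_5769ea_ag.Spec1
import Pool.Agent.Lib.MP_5769ea_ag.Spec2
import Pool.Agent.Lib.MP_5769ea_ag.Spec3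
import Pool.Agent.Lib.MP_5769ea_ag.Spec4
import Pool.Agent.Lib.MP_5769ea_ag.Spec5
import Pool.Agent.Lib.MP_5769ea_ag.Strict
import Pool.Agent.Lib.MP_5769ea_ag.T6
import Pool.Agent.Lib.MP_5769ea_ag.T6Def
import Pool.Agent.Lib.MP_5769ea_ag.T6Ex
import Pool.Agent.Lib.MP_5769ea_ag.T6Irr
import Pool.Agent.Lib.MP_5769ea_ag.T6Phi
import Pool.Agent.Lib.MP_5769ea_ag.T6Uni
import Pool.Agent.Lib.MP_5769ea_ag.T6W
import Pool.Agent.Lib.MP_5769ea_ag.VVRank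
import Pool.Agent.Lib.MP_5769ea_ag.Wro
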