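import Pool.Agent.Lib.MP_5769ea_ag.Spec5

open MvPolynomial Filter Topology

namespace Pool.Agent.MP5769ea

theorem Approx : S_Approx := by
  intro S hmem
  -- the open set
  let O : Set (ℝ × (Fin 13 → ℝ)) := {v | 0 < v.1 ∧ 10000 * |5 * v.2 0 - 3 * v.1| < v.1 ∧
    ∀ i : Fin 12, 10000 * |5 * v.2 i.succ - 4 * v.1| < v.1}
  have hO : IsOpen O := by
    have h0 : IsOpen {v : ℝ × (Fin 13 → ℝ) | 0 < v.1} := isOpen_lt continuous_const continuous_fst
    have h1 : IsOpen {v : ℝ × (Fin 13 → ℝ) | 10000 * |5 * v.2 0 - 3 * v.1| < v.1} := by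
      apply isOpen_lt _ continuous_fst
      fun_prop
    have h2 : ∀ i : Fin 12,
        IsOpen {v : ℝ × (Fin 13 → ℝ) | 10000 * |5 * v.2 i.succ - 4 * v.1| < v.1} := by
      intro i
      apply isOpen_lt _ continuous_fst
      fun_prop
    have e : O = {v : ℝ × (Fin 13 → ℝ) | 0 < v.1} ∩
        ({v | 10000 * |5 * v.2 0 - 3 * v.1| < v.1} ∩
        ⋂ i : Fin 12, {v | 10000 * |5 * v.2 i.succ - 4 * v.1| < v.1}) := by
      ext v
      simp [O]
    rw [e]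
    exact h0.inter (h1.inter (isOpen_iInter_of_finite h2))
  have hD : Dcl ∈ O := by
    refine ⟨by norm_num [Dcl], by norm_num [Dcl], fun i => ?_⟩
    simp only [Dcl, Fin.cons_succ]
    norm_num
  obtain ⟨v, hvO, hvS⟩ := mem_closure_iff.1 hmem O hO hD
  obtain ⟨k, f, g, hfg⟩ := (Submodule.mem_span_set' (R := NNReal)).1 hvS
  -- approximation
  let O' : Set (ℝ × (Fin 13 → ℝ)) := O ∩ {u | v.1 / 2 < u.1}
  have hO' : IsOpen O' := hO.inter (isOpen_lt continuous_const continuous_fst)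
  have hvO' : v ∈ O' := ⟨hvO, by have := hvO.1; simp only [Set.mem_setOf_eq]; linarith⟩
  let seq : ℕ → Fin k → ℝ := fun N j => (⌊(f j : ℝ) * N⌋₊ : ℝ) / N
  have hseq : Tendsto seq atTop (𝓝 fun j => (f j : ℝ)) := by
    rw [tendsto_pi_nhds]
    intro j
    exact (tendsto_nat_floor_mul_div_atTop (f j).2).comp tendsto_natCast_atTop_atTop
  let Φ : (Fin k → ℝ) → ℝ × (Fin 13 → ℝ) := fun r => ∑ j, r j • (g j : ℝ × (Fin 13 → ℝ))
  have hΦ : Continuous Φ := by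
    apply continuous_finset_sum
    intro j _
    exact (continuous_apply j).smul continuous_const
  have hΦf : Φ (fun j => (f j : ℝ)) = v := by
    rw [← hfg]; rfl
  have ht : Tendsto (fun N => Φ (seq N)) atTop (𝓝 v) := by
    rw [← hΦf]
    exact (hΦ.tendsto _).comp hseq
  have hev1 : ∀ᶠ N in atTop, Φ (seq N) ∈ O' := ht.eventually (hO'.mem_nhds hvO')
  have hev2 : ∀ᶠ N : ℕ in atTop, 2 / v.1 ≤ (N : ℝ) :=
    tendsto_natCast_atTop_atTop.eventually (eventually_ge_atTop _)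
  have hev3 : ∀ᶠ N : ℕ in atTop, 1 ≤ N := eventually_ge_atTop 1
  obtain ⟨N, ⟨⟨hN0, hN1, hN2⟩, hN3⟩, hN4, hN5⟩ := (hev1.and (hev2.and hev3)).exists
  have hNpos : (0 : ℝ) < N := by exact_mod_cast hN5
  refine ⟨k, fun j => g j, fun j => ⌊(f j : ℝ) * N⌋₊, fun j => (g j).2, ?_⟩
  have hsum : ∑ j, ⌊(f j : ℝ) * N⌋₊ • (g j : ℝ × (Fin 13 → ℝ)) = (N : ℝ) • Φ (seq N) := by
    simp only [Φ, seq]
    rw [Finset.smul_sum]
    refine Finset.sum_congr rfl fun j _ => ?_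
    rw [smul_smul, mul_div_cancel₀ _ hNpos.ne', Nat.cast_smul_eq_nsmul]
  rw [hsum]
  set u := Φ (seq N) with hu
  have hsc : ∀ (a q : ℝ), 10000 * |5 * a - q * u.1| < u.1 →
      10000 * |5 * ((N : ℝ) * a) - q * ((N : ℝ) * u.1)| ≤ (N : ℝ) * u.1 := by
    intro a q h
    have e : 5 * ((N : ℝ) * a) - q * ((N : ℝ) * u.1) = N * (5 * a - q * u.1) := by ring
    rw [e, abs_mul, abs_of_pos hNpos]
    calc 10000 * ((N : ℝ) * |5 * a - q * u.1|) = N * (10000 * |5 * a - q * u.1|) := by ring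
      _ ≤ N * u.1 := mul_le_mul_of_nonneg_left h.le hNpos.le
  simp only [Prod.smul_fst, Prod.smul_snd, Pi.smul_apply, smul_eq_mul]
  refine ⟨?_, hsc _ _ hN1, fun i => hsc _ _ (hN2 i)⟩
  have hv1 : 0 < v.1 := hvO.1
  have h1 : v.1 / 2 < u.1 := hN3
  have h2 : 2 ≤ (N : ℝ) * v.1 := by
    rwa [div_le_iff₀ hv1] at hN4
  nlinarith

end Pool.Agent.MP5769ea
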