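import Pool.Agent.Lib.MP_5769ea_ag.Defs

/-!
# MP_5769ea_ag, internal definitions (plane polynomials, forms on `P^9`)

The Gale dual of 13 general points of `P^9` consists of 13 general points `q_0, ..., q_12` of the
plane.  We choose coordinates in which `q_0` is the point at infinity of the vertical lines
(`q_0 = (0:0:1)`) and `q_{i+1} = (1 : t_i : y_i)`, `i : Fin 12`.  A plane curve of degree `d` with
multiplicity `≥ d - μ` at `q_0` is a polynomial in `(t, y)` of total degree `≤ d` and of degree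
`≤ μ` in `y`.
-/

open MvPolynomial

namespace Pool.Agent.MP5769ea

/-- polynomials in `(t, y) = (X 0, X 1)` of total degree `≤ d` and `y`-degree `≤ μ`
(integers, so that negative values give the zero space) -/
noncomputable def PD (K : Type) [Field K] (d μ : ℤ) : Submodule K (MvPolynomial (Fin 2) K) :=
  restrictSupport K {s | ((s 0 + s 1 : ℕ) : ℤ) ≤ d ∧ ((s 1 : ℕ) : ℤ) ≤ μ}

/-- `F ↦ F (q + ·)` -/
noncomputable def shift {K : Type} [Field K] (q : Fin 2 → K) :
    MvPolynomial (Fin 2) K →ₐ[K] MvPolynomial (Fin 2) K :=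
  aeval fun i => X i + C (q i)

/-- polynomials vanishing to order `≥ g` at `q` (no condition if `g ≤ 0`) -/
noncomputable def OrdGE {K : Type} [Field K] (q : Fin 2 → K) (g : ℤ) :
    Submodule K (MvPolynomial (Fin 2) K) :=
  (restrictSupport K {s | g ≤ ((s 0 + s 1 : ℕ) : ℤ)}).comap (shift q).toLinearMap

/-- `H(d, μ; g)`: polynomials in `PD d μ` with order `≥ g_i` at `q_i` -/
noncomputable def HH {K : Type} [Field K] {N : ℕ} (q : Fin N → Fin 2 → K) (d μ : ℤ)
    (g : Fin N → ℤ) : Submodule K (MvPolynomial (Fin 2) K) :=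
  PD K d μ ⊓ ⨅ i, OrdGE (q i) (g i)

/-- the points `(t_i, y_i)` -/
def pt {K : Type} {N : ℕ} (t y : Fin N → K) (i : Fin N) : Fin 2 → K := ![t i, y i]

/-- the points `(s_i^2, s_i^4 + s_i)` of the rational quartic `(y - t^2)^2 = t` -/
def sp {K : Type} [Field K] {N : ℕ} (s : Fin N → K) (i : Fin N) : Fin 2 → K :=
  ![s i ^ 2, s i ^ 4 + s i]

/-- generic points -/
def Gen {K : Type} [Field K] [CharZero K] {N : ℕ} (t y : Fin N → K) : Prop :=
  AlgebraicIndependent ℚ (Sum.elim t y)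

/-- the quartic `(y - t^2)^2 - t` -/
noncomputable def Qp (K : Type) [Field K] : MvPolynomial (Fin 2) K :=
  (X 1 - X 0 ^ 2) ^ 2 - X 0

/-- restriction to the quartic: `t ↦ s^2`, `y ↦ s^4 + s` -/
noncomputable def psi (K : Type) [Field K] : MvPolynomial (Fin 2) K →ₐ[K] Polynomial K :=
  aeval ![Polynomial.X ^ 2, Polynomial.X ^ 4 + Polynomial.X]

/-- the pairs `(P, R)` with `P ∈ PD (4m+6) (2m+1)`, `R ∈ PD (4m+5) (2m+1)`, `R` of order `≥ m` and
`P - x_i R` of order `≥ m + 1` at `q_i` (sections of the bundle `E_x` twisted by `m L_0 + 4 f`) -/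
noncomputable def VV {K : Type} [Field K] (t y x : Fin 12 → K) (m : ℕ) :
    Submodule K (MvPolynomial (Fin 2) K × MvPolynomial (Fin 2) K) where
  carrier := {p | p.1 ∈ PD K (4 * m + 6) (2 * m + 1) ∧ p.2 ∈ PD K (4 * m + 5) (2 * m + 1) ∧
    ∀ i, p.2 ∈ OrdGE (pt t y i) m ∧ p.1 - C (x i) * p.2 ∈ OrdGE (pt t y i) (m + 1)}
  add_mem' := by
    rintro a b ⟨ha1, ha2, ha3⟩ ⟨hb1, hb2, hb3⟩
    refine ⟨Submodule.add_mem _ ha1 hb1, Submodule.add_mem _ ha2 hb2, fun i =>
      ⟨Submodule.add_mem _ (ha3 i).1 (hb3 i).1, ?_⟩⟩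
    have := Submodule.add_mem _ (ha3 i).2 (hb3 i).2
    have e : (a + b).1 - C (x i) * (a + b).2 =
        a.1 - C (x i) * a.2 + (b.1 - C (x i) * b.2) := by
      simp only [Prod.fst_add, Prod.snd_add]; ring
    rw [e]; exact this
  zero_mem' := by
    refine ⟨Submodule.zero_mem _, Submodule.zero_mem _, fun i => ⟨Submodule.zero_mem _, ?_⟩⟩
    simp
  smul_mem' := by
    rintro c a ⟨ha1, ha2, ha3⟩
    refine ⟨Submodule.smul_mem _ _ ha1, Submodule.smul_mem _ _ ha2, fun i =>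
      ⟨Submodule.smul_mem _ _ (ha3 i).1, ?_⟩⟩
    have := Submodule.smul_mem _ c (ha3 i).2
    have e : (c • a).1 - C (x i) * (c • a).2 = c • (a.1 - C (x i) * a.2) := by
      simp only [Prod.smul_fst, Prod.smul_snd, smul_sub, mul_smul_comm]
    rw [e]; exact this

/-- a primitive pair of type `(c, κ; γ)` for `x` -/
structure PairType {K : Type} [Field K] (t y x : Fin 12 → K) (c κ : ℤ) (γ : Fin 12 → ℤ)
    (P R : MvPolynomial (Fin 2) K) : Prop where
  rel : IsRelPrime P R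
  hP : P ∈ PD K (c + 1) κ
  hR : R ∈ PD K c κ
  hκ : 0 ≤ κ
  hκc : κ ≤ c + 1
  hγ : ∀ i, -1 ≤ γ i
  hRo : ∀ i, R ∈ OrdGE (pt t y i) (γ i)
  hPo : ∀ i, P - C (x i) * R ∈ OrdGE (pt t y i) (γ i + 1)

/-! ### forms on `P^9`, written as polynomials in `x_0, ..., x_11` invariant under translations by
`(1)` and `(t_i)` -/

/-- polynomials `F(x_0, ..., x_11)`, homogeneous of degree `d`, invariant under the translations
by `a (1)_i + b (t_i)_i`, of degree `≤ d - m_i` in `x_i` and vanishing to order `≥ m₁` at the vector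
`(y_i)_i`: these are the forms of degree `d` on `P^9` with multiplicities `≥ m_i` at `P_{i+1}` and
`≥ m₁` at `P_0` -/
structure XForm (t y : Fin 12 → ℂ) (d m₁ : ℕ) (m : Fin 12 → ℕ)
    (F : MvPolynomial (Fin 12) ℂ) : Prop where
  hom : F.IsHomogeneous d
  inv : ∀ (R : Type) [CommRing R] [Algebra ℂ R] (x : Fin 12 → R) (a b : R),
    aeval (fun i => x i + a + b * algebraMap ℂ R (t i)) F = aeval x F
  deg : ∀ i, ∀ s ∈ F.support, s i + m i ≤ d
  mul : MultGE F y m₁

/-- Gale duality data for 13 points of `P^9` -/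
structure GaleData (P : Fin 13 → Fin (9 + 1) → ℂ) (c : Fin 13 → ℂ) (t y : Fin 12 → ℂ) : Prop where
  c_ne : ∀ i, c i ≠ 0
  gen : Gen t y
  rel1 : ∑ i : Fin 12, c i.succ • P i.succ = 0
  rel2 : ∑ i : Fin 12, (t i * c i.succ) • P i.succ = 0
  rel3 : c 0 • P 0 + ∑ i : Fin 12, (y i * c i.succ) • P i.succ = 0
  basis : LinearIndependent ℂ fun j : Fin 10 => P (Fin.natAdd 3 j)

/-- `x ↦ Σ x_i c_{i+1} P_{i+1}` -/
def piMap (P : Fin 13 → Fin (9 + 1) → ℂ) (c : Fin 13 → ℂ) {R : Type} [CommRing R] [Algebra ℂ R]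
    (x : Fin 12 → R) : Fin (9 + 1) → R :=
  fun j => ∑ i : Fin 12, x i * algebraMap ℂ R (c i.succ * P i.succ j)

/-- complex numbers as elements of `K` -/
def up {K : Type} [Field K] [Algebra ℂ K] {ι : Type} (t : ι → ℂ) : ι → K :=
  fun i => algebraMap ℂ K (t i)

/-! ### dimension `≤ 3` and the fourfold `Σ_4` -/

/-- up to scaling and translation the vector `x` has coordinates algebraic over a field generated
over `ℂ` by three elements -/
def SmallDim {K : Type} [Field K] [Algebra ℂ K] (t : Fin 12 → ℂ) (x : Fin 12 → K) : Prop :=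
  ∃ (a : Fin 3 → K) (l l0 l1 : K), l ≠ 0 ∧
    ∀ i, IsAlgebraic (IntermediateField.adjoin ℂ (Set.range a))
      (l * (x i - l0 - l1 * algebraMap ℂ K (t i)))

/-- up to scaling and translation `x_i = (t_i - θ₁)(t_i - θ₂) / (y_i + a + b t_i)` -/
def Sig4 {K : Type} [Field K] [Algebra ℂ K] (t y : Fin 12 → ℂ) (θ₁ θ₂ a b : K)
    (x : Fin 12 → K) : Prop :=
  (∀ i, algebraMap ℂ K (y i) + a + b * algebraMap ℂ K (t i) ≠ 0) ∧
  ∃ l l0 l1 : K, l ≠ 0 ∧ ∀ i, l * (x i - l0 - l1 * algebraMap ℂ K (t i)) =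
    (algebraMap ℂ K (t i) - θ₁) * (algebraMap ℂ K (t i) - θ₂) /
      (algebraMap ℂ K (y i) + a + b * algebraMap ℂ K (t i))

end Pool.Agent.MP5769ea
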