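import Pool.Agent.Lib.MP_5769ea_ag.SigPos

/-!
# MP_5769ea_ag, extension to `P^n`, `n ≥ 9`: projection from a point
-/

open MvPolynomial

namespace Pool.Agent.MP5769ea

/-- the projection from the point `p` (with nonzero last coordinate) -/
def prj {n : ℕ} {R : Type} [CommRing R] [Algebra ℂ R] (p : Fin (n + 1 + 1) → ℂ)
    (w : Fin (n + 1 + 1) → R) : Fin (n + 1) → R :=
  fun j => w j.castSucc * algebraMap ℂ R (p (Fin.last _)) -
    w (Fin.last _) * algebraMap ℂ R (p j.castSucc)

section loc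

variable {n : ℕ} {K : Type} [Field K] [Algebra ℂ K]
  (v : Valuation K (WithZero (Multiplicative ℤ))) (hv : ∀ c : ℂ, v (algebraMap ℂ K c) ≤ 1)

include hv

theorem v_const {c : ℂ} (hc : c ≠ 0) : v (algebraMap ℂ K c) = 1 := by
  apply le_antisymm (hv c)
  have h1 := hv c⁻¹
  rw [map_inv₀, map_inv₀] at h1
  have h0 : v (algebraMap ℂ K c) ≠ 0 := by
    rw [v.ne_zero_iff]
    exact fun h => hc ((map_eq_zero (algebraMap ℂ K)).1 h)
  have h2 : 0 < v (algebraMap ℂ K c) := zero_lt_iff.2 h0
  exact (inv_le_one₀ h2).1 h1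

theorem v_smul_le {c : ℂ} {a : K} {B : WithZero (Multiplicative ℤ)} (ha : v a ≤ B) :
    v (algebraMap ℂ K c * a) ≤ B := by
  rw [map_mul]
  calc v (algebraMap ℂ K c) * v a ≤ 1 * B := mul_le_mul' (hv c) ha
    _ = B := one_mul B

theorem v_cancel {c : ℂ} (hc : c ≠ 0) {a : K} {B : WithZero (Multiplicative ℤ)}
    (ha : v (algebraMap ℂ K c * a) ≤ B) : v a ≤ B := by
  rwa [map_mul, v_const v hv hc, one_mul] at ha

omit hv in
theorem v_le_sup {ι : Type} [Fintype ι] (w : ι → K) (j : ι) :
    v (w j) ≤ Finset.univ.sup fun j => v (w j) :=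
  Finset.le_sup (f := fun j => v (w j)) (Finset.mem_univ j)

omit hv in
theorem v_sub_le' {a b : K} {B : WithZero (Multiplicative ℤ)} (ha : v a ≤ B) (hb : v b ≤ B) :
    v (a - b) ≤ B := (v.map_sub a b).trans (max_le ha hb)

omit hv in
theorem v_add_le' {a b : K} {B : WithZero (Multiplicative ℤ)} (ha : v a ≤ B) (hb : v b ≤ B) :
    v (a + b) ≤ B := (v.map_add a b).trans (max_le ha hb)

/-- the entries of `wedge w p` are bounded by the norm of the projection -/
theorem wedge_le_prj {p : Fin (n + 1 + 1) → ℂ} (hp : p (Fin.last _) ≠ 0)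
    (w : Fin (n + 1 + 1) → K) (jk : Fin (n + 1 + 1) × Fin (n + 1 + 1)) :
    v (wedge w p jk) ≤ Finset.univ.sup fun j => v (prj p w j) := by
  set B := Finset.univ.sup fun j => v (prj p w j) with hB
  have h1 : ∀ j : Fin (n + 1 + 1), v (w j * algebraMap ℂ K (p (Fin.last _)) -
      w (Fin.last _) * algebraMap ℂ K (p j)) ≤ B := by
    intro j
    refine Fin.lastCases ?_ (fun i => ?_) j
    · rw [sub_self, map_zero]; exact zero_le
    · exact v_le_sup v (prj p w) i
  obtain ⟨j, k⟩ := jk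
  apply v_cancel v hv hp
  have e : algebraMap ℂ K (p (Fin.last _)) * wedge w p (j, k) =
      algebraMap ℂ K (p k) * (w j * algebraMap ℂ K (p (Fin.last _)) -
        w (Fin.last _) * algebraMap ℂ K (p j)) -
      algebraMap ℂ K (p j) * (w k * algebraMap ℂ K (p (Fin.last _)) -
        w (Fin.last _) * algebraMap ℂ K (p k)) := by
    simp only [wedge]; ring
  rw [e]
  exact v_sub_le' v (v_smul_le v hv (h1 j)) (v_smul_le v hv (h1 k))

theorem sup_wedge_eq {p : Fin (n + 1 + 1) → ℂ} (hp : p (Fin.last _) ≠ 0)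
    (w : Fin (n + 1 + 1) → K) :
    (Finset.univ.sup fun jk => v (wedge w p jk)) = Finset.univ.sup fun j => v (prj p w j) := by
  apply le_antisymm
  · exact Finset.sup_le fun jk _ => wedge_le_prj v hv hp w jk
  · refine Finset.sup_le fun j _ => ?_
    have : prj p w j = wedge w p (j.castSucc, Fin.last _) := by
      simp only [prj, wedge]
    rw [this]
    exact v_le_sup v (wedge w p) _

theorem nrm_wedge_eq {p : Fin (n + 1 + 1) → ℂ} (hp : p (Fin.last _) ≠ 0)
    (w : Fin (n + 1 + 1) → K) : nrm v (wedge w p) = nrm v (prj p w) := by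
  rw [nrm, nrm, sup_wedge_eq v hv hp w]

/-- submodularity of the norms -/
theorem submod {p : Fin (n + 1 + 1) → ℂ} (hp : p (Fin.last _) ≠ 0) (q : Fin (n + 1 + 1) → ℂ)
    (w : Fin (n + 1 + 1) → K) (i : Fin (n + 1 + 1)) (ab : Fin (n + 1) × Fin (n + 1)) :
    v (w i * wedge (prj p w) (prj p q) ab) ≤
      (Finset.univ.sup fun j => v (prj p w j)) * (Finset.univ.sup fun jk => v (wedge w q jk)) := by
  set B := Finset.univ.sup fun j => v (prj p w j) with hB
  set D := Finset.univ.sup fun jk => v (wedge w q jk) with hD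
  have hpr : ∀ a b c d : Fin (n + 1 + 1), v (wedge w p (a, b) * wedge w q (c, d)) ≤ B * D := by
    intro a b c d
    rw [map_mul]
    exact mul_le_mul' (wedge_le_prj v hv hp w _) (v_le_sup v (wedge w q) _)
  obtain ⟨a', b'⟩ := ab
  set a := a'.castSucc with ha
  set b := b'.castSucc with hb
  set c := Fin.last (n + 1) with hc
  have h4 : (4 : ℂ) ≠ 0 := by norm_num
  apply v_cancel v hv h4
  -- Sylvester's identity, polarized
  let S : Fin (n + 1 + 1) → Fin (n + 1 + 1) → Fin (n + 1 + 1) → Fin (n + 1 + 1) → K :=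
    fun x j y z => wedge w p (x, y) * wedge w q (j, z) + wedge w p (j, y) * wedge w q (x, z) -
      wedge w p (x, z) * wedge w q (j, y) - wedge w p (j, z) * wedge w q (x, y)
  have hS : ∀ x j y z, v (S x j y z) ≤ B * D := by
    intro x j y z
    exact v_sub_le' v (v_sub_le' v (v_add_le' v (hpr _ _ _ _) (hpr _ _ _ _)) (hpr _ _ _ _))
      (hpr _ _ _ _)
  have e : algebraMap ℂ K 4 * (w i * wedge (prj p w) (prj p q) (a', b')) =
      algebraMap ℂ K (p c) * (-(S a i b c) + S b i a c - S c i a b) := by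
    simp only [S, wedge, prj, ← ha, ← hb, ← hc]
    simp only [map_sub, map_mul, map_ofNat, Algebra.algebraMap_self, RingHom.id_apply]
    ring
  rw [e]
  apply v_smul_le v hv
  exact v_sub_le' v (v_add_le' v (by rw [Valuation.map_neg]; exact hS _ _ _ _) (hS _ _ _ _))
    (hS _ _ _ _)

end loc

end Pool.Agent.MP5769ea
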