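import Pool.Agent.Lib.MP_5769ea_ag.ExtA

open MvPolynomial

namespace Pool.Agent.MP5769ea

theorem nrm_submod {n : ℕ} {K : Type} [Field K] [Algebra ℂ K]
    (v : Valuation K (WithZero (Multiplicative ℤ))) (hv : ∀ c : ℂ, v (algebraMap ℂ K c) ≤ 1)
    {p : Fin (n + 1 + 1) → ℂ} (hp : p (Fin.last _) ≠ 0) (q : Fin (n + 1 + 1) → ℂ)
    (w : Fin (n + 1 + 1) → K) (hwp : prj p w ≠ 0) (hwq : wedge w q ≠ 0)
    (hpq : wedge (prj p w) (prj p q) ≠ 0) :
    nrm v w + nrm v (wedge (prj p w) (prj p q)) ≤ nrm v (prj p w) + nrm v (wedge w q) := by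
  have hw : w ≠ 0 := by
    rintro rfl
    apply hwq
    funext jk
    simp [wedge]
  obtain ⟨i, hi, hi1, -⟩ := exists_nrm_eq v w hw
  obtain ⟨ab, hab, hab1, -⟩ := exists_nrm_eq v _ hpq
  obtain ⟨j₁, hj₁⟩ := Function.ne_iff.1 hwp
  obtain ⟨j₂, hj₂⟩ := Function.ne_iff.1 hwq
  have h := submod v hv hp q w i ab
  rw [hi1, hab1, ← WithZero.log_mul (v.ne_zero_iff.2 hi) (v.ne_zero_iff.2 hab), ← map_mul]
  have e : nrm v (prj p w) + nrm v (wedge w q) =
      WithZero.log ((Finset.univ.sup fun j => v (prj p w j)) *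
        (Finset.univ.sup fun jk => v (wedge w q jk))) := by
    rw [WithZero.log_mul (sup_ne_zero_of v _ hj₁) (sup_ne_zero_of v _ hj₂)]
    rfl
  rw [e]
  exact WZ_log_mono (v.ne_zero_iff.2 (mul_ne_zero hi hab)) h

theorem prj_ne_zero {n : ℕ} {K : Type} [Field K] [Algebra ℂ K] {p : Fin (n + 1 + 1) → ℂ}
    (hp : p (Fin.last _) ≠ 0) {w : Fin (n + 1 + 1) → K} (hw : wedge w p ≠ 0) : prj p w ≠ 0 := by
  intro h
  apply hw
  funext jk
  obtain ⟨j, k⟩ := jk
  have hp' : algebraMap ℂ K (p (Fin.last _)) ≠ 0 := fun h0 =>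
    hp ((map_eq_zero (algebraMap ℂ K)).1 h0)
  have h1 : ∀ j : Fin (n + 1 + 1), w j * algebraMap ℂ K (p (Fin.last _)) =
      w (Fin.last _) * algebraMap ℂ K (p j) := by
    intro j
    refine Fin.lastCases rfl (fun i => ?_) j
    have := congrFun h i
    exact sub_eq_zero.1 this
  simp only [wedge, Pi.zero_apply]
  apply mul_left_cancel₀ hp'
  rw [mul_zero]
  calc algebraMap ℂ K (p (Fin.last _)) * (w j * algebraMap ℂ K (p k) -
        w k * algebraMap ℂ K (p j))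
      = (w j * algebraMap ℂ K (p (Fin.last _))) * algebraMap ℂ K (p k) -
        (w k * algebraMap ℂ K (p (Fin.last _))) * algebraMap ℂ K (p j) := by ring
    _ = 0 := by rw [h1 j, h1 k]; ring

/-- the positivity of the class on moving curves is inherited by cones -/
theorem conePos (hBasic : S_FFBasic) {s n : ℕ} (P : Fin (s + 1) → Fin (n + 1 + 1) → ℂ)
    (hp : P (Fin.last s) (Fin.last _) ≠ 0) (Ω K : Type) [Field Ω] [Field K] [Algebra ℂ Ω]
    [Algebra Ω K] [Algebra ℂ K] [IsScalarTower ℂ Ω K] [IsAlgClosed Ω] (hFF : IsFF Ω K)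
    (w : Fin (n + 1 + 1) → K) (hw : ∀ i, wedge w (P i) ≠ 0)
    (hw' : ∀ i : Fin s, wedge (prj (P (Fin.last s)) w)
      (prj (P (Fin.last s)) (P i.castSucc)) ≠ 0) (μ : Fin s → ℕ)
    (IH : 0 ≤ 5 * pdeg Ω (prj (P (Fin.last s)) w) - ∑ i, (μ i : ℤ) *
      (pdeg Ω (prj (P (Fin.last s)) w) - pdeg Ω (wedge (prj (P (Fin.last s)) w)
        (prj (P (Fin.last s)) (P i.castSucc))))) :
    0 ≤ 5 * pdeg Ω w - ∑ i : Fin (s + 1),
      ((Fin.snoc (α := fun _ => ℕ) μ 5 i : ℕ) : ℤ) * (pdeg Ω w - pdeg Ω (wedge w (P i))) := by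
  have : CharZero Ω := charZero_of_injective_algebraMap (algebraMap ℂ Ω).injective
  obtain ⟨-, -, hsupp⟩ := hBasic Ω K hFF
  set p := P (Fin.last s) with hpdef
  have hwp : prj p w ≠ 0 := prj_ne_zero hp (hw _)
  have hwne : w ≠ 0 := by
    intro h
    apply hwp
    funext j
    simp [prj, h]
  have e1 : pdeg Ω (wedge w p) = pdeg Ω (prj p w) :=
    finsum_congr fun v => nrm_wedge_eq v.1 (place_trivial v) hp w
  have hle : ∀ i : Fin s, pdeg Ω w - pdeg Ω (wedge w (P i.castSucc)) ≤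
      pdeg Ω (prj p w) - pdeg Ω (wedge (prj p w) (prj p (P i.castSucc))) := by
    intro i
    have f1 := hsupp _ w hwne
    have f2 := hsupp _ _ (hw' i)
    have f3 := hsupp _ _ hwp
    have f4 := hsupp _ _ (hw i.castSucc)
    have h : pdeg Ω w + pdeg Ω (wedge (prj p w) (prj p (P i.castSucc))) ≤
        pdeg Ω (prj p w) + pdeg Ω (wedge w (P i.castSucc)) := by
      unfold pdeg
      rw [← finsum_add_distrib f1 f2, ← finsum_add_distrib f3 f4]
      refine finsum_le_finsum' ?_ ?_ ?_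
      · exact (f1.union f2).subset (Function.support_add _ _)
      · exact (f3.union f4).subset (Function.support_add _ _)
      · intro v
        exact nrm_submod v.1 (place_trivial v) hp _ w hwp (hw _) (hw' i)
    linarith
  rw [Fin.sum_univ_castSucc]
  simp only [Fin.snoc_castSucc, Fin.snoc_last]
  rw [← hpdef, e1]
  have hsum : ∑ i : Fin s, (μ i : ℤ) * (pdeg Ω w - pdeg Ω (wedge w (P i.castSucc))) ≤
      ∑ i : Fin s, (μ i : ℤ) * (pdeg Ω (prj p w) -
        pdeg Ω (wedge (prj p w) (prj p (P i.castSucc)))) :=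
    Finset.sum_le_sum fun i _ => mul_le_mul_of_nonneg_left (hle i) (by positivity)
  push_cast
  linarith

end Pool.Agent.MP5769ea
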