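import Pool.Agent.Lib.MP_5769ea_ag.ExtB

open MvPolynomial

namespace Pool.Agent.MP5769ea

/-- transcendence degree at least `e` means `e` independent elements -/
theorem trdeg_iff_fin {K : Type} [Field K] [Algebra ℂ K] (L : IntermediateField ℂ K) (e : ℕ) :
    (e : Cardinal) ≤ Algebra.trdeg ℂ L ↔
      ∃ z : Fin e → K, (∀ i, z i ∈ L) ∧ AlgebraicIndependent ℂ z := by
  constructor
  · intro h
    obtain ⟨ι, z, hz⟩ := exists_isTranscendenceBasis' ℂ L
    rw [← hz.cardinalMk_eq_trdeg] at h
    have h' : Cardinal.mk (Fin e) ≤ Cardinal.mk ι := by simpa using h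
    obtain ⟨f⟩ := h'
    refine ⟨fun i => (z (f i) : K), fun i => (z (f i)).2, ?_⟩
    have h1 : AlgebraicIndependent ℂ (z ∘ f) := hz.1.comp _ f.injective
    exact h1.map' (f := L.val) L.val.toRingHom.injective
  · rintro ⟨z, hz, hi⟩
    have h1 : AlgebraicIndependent ℂ (fun i => (⟨z i, hz i⟩ : L)) := by
      apply (AlgHom.algebraicIndependent_iff L.val L.val.toRingHom.injective).1
      exact hi
    have := h1.cardinalMk_le_trdeg
    simpa using this

theorem trdeg_iff_eRk {K : Type} [Field K] [Algebra ℂ K] (L : IntermediateField ℂ K) (e : ℕ) :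
    (e : Cardinal) ≤ Algebra.trdeg ℂ L ↔
      (e : ℕ∞) ≤ (AlgebraicIndependent.matroid ℂ K).eRk (L : Set K) := by
  rw [trdeg_iff_fin]
  constructor
  · rintro ⟨z, hz, hi⟩
    have hI : (AlgebraicIndependent.matroid ℂ K).Indep (Set.range z) :=
      AlgebraicIndependent.matroid_indep_iff.2 hi.to_subtype_range
    have h1 : Set.range z ⊆ (L : Set K) := by
      rintro _ ⟨i, rfl⟩; exact hz i
    have h2 : (Set.range z).encard = e := by
      rw [← Set.image_univ, hi.injective.encard_image, Set.encard_univ]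
      simp
    rw [← h2]
    exact hI.encard_le_eRk_of_subset h1
  · intro h
    obtain ⟨I, hI1, hI2, hI3⟩ := Matroid.le_eRk_iff.1 h
    have hfin : I.Finite := Set.finite_of_encard_eq_coe hI3
    have hcard : Nat.card I = e := by
      have := hfin.cast_ncard_eq
      rw [hI3] at this
      exact_mod_cast this
    haveI : Finite I := hfin
    haveI := Fintype.ofFinite I
    have eq : Fintype.card I = Fintype.card (Fin e) := by
      rw [← Nat.card_eq_fintype_card, hcard, Fintype.card_fin]
    let g : Fin e ≃ I := (Fintype.equivOfCardEq eq).symm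
    have hI2' := AlgebraicIndependent.matroid_indep_iff.1 hI2
    refine ⟨fun i => (g i : K), fun i => hI1 (g i).2, ?_⟩
    have h1 : AlgebraicIndependent ℂ (fun x : I => (x : K)) := hI2'
    exact h1.comp g g.injective

/-- the ratios of the coordinates -/
theorem ratio_mem {K ι : Type} [Field K] [Algebra ℂ K] (w : ι → K) (j k : ι) (hk : w k ≠ 0) :
    w j / w k ∈ ratioField ℂ w :=
  IntermediateField.subset_adjoin _ _ ⟨j, k, hk, rfl⟩

/-- the dimension drops by at most one under projection from a point -/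
theorem dim_prj {n : ℕ} {K : Type} [Field K] [Algebra ℂ K] {p : Fin (n + 1 + 1) → ℂ}
    (hp : p (Fin.last _) ≠ 0) {w : Fin (n + 1 + 1) → K} (hw : wedge w p ≠ 0) (e : ℕ)
    (h : DimGE (e + 1) w) : DimGE e (prj p w) := by
  have hwp : prj p w ≠ 0 := prj_ne_zero hp hw
  obtain ⟨k, hk⟩ := Function.ne_iff.1 hwp
  simp only [Pi.zero_apply] at hk
  unfold DimGE at h ⊢
  rw [trdeg_iff_eRk] at h ⊢
  set τ := w (Fin.last _) / prj p w k with hτ
  have hp' : algebraMap ℂ K (p (Fin.last _)) ≠ 0 := fun h0 =>
    hp ((map_eq_zero (algebraMap ℂ K)).1 h0)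
  -- the big field
  let M : IntermediateField ℂ K :=
    IntermediateField.adjoin ℂ (insert τ (ratioField ℂ (prj p w) : Set K))
  have hM1 : τ ∈ M := IntermediateField.subset_adjoin _ _ (Set.mem_insert _ _)
  have hM2 : ∀ z ∈ ratioField ℂ (prj p w), z ∈ M := fun z hz =>
    IntermediateField.subset_adjoin _ _ (Set.mem_insert_of_mem _ hz)
  have hcoord : ∀ j : Fin (n + 1 + 1), w j / prj p w k ∈ M := by
    intro j
    refine Fin.lastCases hM1 (fun i => ?_) j
    have e1 : w i.castSucc / prj p w k = (prj p w i / prj p w k +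
        τ * algebraMap ℂ K (p i.castSucc)) / algebraMap ℂ K (p (Fin.last _)) := by
      rw [hτ]
      rw [eq_div_iff hp', div_mul_eq_mul_div, div_mul_eq_mul_div, ← add_div]
      congr 1
      simp only [prj]
      ring
    rw [e1]
    exact div_mem (add_mem (hM2 _ (ratio_mem _ _ _ hk)) (mul_mem hM1 (M.algebraMap_mem _)))
      (M.algebraMap_mem _)
  have hsub : ratioField ℂ w ≤ M := by
    unfold ratioField
    rw [IntermediateField.adjoin_le_iff]
    rintro _ ⟨j, k', hk', rfl⟩
    have : w j / w k' = (w j / prj p w k) / (w k' / prj p w k) := by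
      field_simp
    rw [this]
    exact div_mem (hcoord j) (hcoord k')
  have hcl : (M : Set K) ⊆ (AlgebraicIndependent.matroid ℂ K).closure
      (insert τ (ratioField ℂ (prj p w) : Set K)) := by
    rw [AlgebraicIndependent.matroid_closure_eq]
    intro z hz
    rw [SetLike.mem_coe, Subalgebra.mem_algebraicClosure]
    apply IntermediateField.isAlgebraic_adjoin_iff.1
    exact isAlgebraic_algebraMap (⟨z, hz⟩ : M)
  have h1 : ((e + 1 : ℕ) : ℕ∞) ≤ (AlgebraicIndependent.matroid ℂ K).eRk
      (ratioField ℂ (prj p w) : Set K) + 1 := by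
    refine h.trans ?_
    refine ((AlgebraicIndependent.matroid ℂ K).eRk_mono
      (show (ratioField ℂ w : Set K) ⊆ _ from fun z hz => hcl (hsub hz))).trans ?_
    rw [Matroid.eRk_closure_eq]
    exact Matroid.eRk_insert_le_add_one _ _ _
  push_cast at h1
  exact (ENat.add_le_add_iff_right ENat.one_ne_top).1 h1

/-- a point of positive dimension is not one of finitely many given points -/
theorem wedge_ne_of_dim {N : ℕ} {K : Type} [Field K] [Algebra ℂ K] {q : Fin N → ℂ} (hq : q ≠ 0)
    {w : Fin N → K} (h : DimGE 1 w) : wedge w q ≠ 0 := by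
  intro h0
  obtain ⟨k, hk⟩ := Function.ne_iff.1 hq
  simp only [Pi.zero_apply] at hk
  have hk' : algebraMap ℂ K (q k) ≠ 0 := fun h1 => hk ((map_eq_zero (algebraMap ℂ K)).1 h1)
  have h1 : ∀ j, w j * algebraMap ℂ K (q k) = w k * algebraMap ℂ K (q j) := fun j =>
    sub_eq_zero.1 (congrFun h0 (j, k))
  unfold DimGE at h
  have h2 : ratioField ℂ w ≤ ⊥ := by
    unfold ratioField
    rw [IntermediateField.adjoin_le_iff]
    rintro _ ⟨j, k', hk'', rfl⟩
    have hwk : w k ≠ 0 := by
      intro h3
      apply hk''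
      have := h1 k'
      rw [h3, zero_mul] at this
      exact (mul_eq_zero.1 this).resolve_right hk'
    have hqk' : algebraMap ℂ K (q k') ≠ 0 := by
      intro h3
      have := h1 k'
      rw [h3, mul_zero] at this
      exact hk'' ((mul_eq_zero.1 this).resolve_right hk')
    have : w j / w k' = algebraMap ℂ K (q j / q k') := by
      rw [map_div₀, div_eq_div_iff hk'' hqk']
      apply mul_right_cancel₀ (mul_ne_zero hk' hk')
      calc w j * algebraMap ℂ K (q k') * (algebraMap ℂ K (q k) * algebraMap ℂ K (q k))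
          = (w j * algebraMap ℂ K (q k)) * algebraMap ℂ K (q k') * algebraMap ℂ K (q k) := by ring
        _ = algebraMap ℂ K (q j) * (w k * algebraMap ℂ K (q k')) * algebraMap ℂ K (q k) := by
            rw [h1 j]; ring
        _ = algebraMap ℂ K (q j) * w k' * (algebraMap ℂ K (q k) * algebraMap ℂ K (q k)) := by
            rw [← h1 k']; ring
    rw [this]
    exact (⊥ : IntermediateField ℂ K).algebraMap_mem _
  obtain ⟨z, hz, hi⟩ := (trdeg_iff_fin _ _).1 h
  have h3 : z 0 ∈ (⊥ : IntermediateField ℂ K) := h2 (hz 0)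
  obtain ⟨c, hc⟩ := IntermediateField.mem_bot.1 h3
  have h4 : Transcendental ℂ (z 0) := hi.transcendental 0
  apply h4
  rw [← hc]
  exact isAlgebraic_algebraMap c

theorem DimGE.mono {K ι : Type} [Field K] [Algebra ℂ K] {e e' : ℕ} (he : e ≤ e') {w : ι → K}
    (h : DimGE e' w) : DimGE e w := by
  unfold DimGE at h ⊢
  exact le_trans (by exact_mod_cast he) h

end Pool.Agent.MP5769ea
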