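import Pool.Agent.Lib.MP_5769ea_ag.ExtC

open MvPolynomial

namespace Pool.Agent.MP5769ea

/-- the ratios with a coordinate of the projection lie in the field of ratios -/
theorem prj_ratio_mem {n : ℕ} {K : Type} [Field K] [Algebra ℂ K] (p : Fin (n + 1 + 1) → ℂ)
    (w : Fin (n + 1 + 1) → K) (k : Fin (n + 1)) (hk : prj p w k ≠ 0) :
    (∀ j, prj p w j / prj p w k ∈ ratioField ℂ w) ∧
      w (Fin.last _) / prj p w k ∈ ratioField ℂ w := by
  have hw : w ≠ 0 := by
    rintro rfl
    apply hk
    simp [prj]
  obtain ⟨a, ha⟩ := Function.ne_iff.1 hw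
  simp only [Pi.zero_apply] at ha
  have hr : ∀ j, prj p w j / w a ∈ ratioField ℂ w := by
    intro j
    have : prj p w j / w a = w j.castSucc / w a * algebraMap ℂ K (p (Fin.last _)) -
        w (Fin.last _) / w a * algebraMap ℂ K (p j.castSucc) := by
      simp only [prj]
      rw [sub_div, mul_div_right_comm, mul_div_right_comm]
    rw [this]
    exact sub_mem (mul_mem (ratio_mem _ _ _ ha) (IntermediateField.algebraMap_mem _ _))
      (mul_mem (ratio_mem _ _ _ ha) (IntermediateField.algebraMap_mem _ _))
  constructor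
  · intro j
    have : prj p w j / prj p w k = (prj p w j / w a) / (prj p w k / w a) := by
      rw [div_div_div_cancel_right₀ ha]
    rw [this]
    exact div_mem (hr j) (hr k)
  · have : w (Fin.last _) / prj p w k = (w (Fin.last _) / w a) / (prj p w k / w a) := by
      rw [div_div_div_cancel_right₀ ha]
    rw [this]
    exact div_mem (ratio_mem _ _ _ ha) (hr k)

/-- the generic point of a cone -/
theorem cone_point {n : ℕ} {K : Type} [Field K] [Algebra ℂ K] {p : Fin (n + 1 + 1) → ℂ}
    (hp : p (Fin.last _) ≠ 0) (u : Fin (n + 1) → K) (hu : u ≠ 0) (e : ℕ) (h : DimGE e u) :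
    ∃ (K' : Type) (_ : Field K') (_ : Algebra ℂ K') (_ : Algebra K K') (_ : IsScalarTower ℂ K K')
      (w : Fin (n + 1 + 1) → K'), (prj p w = fun j => algebraMap K K' (u j)) ∧
        DimGE (e + 1) w := by
  let K' := FractionRing (Polynomial K)
  let τ : K' := algebraMap (Polynomial K) K' Polynomial.X
  have hτ : Transcendental K τ := by
    have h1 : Transcendental K (Polynomial.X : Polynomial K) := Polynomial.transcendental_X K
    exact (transcendental_algebraMap_iff (IsFractionRing.injective (Polynomial K) K')).2 h1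
  have hp' : algebraMap ℂ K' (p (Fin.last _)) ≠ 0 := fun h0 =>
    hp ((map_eq_zero (algebraMap ℂ K')).1 h0)
  let w : Fin (n + 1 + 1) → K' := Fin.lastCases τ fun j =>
    (algebraMap K K' (u j) + τ * algebraMap ℂ K' (p j.castSucc)) /
      algebraMap ℂ K' (p (Fin.last _))
  have hwl : w (Fin.last _) = τ := by simp [w]
  have hwc : ∀ j : Fin (n + 1), w j.castSucc =
      (algebraMap K K' (u j) + τ * algebraMap ℂ K' (p j.castSucc)) /
      algebraMap ℂ K' (p (Fin.last _)) := by
    intro j; simp [w]
  have hprj : prj p w = fun j => algebraMap K K' (u j) := by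
    funext j
    simp only [prj]
    rw [hwl, hwc, div_mul_cancel₀ _ hp']
    ring
  refine ⟨K', inferInstance, inferInstance, inferInstance, inferInstance, w, hprj, ?_⟩
  obtain ⟨k, hk⟩ := Function.ne_iff.1 hu
  simp only [Pi.zero_apply] at hk
  have hk' : algebraMap K K' (u k) ≠ 0 := fun h0 => hk ((map_eq_zero (algebraMap K K')).1 h0)
  have hpk : prj p w k ≠ 0 := by rw [hprj]; exact hk'
  obtain ⟨hm1, hm2⟩ := prj_ratio_mem p w k hpk
  unfold DimGE at h ⊢
  rw [trdeg_iff_fin] at h ⊢
  obtain ⟨z, hz, hi⟩ := h
  -- the images of the old elements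
  have hR : ratioField ℂ u ≤ (ratioField ℂ w).comap (IsScalarTower.toAlgHom ℂ K K') := by
    conv_lhs => unfold ratioField
    rw [IntermediateField.adjoin_le_iff]
    rintro _ ⟨j, k', hk'', rfl⟩
    change algebraMap K K' (u j / u k') ∈ ratioField ℂ w
    have hpk' : prj p w k' ≠ 0 := by
      rw [hprj]
      exact fun h0 => hk'' ((map_eq_zero (algebraMap K K')).1 h0)
    have := (prj_ratio_mem p w k' hpk').1 j
    rw [hprj] at this
    rw [map_div₀]
    exact this
  set a : K' := w (Fin.last _) / prj p w k with ha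
  have haτ : Transcendental K a := by
    intro halg
    apply hτ
    have : τ = a * algebraMap K K' (u k) := by
      rw [ha, hwl, hprj]
      rw [div_mul_cancel₀ _ hk']
    rw [this]
    exact halg.mul (isAlgebraic_algebraMap _)
  have hy : AlgebraicIndependent K (fun _ : Fin 1 => a) := by
    rw [algebraicIndependent_unique_type_iff]
    exact haτ
  have hsum := AlgebraicIndependent.sumElim_comp hi hy
  refine ⟨(Sum.elim (fun _ : Fin 1 => a) (algebraMap K K' ∘ z)) ∘
    (Equiv.sumComm (Fin e) (Fin 1)) ∘ finSumFinEquiv.symm, ?_, ?_⟩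
  · intro i
    simp only [Function.comp_apply]
    rcases (finSumFinEquiv.symm i : Fin e ⊕ Fin 1) with i' | i'
    · simp only [Equiv.sumComm_apply, Sum.swap_inl, Sum.elim_inr, Function.comp_apply]
      exact hR (hz i')
    · simp only [Equiv.sumComm_apply, Sum.swap_inr, Sum.elim_inl]
      exact hm2
  · exact hsum.comp _ ((Equiv.sumComm (Fin e) (Fin 1)).injective.comp
      finSumFinEquiv.symm.injective)

end Pool.Agent.MP5769ea
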