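import Pool.Agent.Lib.MP_5769ea_ag.ExtD
import Pool.Agent.Lib.MP_5769ea_ag.Lift
import Pool.Agent.Lib.MP_5769ea_ag.Descend

/-!
# MP_5769ea_ag, extension: sections on `P^{n+1}` as polynomials in the cone coordinate
-/

open MvPolynomial

namespace Pool.Agent.MP5769ea

open DescendAux

/-- linear substitution: `σ(z) + λ p`, `λ = X 0`, `z_j = X (j+1)` -/
noncomputable def coneSub {n : ℕ} (p : Fin (n + 1 + 1) → ℂ) :
    Fin (n + 1 + 1) → MvPolynomial (Fin (n + 1 + 1)) ℂ :=
  fun k => Fin.lastCases (C (p (Fin.last _)) * X 0)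
    (fun j : Fin (n + 1) => C (p (Fin.last _))⁻¹ * X j.succ + C (p j.castSucc) * X 0) k

/-- the coefficient of `λ^j` -/
noncomputable def coneCoef {n : ℕ} (p : Fin (n + 1 + 1) → ℂ)
    (G : MvPolynomial (Fin (n + 1 + 1)) ℂ) (j : ℕ) : MvPolynomial (Fin (n + 1)) ℂ :=
  (finSuccEquiv ℂ (n + 1) (aeval (coneSub p) G)).coeff j

theorem coneSub_eval {n : ℕ} {p : Fin (n + 1 + 1) → ℂ} (hp : p (Fin.last _) ≠ 0) {R : Type}
    [CommRing R] [Algebra ℂ R] (w : Fin (n + 1 + 1) → R) (k : Fin (n + 1 + 1)) :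
    aeval (Fin.cons (w (Fin.last _) * algebraMap ℂ R (p (Fin.last _))⁻¹) (prj p w) :
      Fin (n + 1 + 1) → R) (coneSub p k) = w k := by
  have h1 : algebraMap ℂ R (p (Fin.last _))⁻¹ * algebraMap ℂ R (p (Fin.last _)) = 1 := by
    rw [← map_mul, inv_mul_cancel₀ hp, map_one]
  refine Fin.lastCases ?_ (fun j => ?_) k
  · simp only [coneSub, Fin.lastCases_last, map_mul, aeval_C, aeval_X, Fin.cons_zero]
    linear_combination (w (Fin.last _)) * h1
  · simp only [coneSub, Fin.lastCases_castSucc, map_add, map_mul, aeval_C, aeval_X,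
      Fin.cons_zero, Fin.cons_succ, prj]
    linear_combination (w j.castSucc) * h1

theorem coneSub_hom {n : ℕ} (p : Fin (n + 1 + 1) → ℂ) (k : Fin (n + 1 + 1)) :
    (coneSub p k).IsHomogeneous 1 := by
  refine Fin.lastCases ?_ (fun j => ?_) k
  · simp only [coneSub, Fin.lastCases_last]
    exact isHomogeneous_C_mul_X _ _
  · simp only [coneSub, Fin.lastCases_castSucc]
    exact (isHomogeneous_C_mul_X _ _).add (isHomogeneous_C_mul_X _ _)

theorem cone_hom {n : ℕ} (p : Fin (n + 1 + 1) → ℂ) {G : MvPolynomial (Fin (n + 1 + 1)) ℂ} {d : ℕ}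
    (hG : G.IsHomogeneous d) : (aeval (coneSub p) G).IsHomogeneous d := by
  have := hG.aeval (coneSub p) (fun k => coneSub_hom p k)
  rwa [one_mul] at this

theorem coneCoef_hom {n : ℕ} (p : Fin (n + 1 + 1) → ℂ) {G : MvPolynomial (Fin (n + 1 + 1)) ℂ}
    {d : ℕ} (hG : G.IsHomogeneous d) {j : ℕ} (hj : j ≤ d) :
    (coneCoef p G j).IsHomogeneous (d - j) :=
  (cone_hom p hG).finSuccEquiv_coeff_isHomogeneous j (d - j) (by omega)

theorem coneCoef_zero_of_lt {n : ℕ} (p : Fin (n + 1 + 1) → ℂ)
    {G : MvPolynomial (Fin (n + 1 + 1)) ℂ} {d : ℕ} (hG : G.IsHomogeneous d) {j : ℕ}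
    (hj : d < j) : coneCoef p G j = 0 := by
  unfold coneCoef
  apply Polynomial.coeff_eq_zero_of_natDegree_lt
  rw [natDegree_finSuccEquiv]
  exact lt_of_le_of_lt ((degreeOf_le_totalDegree _ _).trans (cone_hom p hG).totalDegree_le) hj

/-- the expansion of the values of a form -/
theorem cone_expand {n : ℕ} {R : Type} [CommRing R] [Algebra ℂ R]
    (H : MvPolynomial (Fin (n + 1 + 1)) ℂ) (l : R) (u : Fin (n + 1) → R) :
    aeval (Fin.cons l u : Fin (n + 1 + 1) → R) H =
      Polynomial.eval₂ (aeval u : MvPolynomial (Fin (n + 1)) ℂ →ₐ[ℂ] R).toRingHom l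
        (finSuccEquiv ℂ (n + 1) H) := by
  induction H using MvPolynomial.induction_on with
  | C a =>
    have : finSuccEquiv ℂ (n + 1) (C a) = Polynomial.C (C a) := by
      exact (finSuccEquiv ℂ (n + 1)).commutes a
    rw [this, Polynomial.eval₂_C]
    simp
  | add f g hf hg => rw [map_add, map_add, Polynomial.eval₂_add, hf, hg]
  | mul_X f i hf =>
    rw [map_mul, map_mul, Polynomial.eval₂_mul, hf]
    congr 1
    refine Fin.cases ?_ (fun j => ?_) i
    · rw [finSuccEquiv_X_zero, Polynomial.eval₂_X]; simp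
    · rw [finSuccEquiv_X_succ, Polynomial.eval₂_C]; simp

theorem cone_expand_sum {n : ℕ} {R : Type} [CommRing R] [Algebra ℂ R]
    (p : Fin (n + 1 + 1) → ℂ) {G : MvPolynomial (Fin (n + 1 + 1)) ℂ} {d : ℕ}
    (hG : G.IsHomogeneous d) (l : R) (u : Fin (n + 1) → R) :
    aeval (Fin.cons l u : Fin (n + 1 + 1) → R) (aeval (coneSub p) G) =
      ∑ j ∈ Finset.range (d + 1), aeval u (coneCoef p G j) * l ^ j := by
  rw [cone_expand, Polynomial.eval₂_eq_sum_range' _ (n := d + 1)]
  · rfl
  · rw [natDegree_finSuccEquiv]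
    exact Nat.lt_succ_of_le ((degreeOf_le_totalDegree _ _).trans (cone_hom p hG).totalDegree_le)

/-- a form all of whose coefficients vanish at the projection of `w` vanishes at `w` -/
theorem cone_vanish {n : ℕ} {R : Type} [CommRing R] [Algebra ℂ R]
    {p : Fin (n + 1 + 1) → ℂ} (hp : p (Fin.last _) ≠ 0) {G : MvPolynomial (Fin (n + 1 + 1)) ℂ}
    {d : ℕ} (hG : G.IsHomogeneous d) (w : Fin (n + 1 + 1) → R)
    (h : ∀ j, aeval (prj p w) (coneCoef p G j) = 0) : aeval w G = 0 := by
  have h1 := cone_expand_sum p hG (w (Fin.last _) * algebraMap ℂ R (p (Fin.last _))⁻¹) (prj p w)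
  rw [Finset.sum_eq_zero (fun j _ => by rw [h j, zero_mul])] at h1
  have h2 : aeval (Fin.cons (w (Fin.last _) * algebraMap ℂ R (p (Fin.last _))⁻¹) (prj p w) :
      Fin (n + 1 + 1) → R) (aeval (coneSub p) G) = aeval w G := by
    rw [← AlgHom.comp_apply, comp_aeval]
    congr 2
    funext k
    exact coneSub_eval hp w k
  rw [← h2, h1]

theorem low_of_multGE {ι : Type} {F : MvPolynomial ι ℂ} {q : ι → ℂ} {k : ℤ} (h : MultGE F q k) :
    Low k.toNat (bind₁ (fun i => X i + C (q i)) F) := by
  rw [← low_iff]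
  intro j hj
  exact h j (by omega)

/-- the degree in `λ` -/
theorem coneCoef_zero_of_mult {n : ℕ} {p : Fin (n + 1 + 1) → ℂ}
    {G : MvPolynomial (Fin (n + 1 + 1)) ℂ} {d : ℕ} (hG : G.IsHomogeneous d) {m : ℤ}
    (hm : MultGE G p m) {j : ℕ} (hj : (d : ℤ) < j + m) : coneCoef p G j = 0 := by
  rcases lt_or_ge d j with h | h
  · exact coneCoef_zero_of_lt p hG h
  · -- substitute `λ = 1`
    have hlow := low_of_multGE hm
    set A : MvPolynomial (Fin (n + 1)) ℂ :=
      aeval (Fin.cons (1 : MvPolynomial (Fin (n + 1)) ℂ) X : Fin (n + 1 + 1) → _)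
        (aeval (coneSub p) G) with hA
    have hA1 : A = ∑ i ∈ Finset.range (d + 1), coneCoef p G i := by
      rw [hA, cone_expand_sum p hG]
      refine Finset.sum_congr rfl fun i _ => ?_
      rw [one_pow, mul_one, aeval_X_left_apply]
    let σ : Fin (n + 1 + 1) → MvPolynomial (Fin (n + 1)) ℂ := fun k =>
      Fin.lastCases 0 (fun j : Fin (n + 1) => C (p (Fin.last _))⁻¹ * X j) k
    have hA2 : A = aeval σ (bind₁ (fun i => X i + C (p i)) G) := by
      rw [← LiftAux.aeval_taylor, hA, ← AlgHom.comp_apply, comp_aeval]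
      congr 2
      funext k
      refine Fin.lastCases ?_ (fun i => ?_) k
      · simp only [coneSub, Fin.lastCases_last, map_mul, aeval_C, aeval_X, Fin.cons_zero, σ,
          mul_one, zero_add]
      · simp only [coneSub, Fin.lastCases_castSucc, map_add, map_mul, aeval_C, aeval_X,
          Fin.cons_zero, Fin.cons_succ, σ, mul_one, MvPolynomial.algebraMap_eq]
    have hA3 : Low m.toNat A := by
      rw [hA2]
      refine low_aeval _ σ (fun _ => 1) (fun k => ?_) _ (fun s hs => ?_)
      · refine Fin.lastCases ?_ (fun i => ?_) k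
        · simp only [σ, Fin.lastCases_last]
          intro s _
          exact coeff_zero s
        · simp only [σ, Fin.lastCases_castSucc]
          exact low_of_hom (isHomogeneous_C_mul_X _ _)
      · by_contra hlt
        push Not at hlt
        have : coeff s (bind₁ (fun i => X i + C (p i)) G) = 0 := by
          apply hlow
          rw [Finsupp.degree_eq_sum]
          simpa using hlt
        exact (mem_support_iff.1 hs) this
    -- the homogeneous component
    have hhc : homogeneousComponent (d - j) A = coneCoef p G j := by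
      rw [hA1, map_sum, Finset.sum_eq_single j]
      · exact homogeneousComponent_of_mem (coneCoef_hom p hG h) |>.trans (if_pos rfl)
      · intro i hi hij
        have hi' : i ≤ d := Nat.lt_succ_iff.1 (Finset.mem_range.1 hi)
        rw [homogeneousComponent_of_mem (coneCoef_hom p hG hi'), if_neg]
        omega
      · intro hj'
        exact absurd (Finset.mem_range.2 (Nat.lt_succ_of_le h)) hj'
    rw [← hhc]
    exact low_iff.2 hA3 (d - j) (by omega)

end Pool.Agent.MP5769ea
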