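import Pool.Agent.Lib.MP_5769ea_ag.ExtE

open MvPolynomial

namespace Pool.Agent.MP5769ea

open DescendAux

theorem comp_mem_map_C {A : Type} [CommRing A] (I : Ideal A) {T : Polynomial A}
    (hT : ∀ a, T.coeff a ∈ I) (g : Polynomial A) (j : ℕ) : (T.comp g).coeff j ∈ I := by
  have h : T.comp g ∈ Ideal.map Polynomial.C I := by
    rw [Polynomial.comp, Polynomial.eval₂_eq_sum, Polynomial.sum]
    refine Ideal.sum_mem _ fun a _ => Ideal.mul_mem_right _ _ ?_
    exact Ideal.mem_map_of_mem _ (hT a)
  exact Ideal.mem_map_C_iff.1 h j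

theorem coneCoef_mult {n : ℕ} {p : Fin (n + 1 + 1) → ℂ} (hp : p (Fin.last _) ≠ 0)
    {G : MvPolynomial (Fin (n + 1 + 1)) ℂ} {d : ℕ} (hG : G.IsHomogeneous d) {m : ℤ}
    (hm : MultGE G p m) (q : Fin (n + 1 + 1) → ℂ) {mq : ℤ} (hq : MultGE G q mq) (j : ℕ) :
    MultGE (coneCoef p G j) (prj p q) (mq - (d - m)) := by
  rcases lt_or_ge ((d : ℤ) - m) 0 with hneg | hpos
  · rw [coneCoef_zero_of_mult hG hm (by omega)]
    intro i _
    simp
  set J : ℕ := ((d : ℤ) - m).toNat with hJ
  have hJ' : (J : ℤ) = d - m := Int.toNat_of_nonneg hpos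
  set k : ℕ := mq.toNat - J with hk
  set A := MvPolynomial (Fin (n + 1)) ℂ
  set sh : A →ₐ[ℂ] A := bind₁ (fun i => X i + C (prj p q i)) with hsh
  set c : ℂ := q (Fin.last _) * (p (Fin.last _))⁻¹ with hc
  set Q : Polynomial A := Polynomial.map sh.toRingHom
    (finSuccEquiv ℂ (n + 1) (aeval (coneSub p) G)) with hQ
  set T : Polynomial A := finSuccEquiv ℂ (n + 1)
    (aeval (coneSub p) (bind₁ (fun i => X i + C (q i)) G)) with hT
  -- the Taylor shift
  have hTQ : T = Q.comp (Polynomial.X + Polynomial.C (C c)) := by
    let φ₁ : MvPolynomial (Fin (n + 1 + 1)) ℂ →ₐ[ℂ] Polynomial A :=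
      ((finSuccEquiv ℂ (n + 1)).toAlgHom.comp (aeval (coneSub p))).comp
        (bind₁ (fun i => X i + C (q i)))
    let φ₂ : MvPolynomial (Fin (n + 1 + 1)) ℂ →+* Polynomial A :=
      ((Polynomial.compRingHom (Polynomial.X + Polynomial.C (C c))).comp
        (Polynomial.mapRingHom sh.toRingHom)).comp
          ((finSuccEquiv ℂ (n + 1)).toAlgHom.comp (aeval (coneSub p))).toRingHom
    have hφ : φ₁.toRingHom = φ₂ := by
      apply MvPolynomial.ringHom_ext
      · intro a
        have e1 : φ₁.toRingHom (C a) = Polynomial.C (C a) := φ₁.commutes a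
        have e2 : ((finSuccEquiv ℂ (n + 1)).toAlgHom.comp (aeval (coneSub p))).toRingHom (C a) =
            Polynomial.C (C a) :=
          ((finSuccEquiv ℂ (n + 1)).toAlgHom.comp (aeval (coneSub p))).commutes a
        have e3 : sh.toRingHom (C a) = C a := sh.commutes a
        rw [e1]
        simp only [φ₂, RingHom.comp_apply]
        rw [e2]
        simp only [Polynomial.coe_mapRingHom, Polynomial.map_C, Polynomial.coe_compRingHom_apply,
          Polynomial.C_comp]
        rw [e3]
      · intro i
        have hC : ∀ a : ℂ, finSuccEquiv ℂ (n + 1) (C a) = Polynomial.C (C a) := fun a =>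
          (finSuccEquiv ℂ (n + 1)).commutes a
        have hshC : ∀ a : ℂ, sh.toRingHom (C a) = C a := fun a => sh.commutes a
        have hshX : ∀ i, sh.toRingHom (X i) = X i + C (prj p q i) := fun i => by
          change sh (X i) = _
          rw [hsh, bind₁_X_right]
        have e1 : φ₁.toRingHom (X i) = finSuccEquiv ℂ (n + 1) (coneSub p i) +
            Polynomial.C (C (q i)) := by
          change finSuccEquiv ℂ (n + 1) (aeval (coneSub p) (bind₁ (fun i => X i + C (q i))
            (X i))) = _
          rw [bind₁_X_right, map_add, aeval_X, map_add, aeval_C, MvPolynomial.algebraMap_eq, hC]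
        have e2 : φ₂ (X i) = (Polynomial.map sh.toRingHom
            (finSuccEquiv ℂ (n + 1) (coneSub p i))).comp
              (Polynomial.X + Polynomial.C (C c)) := by
          change (Polynomial.map sh.toRingHom
            (finSuccEquiv ℂ (n + 1) (aeval (coneSub p) (X i)))).comp _ = _
          rw [aeval_X]
        rw [e1, e2]
        have hpc : p (Fin.last _) * c = q (Fin.last _) := by
          rw [hc]; field_simp
        refine Fin.lastCases ?_ (fun j => ?_) i
        · simp only [coneSub, Fin.lastCases_last, map_mul, hC, finSuccEquiv_X_zero,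
            Polynomial.map_mul, Polynomial.map_C, Polynomial.map_X, hshC, Polynomial.mul_comp,
            Polynomial.C_comp, Polynomial.X_comp]
          rw [mul_add, ← Polynomial.C_mul, ← C_mul, hpc]
        · simp only [coneSub, Fin.lastCases_castSucc, map_mul, map_add, hC, finSuccEquiv_X_zero,
            finSuccEquiv_X_succ, Polynomial.map_mul, Polynomial.map_C, Polynomial.map_X,
            Polynomial.map_add, hshC, hshX, Polynomial.mul_comp, Polynomial.add_comp,
            Polynomial.C_comp, Polynomial.X_comp]
          have e3 : q j.castSucc = (p (Fin.last _))⁻¹ * prj p q j + p j.castSucc * c := by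
            simp only [prj, Algebra.algebraMap_self, RingHom.id_apply]
            rw [hc]; field_simp; ring
          rw [e3]
          simp only [C_add, C_mul, Polynomial.C_add, Polynomial.C_mul]
          ring
    exact congrFun (congrArg DFunLike.coe hφ) G
  -- degrees in the cone coordinate
  have hQdeg : Q.natDegree ≤ J := by
    refine (Polynomial.natDegree_map_le).trans ?_
    rw [Polynomial.natDegree_le_iff_coeff_eq_zero]
    intro a ha
    exact coneCoef_zero_of_mult hG hm (by omega)
  have hTdeg : T.natDegree ≤ J := by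
    rw [hTQ]
    refine (Polynomial.natDegree_comp_le).trans ?_
    have : (Polynomial.X + Polynomial.C (C c) : Polynomial A).natDegree ≤ 1 :=
      (Polynomial.natDegree_add_C).le.trans Polynomial.natDegree_X_le
    calc Q.natDegree * _ ≤ J * 1 := Nat.mul_le_mul hQdeg this
      _ = J := mul_one J
  -- the coefficients of `T`
  have hlow : Low mq.toNat (aeval (coneSub p) (bind₁ (fun i => X i + C (q i)) G)) := by
    have h1 := low_of_multGE hq
    refine low_aeval _ (coneSub p) (fun _ => 1) (fun k => low_of_hom (coneSub_hom p k)) _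
      (fun s hs => ?_)
    by_contra hlt
    push Not at hlt
    have : coeff s (bind₁ (fun i => X i + C (q i)) G) = 0 := by
      apply h1
      rw [Finsupp.degree_eq_sum]
      simpa using hlt
    exact (mem_support_iff.1 hs) this
  have hTcoef : ∀ a, T.coeff a ∈ idealOfVars (Fin (n + 1)) ℂ ^ k := by
    intro a
    rcases lt_or_ge J a with ha | ha
    · rw [Polynomial.coeff_eq_zero_of_natDegree_lt (lt_of_le_of_lt hTdeg ha)]
      exact Ideal.zero_mem _
    · rw [mem_pow_idealOfVars_iff']
      intro s hs
      rw [hT, finSuccEquiv_coeff_coeff]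
      apply hlow
      have : (Finsupp.cons a s).degree = a + s.degree := by
        rw [Finsupp.degree_eq_sum, Finsupp.degree_eq_sum, Fin.sum_univ_succ]
        simp
      rw [this]
      omega
  have hQT : Q = T.comp (Polynomial.X - Polynomial.C (C c)) := by
    rw [hTQ, Polynomial.comp_assoc]
    simp
  have hQcoef : Q.coeff j ∈ idealOfVars (Fin (n + 1)) ℂ ^ k := by
    rw [hQT]
    exact comp_mem_map_C _ hTcoef _ j
  have hfin : MultGE (coneCoef p G j) (prj p q) (k : ℤ) := by
    rw [LiftAux.multGE_iff]
    have : Q.coeff j = sh (coneCoef p G j) := by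
      rw [hQ, Polynomial.coeff_map]
      rfl
    rw [← hsh, ← this]
    exact hQcoef
  intro i hi
  apply hfin
  omega

end Pool.Agent.MP5769ea
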