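import Pool.Agent.Lib.MP_5769ea_ag.ExtF

open MvPolynomial

namespace Pool.Agent.MP5769ea

/-- the class `5 H - Σ μ_i E_i` is nonnegative on moving curves, and all effective classes near
it vanish on a subvariety of dimension `≥ e` -/
structure Wit {s n : ℕ} (P : Fin s → Fin (n + 1) → ℂ) (e : ℕ) (μ : Fin s → ℕ) : Prop where
  le5 : ∀ i, μ i ≤ 5
  pos : ∀ (Ω K : Type) [Field Ω] [Field K] [Algebra ℂ Ω] [Algebra Ω K] [Algebra ℂ K]
    [IsScalarTower ℂ Ω K] [IsAlgClosed Ω], IsFF Ω K → ∀ w : Fin (n + 1) → K,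
      (∀ i, wedge w (P i) ≠ 0) → DimGE e w →
      0 ≤ 5 * pdeg Ω w - ∑ i, (μ i : ℤ) * (pdeg Ω w - pdeg Ω (wedge w (P i)))
  base : ∃ (M : ℕ) (K : Type) (_ : Field K) (_ : Algebra ℂ K) (w : Fin (n + 1) → K), 0 < M ∧
    DimGE e w ∧ ∀ (d : ℕ) (m : Fin s → ℤ), 1 ≤ d →
      (∀ i, (M : ℤ) * |5 * m i - μ i * d| ≤ d) → ∀ F ∈ H0 P d m, aeval w F = 0

/-- the induction step: cones -/
theorem wit_step (hBasic : S_FFBasic) {s n : ℕ} (P : Fin (s + 1) → Fin (n + 1 + 1) → ℂ)
    (hp : P (Fin.last s) (Fin.last _) ≠ 0) (e : ℕ) (he : 1 ≤ e)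
    (hP : ∀ i : Fin s, prj (P (Fin.last s)) (P i.castSucc) ≠ 0) (μ : Fin s → ℕ)
    (h : Wit (fun i : Fin s => prj (P (Fin.last s)) (P i.castSucc)) e μ) :
    Wit P (e + 1) (Fin.snoc (α := fun _ => ℕ) μ 5) := by
  set p := P (Fin.last s) with hpdef
  refine ⟨?_, ?_, ?_⟩
  · intro i
    refine Fin.lastCases ?_ (fun j => ?_) i
    · simp
    · simp only [Fin.snoc_castSucc]; exact h.le5 j
  · intro Ω K _ _ _ _ _ _ _ hFF w hw hdim
    have hwp : wedge w p ≠ 0 := hw (Fin.last s)
    have hdim' : DimGE e (prj p w) := dim_prj hp hwp e hdim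
    have hdim1 : DimGE 1 (prj p w) := hdim'.mono he
    have hw' : ∀ i : Fin s, wedge (prj p w) (prj p (P i.castSucc)) ≠ 0 := fun i =>
      wedge_ne_of_dim (hP i) hdim1
    exact conePos hBasic P hp Ω K hFF w hw hw' μ (h.pos Ω K hFF (prj p w) hw' hdim')
  · obtain ⟨M, K, _, _, u, hM, hdim, hvan⟩ := h.base
    have hu : u ≠ 0 := by
      rintro rfl
      have h1 : DimGE 1 (0 : Fin (n + 1) → K) := hdim.mono he
      have hq : (fun _ : Fin (n + 1) => (1 : ℂ)) ≠ 0 := fun h => by
        have := congrFun h 0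
        simp at this
      apply wedge_ne_of_dim hq h1
      funext jk
      simp [wedge]
    obtain ⟨K', _, _, _, _, w, hw1, hw2⟩ := cone_point hp u hu e hdim
    refine ⟨6 * M, K', inferInstance, inferInstance, w, by omega, hw2, ?_⟩
    intro d m hd hm G hG
    obtain ⟨hGh, hGm⟩ := hG
    apply cone_vanish hp hGh w
    intro j
    rw [hw1]
    have hmap : aeval (fun j => algebraMap K K' (u j)) (coneCoef p G j) =
        algebraMap K K' (aeval u (coneCoef p G j)) := by
      have := MvPolynomial.aeval_algebraMap_apply (A := K) (B := K') u (coneCoef p G j)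
      exact this
    rw [hmap]
    have hlast := hm (Fin.last s)
    simp only [Fin.snoc_last] at hlast
    rcases lt_or_ge ((d : ℤ)) (j + m (Fin.last s)) with hj | hj
    · rw [coneCoef_zero_of_mult hGh (hGm (Fin.last s)) hj, map_zero, map_zero]
    · -- the coefficient is a section of a nearby class
      have hM' : (1 : ℤ) ≤ M := by exact_mod_cast hM
      have hd' : (1 : ℤ) ≤ d := by exact_mod_cast hd
      have habs := neg_abs_le (5 * m (Fin.last s) - ((5 : ℕ) : ℤ) * d)
      set J : ℤ := d - m (Fin.last s) with hJ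
      have hJ0 : (j : ℤ) ≤ J := by omega
      have hJ1 : (6 * M : ℤ) * (5 * J) ≤ d := by
        have h1 : 5 * J ≤ |5 * m (Fin.last s) - ((5 : ℕ) : ℤ) * d| := by
          push_cast at habs ⊢
          omega
        calc (6 * M : ℤ) * (5 * J) ≤ (6 * M : ℤ) * |5 * m (Fin.last s) - ((5 : ℕ) : ℤ) * d| :=
              mul_le_mul_of_nonneg_left h1 (by positivity)
          _ ≤ d := by push_cast at hlast ⊢; exact hlast
      have hJ2 : 30 * J ≤ d := by nlinarith
      have hjd : j ≤ d := by
        have : (j : ℤ) ≤ d := by omega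
        exact_mod_cast this
      have hjd1 : 1 ≤ d - j := by
        have : (j : ℤ) < d := by omega
        have : j < d := by exact_mod_cast this
        omega
      have hmem : coneCoef p G j ∈ H0 (fun i : Fin s => prj p (P i.castSucc)) (d - j)
          (fun i => m i.castSucc - J) :=
        ⟨coneCoef_hom p hGh hjd, fun i =>
          coneCoef_mult hp hGh (hGm (Fin.last s)) (P i.castSucc) (hGm i.castSucc) j⟩
      rw [hvan (d - j) (fun i => m i.castSucc - J) hjd1 ?_ _ hmem, map_zero]
      intro i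
      have hi := hm i.castSucc
      simp only [Fin.snoc_castSucc] at hi
      have hμ : (μ i : ℤ) ≤ 5 := by exact_mod_cast h.le5 i
      have hμ0 : (0 : ℤ) ≤ μ i := by positivity
      have hcast : ((d - j : ℕ) : ℤ) = d - j := by
        push_cast [Nat.cast_sub hjd]; ring
      rw [hcast]
      have hj0 : (0 : ℤ) ≤ j := by positivity
      have e1 : 5 * (m i.castSucc - J) - (μ i : ℤ) * (d - j) =
          (5 * m i.castSucc - μ i * d) + ((μ i : ℤ) * j - 5 * J) := by ring
      have h1 : |5 * (m i.castSucc - J) - (μ i : ℤ) * (d - j)| ≤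
          |5 * m i.castSucc - μ i * d| + 5 * J := by
        rw [e1]
        refine (abs_add_le _ _).trans ?_
        have : |(μ i : ℤ) * j - 5 * J| ≤ 5 * J := by
          rw [abs_le]
          constructor
          · nlinarith
          · nlinarith
        linarith
      have h2 : (6 * M : ℤ) * |5 * (m i.castSucc - J) - (μ i : ℤ) * (d - j)| ≤ 2 * d := by
        calc (6 * M : ℤ) * |5 * (m i.castSucc - J) - (μ i : ℤ) * (d - j)|
            ≤ (6 * M : ℤ) * (|5 * m i.castSucc - μ i * d| + 5 * J) :=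
              mul_le_mul_of_nonneg_left h1 (by positivity)
          _ = (6 * M : ℤ) * |5 * m i.castSucc - μ i * d| + (6 * M : ℤ) * (5 * J) := by ring
          _ ≤ d + d := add_le_add (by push_cast at hi ⊢; exact hi) hJ1
          _ = 2 * d := by ring
      set Y := |5 * (m i.castSucc - J) - (μ i : ℤ) * (d - j)|
      have h3 : (M : ℤ) * Y * 3 ≤ d := by linarith
      have h4 : 30 * (j : ℤ) ≤ d := by linarith
      omega

end Pool.Agent.MP5769ea
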