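import Pool.Agent.Lib.MP_5769ea_ag.ExtG
import Pool.Agent.Lib.MP_5769ea_ag.Asm4
import Pool.Agent.Lib.MP_5769ea_ag.PairClosure

open MvPolynomial Filter Topology

namespace Pool.Agent.MP5769ea

/-- rational approximation of an element of a closed cone, general form -/
theorem approxGen {s : ℕ} (μ : Fin s → ℕ) (M : ℕ) (S : Set (ℝ × (Fin s → ℝ)))
    (hmem : ((5 : ℝ), fun i => (μ i : ℝ)) ∈
      closure (Submodule.span NNReal S : Set (ℝ × (Fin s → ℝ)))) :
    ∃ (k : ℕ) (c : Fin k → ℝ × (Fin s → ℝ)) (n : Fin k → ℕ), (∀ j, c j ∈ S) ∧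
      1 ≤ (∑ j, n j • c j).1 ∧
      ∀ i : Fin s, (M : ℝ) * |5 * (∑ j, n j • c j).2 i - μ i * (∑ j, n j • c j).1| ≤
        (∑ j, n j • c j).1 := by
  let O : Set (ℝ × (Fin s → ℝ)) := {v | 0 < v.1 ∧
    ∀ i : Fin s, (M : ℝ) * |5 * v.2 i - μ i * v.1| < v.1}
  have hO : IsOpen O := by
    have h0 : IsOpen {v : ℝ × (Fin s → ℝ) | 0 < v.1} := isOpen_lt continuous_const continuous_fst
    have h2 : ∀ i : Fin s,
        IsOpen {v : ℝ × (Fin s → ℝ) | (M : ℝ) * |5 * v.2 i - μ i * v.1| < v.1} := by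
      intro i
      apply isOpen_lt _ continuous_fst
      fun_prop
    have e : O = {v : ℝ × (Fin s → ℝ) | 0 < v.1} ∩
        ⋂ i : Fin s, {v | (M : ℝ) * |5 * v.2 i - μ i * v.1| < v.1} := by
      ext v
      simp [O]
    rw [e]
    exact h0.inter (isOpen_iInter_of_finite h2)
  have hD : ((5 : ℝ), fun i => (μ i : ℝ)) ∈ O := by
    refine ⟨by norm_num, fun i => ?_⟩
    have : (5 : ℝ) * (μ i : ℝ) - μ i * 5 = 0 := by ring
    simp only
    rw [this]
    norm_num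
  obtain ⟨v, hvO, hvS⟩ := mem_closure_iff.1 hmem O hO hD
  obtain ⟨k, f, g, hfg⟩ := (Submodule.mem_span_set' (R := NNReal)).1 hvS
  let O' : Set (ℝ × (Fin s → ℝ)) := O ∩ {u | v.1 / 2 < u.1}
  have hO' : IsOpen O' := hO.inter (isOpen_lt continuous_const continuous_fst)
  have hvO' : v ∈ O' := ⟨hvO, by
    have := hvO.1
    change v.1 / 2 < v.1
    linarith⟩
  let seq : ℕ → Fin k → ℝ := fun N j => (⌊(f j : ℝ) * N⌋₊ : ℝ) / N
  have hseq : Tendsto seq atTop (𝓝 fun j => (f j : ℝ)) := by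
    rw [tendsto_pi_nhds]
    intro j
    exact (tendsto_nat_floor_mul_div_atTop (f j).2).comp tendsto_natCast_atTop_atTop
  let Φ : (Fin k → ℝ) → ℝ × (Fin s → ℝ) := fun r => ∑ j, r j • (g j : ℝ × (Fin s → ℝ))
  have hΦ : Continuous Φ := by
    apply continuous_finsetSum
    intro j _
    exact (continuous_apply j).smul continuous_const
  have hΦf : Φ (fun j => (f j : ℝ)) = v := by
    rw [← hfg]; rfl
  have ht : Tendsto (fun N => Φ (seq N)) atTop (𝓝 v) := by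
    rw [← hΦf]
    exact (hΦ.tendsto _).comp hseq
  have hev1 : ∀ᶠ N in atTop, Φ (seq N) ∈ O' := ht.eventually (hO'.mem_nhds hvO')
  have hev2 : ∀ᶠ N : ℕ in atTop, 2 / v.1 ≤ (N : ℝ) :=
    tendsto_natCast_atTop_atTop.eventually (eventually_ge_atTop _)
  have hev3 : ∀ᶠ N : ℕ in atTop, 1 ≤ N := eventually_ge_atTop 1
  obtain ⟨N, ⟨⟨hN0, hN2⟩, hN3⟩, hN4, hN5⟩ := (hev1.and (hev2.and hev3)).exists
  have hNpos : (0 : ℝ) < N := by exact_mod_cast hN5
  refine ⟨k, fun j => g j, fun j => ⌊(f j : ℝ) * N⌋₊, fun j => (g j).2, ?_⟩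
  have hsum : ∑ j, ⌊(f j : ℝ) * N⌋₊ • (g j : ℝ × (Fin s → ℝ)) = (N : ℝ) • Φ (seq N) := by
    simp only [Φ, seq]
    rw [Finset.smul_sum]
    refine Finset.sum_congr rfl fun j _ => ?_
    rw [smul_smul, mul_div_cancel₀ _ hNpos.ne', Nat.cast_smul_eq_nsmul]
  rw [hsum]
  set u := Φ (seq N) with hu
  have hsc : ∀ (a q : ℝ), (M : ℝ) * |5 * a - q * u.1| < u.1 →
      (M : ℝ) * |5 * ((N : ℝ) * a) - q * ((N : ℝ) * u.1)| ≤ (N : ℝ) * u.1 := by
    intro a q h
    have e : 5 * ((N : ℝ) * a) - q * ((N : ℝ) * u.1) = N * (5 * a - q * u.1) := by ring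
    rw [e, abs_mul, abs_of_pos hNpos]
    calc (M : ℝ) * ((N : ℝ) * |5 * a - q * u.1|) = N * (M * |5 * a - q * u.1|) := by ring
      _ ≤ N * u.1 := mul_le_mul_of_nonneg_left h.le hNpos.le
  simp only [Prod.smul_fst, Prod.smul_snd, Pi.smul_apply, smul_eq_mul]
  refine ⟨?_, fun i => hsc _ _ (hN2 i)⟩
  have hv1 : 0 < v.1 := hvO.1
  have h1 : v.1 / 2 < u.1 := hN3
  have h2 : 2 ≤ (N : ℝ) * v.1 := by
    rwa [div_le_iff₀ hv1] at hN4
  nlinarith

/-- the class is not in the divisor cone -/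
theorem wit_notMem (hMul : S_H0Mul) {s n : ℕ} {P : Fin s → Fin (n + 1) → ℂ} {e : ℕ}
    (he : 1 ≤ e) (hP : ∀ i, P i ≠ 0) {μ : Fin s → ℕ} (h : Wit P e μ) :
    ((5 : ℝ), fun i => (μ i : ℝ)) ∉
      closure (Submodule.span NNReal (goodClasses P e) : Set (ℝ × (Fin s → ℝ))) := by
  intro hmem
  obtain ⟨M, K, _, _, w, hM, hdim, hvan⟩ := h.base
  obtain ⟨k, C, n, hC, h1, h3⟩ := approxGen μ M _ hmem
  have hwed : ∀ i, wedge w (P i) ≠ 0 := fun i => wedge_ne_of_dim (hP i) (hdim.mono he)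
  have hch : ∀ j, ∃ (d : ℕ) (m : Fin s → ℤ), C j = ((d : ℝ), fun i => ((m i : ℤ) : ℝ)) ∧
      HasSec P w d m := by
    intro j
    obtain ⟨d, m, hcj, -, hgood⟩ := hC j
    exact ⟨d, m, hcj, (hgood K inferInstance inferInstance).1 w hwed hdim⟩
  choose d m hdm hsec using hch
  have hsum := HasSec.sum hMul Finset.univ (fun j => n j * d j) (fun j => n j • m j)
    (fun j _ => HasSec.nsmul hMul (hsec j) (n j))
  obtain ⟨l, hl, G, hG0, hGw⟩ := hsum
  have hv1 : (∑ j, n j • C j).1 = ((∑ j, n j * d j : ℕ) : ℝ) := by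
    rw [Prod.fst_sum]
    push_cast
    refine Finset.sum_congr rfl fun j _ => ?_
    rw [hdm j]
    simp
  have hv2 : ∀ i, (∑ j, n j • C j).2 i = (((∑ j, n j • m j) i : ℤ) : ℝ) := by
    intro i
    rw [Prod.snd_sum, Finset.sum_apply, Finset.sum_apply]
    push_cast
    refine Finset.sum_congr rfl fun j _ => ?_
    rw [hdm j]
    simp
  rw [hv1] at h1 h3
  set d' := ∑ j, n j * d j with hd'
  set m' := ∑ j, n j • m j with hm'
  have h1' : 1 ≤ d' := by exact_mod_cast h1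
  have h3' : ∀ i : Fin s, (M : ℤ) * |5 * m' i - μ i * (d' : ℤ)| ≤ d' := by
    intro i
    have := h3 i
    rw [hv2] at this
    exact_mod_cast this
  have hl' : (0 : ℤ) < l := by exact_mod_cast hl
  apply hGw
  refine hvan (l * d') (fun i => l * m' i) (Nat.mul_pos hl h1') (fun i => ?_) G hG0
  push_cast
  have e : 5 * ((l : ℤ) * m' i) - μ i * (l * d') = l * (5 * m' i - μ i * d') := by ring
  rw [e, abs_mul, abs_of_pos hl']
  calc (M : ℤ) * ((l : ℤ) * |5 * m' i - μ i * d'|) = l * (M * |5 * m' i - μ i * d'|) := by ring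
    _ ≤ l * d' := mul_le_mul_of_nonneg_left (h3' i) hl'.le

theorem pair_clOut {s n : ℕ} (P : Fin s → Fin (n + 1) → ℂ) (Ω : Type) {K : Type} [Field Ω]
    [Field K] [Algebra Ω K] [Algebra ℂ K] (μ : Fin s → ℕ) (w : Fin (n + 1) → K) :
    pair (clOut P Ω w) ((5 : ℝ), fun i => (μ i : ℝ)) =
      ((5 * pdeg Ω w - ∑ i, (μ i : ℤ) * (pdeg Ω w - pdeg Ω (wedge w (P i))) : ℤ) : ℝ) := by
  simp only [pair, clOut]
  push_cast
  congr 1
  · ring
  · exact Finset.sum_congr rfl fun i _ => by ring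

/-- a witness gives strict inclusion of the cones -/
theorem wit_strict (hMul : S_H0Mul) (hSec : S_SecPos) (hBasic : S_FFBasic) {s n : ℕ}
    {P : Fin s → Fin (n + 1) → ℂ}
    (hprop : ∀ i j, i ≠ j → ∃ k l, P i k * P j l - P i l * P j k ≠ 0) (hP : ∀ i, P i ≠ 0)
    {k : ℕ} (he : 1 ≤ n - k) {μ : Fin s → ℕ} (h : Wit P (n - k) μ) :
    movingCone P k ⊂ dualCone (divisorCone P k) := by
  refine ⟨?_, ?_⟩
  · intro γ hγ D hD
    exact PairClosure s (movingClasses P (n - k)) (goodClasses P (n - k))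
      (pair_nonneg hSec hBasic P hprop hP (n - k)) γ hγ D hD
  · intro hsub
    obtain ⟨γ, hγ1, hγ2⟩ := Sep s (goodClasses P (n - k)) _ (wit_notMem hMul he hP h)
    have hγ : γ ∈ movingCone P k := hsub hγ2
    have hDpos : ∀ γ ∈ movingClasses P (n - k),
        ∀ D ∈ ({((5 : ℝ), fun i => (μ i : ℝ))} : Set (ℝ × (Fin s → ℝ))), 0 ≤ pair γ D := by
      rintro γ ⟨Ω, K, _, _, _, _, _, _, hac, hFF, hγ⟩ D hD
      rw [Set.mem_singleton_iff] at hD
      subst hD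
      have : CharZero Ω := charZeroOfC Ω
      rcases hγ with ⟨w, hw, -, hdim, rfl⟩ | ⟨i, u, hu, -, hdim, rfl⟩
      · rw [pair_clOut]
        exact_mod_cast h.pos Ω K hFF w hw hdim
      · rw [pair_clExc]
        have h2 : 0 ≤ pdeg Ω (wedge u (P i)) := (hBasic Ω K hFF).1 _ _ hu
        have h2' : (0 : ℝ) ≤ ((pdeg Ω (wedge u (P i)) : ℤ) : ℝ) := by exact_mod_cast h2
        exact mul_nonneg h2' (by positivity)
    have := PairClosure s (movingClasses P (n - k)) _ hDpos γ hγ _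
      (subset_closure (Submodule.subset_span (Set.mem_singleton _)))
    exact absurd hγ1 (not_lt.2 this)

end Pool.Agent.MP5769ea
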