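import Pool.Agent.Lib.MP_5769ea_ag.All

/-!
# MP_5769ea_ag, the final theorem
-/

open MvPolynomial

namespace Pool.Agent.MP5769ea

theorem goal : Goal := by
  have hPD := PDBasic
  have hPR := PDRank
  have hO := OrdBasic
  have hQK := QKer
  have hPsi := PsiW
  have hWro := Wro
  have hQS := QStep hPD hPR hO hQK hPsi hWro
  have hQN := QNef hPD hPR hO hQK hPsi
  have hQA1 := QA1 hPR hQS
  have hQA3 := QA3 hPD hPR hO hQK hPsi hWro hQS
  have hQT := QT6 hPD hPR hO hQK hPsi hWro hQS
  have hSC := SemiCont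
  have hGB := GenBound hSC
  have hSi := Simple
  have hDims := Dims hPR hQA1 hGB hO
  have hVV := VVRank hDims hO
  have hBG := BzGlobal hPD hPR
  have hBz := Bezout hPD hO BzJets BzLocal hBG
  have hDF := DetForm hPD hO hDims
  have hPO := PairOf hPD hPR hO
  have hPB := PairBez hBz
  have hGP := GenPos hSi
  have hTD := T6Def hSC hPR
  have hTP := T6Phi hTD hQT hGB hPR hO
  have hTW := T6W hSi hPD hPR hO
  have hTE := T6Ex hPD hPR hBz
  have hTI := T6Irr hPD hPR hO hBz hSi
  have hTU := T6Uni hTI hPD hO hBz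
  have hT6 := T6 hTP hTW hTE hTI hTU hPR hO
  have hFP := FFProd FFCount
  have hFE := FFExt FFCount hFP
  have hFB := FFBasic hFP
  have hSec := SecPos LocIneq hFP hFB
  have hPN := PlaneNef PlaneLoc hFP hFB hPR
  have hSP := SigPos SigLoc hPN hFP hFB
  have hNJ := NefJ hQN hSC hPR
  have hSt := Strict hPD hPR hO hQK hPsi
  have hIr := IrrSp hNJ hSt hPD hPR hBz
  have hNE := NonEff hIr hPD hPR hO hSC
  have hSB := SigBase (Gpoly MultV hPD hO) hNE
  have hSD := SigDim hSi hPR
  exact goal_of Interp hPO hVV hQA3 hGB hPB Num Small0 Small1 (Small2 hGP) (Small3 hGP)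
    (Small4 hGP) hT6 GenUp hDF SigSmall SmallNot Descend GaleBasic hSec hSP hFE hFB
    H0Mul Approx hSD Lift hSB Sep PairClosure GaleEx

end Pool.Agent.MP5769ea
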