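import Pool.Agent.Lib.MP_5769ea_ag.ExtH
import Pool.Agent.Lib.MP_5769ea_ag.Final

open MvPolynomial

namespace Pool.Agent.MP5769ea

/-- algebraic independence of polynomial expressions with a polynomial retraction, over `ℚ` -/
theorem algInd_of_retractQ {ι κ : Type} (x : ι → ℂ)
    (hx : AlgebraicIndependent ℚ x) (g : κ → MvPolynomial ι ℚ) (r : ι → MvPolynomial κ ℚ)
    (hr : ∀ k, bind₁ r (g k) = X k) : AlgebraicIndependent ℚ fun k => aeval x (g k) := by
  rw [algebraicIndependent_iff]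
  intro p hp
  have h1 : aeval x (bind₁ g p) = 0 := by
    rw [aeval_bind₁]
    exact hp
  have h2 : bind₁ g p = 0 := by
    rw [algebraicIndependent_iff] at hx
    exact hx _ h1
  have h3 : bind₁ r (bind₁ g p) = p := by
    rw [bind₁_bind₁]
    simp only [hr]
    exact aeval_X_left_apply p
  rw [← h3, h2, map_zero]

/-- coordinates of very general points -/
def VG {s n : ℕ} (P : Fin s → Fin (n + 1) → ℂ) : Prop :=
  AlgebraicIndependent ℚ (fun ij : Fin s × Fin (n + 1) => P ij.1 ij.2)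

theorem VG.ne_zero {s n : ℕ} {P : Fin s → Fin (n + 1) → ℂ} (h : VG P) (i : Fin s)
    (j : Fin (n + 1)) : P i j ≠ 0 := by
  exact AlgebraicIndependent.ne_zero h (i, j)

theorem VG.prop {s n : ℕ} {P : Fin s → Fin (n + 1) → ℂ} (h : VG P) (hn : 1 ≤ n) :
    ∀ i j, i ≠ j → ∃ k l, P i k * P j l - P i l * P j k ≠ 0 := by
  intro i j hij
  refine ⟨0, Fin.last _, fun h0 => ?_⟩
  have h1 := (algebraicIndependent_iff.1 h)
    (X (i, 0) * X (j, Fin.last _) - X (i, Fin.last _) * X (j, 0)) (by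
      simp only [map_sub, map_mul, aeval_X]
      exact h0)
  have h01 : (0 : Fin (n + 1)) ≠ Fin.last _ := by
    intro h
    have := congrArg Fin.val h
    simp at this
    omega
  have h2 := congrArg (eval (fun ab : Fin s × Fin (n + 1) =>
    if ab = (i, 0) ∨ ab = (j, Fin.last _) then (1 : ℚ) else 0)) h1
  simp [h01, h01.symm, hij, hij.symm] at h2

/-- the projection of very general points is very general -/
theorem VG.prj {s n : ℕ} {P : Fin (s + 1) → Fin (n + 1 + 1) → ℂ} (h : VG P) :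
    VG (fun i : Fin s => prj (P (Fin.last s)) (P i.castSucc)) := by
  have h1 := algInd_of_retractQ (fun ij : Fin (s + 1) × Fin (n + 1 + 1) => P ij.1 ij.2) h
    (fun ij : Fin s × Fin (n + 1) =>
      X (ij.1.castSucc, ij.2.castSucc) * X (Fin.last s, Fin.last _) -
        X (ij.1.castSucc, Fin.last _) * X (Fin.last s, ij.2.castSucc))
    (fun ab : Fin (s + 1) × Fin (n + 1 + 1) =>
      Fin.lastCases (motive := fun _ => MvPolynomial (Fin s × Fin (n + 1)) ℚ)
        (Fin.lastCases (motive := fun _ => MvPolynomial (Fin s × Fin (n + 1)) ℚ) 1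
          (fun _ => 0) ab.2)
        (fun i => Fin.lastCases (motive := fun _ => MvPolynomial (Fin s × Fin (n + 1)) ℚ) 0
          (fun j => X (i, j)) ab.2) ab.1) (by
      rintro ⟨i, j⟩
      simp)
  unfold VG
  have e : (fun ij : Fin s × Fin (n + 1) =>
      Pool.Agent.MP5769ea.prj (P (Fin.last s)) (P ij.1.castSucc) ij.2) =
      fun k : Fin s × Fin (n + 1) => aeval (fun ij : Fin (s + 1) × Fin (n + 1 + 1) => P ij.1 ij.2)
        (X (k.1.castSucc, k.2.castSucc) * X (Fin.last s, Fin.last _) -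
          X (k.1.castSucc, Fin.last _) * X (Fin.last s, k.2.castSucc) :
            MvPolynomial (Fin (s + 1) × Fin (n + 1 + 1)) ℚ) := by
    funext ij
    simp only [map_sub, map_mul, aeval_X, Pool.Agent.MP5769ea.prj, Algebra.algebraMap_self,
      RingHom.id_apply]
  rw [e]
  exact h1

/-- the base case `P^9` -/
theorem wit_base (P : Fin 13 → Fin (9 + 1) → ℂ) (h : VG P) :
    Wit P 4 (Fin.cons 3 fun _ => 4) := by
  obtain ⟨c, t, y, hG⟩ := GaleEx P h
  have hPD := PDBasic
  have hPR := PDRank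
  have hO := OrdBasic
  have hQK := QKer
  have hPsi := PsiW
  have hWro := Wro
  have hQS := QStep hPD hPR hO hQK hPsi hWro
  have hQN := QNef hPD hPR hO hQK hPsi
  have hQA1 := QA1 hPR hQS
  have hQA3 := QA3 hPD hPR hO hQK hPsi hWro hQS
  have hQT := QT6 hPD hPR hO hQK hPsi hWro hQS
  have hSC := SemiCont
  have hGB := GenBound hSC
  have hSi := Simple
  have hDims := Dims hPR hQA1 hGB hO
  have hVV := VVRank hDims hO
  have hBG := BzGlobal hPD hPR
  have hBz := Bezout hPD hO BzJets BzLocal hBG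
  have hDF := DetForm hPD hO hDims
  have hPO := PairOf hPD hPR hO
  have hPB := PairBez hBz
  have hGP := GenPos hSi
  have hTD := T6Def hSC hPR
  have hTP := T6Phi hTD hQT hGB hPR hO
  have hTW := T6W hSi hPD hPR hO
  have hTE := T6Ex hPD hPR hBz
  have hTI := T6Irr hPD hPR hO hBz hSi
  have hTU := T6Uni hTI hPD hO hBz
  have hT6 := T6 hTP hTW hTE hTI hTU hPR hO
  have hFP := FFProd FFCount
  have hFE := FFExt FFCount hFP
  have hFB := FFBasic hFP
  have hSec := SecPos LocIneq hFP hFB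
  have hPN := PlaneNef PlaneLoc hFP hFB hPR
  have hSP := SigPos SigLoc hPN hFP hFB
  have hNJ := NefJ hQN hSC hPR
  have hSt := Strict hPD hPR hO hQK hPsi
  have hIr := IrrSp hNJ hSt hPD hPR hBz
  have hNE := NonEff hIr hPD hPR hO hSC
  have hSB := SigBase (Gpoly MultV hPD hO) hNE
  have hSD := SigDim hSi hPR
  refine ⟨?_, ?_, ?_⟩
  · intro i
    refine Fin.cases ?_ (fun j => ?_) i
    · simp
    · simp
  · intro Ω K _ _ _ _ _ _ _ hFF w hw hdim
    have := outCase Interp hPO hVV hQA3 hGB hPB Num Small0 Small1 (Small2 hGP) (Small3 hGP)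
      (Small4 hGP) hT6 GenUp hDF SigSmall SmallNot Descend GaleBasic hSec hSP hFE hFB hG Ω K hFF
      w hw hdim
    unfold Xdeg at this
    rw [Fin.sum_univ_succ]
    simp only [Fin.cons_zero, Fin.cons_succ]
    rw [← Finset.mul_sum]
    push_cast
    linarith
  · -- the generic point of `Σ_4`
    let K := FractionRing (MvPolynomial (Fin 4) ℂ)
    have hind : AlgebraicIndependent ℂ
        (fun i : Fin 4 => algebraMap (MvPolynomial (Fin 4) ℂ) K (X i)) := by
      have h := MvPolynomial.algebraicIndependent_X (Fin 4) ℂ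
      have hinj : Function.Injective (IsScalarTower.toAlgHom ℂ (MvPolynomial (Fin 4) ℂ) K) :=
        IsFractionRing.injective _ _
      exact (AlgHom.algebraicIndependent_iff _ hinj).2 h
    set θ₁ : K := algebraMap (MvPolynomial (Fin 4) ℂ) K (X 0) with hθ₁
    set η₁ : K := algebraMap (MvPolynomial (Fin 4) ℂ) K (X 1) with hη₁
    set θ₂ : K := algebraMap (MvPolynomial (Fin 4) ℂ) K (X 2) with hθ₂
    set η₂ : K := algebraMap (MvPolynomial (Fin 4) ℂ) K (X 3) with hη₂
    have hind' : AlgebraicIndependent ℂ ![θ₁, η₁, θ₂, η₂] := by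
      have e : ![θ₁, η₁, θ₂, η₂] =
          fun i : Fin 4 => algebraMap (MvPolynomial (Fin 4) ℂ) K (X i) := by
        funext i
        fin_cases i <;> rfl
      rw [e]; exact hind
    let x : Fin 12 → K := fun i => (algebraMap ℂ K (t i) - θ₁) * (algebraMap ℂ K (t i) - θ₂) /
      ((algebraMap ℂ K (y i) - η₁) * (θ₂ - θ₁) - (η₂ - η₁) * (algebraMap ℂ K (t i) - θ₁))
    obtain ⟨hdim, hwed⟩ := hSD P c t y hG K θ₁ η₁ θ₂ η₂ hind' x (fun i => rfl)
    refine ⟨10000, K, inferInstance, inferInstance, piMap P c x, by norm_num, hdim, ?_⟩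
    intro d' m' h1' hm G hG0
    have h2' : 10000 * |5 * m' 0 - 3 * (d' : ℤ)| ≤ d' := by
      have := hm 0
      simp only [Fin.cons_zero] at this
      exact_mod_cast this
    have h3' : ∀ i : Fin 12, 10000 * |5 * m' i.succ - 4 * (d' : ℤ)| ≤ d' := by
      intro i
      have := hm i.succ
      simp only [Fin.cons_succ] at this
      exact_mod_cast this
    have hpos : ∀ z q : ℤ, 10000 * |5 * z - q| ≤ d' → 3 * (d' : ℤ) ≤ q → 0 ≤ z := by
      intro z q hz hq
      have := neg_abs_le (5 * z - q)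
      omega
    have hm0 : 0 ≤ m' 0 := hpos _ _ h2' (by omega)
    have hmi : ∀ i : Fin 12, 0 ≤ m' i.succ := fun i => hpos _ _ (h3' i) (by omega)
    obtain ⟨F, hF1, hF2⟩ := Lift P c t y hG _ _ G hG0
    have := hSB t y hG.gen d' (m' 0).toNat
      (fun i => (m' i.succ).toNat) F hF1 h1'
      (by rw [Int.toNat_of_nonneg hm0]; exact h2')
      (fun i => by rw [Int.toNat_of_nonneg (hmi i)]; exact h3' i)
      K θ₁ η₁ θ₂ η₂ hind' x (fun i => rfl)
    rw [hF2 K x] at this
    exact this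

/-- witnesses for all `n ≥ 9` -/
theorem wit_all (N : ℕ) : ∀ P : Fin (13 + N) → Fin (9 + N + 1) → ℂ, VG P →
    ∃ μ, Wit P (4 + N) μ := by
  induction N with
  | zero => exact fun P h => ⟨_, wit_base P h⟩
  | succ N ih =>
    intro P h
    obtain ⟨μ, hμ⟩ := ih _ (VG.prj (s := 13 + N) (n := 9 + N) (P := P) h)
    refine ⟨_, wit_step (s := 13 + N) (n := 9 + N) (FFBasic (FFProd FFCount)) P
      (VG.ne_zero h _ _) (4 + N) (by omega) (fun i h0 => ?_) μ hμ⟩
    have := VG.ne_zero (VG.prj (s := 13 + N) (n := 9 + N) (P := P) h) i 0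
    exact this (congrFun h0 0)

/-- strong duality fails for `X^n_{n+4}`, `n ≥ 9` -/
theorem goal_all (n : ℕ) (hn : 9 ≤ n) (P : Fin (n + 4) → Fin (n + 1) → ℂ)
    (hP : AlgebraicIndependent ℚ (fun ij : Fin (n + 4) × Fin (n + 1) => P ij.1 ij.2)) :
    movingCone P 5 ⊂ dualCone (divisorCone P 5) := by
  obtain ⟨N, rfl⟩ := Nat.exists_eq_add_of_le hn
  have key : ∀ s : ℕ, s = 13 + N → ∀ P : Fin s → Fin (9 + N + 1) → ℂ, VG P →
      ∃ μ, Wit P (9 + N - 5) μ := by
    rintro s rfl P h
    rw [show 9 + N - 5 = 4 + N by omega]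
    exact wit_all N P h
  obtain ⟨μ, hμ⟩ := key (9 + N + 4) (by omega) P hP
  have hVG : VG P := hP
  have hFB := FFBasic (FFProd FFCount)
  exact wit_strict H0Mul (SecPos LocIneq (FFProd FFCount) hFB) hFB (VG.prop hVG (by omega))
    (fun i h0 => VG.ne_zero hVG i 0 (congrFun h0 0)) (by omega) hμ

end Pool.Agent.MP5769ea
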