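import Pool.Agent.Lib.MP_5769ea_ag.Spec1

open MvPolynomial

namespace Pool.Agent.MP5769ea

namespace GenBoundAux

theorem exists_field (N : ℕ) : ∃ (K₁ : Type) (_ : Field K₁) (_ : CharZero K₁) (s : Fin N → K₁),
    AlgebraicIndependent ℚ s := by
  let K₁ := FractionRing (MvPolynomial (Fin N) ℚ)
  have hcz : CharZero K₁ := by
    have h : Function.Injective (algebraMap ℚ K₁) := (algebraMap ℚ K₁).injective
    exact charZero_of_injective_algebraMap h
  refine ⟨K₁, inferInstance, hcz, fun i => algebraMap (MvPolynomial (Fin N) ℚ) K₁ (X i), ?_⟩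
  have h1 : AlgebraicIndependent ℚ (fun i => algebraMap (MvPolynomial (Fin N) ℚ) K₁ (X i)) := by
    have hX : AlgebraicIndependent ℚ (fun i : Fin N => (X i : MvPolynomial (Fin N) ℚ)) :=
      MvPolynomial.algebraicIndependent_X (Fin N) ℚ
    have := AlgebraicIndependent.map' (f := IsScalarTower.toAlgHom ℚ (MvPolynomial (Fin N) ℚ) K₁) hX
      (IsFractionRing.injective (MvPolynomial (Fin N) ℚ) K₁)
    exact this
  convert h1

end GenBoundAux

theorem GenBound (hSC : S_SemiCont) : S_GenBound := by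
  intro N d μ g B hB K _ _ t y hG
  obtain ⟨K₁, _, _, s, hs⟩ := GenBoundAux.exists_field N
  have hb := hB K₁ s hs
  let R := MvPolynomial (Fin N ⊕ Fin N) ℚ
  let φ : R →+* K₁ := (aeval (R := ℚ) (Sum.elim (fun i => s i ^ 2) (fun i => s i ^ 4 + s i))).toRingHom
  let ι : R →+* K := (aeval (R := ℚ) (Sum.elim t y)).toRingHom
  have hι : Function.Injective ι := hG
  have h := hSC R K₁ K φ ι hι N (fun i => ![X (Sum.inl i), X (Sum.inr i)]) d μ g
  have e1 : (fun (i : Fin N) (j : Fin 2) => ι ((![X (Sum.inl i), X (Sum.inr i)] : Fin 2 → R) j)) = pt t y := by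
    funext i j
    fin_cases j
    · exact aeval_X (R := ℚ) (Sum.elim t y) (Sum.inl i)
    · exact aeval_X (R := ℚ) (Sum.elim t y) (Sum.inr i)
  have e2 : (fun (i : Fin N) (j : Fin 2) => φ ((![X (Sum.inl i), X (Sum.inr i)] : Fin 2 → R) j)) = sp s := by
    funext i j
    fin_cases j
    · exact aeval_X (R := ℚ) (Sum.elim (fun i => s i ^ 2) (fun i => s i ^ 4 + s i)) (Sum.inl i)
    · exact aeval_X (R := ℚ) (Sum.elim (fun i => s i ^ 2) (fun i => s i ^ 4 + s i)) (Sum.inr i)
  rw [e1, e2] at h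
  exact h.trans hb

end Pool.Agent.MP5769ea
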