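import Pool.Agent.Lib.MP_5769ea_ag.Spec1
import Pool.Agent.Lib.MP_5769ea_ag.Spec4

/-!
# MP_5769ea_ag: NonEff, the inequality for effective classes at 13 generic points
-/

open MvPolynomial

namespace Pool.Agent.MP5769ea

namespace NonEffAux

theorem mem_HH {K : Type} [Field K] {N : ℕ} (q : Fin N → Fin 2 → K) (d μ : ℤ) (g : Fin N → ℤ)
    (F : MvPolynomial (Fin 2) K) :
    F ∈ HH q d μ g ↔ F ∈ PD K d μ ∧ ∀ i, F ∈ OrdGE (q i) (g i) := by
  unfold HH
  rw [Submodule.mem_inf, Submodule.mem_iInf]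

/-- the inequality for all nonzero polynomials at the special points -/
theorem ineq (hIrr : S_IrrSp) (hPD : S_PDBasic) (hOrd : S_OrdBasic) (K : Type) [Field K]
    [CharZero K] (s : Fin 12 → K) (z : Fin 2 → K) (hind : AlgebraicIndependent ℚ (Sum.elim s z))
    (F : MvPolynomial (Fin 2) K) : F ≠ 0 →
    ∃ β : Fin 13 → ℕ, (∀ i, F ∉ OrdGE (sp13 s z i) ((β i : ℤ) + 1)) ∧
      (F.totalDegree : ℤ) ≤
          51 * (26 * (F.totalDegree + F.degreeOf 1) - 12 * ∑ i, (β i : ℤ)) := by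
  refine WfDvdMonoid.induction_on_irreducible F ?_ ?_ ?_
  · intro h; exact absurd rfl h
  · intro u hu _
    refine ⟨fun _ => 0, fun i h => ?_, ?_⟩
    · have h1 := ((hOrd K (sp13 s z i)).2.2.2.2.2 u).1 (by simpa using h)
      have h2 := hu.map (eval (sp13 s z i))
      rw [h1] at h2
      exact not_isUnit_zero h2
    · obtain ⟨c, _, rfl⟩ := isUnit_iff_eq_C_of_isReduced.1 hu
      simp
  · intro G C hG hC ih _
    obtain ⟨β, hβ1, hβ2⟩ := ih hG
    have hC0 : C ≠ 0 := hC.ne_zero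
    have hk : ∀ i, ∃ k : ℕ, C ∈ OrdGE (sp13 s z i) k ∧ C ∉ OrdGE (sp13 s z i) (k + 1) :=
      fun i => (hOrd K (sp13 s z i)).2.2.2.2.1 C hC0
    choose k hk1 hk2 using hk
    have h1 := hIrr K s z hind C hC k hk1
    obtain ⟨hd1, hd2⟩ := (hPD K).2.2 C G hC0 hG
    refine ⟨fun i => k i + β i, fun i => ?_, ?_⟩
    · have h2 := (hOrd K (sp13 s z i)).2.2.2.1 C G _ _ (hk2 i) (hβ1 i)
      have e : ((k i : ℤ) + 1 + ((β i : ℤ) + 1) - 1) = (((k i + β i : ℕ) : ℤ) + 1) := by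
        push_cast; ring
      rw [e] at h2
      exact h2
    · rw [hd1, hd2]
      push_cast
      rw [Finset.sum_add_distrib]
      linarith

/-- the field -/
abbrev KK : Type := FractionRing (MvPolynomial (Fin 12 ⊕ Fin 2) ℚ)

noncomputable def ss (i : Fin 12) : KK := algebraMap (MvPolynomial (Fin 12 ⊕ Fin 2) ℚ) KK (X (Sum.inl i))
noncomputable def zz (i : Fin 2) : KK := algebraMap (MvPolynomial (Fin 12 ⊕ Fin 2) ℚ) KK (X (Sum.inr i))

theorem indep : AlgebraicIndependent ℚ (Sum.elim ss zz) := by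
  have h1 : AlgebraicIndependent ℚ (X : Fin 12 ⊕ Fin 2 → MvPolynomial (Fin 12 ⊕ Fin 2) ℚ) :=
    algebraicIndependent_X _ _
  have h2 := h1.map' (f := IsScalarTower.toAlgHom ℚ (MvPolynomial (Fin 12 ⊕ Fin 2) ℚ) KK)
    (IsFractionRing.injective _ _)
  convert! h2 using 1
  funext i
  rcases i with i | i <;> rfl

end NonEffAux

open NonEffAux in
theorem NonEff (hIrr : S_IrrSp) (hPD : S_PDBasic) (hRank : S_PDRank) (hOrd : S_OrdBasic)
    (hSemi : S_SemiCont) : S_NonEff := by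
  intro K _ _ t y hgen A M b F hF hFH
  by_contra hcon
  push Not at hcon
  have hchar : CharZero KK := algebraRat.charZero KK
  -- the space at the special points is zero
  have hbot : HH (sp13 ss zz) A M b = ⊥ := by
    rw [Submodule.eq_bot_iff]
    intro G hG
    by_contra hG0
    obtain ⟨β, hβ1, hβ2⟩ := ineq hIrr hPD hOrd KK ss zz indep G hG0
    rw [mem_HH] at hG
    obtain ⟨h1, h2⟩ := hG
    obtain ⟨h3, h4⟩ := ((hPD KK).1 G A M hG0).1 h1
    have h5 : ∀ i, b i ≤ β i := by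
      intro i
      by_contra h6
      push Not at h6
      exact hβ1 i ((hOrd KK (sp13 ss zz i)).2.1 _ _ (by linarith) (h2 i))
    have h7 : ∑ i, b i ≤ ∑ i, (β i : ℤ) := Finset.sum_le_sum fun i _ => h5 i
    linarith
  let ι : MvPolynomial (Fin 13 ⊕ Fin 13) ℚ →+* K :=
    (aeval (Sum.elim t y) : MvPolynomial (Fin 13 ⊕ Fin 13) ℚ →ₐ[ℚ] K).toRingHom
  let φ : MvPolynomial (Fin 13 ⊕ Fin 13) ℚ →+* KK :=
    (aeval (Sum.elim (fun i => sp13 ss zz i 0) (fun i => sp13 ss zz i 1)) :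
      MvPolynomial (Fin 13 ⊕ Fin 13) ℚ →ₐ[ℚ] KK).toRingHom
  have hι : Function.Injective ι := hgen
  have h := hSemi _ KK K φ ι hι 13 (fun i => ![X (Sum.inl i), X (Sum.inr i)]) A M b
  have e1 : (fun (i : Fin 13) (j : Fin 2) => φ ((![X (Sum.inl i), X (Sum.inr i)] :
      Fin 2 → MvPolynomial (Fin 13 ⊕ Fin 13) ℚ) j)) = sp13 ss zz := by
    funext i j
    fin_cases j <;> simp [φ]
  have e2 : (fun (i : Fin 13) (j : Fin 2) => ι ((![X (Sum.inl i), X (Sum.inr i)] :
      Fin 2 → MvPolynomial (Fin 13 ⊕ Fin 13) ℚ) j)) = pt t y := by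
    funext i j
    fin_cases j <;> simp [ι, pt]
  rw [e1, e2, hbot, finrank_bot] at h
  have hfd : FiniteDimensional K (PD K A M) := (hRank K).1 A M
  have hfd2 : FiniteDimensional K (HH (pt t y) A M b) :=
    Submodule.finiteDimensional_of_le (S₂ := PD K A M) inf_le_left
  have h0 : HH (pt t y) A M b = ⊥ := Submodule.finrank_eq_zero.1 (Nat.le_zero.1 h)
  rw [h0] at hFH
  exact hF ((Submodule.mem_bot K).1 hFH)

end Pool.Agent.MP5769ea
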