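import Pool.Agent.Lib.MP_5769ea_ag.Spec1

/-!
# MP_5769ea_ag: the dimension of `HH(4m+6, 2m+1; m+1)`
-/

open MvPolynomial

namespace Pool.Agent.MP5769ea

/-- **QA1.** -/
theorem QA1 (hPDRank : S_PDRank) (hQStep : S_QStep) : S_QA1 := by
  intro K _ _ s hs m
  -- one step
  have step : ∀ m : ℕ,
      (Module.finrank K (HH (sp s) (4 * m + 6) (2 * m + 1) (fun _ => (m : ℤ) + 1)) : ℤ) ≤
        1 + Module.finrank K (HH (sp s) (4 * m + 2) (2 * m - 1) (fun _ => (m : ℤ))) := by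
    intro m
    have h := hQStep K 12 s hs (4 * m + 6) (2 * m + 1) (fun _ => (m : ℤ) + 1) (by omega) (by omega)
    have e1 : (((4 * m + 6 : ℕ) : ℤ)) = 4 * (m : ℤ) + 6 := by push_cast; ring
    have e2 : (((2 * m + 1 : ℕ) : ℤ)) = 2 * (m : ℤ) + 1 := by push_cast; ring
    rw [e1, e2] at h
    have e3 : (4 * (m : ℤ) + 6 - 4) = 4 * m + 2 := by ring
    have e4 : (2 * (m : ℤ) + 1 - 2) = 2 * m - 1 := by ring
    have e5 : (fun _ : Fin 12 => (m : ℤ) + 1 - 1) = fun _ => (m : ℤ) := by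
      funext _
      ring
    rw [e3, e4, e5] at h
    have e6 : ∑ _i : Fin 12, max ((m : ℤ) + 1) 0 = 12 * ((m : ℤ) + 1) := by
      rw [Finset.sum_const, Finset.card_univ, Fintype.card_fin, nsmul_eq_mul, max_eq_left]
      · norm_num
      · positivity
    rw [e6] at h
    have e7 : max 0 (2 * (4 * (m : ℤ) + 6) + 2 * (2 * m + 1) - 1 - 12 * ((m : ℤ) + 1)) = 1 := by
      have : 2 * (4 * (m : ℤ) + 6) + 2 * (2 * m + 1) - 1 - 12 * ((m : ℤ) + 1) = 1 := by ring
      rw [this]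
      norm_num
    rw [e7] at h
    exact h
  have main : ∀ m : ℕ,
      (Module.finrank K (HH (sp s) (4 * m + 6) (2 * m + 1) (fun _ => (m : ℤ) + 1)) : ℤ) ≤
        (m : ℤ) + 1 := by
    intro m
    induction m with
    | zero =>
      have h := step 0
      have hbot : HH (sp s) (4 * ((0 : ℕ) : ℤ) + 2) (2 * ((0 : ℕ) : ℤ) - 1)
          (fun _ => ((0 : ℕ) : ℤ)) = ⊥ := by
        unfold HH
        rw [(hPDRank K).2.1 _ _ (Or.inr (by norm_num)), bot_inf_eq]
      rw [hbot, finrank_bot] at h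
      simpa using h
    | succ n ih =>
      have h := step (n + 1)
      have e1 : 4 * ((n + 1 : ℕ) : ℤ) + 2 = 4 * (n : ℤ) + 6 := by push_cast; ring
      have e2 : 2 * ((n + 1 : ℕ) : ℤ) - 1 = 2 * (n : ℤ) + 1 := by push_cast; ring
      have e3 : (fun _ : Fin 12 => ((n + 1 : ℕ) : ℤ)) = fun _ => (n : ℤ) + 1 := by
        funext _
        push_cast
        ring
      rw [e1, e2, e3] at h
      refine h.trans ?_
      have e4 : ((n + 1 : ℕ) : ℤ) + 1 = 1 + ((n : ℤ) + 1) := by push_cast; ring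
      rw [e4]
      linarith
  have h := main m
  exact_mod_cast h

end Pool.Agent.MP5769ea
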