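import Pool.Agent.Lib.MP_5769ea_ag.FFBasic
import Pool.Agent.Lib.MP_5769ea_ag.SecPos

open MvPolynomial

namespace Pool.Agent.MP5769ea

/-- algebraic independence of polynomial expressions with a polynomial retraction -/
theorem algInd_of_retract {K ι κ : Type} [Field K] [Algebra ℂ K] (x : ι → K)
    (hx : AlgebraicIndependent ℂ x) (g : κ → MvPolynomial ι ℂ) (r : ι → MvPolynomial κ ℂ)
    (hr : ∀ k, bind₁ r (g k) = X k) : AlgebraicIndependent ℂ fun k => aeval x (g k) := by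
  rw [algebraicIndependent_iff]
  intro p hp
  have h1 : aeval x (bind₁ g p) = 0 := by
    rw [aeval_bind₁]
    exact hp
  have h2 : bind₁ g p = 0 := by
    rw [algebraicIndependent_iff] at hx
    exact hx _ h1
  have h3 : bind₁ r (bind₁ g p) = p := by
    rw [bind₁_bind₁]
    simp only [hr]
    exact aeval_X_left_apply p
  rw [← h3, h2, map_zero]

/-- the norm of a vector of `2 × 2` minors -/
theorem nrm_le_add {K ι ι₁ ι₂ : Type} [Field K] [Fintype ι] [Fintype ι₁] [Fintype ι₂]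
    (v : Valuation K (WithZero (Multiplicative ℤ))) (u : ι → K) (w₁ : ι₁ → K) (w₂ : ι₂ → K)
    (hu : u ≠ 0) (h₁ : w₁ ≠ 0) (h₂ : w₂ ≠ 0)
    (h : ∀ k, v (u k) ≤ (Finset.univ.sup fun j => v (w₁ j)) * (Finset.univ.sup fun j => v (w₂ j))) :
    nrm v u ≤ nrm v w₁ + nrm v w₂ := by
  obtain ⟨k, hk, hk1, -⟩ := exists_nrm_eq v u hu
  obtain ⟨j₁, hj₁⟩ := Function.ne_iff.1 h₁
  obtain ⟨j₂, hj₂⟩ := Function.ne_iff.1 h₂
  rw [hk1, nrm, nrm, ← WithZero.log_mul (sup_ne_zero_of v w₁ hj₁) (sup_ne_zero_of v w₂ hj₂)]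
  exact WZ_log_mono (v.ne_zero_iff.2 hk) (h k)

theorem gen_t_ne {K : Type} [Field K] [CharZero K] {N : ℕ} {t y : Fin N → K} (h : Gen t y) :
    ∀ i j, i ≠ j → t i ≠ t j := by
  intro i j hij hc
  have hinj := AlgebraicIndependent.injective h
  have : (Sum.inl i : Fin N ⊕ Fin N) = Sum.inl j := hinj (by simpa using hc)
  exact hij (Sum.inl_injective this)

theorem SigPos (hSigLoc : S_SigLoc) (hNef : S_PlaneNef) (hProd : S_FFProd) (hBasic : S_FFBasic) :
    S_SigPos := by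
  intro P c t y hG Ω K _ _ _ _ _ _ _ hFF θ₁ θ₂ a b x hind hx hwed
  have : CharZero Ω := charZero_of_injective_algebraMap (algebraMap ℂ Ω).injective
  obtain ⟨-, hsm, hsupp⟩ := hBasic Ω K hFF
  have ht : ∀ i j, i ≠ j → t i ≠ t j := gen_t_ne hG.gen
  -- nonvanishing of polynomial expressions
  have hne : ∀ p : MvPolynomial (Fin 4) ℂ, p ≠ 0 → aeval ![θ₁, θ₂, a, b] p ≠ 0 := by
    intro p hp h
    rw [algebraicIndependent_iff] at hind
    exact hp (hind p h)
  have hne' : ∀ (p : MvPolynomial (Fin 4) ℂ) (e : Fin 4 → ℂ), eval e p ≠ 0 →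
      aeval ![θ₁, θ₂, a, b] p ≠ 0 := by
    intro p e he
    apply hne
    rintro rfl
    simp at he
  have hθ : θ₁ ≠ θ₂ := by
    have := hne' (X 0 - X 1) ![0, 1, 0, 0] (by simp)
    simp only [map_sub, aeval_X] at this
    exact sub_ne_zero.1 (by simpa using this)
  have hA : ∀ i, algebraMap ℂ K (y i) + a + b * algebraMap ℂ K (t i) ≠ 0 := by
    intro i
    have := hne' (C (y i) + X 2 + X 3 * C (t i)) ![0, 0, 1 - y i, 0] (by simp)
    simp only [map_add, map_mul, aeval_X, aeval_C] at this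
    simpa using this
  have hz1 : ∀ i, zz1 θ₁ (-a - b * θ₁) (t i) (y i) ≠ 0 := by
    intro i h
    have := hne' (X 0 - C (t i)) ![t i + 1, 0, 0, 0] (by simp)
    simp only [map_sub, aeval_X, aeval_C] at this
    exact this (congrFun h 0)
  have hz2 : ∀ i, zz1 θ₂ (-a - b * θ₂) (t i) (y i) ≠ 0 := by
    intro i h
    have := hne' (X 1 - C (t i)) ![0, t i + 1, 0, 0] (by simp)
    simp only [map_sub, aeval_X, aeval_C] at this
    exact this (congrFun h 0)
  -- the points are generic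
  have hi1 : AlgebraicIndependent ℂ ![θ₁, -a - b * θ₁] := by
    have := algInd_of_retract _ hind (![X 0, -X 2 - X 3 * X 0] : Fin 2 → MvPolynomial (Fin 4) ℂ)
      (![X 0, X 0, -X 1, 0] : Fin 4 → MvPolynomial (Fin 2) ℂ) (by
        intro k
        fin_cases k <;> simp)
    convert this using 1
    funext k
    fin_cases k <;> simp
  have hi2 : AlgebraicIndependent ℂ ![θ₂, -a - b * θ₂] := by
    have := algInd_of_retract _ hind (![X 1, -X 2 - X 3 * X 1] : Fin 2 → MvPolynomial (Fin 4) ℂ)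
      (![X 0, X 0, -X 1, 0] : Fin 4 → MvPolynomial (Fin 2) ℂ) (by
        intro k
        fin_cases k <;> simp)
    convert this using 1
    funext k
    fin_cases k <;> simp
  have hN1 := hNef t y ht Ω K hFF θ₁ (-a - b * θ₁) hi1
  have hN2 := hNef t y ht Ω K hFF θ₂ (-a - b * θ₂) hi2
  set w := piMap P c x with hw
  have hwne : w ≠ 0 := by
    intro h
    apply hwed 0
    rw [h]
    funext jk
    simp [wedge]
  set η₁ := -a - b * θ₁ with hη₁
  set η₂ := -a - b * θ₂ with hη₂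
  have hlamne : (![a, b, 1] : Fin 3 → K) ≠ 0 := fun h => by
    have := congrFun h 2
    simp at this
  have hzz : ∀ θ η : K, zz θ η ≠ 0 := fun θ η h => by
    have := congrFun h 0
    simp [zz] at this
  have hzz0 : ∀ θ : K, zz0 θ ≠ 0 := fun θ h => by
    have := congrFun h 0
    simp [zz0] at this
  classical
  -- the finite set of places
  have s1 := hsupp _ w hwne
  have s2 : (⋃ i : Fin 13, Function.support fun v : Place Ω K => nrm v.1 (wedge w (P i))).Finite :=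
    Set.finite_iUnion fun i => hsupp _ _ (hwed i)
  have s3 := hsupp _ (zz θ₁ η₁) (hzz _ _)
  have s4 := hsupp _ (zz θ₂ η₂) (hzz _ _)
  have s5 := hsupp _ (zz0 θ₁) (hzz0 _)
  have s6 := hsupp _ (zz0 θ₂) (hzz0 _)
  have s7 : (⋃ i : Fin 12, Function.support fun v : Place Ω K =>
      nrm v.1 (zz1 θ₁ η₁ (t i) (y i))).Finite := Set.finite_iUnion fun i => hsupp _ _ (hz1 i)
  have s8 : (⋃ i : Fin 12, Function.support fun v : Place Ω K =>
      nrm v.1 (zz1 θ₂ η₂ (t i) (y i))).Finite := Set.finite_iUnion fun i => hsupp _ _ (hz2 i)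
  have s9 := hsupp _ ((θ₂ - θ₁) • (![a, b, 1] : Fin 3 → K))
    (smul_ne_zero (sub_ne_zero.2 hθ.symm) hlamne)
  have s9' := hsupp _ (![a, b, 1] : Fin 3 → K) hlamne
  have s10 : (⋃ i : Fin 12, Function.support fun v : Place Ω K =>
      WithZero.log (v.1 (algebraMap ℂ K (y i) + a + b * algebraMap ℂ K (t i)))).Finite :=
    Set.finite_iUnion fun i => log_support hProd Ω K hFF _ (hA i)
  have hS := ((((((((((s1.union s2).union s3).union s4).union s5).union s6).union s7).union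
    s8).union s9).union s9').union s10)
  let T : Finset (Place Ω K) := hS.toFinset
  have hTmem : ∀ v, v ∈ T ↔ _ := fun v => Set.Finite.mem_toFinset hS
  have toT : ∀ f : Place Ω K → ℤ, (Function.support f ⊆ (T : Set (Place Ω K))) →
      ∑ᶠ v, f v = ∑ v ∈ T, f v := fun f hf => finsum_eq_sum_of_support_subset _ hf
  have e1 : pdeg Ω w = ∑ v ∈ T, nrm v.1 w := toT _ (by
    intro v hv
    rw [Finset.mem_coe, hTmem]
    simp only [Set.mem_union]
    tauto)
  have e2 : ∀ i, pdeg Ω (wedge w (P i)) = ∑ v ∈ T, nrm v.1 (wedge w (P i)) := fun i => toT _ (by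
    intro v hv
    have : v ∈ (⋃ i : Fin 13, Function.support fun v : Place Ω K => nrm v.1 (wedge w (P i))) :=
      Set.mem_iUnion.2 ⟨i, hv⟩
    rw [Finset.mem_coe, hTmem]
    simp only [Set.mem_union]
    tauto)
  have e3 : pdeg Ω (zz θ₁ η₁) = ∑ v ∈ T, nrm v.1 (zz θ₁ η₁) := toT _ (by
    intro v hv
    rw [Finset.mem_coe, hTmem]
    simp only [Set.mem_union]
    tauto)
  have e4 : pdeg Ω (zz θ₂ η₂) = ∑ v ∈ T, nrm v.1 (zz θ₂ η₂) := toT _ (by
    intro v hv
    rw [Finset.mem_coe, hTmem]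
    simp only [Set.mem_union]
    tauto)
  have e5 : pdeg Ω (zz0 θ₁) = ∑ v ∈ T, nrm v.1 (zz0 θ₁) := toT _ (by
    intro v hv
    rw [Finset.mem_coe, hTmem]
    simp only [Set.mem_union]
    tauto)
  have e6 : pdeg Ω (zz0 θ₂) = ∑ v ∈ T, nrm v.1 (zz0 θ₂) := toT _ (by
    intro v hv
    rw [Finset.mem_coe, hTmem]
    simp only [Set.mem_union]
    tauto)
  have e7 : ∀ i, pdeg Ω (zz1 θ₁ η₁ (t i) (y i)) = ∑ v ∈ T, nrm v.1 (zz1 θ₁ η₁ (t i) (y i)) :=
    fun i => toT _ (by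
    intro v hv
    have : v ∈ (⋃ i : Fin 12, Function.support fun v : Place Ω K =>
      nrm v.1 (zz1 θ₁ η₁ (t i) (y i))) := Set.mem_iUnion.2 ⟨i, hv⟩
    rw [Finset.mem_coe, hTmem]
    simp only [Set.mem_union]
    tauto)
  have e8 : ∀ i, pdeg Ω (zz1 θ₂ η₂ (t i) (y i)) = ∑ v ∈ T, nrm v.1 (zz1 θ₂ η₂ (t i) (y i)) :=
    fun i => toT _ (by
    intro v hv
    have : v ∈ (⋃ i : Fin 12, Function.support fun v : Place Ω K =>
      nrm v.1 (zz1 θ₂ η₂ (t i) (y i))) := Set.mem_iUnion.2 ⟨i, hv⟩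
    rw [Finset.mem_coe, hTmem]
    simp only [Set.mem_union]
    tauto)
  have e9 : pdeg Ω ((θ₂ - θ₁) • (![a, b, 1] : Fin 3 → K)) =
      ∑ v ∈ T, nrm v.1 ((θ₂ - θ₁) • (![a, b, 1] : Fin 3 → K)) := toT _ (by
    intro v hv
    rw [Finset.mem_coe, hTmem]
    simp only [Set.mem_union]
    tauto)
  have e9' : pdeg Ω (![a, b, 1] : Fin 3 → K) =
      ∑ v ∈ T, nrm v.1 (![a, b, 1] : Fin 3 → K) := toT _ (by
    intro v hv
    rw [Finset.mem_coe, hTmem]
    simp only [Set.mem_union]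
    tauto)
  have e10 : ∀ i, ∑ v ∈ T,
      WithZero.log (v.1 (algebraMap ℂ K (y i) + a + b * algebraMap ℂ K (t i))) = 0 := by
    intro i
    rw [← (hProd Ω K hFF _ (hA i)).2]
    symm
    apply toT
    intro v hv
    have : v ∈ (⋃ i : Fin 12, Function.support fun v : Place Ω K =>
      WithZero.log (v.1 (algebraMap ℂ K (y i) + a + b * algebraMap ℂ K (t i)))) :=
      Set.mem_iUnion.2 ⟨i, hv⟩
    rw [Finset.mem_coe, hTmem]
    simp only [Set.mem_union]
    tauto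
  -- the degree of the line
  have hδ : pdeg Ω (![a, b, 1] : Fin 3 → K) ≤ pdeg Ω (zz θ₁ η₁) + pdeg Ω (zz θ₂ η₂) := by
    rw [← hsm _ _ (θ₂ - θ₁) hlamne (sub_ne_zero.2 hθ.symm), e9, e3, e4, ← Finset.sum_add_distrib]
    refine Finset.sum_le_sum fun v _ => ?_
    refine nrm_le_add v.1 _ _ _ (smul_ne_zero (sub_ne_zero.2 hθ.symm) hlamne) (hzz _ _) (hzz _ _) ?_
    have hle : ∀ (j k : Fin 3), v.1 (zz θ₁ η₁ j * zz θ₂ η₂ k) ≤
        (Finset.univ.sup fun j => v.1 (zz θ₁ η₁ j)) *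
          (Finset.univ.sup fun j => v.1 (zz θ₂ η₂ j)) := by
      intro j k
      rw [map_mul]
      exact mul_le_mul' (Finset.le_sup (f := fun j => v.1 (zz θ₁ η₁ j)) (Finset.mem_univ j))
        (Finset.le_sup (f := fun j => v.1 (zz θ₂ η₂ j)) (Finset.mem_univ k))
    have hmin : ∀ (j k j' k' : Fin 3), v.1 (zz θ₁ η₁ j * zz θ₂ η₂ k - zz θ₁ η₁ j' * zz θ₂ η₂ k') ≤
        (Finset.univ.sup fun j => v.1 (zz θ₁ η₁ j)) *
          (Finset.univ.sup fun j => v.1 (zz θ₂ η₂ j)) := by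
      intro j k j' k'
      exact (v.1.map_sub _ _).trans (max_le (hle j k) (hle j' k'))
    intro k
    fin_cases k
    · have := hmin 1 2 2 1
      convert this using 2
      simp [zz, hη₁, hη₂]
      ring
    · have := hmin 2 0 0 2
      convert this using 2
      simp [zz, hη₁, hη₂]
      ring
    · have := hmin 0 1 1 0
      convert this using 2
      simp [zz]
  -- sum up
  have hle : ∑ v ∈ T, (-nrm v.1 ![a, b, 1] - 9 * (nrm v.1 (zz θ₁ η₁) + nrm v.1 (zz θ₂ η₂)) +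
            2 * (nrm v.1 (zz0 θ₁) + nrm v.1 (zz0 θ₂)) +
            ∑ i, (nrm v.1 (zz1 θ₁ η₁ (t i) (y i)) +
              nrm v.1 (zz1 θ₂ η₂ (t i) (y i)) -
              WithZero.log (v.1 (algebraMap ℂ K (y i) + a + b * algebraMap ℂ K (t i))))) ≤
      ∑ v ∈ T, (5 * nrm v.1 w - 3 * (nrm v.1 w - nrm v.1 (wedge w (P 0))) -
            4 * ∑ i : Fin 12, (nrm v.1 w - nrm v.1 (wedge w (P i.succ)))) :=
    Finset.sum_le_sum fun v _ => hSigLoc P c t y hG K v.1 v.2.1 (place_trivial v) θ₁ θ₂ a b x hθ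
      hA hx hz1 hz2 hwed
  have eL : ∑ v ∈ T, (-nrm v.1 ![a, b, 1] - 9 * (nrm v.1 (zz θ₁ η₁) + nrm v.1 (zz θ₂ η₂)) +
            2 * (nrm v.1 (zz0 θ₁) + nrm v.1 (zz0 θ₂)) +
            ∑ i, (nrm v.1 (zz1 θ₁ η₁ (t i) (y i)) +
              nrm v.1 (zz1 θ₂ η₂ (t i) (y i)) -
              WithZero.log (v.1 (algebraMap ℂ K (y i) + a + b * algebraMap ℂ K (t i))))) =
      -pdeg Ω (![a, b, 1] : Fin 3 → K) - 9 * (pdeg Ω (zz θ₁ η₁) + pdeg Ω (zz θ₂ η₂)) +
        2 * (pdeg Ω (zz0 θ₁) + pdeg Ω (zz0 θ₂)) +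
        ∑ i, (pdeg Ω (zz1 θ₁ η₁ (t i) (y i)) + pdeg Ω (zz1 θ₂ η₂ (t i) (y i))) := by
    rw [Finset.sum_add_distrib, Finset.sum_add_distrib, Finset.sum_sub_distrib,
      Finset.sum_neg_distrib, ← Finset.mul_sum, ← Finset.mul_sum, Finset.sum_add_distrib,
      Finset.sum_add_distrib, Finset.sum_comm, ← e9', ← e3, ← e4, ← e5, ← e6]
    congr 1
    refine Finset.sum_congr rfl fun i _ => ?_
    rw [Finset.sum_sub_distrib, Finset.sum_add_distrib, e10, ← e7, ← e8, sub_zero]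
  have eR : ∑ v ∈ T, (5 * nrm v.1 w - 3 * (nrm v.1 w - nrm v.1 (wedge w (P 0))) -
            4 * ∑ i : Fin 12, (nrm v.1 w - nrm v.1 (wedge w (P i.succ)))) =
      5 * pdeg Ω w - 3 * (pdeg Ω w - pdeg Ω (wedge w (P 0))) -
            4 * ∑ i : Fin 12, (pdeg Ω w - pdeg Ω (wedge w (P i.succ))) := by
    rw [Finset.sum_sub_distrib, Finset.sum_sub_distrib, ← Finset.mul_sum, ← Finset.mul_sum,
      ← Finset.mul_sum, Finset.sum_sub_distrib, Finset.sum_comm, ← e1, ← e2]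
    congr 2
    refine Finset.sum_congr rfl fun i _ => ?_
    rw [Finset.sum_sub_distrib, ← e1, ← e2]
  rw [eL, eR] at hle
  refine le_trans ?_ hle
  rw [Finset.sum_add_distrib]
  rw [Finset.sum_sub_distrib] at hN1 hN2
  simp only [Finset.sum_const, Finset.card_univ, Fintype.card_fin, nsmul_eq_mul] at hN1 hN2
  push_cast at hN1 hN2
  linarith

end Pool.Agent.MP5769ea
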