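import Pool.Agent.Lib.MP_5769ea_ag.Spec1

open MvPolynomial

namespace Pool.Agent.MP5769ea

namespace VVRankAux

variable {K : Type} [Field K]

/-- the second projection on `VV` -/
noncomputable def pr (t y x : Fin 12 → K) (m : ℕ) :
    VV t y x m →ₗ[K] MvPolynomial (Fin 2) K :=
  (LinearMap.snd K (MvPolynomial (Fin 2) K) (MvPolynomial (Fin 2) K)).comp (VV t y x m).subtype

theorem pr_apply (t y x : Fin 12 → K) (m : ℕ) (v : VV t y x m) : pr t y x m v = v.1.2 := rfl

theorem mem_HH {N : ℕ} (q : Fin N → Fin 2 → K) (d μ : ℤ) (g : Fin N → ℤ)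
    (F : MvPolynomial (Fin 2) K) :
    F ∈ HH q d μ g ↔ F ∈ PD K d μ ∧ ∀ i, F ∈ OrdGE (q i) (g i) := by
  unfold HH
  rw [Submodule.mem_inf, Submodule.mem_iInf]

theorem mem_VV (t y x : Fin 12 → K) (m : ℕ) (p : MvPolynomial (Fin 2) K × MvPolynomial (Fin 2) K) :
    p ∈ VV t y x m ↔ p.1 ∈ PD K (4 * m + 6) (2 * m + 1) ∧ p.2 ∈ PD K (4 * m + 5) (2 * m + 1) ∧
    ∀ i, p.2 ∈ OrdGE (pt t y i) m ∧ p.1 - C (x i) * p.2 ∈ OrdGE (pt t y i) (m + 1) := Iff.rfl

/-- the kernel of the projection -/
noncomputable def kerEquiv (t y x : Fin 12 → K) (m : ℕ) :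
    LinearMap.ker (pr t y x m) ≃ₗ[K]
      HH (pt t y) (4 * m + 6) (2 * m + 1) (fun _ => (m : ℤ) + 1) where
  toFun v := ⟨v.1.1.1, by
    have hv := v.1.2
    have hk : v.1.1.2 = 0 := by
      have := v.2
      rw [LinearMap.mem_ker] at this
      exact this
    rw [mem_VV] at hv
    rw [mem_HH]
    refine ⟨hv.1, fun i => ?_⟩
    have := (hv.2.2 i).2
    rw [hk, mul_zero, sub_zero] at this
    exact this⟩
  map_add' a b := rfl
  map_smul' c a := rfl
  invFun F := ⟨⟨(F.1, 0), by
    have hF := F.2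
    rw [mem_HH] at hF
    rw [mem_VV]
    refine ⟨hF.1, Submodule.zero_mem _, fun i => ⟨Submodule.zero_mem _, ?_⟩⟩
    simpa using hF.2 i⟩, by
    rw [LinearMap.mem_ker]; rfl⟩
  left_inv v := by
    have hk : v.1.1.2 = 0 := by
      have := v.2
      rw [LinearMap.mem_ker] at this
      exact this
    apply Subtype.ext
    apply Subtype.ext
    apply Prod.ext
    · rfl
    · exact hk.symm
  right_inv F := rfl

end VVRankAux

open VVRankAux

theorem VVRank (hD : S_Dims) (hO : S_OrdBasic) : S_VVRank := by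
  intro K _ _ t y x hG m
  obtain ⟨_, h2, h3, h4⟩ := hD K t y hG m
  have hrange : LinearMap.range (pr t y x m) =
      HH (pt t y) (4 * m + 5) (2 * m + 1) (fun _ => (m : ℤ)) := by
    ext R
    constructor
    · rintro ⟨v, rfl⟩
      have hv := v.2
      rw [mem_VV] at hv
      rw [mem_HH]
      exact ⟨hv.2.1, fun i => (hv.2.2 i).1⟩
    · intro hR
      rw [mem_HH] at hR
      obtain ⟨F, hF, hF2⟩ := h4 (fun i => C (x i) * R) (fun i => by
        have := (hO K (pt t y i)).2.2.1 (C (x i)) R 0 m le_rfl (by positivity)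
          (by rw [(hO K (pt t y i)).1 0 le_rfl]; trivial) (hR.2 i)
        simpa using this)
      rw [mem_HH] at hF
      refine ⟨⟨(F, R), ?_⟩, rfl⟩
      rw [mem_VV]
      exact ⟨hF.1, hR.1, fun i => ⟨hR.2 i, hF2 i⟩⟩
  have hfr : Module.finrank K (LinearMap.range (pr t y x m)) = 11 * m + 11 := by
    rw [hrange]; exact h2
  have hfk : Module.finrank K (LinearMap.ker (pr t y x m)) = m + 1 := by
    rw [LinearEquiv.finrank_eq (kerEquiv t y x m)]
    exact h3
  have f1 : Module.Finite K (LinearMap.range (pr t y x m)) :=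
    Module.finite_of_finrank_pos (by omega)
  have f2 : Module.Finite K (LinearMap.ker (pr t y x m)) := by
    have f2' : Module.Finite K
        (HH (pt t y) (4 * m + 6) (2 * m + 1) (fun _ => (m : ℤ) + 1)) :=
      Module.finite_of_finrank_pos (by rw [h3]; omega)
    exact Module.Finite.equiv (kerEquiv t y x m).symm
  have f3 : Module.Finite K (VV t y x m ⧸ LinearMap.ker (pr t y x m)) :=
    Module.Finite.equiv (LinearMap.quotKerEquivRange (pr t y x m)).symm
  have f4 : Module.Finite K (VV t y x m) :=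
    Module.Finite.of_submodule_quotient (LinearMap.ker (pr t y x m))
  have hrk := LinearMap.finrank_range_add_finrank_ker (pr t y x m)
  omega

end Pool.Agent.MP5769ea
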